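import Pool.Agent.H75.EK.Defs

/-! Module ABEL: partial summation, from `∑ w(p) log p / p` to `∑ w(p)/p`. -/

open Polynomial Finset
open scoped Real BigOperators

namespace EK75

/-- the summand, supported on primes -/
noncomputable def abel_c (w : ℕ → ℝ) (n : ℕ) : ℝ := if n.Prime then w n * Real.log n / n else 0

theorem abel_sum_eq (w : ℕ → ℝ) (t : ℝ) : ∑ n ∈ Icc 0 ⌊t⌋₊, abel_c w n = Msum w t := by
  unfold Msum prLe abel_c
  rw [Finset.sum_filter]
  refine Finset.sum_congr ?_ (fun _ _ => rfl)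
  ext n
  simp only [mem_Icc, mem_range]
  omega

theorem abel_deriv {t : ℝ} (ht : 2 ≤ t) :
    HasDerivAt (fun t : ℝ => 1 / Real.log t) (-(1 / (t * Real.log t ^ 2))) t := by
  have h0 : t ≠ 0 := by linarith
  have hl : Real.log t ≠ 0 := (Real.log_pos (by linarith)).ne'
  have h1 := (Real.hasDerivAt_log h0).inv hl
  have e1 : (fun t : ℝ => 1 / Real.log t) = (fun t : ℝ => Real.log t)⁻¹ := by
    funext s; simp [one_div]
  rw [e1]
  convert! h1 using 1
  field_simp

theorem abel_deriv_eq {t : ℝ} (ht : 2 ≤ t) :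
    deriv (fun t : ℝ => 1 / Real.log t) t = -(1 / (t * Real.log t ^ 2)) := (abel_deriv ht).deriv

theorem abel_cont {a b : ℝ} (ha : 2 ≤ a) :
    ContinuousOn (fun t : ℝ => 1 / (t * Real.log t ^ 2)) (Set.Icc a b) := by
  apply ContinuousOn.div continuousOn_const
  · apply ContinuousOn.mul continuousOn_id
    apply ContinuousOn.pow
    exact Real.continuousOn_log.mono (fun t ht => by
      have := ht.1
      simp only [Set.mem_compl_iff, Set.mem_singleton_iff]
      linarith)
  · intro t ht
    have h1 : 0 < Real.log t := Real.log_pos (by linarith [ht.1])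
    have h2 : 0 < t := by linarith [ht.1]
    positivity

theorem abel_int {a b : ℝ} (ha : 2 ≤ a) :
    MeasureTheory.IntegrableOn (deriv (fun t : ℝ => 1 / Real.log t)) (Set.Icc a b) := by
  have h1 : MeasureTheory.IntegrableOn (fun t : ℝ => -(1 / (t * Real.log t ^ 2))) (Set.Icc a b) :=
    ((abel_cont ha).neg).integrableOn_compact isCompact_Icc
  refine h1.congr_fun ?_ measurableSet_Icc
  intro t ht
  exact (abel_deriv_eq (ha.trans ht.1)).symm

/-- partial summation -/
theorem abel_main (w : ℕ → ℝ) {a b : ℝ} (ha : 2 ≤ a) (hab : a ≤ b) :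
    Ssum w a b = Msum w b / Real.log b - Msum w a / Real.log a +
      ∫ t in Set.Ioc a b, (1 / (t * Real.log t ^ 2)) * Msum w t := by
  have h1 := sum_mul_eq_sub_sub_integral_mul (abel_c w) (f := fun t : ℝ => 1 / Real.log t)
    (a := a) (b := b) (by linarith) hab
    (fun t ht => (abel_deriv (ha.trans ht.1)).differentiableAt) (abel_int ha)
  have h2 : Ssum w a b = ∑ k ∈ Ioc ⌊a⌋₊ ⌊b⌋₊, (1 / Real.log k) * abel_c w k := by
    unfold Ssum prIoc abel_c
    rw [Finset.sum_filter]
    refine Finset.sum_congr rfl ?_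
    intro k hk
    split_ifs with hp
    · have : Real.log k ≠ 0 := (Real.log_pos (by exact_mod_cast hp.one_lt)).ne'
      field_simp
    · simp
  have h3 : ∫ t in Set.Ioc a b, deriv (fun t : ℝ => 1 / Real.log t) t *
        ∑ k ∈ Icc 0 ⌊t⌋₊, abel_c w k =
      - ∫ t in Set.Ioc a b, (1 / (t * Real.log t ^ 2)) * Msum w t := by
    rw [← MeasureTheory.integral_neg]
    refine MeasureTheory.setIntegral_congr_fun measurableSet_Ioc ?_
    intro t ht
    simp only
    rw [abel_deriv_eq (by linarith [ht.1]), abel_sum_eq]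
    ring
  rw [h2, h1, h3, abel_sum_eq, abel_sum_eq]
  ring

theorem abel_intM (w : ℕ → ℝ) {a b : ℝ} (ha : 2 ≤ a) :
    MeasureTheory.IntegrableOn (fun t : ℝ => (1 / (t * Real.log t ^ 2)) * Msum w t)
      (Set.Ioc a b) := by
  have h1 := integrableOn_mul_sum_Icc (abel_c w) (m := 0) (a := a) (b := b) (by linarith)
    ((abel_cont (b := b) ha).integrableOn_compact (μ := MeasureTheory.volume) isCompact_Icc)
  have h2 : (fun t : ℝ => (1 / (t * Real.log t ^ 2)) * Msum w t) =
      fun t : ℝ => (1 / (t * Real.log t ^ 2)) * ∑ k ∈ Icc 0 ⌊t⌋₊, abel_c w k := by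
    funext t; rw [abel_sum_eq]
  rw [h2]
  exact h1.mono_set Set.Ioc_subset_Icc_self

/-- the comparison integral -/
theorem abel_cmp (α κ : ℝ) {a b : ℝ} (ha : 2 ≤ a) (hab : a ≤ b) :
    MeasureTheory.IntegrableOn (fun t : ℝ => (1 / (t * Real.log t ^ 2)) * (α * Real.log t + κ))
      (Set.Ioc a b) ∧
    ∫ t in Set.Ioc a b, (1 / (t * Real.log t ^ 2)) * (α * Real.log t + κ) =
      α * Real.log (Real.log b / Real.log a) + κ * (1 / Real.log a - 1 / Real.log b) := by
  have hlog : ContinuousOn Real.log (Set.Icc a b) :=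
    Real.continuousOn_log.mono (fun t ht => by
      have := ht.1
      simp only [Set.mem_compl_iff, Set.mem_singleton_iff]
      linarith)
  have hc : ContinuousOn (fun t : ℝ => (1 / (t * Real.log t ^ 2)) * (α * Real.log t + κ))
      (Set.Icc a b) :=
    (abel_cont ha).mul ((continuousOn_const.mul hlog).add continuousOn_const)
  have hint : MeasureTheory.IntegrableOn
      (fun t : ℝ => (1 / (t * Real.log t ^ 2)) * (α * Real.log t + κ)) (Set.Icc a b) :=
    hc.integrableOn_compact isCompact_Icc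
  refine ⟨hint.mono_set Set.Ioc_subset_Icc_self, ?_⟩
  rw [← intervalIntegral.integral_of_le hab]
  have hla : 0 < Real.log a := Real.log_pos (by linarith)
  have hlb : 0 < Real.log b := Real.log_pos (by linarith)
  have hd : ∀ t ∈ Set.uIcc a b, HasDerivAt
      (fun t : ℝ => α * Real.log (Real.log t) + κ * (-(1 / Real.log t)))
      ((1 / (t * Real.log t ^ 2)) * (α * Real.log t + κ)) t := by
    intro t ht
    rw [Set.uIcc_of_le hab] at ht
    have h0 : t ≠ 0 := by linarith [ht.1]
    have hl : Real.log t ≠ 0 := (Real.log_pos (by linarith [ht.1])).ne'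
    have h1 := ((Real.hasDerivAt_log h0).log hl).const_mul α
    have h2 := ((abel_deriv (t := t) (by linarith [ht.1])).neg).const_mul κ
    convert! h1.add h2 using 1
    field_simp
  rw [intervalIntegral.integral_eq_sub_of_hasDerivAt hd]
  · rw [Real.log_div hlb.ne' hla.ne']
    ring
  · rw [intervalIntegrable_iff_integrableOn_Ioc_of_le hab]
    exact hint.mono_set Set.Ioc_subset_Icc_self

theorem abel_Msum_nonneg (w : ℕ → ℝ) (hw : ∀ p, 0 ≤ w p) (Y : ℝ) : 0 ≤ Msum w Y := by
  unfold Msum
  apply Finset.sum_nonneg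
  intro p hp
  have h1 : 0 ≤ Real.log p := Real.log_natCast_nonneg p
  have := hw p
  positivity

theorem abel_upper (w : ℕ → ℝ) (hw : ∀ p, 0 ≤ w p) (K : ℝ) (hK : 0 ≤ K)
    (hM : ∀ Y : ℝ, 1 ≤ Y → Msum w Y ≤ Real.log Y + K) (a b : ℝ) (ha : 2 ≤ a) (hab : a ≤ b) :
    Ssum w a b ≤ Real.log (Real.log b / Real.log a) + 1 + 2 * K / Real.log a := by
  have hla : 0 < Real.log a := Real.log_pos (by linarith)
  have hlb : 0 < Real.log b := Real.log_pos (by linarith)
  rw [abel_main w ha hab]
  obtain ⟨c1, c2⟩ := abel_cmp 1 K ha hab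
  have h1 : ∫ t in Set.Ioc a b, (1 / (t * Real.log t ^ 2)) * Msum w t ≤
      ∫ t in Set.Ioc a b, (1 / (t * Real.log t ^ 2)) * (1 * Real.log t + K) := by
    apply MeasureTheory.setIntegral_mono_on (abel_intM w ha) c1 measurableSet_Ioc
    intro t ht
    have ht2 : 2 ≤ t := by linarith [ht.1]
    have hl : 0 < Real.log t := Real.log_pos (by linarith)
    apply mul_le_mul_of_nonneg_left
    · rw [one_mul]; exact hM t (by linarith)
    · positivity
  rw [c2] at h1
  have h2 : Msum w b / Real.log b ≤ 1 + K * (1 / Real.log b) := by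
    rw [div_le_iff₀ hlb]
    have := hM b (by linarith)
    have e : (1 + K * (1 / Real.log b)) * Real.log b = Real.log b + K := by field_simp
    linarith
  have h3 : 0 ≤ Msum w a / Real.log a := div_nonneg (abel_Msum_nonneg w hw a) hla.le
  have h4 : 0 ≤ K * (1 / Real.log a) := by positivity
  have h5 : 2 * K / Real.log a = 2 * (K * (1 / Real.log a)) := by ring
  rw [h5]
  linarith [mul_sub K (1 / Real.log a) (1 / Real.log b)]

theorem abel_lower (w : ℕ → ℝ) (hw : ∀ p, 0 ≤ w p) (K K' φ : ℝ) (hK : 0 ≤ K) (hK' : 0 ≤ K')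
    (hφ : 0 ≤ φ) (a b : ℝ) (ha : 2 ≤ a) (hab : a ≤ b)
    (hM : Msum w a ≤ Real.log a + K)
    (hL : ∀ v : ℝ, a ≤ v → v ≤ b → (1 - φ) * Real.log v - K' ≤ Msum w v) :
    (1 - φ) * Real.log (Real.log b / Real.log a) - φ - (K + K') / Real.log a ≤ Ssum w a b := by
  have hla : 0 < Real.log a := Real.log_pos (by linarith)
  have hlb : 0 < Real.log b := Real.log_pos (by linarith)
  rw [abel_main w ha hab]
  obtain ⟨c1, c2⟩ := abel_cmp (1 - φ) (-K') ha hab
  have h1 : ∫ t in Set.Ioc a b, (1 / (t * Real.log t ^ 2)) * ((1 - φ) * Real.log t + (-K')) ≤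
      ∫ t in Set.Ioc a b, (1 / (t * Real.log t ^ 2)) * Msum w t := by
    apply MeasureTheory.setIntegral_mono_on c1 (abel_intM w ha) measurableSet_Ioc
    intro t ht
    have ht2 : 2 ≤ t := by linarith [ht.1]
    have hl : 0 < Real.log t := Real.log_pos (by linarith)
    apply mul_le_mul_of_nonneg_left
    · have := hL t ht.1.le ht.2; linarith
    · positivity
  rw [c2] at h1
  have h2 : (1 - φ) - K' * (1 / Real.log b) ≤ Msum w b / Real.log b := by
    rw [le_div_iff₀ hlb]
    have := hL b hab le_rfl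
    have e : (1 - φ - K' * (1 / Real.log b)) * Real.log b = (1 - φ) * Real.log b - K' := by
      field_simp
    linarith
  have h3 : Msum w a / Real.log a ≤ 1 + K * (1 / Real.log a) := by
    rw [div_le_iff₀ hla]
    have e : (1 + K * (1 / Real.log a)) * Real.log a = Real.log a + K := by field_simp
    linarith
  have h5 : (K + K') / Real.log a = K * (1 / Real.log a) + K' * (1 / Real.log a) := by ring
  rw [h5]
  linarith [mul_sub K' (1 / Real.log a) (1 / Real.log b)]

end EK75
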