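import Pool.Agent.H75.EK.Defs
import Pool.Agent.H75.EK.Abel
import Pool.Agent.H67.GT.MERT

/-! Module MERT: Mertens' theorems and simple consequences of Chebyshev's bound. -/

open Polynomial Finset
open scoped Real BigOperators

namespace EK75

theorem mert_Msum_eq (x : ℝ) :
    Msum (fun _ => 1) x = Pool.Agent.H67.GT.MERT.F ⌊x⌋₊ := by
  unfold Msum prLe Pool.Agent.H67.GT.MERT.F
  refine Finset.sum_congr ?_ ?_
  · ext p
    simp only [mem_filter, mem_range, Nat.mem_primesBelow]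
  · intro p _
    rw [one_mul]

theorem mert_one {x : ℝ} (hx : 1 ≤ x) :
    Real.log x - 4 ≤ Msum (fun _ => 1) x ∧ Msum (fun _ => 1) x ≤ Real.log x + 4 := by
  obtain ⟨h1, h2, h3⟩ := Pool.Agent.H67.GT.MERT.log_floor hx
  have h4 := Pool.Agent.H67.GT.MERT.F_upper h3
  have h5 := Pool.Agent.H67.GT.MERT.mertens_lower h3
  rw [mert_Msum_eq]
  constructor <;> linarith

theorem mert1 : ∃ C : ℝ, ∀ x : ℝ, 1 ≤ x → |Msum (fun _ => 1) x - Real.log x| ≤ C := by
  refine ⟨4, fun x hx => ?_⟩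
  obtain ⟨h1, h2⟩ := mert_one hx
  rw [abs_le]
  constructor <;> linarith

theorem mert_two {a b : ℝ} (ha : 2 ≤ a) (hab : a ≤ b) :
    |Ssum (fun _ => 1) a b - Real.log (Real.log b / Real.log a)| ≤ 13 := by
  have hla : Real.log 2 ≤ Real.log a := Real.log_le_log (by norm_num) ha
  have hl2 := Real.log_two_gt_d9
  have h1 := abel_upper (fun _ => 1) (fun _ => zero_le_one) 4 (by norm_num)
    (fun Y hY => (mert_one hY).2) a b ha hab
  have h2 := abel_lower (fun _ => 1) (fun _ => zero_le_one) 4 4 0 (by norm_num) (by norm_num)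
    le_rfl a b ha hab (mert_one (by linarith)).2
    (fun v hv _ => by
      have := (mert_one (x := v) (by linarith)).1
      linarith)
  have hpos : 0 < Real.log a := by linarith
  have h3 : (4 + 4) / Real.log a ≤ 12 := by
    rw [div_le_iff₀ hpos]; linarith
  have h4 : 2 * 4 / Real.log a ≤ 12 := by
    rw [div_le_iff₀ hpos]; linarith
  rw [abs_le]
  constructor <;> linarith

theorem mert2 : ∃ C : ℝ, ∀ a b : ℝ, 2 ≤ a → a ≤ b →
    |Ssum (fun _ => 1) a b - Real.log (Real.log b / Real.log a)| ≤ C :=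
  ⟨13, fun _ _ ha hab => mert_two ha hab⟩

theorem mert_theta (t : ℝ) : ∑ n ∈ Icc 0 ⌊t⌋₊, (if n.Prime then Real.log n else 0) =
    Chebyshev.theta t := by
  rw [Chebyshev.theta_eq_sum_Icc, Finset.sum_filter]

theorem mert3 (k : ℕ) (hk : 1 ≤ k) : ∃ C : ℝ, ∀ Y : ℝ, 1 ≤ Y →
    ∑ p ∈ prLe Y, Real.log p * (p : ℝ) ^ ((1 : ℝ) / k - 1) ≤ C * Y ^ ((1 : ℝ) / k) := by
  refine ⟨Real.log 4 * (1 + k), fun Y hY => ?_⟩
  have hk0 : (0 : ℝ) < k := by exact_mod_cast hk
  have hk1 : (1 : ℝ) ≤ k := by exact_mod_cast hk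
  set s : ℝ := (1 : ℝ) / k with hs
  have hs0 : 0 < s := by positivity
  have hs1 : s ≤ 1 := by rw [hs, div_le_iff₀ hk0]; linarith
  have hY0 : 0 < Y := by linarith
  have hdiff : ∀ t ∈ Set.Icc 1 Y, HasDerivAt (fun t : ℝ => t ^ (s - 1))
      ((s - 1) * t ^ (s - 1 - 1)) t := by
    intro t ht
    exact Real.hasDerivAt_rpow_const (Or.inl (by linarith [ht.1]))
  have hcont : ∀ r : ℝ, ContinuousOn (fun t : ℝ => t ^ r) (Set.Icc 1 Y) := by
    intro r
    apply ContinuousOn.rpow_const continuousOn_id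
    intro t ht
    left
    have := ht.1
    simp only [id]
    linarith
  have hint : MeasureTheory.IntegrableOn (deriv (fun t : ℝ => t ^ (s - 1))) (Set.Icc 1 Y) := by
    have h1 : MeasureTheory.IntegrableOn (fun t : ℝ => (s - 1) * t ^ (s - 1 - 1)) (Set.Icc 1 Y) :=
      (continuousOn_const.mul (hcont _)).integrableOn_compact isCompact_Icc
    refine h1.congr_fun ?_ measurableSet_Icc
    intro t ht
    exact (hdiff t ht).deriv.symm
  have h1 := sum_mul_eq_sub_sub_integral_mul (fun n : ℕ => if n.Prime then Real.log n else 0)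
    (f := fun t : ℝ => t ^ (s - 1)) (a := 1) (b := Y) (by norm_num) hY
    (fun t ht => (hdiff t ht).differentiableAt) hint
  have hsum : ∑ p ∈ prLe Y, Real.log p * (p : ℝ) ^ (s - 1) =
      ∑ k ∈ Ioc ⌊(1 : ℝ)⌋₊ ⌊Y⌋₊, (k : ℝ) ^ (s - 1) * (if k.Prime then Real.log k else 0) := by
    unfold prLe
    rw [Finset.sum_filter]
    symm
    apply Finset.sum_subset_zero_on_sdiff
    · intro n hn
      rw [mem_Ioc] at hn
      rw [mem_range]; omega
    · intro n hn
      rw [mem_sdiff, mem_range, mem_Ioc, Nat.floor_one] at hn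
      have : n ≤ 1 := by omega
      rw [if_neg]
      intro hp
      have := hp.one_lt
      omega
    · intro n _
      split_ifs <;> ring
  rw [hsum, h1, mert_theta, mert_theta]
  have hθ1 : 0 ≤ Chebyshev.theta 1 := Chebyshev.theta_nonneg 1
  have hθY : Chebyshev.theta Y ≤ Real.log 4 * Y := Chebyshev.theta_le_log4_mul_x hY0.le
  have hl4 : 0 < Real.log 4 := Real.log_pos (by norm_num)
  -- the integral
  have hcmpc : ContinuousOn (fun t : ℝ => (1 - s) * Real.log 4 * t ^ (s - 1)) (Set.Icc 1 Y) :=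
    continuousOn_const.mul (hcont _)
  have hcmpi : MeasureTheory.IntegrableOn (fun t : ℝ => (1 - s) * Real.log 4 * t ^ (s - 1))
      (Set.Icc 1 Y) := hcmpc.integrableOn_compact isCompact_Icc
  have hI1 : MeasureTheory.IntegrableOn (fun t : ℝ => deriv (fun t : ℝ => t ^ (s - 1)) t *
      ∑ k ∈ Icc 0 ⌊t⌋₊, (if k.Prime then Real.log k else 0)) (Set.Icc 1 Y) :=
    integrableOn_mul_sum_Icc _ (by norm_num) hint
  have hneg : - ∫ t in Set.Ioc 1 Y, deriv (fun t : ℝ => t ^ (s - 1)) t *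
      ∑ k ∈ Icc 0 ⌊t⌋₊, (if k.Prime then Real.log k else 0) ≤
      ∫ t in Set.Ioc 1 Y, (1 - s) * Real.log 4 * t ^ (s - 1) := by
    rw [← MeasureTheory.integral_neg]
    apply MeasureTheory.setIntegral_mono_on
    · exact (hI1.mono_set Set.Ioc_subset_Icc_self).neg
    · exact hcmpi.mono_set Set.Ioc_subset_Icc_self
    · exact measurableSet_Ioc
    · intro t ht
      have ht0 : 0 < t := by linarith [ht.1]
      rw [mert_theta, (hdiff t ⟨ht.1.le, ht.2⟩).deriv]
      have h2 : Chebyshev.theta t ≤ Real.log 4 * t := Chebyshev.theta_le_log4_mul_x ht0.le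
      have h3 : t ^ (s - 1) = t ^ (s - 1 - 1) * t := by
        rw [← Real.rpow_add_one ht0.ne']; congr 1; ring
      rw [h3]
      have h4 : 0 ≤ (1 - s) * t ^ (s - 1 - 1) := by
        have : 0 ≤ 1 - s := by linarith
        positivity
      nlinarith [mul_le_mul_of_nonneg_left h2 h4]
  have hval : ∫ t in Set.Ioc 1 Y, (1 - s) * Real.log 4 * t ^ (s - 1) ≤
      Real.log 4 * k * Y ^ s := by
    rw [← intervalIntegral.integral_of_le hY, intervalIntegral.integral_const_mul,
      integral_rpow (Or.inl (by linarith))]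
    have e1 : s - 1 + 1 = s := by ring
    rw [e1, Real.one_rpow]
    have hYs : 0 ≤ Y ^ s := by positivity
    have e2 : (1 - s) * Real.log 4 * ((Y ^ s - 1) / s) =
        Real.log 4 * k * ((1 - s) * (Y ^ s - 1)) := by
      rw [hs]; field_simp
    rw [e2]
    apply mul_le_mul_of_nonneg_left _ (by positivity)
    have hYs1 : 1 ≤ Y ^ s := Real.one_le_rpow hY hs0.le
    nlinarith
  have hY1 : Y ^ (s - 1) * Chebyshev.theta Y ≤ Real.log 4 * Y ^ s := by
    have h2 : Y ^ s = Y ^ (s - 1) * Y := by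
      rw [← Real.rpow_add_one hY0.ne']; congr 1; ring
    rw [h2]
    have : 0 ≤ Y ^ (s - 1) := by positivity
    nlinarith [mul_le_mul_of_nonneg_left hθY this]
  have h11 : (1 : ℝ) ^ (s - 1) = 1 := Real.one_rpow _
  simp only [h11]
  have e3 : Real.log 4 * (1 + k) * Y ^ s = Real.log 4 * Y ^ s + Real.log 4 * k * Y ^ s := by ring
  rw [e3]
  linarith

theorem mert5 : ∃ C : ℝ, ∀ x : ℝ, 2 ≤ x →
    |∑ p ∈ prLe x, (1 : ℝ) / p - Real.log (Real.log x)| ≤ C := by
  refine ⟨13 + 1 + |Real.log (Real.log 2)|, fun x hx => ?_⟩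
  have h1 := mert_two le_rfl hx
  have hl2 : 0 < Real.log 2 := Real.log_pos (by norm_num)
  have hlx : 0 < Real.log x := Real.log_pos (by linarith)
  rw [Real.log_div hlx.ne' hl2.ne'] at h1
  have h2 : ∑ p ∈ prLe x, (1 : ℝ) / p = 1 / 2 + Ssum (fun _ => 1) 2 x := by
    unfold Ssum prLe prIoc
    have hf : 2 ≤ ⌊x⌋₊ := Nat.le_floor (by exact_mod_cast hx)
    have hfl : ⌊(2 : ℝ)⌋₊ = 2 := by
      rw [show (2 : ℝ) = ((2 : ℕ) : ℝ) by norm_num, Nat.floor_natCast]
    rw [hfl]
    have : (range (⌊x⌋₊ + 1)).filter Nat.Prime = insert 2 ((Ioc 2 ⌊x⌋₊).filter Nat.Prime) := by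
      ext p
      simp only [mem_filter, mem_range, mem_insert, mem_Ioc]
      constructor
      · rintro ⟨h1, h2⟩
        rcases eq_or_ne p 2 with h3 | h3
        · exact Or.inl h3
        · exact Or.inr ⟨⟨by have := h2.two_le; omega, by omega⟩, h2⟩
      · rintro (rfl | ⟨⟨h1, h2⟩, h3⟩)
        · exact ⟨by omega, Nat.prime_two⟩
        · exact ⟨by omega, h3⟩
    rw [this, Finset.sum_insert (by simp)]
    norm_num
  rw [h2]
  rw [abs_le] at h1 ⊢
  have h3 := neg_abs_le (Real.log (Real.log 2))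
  have h4 := le_abs_self (Real.log (Real.log 2))
  constructor <;> linarith [h1.1, h1.2]

theorem mert_card {Q : ℕ} (hQ : 1 ≤ Q) :
    (Q.primeFactors.card : ℝ) * Real.log 2 ≤ Real.log Q := by
  have h1 : 2 ^ Q.primeFactors.card ≤ ∏ p ∈ Q.primeFactors, p := by
    apply Finset.pow_card_le_prod
    intro p hp
    exact (Nat.prime_of_mem_primeFactors hp).two_le
  have h2 : ∏ p ∈ Q.primeFactors, p ≤ Q := Nat.le_of_dvd hQ (Nat.prod_primeFactors_dvd Q)
  have h3 : ((2 ^ Q.primeFactors.card : ℕ) : ℝ) ≤ Q := by exact_mod_cast h1.trans h2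
  have h4 := Real.log_le_log (by positivity) h3
  rwa [Nat.cast_pow, Real.log_pow, Nat.cast_ofNat] at h4

theorem mert4 : ∃ C : ℝ, ∀ Q : ℕ, 1 ≤ Q →
    ∑ p ∈ Q.primeFactors, (1 : ℝ) / p ≤ C + Real.log (1 + Real.log (1 + Real.log Q)) := by
  obtain ⟨C5, h5⟩ := mert5
  refine ⟨|C5| + 2, fun Q hQ => ?_⟩
  have hL : 0 ≤ Real.log Q := Real.log_nonneg (by exact_mod_cast hQ)
  set K : ℝ := 1 + Real.log Q with hK
  have hK1 : 1 ≤ K := by linarith
  have hlK : 0 ≤ Real.log K := Real.log_nonneg hK1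
  have hR : 0 ≤ Real.log (1 + Real.log K) := Real.log_nonneg (by linarith)
  have hC5 := abs_nonneg C5
  have hl2 := Real.log_two_gt_d9
  -- split
  rw [← Finset.sum_filter_add_sum_filter_not Q.primeFactors (fun p : ℕ => (p : ℝ) ≤ K)]
  have hbig : ∑ p ∈ Q.primeFactors.filter (fun p : ℕ => ¬ (p : ℝ) ≤ K), (1 : ℝ) / p ≤ 2 := by
    calc ∑ p ∈ Q.primeFactors.filter (fun p : ℕ => ¬ (p : ℝ) ≤ K), (1 : ℝ) / p
        ≤ ∑ p ∈ Q.primeFactors.filter (fun p : ℕ => ¬ (p : ℝ) ≤ K), 1 / K := by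
          apply Finset.sum_le_sum
          intro p hp
          rw [mem_filter, not_le] at hp
          exact one_div_le_one_div_of_le (by linarith) hp.2.le
      _ ≤ Q.primeFactors.card * (1 / K) := by
          rw [Finset.sum_const, nsmul_eq_mul]
          apply mul_le_mul_of_nonneg_right
          · exact_mod_cast Finset.card_filter_le _ _
          · positivity
      _ ≤ 2 := by
          have h1 := mert_card hQ
          have h2 : (Q.primeFactors.card : ℝ) ≤ 2 * K := by nlinarith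
          rw [mul_one_div, div_le_iff₀ (by linarith)]
          exact h2
  have hsmall : ∑ p ∈ Q.primeFactors.filter (fun p : ℕ => (p : ℝ) ≤ K), (1 : ℝ) / p ≤
      |C5| + Real.log (1 + Real.log K) := by
    rcases lt_or_ge K 2 with h2 | h2
    · have : Q.primeFactors.filter (fun p : ℕ => (p : ℝ) ≤ K) = ∅ := by
        rw [Finset.filter_eq_empty_iff]
        intro p hp hpK
        have h3 : 2 ≤ p := (Nat.prime_of_mem_primeFactors hp).two_le
        have h4 : (2 : ℝ) ≤ p := by exact_mod_cast h3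
        linarith
      rw [this, Finset.sum_empty]
      linarith
    · have h3 : ∑ p ∈ Q.primeFactors.filter (fun p : ℕ => (p : ℝ) ≤ K), (1 : ℝ) / p ≤
          ∑ p ∈ prLe K, (1 : ℝ) / p := by
        apply Finset.sum_le_sum_of_subset_of_nonneg
        · intro p hp
          rw [mem_filter] at hp
          unfold prLe
          rw [mem_filter, mem_range]
          exact ⟨Nat.lt_succ_of_le (Nat.le_floor hp.2), Nat.prime_of_mem_primeFactors hp.1⟩
        · intro p _ _
          positivity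
      have h4 := (abs_le.mp (h5 K h2)).2
      have h6 : Real.log (Real.log K) ≤ Real.log (1 + Real.log K) := by
        apply Real.log_le_log (Real.log_pos (by linarith)) (by linarith)
      have h7 := le_abs_self C5
      linarith
  linarith

end EK75
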