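import Pool.Agent.H75.EK.Defs

/-! Module NF: the number field `ℚ[X]/(g)` and the norm form `N(∑ u_i θ^i)`. -/

open Polynomial Finset NumberField
open scoped Real BigOperators

set_option linter.unusedSectionVars false

namespace EK75

/-- `∑ u_i θ^i` -/
noncomputable def nu {K : Type} [Field K] [NumberField K] {k : ℕ} (θ : 𝓞 K) (u : Fin k → ℤ) : 𝓞 K :=
  ∑ i, (u i : 𝓞 K) * θ ^ (i : ℕ)

/-- `|N(∑ u_i θ^i)|` -/
noncomputable def nn {K : Type} [Field K] [NumberField K] {k : ℕ} (θ : 𝓞 K) (u : Fin k → ℤ) : ℕ :=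
  (Algebra.norm ℤ (nu θ u)).natAbs

theorem nf_finrank_eq {A : Type} [Field A] (i j : Algebra ℚ A) :
    @Module.finrank ℚ A _ _ (@Algebra.toModule _ _ _ _ i) =
      @Module.finrank ℚ A _ _ (@Algebra.toModule _ _ _ _ j) := by
  rw [Subsingleton.elim i j]

theorem nf_exists (k : ℕ) (hk : 1 ≤ k) (g : ℤ[X]) (hg : g.Monic) (hd : g.natDegree = k)
    (hirr : Irreducible g) :
    ∃ (K : Type) (_ : Field K) (_ : NumberField K) (θ : 𝓞 K),
      aeval θ g = 0 ∧ Module.finrank ℚ K = k := by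
  set f : ℚ[X] := g.map (algebraMap ℤ ℚ) with hf
  have hfi : Irreducible f := (hg.irreducible_iff_irreducible_map_fraction_map (K := ℚ)).1 hirr
  have : Fact (Irreducible f) := ⟨hfi⟩
  have hf0 : f ≠ 0 := hfi.ne_zero
  have hfr : @Module.finrank ℚ (AdjoinRoot f) _ _ (@Algebra.toModule _ _ _ _ inferInstance) = k := by
    rw [(AdjoinRoot.powerBasis hf0).finrank, AdjoinRoot.powerBasis_dim, hf,
      natDegree_map_eq_of_injective (algebraMap ℤ ℚ).injective_int, hd]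
  have hroot : aeval (AdjoinRoot.root f) g = 0 := by
    have h := AdjoinRoot.eval₂_root f
    rw [hf, eval₂_map] at h
    rw [aeval_def, ← h]
    congr 1
  have hint : IsIntegral ℤ (AdjoinRoot.root f) := ⟨g, hg, by rw [← aeval_def]; exact hroot⟩
  obtain ⟨θ, hθ⟩ : ∃ θ : 𝓞 (AdjoinRoot f), algebraMap (𝓞 (AdjoinRoot f)) (AdjoinRoot f) θ =
    AdjoinRoot.root f := ⟨⟨AdjoinRoot.root f, hint⟩, rfl⟩
  refine ⟨AdjoinRoot f, inferInstance, inferInstance, θ, ?_, ?_⟩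
  · apply RingOfIntegers.coe_injective
    have h := aeval_algebraMap_apply (AdjoinRoot f) θ g
    rw [hθ, hroot] at h
    simpa using h.symm
  · rw [← hfr]

/-- `P_u = ∑ u_i X^i` -/
noncomputable def nfPoly {k : ℕ} (u : Fin k → ℤ) : ℤ[X] := ∑ i : Fin k, C (u i) * X ^ (i : ℕ)

theorem nfPoly_aeval {K : Type} [Field K] [NumberField K] {k : ℕ} (θ : 𝓞 K) (u : Fin k → ℤ) :
    aeval θ (nfPoly u) = nu θ u := by
  simp [nfPoly, nu, map_sum]

theorem nfPoly_coeff {k : ℕ} (u : Fin k → ℤ) (i : Fin k) : (nfPoly u).coeff (i : ℕ) = u i := by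
  classical
  rw [nfPoly, finsetSum_coeff]
  rw [Finset.sum_eq_single i]
  · simp
  · intro j _ hj
    rw [coeff_C_mul, coeff_X_pow, if_neg (fun h => hj (Fin.ext h.symm)), mul_zero]
  · simp

/-- divisibility: `f(θ) = 0` iff `g ∣ f`. -/
theorem nf_dvd_of_aeval {K : Type} [Field K] [NumberField K] (g : ℤ[X]) (hg : g.Monic)
    (hirr : Irreducible g) (θ : 𝓞 K) (hθ : aeval θ g = 0) (f : ℤ[X]) (hf : aeval θ f = 0) : g ∣ f := by
  have hint : IsIntegral ℤ θ := ⟨g, hg, by rw [← aeval_def]; exact hθ⟩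
  have h1 : minpoly ℤ θ ∣ g := (minpoly.isIntegrallyClosed_dvd_iff hint g).1 hθ
  have h2 : g ∣ minpoly ℤ θ := (minpoly.irreducible hint).dvd_symm hirr h1
  exact h2.trans ((minpoly.isIntegrallyClosed_dvd_iff hint f).1 hf)

variable {K : Type} [Field K] [NumberField K] (k : ℕ) (hk : 1 ≤ k) (g : ℤ[X]) (hg : g.Monic)
  (hd : g.natDegree = k) (hirr : Irreducible g) (θ : 𝓞 K) (hθ : aeval θ g = 0)
  (hfr : Module.finrank ℚ K = k)

include hk hg hd hirr hθ hfr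

theorem nf_pos (u : Fin k → ℤ) (hu : u ≠ 0) : 1 ≤ nn θ u := by
  rw [nn, Nat.one_le_iff_ne_zero, Int.natAbs_ne_zero, Algebra.norm_ne_zero_iff]
  intro h0
  have h1 : g ∣ nfPoly u := nf_dvd_of_aeval g hg hirr θ hθ _ (by rw [nfPoly_aeval, h0])
  have h2 : (nfPoly u).degree < g.degree := by
    rw [degree_eq_natDegree hg.ne_zero, hd]
    exact degree_sum_fin_lt u
  have h3 : nfPoly u = 0 := eq_zero_of_dvd_of_degree_lt h1 h2
  apply hu
  funext i
  rw [← nfPoly_coeff u i, h3]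
  simp

theorem nf_prod (u : Fin k → ℤ) :
    (nn θ u : ℝ) = ∏ σ : K →+* ℂ, ‖∑ i, (u i : ℂ) * (σ (θ : K)) ^ (i : ℕ)‖ := by
  have h1 := Algebra.norm_eq_prod_embeddings ℚ ℂ (nu θ u : K)
  rw [← Algebra.coe_norm_int] at h1
  have h2 : (nn θ u : ℝ) = ‖((algebraMap ℚ ℂ) ((Algebra.norm ℤ (nu θ u) : ℤ) : ℚ))‖ := by
    rw [nn]
    simp
  rw [h2, h1, norm_prod]
  rw [← Equiv.prod_comp (RingHom.equivRatAlgHom K ℂ)]
  apply Finset.prod_congr rfl
  intro σ _
  congr 1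
  simp [nu, map_sum]

theorem nf_emb (H : ℝ) (hH : 1 ≤ H) (hht : HtLe g H) (σ : K →+* ℂ) : ‖σ (θ : K)‖ ≤ 1 + H := by
  have hmon : (g.map (algebraMap ℤ ℂ)).Monic := hg.map _
  have hroot : (g.map (algebraMap ℤ ℂ)).IsRoot (σ (θ : K)) := by
    rw [IsRoot.def, eval_map]
    have h := congrArg (fun x : 𝓞 K => σ (x : K)) hθ
    simp only [map_zero] at h
    rw [← h, aeval_def]
    have h2 := hom_eval₂ g (algebraMap ℤ (𝓞 K)) (σ.comp (algebraMap (𝓞 K) K)) θ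
    simp only [RingHom.comp_apply] at h2
    rw [h2]
    congr 1
    exact RingHom.ext_int _ _
  have h1 := hroot.norm_lt_cauchyBound hmon.ne_zero
  have h2 : ((g.map (algebraMap ℤ ℂ)).cauchyBound : ℝ) ≤ H + 1 := by
    rw [cauchyBound, hmon.leadingCoeff]
    push_cast
    have h3 : ((Finset.range (g.map (algebraMap ℤ ℂ)).natDegree).sup
        (fun x => ‖(g.map (algebraMap ℤ ℂ)).coeff x‖₊) : NNReal) ≤ H.toNNReal := by
      apply Finset.sup_le
      intro i _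
      rw [← NNReal.coe_le_coe, Real.coe_toNNReal H (by linarith), coe_nnnorm, coeff_map]
      have := hht i
      simpa using this
    have h4 : (((Finset.range (g.map (algebraMap ℤ ℂ)).natDegree).sup
        (fun x => ‖(g.map (algebraMap ℤ ℂ)).coeff x‖₊) : NNReal) : ℝ) ≤ H := by
      rw [← NNReal.coe_le_coe, Real.coe_toNNReal H (by linarith)] at h3
      exact h3
    simpa using h4
  have h5 : (‖σ (θ : K)‖₊ : ℝ) < ((g.map (algebraMap ℤ ℂ)).cauchyBound : ℝ) := by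
    exact_mod_cast h1
  rw [coe_nnnorm] at h5
  linarith

theorem nf_le (H : ℝ) (hH : 1 ≤ H) (hht : HtLe g H) (X : ℕ) (u : Fin k → ℤ) (hu : u ∈ boxZ k X) :
    (nn θ u : ℝ) ≤ (k * X * (1 + H) ^ k) ^ k := by
  rw [nf_prod k hk g hg hd hirr θ hθ hfr u]
  have hcard : (Finset.univ : Finset (K →+* ℂ)).card = k := by
    rw [Finset.card_univ, NumberField.Embeddings.card, hfr]
  have hX : (0 : ℝ) ≤ k * X * (1 + H) ^ k := by positivity
  have key : ∀ σ ∈ (Finset.univ : Finset (K →+* ℂ)),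
      ‖∑ i : Fin k, (u i : ℂ) * (σ (θ : K)) ^ (i : ℕ)‖ ≤ k * X * (1 + H) ^ k := by
    intro σ _
    calc ‖∑ i : Fin k, (u i : ℂ) * (σ (θ : K)) ^ (i : ℕ)‖
        ≤ ∑ i : Fin k, ‖(u i : ℂ) * (σ (θ : K)) ^ (i : ℕ)‖ := norm_sum_le _ _
      _ ≤ ∑ i : Fin k, (X : ℝ) * (1 + H) ^ k := by
          apply Finset.sum_le_sum
          intro i _
          rw [norm_mul, norm_pow]
          have h1 : ‖(u i : ℂ)‖ ≤ X := by
            rw [boxZ, Fintype.mem_piFinset] at hu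
            have := hu i
            rw [Finset.mem_Ico] at this
            have h2 : ((u i : ℤ) : ℝ) ≤ X := by exact_mod_cast this.2.le
            have h3 : (0 : ℝ) ≤ (u i : ℤ) := by exact_mod_cast this.1
            rw [Complex.norm_intCast, abs_of_nonneg h3]
            exact h2
          have h4 : ‖σ (θ : K)‖ ^ (i : ℕ) ≤ (1 + H) ^ k :=
            (pow_le_pow_left₀ (norm_nonneg _) (nf_emb k hk g hg hd hirr θ hθ hfr H hH hht σ) _).trans
              (pow_le_pow_right₀ (by linarith) i.2.le)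
          exact mul_le_mul h1 h4 (by positivity) (by positivity)
      _ = k * X * (1 + H) ^ k := by
          rw [Finset.sum_const, Finset.card_univ, Fintype.card_fin, nsmul_eq_mul]; ring
  calc ∏ σ : K →+* ℂ, ‖∑ i : Fin k, (u i : ℂ) * (σ (θ : K)) ^ (i : ℕ)‖
      ≤ ∏ σ : K →+* ℂ, (k * X * (1 + H) ^ k : ℝ) :=
        Finset.prod_le_prod (fun _ _ => norm_nonneg _) key
    _ = _ := by rw [Finset.prod_const, hcard]

omit hk hd hfr in
/-- the prime ideal of `𝓞 K` attached to a root `r` of `g` modulo `p`. -/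
theorem nf_ideal (p r : ℕ) (hp : p.Prime) (hr : (p : ℤ) ∣ g.eval (r : ℤ)) :
    ∃ Q : Ideal (𝓞 K), Q.IsMaximal ∧ (p : 𝓞 K) ∈ Q ∧ θ - (r : 𝓞 K) ∈ Q := by
  have : Fact p.Prime := ⟨hp⟩
  let alg : Algebra ℤ[X] (𝓞 K) := (aeval θ : ℤ[X] →ₐ[ℤ] 𝓞 K).toRingHom.toAlgebra
  have halg : ∀ f : ℤ[X], algebraMap ℤ[X] (𝓞 K) f = aeval θ f := fun f => rfl
  have : IsScalarTower ℤ ℤ[X] (𝓞 K) := IsScalarTower.of_algebraMap_eq (fun x => by
    rw [halg]; simp)
  have : Algebra.IsIntegral ℤ[X] (𝓞 K) := Algebra.IsIntegral.tower_top ℤ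
  let φ : ℤ[X] →+* ZMod p := eval₂RingHom (Int.castRingHom (ZMod p)) (r : ZMod p)
  have hφ : ∀ f : ℤ[X], φ f = ((f.eval (r : ℤ) : ℤ) : ZMod p) := by
    intro f
    simp only [φ, coe_eval₂RingHom]
    have := hom_eval₂ f (RingHom.id ℤ) (Int.castRingHom (ZMod p)) (r : ℤ)
    rw [RingHom.comp_id] at this
    simpa using this.symm
  have hmax : (RingHom.ker φ).IsMaximal := RingHom.ker_isMaximal_of_surjective φ (by
    intro z
    refine ⟨C (z.val : ℤ), ?_⟩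
    rw [hφ, eval_C]
    simp)
  have hker : RingHom.ker (algebraMap ℤ[X] (𝓞 K)) ≤ RingHom.ker φ := by
    intro f hf
    rw [RingHom.mem_ker, halg] at hf
    obtain ⟨c, rfl⟩ := nf_dvd_of_aeval g hg hirr θ hθ f hf
    rw [RingHom.mem_ker, hφ, eval_mul, ZMod.intCast_zmod_eq_zero_iff_dvd]
    exact hr.mul_right _
  obtain ⟨Q, hQ, hQc⟩ := Ideal.exists_ideal_over_maximal_of_isIntegral (RingHom.ker φ) hker
  refine ⟨Q, hQ, ?_, ?_⟩
  · have h1 : (C (p : ℤ) : ℤ[X]) ∈ RingHom.ker φ := by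
      rw [RingHom.mem_ker, hφ]; simp
    rw [← hQc, Ideal.mem_comap, halg] at h1
    simpa using h1
  · have h1 : (X - C (r : ℤ) : ℤ[X]) ∈ RingHom.ker φ := by
      rw [RingHom.mem_ker, hφ]; simp
    rw [← hQc, Ideal.mem_comap, halg] at h1
    simpa using h1

theorem nf_dvd (P : Finset (ℕ × ℕ)) (u : Fin k → ℤ)
    (hP : ∀ x ∈ P, x.1.Prime ∧ x.2 < x.1 ∧ (x.1 : ℤ) ∣ g.eval (x.2 : ℤ) ∧
      (x.1 : ℤ) ∣ ∑ i : Fin k, u i * (x.2 : ℤ) ^ (i : ℕ)) :
    (∏ x ∈ P, x.1) ∣ nn θ u := by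
  classical
  have hex : ∀ x : ℕ × ℕ, ∃ Q : Ideal (𝓞 K), x ∈ P → (Q.IsMaximal ∧ (x.1 : 𝓞 K) ∈ Q ∧
      θ - (x.2 : 𝓞 K) ∈ Q) := by
    intro x
    by_cases hx : x ∈ P
    · obtain ⟨Q, hQ⟩ := nf_ideal g hg hirr θ hθ x.1 x.2 (hP x hx).1 (hP x hx).2.2.1
      exact ⟨Q, fun _ => hQ⟩
    · exact ⟨⊤, fun h => absurd h hx⟩
  choose Q hQ using hex
  -- coprimality of integers in an ideal
  have hcop : ∀ (I : Ideal (𝓞 K)), I.IsMaximal → ∀ a b : ℤ, IsCoprime a b → (a : 𝓞 K) ∈ I →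
      (b : 𝓞 K) ∈ I → False := by
    intro I hI a b hab ha hb
    obtain ⟨s, t, hst⟩ := hab
    apply hI.ne_top
    rw [Ideal.eq_top_iff_one]
    have : (1 : 𝓞 K) = (s : 𝓞 K) * (a : 𝓞 K) + (t : 𝓞 K) * (b : 𝓞 K) := by
      exact_mod_cast congrArg (fun z : ℤ => (z : 𝓞 K)) hst.symm
    rw [this]
    exact I.add_mem (I.mul_mem_left _ ha) (I.mul_mem_left _ hb)
  have hdist : ∀ x ∈ P, ∀ y ∈ P, x ≠ y → Q x ≠ Q y := by
    intro x hx y hy hxy hQQ
    obtain ⟨hm, hpx, hrx⟩ := hQ x hx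
    obtain ⟨_, hpy, hry⟩ := hQ y hy
    rw [← hQQ] at hpy hry
    by_cases hp : x.1 = y.1
    · have hr : x.2 ≠ y.2 := fun h => hxy (Prod.ext hp h)
      have h1 : (((y.2 : ℤ) - (x.2 : ℤ) : ℤ) : 𝓞 K) ∈ Q x := by
        have := (Q x).sub_mem hrx hry
        have h2 : θ - (x.2 : 𝓞 K) - (θ - (y.2 : 𝓞 K)) = (((y.2 : ℤ) - (x.2 : ℤ) : ℤ) : 𝓞 K) := by
          push_cast; ring
        rwa [h2] at this
      have h3 : IsCoprime ((x.1 : ℕ) : ℤ) ((y.2 : ℤ) - (x.2 : ℤ)) := by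
        rw [Int.isCoprime_iff_gcd_eq_one]
        have hpp : Prime ((x.1 : ℕ) : ℤ) := Nat.prime_iff_prime_int.1 (hP x hx).1
        rcases (Nat.coprime_or_dvd_of_prime (hP x hx).1 ((y.2 : ℤ) - (x.2 : ℤ)).natAbs) with h | h
        · exact h
        · exfalso
          have h4 := Nat.le_of_dvd (by
            rw [Int.natAbs_pos]
            intro h0
            exact hr (by omega)) h
          have h5 := (hP x hx).2.1
          have h6 := (hP y hy).2.1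
          omega
      exact hcop _ hm _ _ h3 (by exact_mod_cast hpx) h1
    · have h3 : IsCoprime ((x.1 : ℕ) : ℤ) ((y.1 : ℕ) : ℤ) := by
        rw [Nat.isCoprime_iff_coprime]
        exact (Nat.coprime_primes (hP x hx).1 (hP y hy).1).2 hp
      exact hcop _ hm _ _ h3 (by exact_mod_cast hpx) (by exact_mod_cast hpy)
  have hmem : ∀ x ∈ P, nu θ u ∈ Q x := by
    intro x hx
    obtain ⟨hm, hpx, hrx⟩ := hQ x hx
    have h1 : nu θ u - ((∑ i : Fin k, u i * (x.2 : ℤ) ^ (i : ℕ) : ℤ) : 𝓞 K) ∈ Q x := by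
      have h2 : nu θ u - ((∑ i : Fin k, u i * (x.2 : ℤ) ^ (i : ℕ) : ℤ) : 𝓞 K) =
          ∑ i : Fin k, (u i : 𝓞 K) * (θ ^ (i : ℕ) - (x.2 : 𝓞 K) ^ (i : ℕ)) := by
        rw [nu]; push_cast; rw [← Finset.sum_sub_distrib]
        exact Finset.sum_congr rfl fun i _ => by ring
      rw [h2]
      refine Submodule.sum_mem _ fun i _ => (Q x).mul_mem_left _ ?_
      obtain ⟨c, hc⟩ := sub_dvd_pow_sub_pow θ (x.2 : 𝓞 K) (i : ℕ)
      rw [hc]
      exact (Q x).mul_mem_right _ hrx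
    have h3 : ((∑ i : Fin k, u i * (x.2 : ℤ) ^ (i : ℕ) : ℤ) : 𝓞 K) ∈ Q x := by
      obtain ⟨c, hc⟩ := (hP x hx).2.2.2
      rw [hc]
      push_cast
      exact (Q x).mul_mem_right _ hpx
    have := (Q x).add_mem h1 h3
    simpa using this
  have hprod : (∏ x ∈ P, Q x) ∣ Ideal.span {nu θ u} := by
    apply Finset.prod_dvd_of_coprime
    · intro x hx y hy hxy
      have := (hQ x hx).1
      have := (hQ y hy).1
      exact Ideal.isCoprime_of_isMaximal (hdist x hx y hy hxy)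
    · intro x hx
      rw [Ideal.dvd_span_singleton]
      exact hmem x hx
  have hnorm : Ideal.absNorm (∏ x ∈ P, Q x) ∣ nn θ u := by
    rw [nn, ← Ideal.absNorm_span_singleton]
    exact map_dvd Ideal.absNorm hprod
  refine Dvd.dvd.trans ?_ hnorm
  rw [map_prod]
  apply Finset.prod_dvd_prod_of_dvd
  intro x hx
  obtain ⟨hm, hpx, _⟩ := hQ x hx
  rcases Nat.coprime_or_dvd_of_prime (hP x hx).1 (Ideal.absNorm (Q x)) with h | h
  · exfalso
    refine hcop _ hm ((x.1 : ℕ) : ℤ) ((Ideal.absNorm (Q x) : ℕ) : ℤ) (Nat.isCoprime_iff_coprime.2 h)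
      (by exact_mod_cast hpx) ?_
    have := Ideal.absNorm_mem (Q x)
    exact_mod_cast this
  · exact h

end EK75
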