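import Pool.Agent.H75.EK.Lat
import Pool.Agent.H75.EK.Nf

/-! Module LB3A: discriminant-type constant, and the prime ideals above a good prime. -/

open Polynomial Finset NumberField
open scoped Real BigOperators

namespace EK75


theorem lb3a_aeval {K : Type} [Field K] [NumberField K] (k : ℕ) (hk : 1 ≤ k) (g : ℤ[X])
    (hg : g.Monic) (hd : g.natDegree = k) (θ : 𝓞 K) (hθ : aeval θ g = 0) (q : ℤ[X]) :
    ∃ c : Fin k → ℤ, aeval θ q = nu θ c := by
  have h1 : aeval θ q = aeval θ (q %ₘ g) := by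
    conv_lhs => rw [← modByMonic_add_div q g, map_add, map_mul, hθ, zero_mul, add_zero]
  have h2 : (q %ₘ g).natDegree < k := by
    rw [← hd]
    apply natDegree_modByMonic_lt _ hg
    intro h
    rw [h, natDegree_one] at hd
    omega
  refine ⟨fun i => (q %ₘ g).coeff i, ?_⟩
  rw [h1, aeval_eq_sum_range' h2, Finset.sum_range, nu]
  refine Finset.sum_congr rfl fun i _ => ?_
  rw [zsmul_eq_mul]

theorem lb3a_minpoly {K : Type} [Field K] [NumberField K] (g : ℤ[X])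
    (hg : g.Monic) (hirr : Irreducible g) (θ : 𝓞 K) (hθ : aeval θ g = 0) :
    minpoly ℚ (θ : K) = g.map (algebraMap ℤ ℚ) := by
  symm
  apply minpoly.eq_of_irreducible_of_monic
  · exact (hg.irreducible_iff_irreducible_map_fraction_map).1 hirr
  · rw [aeval_map_algebraMap]
    have := congrArg (algebraMap (𝓞 K) K) hθ
    rw [map_zero, ← aeval_algebraMap_apply] at this
    exact this
  · exact hg.map _

theorem lb3a_pb {K : Type} [Field K] [NumberField K] (k : ℕ) (g : ℤ[X])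
    (hg : g.Monic) (hd : g.natDegree = k) (hirr : Irreducible g) (θ : 𝓞 K) (hθ : aeval θ g = 0)
    (hfr : Module.finrank ℚ K = k) : ∃ B : PowerBasis ℚ K, B.gen = (θ : K) ∧ B.dim = k := by
  have hint : IsIntegral ℚ (θ : K) := Algebra.IsIntegral.isIntegral _
  have htop : IntermediateField.adjoin ℚ {(θ : K)} = ⊤ := by
    rw [Field.primitive_element_iff_minpoly_natDegree_eq, lb3a_minpoly g hg hirr θ hθ, hg.natDegree_map,
      hd, hfr]
  have htop' : Algebra.adjoin ℚ {(θ : K)} = ⊤ := by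
    rw [← IntermediateField.adjoin_simple_toSubalgebra_of_isAlgebraic hint.isAlgebraic, htop]
    rfl
  refine ⟨PowerBasis.ofAdjoinEqTop hint htop', by simp, ?_⟩
  rw [← PowerBasis.finrank, hfr]

theorem lb3a_bound (H : ℝ) (hH : 2 ≤ H) (k n : ℕ) (hn : n = k) (f : Fin n → ℂ)
    (hf : ∀ i, ‖f i‖ ≤ 1 + H) :
    ‖∏ i : Fin n, ∏ j ∈ Ioi i, (f j - f i) ^ 2‖ ≤ H ^ ((6 * k ^ 2 : ℕ) : ℝ) := by
  subst hn
  have hM : ∀ i j, ‖(f j - f i) ^ 2‖ ≤ H ^ 6 := by
    intro i j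
    rw [norm_pow]
    have h1 : ‖f j - f i‖ ≤ H ^ 3 := by
      have := norm_sub_le (f j) (f i)
      have h2 := hf i
      have h3 := hf j
      nlinarith [sq_nonneg (H - 2), mul_nonneg (by linarith : (0:ℝ) ≤ H - 2) (by linarith : (0:ℝ) ≤ H + 2)]
    calc ‖f j - f i‖ ^ 2 ≤ (H ^ 3) ^ 2 := by gcongr
      _ = H ^ 6 := by ring
  have hH1 : (1 : ℝ) ≤ H ^ 6 := one_le_pow₀ (by linarith)
  have h2 : ∀ i, ‖∏ j ∈ Ioi i, (f j - f i) ^ 2‖ ≤ (H ^ 6) ^ n := by
    intro i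
    rw [norm_prod]
    calc ∏ j ∈ Ioi i, ‖(f j - f i) ^ 2‖ ≤ ∏ j ∈ Ioi i, H ^ 6 :=
          Finset.prod_le_prod (fun _ _ => norm_nonneg _) (fun j _ => hM i j)
      _ = (H ^ 6) ^ (Ioi i).card := by rw [prod_const]
      _ ≤ (H ^ 6) ^ n := pow_le_pow_right₀ hH1 ((card_le_univ _).trans (by simp))
  rw [norm_prod]
  calc ∏ i, ‖∏ j ∈ Ioi i, (f j - f i) ^ 2‖ ≤ ∏ i : Fin n, (H ^ 6) ^ n :=
        Finset.prod_le_prod (fun _ _ => norm_nonneg _) (fun i _ => h2 i)
    _ = H ^ (6 * n ^ 2) := by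
        rw [prod_const, card_univ, Fintype.card_fin, ← pow_mul, ← pow_mul]
        congr 1; ring
    _ = H ^ ((6 * n ^ 2 : ℕ) : ℝ) := (Real.rpow_natCast _ _).symm

theorem nf_disc (k : ℕ) (hk : 1 ≤ k) : ∃ A : ℝ, 1 ≤ A ∧
    ∀ (K : Type) [Field K] [NumberField K] (g : ℤ[X]), g.Monic → g.natDegree = k → Irreducible g →
    ∀ (θ : 𝓞 K), aeval θ g = 0 → Module.finrank ℚ K = k → ∀ H : ℝ, 2 ≤ H → HtLe g H →
    ∃ Δ : ℕ, 1 ≤ Δ ∧ (Δ : ℝ) ≤ H ^ A ∧ ∀ x : 𝓞 K, ∃ c : Fin k → ℤ, (Δ : 𝓞 K) * x = nu θ c := by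
  refine ⟨((6 * k ^ 2 : ℕ) : ℝ), ?_, ?_⟩
  · have : 1 ≤ 6 * k ^ 2 := by nlinarith
    exact_mod_cast this
  intro K _ _ g hg hd hirr θ hθ hfr H hH hht
  obtain ⟨B, hB, hBd⟩ := lb3a_pb k g hg hd hirr θ hθ hfr
  have hgen : IsIntegral ℤ B.gen := by rw [hB]; exact RingOfIntegers.isIntegral_coe θ
  have hbint : ∀ i, IsIntegral ℤ (B.basis i) := by
    intro i
    rw [B.basis_eq_pow]
    exact hgen.pow _
  obtain ⟨d, hdD⟩ := IsIntegrallyClosed.isIntegral_iff.1
    (Algebra.discr_isIntegral ℚ (R := ℤ) hbint)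
  have hD0 : Algebra.discr ℚ B.basis ≠ 0 := Algebra.discr_not_zero_of_basis _ _
  have hd0 : d ≠ 0 := by
    rintro rfl
    apply hD0
    rw [← hdD, map_zero]
  have hcard : Fintype.card (Fin B.dim) = Fintype.card (K →ₐ[ℚ] ℂ) := by
    rw [Fintype.card_fin, AlgHom.card, PowerBasis.finrank B]
  let e : Fin B.dim ≃ (K →ₐ[ℚ] ℂ) := Fintype.equivOfCardEq hcard
  have hprod := Algebra.discr_powerBasis_eq_prod ℚ ℂ B e
  have hnorm : ‖(algebraMap ℚ ℂ (Algebra.discr ℚ B.basis))‖ ≤ H ^ ((6 * k ^ 2 : ℕ) : ℝ) := by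
    rw [hprod]
    apply lb3a_bound H hH k B.dim hBd
    intro i
    rw [hB]
    exact nf_emb k hk g hg hd hirr θ hθ hfr H (by linarith) hht ((e i : K →ₐ[ℚ] ℂ) : K →+* ℂ)
  refine ⟨d.natAbs, Int.natAbs_pos.2 hd0, ?_, ?_⟩
  · rw [← hdD] at hnorm
    have h1 : ((d.natAbs : ℕ) : ℝ) = |(d : ℝ)| := by
      rw [Nat.cast_natAbs, Int.cast_abs]
    rw [h1]
    convert hnorm using 1
    simp
  · intro x
    have h1 := Algebra.discr_mul_isIntegral_mem_adjoin ℚ (R := ℤ) hgen (z := (x : K))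
      (RingOfIntegers.isIntegral_coe x)
    rw [Algebra.adjoin_singleton_eq_range_aeval, AlgHom.mem_range] at h1
    obtain ⟨q, hq⟩ := h1
    rw [hB] at hq
    have h2 : aeval θ q = (d : 𝓞 K) * x := by
      apply RingOfIntegers.ext
      rw [← hdD] at hq
      have h3 : ((aeval θ q : 𝓞 K) : K) = aeval (θ : K) q := by
        exact (aeval_algebraMap_apply K θ q).symm
      rw [h3, hq]
      rw [Algebra.smul_def]
      simp
    obtain ⟨c, hc⟩ := lb3a_aeval k hk g hg hd θ hθ q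
    rcases Int.natAbs_eq d with h | h
    · refine ⟨c, ?_⟩
      rw [← hc, h2]
      congr 1
      conv_rhs => rw [h]
      simp
    · refine ⟨fun i => - c i, ?_⟩
      have h3 : nu θ (fun i => - c i) = - nu θ c := by
        simp [nu]
      rw [h3, ← hc, h2]
      conv_rhs => rw [h]
      simp

open UniqueFactorizationMonoid in
open Classical in
theorem lb3a_count {S : Type*} [CommRing S] [IsDedekindDomain S] (I P : Ideal S) (hI : I ≠ ⊥)
    (hP : P.IsPrime) (hP0 : P ≠ ⊥) (j : ℕ) :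
    j ≤ (normalizedFactors I).count P ↔ I ≤ P ^ j := by
  have hirr : Irreducible P := (Ideal.prime_of_isPrime hP0 hP).irreducible
  have h1 := emultiplicity_eq_count_normalizedFactors hirr hI
  rw [normalize_eq] at h1
  rw [← Ideal.dvd_iff_le, pow_dvd_iff_le_emultiplicity, h1]
  exact Nat.cast_le.symm

theorem lb3a_int {K : Type} [Field K] [NumberField K] (P : Ideal (𝓞 K)) (hP : P.IsPrime) (p : ℕ)
    (hp : p.Prime) (hpP : (p : 𝓞 K) ∈ P) (m : ℤ) : (m : 𝓞 K) ∈ P ↔ (p : ℤ) ∣ m := by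
  constructor
  · intro hm
    by_contra hnd
    have hco : IsCoprime (p : ℤ) m :=
      (Prime.coprime_iff_not_dvd (Nat.prime_iff_prime_int.1 hp)).2 hnd
    obtain ⟨a, b, hab⟩ := hco
    apply hP.ne_top
    rw [Ideal.eq_top_iff_one]
    have h1 : (1 : 𝓞 K) = (a : 𝓞 K) * (p : 𝓞 K) + (b : 𝓞 K) * (m : 𝓞 K) := by
      have := congrArg (fun t : ℤ => (t : 𝓞 K)) hab
      simp only [Int.cast_add, Int.cast_mul, Int.cast_natCast, Int.cast_one] at this
      exact this.symm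
    rw [h1]
    exact P.add_mem (P.mul_mem_left _ hpP) (P.mul_mem_left _ hm)
  · rintro ⟨c, rfl⟩
    push_cast
    exact P.mul_mem_right _ hpP

theorem lb3a_prime {K : Type} [Field K] [NumberField K] (P : Ideal (𝓞 K)) (hP : P.IsPrime)
    (hP0 : P ≠ ⊥) (p : ℕ) (hp : p.Prime) :
    ((p : 𝓞 K) ∈ P → 1 ≤ (Ideal.absNorm P).factorization p ∧
      Ideal.absNorm P = p ^ (Ideal.absNorm P).factorization p) ∧
    ((p : 𝓞 K) ∉ P → (Ideal.absNorm P).factorization p = 0) := by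
  have hmax : P.IsMaximal := hP.isMaximal hP0
  obtain ⟨q, n, hn, hqP, hq, hN⟩ := Ideal.exists_prime_and_absNorm_eq_pow P
  rw [hN]
  constructor
  · intro hpP
    have h1 : (p : ℤ) ∣ (q : ℤ) := by
      rw [← lb3a_int P hP p hp hpP]
      simpa using hqP
    have h2 : p = q := (Nat.prime_dvd_prime_iff_eq hp hq).1 (by exact_mod_cast h1)
    subst h2
    rw [hp.factorization_pow]
    simp only [Finsupp.single_eq_same]
    exact ⟨hn, trivial⟩
  · intro hpP
    have h2 : p ≠ q := by rintro rfl; exact hpP hqP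
    rw [hq.factorization_pow]
    rw [Finsupp.single_eq_of_ne h2]

open UniqueFactorizationMonoid in
theorem lb3a_fac {K : Type} [Field K] [NumberField K] (m : Multiset (Ideal (𝓞 K)))
    (hm : ∀ Q ∈ m, Q ≠ ⊥) (p : ℕ) :
    (Ideal.absNorm m.prod).factorization p = (m.map (fun Q => (Ideal.absNorm Q).factorization p)).sum := by
  induction m using Multiset.induction_on with
  | empty => simp
  | cons a m ih =>
    rw [Multiset.prod_cons, map_mul, Nat.factorization_mul, Finsupp.add_apply, ih, Multiset.map_cons,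
      Multiset.sum_cons]
    · intro Q hQ; exact hm Q (Multiset.mem_cons_of_mem hQ)
    · rw [Ne, Ideal.absNorm_eq_zero_iff]; exact hm a (Multiset.mem_cons_self _ _)
    · rw [Ne, Ideal.absNorm_eq_zero_iff]
      intro h
      rw [← Ideal.zero_eq_bot, Multiset.prod_eq_zero_iff] at h
      exact hm 0 (Multiset.mem_cons_of_mem h) rfl

open UniqueFactorizationMonoid in
open Classical in
theorem lb3a_fac2 {K : Type} [Field K] [NumberField K] (p : ℕ) (hp : p.Prime)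
    (s : Finset (Ideal (𝓞 K))) (hs : ∀ P : Ideal (𝓞 K), P ∈ s ↔ P.IsPrime ∧ P ≠ ⊥ ∧ (p : 𝓞 K) ∈ P)
    (I : Ideal (𝓞 K)) (hI : I ≠ ⊥) :
    (Ideal.absNorm I).factorization p =
      ∑ P ∈ s, (Ideal.absNorm P).factorization p * (normalizedFactors I).count P := by
  conv_lhs => rw [← Ideal.prod_normalizedFactors_eq_self hI]
  have hmem : ∀ Q ∈ normalizedFactors I, Q.IsPrime ∧ Q ≠ ⊥ := by
    intro Q hQ
    have h1 := prime_of_normalized_factor Q hQ
    exact ⟨Ideal.isPrime_of_prime h1, h1.ne_zero⟩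
  rw [lb3a_fac _ (fun Q hQ => (hmem Q hQ).2), Finset.sum_multiset_map_count]
  have h1 : ∑ Q ∈ (normalizedFactors I).toFinset,
      (normalizedFactors I).count Q • (Ideal.absNorm Q).factorization p =
      ∑ Q ∈ (normalizedFactors I).toFinset ∪ s,
      (normalizedFactors I).count Q • (Ideal.absNorm Q).factorization p := by
    apply Finset.sum_subset Finset.subset_union_left
    intro Q _ hQ
    rw [Multiset.mem_toFinset] at hQ
    rw [Multiset.count_eq_zero_of_notMem hQ, zero_smul]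
  have h2 : ∑ P ∈ s, (Ideal.absNorm P).factorization p * (normalizedFactors I).count P =
      ∑ P ∈ (normalizedFactors I).toFinset ∪ s,
        (Ideal.absNorm P).factorization p * (normalizedFactors I).count P := by
    apply Finset.sum_subset Finset.subset_union_right
    intro Q hQ hQs
    rw [Finset.mem_union, Multiset.mem_toFinset] at hQ
    have hQ1 := hQ.resolve_right hQs
    obtain ⟨h3, h4⟩ := hmem Q hQ1
    rw [hs] at hQs
    have h5 : (p : 𝓞 K) ∉ Q := fun h => hQs ⟨h3, h4, h⟩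
    rw [(lb3a_prime Q h3 h4 p hp).2 h5, zero_mul]
  rw [h1, h2]
  refine Finset.sum_congr rfl fun Q _ => ?_
  rw [smul_eq_mul, mul_comm]

theorem lb3a_index {K : Type} [Field K] [NumberField K] (k : ℕ) (θ : 𝓞 K) (Δ : ℕ)
    (hΔ : ∀ x : 𝓞 K, ∃ c : Fin k → ℤ, (Δ : 𝓞 K) * x = nu θ c)
    (p : ℕ) (hp : p.Prime) (hpΔ : ¬ p ∣ Δ) (P : Ideal (𝓞 K)) (hpP : (p : 𝓞 K) ∈ P) (j : ℕ) :
    (latI k θ (P ^ j)).index = Ideal.absNorm (P ^ j) := by
  let φ : (Fin k → ℤ) →+ 𝓞 K ⧸ P ^ j :=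
    { toFun := fun u => Ideal.Quotient.mk _ (nu θ u)
      map_zero' := by simp [nu]
      map_add' := by
        intro a b
        rw [← map_add]
        congr 1
        simp only [nu, Pi.add_apply, Int.cast_add, add_mul, Finset.sum_add_distrib] }
  have hker : latI k θ (P ^ j) = φ.ker := by
    ext u
    rw [AddMonoidHom.mem_ker]
    change nu θ u ∈ P ^ j ↔ Ideal.Quotient.mk (P ^ j) (nu θ u) = 0
    rw [Ideal.Quotient.eq_zero_iff_mem]
  have hrange : φ.range = ⊤ := by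
    rw [AddMonoidHom.range_eq_top]
    intro y
    obtain ⟨x, rfl⟩ := Ideal.Quotient.mk_surjective y
    have hco : IsCoprime ((p : ℤ) ^ j) (Δ : ℤ) := by
      apply IsCoprime.pow_left
      rw [Nat.isCoprime_iff_coprime]
      exact (Nat.Prime.coprime_iff_not_dvd hp).2 hpΔ
    obtain ⟨a, b, hab⟩ := hco
    obtain ⟨c, hc⟩ := hΔ ((b : 𝓞 K) * x)
    refine ⟨c, ?_⟩
    change Ideal.Quotient.mk (P ^ j) (nu θ c) = _
    rw [← hc, Ideal.Quotient.eq]
    have h1 : (a : 𝓞 K) * (p : 𝓞 K) ^ j + (b : 𝓞 K) * (Δ : 𝓞 K) = 1 := by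
      have := congrArg (fun t : ℤ => (t : 𝓞 K)) hab
      simpa only [Int.cast_add, Int.cast_mul, Int.cast_natCast, Int.cast_one, Int.cast_pow] using this
    have h2 : (Δ : 𝓞 K) * ((b : 𝓞 K) * x) - x = (p : 𝓞 K) ^ j * (-(a : 𝓞 K) * x) := by
      linear_combination (x : 𝓞 K) * h1
    rw [h2]
    exact Ideal.mul_mem_right _ _ (Ideal.pow_mem_pow hpP j)
  rw [hker, AddSubgroup.index_ker, hrange, Ideal.absNorm_apply, Submodule.cardQuot_apply,
    AddSubgroup.card_top]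


theorem lb3a_evalmod {K : Type} [Field K] [NumberField K] (g : ℤ[X]) (θ : 𝓞 K)
    (r : ℤ) (P : Ideal (𝓞 K)) (h : θ - (r : 𝓞 K) ∈ P) :
    aeval θ g - ((g.eval r : ℤ) : 𝓞 K) ∈ P := by
  have h1 : (θ - (r : 𝓞 K)) ∣ aeval θ g - ((g.eval r : ℤ) : 𝓞 K) := by
    have h2 := sub_dvd_eval_sub θ (r : 𝓞 K) (g.map (Int.castRingHom (𝓞 K)))
    rw [eval_intCast_map] at h2
    rw [aeval_def, algebraMap_int_eq, ← eval_map]
    exact h2
  obtain ⟨c, hc⟩ := h1
  rw [hc]
  exact P.mul_mem_right _ h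

theorem lb3a_root {K : Type} [Field K] [NumberField K] (g : ℤ[X]) (θ : 𝓞 K) (hθ : aeval θ g = 0)
    (p : ℕ) (hp : p.Prime) (P : Ideal (𝓞 K)) (hP : P.IsPrime) (hpP : (p : 𝓞 K) ∈ P)
    (hN : Ideal.absNorm P = p) :
    ∃ r : ℕ, r < p ∧ θ - (r : 𝓞 K) ∈ P ∧ (p : ℤ) ∣ g.eval (r : ℤ) := by
  have hcard : Nat.card (𝓞 K ⧸ P) = p := by
    rw [← hN, Ideal.absNorm_apply, Submodule.cardQuot_apply]
  have hfin : Finite (𝓞 K ⧸ P) := by
    apply Nat.finite_of_card_ne_zero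
    rw [hcard]; exact hp.ne_zero
  let f : Fin p → 𝓞 K ⧸ P := fun r => Ideal.Quotient.mk P ((r : ℕ) : 𝓞 K)
  have hinj : Function.Injective f := by
    intro r r' h
    change Ideal.Quotient.mk P ((r : ℕ) : 𝓞 K) = Ideal.Quotient.mk P ((r' : ℕ) : 𝓞 K) at h
    rw [Ideal.Quotient.eq] at h
    have h1 : (p : ℤ) ∣ ((r : ℕ) : ℤ) - ((r' : ℕ) : ℤ) := by
      rw [← lb3a_int P hP p hp hpP]
      push_cast
      exact h
    apply Fin.ext
    have h2 : |((r : ℕ) : ℤ) - ((r' : ℕ) : ℤ)| < (p : ℤ) := by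
      have := r.2
      have := r'.2
      rw [abs_lt]
      constructor <;> omega
    have h3 := Int.eq_zero_of_abs_lt_dvd h1 h2
    omega
  have hbij : Function.Bijective f := by
    apply hinj.bijective_of_nat_card_le
    rw [hcard, Nat.card_eq_fintype_card, Fintype.card_fin]
  obtain ⟨r, hr⟩ := hbij.2 (Ideal.Quotient.mk P θ)
  have hr2 : θ - ((r : ℕ) : 𝓞 K) ∈ P := by
    rw [← Ideal.Quotient.eq]; exact hr.symm
  refine ⟨r, r.2, hr2, ?_⟩
  rw [← lb3a_int P hP p hp hpP]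
  have h1 := lb3a_evalmod g θ ((r : ℕ) : ℤ) P (by push_cast; exact hr2)
  rw [hθ, zero_sub] at h1
  exact (Ideal.neg_mem_iff _).1 h1

theorem lb3a_numod {K : Type} [Field K] [NumberField K] (k : ℕ) (θ : 𝓞 K) (c : Fin k → ℤ)
    (r : ℤ) (P : Ideal (𝓞 K)) (h : θ - (r : 𝓞 K) ∈ P) :
    nu θ c - ((∑ i, c i * r ^ (i : ℕ) : ℤ) : 𝓞 K) ∈ P := by
  have h1 := lb3a_evalmod (∑ i : Fin k, C (c i) * X ^ (i : ℕ)) θ r P h
  have h2 : aeval θ (∑ i : Fin k, C (c i) * X ^ (i : ℕ)) = nu θ c := by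
    simp [nu, map_sum]
  have h3 : (∑ i : Fin k, C (c i) * X ^ (i : ℕ) : ℤ[X]).eval r = ∑ i, c i * r ^ (i : ℕ) := by
    simp [eval_finsetSum]
  rw [h2, h3] at h1
  exact h1

open UniqueFactorizationMonoid in
open Classical in
theorem good_primes {K : Type} [Field K] [NumberField K] (k : ℕ) (hk : 1 ≤ k) (g : ℤ[X])
    (hg : g.Monic) (hd : g.natDegree = k) (hirr : Irreducible g) (θ : 𝓞 K) (hθ : aeval θ g = 0)
    (hfr : Module.finrank ℚ K = k) (Δ : ℕ) (hΔ : ∀ x : 𝓞 K, ∃ c : Fin k → ℤ, (Δ : 𝓞 K) * x = nu θ c)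
    (p : ℕ) (hp : p.Prime) (hpΔ : ¬ p ∣ Δ) :
    ∃ (s : Finset (Ideal (𝓞 K))) (fd : Ideal (𝓞 K) → ℕ), s.card ≤ k ∧
      (∀ P ∈ s, 1 ≤ fd P ∧ fd P ≤ k ∧ ∀ j, 1 ≤ j → (latI k θ (P ^ j)).index = p ^ (fd P * j)) ∧
      (s.filter (fun P => fd P = 1)).card ≤ rho g p ∧
      ∀ u : Fin k → ℤ, u ≠ 0 → (nn θ u).factorization p =
        ∑ P ∈ s, fd P * ((Icc 1 (nn θ u)).filter (fun j => u ∈ latI k θ (P ^ j))).card := by
  have hp0 : (Ideal.span {(p : 𝓞 K)} : Ideal (𝓞 K)) ≠ ⊥ := by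
    rw [Ne, Ideal.span_singleton_eq_bot]
    exact_mod_cast hp.ne_zero
  have hs : ∀ P : Ideal (𝓞 K), P ∈ (normalizedFactors (Ideal.span {(p : 𝓞 K)})).toFinset ↔
      P.IsPrime ∧ P ≠ ⊥ ∧ (p : 𝓞 K) ∈ P := by
    intro P
    rw [Multiset.mem_toFinset, mem_normalizedFactors_iff hp0]
    constructor
    · rintro ⟨h1, h2⟩
      refine ⟨Ideal.isPrime_of_prime h1, h1.ne_zero, ?_⟩
      rw [Ideal.dvd_iff_le, Ideal.span_singleton_le_iff_mem] at h2
      exact h2
    · rintro ⟨h1, h2, h3⟩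
      refine ⟨Ideal.prime_of_isPrime h2 h1, ?_⟩
      rw [Ideal.dvd_iff_le, Ideal.span_singleton_le_iff_mem]
      exact h3
  set s : Finset (Ideal (𝓞 K)) := (normalizedFactors (Ideal.span {(p : 𝓞 K)})).toFinset with hsdef
  -- the sum of e f is k
  have hsum : ∑ P ∈ s, (Ideal.absNorm P).factorization p *
      (normalizedFactors (Ideal.span {(p : 𝓞 K)})).count P = k := by
    rw [← lb3a_fac2 p hp s hs _ hp0, Ideal.absNorm_span_natCast, RingOfIntegers.rank, hfr,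
      hp.factorization_pow]
    simp
  have hfd1 : ∀ P ∈ s, 1 ≤ (Ideal.absNorm P).factorization p := by
    intro P hP
    obtain ⟨h1, h2, h3⟩ := (hs P).1 hP
    exact ((lb3a_prime P h1 h2 p hp).1 h3).1
  have hcnt1 : ∀ P ∈ s, 1 ≤ (normalizedFactors (Ideal.span {(p : 𝓞 K)})).count P := by
    intro P hP
    rw [hsdef, Multiset.mem_toFinset] at hP
    exact Multiset.one_le_count_iff_mem.2 hP
  have hfdk : ∀ P ∈ s, (Ideal.absNorm P).factorization p ≤ k := by
    intro P hP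
    calc (Ideal.absNorm P).factorization p
        ≤ (Ideal.absNorm P).factorization p *
          (normalizedFactors (Ideal.span {(p : 𝓞 K)})).count P :=
          Nat.le_mul_of_pos_right _ (hcnt1 P hP)
      _ ≤ k := by
        rw [← hsum]
        exact Finset.single_le_sum (f := fun P => (Ideal.absNorm P).factorization p *
          (normalizedFactors (Ideal.span {(p : 𝓞 K)})).count P) (fun _ _ => Nat.zero_le _) hP
  refine ⟨s, fun P => (Ideal.absNorm P).factorization p, ?_, ?_, ?_, ?_⟩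
  · calc s.card = ∑ P ∈ s, 1 := by simp
      _ ≤ ∑ P ∈ s, (Ideal.absNorm P).factorization p *
          (normalizedFactors (Ideal.span {(p : 𝓞 K)})).count P :=
          Finset.sum_le_sum fun P hP => Nat.mul_pos (hfd1 P hP) (hcnt1 P hP)
      _ = k := hsum
  · intro P hP
    refine ⟨hfd1 P hP, hfdk P hP, ?_⟩
    intro j _
    obtain ⟨h1, h2, h3⟩ := (hs P).1 hP
    rw [lb3a_index k θ Δ hΔ p hp hpΔ P h3 j, map_pow]
    conv_lhs => rw [((lb3a_prime P h1 h2 p hp).1 h3).2]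
    rw [← pow_mul]
  · -- roots
    have hr : ∀ P : Ideal (𝓞 K), ∃ r : ℕ, P ∈ s.filter (fun P => (Ideal.absNorm P).factorization p = 1) →
        r < p ∧ θ - (r : 𝓞 K) ∈ P ∧ (p : ℤ) ∣ g.eval (r : ℤ) := by
      intro P
      by_cases hP : P ∈ s.filter (fun P => (Ideal.absNorm P).factorization p = 1)
      · rw [Finset.mem_filter] at hP
        obtain ⟨h1, h2, h3⟩ := (hs P).1 hP.1
        obtain ⟨r, hr⟩ := lb3a_root g θ hθ p hp P h1 h3 (by
          rw [((lb3a_prime P h1 h2 p hp).1 h3).2, hP.2, pow_one])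
        exact ⟨r, fun _ => hr⟩
      · exact ⟨0, fun h => absurd h hP⟩
    choose r hr using hr
    rw [rho]
    apply Finset.card_le_card_of_injOn r
    · intro P hP
      obtain ⟨h1, h2, h3⟩ := hr P (Finset.mem_coe.1 hP)
      rw [Finset.mem_coe, Finset.mem_filter, Finset.mem_range]
      exact ⟨h1, h3⟩
    · intro P hP P' hP' heq
      rw [Finset.mem_coe] at hP hP'
      obtain ⟨_, h2, _⟩ := hr P hP
      obtain ⟨_, h2', _⟩ := hr P' hP'
      rw [Finset.mem_filter] at hP hP'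
      obtain ⟨a1, a2, a3⟩ := (hs P).1 hP.1
      obtain ⟨b1, b2, b3⟩ := (hs P').1 hP'.1
      have hle : P ≤ P' := by
        intro α hα
        obtain ⟨c, hc⟩ := hΔ α
        have h4 : nu θ c ∈ P := by rw [← hc]; exact P.mul_mem_left _ hα
        have h5 := lb3a_numod k θ c ((r P : ℕ) : ℤ) P (by push_cast; exact h2)
        have h6 : ((∑ i, c i * ((r P : ℕ) : ℤ) ^ (i : ℕ) : ℤ) : 𝓞 K) ∈ P := by
          have := P.sub_mem h4 h5
          rwa [sub_sub_cancel] at this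
        rw [lb3a_int P a1 p hp a3] at h6
        have h7 : ((∑ i, c i * ((r P : ℕ) : ℤ) ^ (i : ℕ) : ℤ) : 𝓞 K) ∈ P' := by
          rw [lb3a_int P' b1 p hp b3]; exact h6
        have h8 := lb3a_numod k θ c ((r P' : ℕ) : ℤ) P' (by push_cast; exact h2')
        rw [← heq] at h8
        have h9 : nu θ c ∈ P' := by
          have := P'.add_mem h8 h7
          rwa [sub_add_cancel] at this
        rw [← hc] at h9
        rcases b1.mem_or_mem h9 with h | h
        · exfalso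
          have : ((Δ : ℤ) : 𝓞 K) ∈ P' := by exact_mod_cast h
          rw [lb3a_int P' b1 p hp b3] at this
          exact hpΔ (by exact_mod_cast this)
        · exact h
      exact (a1.isMaximal a2).eq_of_le b1.ne_top hle
  · intro u hu
    have hn : nn θ u = Ideal.absNorm (Ideal.span {nu θ u} : Ideal (𝓞 K)) := by
      rw [Ideal.absNorm_span_singleton]; rfl
    have hpos := nf_pos k hk g hg hd hirr θ hθ hfr u hu
    have hI : (Ideal.span {nu θ u} : Ideal (𝓞 K)) ≠ ⊥ := by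
      intro h
      rw [hn, h, Ideal.absNorm_bot] at hpos
      omega
    have h1 := lb3a_fac2 p hp s hs _ hI
    rw [← hn] at h1
    rw [h1]
    refine Finset.sum_congr rfl fun P hP => ?_
    congr 1
    obtain ⟨a1, a2, a3⟩ := (hs P).1 hP
    set v := (normalizedFactors (Ideal.span {nu θ u})).count P with hv
    have hvn : v ≤ nn θ u := by
      have h2 : (Ideal.span {nu θ u} : Ideal (𝓞 K)) ≤ P ^ v :=
        (lb3a_count _ P hI a1 a2 v).1 le_rfl
      have h3 : Ideal.absNorm (P ^ v) ∣ nn θ u := by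
        rw [hn]; exact Ideal.absNorm_dvd_absNorm_of_le h2
      have h4 : 2 ≤ Ideal.absNorm P := by
        have h5 : Ideal.absNorm P ≠ 0 := by rw [Ne, Ideal.absNorm_eq_zero_iff]; exact a2
        have h6 : Ideal.absNorm P ≠ 1 := by rw [Ne, Ideal.absNorm_eq_one_iff]; exact a1.ne_top
        omega
      have h7 := Nat.le_of_dvd hpos h3
      rw [map_pow] at h7
      calc v ≤ 2 ^ v := Nat.lt_two_pow_self.le
        _ ≤ (Ideal.absNorm P) ^ v := Nat.pow_le_pow_left h4 v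
        _ ≤ nn θ u := h7
    have h2 : (Icc 1 (nn θ u)).filter (fun j => u ∈ latI k θ (P ^ j)) = Icc 1 v := by
      ext j
      rw [Finset.mem_filter, Finset.mem_Icc, Finset.mem_Icc]
      have h3 : u ∈ latI k θ (P ^ j) ↔ j ≤ v := by
        rw [hv, lb3a_count _ P hI a1 a2 j, Ideal.span_singleton_le_iff_mem]
        rfl
      rw [h3]
      omega
    rw [h2, Nat.card_Icc]
    omega


end EK75
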