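import Pool.Agent.H75.EK.Defs

/-! Module PB1: integers `x` with `p^e ∣ G(x)`. -/

open Polynomial Finset
open scoped Real BigOperators

namespace EK75

theorem pb1_val {p : ℤ} (hp : Prime p) : ∀ (i m : ℕ) (a b : ℤ), ¬ (p ^ (i + 1) ∣ a) →
    p ^ (i + m) ∣ a * b → p ^ m ∣ b := by
  intro i
  induction i with
  | zero =>
    intro m a b ha hab
    rw [zero_add, pow_one] at ha
    rw [zero_add] at hab
    exact hp.pow_dvd_of_dvd_mul_left m ha hab
  | succ i ih =>
    intro m a b ha hab
    by_cases h : p ∣ a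
    · obtain ⟨a', rfl⟩ := h
      refine ih m a' b ?_ ?_
      · intro h1
        apply ha
        rw [pow_succ' p (i + 1)]
        exact mul_dvd_mul_left p h1
      · have h2 : p * p ^ (i + m) ∣ p * (a' * b) := by
          rw [← pow_succ', ← mul_assoc]
          have : i + m + 1 = i + 1 + m := by ring
          rwa [this]
        exact (mul_dvd_mul_iff_left hp.ne_zero).1 h2
    · have h1 := hp.pow_dvd_of_dvd_mul_left (i + 1 + m) h hab
      exact (pow_dvd_pow p (by omega)).trans h1

/-- `D + 1` solutions which are pairwise incongruent mod `p^(i+1)` force `p ∣ G` -/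
theorem pb1_claim (p : ℕ) (hp : p.Prime) (i : ℕ) : ∀ (D : ℕ) (G : ℤ[X]) (e : ℕ) (S : Finset ℤ),
    G.natDegree ≤ D → S.card = D + 1 →
    (∀ x ∈ S, ∀ y ∈ S, x ≠ y → ¬ ((p : ℤ) ^ (i + 1) ∣ x - y)) → D * i < e →
    (∀ x ∈ S, (p : ℤ) ^ e ∣ G.eval x) → ∀ j, (p : ℤ) ∣ G.coeff j := by
  intro D
  induction D with
  | zero =>
    intro G e S hG hS _ he hdiv j
    have hpos : 0 < S.card := by omega
    obtain ⟨x, hx⟩ := Finset.card_pos.1 hpos
    have hGC : G = C (G.coeff 0) := Polynomial.eq_C_of_natDegree_le_zero hG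
    have h1 := hdiv x hx
    rw [hGC, Polynomial.eval_C] at h1
    have h2 : (p : ℤ) ∣ G.coeff 0 := (dvd_pow_self (p : ℤ) (by omega)).trans h1
    by_cases hj : j = 0
    · rw [hj]; exact h2
    · rw [hGC, Polynomial.coeff_C_of_ne_zero hj]; exact dvd_zero _
  | succ D ih =>
    intro G e S hG hS hinc he hdiv
    have hpZ : Prime (p : ℤ) := Nat.prime_iff_prime_int.1 hp
    have hpos : 0 < S.card := by omega
    obtain ⟨x0, hx0⟩ := Finset.card_pos.1 hpos
    set G1 := G /ₘ (X - C x0) with hG1
    have hdecomp : G = C (G.eval x0) + (X - C x0) * G1 := by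
      have := Polynomial.modByMonic_add_div G (X - C x0)
      rw [Polynomial.modByMonic_X_sub_C_eq_C_eval] at this
      exact this.symm
    have hdeg : G1.natDegree ≤ D := by
      rw [hG1, Polynomial.natDegree_divByMonic G (monic_X_sub_C x0), natDegree_X_sub_C]
      omega
    have hei : D * i < e - i := by
      have : (D + 1) * i = D * i + i := by ring
      omega
    have h1 : ∀ j, (p : ℤ) ∣ G1.coeff j := by
      refine ih G1 (e - i) (S.erase x0) hdeg ?_ ?_ hei ?_
      · rw [Finset.card_erase_of_mem hx0, hS]; rfl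
      · intro x hx y hy hxy
        exact hinc x (Finset.mem_of_mem_erase hx) y (Finset.mem_of_mem_erase hy) hxy
      · intro x hx
        have hxS := Finset.mem_of_mem_erase hx
        have hne : x ≠ x0 := Finset.ne_of_mem_erase hx
        have h2 : (p : ℤ) ^ e ∣ (x - x0) * G1.eval x := by
          have h3 : G.eval x - G.eval x0 = (x - x0) * G1.eval x := by
            conv_lhs => rw [hdecomp]
            simp
          rw [← h3]
          exact dvd_sub (hdiv x hxS) (hdiv x0 hx0)
        have h4 : ¬ ((p : ℤ) ^ (i + 1) ∣ x - x0) := hinc x hxS x0 hx0 hne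
        -- `v_p (x - x0) ≤ i`
        have h5 : (p : ℤ) ^ (e - i + i) ∣ (x - x0) * G1.eval x := by
          rwa [Nat.sub_add_cancel (by
            have : (D + 1) * i = D * i + i := by ring
            omega)]
        have h6 : e - i + i = i + (e - i) := by omega
        rw [h6] at h5
        exact pb1_val hpZ i (e - i) _ _ h4 h5
    have h0 : (p : ℤ) ∣ G.eval x0 := (dvd_pow_self (p : ℤ) (by omega)).trans (hdiv x0 hx0)
    have hCp : C (p : ℤ) ∣ G := by
      rw [hdecomp]
      refine dvd_add ?_ ?_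
      · obtain ⟨c, hc⟩ := h0
        rw [hc, C_mul]
        exact dvd_mul_right _ _
      · exact dvd_mul_of_dvd_right ((Polynomial.C_dvd_iff_dvd_coeff _ _).2 h1) _
    exact (Polynomial.C_dvd_iff_dvd_coeff _ _).1 hCp

theorem content_count (D : ℕ) (G : ℤ[X]) (hG : G.natDegree ≤ D) (p : ℕ) (hp : p.Prime)
    (hc : ∃ j, ¬ ((p : ℤ) ∣ G.coeff j)) (e i : ℕ) (hi : D * i < e) (X : ℕ) :
    ((range X).filter (fun x : ℕ => (p : ℤ) ^ e ∣ G.eval (x : ℤ))).card ≤
      D * (X / p ^ (i + 1) + 1) := by
  have hr : 0 < p ^ (i + 1) := pow_pos hp.pos _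
  set S := (range X).filter (fun x : ℕ => (p : ℤ) ^ e ∣ G.eval (x : ℤ)) with hS
  have himg : (S.image (fun x => x % p ^ (i + 1))).card ≤ D := by
    by_contra hcon
    push Not at hcon
    obtain ⟨T, hT, hTc⟩ := Finset.exists_subset_card_eq (Nat.succ_le_of_lt hcon)
    have hsurj : Set.SurjOn (fun x => x % p ^ (i + 1)) (S : Set ℕ) (T : Set ℕ) := by
      intro t ht
      have := hT (Finset.mem_coe.1 ht)
      rw [Finset.mem_image] at this
      obtain ⟨x, hx, hxt⟩ := this
      exact ⟨x, Finset.mem_coe.2 hx, hxt⟩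
    obtain ⟨U, hUS, hinj, hUT⟩ := Finset.exists_subset_injOn_image_eq_of_surjOn _ T hsurj
    have hUc : U.card = D + 1 := by
      rw [← Nat.succ_eq_add_one, ← hTc, ← hUT, Finset.card_image_of_injOn hinj]
    obtain ⟨j, hj⟩ := hc
    apply hj
    refine pb1_claim p hp i D G e (U.image (fun x : ℕ => (x : ℤ))) hG ?_ ?_ hi ?_ j
    · rw [Finset.card_image_of_injective _ Nat.cast_injective, hUc]
    · intro x hx y hy hxy hdvd
      rw [Finset.mem_image] at hx hy
      obtain ⟨x, hx, rfl⟩ := hx
      obtain ⟨y, hy, rfl⟩ := hy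
      apply hxy
      have h1 : x = y := by
        apply hinj (Finset.mem_coe.2 hx) (Finset.mem_coe.2 hy)
        have h2 : ((p ^ (i + 1) : ℕ) : ℤ) ∣ (x : ℤ) - y := by push_cast; exact hdvd
        exact ((Nat.modEq_iff_dvd).2 h2).symm
      rw [h1]
    · intro x hx
      rw [Finset.mem_image] at hx
      obtain ⟨x, hx, rfl⟩ := hx
      have := hUS (Finset.mem_coe.2 hx)
      rw [hS, Finset.mem_coe, Finset.mem_filter] at this
      exact this.2
  have hcls : ∀ b ∈ S.image (fun x => x % p ^ (i + 1)),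
      (S.filter (fun x => x % p ^ (i + 1) = b)).card ≤ X / p ^ (i + 1) + 1 := by
    intro b hb
    rw [Finset.mem_image] at hb
    obtain ⟨y, -, rfl⟩ := hb
    calc (S.filter (fun x => x % p ^ (i + 1) = y % p ^ (i + 1))).card
        ≤ ((range X).filter (fun x => x ≡ y [MOD p ^ (i + 1)])).card := by
          apply Finset.card_le_card
          intro x hx
          rw [Finset.mem_filter] at hx ⊢
          exact ⟨(Finset.mem_filter.1 hx.1).1, hx.2⟩
      _ = X.count (· ≡ y [MOD p ^ (i + 1)]) := by rw [Nat.count_eq_card_filter_range]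
      _ ≤ X / p ^ (i + 1) + 1 := by
          rw [Nat.count_modEq_card _ hr]
          split_ifs <;> omega
  calc S.card ≤ (X / p ^ (i + 1) + 1) * (S.image (fun x => x % p ^ (i + 1))).card :=
        Finset.card_le_mul_card_image S _ hcls
    _ ≤ (X / p ^ (i + 1) + 1) * D := Nat.mul_le_mul_left _ himg
    _ = D * (X / p ^ (i + 1) + 1) := mul_comm _ _

end EK75
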