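import Pool.Agent.H75.EK.Nf
import Pool.Agent.H75.EK.Pb1

/-! Module LB3B: crude bound for the `p`-part of `N(u)` on average. -/

open Polynomial Finset NumberField
open scoped Real BigOperators

namespace EK75

/-- splitting off the first coordinate in a sum over a box -/
theorem lb3b_box (m X : ℕ) (F : (Fin (m + 1) → ℤ) → ℝ) :
    ∑ u ∈ boxZ (m + 1) X, F u =
      ∑ w ∈ boxZ m X, ∑ x ∈ range X, F (Fin.cons (x : ℤ) w) := by
  rw [Finset.sum_comm, ← Finset.sum_product']
  symm
  refine Finset.sum_bij' (fun (t : ℕ × (Fin m → ℤ)) _ => (Fin.cons (t.1 : ℤ) t.2 : Fin (m + 1) → ℤ))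
    (fun u _ => ((u 0).toNat, Fin.tail u)) ?_ ?_ ?_ ?_ ?_
  · rintro ⟨x, w⟩ h
    obtain ⟨h1, h2⟩ := Finset.mem_product.1 h
    rw [boxZ, Fintype.mem_piFinset] at h2 ⊢
    intro i
    refine Fin.cases ?_ ?_ i
    · rw [Fin.cons_zero, Finset.mem_Ico]
      have := Finset.mem_range.1 h1
      constructor
      · positivity
      · exact_mod_cast this
    · intro i
      rw [Fin.cons_succ]
      exact h2 i
  · intro u h
    rw [boxZ, Fintype.mem_piFinset] at h
    rw [Finset.mem_product]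
    constructor
    · have := Finset.mem_Ico.1 (h 0)
      rw [Finset.mem_range]
      change (u 0).toNat < X
      omega
    · rw [boxZ, Fintype.mem_piFinset]
      intro i
      exact h i.succ
  · rintro ⟨x, w⟩ h
    simp
  · intro u h
    rw [boxZ, Fintype.mem_piFinset] at h
    have := Finset.mem_Ico.1 (h 0)
    have h0 : (((u 0).toNat : ℕ) : ℤ) = u 0 := Int.toNat_of_nonneg this.1
    change (Fin.cons (((u 0).toNat : ℕ) : ℤ) (Fin.tail u) : Fin (m + 1) → ℤ) = u
    rw [h0, Fin.cons_self_tail]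
  · rintro ⟨x, w⟩ h
    rfl

/-- the norm as a polynomial in the first coordinate -/
theorem lb3b_poly {K : Type} [Field K] [NumberField K] (m : ℕ) (θ : 𝓞 K)
    (hfr : Module.finrank ℚ K = m + 1) (w : Fin m → ℤ) :
    ∃ G : ℤ[X], G.natDegree = m + 1 ∧ G.Monic ∧
      ∀ x : ℕ, nn θ (Fin.cons (x : ℤ) w : Fin (m + 1) → ℤ) = (G.eval (x : ℤ)).natAbs := by
  set η : 𝓞 K := ∑ i : Fin m, (w i : 𝓞 K) * θ ^ ((i : ℕ) + 1) with hη
  refine ⟨(LinearMap.mulLeft ℤ (-η)).charpoly, ?_, LinearMap.charpoly_monic _, ?_⟩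
  · rw [LinearMap.charpoly_natDegree, RingOfIntegers.rank K, hfr]
  · intro x
    rw [LinearMap.eval_charpoly, nn]
    congr 1
    have h1 : nu θ (Fin.cons (x : ℤ) w : Fin (m + 1) → ℤ) = (x : 𝓞 K) + η := by
      rw [nu, Fin.sum_univ_succ, Fin.cons_zero]
      simp [hη]
    rw [h1, Algebra.norm_apply]
    congr 1
    apply LinearMap.ext
    intro z
    simp [Algebra.lmul, add_mul]

theorem lb3b_geom (k : ℕ) (hk : 1 ≤ k) (J : ℕ) (q : ℝ) (hq0 : 0 ≤ q) (hq : q ≤ 1 / 2) :
    ∑ j ∈ range J, q ^ (j / k + 1) ≤ k := by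
  have h1 : ∀ M : ℕ, ∑ j ∈ range (k * M), q ^ (j / k + 1) = k * ∑ i ∈ range M, q ^ (i + 1) := by
    intro M
    induction M with
    | zero => simp
    | succ M ih =>
      rw [Nat.mul_succ, Finset.sum_range_add, ih, Finset.sum_range_succ, mul_add]
      congr 1
      have h2 : ∀ l ∈ range k, q ^ ((k * M + l) / k + 1) = q ^ (M + 1) := by
        intro l hl
        have h3 : (k * M + l) / k = M := by
          rw [Nat.mul_add_div (by omega), Nat.div_eq_of_lt (Finset.mem_range.1 hl), add_zero]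
        rw [h3]
      rw [Finset.sum_congr rfl h2, Finset.sum_const, Finset.card_range, nsmul_eq_mul]
  have h2 : ∑ j ∈ range J, q ^ (j / k + 1) ≤ ∑ j ∈ range (k * J), q ^ (j / k + 1) := by
    apply Finset.sum_le_sum_of_subset_of_nonneg
    · intro j hj
      rw [Finset.mem_range] at hj ⊢
      nlinarith
    · intro j _ _
      positivity
  refine h2.trans ?_
  rw [h1]
  have h3 : ∑ i ∈ range J, q ^ (i + 1) ≤ 1 := by
    calc ∑ i ∈ range J, q ^ (i + 1) ≤ ∑ i ∈ range J, (1 / 2 : ℝ) * (1 / 2) ^ i := by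
          apply Finset.sum_le_sum
          intro i _
          rw [← pow_succ']
          exact pow_le_pow_left₀ hq0 hq _
      _ = (1 / 2) * ∑ i ∈ range J, (1 / 2 : ℝ) ^ i := by rw [Finset.mul_sum]
      _ ≤ (1 / 2) * 2 := by
          apply mul_le_mul_of_nonneg_left (sum_geometric_two_le J) (by norm_num)
      _ = 1 := by norm_num
  have hk0 : (0 : ℝ) ≤ k := by positivity
  nlinarith

theorem vp_sum {K : Type} [Field K] [NumberField K] (k : ℕ) (hk : 1 ≤ k) (g : ℤ[X])
    (hg : g.Monic) (hd : g.natDegree = k) (hirr : Irreducible g) (θ : 𝓞 K) (hθ : aeval θ g = 0)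
    (hfr : Module.finrank ℚ K = k) (p : ℕ) (hp : p.Prime) (X Z : ℕ) (hX : 1 ≤ X) (hZ : 1 ≤ Z)
    (hZ' : ∀ u ∈ boxZ k X, nn θ u ≤ Z) :
    ∑ u ∈ boxZ k X, (((nn θ u).factorization p : ℕ) : ℝ) ≤
      (X : ℝ) ^ (k - 1) * ((k : ℝ) ^ 2 * X + k * (Real.log Z / Real.log 2)) := by
  obtain ⟨m, rfl⟩ : ∃ m, k = m + 1 := ⟨k - 1, by omega⟩
  rw [lb3b_box]
  set J : ℕ := Nat.log 2 Z with hJ
  have hJle : (J : ℝ) ≤ Real.log Z / Real.log 2 := by
    rw [le_div_iff₀ (Real.log_pos (by norm_num)), ← Real.log_pow]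
    apply Real.log_le_log (by positivity)
    have : 2 ^ J ≤ Z := Nat.pow_log_le_self 2 (by omega)
    exact_mod_cast this
  -- the bound for fixed `w`
  have key : ∀ w ∈ boxZ m X, ∑ x ∈ range X,
      (((nn θ (Fin.cons (x : ℤ) w : Fin (m + 1) → ℤ)).factorization p : ℕ) : ℝ) ≤
      ((m + 1 : ℕ) : ℝ) ^ 2 * X + ((m + 1 : ℕ) : ℝ) * (Real.log Z / Real.log 2) := by
    intro w hw
    obtain ⟨G, hGd, hGm, hG⟩ := lb3b_poly m θ hfr w
    have hmem : ∀ x ∈ range X, (Fin.cons (x : ℤ) w : Fin (m + 1) → ℤ) ∈ boxZ (m + 1) X := by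
      intro x hx
      rw [boxZ, Fintype.mem_piFinset] at hw ⊢
      intro i
      refine Fin.cases ?_ ?_ i
      · rw [Fin.cons_zero, Finset.mem_Ico]
        have := Finset.mem_range.1 hx
        constructor
        · positivity
        · exact_mod_cast this
      · intro i
        rw [Fin.cons_succ]
        exact hw i
    have h1 : ∀ x ∈ range X, (nn θ (Fin.cons (x : ℤ) w : Fin (m + 1) → ℤ)).factorization p ≤
        ∑ j ∈ range J, if (p : ℤ) ^ (j + 1) ∣ G.eval (x : ℤ) then 1 else 0 := by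
      intro x hx
      set n := nn θ (Fin.cons (x : ℤ) w : Fin (m + 1) → ℤ) with hn
      by_cases hn0 : n = 0
      · rw [hn0, Nat.factorization_zero, Finsupp.coe_zero, Pi.zero_apply]
        exact Nat.zero_le _
      · have hnZ : n ≤ Z := hZ' _ (hmem x hx)
        set v := n.factorization p with hv
        have hpv : p ^ v ∣ n := Nat.ordProj_dvd n p
        have hvJ : v ≤ J := by
          rw [hJ]
          apply Nat.le_log_of_pow_le (by norm_num)
          calc 2 ^ v ≤ p ^ v := Nat.pow_le_pow_left hp.two_le v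
            _ ≤ n := Nat.le_of_dvd (Nat.pos_of_ne_zero hn0) hpv
            _ ≤ Z := hnZ
        have h2 : ∑ j ∈ range v, 1 ≤ ∑ j ∈ range J,
            (if (p : ℤ) ^ (j + 1) ∣ G.eval (x : ℤ) then 1 else 0) := by
          have h3 : ∀ j ∈ range v, (if (p : ℤ) ^ (j + 1) ∣ G.eval (x : ℤ) then 1 else 0) = 1 := by
            intro j hj
            rw [if_pos]
            have h4 : p ^ (j + 1) ∣ n := (pow_dvd_pow p (Finset.mem_range.1 hj)).trans hpv
            rw [hn, hG x, ← Int.natCast_dvd] at h4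
            exact_mod_cast h4
          rw [← Finset.sum_congr rfl h3]
          apply Finset.sum_le_sum_of_subset
          intro j hj
          rw [Finset.mem_range] at hj ⊢
          omega
        simpa using h2
    have h2 : (∑ x ∈ range X, (nn θ (Fin.cons (x : ℤ) w : Fin (m + 1) → ℤ)).factorization p) ≤
        ∑ j ∈ range J, (m + 1) * (X / p ^ (j / (m + 1) + 1) + 1) := by
      refine (Finset.sum_le_sum h1).trans ?_
      rw [Finset.sum_comm]
      apply Finset.sum_le_sum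
      intro j _
      rw [← Finset.card_filter]
      apply content_count (m + 1) G hGd.le p hp ⟨m + 1, ?_⟩ (j + 1) (j / (m + 1)) ?_ X
      · have : G.coeff (m + 1) = 1 := by rw [← hGd]; exact hGm.coeff_natDegree
        rw [this]
        intro h
        have := Int.eq_one_of_dvd_one (by positivity) h
        exact hp.one_lt.ne' (by exact_mod_cast this)
      · exact Nat.lt_succ_of_le (Nat.mul_div_le j (m + 1))
    have h3 : (((∑ x ∈ range X, (nn θ (Fin.cons (x : ℤ) w : Fin (m + 1) → ℤ)).factorization p) : ℕ)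
        : ℝ) ≤ ((∑ j ∈ range J, (m + 1) * (X / p ^ (j / (m + 1) + 1) + 1) : ℕ) : ℝ) := by
      exact_mod_cast h2
    have hp0 : (0 : ℝ) < p := by exact_mod_cast hp.pos
    have h4 : ((∑ j ∈ range J, (m + 1) * (X / p ^ (j / (m + 1) + 1) + 1) : ℕ) : ℝ) ≤
        ∑ j ∈ range J, ((m + 1 : ℕ) : ℝ) * (X * (1 / p : ℝ) ^ (j / (m + 1) + 1) + 1) := by
      push_cast
      apply Finset.sum_le_sum
      intro j _
      apply mul_le_mul_of_nonneg_left _ (by positivity)
      have h5 : ((X / p ^ (j / (m + 1) + 1) : ℕ) : ℝ) ≤ X / (p : ℝ) ^ (j / (m + 1) + 1) := by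
        have := @Nat.cast_div_le ℝ _ _ _ X (p ^ (j / (m + 1) + 1))
        push_cast at this
        exact this
      rw [one_div, inv_pow, ← div_eq_mul_inv]
      linarith
    have h5 : ∑ j ∈ range J, ((m + 1 : ℕ) : ℝ) * (X * (1 / p : ℝ) ^ (j / (m + 1) + 1) + 1) =
        ((m + 1 : ℕ) : ℝ) * (X * ∑ j ∈ range J, (1 / p : ℝ) ^ (j / (m + 1) + 1) + J) := by
      rw [← Finset.mul_sum, Finset.sum_add_distrib, ← Finset.mul_sum]
      simp
    have h6 := lb3b_geom (m + 1) (by omega) J (1 / p) (by positivity) (by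
      rw [div_le_div_iff₀ hp0 (by norm_num)]
      have : (2 : ℝ) ≤ p := by exact_mod_cast hp.two_le
      linarith)
    have hX0 : (0 : ℝ) ≤ X := by positivity
    have hm0 : (0 : ℝ) ≤ ((m + 1 : ℕ) : ℝ) := by positivity
    calc ∑ x ∈ range X, (((nn θ (Fin.cons (x : ℤ) w : Fin (m + 1) → ℤ)).factorization p : ℕ) : ℝ)
        = (((∑ x ∈ range X,
          (nn θ (Fin.cons (x : ℤ) w : Fin (m + 1) → ℤ)).factorization p) : ℕ) : ℝ) := by
            push_cast; rfl
      _ ≤ ((m + 1 : ℕ) : ℝ) * (X * ∑ j ∈ range J, (1 / p : ℝ) ^ (j / (m + 1) + 1) + J) := by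
            rw [← h5]; exact h3.trans h4
      _ ≤ ((m + 1 : ℕ) : ℝ) * (X * ((m + 1 : ℕ) : ℝ) + Real.log Z / Real.log 2) := by
            apply mul_le_mul_of_nonneg_left _ hm0
            apply add_le_add _ hJle
            exact mul_le_mul_of_nonneg_left h6 hX0
      _ = _ := by ring
  refine (Finset.sum_le_sum key).trans ?_
  rw [Finset.sum_const, nsmul_eq_mul, boxZ, Fintype.card_piFinset]
  simp

end EK75
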