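import Pool.Agent.H75.EK.Lat
import Pool.Agent.H75.EK.Nf
import Pool.Agent.H75.EK.Mert

/-! Module UB: upper Mertens bound for the number of roots of an irreducible polynomial, uniform in the height. -/

open Polynomial Finset
open scoped Real BigOperators

namespace EK75

/-- the evaluation map behind `latI` -/
def ub_phi (k p : ℕ) (r : ZMod p) : (Fin k → ℤ) →+ ZMod p where
  toFun u := ∑ i, (u i : ZMod p) * r ^ (i : ℕ)
  map_zero' := by simp
  map_add' := by
    intro a b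
    simp only [Pi.add_apply, Int.cast_add, add_mul, sum_add_distrib]

theorem ub_index (k : ℕ) (hk : 1 ≤ k) (p : ℕ) [Fact p.Prime] (r : ZMod p) :
    (latI k r (⊥ : Ideal (ZMod p))).index = p := by
  have h1 : latI k r (⊥ : Ideal (ZMod p)) = (ub_phi k p r).ker := by
    ext u
    change (∑ i, (u i : ZMod p) * r ^ (i : ℕ) ∈ (⊥ : Ideal (ZMod p))) ↔ _
    rw [Ideal.mem_bot, AddMonoidHom.mem_ker]
    rfl
  rw [h1, AddSubgroup.index_ker]
  have hsurj : Function.Surjective (ub_phi k p r) := by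
    intro c
    refine ⟨fun i => if i = ⟨0, hk⟩ then (c.val : ℤ) else 0, ?_⟩
    change ∑ i : Fin k, ((if i = ⟨0, hk⟩ then (c.val : ℤ) else 0 : ℤ) : ZMod p) * r ^ (i : ℕ) = c
    rw [Finset.sum_eq_single (⟨0, hk⟩ : Fin k)]
    · simp
    · intro b _ hb
      simp [hb]
    · intro h
      exact absurd (Finset.mem_univ _) h
  rw [AddMonoidHom.range_eq_top.mpr hsurj]
  simp

theorem ub_rho_le (g : ℤ[X]) (hg : g.Monic) (p : ℕ) (hp : p.Prime) : rho g p ≤ g.natDegree := by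
  have : Fact p.Prime := ⟨hp⟩
  set gp : (ZMod p)[X] := g.map (Int.castRingHom (ZMod p)) with hgp
  have hgm : gp.Monic := hg.map _
  have hne : gp ≠ 0 := hgm.ne_zero
  have hdeg : gp.natDegree = g.natDegree := hg.natDegree_map _
  have h1 : rho g p ≤ gp.roots.toFinset.card := by
    unfold rho
    refine Finset.card_le_card_of_injOn (fun r : ℕ => (r : ZMod p)) ?_ ?_
    · intro r hr
      have hr' := (Finset.mem_filter.mp hr).2
      simp only [Finset.mem_coe, Multiset.mem_toFinset]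
      rw [mem_roots hne, IsRoot.def, hgp]
      have : (eval (r : ZMod p) (g.map (Int.castRingHom (ZMod p)))) = ((g.eval (r : ℤ) : ℤ) : ZMod p) := by
        rw [eval_map, ← Int.cast_natCast (R := ZMod p) r]
        rw [eval₂_at_intCast]
        simp
      rw [this]
      exact (ZMod.intCast_zmod_eq_zero_iff_dvd _ _).mpr hr'
    · intro a ha b hb hab
      have ha' := Finset.mem_range.mp (Finset.mem_filter.mp ha).1
      have hb' := Finset.mem_range.mp (Finset.mem_filter.mp hb).1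
      have h := (ZMod.natCast_eq_natCast_iff' a b p).mp hab
      rwa [Nat.mod_eq_of_lt ha', Nat.mod_eq_of_lt hb'] at h
  calc rho g p ≤ gp.roots.toFinset.card := h1
    _ ≤ Multiset.card gp.roots := Multiset.toFinset_card_le _
    _ ≤ gp.natDegree := card_roots' _
    _ = g.natDegree := hdeg

/-- number of points of the box with `p ∣ u(r)` -/
theorem ub_count (k : ℕ) (hk : 1 ≤ k) (g : ℤ[X]) (hg : g.Monic) (hd : g.natDegree = k)
    (hirr : Irreducible g) (H : ℝ) (hH : 1 ≤ H) (hht : HtLe g H) (p r X : ℕ) (hp : p.Prime)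
    (hr : (p : ℤ) ∣ g.eval (r : ℤ))
    (hX : 2 * (k * (1 + H) ^ k * (p : ℝ) ^ ((1 : ℝ) / k)) ≤ X) :
    ((X : ℝ) - 2 * (k * (1 + H) ^ k * (p : ℝ) ^ ((1 : ℝ) / k))) ^ k ≤
      p * (((boxZ k X).filter (fun u => (p : ℤ) ∣ ∑ i : Fin k, u i * (r : ℤ) ^ (i : ℕ))).card : ℝ) := by
  classical
  have : Fact p.Prime := ⟨hp⟩
  have hθ : aeval (r : ZMod p) g = 0 := by
    rw [aeval_def, ← Int.cast_natCast (R := ZMod p) r]
    rw [eval₂_at_intCast]
    simp only [algebraMap_int_eq, eq_intCast, Int.cast_natCast]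
    exact (ZMod.intCast_zmod_eq_zero_iff_dvd _ _).mpr hr
  have h := (lat_ideal k hk g hg hd hirr H hH hht (r : ZMod p) hθ ⊥ p hp.one_lt.le
    (ub_index k hk p _) X _ rfl).2 hX
  have hset : (boxZ k X).filter (fun u => u ∈ latI k (r : ZMod p) (⊥ : Ideal (ZMod p))) =
      (boxZ k X).filter (fun u => (p : ℤ) ∣ ∑ i : Fin k, u i * (r : ℤ) ^ (i : ℕ)) := by
    apply Finset.filter_congr
    intro u _
    change (∑ i, (u i : ZMod p) * (r : ZMod p) ^ (i : ℕ) ∈ (⊥ : Ideal (ZMod p))) ↔ _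
    rw [Ideal.mem_bot, ← ZMod.intCast_zmod_eq_zero_iff_dvd]
    push_cast
    rfl
  rw [hset] at h
  exact h

/-- pairs `(p, r)` with `p ≤ Y` prime and `r` a root of `g` modulo `p` -/
noncomputable def ub_Q (g : ℤ[X]) (Y : ℝ) : Finset (ℕ × ℕ) :=
  ((prLe Y) ×ˢ (range (⌊Y⌋₊ + 1))).filter (fun x => x.2 < x.1 ∧ (x.1 : ℤ) ∣ g.eval (x.2 : ℤ))

theorem ub_sum_Q (g : ℤ[X]) (Y : ℝ) (F : ℕ → ℝ) :
    ∑ x ∈ ub_Q g Y, F x.1 = ∑ p ∈ prLe Y, rhoR g p * F p := by
  unfold ub_Q
  rw [Finset.sum_filter, Finset.sum_product]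
  apply Finset.sum_congr rfl
  intro p hp
  have hpY : p ≤ ⌊Y⌋₊ := by
    have := (Finset.mem_filter.mp hp).1
    rw [Finset.mem_range] at this
    omega
  simp only
  rw [← Finset.sum_filter, Finset.sum_const, nsmul_eq_mul]
  unfold rhoR rho
  congr 3
  ext r
  simp only [Finset.mem_filter, Finset.mem_range]
  constructor
  · rintro ⟨_, h1, h2⟩
    exact ⟨h1, h2⟩
  · rintro ⟨h1, h2⟩
    exact ⟨by omega, h1, h2⟩

theorem ub_mem_prLe {Y : ℝ} (hY : 0 ≤ Y) {p : ℕ} (hp : p ∈ prLe Y) : p.Prime ∧ (p : ℝ) ≤ Y := by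
  unfold prLe at hp
  rw [Finset.mem_filter, Finset.mem_range] at hp
  refine ⟨hp.2, ?_⟩
  have : p ≤ ⌊Y⌋₊ := by omega
  exact (Nat.le_floor_iff hY).mp this

theorem ub_mem_Q {g : ℤ[X]} {Y : ℝ} (hY : 0 ≤ Y) {x : ℕ × ℕ} (hx : x ∈ ub_Q g Y) :
    x.1.Prime ∧ (x.1 : ℝ) ≤ Y ∧ x.2 < x.1 ∧ (x.1 : ℤ) ∣ g.eval (x.2 : ℤ) := by
  unfold ub_Q at hx
  rw [Finset.mem_filter, Finset.mem_product] at hx
  have := ub_mem_prLe hY hx.1.1
  exact ⟨this.1, this.2, hx.2.1, hx.2.2⟩

theorem ub_card_box (k X : ℕ) : (boxZ k X).card = X ^ k := by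
  unfold boxZ
  rw [Fintype.card_piFinset]
  simp

/-- the double counting inequality -/
theorem ub_double (k : ℕ) (hk : 1 ≤ k) (g : ℤ[X]) (hg : g.Monic) (hd : g.natDegree = k)
    (hirr : Irreducible g) (H : ℝ) (hH : 1 ≤ H) (hht : HtLe g H) (Y : ℝ) (hY : 1 ≤ Y) (X : ℕ)
    (hX1 : 1 ≤ X) :
    ∑ x ∈ ub_Q g Y, Real.log x.1 *
      ((((boxZ k X).filter (fun u => (x.1 : ℤ) ∣ ∑ i : Fin k, u i * (x.2 : ℤ) ^ (i : ℕ))).card : ℝ)
        - 1) ≤ (X : ℝ) ^ k * Real.log ((k * X * (1 + H) ^ k) ^ k) := by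
  classical
  obtain ⟨K, iF, iN, θ, hθ, hfr⟩ := nf_exists k hk g hg hd hirr
  set D : ℕ × ℕ → (Fin k → ℤ) → Prop :=
    fun x u => (x.1 : ℤ) ∣ ∑ i : Fin k, u i * (x.2 : ℤ) ^ (i : ℕ) with hD
  set B := boxZ k X with hB
  set L := Real.log ((k * X * (1 + H) ^ k) ^ k) with hL
  have hkR : (1 : ℝ) ≤ k := by exact_mod_cast hk
  have hXR : (1 : ℝ) ≤ X := by exact_mod_cast hX1
  have hbase : (1 : ℝ) ≤ k * X * (1 + H) ^ k := by
    have h1 : (1 : ℝ) ≤ (1 + H) ^ k := one_le_pow₀ (by linarith)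
    have h2 : (1 : ℝ) ≤ k * X := one_le_mul_of_one_le_of_one_le hkR hXR
    exact one_le_mul_of_one_le_of_one_le h2 h1
  have hL0 : 0 ≤ L := Real.log_nonneg (one_le_pow₀ hbase)
  -- pointwise
  have hpt : ∀ u ∈ B.erase 0, ∑ x ∈ (ub_Q g Y).filter (fun x => D x u), Real.log x.1 ≤ L := by
    intro u hu
    have hu0 : u ≠ 0 := (Finset.mem_erase.mp hu).1
    have huB : u ∈ B := (Finset.mem_erase.mp hu).2
    have hpos := nf_pos k hk g hg hd hirr θ hθ hfr u hu0
    have hle := nf_le k hk g hg hd hirr θ hθ hfr H hH hht X u huB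
    have hdvd := nf_dvd k hk g hg hd hirr θ hθ hfr ((ub_Q g Y).filter (fun x => D x u)) u (by
      intro x hx
      have h1 := (Finset.mem_filter.mp hx)
      have h2 := ub_mem_Q (by linarith) h1.1
      exact ⟨h2.1, h2.2.2.1, h2.2.2.2, h1.2⟩)
    have hle2 : (∏ x ∈ (ub_Q g Y).filter (fun x => D x u), x.1) ≤ nn θ u :=
      Nat.le_of_dvd (by omega) hdvd
    have hle3 : (∏ x ∈ (ub_Q g Y).filter (fun x => D x u), (x.1 : ℝ)) ≤
        (k * X * (1 + H) ^ k) ^ k := by
      refine le_trans ?_ hle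
      have : ((∏ x ∈ (ub_Q g Y).filter (fun x => D x u), x.1 : ℕ) : ℝ) ≤ (nn θ u : ℝ) := by
        exact_mod_cast hle2
      rwa [Nat.cast_prod] at this
    have hpp : ∀ x ∈ (ub_Q g Y).filter (fun x => D x u), (0 : ℝ) < (x.1 : ℝ) := by
      intro x hx
      have h2 := ub_mem_Q (by linarith) (Finset.mem_filter.mp hx).1
      exact_mod_cast h2.1.pos
    rw [← Real.log_prod (fun x hx => (hpp x hx).ne')]
    exact Real.log_le_log (Finset.prod_pos hpp) hle3
  have hsum : ∑ u ∈ B.erase 0, ∑ x ∈ (ub_Q g Y).filter (fun x => D x u), Real.log x.1 ≤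
      (X : ℝ) ^ k * L := by
    refine (Finset.sum_le_sum hpt).trans ?_
    rw [Finset.sum_const, nsmul_eq_mul]
    apply mul_le_mul_of_nonneg_right _ hL0
    have h1 : (B.erase 0).card ≤ X ^ k := by
      rw [← ub_card_box k X]
      exact Finset.card_le_card (Finset.erase_subset _ _)
    exact_mod_cast h1
  refine le_trans ?_ hsum
  have hswap : ∑ u ∈ B.erase 0, ∑ x ∈ (ub_Q g Y).filter (fun x => D x u), Real.log x.1 =
      ∑ x ∈ ub_Q g Y, Real.log x.1 * (((B.erase 0).filter (fun u => D x u)).card : ℝ) := by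
    have h1 : ∀ u ∈ B.erase 0, ∑ x ∈ (ub_Q g Y).filter (fun x => D x u), Real.log x.1 =
        ∑ x ∈ ub_Q g Y, if D x u then Real.log x.1 else 0 := fun u _ => Finset.sum_filter _ _
    rw [Finset.sum_congr rfl h1, Finset.sum_comm]
    apply Finset.sum_congr rfl
    intro x _
    rw [← Finset.sum_filter, Finset.sum_const, nsmul_eq_mul, mul_comm]
  rw [hswap]
  apply Finset.sum_le_sum
  intro x hx
  have hx' := ub_mem_Q (by linarith) hx
  have hlog : 0 ≤ Real.log x.1 := Real.log_nonneg (by exact_mod_cast hx'.1.one_lt.le)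
  apply mul_le_mul_of_nonneg_left _ hlog
  have h3 : (B.filter (fun u => D x u)).card ≤ ((B.erase 0).filter (fun u => D x u)).card + 1 := by
    have h6 : (B.filter (fun u => D x u)).erase 0 ⊆ (B.erase 0).filter (fun u => D x u) := by
      intro u hu
      rw [Finset.mem_erase, Finset.mem_filter] at hu
      rw [Finset.mem_filter, Finset.mem_erase]
      exact ⟨⟨hu.1, hu.2.1⟩, hu.2.2⟩
    have h7 : (B.filter (fun u => D x u)).card - 1 ≤ ((B.filter (fun u => D x u)).erase 0).card :=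
      Finset.pred_card_le_card_erase
    have h8 := Finset.card_le_card h6
    omega
  have h4 : ((B.filter (fun u => D x u)).card : ℝ) ≤
      (((B.erase 0).filter (fun u => D x u)).card : ℝ) + 1 := by exact_mod_cast h3
  have h5 : (B.filter (fun u => D x u)) =
    (B.filter (fun u => (x.1 : ℤ) ∣ ∑ i : Fin k, u i * (x.2 : ℤ) ^ (i : ℕ))) := by
    apply Finset.filter_congr_decidable
  rw [← h5]
  linarith

theorem ub_log_pow (k : ℕ) (hk : 1 ≤ k) {Y : ℝ} (hY : 1 ≤ Y) :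
    (k : ℝ) * Real.log (Y ^ ((1 : ℝ) / k)) = Real.log Y := by
  have hk0 : (k : ℝ) ≠ 0 := by exact_mod_cast (by omega : k ≠ 0)
  rw [Real.log_rpow (by linarith)]
  field_simp

set_option maxHeartbeats 1000000 in
theorem mertens_upper (k : ℕ) (hk : 1 ≤ k) : ∃ C : ℝ, 0 ≤ C ∧ ∀ g : ℤ[X], g.Monic →
    g.natDegree = k → Irreducible g → ∀ H : ℝ, 2 ≤ H → HtLe g H → ∀ Y : ℝ, 1 ≤ Y →
    Msum (rhoR g) Y ≤ Real.log Y + C * Real.log H := by
  classical
  obtain ⟨C3, hC3⟩ := mert3 k hk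
  obtain ⟨C1, hC1⟩ := mert3 1 le_rfl
  have hkR : (1 : ℝ) ≤ k := by exact_mod_cast hk
  have hk0 : (0 : ℝ) < k := by linarith
  have hl9 : 0 ≤ Real.log (9 * (k : ℝ) ^ 3) := by
    apply Real.log_nonneg
    have : (1 : ℝ) ≤ (k : ℝ) ^ 3 := one_le_pow₀ hkR
    linarith
  have hl2 : (0 : ℝ) < Real.log 2 := Real.log_pos (by norm_num)
  refine ⟨(k * Real.log (9 * (k : ℝ) ^ 3) + k * |C3| + k * |C1|) / Real.log 2 + 4 * (k : ℝ) ^ 2,
    by positivity, ?_⟩
  intro g hg hd hirr H hH hht Y hY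
  have hH1 : (1 : ℝ) ≤ H := by linarith
  have hlogH : Real.log 2 ≤ Real.log H := Real.log_le_log (by norm_num) hH
  have hrho : ∀ p : ℕ, p.Prime → rhoR g p ≤ k := by
    intro p hp
    unfold rhoR
    have := ub_rho_le g hg p hp
    rw [hd] at this
    exact_mod_cast this
  set κ : ℝ := k * (1 + H) ^ k with hκ
  have hκ1 : (1 : ℝ) ≤ κ := by
    have h1 : (1 : ℝ) ≤ (1 + H) ^ k := one_le_pow₀ (by linarith)
    exact one_le_mul_of_one_le_of_one_le hkR h1
  set y : ℝ := Y ^ ((1 : ℝ) / k) with hy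
  have hy1 : (1 : ℝ) ≤ y := Real.one_le_rpow hY (by positivity)
  have hyk : y ^ k = Y := by
    rw [hy, ← Real.rpow_natCast, ← Real.rpow_mul (by linarith)]
    have : (1 : ℝ) / k * (k : ℕ) = 1 := by field_simp
    rw [this, Real.rpow_one]
  set Xr : ℝ := 8 * k * κ * y with hXr
  have hXr1 : (8 : ℝ) ≤ Xr := by
    have h1 : (1 : ℝ) ≤ k * κ * y :=
      one_le_mul_of_one_le_of_one_le (one_le_mul_of_one_le_of_one_le hkR hκ1) hy1
    nlinarith
  set X : ℕ := ⌈Xr⌉₊ with hXdef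
  have hXge : Xr ≤ X := Nat.le_ceil _
  have hXlt : (X : ℝ) < Xr + 1 := Nat.ceil_lt_add_one (by linarith)
  have hXpos : (0 : ℝ) < X := by linarith
  have hX1 : 1 ≤ X := by
    have : (0 : ℝ) < X := hXpos
    exact_mod_cast this
  have hX9 : (X : ℝ) ≤ 9 * k * κ * y := by
    have h1 : (1 : ℝ) ≤ k * κ * y :=
      one_le_mul_of_one_le_of_one_le (one_le_mul_of_one_le_of_one_le hkR hκ1) hy1
    nlinarith
  have hdbl := ub_double k hk g hg hd hirr H hH1 hht Y hY X hX1
  set L := Real.log ((k * X * (1 + H) ^ k) ^ k) with hL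
  -- pointwise lower bound for the counts
  have hpt : ∀ x ∈ ub_Q g Y, Real.log x.1 / x.1 ≤
      Real.log x.1 * ((((boxZ k X).filter
        (fun u => (x.1 : ℤ) ∣ ∑ i : Fin k, u i * (x.2 : ℤ) ^ (i : ℕ))).card : ℝ) - 1) / (X : ℝ) ^ k
      + (2 * k * κ / X) * (Real.log x.1 * (x.1 : ℝ) ^ ((1 : ℝ) / k - 1))
      + Real.log x.1 / (X : ℝ) ^ k := by
    intro x hx
    obtain ⟨hp, hpY, hr, hdvd⟩ := ub_mem_Q (by linarith) hx
    have hp0 : (0 : ℝ) < x.1 := by exact_mod_cast hp.pos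
    have hlog : 0 ≤ Real.log x.1 := Real.log_nonneg (by exact_mod_cast hp.one_lt.le)
    set z : ℝ := (x.1 : ℝ) ^ ((1 : ℝ) / k) with hz
    have hzy : z ≤ y := Real.rpow_le_rpow hp0.le hpY (by positivity)
    have hz0 : 0 < z := Real.rpow_pos_of_pos hp0 _
    have hRm : 2 * (k * (1 + H) ^ k * z) ≤ X := by
      have h1 : 2 * (k * (1 + H) ^ k * z) = 2 * κ * z := by rw [hκ]; ring
      rw [h1]
      have h2 : 2 * κ * z ≤ 2 * κ * y := by
        apply mul_le_mul_of_nonneg_left hzy; linarith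
      have h3 : 2 * κ * y ≤ Xr := by
        rw [hXr]
        have : (0 : ℝ) ≤ κ * y := by positivity
        nlinarith
      linarith
    have hcnt := ub_count k hk g hg hd hirr H hH1 hht x.1 x.2 X hp hdvd hRm
    set cnt : ℝ := (((boxZ k X).filter
        (fun u => (x.1 : ℤ) ∣ ∑ i : Fin k, u i * (x.2 : ℤ) ^ (i : ℕ))).card : ℝ) with hcntdef
    -- Bernoulli
    have hbern : (X : ℝ) ^ k * (1 - 2 * k * κ * z / X) ≤ (X - 2 * (k * (1 + H) ^ k * z)) ^ k := by
      have h1 : (X : ℝ) - 2 * (k * (1 + H) ^ k * z) = X * (1 + -(2 * κ * z / X)) := by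
        rw [hκ]; field_simp; ring
      rw [h1, mul_pow]
      apply mul_le_mul_of_nonneg_left _ (by positivity)
      have h2 : 2 * κ * z / X ≤ 1 := by
        rw [div_le_one hXpos]
        have : 2 * (k * (1 + H) ^ k * z) = 2 * κ * z := by rw [hκ]; ring
        linarith
      have h3 := one_add_mul_le_pow (a := -(2 * κ * z / X)) (by linarith) k
      have h4 : (1 : ℝ) - 2 * k * κ * z / X = 1 + k * -(2 * κ * z / X) := by ring
      rw [h4]
      exact h3
    have hcnt2 : (X : ℝ) ^ k * (1 - 2 * k * κ * z / X) ≤ x.1 * cnt := hbern.trans hcnt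
    have hXk : (0 : ℝ) < (X : ℝ) ^ k := by positivity
    have hzp : (x.1 : ℝ) ^ ((1 : ℝ) / k - 1) = z / x.1 := by
      rw [Real.rpow_sub hp0, Real.rpow_one]
    rw [hzp]
    have h5 : 1 / (x.1 : ℝ) ≤ cnt / (X : ℝ) ^ k + 2 * k * κ / X * (z / x.1) := by
      have h6 : (1 - 2 * k * κ * z / X) / x.1 ≤ cnt / (X : ℝ) ^ k := by
        rw [div_le_div_iff₀ hp0 hXk]
        linarith
      have h7 : (1 - 2 * k * κ * z / X) / x.1 = 1 / (x.1 : ℝ) - 2 * k * κ / X * (z / x.1) := by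
        field_simp
      linarith
    have h8 := mul_le_mul_of_nonneg_left h5 hlog
    have h9 : Real.log x.1 * (cnt - 1) / (X : ℝ) ^ k
      + (2 * k * κ / X) * (Real.log x.1 * (z / x.1)) + Real.log x.1 / (X : ℝ) ^ k =
      Real.log x.1 * (cnt / (X : ℝ) ^ k + 2 * k * κ / X * (z / x.1)) := by ring
    rw [h9]
    calc Real.log x.1 / x.1 = Real.log x.1 * (1 / (x.1 : ℝ)) := by ring
      _ ≤ _ := h8
  have hM : Msum (rhoR g) Y = ∑ x ∈ ub_Q g Y, Real.log x.1 / x.1 := by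
    rw [ub_sum_Q g Y (fun p => Real.log p / p)]
    unfold Msum
    apply Finset.sum_congr rfl
    intro p _
    ring
  rw [hM]
  refine (Finset.sum_le_sum hpt).trans ?_
  rw [Finset.sum_add_distrib, Finset.sum_add_distrib, ← Finset.sum_div, ← Finset.mul_sum,
    ← Finset.sum_div]
  -- first term
  have hT1 : (∑ x ∈ ub_Q g Y, Real.log x.1 * ((((boxZ k X).filter
        (fun u => (x.1 : ℤ) ∣ ∑ i : Fin k, u i * (x.2 : ℤ) ^ (i : ℕ))).card : ℝ) - 1))
          / (X : ℝ) ^ k ≤ L := by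
    rw [div_le_iff₀ (by positivity)]
    linarith
  have hL' : L ≤ Real.log Y + k * Real.log (9 * (k : ℝ) ^ 3) + 4 * (k : ℝ) ^ 2 * Real.log H := by
    have h1H : (0 : ℝ) < 1 + H := by linarith
    have h1 : (k * X * (1 + H) ^ k : ℝ) ≤ (9 * (k : ℝ) ^ 3) * ((1 + H) ^ (2 * k)) * y := by
      have h2 : (k * X * (1 + H) ^ k : ℝ) ≤ k * (9 * k * κ * y) * (1 + H) ^ k := by gcongr
      refine h2.trans (le_of_eq ?_)
      rw [hκ]; ring
    have h3 : L ≤ Real.log (((9 * (k : ℝ) ^ 3) * ((1 + H) ^ (2 * k)) * y) ^ k) := by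
      rw [hL]
      apply Real.log_le_log
      · positivity
      · gcongr
    have h4 : Real.log (((9 * (k : ℝ) ^ 3) * ((1 + H) ^ (2 * k)) * y) ^ k) =
        k * Real.log (9 * (k : ℝ) ^ 3) + k * (2 * k * Real.log (1 + H)) + k * Real.log y := by
      rw [Real.log_pow, Real.log_mul (by positivity) (by positivity),
        Real.log_mul (by positivity) (by positivity), Real.log_pow]
      push_cast
      ring
    have h5 : Real.log (1 + H) ≤ 2 * Real.log H := by
      have : 1 + H ≤ H ^ 2 := by nlinarith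
      calc Real.log (1 + H) ≤ Real.log (H ^ 2) := Real.log_le_log h1H this
        _ = 2 * Real.log H := by rw [Real.log_pow]; norm_num
    have h6 := ub_log_pow k hk hY
    rw [h4] at h3
    rw [← hy] at h6
    have h7 : (k : ℝ) * (2 * k * Real.log (1 + H)) ≤ k * (2 * k * (2 * Real.log H)) := by gcongr
    nlinarith
  -- second term
  have hT2 : 2 * k * κ / X * ∑ x ∈ ub_Q g Y, Real.log x.1 * (x.1 : ℝ) ^ ((1 : ℝ) / k - 1) ≤
      k * |C3| := by
    have h1 : ∑ x ∈ ub_Q g Y, Real.log x.1 * (x.1 : ℝ) ^ ((1 : ℝ) / k - 1) ≤ k * (|C3| * y) := by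
      rw [ub_sum_Q g Y (fun p => Real.log p * (p : ℝ) ^ ((1 : ℝ) / k - 1))]
      have h2 : ∑ p ∈ prLe Y, rhoR g p * (Real.log p * (p : ℝ) ^ ((1 : ℝ) / k - 1)) ≤
          ∑ p ∈ prLe Y, k * (Real.log p * (p : ℝ) ^ ((1 : ℝ) / k - 1)) := by
        apply Finset.sum_le_sum
        intro p hp
        have hp' := ub_mem_prLe (by linarith) hp
        apply mul_le_mul_of_nonneg_right (hrho p hp'.1)
        have : 0 ≤ Real.log p := Real.log_nonneg (by exact_mod_cast hp'.1.one_lt.le)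
        positivity
      refine h2.trans ?_
      rw [← Finset.mul_sum]
      apply mul_le_mul_of_nonneg_left _ hk0.le
      refine (hC3 Y hY).trans ?_
      apply mul_le_mul_of_nonneg_right (le_abs_self _)
      positivity
    have h3 : 2 * k * κ / X * (k * (|C3| * y)) ≤ k * |C3| := by
      have h4 : 2 * k * κ / X * (k * (|C3| * y)) = (k * |C3|) * ((2 * k * κ * y) / X) := by ring
      rw [h4]
      have h5 : (2 * k * κ * y) / X ≤ 1 := by
        rw [div_le_one hXpos]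
        have hq : (0 : ℝ) ≤ k * κ * y := by positivity
        have hq1 : 2 * k * κ * y = 2 * (k * κ * y) := by ring
        have hq2 : Xr = 8 * (k * κ * y) := by rw [hXr]; ring
        rw [hq1]
        linarith only [hq, hq2, hXge]
      exact mul_le_of_le_one_right (by positivity) h5
    refine le_trans ?_ h3
    exact mul_le_mul_of_nonneg_left h1 (by positivity)
  -- third term
  have hT3 : (∑ x ∈ ub_Q g Y, Real.log x.1) / (X : ℝ) ^ k ≤ k * |C1| := by
    have h1 : ∑ x ∈ ub_Q g Y, Real.log x.1 ≤ k * (|C1| * Y) := by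
      rw [ub_sum_Q g Y (fun p => Real.log p)]
      have h2 : ∑ p ∈ prLe Y, rhoR g p * Real.log p ≤ ∑ p ∈ prLe Y, k * Real.log p := by
        apply Finset.sum_le_sum
        intro p hp
        have hp' := ub_mem_prLe (by linarith) hp
        apply mul_le_mul_of_nonneg_right (hrho p hp'.1)
        exact Real.log_nonneg (by exact_mod_cast hp'.1.one_lt.le)
      refine h2.trans ?_
      rw [← Finset.mul_sum]
      apply mul_le_mul_of_nonneg_left _ hk0.le
      have h3 := hC1 Y hY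
      simp only [Nat.cast_one, div_one, sub_self, Real.rpow_zero, mul_one, Real.rpow_one] at h3
      refine h3.trans ?_
      apply mul_le_mul_of_nonneg_right (le_abs_self _)
      linarith
    rw [div_le_iff₀ (by positivity)]
    refine h1.trans ?_
    have h4 : Y ≤ (X : ℝ) ^ k := by
      rw [← hyk]
      have : y ≤ X := by
        have : y ≤ Xr := by
          rw [hXr]
          have h1 : (1 : ℝ) ≤ k * κ := one_le_mul_of_one_le_of_one_le hkR hκ1
          nlinarith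
        linarith
      gcongr
    have h5 : k * (|C1| * Y) = k * |C1| * Y := by ring
    rw [h5]
    exact mul_le_mul_of_nonneg_left h4 (by positivity)
  have hfin : k * Real.log (9 * (k : ℝ) ^ 3) + k * |C3| + k * |C1| ≤
      (k * Real.log (9 * (k : ℝ) ^ 3) + k * |C3| + k * |C1|) / Real.log 2 * Real.log H := by
    have h0 : 0 ≤ k * Real.log (9 * (k : ℝ) ^ 3) + k * |C3| + k * |C1| := by positivity
    rw [div_mul_eq_mul_div, le_div_iff₀ hl2]
    exact mul_le_mul_of_nonneg_left hlogH h0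
  calc _ ≤ L + k * |C3| + k * |C1| := by linarith
    _ ≤ _ := by nlinarith

end EK75
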