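import Pool.Agent.H75.EK.Abel

/-! Module BOOT: the bootstrap. -/

open Polynomial Finset
open scoped Real BigOperators

namespace EK75

theorem boot_mono (w : ℕ → ℝ) (hw : ∀ p, 0 ≤ w p) {a b b' : ℝ} (h : b ≤ b') :
    Ssum w a b ≤ Ssum w a b' := by
  unfold Ssum prIoc
  apply Finset.sum_le_sum_of_subset_of_nonneg
  · apply Finset.filter_subset_filter
    exact Finset.Ioc_subset_Ioc_right (Nat.floor_le_floor h)
  · intro p _ _
    exact div_nonneg (hw p) (Nat.cast_nonneg p)

theorem boot_nonneg (w : ℕ → ℝ) (hw : ∀ p, 0 ≤ w p) (a b : ℝ) : 0 ≤ Ssum w a b :=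
  Finset.sum_nonneg (fun p _ => div_nonneg (hw p) (Nat.cast_nonneg p))

theorem boot_add (w : ℕ → ℝ) {a b d : ℝ} (h1 : a ≤ b) (h2 : b ≤ d) :
    Ssum w a d = Ssum w a b + Ssum w b d := by
  unfold Ssum prIoc
  rw [← Finset.sum_union]
  · congr 1
    rw [← Finset.filter_union, Finset.Ioc_union_Ioc_eq_Ioc (Nat.floor_le_floor h1)
      (Nat.floor_le_floor h2)]
  · rw [Finset.disjoint_left]
    intro p hp hp'
    rw [Finset.mem_filter, Finset.mem_Ioc] at hp hp'
    omega

/-- one step of the bootstrap -/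
theorem boot_step (K c : ℝ) (hK : 1 ≤ K) (hc : 0 < c) (w : ℕ → ℝ) (E : ℝ)
    (hw : ∀ p, 0 ≤ w p) (hE : 2 ≤ E)
    (hU : ∀ Y : ℝ, 1 ≤ Y → Msum w Y ≤ Real.log Y + K * Real.log E)
    (hL : ∀ Y : ℝ, 1 ≤ Y → Real.log Y - K * Real.log E - K * Real.log Y / max 1 (Ssum w E (Y ^ c))
      ≤ Msum w Y) (φ u1 u2 : ℝ) (hu1 : 1 ≤ u1) (hu : u1 ≤ u2)
    (hφ : K / max 1 (Ssum w E (E ^ (c * u1))) ≤ φ) :
    Ssum w E (E ^ u1) + ((1 - φ) * Real.log (u2 / u1) - φ - 2 * K / u1) ≤ Ssum w E (E ^ u2) := by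
  have hE0 : (0 : ℝ) < E := by linarith
  have hE1 : (1 : ℝ) ≤ E := by linarith
  have hl : 0 < Real.log E := Real.log_pos (by linarith)
  have ha : E ≤ E ^ u1 := by
    calc E = E ^ (1 : ℝ) := (Real.rpow_one E).symm
      _ ≤ E ^ u1 := Real.rpow_le_rpow_of_exponent_le hE1 hu1
  have hab : E ^ u1 ≤ E ^ u2 := Real.rpow_le_rpow_of_exponent_le hE1 hu
  have hφ0 : 0 ≤ φ := le_trans (by positivity) hφ
  rw [boot_add w ha hab]
  have key := abel_lower w hw (K * Real.log E) (K * Real.log E) φ (by positivity) (by positivity)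
    hφ0 (E ^ u1) (E ^ u2) (by linarith) hab (hU _ (by linarith)) (by
      intro v hv _
      have hv1 : 1 ≤ v := by linarith
      have hlv : 0 ≤ Real.log v := Real.log_nonneg hv1
      refine le_trans ?_ (hL v hv1)
      have h1 : Ssum w E (E ^ (c * u1)) ≤ Ssum w E (v ^ c) := by
        apply boot_mono w hw
        rw [mul_comm c u1, Real.rpow_mul hE0.le]
        exact Real.rpow_le_rpow (by positivity) hv hc.le
      have h2 : K / max 1 (Ssum w E (v ^ c)) ≤ φ := by
        refine le_trans ?_ hφ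
        apply div_le_div_of_nonneg_left (by linarith) (by positivity)
        exact max_le_max le_rfl h1
      have h3 : K * Real.log v / max 1 (Ssum w E (v ^ c)) ≤ φ * Real.log v := by
        rw [mul_div_right_comm]
        exact mul_le_mul_of_nonneg_right h2 hlv
      linarith)
  rw [Real.log_rpow hE0, Real.log_rpow hE0] at key
  have e1 : u2 * Real.log E / (u1 * Real.log E) = u2 / u1 := by
    rw [mul_div_mul_right _ _ hl.ne']
  have e2 : (K * Real.log E + K * Real.log E) / (u1 * Real.log E) = 2 * K / u1 := by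
    rw [← two_mul, ← mul_assoc, mul_div_mul_right _ _ hl.ne']
  rw [e1, e2] at key
  linarith

theorem boot (K c : ℝ) (hK : 1 ≤ K) (hc : 0 < c) (hc1 : c ≤ 1) : ∃ C5 : ℝ, ∀ b0 : ℝ, 1 ≤ b0 →
    ∃ C' : ℝ, 0 ≤ C' ∧ ∀ (w : ℕ → ℝ) (E : ℝ), (∀ p, 0 ≤ w p) → 2 ≤ E →
    (∀ Y : ℝ, 1 ≤ Y → Msum w Y ≤ Real.log Y + K * Real.log E) →
    (∀ Y : ℝ, 1 ≤ Y → Real.log Y - K * Real.log E - K * Real.log Y / max 1 (Ssum w E (Y ^ c))
      ≤ Msum w Y) →
    C5 ≤ Ssum w E (E ^ b0) →
    ∀ x : ℝ, E ≤ x →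
      Real.log (Real.log x / Real.log E) - C' * (1 + Real.log (1 + Real.log (Real.log x / Real.log E)))
        ≤ Ssum w E x := by
  refine ⟨4 * K, fun b0 hb0 => ?_⟩
  set us : ℝ := b0 / c with hus
  have hus1 : b0 ≤ us := by
    rw [hus, le_div_iff₀ hc]; nlinarith
  have hus1' : 1 ≤ us := by linarith
  set L0 : ℝ := Real.log (us / c) with hL0
  have husc : 1 ≤ us / c := by
    rw [le_div_iff₀ hc]; linarith
  have hL0' : 0 ≤ L0 := Real.log_nonneg husc
  refine ⟨L0 + 1 + 8 * K, by linarith, ?_⟩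
  intro w E hw hE hU hL h5 x hx
  have hE0 : (0 : ℝ) < E := by linarith
  have hE1 : (1 : ℝ) ≤ E := by linarith
  have hl : 0 < Real.log E := Real.log_pos (by linarith)
  have hmono : ∀ u v : ℝ, u ≤ v → Ssum w E (E ^ u) ≤ Ssum w E (E ^ v) := fun u v h =>
    boot_mono w hw (Real.rpow_le_rpow_of_exponent_le hE1 h)
  -- first lower bound
  have st1 : ∀ u : ℝ, us ≤ u → K + 3 / 4 * Real.log (u / us) ≤ Ssum w E (E ^ u) := by
    intro u hu
    have hcu : b0 ≤ c * us := by rw [hus]; rw [mul_div_cancel₀ _ hc.ne']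
    have h1 : 4 * K ≤ Ssum w E (E ^ (c * us)) := h5.trans (hmono _ _ hcu)
    have h2 : K / max 1 (Ssum w E (E ^ (c * us))) ≤ 1 / 4 := by
      rw [div_le_iff₀ (by positivity)]
      have := le_max_right 1 (Ssum w E (E ^ (c * us)))
      linarith
    have h3 := boot_step K c hK hc w E hw hE hU hL (1 / 4) us u hus1' hu h2
    have h4 : 4 * K ≤ Ssum w E (E ^ us) := h5.trans (hmono _ _ hus1)
    have h6 : 2 * K / us ≤ 2 * K := by
      rw [div_le_iff₀ (by linarith)]; nlinarith
    linarith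
  -- second lower bound
  have st2 : ∀ J : ℕ, (J : ℝ) - (8 * K / 3) * ∑ j ∈ range J, 1 / ((j : ℝ) + 1)
      - 2 * K * ∑ j ∈ range J, (1 / 2 : ℝ) ^ j ≤ Ssum w E (E ^ (us / c * Real.exp J)) := by
    intro J
    induction J with
    | zero =>
      simp only [Nat.cast_zero, Finset.range_zero, Finset.sum_empty, mul_zero, sub_zero]
      exact boot_nonneg w hw _ _
    | succ J ih =>
      have hexp : (0 : ℝ) < Real.exp J := Real.exp_pos _
      have hexp1 : (1 : ℝ) ≤ Real.exp J := Real.one_le_exp (by positivity)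
      have hu1 : 1 ≤ us / c * Real.exp J := by nlinarith
      have hu2 : us / c * Real.exp J ≤ us / c * Real.exp ((J + 1 : ℕ) : ℝ) := by
        have : Real.exp J ≤ Real.exp ((J + 1 : ℕ) : ℝ) := by
          apply Real.exp_le_exp.mpr; push_cast; linarith
        exact mul_le_mul_of_nonneg_left this (by linarith)
      have hcu : c * (us / c * Real.exp J) = us * Real.exp J := by
        field_simp
      have hs : K + 3 / 4 * J ≤ Ssum w E (E ^ (us * Real.exp J)) := by
        have := st1 (us * Real.exp J) (by nlinarith)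
        rwa [mul_div_cancel_left₀ _ (by linarith : us ≠ 0), Real.log_exp] at this
      have hφ : K / max 1 (Ssum w E (E ^ (c * (us / c * Real.exp J)))) ≤
          (4 * K / 3) * (1 / ((J : ℝ) + 1)) := by
        rw [hcu]
        have hJ : (0 : ℝ) ≤ J := Nat.cast_nonneg J
        have h1 : 3 / 4 * ((J : ℝ) + 1) ≤ max 1 (Ssum w E (E ^ (us * Real.exp J))) := by
          refine le_trans ?_ (le_max_right _ _)
          linarith
        have h2 : K / max 1 (Ssum w E (E ^ (us * Real.exp J))) ≤ K / (3 / 4 * ((J : ℝ) + 1)) :=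
          div_le_div_of_nonneg_left (by linarith) (by positivity) h1
        refine h2.trans (le_of_eq ?_)
        field_simp
      have h3 := boot_step K c hK hc w E hw hE hU hL _ _ _ hu1 hu2 hφ
      have e1 : us / c * Real.exp ((J + 1 : ℕ) : ℝ) / (us / c * Real.exp J) = Real.exp 1 := by
        rw [mul_div_mul_left _ _ (by linarith : us / c ≠ 0), ← Real.exp_sub]
        congr 1
        push_cast; ring
      rw [e1, Real.log_exp] at h3
      have h4 : 2 * K / (us / c * Real.exp J) ≤ 2 * K * (1 / 2 : ℝ) ^ J := by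
        rw [div_le_iff₀ (by positivity)]
        have h5 : (2 : ℝ) ^ J ≤ Real.exp J := by
          have : (2 : ℝ) ≤ Real.exp 1 := by
            have := Real.add_one_le_exp (1 : ℝ)
            linarith
          calc (2 : ℝ) ^ J ≤ (Real.exp 1) ^ J := by gcongr
            _ = Real.exp J := by rw [← Real.exp_nat_mul, mul_one]
        have h6 : (2 : ℝ) ^ J ≤ us / c * Real.exp J := by nlinarith
        have h7 : (1 / 2 : ℝ) ^ J * (2 : ℝ) ^ J = 1 := by
          rw [← mul_pow]; norm_num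
        have h8 : (1 : ℝ) ≤ (1 / 2 : ℝ) ^ J * (us / c * Real.exp J) := by
          have h9 := mul_le_mul_of_nonneg_left h6 (by positivity : (0 : ℝ) ≤ (1 / 2 : ℝ) ^ J)
          linarith
        nlinarith
      rw [Finset.sum_range_succ, Finset.sum_range_succ]
      push_cast at h3 ⊢
      linarith
  -- conclusion
  have hlx : Real.log E ≤ Real.log x := Real.log_le_log hE0 hx
  have hx0 : 0 < x := by linarith
  set u : ℝ := Real.log x / Real.log E with hu
  have hu1 : 1 ≤ u := by rw [hu, le_div_iff₀ hl]; linarith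
  have hxu : x = E ^ u := by
    rw [hu, Real.rpow_def_of_pos hE0, mul_div_cancel₀ _ hl.ne', Real.exp_log hx0]
  set lam : ℝ := Real.log u with hlam
  have hlam0 : 0 ≤ lam := Real.log_nonneg hu1
  have hll : 0 ≤ Real.log (1 + lam) := Real.log_nonneg (by linarith)
  rcases lt_or_ge lam L0 with h | h
  · have h1 := boot_nonneg w hw E x
    nlinarith
  · set J : ℕ := ⌊lam - L0⌋₊ with hJ
    have hJ1 : (J : ℝ) ≤ lam - L0 := Nat.floor_le (by linarith)
    have hJ2 : lam - L0 < J + 1 := Nat.lt_floor_add_one _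
    have h1 := st2 J
    have h2 : us / c * Real.exp J ≤ u := by
      have e1 : us / c = Real.exp L0 := by rw [hL0, Real.exp_log (by linarith)]
      have e2 : u = Real.exp lam := by rw [hlam, Real.exp_log (by linarith)]
      rw [e1, e2, ← Real.exp_add]
      apply Real.exp_le_exp.mpr; linarith
    have h3 := hmono _ _ h2
    rw [← hxu] at h3
    have h4 : ∑ j ∈ range J, 1 / ((j : ℝ) + 1) ≤ 1 + Real.log (1 + lam) := by
      have e1 : ((harmonic J : ℚ) : ℝ) = ∑ j ∈ range J, 1 / ((j : ℝ) + 1) := by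
        unfold harmonic
        push_cast
        apply Finset.sum_congr rfl
        intro j _
        rw [one_div]
      rw [← e1]
      refine (harmonic_le_one_add_log J).trans ?_
      rcases Nat.eq_zero_or_pos J with h0 | h0
      · rw [h0]; simp only [Nat.cast_zero, Real.log_zero]; linarith
      · have : Real.log J ≤ Real.log (1 + lam) :=
          Real.log_le_log (by exact_mod_cast h0) (by linarith)
        linarith
    have h5 : ∑ j ∈ range J, (1 / 2 : ℝ) ^ j ≤ 2 := by
      have := geom_sum_eq (by norm_num : (1 / 2 : ℝ) ≠ 1) J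
      rw [this]
      have hp : (0 : ℝ) < (1 / 2) ^ J := by positivity
      have e3 : ((1 / 2 : ℝ) ^ J - 1) / (1 / 2 - 1) = 2 * (1 - (1 / 2) ^ J) := by ring
      rw [e3]
      linarith
    have h6 : (8 * K / 3) * ∑ j ∈ range J, 1 / ((j : ℝ) + 1) ≤
        (8 * K / 3) * (1 + Real.log (1 + lam)) :=
      mul_le_mul_of_nonneg_left h4 (by linarith)
    have h7 : 2 * K * ∑ j ∈ range J, (1 / 2 : ℝ) ^ j ≤ 2 * K * 2 :=
      mul_le_mul_of_nonneg_left h5 (by linarith)
    nlinarith

end EK75
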