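import Pool.Agent.H75.EK.Defs

/-! Module CDF: from characteristic functions of empirical laws to their distribution functions. -/

open Polynomial Finset Filter Topology MeasureTheory ProbabilityTheory
open scoped Real BigOperators

namespace EK75

/-- empirical law of the values `X n`, `n ∈ s` -/
noncomputable def cdfMu {ι : Type} (s : Finset ι) (X : ι → ℝ) : Measure ℝ :=
  ∑ n ∈ s, ((s.card : ENNReal)⁻¹) • Measure.dirac (X n)

theorem cdf_prob {ι : Type} (s : Finset ι) (X : ι → ℝ) (hs : s.Nonempty) :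
    IsProbabilityMeasure (cdfMu s X) := by
  constructor
  unfold cdfMu
  rw [Measure.finsetSum_apply]
  simp only [Measure.smul_apply, measure_univ, smul_eq_mul, mul_one, Finset.sum_const,
    nsmul_eq_mul]
  exact ENNReal.mul_inv_cancel (by simpa using hs.ne_empty) (ENNReal.natCast_ne_top _)

theorem cdf_charFun {ι : Type} (s : Finset ι) (X : ι → ℝ) (hs : s.Nonempty) (ξ : ℝ) :
    charFun (cdfMu s X) ξ =
      (∑ n ∈ s, Complex.exp (Complex.I * ξ * (X n : ℝ))) / (s.card : ℂ) := by
  have hc : (s.card : ENNReal) ≠ 0 := by simpa using hs.ne_empty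
  unfold cdfMu
  rw [charFun_apply, integral_finsetSum_measure]
  · rw [Finset.sum_div]
    apply Finset.sum_congr rfl
    intro n _
    rw [integral_smul_measure, integral_dirac]
    simp only [ENNReal.toReal_inv, ENNReal.toReal_natCast]
    have : (inner ℝ (X n) ξ : ℝ) = ξ * X n := by simp
    rw [this, Complex.real_smul, div_eq_inv_mul]
    push_cast
    ring_nf
  · intro n _
    apply Integrable.smul_measure
    · exact integrable_dirac (by simp [enorm_lt_top])
    · exact ENNReal.inv_ne_top.mpr hc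

open Classical in
theorem cdf_real {ι : Type} (s : Finset ι) (X : ι → ℝ) (t : ℝ) :
    (cdfMu s X (Set.Iic t)).toReal = ((s.filter (fun n => X n ≤ t)).card : ℝ) / s.card := by
  unfold cdfMu
  rw [Measure.finsetSum_apply]
  simp only [Measure.smul_apply, smul_eq_mul]
  have h : ∀ n, Measure.dirac (X n) (Set.Iic t) = if X n ≤ t then (1 : ENNReal) else 0 := by
    intro n
    rw [Measure.dirac_apply' _ measurableSet_Iic]
    simp [Set.indicator_apply]
  simp only [h]
  rw [← Finset.mul_sum, Finset.sum_ite, Finset.sum_const_zero, add_zero, Finset.sum_const,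
    nsmul_eq_mul, mul_one, ENNReal.toReal_mul, ENNReal.toReal_inv, ENNReal.toReal_natCast,
    ENNReal.toReal_natCast, div_eq_inv_mul]

open Classical in
/-- general form of the module -/
theorem cdf_general (ι : ℕ → Type) (s : ∀ N, Finset (ι N)) (X : ∀ N, ι N → ℝ)
    (hne : ∀ N, (s N).Nonempty)
    (h : ∀ ξ : ℝ, Tendsto (fun N : ℕ => (∑ n ∈ s N,
      Complex.exp (Complex.I * ξ * (X N n : ℝ))) / ((s N).card : ℂ)) atTop
      (𝓝 (Complex.exp (-(ξ : ℂ) ^ 2 / 2)))) (t : ℝ) :
    Tendsto (fun N : ℕ => (((s N).filter (fun n => X N n ≤ t)).card : ℝ) / (s N).card) atTop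
      (𝓝 ((gaussianReal 0 1).real (Set.Iic t))) := by
  have hp : ∀ N, IsProbabilityMeasure (cdfMu (s N) (X N)) := fun N => cdf_prob _ _ (hne N)
  let μ : ℕ → ProbabilityMeasure ℝ := fun N => ⟨cdfMu (s N) (X N), hp N⟩
  let ν : ProbabilityMeasure ℝ := ⟨gaussianReal 0 1, inferInstance⟩
  have hlim : Tendsto μ atTop (𝓝 ν) := by
    rw [ProbabilityMeasure.tendsto_iff_tendsto_charFun]
    intro ξ
    have e1 : ∀ N, charFun (μ N : Measure ℝ) ξ = (∑ n ∈ s N,
      Complex.exp (Complex.I * ξ * (X N n : ℝ))) / ((s N).card : ℂ) :=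
      fun N => cdf_charFun _ _ (hne N) ξ
    have e2 : charFun (ν : Measure ℝ) ξ = Complex.exp (-(ξ : ℂ) ^ 2 / 2) := by
      change charFun (gaussianReal 0 1) ξ = _
      rw [charFun_gaussianReal]
      congr 1
      push_cast
      ring
    simp only [e1, e2]
    exact h ξ
  have hfr : (ν : Measure ℝ) (frontier (Set.Iic t)) = 0 := by
    rw [frontier_Iic]
    change gaussianReal 0 1 {t} = 0
    have : NullSingletonClass (gaussianReal 0 1) := nullSingletonClass_gaussianReal one_ne_zero
    exact measure_singleton t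
  have h2 := ProbabilityMeasure.tendsto_measure_of_null_frontier_of_tendsto' hlim hfr
  have h3 := (ENNReal.tendsto_toReal (measure_ne_top (ν : Measure ℝ) (Set.Iic t))).comp h2
  refine Tendsto.congr ?_ h3
  intro N
  exact cdf_real (s N) (X N) t

open Classical in
theorem cdf_of_char (X : ℕ → ℕ → ℝ)
    (h : ∀ ξ : ℝ, Tendsto (fun N : ℕ => (∑ n ∈ Icc 1 N,
      Complex.exp (Complex.I * ξ * (X N n : ℝ))) / (N : ℂ)) atTop
      (𝓝 (Complex.exp (-(ξ : ℂ) ^ 2 / 2)))) (t : ℝ) :
    Tendsto (fun N : ℕ => (((Icc 1 N).filter (fun n => X N n ≤ t)).card : ℝ) / N) atTop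
      (𝓝 ((gaussianReal 0 1).real (Set.Iic t))) := by
  rw [← tendsto_add_atTop_iff_nat 1]
  have hg := cdf_general (fun _ => ℕ) (fun N => Icc 1 (N + 1)) (fun N n => X (N + 1) n)
    (fun N => ⟨1, by simp⟩) ?_ t
  · simpa using hg
  · intro ξ
    have := (tendsto_add_atTop_iff_nat 1).mpr (h ξ)
    simpa using this

end EK75
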