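import Pool.Agent.H75.EK.Defs

/-! Module CLT: characteristic function of a sum of approximately independent indicators. -/

open Polynomial Finset
open scoped Real BigOperators

namespace EK75

namespace Clt

theorem taylor_aux (c : ℂ) (hc : ‖c‖ ≤ 1) (hre : c.re ≤ 0) (n : ℕ) : ∀ x : ℝ, 0 ≤ x →
    ‖Complex.exp (c * x) - ∑ j ∈ range n, (c * x) ^ j / (j.factorial : ℂ)‖
      ≤ x ^ n / n.factorial := by
  induction n with
  | zero =>
    intro x hx
    simp only [range_zero, sum_empty, sub_zero, pow_zero, Nat.factorial_zero, Nat.cast_one,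
      div_one]
    rw [Complex.norm_exp, Real.exp_le_one_iff]
    simp only [Complex.mul_re, Complex.ofReal_re, Complex.ofReal_im, mul_zero, sub_zero]
    exact mul_nonpos_of_nonpos_of_nonneg hre hx
  | succ n ih =>
    intro x hx
    have hder : ∀ y : ℝ, HasDerivAt
        (fun y : ℝ => Complex.exp (c * y) - ∑ j ∈ range (n+1), (c * y) ^ j / (j.factorial : ℂ))
        (c * (Complex.exp (c * y) - ∑ j ∈ range n, (c * y) ^ j / (j.factorial : ℂ))) y := by
      intro y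
      have h1 : HasDerivAt (fun y : ℝ => c * (y:ℂ)) c y := by
        simpa using (Complex.ofRealCLM.hasDerivAt (x := y)).const_mul c
      have h2 := h1.cexp
      have h3 : HasDerivAt (fun y : ℝ => ∑ j ∈ range (n+1), (c * y) ^ j / (j.factorial : ℂ))
          (∑ j ∈ range (n+1), ((j:ℂ) * (c*y)^(j-1) * c) / (j.factorial:ℂ)) y := by
        apply HasDerivAt.fun_sum
        intro j _
        exact (h1.pow j).div_const _
      have h4 : ∑ j ∈ range (n+1), ((j:ℂ) * (c*y)^(j-1) * c) / (j.factorial:ℂ)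
          = c * ∑ j ∈ range n, (c*y)^j/(j.factorial:ℂ) := by
        rw [Finset.sum_range_succ', mul_sum]
        simp only [Nat.cast_zero, zero_mul, zero_div, add_zero]
        apply Finset.sum_congr rfl
        intro j _
        have hj : ((j:ℂ) + 1) ≠ 0 := by exact_mod_cast Nat.succ_ne_zero j
        have hj2 : (j.factorial : ℂ) ≠ 0 := by exact_mod_cast Nat.factorial_ne_zero j
        rw [Nat.factorial_succ]
        push_cast
        field_simp
      have h5 := h2.sub h3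
      rw [h4] at h5
      have h6 : c * (Complex.exp (c * y) - ∑ j ∈ range n, (c * y) ^ j / (j.factorial : ℂ))
          = Complex.exp (c * y) * c - c * ∑ j ∈ range n, (c*y)^j/(j.factorial:ℂ) := by ring
      rw [h6]
      exact h5
    have hB : ∀ y : ℝ, HasDerivAt (fun y : ℝ => y ^ (n+1) / ((n+1).factorial : ℝ))
        (y ^ n / n.factorial) y := by
      intro y
      have h1 := (hasDerivAt_pow (n+1) y).div_const ((n+1).factorial : ℝ)
      have h2 : ((n+1 : ℕ) : ℝ) * y ^ (n + 1 - 1) / ((n+1).factorial : ℝ) = y ^ n / n.factorial := by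
        have hj : ((n:ℝ) + 1) ≠ 0 := by positivity
        have hj2 : (n.factorial : ℝ) ≠ 0 := by positivity
        rw [Nat.factorial_succ]
        push_cast
        field_simp
      rw [← h2]
      exact h1
    have := image_norm_le_of_norm_deriv_right_le_deriv_boundary
      (f := fun y : ℝ => Complex.exp (c * y) - ∑ j ∈ range (n+1), (c * y) ^ j / (j.factorial : ℂ))
      (f' := fun y : ℝ => c * (Complex.exp (c * y)
        - ∑ j ∈ range n, (c * y) ^ j / (j.factorial : ℂ)))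
      (B := fun y : ℝ => y ^ (n+1) / ((n+1).factorial : ℝ)) (B' := fun y => y ^ n / n.factorial)
      (a := 0) (b := x)
      (fun y _ => (hder y).continuousAt.continuousWithinAt)
      (fun y _ => (hder y).hasDerivWithinAt)
      (by
        simp only [Complex.ofReal_zero, mul_zero, Complex.exp_zero]
        rw [Finset.sum_range_succ']
        simp)
      hB
      (by
        intro y hy
        rw [norm_mul]
        calc ‖c‖ * ‖Complex.exp (c * y) - ∑ j ∈ range n, (c * y) ^ j / (j.factorial : ℂ)‖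
            ≤ 1 * (y ^ n / n.factorial) := by
              apply mul_le_mul hc (ih y hy.1) (norm_nonneg _) zero_le_one
          _ = _ := one_mul _)
      (Set.right_mem_Icc.mpr hx)
    exact this

theorem taylor_I (x : ℝ) (n : ℕ) :
    ‖Complex.exp (Complex.I * x) - ∑ j ∈ range n, (Complex.I * x) ^ j / (j.factorial : ℂ)‖
      ≤ |x| ^ n / n.factorial := by
  rcases le_total 0 x with hx | hx
  · have := taylor_aux Complex.I (by simp) (by simp) n x hx
    rwa [abs_of_nonneg hx]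
  · have := taylor_aux (-Complex.I) (by simp) (by simp) n (-x) (by linarith)
    rw [abs_of_nonpos hx]
    have h : (-Complex.I) * ((-x : ℝ) : ℂ) = Complex.I * x := by push_cast; ring
    rwa [h] at this

theorem taylor_neg (x : ℝ) (hx : 0 ≤ x) (n : ℕ) :
    ‖Complex.exp (-x) - ∑ j ∈ range n, (-x : ℂ) ^ j / (j.factorial : ℂ)‖
      ≤ x ^ n / n.factorial := by
  have := taylor_aux (-1) (by simp) (by simp) n x hx
  simpa using this

/-- the formal moment -/
noncomputable def EM {ι : Type} (P : Finset ι) (lam : ι → ℝ) (j : ℕ) : ℝ := by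
  classical
  exact ∑ f ∈ Fintype.piFinset (fun _ : Fin j => P), ∑ t ∈ (univ : Finset (Fin j)).powerset,
    (∏ p ∈ t.image f, lam p) * ∏ i ∈ univ \ t, (- lam (f i))

open Classical in
/-- centred count -/
noncomputable def ZZ {ι Ω : Type} (P : Finset ι) (lam : ι → ℝ) (A : ι → Ω → Prop) (n : Ω) : ℝ :=
  ∑ p ∈ P, ((if A p n then 1 else 0) - lam p)

open Classical in
theorem moment {ι Ω : Type} (P : Finset ι) (W : Finset Ω) (lam : ι → ℝ) (w : Ω → ℝ)
    (A : ι → Ω → Prop) (η : ℝ) (hη : 0 ≤ η) (m : ℕ)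
    (h0 : ∀ p ∈ P, 0 ≤ lam p) (h1 : ∀ p ∈ P, lam p ≤ 1)
    (hind : ∀ S ⊆ P, S.card ≤ m →
      |∑ n ∈ W.filter (fun n => ∀ p ∈ S, A p n), w n - (∑ n ∈ W, w n) * ∏ p ∈ S, lam p| ≤ η)
    (j : ℕ) (hj : j ≤ m) :
    |∑ n ∈ W, w n * ZZ P lam A n ^ j
      - (∑ n ∈ W, w n) * EM P lam j| ≤ (2 * (P.card : ℝ)) ^ j * η := by
  unfold ZZ
  have key : ∀ n ∈ W, w n * (∑ p ∈ P, ((if A p n then (1:ℝ) else 0) - lam p)) ^ j
      = ∑ f ∈ Fintype.piFinset (fun _ : Fin j => P), ∑ t ∈ (univ : Finset (Fin j)).powerset,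
        (if ∀ p ∈ t.image f, A p n then w n else 0) * ∏ i ∈ univ \ t, (- lam (f i)) := by
    intro n _
    rw [Finset.sum_pow', mul_sum]
    apply sum_congr rfl
    intro f _
    simp only [sub_eq_add_neg]
    rw [Finset.prod_add, mul_sum]
    apply sum_congr rfl
    intro t _
    rw [← mul_assoc]
    congr 1
    have : ∏ i ∈ t, (if A (f i) n then (1:ℝ) else 0) = if ∀ p ∈ t.image f, A p n then 1 else 0 := by
      split_ifs with h
      · apply prod_eq_one
        intro i hi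
        rw [if_pos (h _ (mem_image_of_mem f hi))]
      · push Not at h
        obtain ⟨p, hp, hA⟩ := h
        obtain ⟨i, hi, rfl⟩ := mem_image.mp hp
        exact prod_eq_zero hi (if_neg hA)
    rw [this]
    split_ifs <;> simp
  rw [sum_congr rfl key, sum_comm]
  unfold EM
  rw [mul_sum, ← sum_sub_distrib]
  refine (abs_sum_le_sum_abs _ _).trans ?_
  have hbound : ∀ f ∈ Fintype.piFinset (fun _ : Fin j => P),
      |∑ n ∈ W, ∑ t ∈ (univ : Finset (Fin j)).powerset,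
        (if ∀ p ∈ t.image f, A p n then w n else 0) * ∏ i ∈ univ \ t, (- lam (f i))
        - (∑ n ∈ W, w n) * ∑ t ∈ (univ : Finset (Fin j)).powerset,
          (∏ p ∈ t.image f, lam p) * ∏ i ∈ univ \ t, (- lam (f i))| ≤ 2 ^ j * η := by
    intro f hf
    rw [sum_comm, mul_sum, ← sum_sub_distrib]
    refine (abs_sum_le_sum_abs _ _).trans ?_
    have hb2 : ∀ t ∈ (univ : Finset (Fin j)).powerset,
        |∑ n ∈ W, (if ∀ p ∈ t.image f, A p n then w n else 0) * ∏ i ∈ univ \ t, (- lam (f i))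
        - (∑ n ∈ W, w n) * ((∏ p ∈ t.image f, lam p) * ∏ i ∈ univ \ t, (- lam (f i)))| ≤ η := by
      intro t ht
      rw [← sum_mul, ← mul_assoc, ← sub_mul, abs_mul, ← sum_filter]
      have hsub : t.image f ⊆ P := by
        intro p hp
        obtain ⟨i, hi, rfl⟩ := mem_image.mp hp
        exact (Fintype.mem_piFinset.mp hf) i
      have hcard : (t.image f).card ≤ m := by
        refine card_image_le.trans ((card_le_univ t).trans ?_)
        simpa using hj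
      have hA := hind _ hsub hcard
      have hprod : |∏ i ∈ univ \ t, (- lam (f i))| ≤ 1 := by
        rw [abs_prod]
        apply prod_le_one
        · intro i _; exact abs_nonneg _
        · intro i _
          have hi := (Fintype.mem_piFinset.mp hf) i
          rw [abs_neg, abs_of_nonneg (h0 _ hi)]
          exact h1 _ hi
      calc _ ≤ η * 1 := mul_le_mul hA hprod (abs_nonneg _) hη
        _ = η := mul_one _
    refine (sum_le_sum hb2).trans ?_
    rw [sum_const, card_powerset, card_univ, Fintype.card_fin, nsmul_eq_mul]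
    push_cast
    exact le_rfl
  refine (sum_le_sum hbound).trans ?_
  rw [sum_const, Fintype.card_piFinset, nsmul_eq_mul]
  simp only [prod_const, card_univ, Fintype.card_fin]
  push_cast
  rw [mul_pow]
  apply le_of_eq
  ring

open Classical in
theorem model_prod {ι R : Type} [CommRing R] (P : Finset ι) (lam u v : ι → R) :
    ∑ S ∈ P.powerset, ((∏ p ∈ S, lam p) * ∏ p ∈ P \ S, (1 - lam p)) *
      ((∏ p ∈ S, u p) * ∏ p ∈ P \ S, v p) = ∏ p ∈ P, (lam p * u p + (1 - lam p) * v p) := by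
  rw [Finset.prod_add]
  apply sum_congr rfl
  intro S _
  rw [prod_mul_distrib, prod_mul_distrib]
  ring

open Classical in
/-- model weight -/
noncomputable def wm {ι : Type} (P : Finset ι) (lam : ι → ℝ) (S : Finset ι) : ℝ :=
  (∏ p ∈ S, lam p) * ∏ p ∈ P \ S, (1 - lam p)

/-- model variable -/
noncomputable def Zm {ι : Type} (P : Finset ι) (lam : ι → ℝ) (S : Finset ι) : ℝ :=
  ZZ P lam (fun p S => p ∈ S) S

open Classical in
theorem wm_nonneg {ι : Type} (P : Finset ι) (lam : ι → ℝ) (h0 : ∀ p ∈ P, 0 ≤ lam p)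
    (h1 : ∀ p ∈ P, lam p ≤ 1) (S : Finset ι) (hS : S ∈ P.powerset) : 0 ≤ wm P lam S := by
  unfold wm
  apply mul_nonneg
  · exact prod_nonneg fun p hp => h0 p (mem_powerset.mp hS hp)
  · exact prod_nonneg fun p hp => by linarith [h1 p (mem_sdiff.mp hp).1]

open Classical in
theorem model_ind {ι : Type} (P : Finset ι) (lam : ι → ℝ) (R : Finset ι) (hR : R ⊆ P) :
    ∑ S ∈ P.powerset.filter (fun S => ∀ p ∈ R, p ∈ S), wm P lam S = ∏ p ∈ R, lam p := by
  have h := model_prod P lam (fun _ => 1) (fun p => if p ∈ R then 0 else 1)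
  have h2 : ∏ p ∈ P, (lam p * 1 + (1 - lam p) * (if p ∈ R then 0 else 1)) = ∏ p ∈ R, lam p := by
    have h3 : ∏ p ∈ P, (lam p * 1 + (1 - lam p) * (if p ∈ R then 0 else 1))
        = ∏ p ∈ P, (if p ∈ R then lam p else 1) := by
      apply prod_congr rfl
      intro p _
      split_ifs <;> ring
    rw [h3, Finset.prod_ite_mem, inter_eq_right.mpr hR]
  rw [h2] at h
  rw [← h, sum_filter]
  apply sum_congr rfl
  intro S hS
  have h4 : ∏ p ∈ P \ S, (if p ∈ R then (0:ℝ) else 1) = if ∀ p ∈ R, p ∈ S then 1 else 0 := by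
    split_ifs with h5
    · apply prod_eq_one
      intro p hp
      rw [if_neg]
      intro hpR
      exact (mem_sdiff.mp hp).2 (h5 p hpR)
    · push Not at h5
      obtain ⟨p, hp, hpS⟩ := h5
      exact prod_eq_zero (mem_sdiff.mpr ⟨hR hp, hpS⟩) (if_pos hp)
  rw [h4]
  unfold wm
  split_ifs <;> simp

theorem model_total {ι : Type} (P : Finset ι) (lam : ι → ℝ) :
    ∑ S ∈ P.powerset, wm P lam S = 1 := by
  classical
  have := model_ind P lam ∅ (by simp)
  simpa using this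

open Classical in
theorem model_moment {ι : Type} (P : Finset ι) (lam : ι → ℝ)
    (h0 : ∀ p ∈ P, 0 ≤ lam p) (h1 : ∀ p ∈ P, lam p ≤ 1) (j : ℕ) :
    ∑ S ∈ P.powerset, wm P lam S * Zm P lam S ^ j = EM P lam j := by
  have := moment P P.powerset lam (wm P lam) (fun p S => p ∈ S) 0 le_rfl j h0 h1
    (by
      intro S hS _
      rw [model_ind P lam S hS, model_total, one_mul, sub_self, abs_zero]) j le_rfl
  rw [mul_zero, model_total, one_mul] at this
  have h2 := abs_nonpos_iff.mp this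
  have h3 := sub_eq_zero.mp h2
  unfold Zm
  exact h3

open Classical in
theorem exp_Zm {ι : Type} (P : Finset ι) (lam : ι → ℝ) (S : Finset ι) (hS : S ∈ P.powerset)
    (c : ℂ) : Complex.exp (c * (Zm P lam S : ℝ)) =
      (∏ p ∈ S, Complex.exp (c * (1 - lam p))) * ∏ p ∈ P \ S, Complex.exp (- (c * lam p)) := by
  rw [mem_powerset] at hS
  unfold Zm ZZ
  rw [Complex.ofReal_sum, mul_sum, Complex.exp_sum, mul_comm (∏ p ∈ S, _),
    ← Finset.prod_sdiff hS]
  congr 1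
  · apply prod_congr rfl
    intro p hp
    rw [if_neg (mem_sdiff.mp hp).2]
    congr 1
    push_cast
    ring
  · apply prod_congr rfl
    intro p hp
    rw [if_pos hp]
    push_cast
    ring

open Classical in
theorem model_exp {ι : Type} (P : Finset ι) (lam : ι → ℝ) (c : ℂ) :
    ∑ S ∈ P.powerset, (wm P lam S : ℂ) * Complex.exp (c * (Zm P lam S : ℝ)) =
      ∏ p ∈ P, ((lam p : ℂ) * Complex.exp (c * (1 - lam p))
        + (1 - lam p) * Complex.exp (- (c * lam p))) := by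
  rw [← model_prod]
  apply sum_congr rfl
  intro S hS
  rw [exp_Zm P lam S hS c]
  unfold wm
  push_cast
  ring

theorem model_exp_real {ι : Type} (P : Finset ι) (lam : ι → ℝ) (c : ℝ) :
    ∑ S ∈ P.powerset, wm P lam S * Real.exp (c * Zm P lam S) =
      ∏ p ∈ P, (lam p * Real.exp (c * (1 - lam p))
        + (1 - lam p) * Real.exp (- (c * lam p))) := by
  have := model_exp P lam (c : ℂ)
  exact_mod_cast this

theorem factor_le (l a : ℝ) (h0 : 0 ≤ l) (ha : |a| ≤ 1) :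
    l * Real.exp (a * (1 - l)) + (1 - l) * Real.exp (- (a * l)) ≤ Real.exp (l * a ^ 2) := by
  have h1 : l * Real.exp (a * (1 - l)) + (1 - l) * Real.exp (- (a * l))
      = Real.exp (- (a * l)) * (1 + l * (Real.exp a - 1)) := by
    have : a * (1 - l) = - (a * l) + a := by ring
    rw [this, Real.exp_add]
    ring
  have h2 : 1 + l * (Real.exp a - 1) ≤ Real.exp (l * (Real.exp a - 1)) := by
    linarith [Real.add_one_le_exp (l * (Real.exp a - 1))]
  have h3 := abs_le.mp (Real.abs_exp_sub_one_sub_id_le ha)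
  rw [h1]
  calc Real.exp (- (a * l)) * (1 + l * (Real.exp a - 1))
      ≤ Real.exp (- (a * l)) * Real.exp (l * (Real.exp a - 1)) :=
        mul_le_mul_of_nonneg_left h2 (Real.exp_pos _).le
    _ = Real.exp (l * (Real.exp a - 1 - a)) := by
        rw [← Real.exp_add]
        congr 1
        ring
    _ ≤ Real.exp (l * a ^ 2) := by
        apply Real.exp_le_exp.mpr
        exact mul_le_mul_of_nonneg_left h3.2 h0

theorem model_exp_le {ι : Type} (P : Finset ι) (lam : ι → ℝ)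
    (h0 : ∀ p ∈ P, 0 ≤ lam p) (h1 : ∀ p ∈ P, lam p ≤ 1) (a : ℝ) (ha : |a| ≤ 1) :
    ∑ S ∈ P.powerset, wm P lam S * Real.exp (a * Zm P lam S)
      ≤ Real.exp ((∑ p ∈ P, lam p) * a ^ 2) := by
  rw [model_exp_real, sum_mul, Real.exp_sum]
  apply prod_le_prod
  · intro p hp
    have := h0 p hp
    have := h1 p hp
    have h3 := (Real.exp_pos (a * (1 - lam p))).le
    have h4 := (Real.exp_pos (-(a * lam p))).le
    have h5 : 0 ≤ 1 - lam p := by linarith
    positivity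
  · intro p hp
    exact factor_le _ _ (h0 p hp) ha

theorem pow_le_cosh (x : ℝ) (m : ℕ) : x ^ (2 * m) / ((2 * m).factorial : ℝ) ≤ Real.cosh x := by
  have h := Real.hasSum_cosh x
  have := h.summable.sum_le_tsum {m} (fun i _ => by
    have : 0 ≤ x ^ (2 * i) := by
      rw [pow_mul]; positivity
    positivity)
  rw [h.tsum_eq] at this
  simpa using this

theorem EM_le {ι : Type} (P : Finset ι) (lam : ι → ℝ)
    (h0 : ∀ p ∈ P, 0 ≤ lam p) (h1 : ∀ p ∈ P, lam p ≤ 1) (a : ℝ) (ha : |a| ≤ 1) (m : ℕ) :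
    a ^ (2 * m) / ((2 * m).factorial : ℝ) * EM P lam (2 * m)
      ≤ Real.exp ((∑ p ∈ P, lam p) * a ^ 2) := by
  have e1 := model_exp_le P lam h0 h1 a ha
  have e2 := model_exp_le P lam h0 h1 (-a) (by rwa [abs_neg])
  rw [neg_sq] at e2
  rw [← model_moment P lam h0 h1, mul_sum]
  have h3 : ∀ S ∈ P.powerset, a ^ (2 * m) / ((2 * m).factorial : ℝ) *
      (wm P lam S * Zm P lam S ^ (2 * m)) ≤
      (wm P lam S * Real.exp (a * Zm P lam S) + wm P lam S * Real.exp (-a * Zm P lam S)) / 2 := by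
    intro S hS
    have hw := wm_nonneg P lam h0 h1 S hS
    have hc := pow_le_cosh (a * Zm P lam S) m
    rw [Real.cosh_eq, mul_pow] at hc
    have hc2 := mul_le_mul_of_nonneg_left hc hw
    have e3 : -(a * Zm P lam S) = -a * Zm P lam S := by ring
    rw [e3] at hc2
    calc a ^ (2 * m) / ((2 * m).factorial : ℝ) * (wm P lam S * Zm P lam S ^ (2 * m))
        = wm P lam S * (a ^ (2 * m) * Zm P lam S ^ (2 * m) / ((2 * m).factorial : ℝ)) := by ring
      _ ≤ _ := hc2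
      _ = _ := by ring
  refine (sum_le_sum h3).trans ?_
  rw [← sum_div, sum_add_distrib]
  linarith

theorem prod_diff {ι : Type} (P : Finset ι) (a b : ι → ℂ) (ha : ∀ p ∈ P, ‖a p‖ ≤ 1)
    (hb : ∀ p ∈ P, ‖b p‖ ≤ 1) : ‖∏ p ∈ P, a p - ∏ p ∈ P, b p‖ ≤ ∑ p ∈ P, ‖a p - b p‖ := by
  classical
  induction P using Finset.induction_on with
  | empty => simp
  | insert p P hp ih =>
    rw [prod_insert hp, prod_insert hp, sum_insert hp]
    have ih' := ih (fun q hq => ha q (mem_insert_of_mem hq)) (fun q hq => hb q (mem_insert_of_mem hq))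
    have e : a p * ∏ p ∈ P, a p - b p * ∏ p ∈ P, b p
        = a p * (∏ p ∈ P, a p - ∏ p ∈ P, b p) + (a p - b p) * ∏ p ∈ P, b p := by ring
    rw [e]
    refine (norm_add_le _ _).trans ?_
    rw [norm_mul, norm_mul]
    have hA := ha p (mem_insert_self _ _)
    have hB : ‖∏ p ∈ P, b p‖ ≤ 1 := by
      rw [norm_prod]
      exact prod_le_one (fun _ _ => norm_nonneg _) (fun q hq => hb q (mem_insert_of_mem hq))
    have t1 : ‖a p‖ * ‖∏ p ∈ P, a p - ∏ p ∈ P, b p‖ ≤ 1 * ∑ p ∈ P, ‖a p - b p‖ :=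
      mul_le_mul hA ih' (norm_nonneg _) zero_le_one
    have t2 : ‖a p - b p‖ * ‖∏ p ∈ P, b p‖ ≤ ‖a p - b p‖ * 1 :=
      mul_le_mul_of_nonneg_left hB (norm_nonneg _)
    linarith

theorem factor_char (l θ : ℝ) (h0 : 0 ≤ l) (h1 : l ≤ 1) :
    ‖((l : ℂ) * Complex.exp ((Complex.I * θ) * (1 - l))
        + (1 - l) * Complex.exp (- ((Complex.I * θ) * l))) - Complex.exp (-((l * θ ^ 2 / 2 : ℝ) : ℂ))‖
      ≤ θ ^ 2 / 2 * l ^ 2 + |θ| ^ 3 / 3 * l + θ ^ 4 / 8 * l ^ 2 := by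
  have t1 := taylor_I (θ * (1 - l)) 3
  have t2 := taylor_I (-(θ * l)) 3
  have t3 := taylor_neg (l * θ ^ 2 / 2) (by positivity) 2
  have e1 : Complex.I * ((θ * (1 - l) : ℝ) : ℂ) = (Complex.I * θ) * (1 - l) := by
    push_cast; ring
  have e2 : Complex.I * ((-(θ * l) : ℝ) : ℂ) = - ((Complex.I * θ) * l) := by
    push_cast; ring
  rw [e1] at t1
  rw [e2] at t2
  simp only [sum_range_succ, range_zero, sum_empty, pow_zero, Nat.factorial_zero, Nat.cast_one,
    div_one, zero_add, pow_one, Nat.factorial_one, Nat.factorial_two, Nat.cast_ofNat] at t1 t2 t3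
  have f3 : ((Nat.factorial 3 : ℕ) : ℝ) = 6 := by norm_num [Nat.factorial]
  rw [f3] at t1 t2
  set r1 : ℂ := Complex.exp ((Complex.I * θ) * (1 - l)) -
    (1 + (Complex.I * θ) * (1 - l) + ((Complex.I * θ) * (1 - l)) ^ 2 / 2) with hr1
  set r2 : ℂ := Complex.exp (- ((Complex.I * θ) * l)) -
    (1 + - ((Complex.I * θ) * l) + (- ((Complex.I * θ) * l)) ^ 2 / 2) with hr2
  set r3 : ℂ := Complex.exp (-((l * θ ^ 2 / 2 : ℝ) : ℂ)) -
    (1 + -((l * θ ^ 2 / 2 : ℝ) : ℂ)) with hr3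
  have key : ((l : ℂ) * Complex.exp ((Complex.I * θ) * (1 - l))
        + (1 - l) * Complex.exp (- ((Complex.I * θ) * l))) - Complex.exp (-((l * θ ^ 2 / 2 : ℝ) : ℂ))
      = ((θ ^ 2 / 2 * l ^ 2 : ℝ) : ℂ) + ((l : ℂ) * r1 + (1 - l) * r2 - r3) := by
    rw [hr1, hr2, hr3]
    push_cast
    have hI : Complex.I ^ 2 = -1 := Complex.I_sq
    linear_combination ((l : ℂ) * (θ * (1 - l)) ^ 2 / 2 + (1 - l) * (θ * l) ^ 2 / 2) * hI
  rw [key]
  have a0 : ‖((θ ^ 2 / 2 * l ^ 2 : ℝ) : ℂ)‖ = θ ^ 2 / 2 * l ^ 2 := by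
    rw [Complex.norm_real, Real.norm_of_nonneg (by positivity)]
  have a1 : ‖(l : ℂ) * r1‖ ≤ l * (|θ| ^ 3 / 6) := by
    rw [norm_mul, Complex.norm_real, Real.norm_of_nonneg h0]
    apply mul_le_mul_of_nonneg_left _ h0
    refine t1.trans ?_
    rw [abs_mul, mul_pow]
    have : |1 - l| ^ 3 ≤ 1 := pow_le_one₀ (abs_nonneg _) (abs_le.mpr ⟨by linarith, by linarith⟩)
    have h5 : |θ| ^ 3 * |1 - l| ^ 3 ≤ |θ| ^ 3 * 1 := mul_le_mul_of_nonneg_left this (by positivity)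
    linarith
  have a2 : ‖(1 - (l : ℂ)) * r2‖ ≤ l * (|θ| ^ 3 / 6) := by
    have e : (1 - (l : ℂ)) = ((1 - l : ℝ) : ℂ) := by push_cast; ring
    rw [norm_mul, e, Complex.norm_real, Real.norm_of_nonneg (by linarith : 0 ≤ 1 - l)]
    have h5 : ‖r2‖ ≤ l * (|θ| ^ 3 / 6) := by
      refine t2.trans ?_
      rw [abs_neg, abs_mul, mul_pow, abs_of_nonneg h0]
      have : l ^ 3 ≤ l := by
        have := pow_le_one₀ h0 h1 (n := 2)
        calc l ^ 3 = l * l ^ 2 := by ring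
          _ ≤ l * 1 := mul_le_mul_of_nonneg_left this h0
          _ = l := mul_one l
      have h6 : |θ| ^ 3 * l ^ 3 ≤ |θ| ^ 3 * l := mul_le_mul_of_nonneg_left this (by positivity)
      linarith
    calc (1 - l) * ‖r2‖ ≤ 1 * (l * (|θ| ^ 3 / 6)) :=
          mul_le_mul (by linarith) h5 (norm_nonneg _) zero_le_one
      _ = _ := one_mul _
  have a3 : ‖r3‖ ≤ θ ^ 4 / 8 * l ^ 2 := by
    refine t3.trans (le_of_eq ?_)
    ring
  calc ‖((θ ^ 2 / 2 * l ^ 2 : ℝ) : ℂ) + ((l : ℂ) * r1 + (1 - l) * r2 - r3)‖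
      ≤ ‖((θ ^ 2 / 2 * l ^ 2 : ℝ) : ℂ)‖ + ‖((l : ℂ) * r1 + (1 - l) * r2 - r3)‖ := norm_add_le _ _
    _ ≤ ‖((θ ^ 2 / 2 * l ^ 2 : ℝ) : ℂ)‖ + ((‖(l : ℂ) * r1‖ + ‖(1 - (l:ℂ)) * r2‖) + ‖r3‖) := by
        gcongr
        refine (norm_sub_le _ _).trans ?_
        gcongr
        exact norm_add_le _ _
    _ ≤ _ := by
        rw [a0]
        linarith

theorem model_char {ι : Type} (P : Finset ι) (lam : ι → ℝ)
    (h0 : ∀ p ∈ P, 0 ≤ lam p) (h1 : ∀ p ∈ P, lam p ≤ 1) (θ K : ℝ) (hK : ∑ p ∈ P, lam p ^ 2 ≤ K) :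
    ‖∑ S ∈ P.powerset, (wm P lam S : ℂ) * Complex.exp ((Complex.I * θ) * (Zm P lam S : ℝ)) -
      Complex.exp (-(((∑ p ∈ P, lam p) * θ ^ 2 / 2 : ℝ) : ℂ))‖
      ≤ θ ^ 2 / 2 * K + |θ| ^ 3 / 3 * (∑ p ∈ P, lam p) + θ ^ 4 / 8 * K := by
  rw [model_exp]
  have e : Complex.exp (-(((∑ p ∈ P, lam p) * θ ^ 2 / 2 : ℝ) : ℂ))
      = ∏ p ∈ P, Complex.exp (-((lam p * θ ^ 2 / 2 : ℝ) : ℂ)) := by
    rw [← Complex.exp_sum]
    congr 1
    push_cast
    rw [sum_neg_distrib, sum_mul, sum_div]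
  rw [e]
  have hn : ∀ x : ℝ, ‖Complex.exp ((Complex.I * θ) * x)‖ = 1 := by
    intro x
    have : (Complex.I * θ) * x = ((θ * x : ℝ) : ℂ) * Complex.I := by push_cast; ring
    rw [this, Complex.norm_exp_ofReal_mul_I]
  refine (prod_diff P _ _ ?_ ?_).trans ?_
  · intro p hp
    have hp0 := h0 p hp
    have hp1 := h1 p hp
    refine (norm_add_le _ _).trans ?_
    have e1 := hn (1 - lam p)
    have e2 := hn (- lam p)
    push_cast at e1 e2
    rw [mul_neg] at e2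
    have e3 : (1 - (lam p : ℂ)) = ((1 - lam p : ℝ) : ℂ) := by push_cast; ring
    rw [norm_mul, norm_mul, e1, e2, e3, Complex.norm_real, Complex.norm_real,
      Real.norm_of_nonneg hp0, Real.norm_of_nonneg (by linarith)]
    linarith
  · intro p hp
    have hp0 := h0 p hp
    rw [Complex.norm_exp]
    apply Real.exp_le_one_iff.mpr
    rw [Complex.neg_re, Complex.ofReal_re]
    have : 0 ≤ lam p * θ ^ 2 / 2 := by positivity
    linarith
  · have hs : ∀ p ∈ P, ‖((lam p : ℂ) * Complex.exp ((Complex.I * θ) * (1 - lam p))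
        + (1 - lam p) * Complex.exp (- ((Complex.I * θ) * lam p)))
        - Complex.exp (-((lam p * θ ^ 2 / 2 : ℝ) : ℂ))‖
        ≤ θ ^ 2 / 2 * lam p ^ 2 + |θ| ^ 3 / 3 * lam p + θ ^ 4 / 8 * lam p ^ 2 :=
      fun p hp => factor_char _ _ (h0 p hp) (h1 p hp)
    refine (sum_le_sum hs).trans ?_
    rw [sum_add_distrib, sum_add_distrib, ← mul_sum, ← mul_sum, ← mul_sum]
    have b1 : θ ^ 2 / 2 * ∑ p ∈ P, lam p ^ 2 ≤ θ ^ 2 / 2 * K :=
      mul_le_mul_of_nonneg_left hK (by positivity)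
    have b2 : θ ^ 4 / 8 * ∑ p ∈ P, lam p ^ 2 ≤ θ ^ 4 / 8 * K :=
      mul_le_mul_of_nonneg_left hK (by positivity)
    linarith

open Classical in
theorem main_ineq {ι Ω : Type} (P : Finset ι) (W : Finset Ω) (lam : ι → ℝ) (w : Ω → ℝ)
    (A : ι → Ω → Prop) (η : ℝ) (hη : 0 ≤ η) (m : ℕ)
    (h0 : ∀ p ∈ P, 0 ≤ lam p) (h1 : ∀ p ∈ P, lam p ≤ 1) (hw : ∀ n ∈ W, 0 ≤ w n)
    (hind : ∀ S ⊆ P, S.card ≤ 2 * m →
      |∑ n ∈ W.filter (fun n => ∀ p ∈ S, A p n), w n - (∑ n ∈ W, w n) * ∏ p ∈ S, lam p| ≤ η)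
    (θ : ℝ) :
    ‖∑ n ∈ W, (w n : ℂ) * Complex.exp ((Complex.I * θ) * (ZZ P lam A n : ℝ)) -
      (∑ n ∈ W, w n : ℝ) *
        ∑ S ∈ P.powerset, (wm P lam S : ℂ) * Complex.exp ((Complex.I * θ) * (Zm P lam S : ℝ))‖ ≤
    2 * (|θ| ^ (2 * m) / ((2 * m).factorial : ℝ) * EM P lam (2 * m)) * (∑ n ∈ W, w n) +
      (∑ j ∈ range (2 * m + 1), |θ| ^ j / (j.factorial : ℝ) * (2 * (P.card : ℝ)) ^ j) * η := by
  set M0 : ℝ := ∑ n ∈ W, w n with hM0d
  have hM0 : 0 ≤ M0 := sum_nonneg hw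
  have hmom := moment P W lam w A η hη (2 * m) h0 h1 hind
  have ev : ∀ x : ℝ, |x| ^ (2 * m) = x ^ (2 * m) := by
    intro x
    rw [pow_mul, pow_mul, sq_abs]
  set T : ℝ → ℂ := fun x => ∑ j ∈ range (2 * m), (Complex.I * x) ^ j / (j.factorial : ℂ) with hT
  have tay : ∀ x : ℝ, ‖Complex.exp ((Complex.I * θ) * x) - T (θ * x)‖
      ≤ |θ| ^ (2 * m) / ((2 * m).factorial : ℝ) * x ^ (2 * m) := by
    intro x
    have := taylor_I (θ * x) (2 * m)
    have e : Complex.I * ((θ * x : ℝ) : ℂ) = (Complex.I * θ) * x := by push_cast; ring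
    rw [hT]
    rw [e] at this
    simp only
    rw [e]
    refine this.trans (le_of_eq ?_)
    rw [abs_mul, mul_pow, ev x]
    ring
  have p1 : ‖∑ n ∈ W, (w n : ℂ) * (Complex.exp ((Complex.I * θ) * (ZZ P lam A n : ℝ))
      - T (θ * ZZ P lam A n))‖
      ≤ |θ| ^ (2 * m) / ((2 * m).factorial : ℝ) * (EM P lam (2 * m) * M0
        + (2 * (P.card : ℝ)) ^ (2 * m) * η) := by
    refine (norm_sum_le _ _).trans ?_
    have : ∀ n ∈ W, ‖(w n : ℂ) * (Complex.exp ((Complex.I * θ) * (ZZ P lam A n : ℝ))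
      - T (θ * ZZ P lam A n))‖ ≤ |θ| ^ (2 * m) / ((2 * m).factorial : ℝ) *
        (w n * ZZ P lam A n ^ (2 * m)) := by
      intro n hn
      rw [norm_mul, Complex.norm_real, Real.norm_of_nonneg (hw n hn)]
      have := mul_le_mul_of_nonneg_left (tay (ZZ P lam A n)) (hw n hn)
      refine this.trans (le_of_eq ?_)
      ring
    refine (sum_le_sum this).trans ?_
    rw [← mul_sum]
    apply mul_le_mul_of_nonneg_left _ (by positivity)
    have := (abs_le.mp (hmom (2 * m) le_rfl)).2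
    linarith
  have p3 : ‖∑ S ∈ P.powerset, (wm P lam S : ℂ) * (Complex.exp ((Complex.I * θ) * (Zm P lam S : ℝ))
      - T (θ * Zm P lam S))‖
      ≤ |θ| ^ (2 * m) / ((2 * m).factorial : ℝ) * EM P lam (2 * m) := by
    refine (norm_sum_le _ _).trans ?_
    have : ∀ S ∈ P.powerset, ‖(wm P lam S : ℂ) *
      (Complex.exp ((Complex.I * θ) * (Zm P lam S : ℝ)) - T (θ * Zm P lam S))‖ ≤
        |θ| ^ (2 * m) / ((2 * m).factorial : ℝ) * (wm P lam S * Zm P lam S ^ (2 * m)) := by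
      intro S hS
      have hw' := wm_nonneg P lam h0 h1 S hS
      rw [norm_mul, Complex.norm_real, Real.norm_of_nonneg hw']
      have := mul_le_mul_of_nonneg_left (tay (Zm P lam S)) hw'
      refine this.trans (le_of_eq ?_)
      ring
    refine (sum_le_sum this).trans ?_
    rw [← mul_sum, model_moment P lam h0 h1]
  have p2 : ‖∑ n ∈ W, (w n : ℂ) * T (θ * ZZ P lam A n)
      - (M0 : ℂ) * ∑ S ∈ P.powerset, (wm P lam S : ℂ) * T (θ * Zm P lam S)‖
      ≤ (∑ j ∈ range (2 * m), |θ| ^ j / (j.factorial : ℝ) * (2 * (P.card : ℝ)) ^ j) * η := by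
    have q1 : ∑ n ∈ W, (w n : ℂ) * T (θ * ZZ P lam A n)
        = ∑ j ∈ range (2 * m), ((Complex.I * θ) ^ j / (j.factorial : ℂ)) *
          ((∑ n ∈ W, w n * ZZ P lam A n ^ j : ℝ) : ℂ) := by
      rw [hT]
      simp only [mul_sum]
      rw [sum_comm]
      apply sum_congr rfl
      intro j _
      push_cast
      rw [mul_sum]
      apply sum_congr rfl
      intro n _
      ring
    have q2 : ∑ S ∈ P.powerset, (wm P lam S : ℂ) * T (θ * Zm P lam S)
        = ∑ j ∈ range (2 * m), ((Complex.I * θ) ^ j / (j.factorial : ℂ)) *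
          ((EM P lam j : ℝ) : ℂ) := by
      rw [hT]
      simp only [mul_sum]
      rw [sum_comm]
      apply sum_congr rfl
      intro j _
      rw [← model_moment P lam h0 h1]
      push_cast
      rw [mul_sum]
      apply sum_congr rfl
      intro n _
      ring
    rw [q1, q2, mul_sum, ← sum_sub_distrib, sum_mul]
    refine (norm_sum_le _ _).trans (sum_le_sum ?_)
    intro j hj
    have hj' : j ≤ 2 * m := (mem_range.mp hj).le
    have e : ((Complex.I * θ) ^ j / (j.factorial : ℂ)) *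
          ((∑ n ∈ W, w n * ZZ P lam A n ^ j : ℝ) : ℂ) - (M0 : ℂ) *
          (((Complex.I * θ) ^ j / (j.factorial : ℂ)) * ((EM P lam j : ℝ) : ℂ))
        = ((Complex.I * θ) ^ j / (j.factorial : ℂ)) *
          ((∑ n ∈ W, w n * ZZ P lam A n ^ j - M0 * EM P lam j : ℝ) : ℂ) := by
      push_cast
      ring
    rw [e, norm_mul, Complex.norm_real, norm_div, norm_pow, norm_mul, Complex.norm_I, one_mul,
      Complex.norm_real, Complex.norm_natCast, Real.norm_eq_abs, Real.norm_eq_abs, mul_assoc]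
    exact mul_le_mul_of_nonneg_left (hmom j hj') (by positivity)
  have e : ∑ n ∈ W, (w n : ℂ) * Complex.exp ((Complex.I * θ) * (ZZ P lam A n : ℝ)) -
      (M0 : ℂ) *
        ∑ S ∈ P.powerset, (wm P lam S : ℂ) * Complex.exp ((Complex.I * θ) * (Zm P lam S : ℝ))
      = ∑ n ∈ W, (w n : ℂ) * (Complex.exp ((Complex.I * θ) * (ZZ P lam A n : ℝ))
      - T (θ * ZZ P lam A n)) + (∑ n ∈ W, (w n : ℂ) * T (θ * ZZ P lam A n)
      - (M0 : ℂ) * ∑ S ∈ P.powerset, (wm P lam S : ℂ) * T (θ * Zm P lam S))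
      - (M0 : ℂ) * ∑ S ∈ P.powerset, (wm P lam S : ℂ) *
      (Complex.exp ((Complex.I * θ) * (Zm P lam S : ℝ)) - T (θ * Zm P lam S)) := by
    simp only [mul_sub, sum_sub_distrib]
    ring
  rw [e]
  refine (norm_sub_le _ _).trans ?_
  refine (add_le_add_left (norm_add_le _ _) _).trans ?_
  have p3' : ‖(M0 : ℂ) * ∑ S ∈ P.powerset, (wm P lam S : ℂ) *
      (Complex.exp ((Complex.I * θ) * (Zm P lam S : ℝ)) - T (θ * Zm P lam S))‖
      ≤ M0 * (|θ| ^ (2 * m) / ((2 * m).factorial : ℝ) * EM P lam (2 * m)) := by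
    rw [norm_mul, Complex.norm_real, Real.norm_of_nonneg hM0]
    exact mul_le_mul_of_nonneg_left p3 hM0
  rw [sum_range_succ]
  nlinarith [p1, p2, p3']

open Classical in
theorem card_eq {ι Ω : Type} (P : Finset ι) (lam : ι → ℝ) (A : ι → Ω → Prop) (n : Ω) :
    ((P.filter (fun p => A p n)).card : ℝ) = ZZ P lam A n + ∑ p ∈ P, lam p := by
  unfold ZZ
  rw [sum_sub_distrib, sub_add_cancel, card_filter]
  push_cast
  rfl

theorem exp_sub_exp (x y : ℝ) (hx : 0 ≤ x) (hy : 0 ≤ y) :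
    |Real.exp (-x) - Real.exp (-y)| ≤ |x - y| := by
  wlog h : x ≤ y with H
  · have := H y x hy hx (le_of_not_ge h)
    rwa [abs_sub_comm, abs_sub_comm x y]
  have h1 : Real.exp (-y) ≤ Real.exp (-x) := Real.exp_le_exp.mpr (by linarith)
  rw [abs_of_nonneg (by linarith), abs_of_nonpos (by linarith)]
  have h2 : Real.exp (-y) = Real.exp (-x) * Real.exp (-(y - x)) := by
    rw [← Real.exp_add]; congr 1; ring
  have h3 : 1 - (y - x) ≤ Real.exp (-(y - x)) := by
    have := Real.add_one_le_exp (-(y - x)); linarith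
  have h4 : Real.exp (-x) ≤ 1 := Real.exp_le_one_iff.mpr (by linarith)
  have h5 : 0 < Real.exp (-x) := Real.exp_pos _
  rw [h2]
  nlinarith

end Clt

open Classical in
theorem clt_core (K ξ ε : ℝ) (hε : 0 < ε) : ∃ (m : ℕ) (c0 s0 C0 : ℝ), 0 < c0 ∧ 0 < s0 ∧ 0 < C0 ∧
    ∀ (ι Ω : Type) (P : Finset ι) (W : Finset Ω) (lam : ι → ℝ) (w : Ω → ℝ) (A : ι → Ω → Prop)
      (s η : ℝ),
    (∀ p ∈ P, 0 ≤ lam p) → (∀ p ∈ P, lam p ≤ 1) → ∑ p ∈ P, lam p ^ 2 ≤ K → s0 ≤ s →
    |∑ p ∈ P, lam p - s ^ 2| ≤ c0 * s → (∀ n ∈ W, 0 ≤ w n) → 0 ≤ η →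
    (∀ S ⊆ P, S.card ≤ m →
      |∑ n ∈ W.filter (fun n => ∀ p ∈ S, A p n), w n - (∑ n ∈ W, w n) * ∏ p ∈ S, lam p| ≤ η) →
    ‖∑ n ∈ W, (w n : ℂ) * Complex.exp (Complex.I * ξ *
        ((((P.filter (fun p => A p n)).card : ℝ) - s ^ 2) / s : ℝ)) -
      (∑ n ∈ W, w n : ℝ) * Complex.exp (-(ξ : ℂ) ^ 2 / 2)‖ ≤
      ε * ∑ n ∈ W, w n + C0 * ((P.card : ℝ) + 1) ^ m * η := by
  set b : ℝ := 2 * |ξ| + 1 with hb
  have hb0 : 0 < b := by positivity
  obtain ⟨m, hm⟩ : ∃ m : ℕ, 2 * ((1 / 4 : ℝ) ^ m * Real.exp (2 * b ^ 2)) ≤ ε / 4 := by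
    obtain ⟨m, hm⟩ := exists_pow_lt_of_lt_one (show 0 < ε / 8 / Real.exp (2 * b ^ 2) by positivity)
      (show (1 / 4 : ℝ) < 1 by norm_num)
    refine ⟨m, ?_⟩
    rw [lt_div_iff₀ (Real.exp_pos _)] at hm
    linarith
  set c0 : ℝ := ε / (4 * (|ξ| + 1)) with hc0
  have hc0p : 0 < c0 := by positivity
  set K' : ℝ := |K| with hK'
  set D : ℝ := ξ ^ 2 / 2 * K' + 2 * |ξ| ^ 3 / 3 + ξ ^ 4 / 8 * K' + ξ ^ 2 * c0 / 2 with hD
  have hD0 : 0 ≤ D := by positivity
  set s0 : ℝ := 1 + b + c0 + 4 * D / ε with hs0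
  have hs0p : 0 < s0 := by positivity
  set C0 : ℝ := (∑ j ∈ range (2 * m + 1), |ξ| ^ j / (j.factorial : ℝ) * 2 ^ j) + 1 with hC0
  have hC0p : 0 < C0 := by positivity
  refine ⟨2 * m, c0, s0, C0, hc0p, hs0p, hC0p, ?_⟩
  intro ι Ω P W lam w A s η h0 h1 hK hs hmu hw hη hind
  set μ : ℝ := ∑ p ∈ P, lam p with hμ
  have hμ0 : 0 ≤ μ := sum_nonneg h0
  set M0 : ℝ := ∑ n ∈ W, w n with hM0d
  have hM0 : 0 ≤ M0 := sum_nonneg hw
  have hDe : 0 ≤ 4 * D / ε := by positivity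
  have hs1 : 1 ≤ s := by linarith
  have hsp : 0 < s := by linarith
  have hsb : b ≤ s := by linarith
  have hsc : c0 ≤ s := by linarith
  have hsD : 4 * D / ε ≤ s := by linarith
  have hμ2 : μ ≤ 2 * s ^ 2 := by
    have := (abs_le.mp hmu).2
    nlinarith
  set θ : ℝ := ξ / s with hθ
  have hθabs : |θ| = |ξ| / s := by rw [hθ, abs_div, abs_of_pos hsp]
  have hθξ : |θ| ≤ |ξ| := by
    rw [hθabs]
    exact div_le_self (abs_nonneg _) hs1
  -- rewrite the sum
  set φ : ℂ := Complex.exp (Complex.I * ξ * (((μ - s ^ 2) / s : ℝ) : ℂ)) with hφ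
  have hsum : ∑ n ∈ W, (w n : ℂ) * Complex.exp (Complex.I * ξ *
        ((((P.filter (fun p => A p n)).card : ℝ) - s ^ 2) / s : ℝ))
      = φ * ∑ n ∈ W, (w n : ℂ) * Complex.exp ((Complex.I * θ) * (Clt.ZZ P lam A n : ℝ)) := by
    rw [mul_sum]
    apply sum_congr rfl
    intro n _
    rw [hφ, Clt.card_eq P lam A n, ← hμ]
    rw [mul_left_comm, ← Complex.exp_add]
    congr 2
    rw [hθ]
    push_cast
    have : (s : ℂ) ≠ 0 := by exact_mod_cast hsp.ne'
    field_simp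
    ring
  have hφ1 : ‖φ‖ = 1 := by
    rw [hφ]
    have : Complex.I * ξ * (((μ - s ^ 2) / s : ℝ) : ℂ)
        = ((ξ * ((μ - s ^ 2) / s) : ℝ) : ℂ) * Complex.I := by push_cast; ring
    rw [this, Complex.norm_exp_ofReal_mul_I]
  have hφ2 : ‖φ - 1‖ ≤ ε / 4 := by
    have t := Clt.taylor_I (ξ * ((μ - s ^ 2) / s)) 1
    have e : Complex.I * ((ξ * ((μ - s ^ 2) / s) : ℝ) : ℂ)
        = Complex.I * ξ * (((μ - s ^ 2) / s : ℝ) : ℂ) := by push_cast; ring
    rw [e] at t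
    simp only [sum_range_succ, range_zero, sum_empty, pow_zero, Nat.factorial_zero, Nat.cast_one,
      div_one, zero_add, pow_one, Nat.factorial_one] at t
    refine t.trans ?_
    rw [abs_mul, abs_div, abs_of_pos hsp]
    have h2 : |μ - s ^ 2| / s ≤ c0 := by
      rw [div_le_iff₀ hsp]; exact hmu
    have h3 : |ξ| * c0 ≤ ε / 4 := by
      rw [hc0]
      rw [mul_div_assoc', div_le_div_iff₀ (by positivity) (by norm_num)]
      nlinarith [abs_nonneg ξ]
    exact (mul_le_mul_of_nonneg_left h2 (abs_nonneg _)).trans h3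
  have key := Clt.main_ineq P W lam w A η hη m h0 h1 hw hind θ
  have hchar := Clt.model_char P lam h0 h1 θ K' (hK.trans (le_abs_self K))
  rw [← hM0d] at key
  rw [← hμ] at hchar
  set X : ℂ := ∑ n ∈ W, (w n : ℂ) * Complex.exp ((Complex.I * θ) * (Clt.ZZ P lam A n : ℝ)) with hX
  set Y : ℂ := ∑ S ∈ P.powerset, (Clt.wm P lam S : ℂ) *
    Complex.exp ((Complex.I * θ) * (Clt.Zm P lam S : ℝ)) with hY
  -- moment term
  have hmomt : |θ| ^ (2 * m) / ((2 * m).factorial : ℝ) * Clt.EM P lam (2 * m)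
      ≤ (1 / 4 : ℝ) ^ m * Real.exp (2 * b ^ 2) := by
    have ha : |b / s| ≤ 1 := by
      rw [abs_of_pos (by positivity), div_le_one hsp]
      exact hsb
    have := Clt.EM_le P lam h0 h1 (b / s) ha m
    rw [← hμ] at this
    have h2 : Real.exp (μ * (b / s) ^ 2) ≤ Real.exp (2 * b ^ 2) := by
      apply Real.exp_le_exp.mpr
      rw [div_pow, mul_div_assoc', div_le_iff₀ (by positivity)]
      have : μ * b ^ 2 ≤ (2 * s ^ 2) * b ^ 2 := mul_le_mul_of_nonneg_right hμ2 (by positivity)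
      linarith
    have h3 : |θ| ^ (2 * m) / ((2 * m).factorial : ℝ) * Clt.EM P lam (2 * m)
        = (|ξ| / b) ^ (2 * m) * ((b / s) ^ (2 * m) / ((2 * m).factorial : ℝ)
          * Clt.EM P lam (2 * m)) := by
      have : |θ| = (|ξ| / b) * (b / s) := by
        rw [hθabs]; field_simp
      rw [this, mul_pow]
      ring
    rw [h3]
    have h4 : (|ξ| / b) ^ (2 * m) ≤ (1 / 4 : ℝ) ^ m := by
      rw [pow_mul]
      apply pow_le_pow_left₀ (by positivity)
      have : |ξ| / b ≤ 1 / 2 := by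
        rw [div_le_div_iff₀ hb0 (by norm_num)]
        linarith [abs_nonneg ξ]
      have h5 : 0 ≤ |ξ| / b := by positivity
      nlinarith
    have h5 := this.trans h2
    calc (|ξ| / b) ^ (2 * m) * ((b / s) ^ (2 * m) / ((2 * m).factorial : ℝ)
          * Clt.EM P lam (2 * m)) ≤ (|ξ| / b) ^ (2 * m) * Real.exp (2 * b ^ 2) :=
          mul_le_mul_of_nonneg_left h5 (by positivity)
      _ ≤ _ := mul_le_mul_of_nonneg_right h4 (Real.exp_pos _).le
  have hmomt2 : 2 * (|θ| ^ (2 * m) / ((2 * m).factorial : ℝ) * Clt.EM P lam (2 * m)) ≤ ε / 4 := by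
    linarith
  -- eta term
  have heta : (∑ j ∈ range (2 * m + 1), |θ| ^ j / (j.factorial : ℝ) * (2 * (P.card : ℝ)) ^ j)
      ≤ C0 * ((P.card : ℝ) + 1) ^ (2 * m) := by
    have h2 : ∀ j ∈ range (2 * m + 1), |θ| ^ j / (j.factorial : ℝ) * (2 * (P.card : ℝ)) ^ j
        ≤ (|ξ| ^ j / (j.factorial : ℝ) * 2 ^ j) * ((P.card : ℝ) + 1) ^ (2 * m) := by
      intro j hj
      have hj' : j ≤ 2 * m := Nat.lt_succ_iff.mp (mem_range.mp hj)
      rw [mul_pow, ← mul_assoc]
      have a1 : |θ| ^ j ≤ |ξ| ^ j := pow_le_pow_left₀ (abs_nonneg _) hθξ j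
      have a2 : (P.card : ℝ) ^ j ≤ ((P.card : ℝ) + 1) ^ (2 * m) := by
        calc (P.card : ℝ) ^ j ≤ ((P.card : ℝ) + 1) ^ j :=
              pow_le_pow_left₀ (by positivity) (by linarith) j
          _ ≤ _ := pow_le_pow_right₀ (by linarith [(Nat.cast_nonneg P.card : (0:ℝ) ≤ P.card)]) hj'
      have a3 : |θ| ^ j / (j.factorial : ℝ) * 2 ^ j ≤ |ξ| ^ j / (j.factorial : ℝ) * 2 ^ j := by
        gcongr
      exact mul_le_mul a3 a2 (by positivity) (by positivity)
    refine (sum_le_sum h2).trans ?_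
    rw [← sum_mul]
    apply mul_le_mul_of_nonneg_right _ (by positivity)
    rw [hC0]
    linarith
  -- char term
  have hchar1 : θ ^ 2 / 2 * K' + |θ| ^ 3 / 3 * μ + θ ^ 4 / 8 * K'
      ≤ (ξ ^ 2 / 2 * K' + 2 * |ξ| ^ 3 / 3 + ξ ^ 4 / 8 * K') / s := by
    have hK0 : 0 ≤ K' := abs_nonneg _
    have i1 : θ ^ 2 ≤ ξ ^ 2 / s := by
      rw [hθ, div_pow]
      apply div_le_div_of_nonneg_left (by positivity) hsp
      nlinarith
    have i2 : θ ^ 4 ≤ ξ ^ 4 / s := by
      rw [hθ, div_pow]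
      apply div_le_div_of_nonneg_left (by positivity) hsp
      calc s = s ^ 1 := (pow_one s).symm
        _ ≤ s ^ 4 := pow_le_pow_right₀ hs1 (by norm_num)
    have i3 : |θ| ^ 3 * μ ≤ 2 * |ξ| ^ 3 / s := by
      rw [hθabs, div_pow]
      calc |ξ| ^ 3 / s ^ 3 * μ ≤ |ξ| ^ 3 / s ^ 3 * (2 * s ^ 2) :=
            mul_le_mul_of_nonneg_left hμ2 (by positivity)
        _ = 2 * |ξ| ^ 3 / s := by field_simp
    have j1 : θ ^ 2 / 2 * K' ≤ (ξ ^ 2 / s) / 2 * K' := by gcongr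
    have j2 : θ ^ 4 / 8 * K' ≤ (ξ ^ 4 / s) / 8 * K' := by gcongr
    calc θ ^ 2 / 2 * K' + |θ| ^ 3 / 3 * μ + θ ^ 4 / 8 * K'
        ≤ (ξ ^ 2 / s) / 2 * K' + (2 * |ξ| ^ 3 / s) / 3 + (ξ ^ 4 / s) / 8 * K' := by linarith
      _ = _ := by ring
  have hchar2 : ‖Complex.exp (-((μ * θ ^ 2 / 2 : ℝ) : ℂ)) - Complex.exp (-(ξ : ℂ) ^ 2 / 2)‖
      ≤ (ξ ^ 2 * c0 / 2) / s := by
    have e1 : Complex.exp (-((μ * θ ^ 2 / 2 : ℝ) : ℂ)) - Complex.exp (-(ξ : ℂ) ^ 2 / 2)
        = ((Real.exp (-(μ * θ ^ 2 / 2)) - Real.exp (-(ξ ^ 2 / 2)) : ℝ) : ℂ) := by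
      push_cast
      congr 2
      ring
    rw [e1, Complex.norm_real, Real.norm_eq_abs]
    refine (Clt.exp_sub_exp _ _ (by positivity) (by positivity)).trans ?_
    have e2 : μ * θ ^ 2 / 2 - ξ ^ 2 / 2 = (ξ ^ 2 / 2) * ((μ - s ^ 2) / s ^ 2) := by
      rw [hθ]
      field_simp
    rw [e2, abs_mul, abs_of_nonneg (by positivity : 0 ≤ ξ ^ 2 / 2), abs_div,
      abs_of_pos (by positivity : 0 < s ^ 2)]
    have h2 : |μ - s ^ 2| / s ^ 2 ≤ c0 / s := by
      rw [div_le_div_iff₀ (by positivity) hsp]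
      calc |μ - s ^ 2| * s ≤ (c0 * s) * s := mul_le_mul_of_nonneg_right hmu hsp.le
        _ = c0 * s ^ 2 := by ring
    calc ξ ^ 2 / 2 * (|μ - s ^ 2| / s ^ 2) ≤ ξ ^ 2 / 2 * (c0 / s) :=
          mul_le_mul_of_nonneg_left h2 (by positivity)
      _ = _ := by ring
  have hchar3 : ‖Y - Complex.exp (-(ξ : ℂ) ^ 2 / 2)‖ ≤ ε / 4 := by
    have e : Y - Complex.exp (-(ξ : ℂ) ^ 2 / 2) = (Y - Complex.exp (-((μ * θ ^ 2 / 2 : ℝ) : ℂ)))
      + (Complex.exp (-((μ * θ ^ 2 / 2 : ℝ) : ℂ)) - Complex.exp (-(ξ : ℂ) ^ 2 / 2)) := by ring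
    rw [e]
    refine (norm_add_le _ _).trans ?_
    have h2 := hchar.trans hchar1
    have h3 : (ξ ^ 2 / 2 * K' + 2 * |ξ| ^ 3 / 3 + ξ ^ 4 / 8 * K') / s + (ξ ^ 2 * c0 / 2) / s
        = D / s := by
      rw [hD]; ring
    have h4 : D / s ≤ ε / 4 := by
      rw [div_le_iff₀ hsp]
      rw [div_le_iff₀ hε] at hsD
      linarith
    linarith
  have hexp1 : ‖Complex.exp (-(ξ : ℂ) ^ 2 / 2)‖ ≤ 1 := by
    have : -(ξ : ℂ) ^ 2 / 2 = ((-(ξ ^ 2 / 2) : ℝ) : ℂ) := by push_cast; ring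
    rw [this, Complex.norm_exp, Complex.ofReal_re, Real.exp_le_one_iff]
    have : 0 ≤ ξ ^ 2 / 2 := by positivity
    linarith
  rw [hsum]
  set E0 : ℂ := Complex.exp (-(ξ : ℂ) ^ 2 / 2) with hE0
  have e : φ * X - (M0 : ℂ) * E0 = φ * ((X - (M0 : ℂ) * Y) + (M0 : ℂ) * (Y - E0))
      + (φ - 1) * ((M0 : ℂ) * E0) := by ring
  rw [e]
  refine (norm_add_le _ _).trans ?_
  have k1 : ‖φ * ((X - (M0 : ℂ) * Y) + (M0 : ℂ) * (Y - E0))‖
      ≤ (ε / 4 * M0 + C0 * ((P.card : ℝ) + 1) ^ (2 * m) * η) + M0 * (ε / 4) := by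
    rw [norm_mul, hφ1, one_mul]
    refine (norm_add_le _ _).trans ?_
    have k2 : ‖(M0 : ℂ) * (Y - E0)‖ ≤ M0 * (ε / 4) := by
      rw [norm_mul, Complex.norm_real, Real.norm_of_nonneg hM0]
      exact mul_le_mul_of_nonneg_left hchar3 hM0
    have k3 : ‖X - (M0 : ℂ) * Y‖ ≤ ε / 4 * M0 + C0 * ((P.card : ℝ) + 1) ^ (2 * m) * η := by
      refine key.trans ?_
      exact add_le_add (mul_le_mul_of_nonneg_right hmomt2 hM0) (mul_le_mul_of_nonneg_right heta hη)
    exact add_le_add k3 k2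
  have k4 : ‖(φ - 1) * ((M0 : ℂ) * E0)‖ ≤ ε / 4 * M0 := by
    rw [norm_mul, norm_mul, Complex.norm_real, Real.norm_of_nonneg hM0]
    calc ‖φ - 1‖ * (M0 * ‖E0‖) ≤ (ε / 4) * (M0 * 1) :=
          mul_le_mul hφ2 (mul_le_mul_of_nonneg_left hexp1 hM0) (by positivity) (by positivity)
      _ = _ := by ring
  have hfin : 0 ≤ ε / 4 * M0 := by positivity
  linarith

end EK75
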