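import Pool.Agent.H75.EK.Pb4

/-! Module COND: given `t(n) = t` the events `p ∣ ⌊f(n)⌋` are independent with densities `ρ(p)/p`. -/

open Polynomial Finset
open scoped Real BigOperators

namespace EK75

theorem cond_crt (m n : ℕ) (hm : 0 < m) (hn : 0 < n) (h : Nat.Coprime m n) (P R : ℕ → Prop)
    [DecidablePred P] [DecidablePred R] [DecidablePred fun x => P x ∧ R x]
    (hP : ∀ x, P x ↔ P (x % m)) (hR : ∀ x, R x ↔ R (x % n)) :
    ((range (m * n)).filter (fun x => P x ∧ R x)).card =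
      ((range m).filter P).card * ((range n).filter R).card := by
  rw [← Finset.card_product]
  refine Finset.card_nbij' (fun x => (x % m, x % n))
    (fun y => (Nat.chineseRemainder h y.1 y.2 : ℕ)) ?_ ?_ ?_ ?_
  · intro x hx
    simp only [coe_filter, mem_range, Set.mem_ofPred_eq] at hx
    simp only [coe_product, coe_filter, mem_range, Set.mem_prod, Set.mem_ofPred_eq]
    exact ⟨⟨Nat.mod_lt _ hm, (hP x).1 hx.2.1⟩, ⟨Nat.mod_lt _ hn, (hR x).1 hx.2.2⟩⟩
  · intro y hy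
    simp only [coe_product, coe_filter, mem_range, Set.mem_prod, Set.mem_ofPred_eq] at hy
    simp only [coe_filter, mem_range, Set.mem_ofPred_eq]
    have h1 := (Nat.chineseRemainder h y.1 y.2).2.1
    have h2 := (Nat.chineseRemainder h y.1 y.2).2.2
    refine ⟨Nat.chineseRemainder_lt_mul h _ _ hm.ne' hn.ne', ?_, ?_⟩
    · rw [hP, h1, Nat.mod_eq_of_lt hy.1.1]; exact hy.1.2
    · rw [hR, h2, Nat.mod_eq_of_lt hy.2.1]; exact hy.2.2
  · intro x hx
    simp only [coe_filter, mem_range, Set.mem_ofPred_eq] at hx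
    have h1 := (Nat.chineseRemainder h (x % m) (x % n)).2.1
    have h2 := (Nat.chineseRemainder h (x % m) (x % n)).2.2
    have h3 : (Nat.chineseRemainder h (x % m) (x % n) : ℕ) ≡ x [MOD m * n] := by
      refine (Nat.modEq_and_modEq_iff_modEq_mul h).1 ⟨h1.trans (Nat.mod_modEq _ _),
        h2.trans (Nat.mod_modEq _ _)⟩
    exact Nat.ModEq.eq_of_lt_of_lt h3 (Nat.chineseRemainder_lt_mul h _ _ hm.ne' hn.ne') hx.1
  · intro y hy
    simp only [coe_product, coe_filter, mem_range, Set.mem_prod, Set.mem_ofPred_eq] at hy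
    have h1 := (Nat.chineseRemainder h y.1 y.2).2.1
    have h2 := (Nat.chineseRemainder h y.1 y.2).2.2
    ext
    · show (Nat.chineseRemainder h y.1 y.2 : ℕ) % m = y.1
      rw [h1, Nat.mod_eq_of_lt hy.1.1]
    · show (Nat.chineseRemainder h y.1 y.2 : ℕ) % n = y.2
      rw [h2, Nat.mod_eq_of_lt hy.2.1]

theorem cond_dvd (G : ℤ[X]) (m d : ℕ) (hmd : m ∣ d) (x : ℕ) :
    (m : ℤ) ∣ G.eval (x : ℤ) ↔ (m : ℤ) ∣ G.eval ((x % d : ℕ) : ℤ) := by
  have h1 : ((x : ℤ) - ((x % d : ℕ) : ℤ)) ∣ G.eval (x : ℤ) - G.eval ((x % d : ℕ) : ℤ) :=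
    Polynomial.sub_dvd_eval_sub _ _ _
  have h2 : (m : ℤ) ∣ (x : ℤ) - ((x % d : ℕ) : ℤ) := by
    have h3 : (d : ℤ) ∣ (x : ℤ) - ((x % d : ℕ) : ℤ) := by
      rw [Int.natCast_mod]
      exact Int.dvd_self_sub_emod
    exact (Int.natCast_dvd_natCast.2 hmd).trans h3
  have h4 := h2.trans h1
  constructor
  · intro h
    have := dvd_sub h h4
    simpa using this
  · intro h
    have := dvd_add h4 h
    simpa using this

theorem cond_count (G : ℤ[X]) (q : ℕ) (hq : 0 < q) (S : Finset ℕ)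
    (hS : ∀ p ∈ S, p.Prime ∧ ¬ p ∣ q) :
    ((range (q * ∏ p ∈ S, p)).filter (fun x : ℕ => (q : ℤ) ∣ G.eval (x : ℤ) ∧
      ∀ p ∈ S, (p : ℤ) ∣ G.eval (x : ℤ))).card =
      ((range q).filter (fun x : ℕ => (q : ℤ) ∣ G.eval (x : ℤ))).card * ∏ p ∈ S, rho G p := by
  induction S using Finset.induction_on with
  | empty => simp
  | insert p S hp ih =>
    have ih' := ih (fun p' hp' => hS p' (mem_insert_of_mem hp'))
    have hpp := hS p (mem_insert_self p S)
    have hpos : 0 < q * ∏ p ∈ S, p := by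
      refine Nat.mul_pos hq (Finset.prod_pos fun p' hp' => ?_)
      exact (hS p' (mem_insert_of_mem hp')).1.pos
    have hcop : Nat.Coprime (q * ∏ p ∈ S, p) p := by
      refine Nat.Coprime.mul_left ?_ ?_
      · exact ((Nat.Prime.coprime_iff_not_dvd hpp.1).2 hpp.2).symm
      · refine Nat.Coprime.prod_left fun p' hp' => ?_
        refine (Nat.coprime_primes (hS p' (mem_insert_of_mem hp')).1 hpp.1).2 ?_
        rintro rfl
        exact hp hp'
    have key := cond_crt (q * ∏ p ∈ S, p) p hpos hpp.1.pos hcop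
      (fun x => (q : ℤ) ∣ G.eval (x : ℤ) ∧ ∀ p ∈ S, (p : ℤ) ∣ G.eval (x : ℤ))
      (fun x => (p : ℤ) ∣ G.eval (x : ℤ))
      (fun x => by
        refine and_congr (cond_dvd G q _ (Dvd.intro _ rfl) x) ?_
        refine forall_congr' fun p' => forall_congr' fun hp' => ?_
        exact cond_dvd G p' _ ((Finset.dvd_prod_of_mem (fun p => p) hp').trans (Dvd.intro_left _ rfl)) x)
      (fun x => cond_dvd G p p dvd_rfl x)
    rw [Finset.prod_insert hp, Finset.prod_insert hp]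
    have e1 : q * (p * ∏ p ∈ S, p) = (q * ∏ p ∈ S, p) * p := by ring
    rw [e1]
    have e2 : (range ((q * ∏ p ∈ S, p) * p)).filter (fun x : ℕ => (q : ℤ) ∣ G.eval (x : ℤ) ∧
        ∀ p' ∈ insert p S, (p' : ℤ) ∣ G.eval (x : ℤ)) =
        (range ((q * ∏ p ∈ S, p) * p)).filter (fun x : ℕ => ((q : ℤ) ∣ G.eval (x : ℤ) ∧
        ∀ p ∈ S, (p : ℤ) ∣ G.eval (x : ℤ)) ∧ (p : ℤ) ∣ G.eval (x : ℤ)) := by
      refine Finset.filter_congr fun x _ => ?_
      rw [Finset.forall_mem_insert]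
      tauto
    rw [e2, key, ih']
    have e3 : ((range p).filter (fun x : ℕ => (p : ℤ) ∣ G.eval (x : ℤ))).card = rho G p := rfl
    rw [e3]
    ring

theorem cond_rho_le (G : ℤ[X]) (p : ℕ) : rho G p ≤ p := by
  rw [rho]
  exact (Finset.card_filter_le _ _).trans (by simp)

open Classical in
theorem cond (k : ℕ) (hk : 1 ≤ k) : ∃ C : ℝ, 0 ≤ C ∧ ∀ f : ℝ[X], f.natDegree = k →
    ∀ (N T q : ℕ) (a : ℕ → ℤ), MajD f N T q a → ∀ S : Finset ℕ,
    (∀ p ∈ S, p.Prime ∧ ¬ p ∣ q) → ∀ t : ℤ,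
    |(((Icc 1 N).filter (fun n => tt f q a n = t ∧
        ∀ p ∈ S, (p : ℤ) ∣ ⌊f.eval (n : ℝ)⌋)).card : ℝ) -
      (((Icc 1 N).filter (fun n => tt f q a n = t)).card : ℝ) *
        ∏ p ∈ S, (rho (Ft k a t) p : ℝ) / p| ≤ C * q * ∏ p ∈ S, (p : ℝ) := by
  refine ⟨2 * (2 * (2 * k : ℕ) + 1), by positivity, ?_⟩
  intro f hf N T q a hM S hS t
  have hq : 0 < q := hM.q1
  set G := Ft k a t with hG
  have hGev : ∀ x : ℤ, G.eval x = (FF k a).eval x - t := by
    intro x; simp [hG, Ft]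
  -- the real polynomial q f - F
  set P : ℝ[X] := C (q : ℝ) * f - (FF k a).map (Int.castRingHom ℝ) with hP
  have hPdeg : P.natDegree ≤ k := by
    refine (Polynomial.natDegree_sub_le _ _).trans (max_le ?_ ?_)
    · exact (Polynomial.natDegree_C_mul_le _ _).trans hf.le
    · refine (Polynomial.natDegree_map_le).trans ?_
      rw [FF]
      refine Polynomial.natDegree_sum_le_of_forall_le _ _ fun j hj => ?_
      exact (Polynomial.natDegree_C_mul_X_pow_le _ _).trans (mem_Icc.1 hj).2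
  have hPev : ∀ n : ℕ, P.eval (n : ℝ) = q * f.eval (n : ℝ) - ((FF k a).eval (n : ℤ) : ℤ) := by
    intro n
    have : (n : ℝ) = ((n : ℤ) : ℝ) := by simp
    rw [hP, Polynomial.eval_sub, Polynomial.eval_mul, Polynomial.eval_C, this,
      Polynomial.eval_intCast_map]
    simp
  have hqR : (0 : ℝ) < q := by exact_mod_cast hq
  -- characterisation of t(n) = t
  have htt : ∀ n : ℕ, tt f q a n = t ↔ ((-(t : ℝ) ≤ P.eval (n : ℝ) ∧
      ¬ ((q : ℝ) - t ≤ P.eval (n : ℝ))) ∧ (q : ℤ) ∣ G.eval (n : ℤ)) := by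
    intro n
    rw [hPev, hGev, tt, hf]
    constructor
    · intro h
      have h1 : (FF k a).eval (n : ℤ) = q * ⌊f.eval (n : ℝ)⌋ + t := by linarith
      have h1' : (((FF k a).eval (n : ℤ) : ℤ) : ℝ) = q * ⌊f.eval (n : ℝ)⌋ + t := by
        rw [h1]; push_cast; ring
      have h2 := Int.floor_le (f.eval (n : ℝ))
      have h3 := Int.lt_floor_add_one (f.eval (n : ℝ))
      refine ⟨⟨?_, ?_⟩, ?_⟩
      · rw [h1']; nlinarith
      · rw [h1']; push Not; nlinarith
      · rw [h1]; exact ⟨⌊f.eval (n : ℝ)⌋, by ring⟩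
    · rintro ⟨⟨h2, h3⟩, ⟨m, hm⟩⟩
      have h1 : (FF k a).eval (n : ℤ) = q * m + t := by linarith
      have h1' : (((FF k a).eval (n : ℤ) : ℤ) : ℝ) = q * m + t := by
        rw [h1]; push_cast; ring
      rw [h1'] at h2 h3
      push Not at h3
      have h4 : ⌊f.eval (n : ℝ)⌋ = m := by
        rw [Int.floor_eq_iff]
        constructor
        · have : (q : ℝ) * m ≤ q * f.eval (n : ℝ) := by linarith
          exact le_of_mul_le_mul_left this hqR
        · have : (q : ℝ) * f.eval (n : ℝ) < q * (m + 1) := by linarith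
          exact lt_of_mul_lt_mul_left this hqR.le
      rw [h1, h4]; ring
  obtain ⟨R1, hR1c, hR1⟩ := poly_cuts k P hPdeg (-(t : ℝ))
  obtain ⟨R2, hR2c, hR2⟩ := poly_cuts k P hPdeg ((q : ℝ) - t)
  set Q : ℕ → Prop := fun n => (-(t : ℝ) ≤ P.eval (n : ℝ) ∧ ¬ ((q : ℝ) - t ≤ P.eval (n : ℝ)))
    with hQdef
  have hRc : (R1 ∪ R2).card ≤ 2 * k := (Finset.card_union_le _ _).trans (by omega)
  have hQ : ∀ x y : ℕ, 1 ≤ x → x ≤ y → y ≤ N →
      (∀ r ∈ R1 ∪ R2, ¬ ((x : ℝ) ≤ r ∧ r ≤ (y : ℝ))) → (Q x ↔ Q y) := by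
    intro x y _ hxy _ hr
    have hxy' : (x : ℝ) ≤ y := by exact_mod_cast hxy
    refine and_congr (hR1 x y hxy' fun r h => hr r (mem_union_left _ h))
      (not_congr (hR2 x y hxy' fun r h => hr r (mem_union_right _ h)))
  set D := q * ∏ p ∈ S, p with hD
  have hDpos : 0 < D := Nat.mul_pos hq (Finset.prod_pos fun p hp => (hS p hp).1.pos)
  set A := (range D).filter (fun x : ℕ => (q : ℤ) ∣ G.eval (x : ℤ) ∧
      ∀ p ∈ S, (p : ℤ) ∣ G.eval (x : ℤ)) with hA
  set A' := (range q).filter (fun x : ℕ => (q : ℤ) ∣ G.eval (x : ℤ)) with hA'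
  have b1 := ap_cuts N D (2 * k) hDpos Q (R1 ∪ R2) hRc hQ A (Finset.filter_subset _ _)
  have b2 := ap_cuts N q (2 * k) hq Q (R1 ∪ R2) hRc hQ A' (Finset.filter_subset _ _)
  have e1 : ∀ inst : DecidablePred (fun n => Q n ∧ n % D ∈ A),
      @Finset.filter ℕ (fun n => Q n ∧ n % D ∈ A) inst (Icc 1 N) = (Icc 1 N).filter (fun n =>
      tt f q a n = t ∧ ∀ p ∈ S, (p : ℤ) ∣ ⌊f.eval (n : ℝ)⌋) := by
    intro inst
    refine Finset.filter_congr fun n _ => ?_
    have hmem : n % D ∈ A ↔ ((q : ℤ) ∣ G.eval (n : ℤ) ∧ ∀ p ∈ S, (p : ℤ) ∣ G.eval (n : ℤ)) := by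
      rw [hA, mem_filter, mem_range]
      constructor
      · rintro ⟨_, h1, h2⟩
        exact ⟨(cond_dvd G q D (Dvd.intro _ rfl) n).2 h1, fun p hp =>
          (cond_dvd G p D ((Finset.dvd_prod_of_mem (fun p => p) hp).trans (Dvd.intro_left _ rfl)) n).2
            (h2 p hp)⟩
      · rintro ⟨h1, h2⟩
        exact ⟨Nat.mod_lt _ hDpos, (cond_dvd G q D (Dvd.intro _ rfl) n).1 h1, fun p hp =>
          (cond_dvd G p D ((Finset.dvd_prod_of_mem (fun p => p) hp).trans (Dvd.intro_left _ rfl)) n).1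
            (h2 p hp)⟩
    rw [hmem, ← and_assoc, ← htt n]
    refine and_congr_right fun htn => ?_
    refine forall_congr' fun p => forall_congr' fun hp => ?_
    have h1 : G.eval (n : ℤ) = q * ⌊f.eval (n : ℝ)⌋ := by
      rw [hGev, ← htn, tt, hf]; ring
    rw [h1]
    constructor
    · intro h
      have hp' := hS p hp
      rcases (Nat.prime_iff_prime_int.1 hp'.1).dvd_or_dvd h with h | h
      · exact absurd (Int.natCast_dvd_natCast.1 h) hp'.2
      · exact h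
    · intro h
      exact Dvd.dvd.mul_left h _
  have e2 : ∀ inst : DecidablePred (fun n => Q n ∧ n % q ∈ A'),
      @Finset.filter ℕ (fun n => Q n ∧ n % q ∈ A') inst (Icc 1 N) = (Icc 1 N).filter (fun n =>
      tt f q a n = t) := by
    intro inst
    refine Finset.filter_congr fun n _ => ?_
    have hmem : n % q ∈ A' ↔ (q : ℤ) ∣ G.eval (n : ℤ) := by
      rw [hA', mem_filter, mem_range]
      constructor
      · rintro ⟨_, h1⟩
        exact (cond_dvd G q q dvd_rfl n).2 h1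
      · intro h1
        exact ⟨Nat.mod_lt _ hq, (cond_dvd G q q dvd_rfl n).1 h1⟩
    rw [hmem, ← htt n]
  rw [e1] at b1
  rw [e2] at b2
  have hcnt := cond_count G q hq S hS
  rw [← hD, ← hA, ← hA'] at hcnt
  have hcnt' : (A.card : ℝ) = A'.card * ∏ p ∈ S, (rho G p : ℝ) := by
    rw [hcnt]; push_cast; ring
  have hDR : (D : ℝ) = q * ∏ p ∈ S, (p : ℝ) := by rw [hD]; push_cast; ring
  have hAle : (A.card : ℝ) ≤ D := by
    have : A.card ≤ D := (Finset.card_filter_le _ _).trans (by simp)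
    exact_mod_cast this
  have hA'le : (A'.card : ℝ) ≤ q := by
    have : A'.card ≤ q := (Finset.card_filter_le _ _).trans (by simp)
    exact_mod_cast this
  have hPP : (0 : ℝ) < ∏ p ∈ S, (p : ℝ) :=
    Finset.prod_pos fun p hp => by exact_mod_cast (hS p hp).1.pos
  set W := ∏ p ∈ S, (rho G p : ℝ) / p with hW
  have hWeq : W = (∏ p ∈ S, (rho G p : ℝ)) / ∏ p ∈ S, (p : ℝ) := Finset.prod_div_distrib _ _
  have hW0 : 0 ≤ W := Finset.prod_nonneg fun p _ => by positivity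
  have hW1 : W ≤ 1 := by
    refine Finset.prod_le_one (fun p _ => by positivity) fun p hp => ?_
    have hp0 : (0 : ℝ) < p := by exact_mod_cast (hS p hp).1.pos
    rw [div_le_one hp0]
    exact_mod_cast cond_rho_le G p
  have hPP1 : (1 : ℝ) ≤ ∏ p ∈ S, (p : ℝ) := by
    have h1 : 1 ≤ ∏ p ∈ S, p := Finset.prod_pos fun p hp => (hS p hp).1.pos
    have h2 : ((∏ p ∈ S, p : ℕ) : ℝ) = ∏ p ∈ S, (p : ℝ) := by push_cast; rfl
    rw [← h2]
    exact_mod_cast h1
  set X := (((Icc 1 N).filter (fun n => tt f q a n = t ∧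
        ∀ p ∈ S, (p : ℤ) ∣ ⌊f.eval (n : ℝ)⌋)).card : ℝ)
  set Y := (((Icc 1 N).filter (fun n => tt f q a n = t)).card : ℝ)
  obtain ⟨Z, b1, b2⟩ : ∃ Z : ℝ, |X - Z * A.card / D| ≤ (2 * ((2 * k : ℕ) : ℝ) + 1) * A.card ∧
      |Y - Z * A'.card / q| ≤ (2 * ((2 * k : ℕ) : ℝ) + 1) * A'.card := ⟨_, b1, b2⟩
  have hid : Z * A.card / D = (Z * A'.card / q) * W := by
    rw [hcnt', hDR, hWeq]
    field_simp
  have hc : (0 : ℝ) ≤ 2 * ((2 * k : ℕ) : ℝ) + 1 := by positivity
  have h3 : |X - Y * W| ≤ |X - Z * A.card / D| + |Y - Z * A'.card / q| * W := by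
    have : X - Y * W = (X - Z * A.card / D) - (Y - Z * A'.card / q) * W := by rw [hid]; ring
    rw [this]
    refine (abs_sub _ _).trans ?_
    rw [abs_mul, abs_of_nonneg hW0]
  refine h3.trans ?_
  have h4 : |X - Z * A.card / D| ≤ (2 * ((2 * k : ℕ) : ℝ) + 1) * (q * ∏ p ∈ S, (p : ℝ)) := by
    refine b1.trans ?_
    rw [← hDR]
    exact mul_le_mul_of_nonneg_left hAle hc
  have h5 : |Y - Z * A'.card / q| * W ≤ (2 * ((2 * k : ℕ) : ℝ) + 1) * (q * ∏ p ∈ S, (p : ℝ)) := by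
    refine (mul_le_mul b2 hW1 hW0 (by positivity)).trans ?_
    rw [mul_one]
    refine mul_le_mul_of_nonneg_left ?_ hc
    refine hA'le.trans ?_
    exact le_mul_of_one_le_right hqR.le hPP1
  linarith

end EK75
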