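import Mathlib

/-!
# MP_75c0be_nt: Erdos-Kac law for integer parts of real polynomials.  Basic definitions.
-/

open Polynomial Finset
open scoped Real BigOperators

namespace EK75

/-- `e(x) = exp(2 pi i x)`. -/
noncomputable def ee (x : ℝ) : ℂ := Complex.exp (2 * π * x * Complex.I)

/-- distance to the nearest integer -/
noncomputable def nint (x : ℝ) : ℝ := |x - round x|

/-- number of roots of `g` modulo `p` (in `[0,p)`) -/
def rho (g : ℤ[X]) (p : ℕ) : ℕ :=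
  ((range p).filter (fun r : ℕ => (p : ℤ) ∣ g.eval (r : ℤ))).card

/-- `rho` as a real weight -/
def rhoR (g : ℤ[X]) (p : ℕ) : ℝ := (rho g p : ℝ)

/-- primes `p ≤ x` -/
noncomputable def prLe (x : ℝ) : Finset ℕ := (range (⌊x⌋₊ + 1)).filter Nat.Prime

/-- primes `a < p ≤ b` (for `0 ≤ a`) -/
noncomputable def prIoc (a b : ℝ) : Finset ℕ := (Ioc ⌊a⌋₊ ⌊b⌋₊).filter Nat.Prime

/-- `∑_{a < p ≤ b} w(p)/p` -/
noncomputable def Ssum (w : ℕ → ℝ) (a b : ℝ) : ℝ := ∑ p ∈ prIoc a b, w p / p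

/-- `∑_{p ≤ Y} w(p) log p / p` -/
noncomputable def Msum (w : ℕ → ℝ) (Y : ℝ) : ℝ := ∑ p ∈ prLe Y, w p * Real.log p / p

/-- all coefficients of `g` have absolute value at most `H` -/
def HtLe (g : ℤ[X]) (H : ℝ) : Prop := ∀ i, |((g.coeff i : ℤ) : ℝ)| ≤ H

/-- the box `[0,X)^k` in `ℤ^k` -/
noncomputable def boxZ (k X : ℕ) : Finset (Fin k → ℤ) := Fintype.piFinset fun _ => Finset.Ico 0 (X : ℤ)

/-- `F = ∑_{j=1}^k a_j X^j` -/
noncomputable def FF (k : ℕ) (a : ℕ → ℤ) : ℤ[X] := ∑ j ∈ Icc 1 k, C (a j) * X ^ j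

/-- Major arc data of `f` at scale `N`: a common denominator `q ≤ T` for the coefficients of positive degree. -/
structure MajD (f : ℝ[X]) (N T q : ℕ) (a : ℕ → ℤ) : Prop where
  q1 : 1 ≤ q
  qT : q ≤ T
  app : ∀ j ∈ Icc 1 f.natDegree, |(q : ℝ) * f.coeff j - a j| * (N : ℝ) ^ j ≤ T
  cop : ∀ p : ℕ, p.Prime → p ∣ q → ∃ j ∈ Icc 1 f.natDegree, ¬ ((p : ℤ) ∣ a j)
  big : T ≤ q + 1 ∨ ∃ j ∈ Icc 1 f.natDegree, (T : ℝ) - 1 ≤ |(q : ℝ) * f.coeff j - a j| * (N : ℝ) ^ j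

/-- `f` has no simultaneous rational approximation of height `< T` at scale `N`. -/
def NonApp (f : ℝ[X]) (N T : ℕ) : Prop :=
  ∀ q : ℕ, 1 ≤ q → q < T →
    ∃ j ∈ Icc 1 f.natDegree, (T : ℝ) - 1 < nint ((q : ℝ) * f.coeff j) * (N : ℝ) ^ j

/-- `t(n) = F(n) - q ⌊f(n)⌋` -/
noncomputable def tt (f : ℝ[X]) (q : ℕ) (a : ℕ → ℤ) (n : ℕ) : ℤ :=
  (FF f.natDegree a).eval (n : ℤ) - q * ⌊f.eval (n : ℝ)⌋

/-- the polynomial `F - t` -/
noncomputable def Ft (k : ℕ) (a : ℕ → ℤ) (t : ℤ) : ℤ[X] := FF k a - C t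

/-- the monic version of `F - t` (roots multiplied by the leading coefficient) -/
noncomputable def Gt (k : ℕ) (a : ℕ → ℤ) (t : ℤ) : ℤ[X] := (Ft k a t).integralNormalization

end EK75
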