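import Pool.Agent.H75.EK.Vin

/-! Module ED: from exponential sums to equidistribution in `[0, l)`. -/

open Polynomial Finset
open scoped Real BigOperators

namespace EK75

/-- the Fejér kernel as a cosine polynomial -/
private noncomputable def edF (L : ℕ) (u : ℝ) : ℝ :=
  (∑ a ∈ range L, ∑ b ∈ range L, Real.cos (2 * π * ((((a : ℤ) - b).natAbs : ℕ) : ℝ) * u)) / L

private theorem ed_cos_abs (a b : ℕ) (u : ℝ) :
    Real.cos (2 * π * ((((a : ℤ) - b).natAbs : ℕ) : ℝ) * u) =
      Real.cos (2 * π * a * u - 2 * π * b * u) := by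
  have h1 : ((((a : ℤ) - b).natAbs : ℕ) : ℝ) = |(a : ℝ) - b| := by
    rw [Nat.cast_natAbs]
    push_cast
    rfl
  rw [h1]
  rcases abs_cases ((a : ℝ) - b) with ⟨h, _⟩ | ⟨h, _⟩
  · rw [h]; congr 1; ring
  · rw [h, ← Real.cos_neg]; congr 1; ring

private theorem ed_ee (x : ℝ) : ee x = Complex.exp (((2 * π * x : ℝ) : ℂ) * Complex.I) := by
  unfold ee; push_cast; ring_nf

private theorem ed_ee_re (x : ℝ) : (ee x).re = Real.cos (2 * π * x) := by
  rw [ed_ee, Complex.exp_ofReal_mul_I_re]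

private theorem ed_ee_im (x : ℝ) : (ee x).im = Real.sin (2 * π * x) := by
  rw [ed_ee, Complex.exp_ofReal_mul_I_im]

private theorem ed_ee_add (x y : ℝ) : ee (x + y) = ee x * ee y := by
  unfold ee
  rw [← Complex.exp_add]; congr 1; push_cast; ring

private theorem ed_ee_norm (x : ℝ) : ‖ee x‖ = 1 := by
  rw [ed_ee, Complex.norm_exp_ofReal_mul_I]

private theorem ed_ee_nat (n : ℕ) (x : ℝ) : ee (n * x) = ee x ^ n := by
  unfold ee
  rw [← Complex.exp_nat_mul]; congr 1; push_cast; ring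

private theorem ed_ee_int (m : ℤ) : ee (m : ℝ) = 1 := by
  unfold ee
  rw [Complex.exp_eq_one_iff]
  exact ⟨m, by push_cast; ring⟩

private theorem edF_eq (L : ℕ) (u : ℝ) :
    edF L u = ‖∑ a ∈ range L, ee (a * u)‖ ^ 2 / L := by
  unfold edF
  congr 1
  rw [← Complex.normSq_eq_norm_sq, Complex.normSq_apply, Complex.re_sum, Complex.im_sum]
  simp only [ed_ee_re, ed_ee_im]
  rw [sum_mul_sum, sum_mul_sum, ← sum_add_distrib]
  apply sum_congr rfl
  intro a _
  rw [← sum_add_distrib]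
  apply sum_congr rfl
  intro b _
  rw [ed_cos_abs, Real.cos_sub]
  simp only [mul_assoc]

private theorem edF_nonneg (L : ℕ) (u : ℝ) : 0 ≤ edF L u := by
  rw [edF_eq]; positivity

private theorem edF_cont (L : ℕ) : Continuous (edF L) := by
  unfold edF
  fun_prop

private theorem ed_sin_lb (u : ℝ) (h0 : 0 < u) (h1 : u < 1) :
    1 / (Real.sin (π * u)) ^ 2 ≤ (1 / 4) * ((u ^ 2)⁻¹ + ((1 - u) ^ 2)⁻¹) := by
  have hπ := Real.pi_pos
  have key : ∀ v : ℝ, 0 < v → v ≤ 1 / 2 → 1 / (Real.sin (π * v)) ^ 2 ≤ (1 / 4) * (v ^ 2)⁻¹ := by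
    intro v hv hv2
    have h2 : 2 * v ≤ Real.sin (π * v) := by
      have h3 := Real.mul_le_sin (x := π * v) (by positivity) (by nlinarith)
      have h4 : 2 / π * (π * v) = 2 * v := by field_simp
      rwa [h4] at h3
    have h5 : (2 * v) ^ 2 ≤ (Real.sin (π * v)) ^ 2 := by gcongr
    have h6 : 1 / (Real.sin (π * v)) ^ 2 ≤ 1 / (2 * v) ^ 2 := by gcongr
    have h7 : 1 / (2 * v) ^ 2 = (1 / 4) * (v ^ 2)⁻¹ := by field_simp; norm_num
    rwa [h7] at h6
  rcases le_total u (1 / 2) with h | h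
  · have h2 := key u h0 h
    have h3 : 0 < ((1 - u) ^ 2)⁻¹ := by
      have : 0 < 1 - u := by linarith
      positivity
    linarith
  · have h2 := key (1 - u) (by linarith) (by linarith)
    have h4 : Real.sin (π * (1 - u)) = Real.sin (π * u) := by
      rw [mul_sub, mul_one, Real.sin_pi_sub]
    rw [h4] at h2
    have h3 : 0 < (u ^ 2)⁻¹ := by positivity
    linarith

private theorem edF_bound (L : ℕ) (hL : 1 ≤ L) (u : ℝ) (h0 : 0 < u) (h1 : u < 1) :
    edF L u ≤ (1 / (4 * L)) * ((u ^ 2)⁻¹ + ((1 - u) ^ 2)⁻¹) := by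
  have hπ := Real.pi_pos
  have hLR : (0 : ℝ) < L := by exact_mod_cast hL
  have hs : 0 < Real.sin (π * u) := Real.sin_pos_of_pos_of_lt_pi (by positivity) (by nlinarith)
  have hD : ‖∑ a ∈ range L, ee (a * u)‖ * Real.sin (π * u) ≤ 1 := by
    have h2 : (∑ a ∈ range L, ee (a * u)) * (ee u - 1) = ee (L * u) - 1 := by
      simp only [ed_ee_nat]
      exact geom_sum_mul (ee u) L
    have h3 : ‖ee u - 1‖ = 2 * Real.sin (π * u) := by
      have h4 : ee u = Complex.exp (Complex.I * ((2 * π * u : ℝ) : ℂ)) := by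
        rw [ed_ee, mul_comm]
      rw [h4, Complex.norm_exp_I_mul_ofReal_sub_one]
      have h5 : 2 * π * u / 2 = π * u := by ring
      rw [h5, Real.norm_eq_abs, abs_of_pos (by positivity)]
    have h6 : ‖ee (L * u) - 1‖ ≤ 2 := by
      calc ‖ee (L * u) - 1‖ ≤ ‖ee (L * u)‖ + ‖(1 : ℂ)‖ := norm_sub_le _ _
        _ = 2 := by rw [ed_ee_norm, norm_one]; norm_num
    rw [← h2, norm_mul, h3] at h6
    linarith
  have hD2 : ‖∑ a ∈ range L, ee (a * u)‖ ^ 2 ≤ 1 / (Real.sin (π * u)) ^ 2 := by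
    rw [le_div_iff₀ (by positivity), ← mul_pow]
    have : 0 ≤ ‖∑ a ∈ range L, ee (a * u)‖ * Real.sin (π * u) := by positivity
    exact pow_le_one₀ this hD
  rw [edF_eq, div_le_iff₀ hLR]
  have h7 := ed_sin_lb u h0 h1
  calc ‖∑ a ∈ range L, ee (a * u)‖ ^ 2 ≤ (1 / 4) * ((u ^ 2)⁻¹ + ((1 - u) ^ 2)⁻¹) :=
        le_trans hD2 h7
    _ = _ := by field_simp

private theorem ed_tail (L : ℕ) (hL : 1 ≤ L) (δ : ℝ) (hδ : 0 < δ) (hδ2 : δ ≤ 1 / 2) :
    ∫ u in δ..(1 - δ), edF L u ≤ 1 / (2 * L * δ) := by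
  have hLR : (0 : ℝ) < L := by exact_mod_cast hL
  have hcont : ContinuousOn (fun u : ℝ => (1 / (4 * (L : ℝ))) * ((u ^ 2)⁻¹ + ((1 - u) ^ 2)⁻¹))
      (Set.uIcc δ (1 - δ)) := by
    rw [Set.uIcc_of_le (by linarith)]
    apply ContinuousOn.mul continuousOn_const
    apply ContinuousOn.add
    · apply ContinuousOn.inv₀ (by fun_prop)
      intro u hu
      have : 0 < u := lt_of_lt_of_le hδ hu.1
      positivity
    · apply ContinuousOn.inv₀ (by fun_prop)
      intro u hu
      have : 0 < 1 - u := by linarith [hu.2]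
      positivity
  have h1 : ∫ u in δ..(1 - δ), edF L u ≤
      ∫ u in δ..(1 - δ), (1 / (4 * (L : ℝ))) * ((u ^ 2)⁻¹ + ((1 - u) ^ 2)⁻¹) := by
    apply intervalIntegral.integral_mono_on (by linarith)
      ((edF_cont L).intervalIntegrable _ _) hcont.intervalIntegrable
    intro u hu
    exact edF_bound L hL u (lt_of_lt_of_le hδ hu.1) (by linarith [hu.2])
  have h2 : ∫ u in δ..(1 - δ), (1 / (4 * (L : ℝ))) * ((u ^ 2)⁻¹ + ((1 - u) ^ 2)⁻¹) =
      (1 / (4 * (L : ℝ))) * (-(1 - δ)⁻¹ + (1 - (1 - δ))⁻¹) -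
        (1 / (4 * (L : ℝ))) * (-δ⁻¹ + (1 - δ)⁻¹) := by
    apply intervalIntegral.integral_eq_sub_of_hasDerivAt
      (f := fun u : ℝ => (1 / (4 * (L : ℝ))) * (-u⁻¹ + (1 - u)⁻¹)) _ hcont.intervalIntegrable
    intro u hu
    rw [Set.uIcc_of_le (by linarith)] at hu
    have hu0 : u ≠ 0 := by linarith [hu.1]
    have hu1 : 1 - u ≠ 0 := by linarith [hu.2]
    have e1 : HasDerivAt (fun u : ℝ => -u⁻¹) ((u ^ 2)⁻¹) u := by
      have h0 := (hasDerivAt_inv hu0).fun_neg
      rw [neg_neg] at h0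
      exact h0
    have e2 : HasDerivAt (fun u : ℝ => (1 - u)⁻¹) (((1 - u) ^ 2)⁻¹) u := by
      have h3 : HasDerivAt (fun u : ℝ => 1 - u) (-1) u := by
        simpa using (hasDerivAt_id u).const_sub 1
      have h4 := h3.fun_inv hu1
      rw [neg_neg, one_div] at h4
      exact h4
    exact (e1.add e2).const_mul _
  rw [h2] at h1
  have h3 : (1 / (4 * (L : ℝ))) * (-(1 - δ)⁻¹ + (1 - (1 - δ))⁻¹) -
        (1 / (4 * (L : ℝ))) * (-δ⁻¹ + (1 - δ)⁻¹) = 1 / (2 * L * δ) - 1 / (2 * L) * (1 - δ)⁻¹ := by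
    have hd : δ ≠ 0 := hδ.ne'
    have hd1 : 1 - δ ≠ 0 := by linarith
    rw [sub_sub_cancel]
    field_simp
    ring
  rw [h3] at h1
  have h4 : 0 < 1 / (2 * (L : ℝ)) * (1 - δ)⁻¹ := by
    have : 0 < 1 - δ := by linarith
    positivity
  linarith

private theorem ed_cos_int (m : ℕ) (hm : m ≠ 0) (c : ℝ) (y : ℝ) :
    ∫ θ in c..(c + 1), Real.cos (2 * π * m * (θ - y)) = 0 := by
  have hπ := Real.pi_pos
  have hmR : (0 : ℝ) < m := by exact_mod_cast Nat.pos_of_ne_zero hm
  have hc : (2 * π * m) ≠ 0 := by positivity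
  rw [intervalIntegral.integral_eq_sub_of_hasDerivAt
    (f := fun θ : ℝ => Real.sin (2 * π * m * (θ - y)) / (2 * π * m))]
  · have h1 : 2 * π * m * (c + 1 - y) = 2 * π * m * (c - y) + m * (2 * π) := by ring
    rw [h1, Real.sin_add_nat_mul_two_pi, sub_self]
  · intro θ _
    have h2 : HasDerivAt (fun θ : ℝ => 2 * π * m * (θ - y)) (2 * π * m) θ := by
      simpa using ((hasDerivAt_id θ).sub_const y).const_mul (2 * π * m)
    have h3 := h2.sin.div_const (2 * π * m)
    rw [mul_div_cancel_right₀ _ hc] at h3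
    exact h3
  · exact (by fun_prop : Continuous fun θ : ℝ => Real.cos (2 * π * m * (θ - y))).intervalIntegrable _ _

private theorem ed_period (L : ℕ) (hL : 1 ≤ L) (c y : ℝ) :
    ∫ θ in c..(c + 1), edF L (θ - y) = 1 := by
  have hLR : (0 : ℝ) < L := by exact_mod_cast hL
  unfold edF
  rw [intervalIntegral.integral_div, intervalIntegral.integral_finsetSum]
  · have h1 : ∀ a ∈ range L, ∫ θ in c..(c + 1), ∑ b ∈ range L,
        Real.cos (2 * π * ((((a : ℤ) - b).natAbs : ℕ) : ℝ) * (θ - y)) = 1 := by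
      intro a ha
      rw [intervalIntegral.integral_finsetSum]
      · rw [sum_eq_single a]
        · simp
        · intro b _ hb
          apply ed_cos_int
          omega
        · intro h; exact absurd ha h
      · intro b _
        exact (by fun_prop : Continuous fun θ : ℝ =>
          Real.cos (2 * π * ((((a : ℤ) - b).natAbs : ℕ) : ℝ) * (θ - y))).intervalIntegrable _ _
    rw [sum_congr rfl h1, sum_const, card_range, nsmul_eq_mul, mul_one, div_self hLR.ne']
  · intro a _
    exact (by fun_prop : Continuous fun θ : ℝ => ∑ b ∈ range L,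
          Real.cos (2 * π * ((((a : ℤ) - b).natAbs : ℕ) : ℝ) * (θ - y))).intervalIntegrable _ _

/-- sum of the kernel over the points -/
private theorem ed_sum (ι : Type) (s : Finset ι) (y : ι → ℝ) (H : ℕ) (κ : ℝ) (hH : 1 ≤ H)
    (hκ : 0 ≤ κ) (hS : ∀ h ∈ Icc 1 H, ‖∑ n ∈ s, ee ((h : ℝ) * y n)‖ ≤ κ * s.card) (θ : ℝ) :
    ∑ n ∈ s, edF H (θ - y n) ≤ (1 + H * κ) * s.card := by
  have hHR : (0 : ℝ) < H := by exact_mod_cast hH
  unfold edF
  rw [← sum_div, div_le_iff₀ hHR, sum_comm]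
  have h1 : ∀ a ∈ range H, ∑ n ∈ s, ∑ b ∈ range H,
      Real.cos (2 * π * ((((a : ℤ) - b).natAbs : ℕ) : ℝ) * (θ - y n)) ≤
        (1 + H * κ) * s.card := by
    intro a ha
    rw [sum_comm]
    have h2 : ∀ b ∈ range H, ∑ n ∈ s,
        Real.cos (2 * π * ((((a : ℤ) - b).natAbs : ℕ) : ℝ) * (θ - y n)) ≤
          (if b = a then (s.card : ℝ) else 0) + κ * s.card := by
      intro b hb
      rw [mem_range] at ha hb
      by_cases hab : b = a
      · subst hab
        simp only [sub_self, Int.natAbs_zero, Nat.cast_zero, mul_zero, zero_mul, Real.cos_zero,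
          sum_const, nsmul_eq_mul, mul_one, if_true]
        have : 0 ≤ κ * s.card := by positivity
        linarith
      · rw [if_neg hab, zero_add]
        set h := ((a : ℤ) - b).natAbs with hh
        have h3 : h ∈ Icc 1 H := by rw [mem_Icc]; omega
        have h4 := hS h h3
        have h5 : ∑ n ∈ s, Real.cos (2 * π * (h : ℝ) * (θ - y n)) =
            (ee (h * θ) * (starRingEnd ℂ) (∑ n ∈ s, ee ((h : ℝ) * y n))).re := by
          rw [map_sum, mul_sum, Complex.re_sum]
          apply sum_congr rfl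
          intro n _
          rw [Complex.mul_re, Complex.conj_re, Complex.conj_im, ed_ee_re, ed_ee_re, ed_ee_im,
            ed_ee_im]
          have h6 : 2 * π * (h : ℝ) * (θ - y n) = 2 * π * (h * θ) - 2 * π * (h * y n) := by ring
          rw [h6, Real.cos_sub]
          ring
        rw [h5]
        refine le_trans (Complex.re_le_norm _) ?_
        rw [norm_mul, ed_ee_norm, one_mul, RCLike.norm_conj]
        exact h4
    refine le_trans (sum_le_sum h2) ?_
    rw [sum_add_distrib, sum_ite_eq' (range H) a, if_pos ha, sum_const, card_range, nsmul_eq_mul]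
    have : (1 + (H : ℝ) * κ) * s.card = s.card + H * (κ * s.card) := by ring
    rw [this]
  refine le_trans (sum_le_sum h1) ?_
  rw [sum_const, card_range, nsmul_eq_mul]
  linarith

open Classical in
/-- the upper bound for arcs -/
private theorem ed_upper (ι : Type) (s : Finset ι) (y : ι → ℝ) (H : ℕ) (κ : ℝ) (hH : 1 ≤ H)
    (hκ : 0 ≤ κ) (hS : ∀ h ∈ Icc 1 H, ‖∑ n ∈ s, ee ((h : ℝ) * y n)‖ ≤ κ * s.card)
    (a b : ℝ) (hab : a ≤ b) :
    ((s.filter (fun n => a ≤ y n ∧ y n < b)).card : ℝ) ≤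
      (b - a) * s.card + 3 * ((H : ℝ) ^ (-(1 : ℝ) / 2) + H * κ) * s.card := by
  have hHR : (0 : ℝ) < H := by exact_mod_cast hH
  have hH1 : (1 : ℝ) ≤ H := by exact_mod_cast hH
  set δ : ℝ := (H : ℝ) ^ (-(1 : ℝ) / 2) with hδ
  have hδ0 : 0 < δ := by positivity
  have hδ1 : δ ≤ 1 := Real.rpow_le_one_of_one_le_of_nonpos hH1 (by norm_num)
  have hHδ : (H : ℝ) * δ ^ 2 = 1 := by
    rw [hδ, ← Real.rpow_natCast, ← Real.rpow_mul hHR.le]
    norm_num
    rw [Real.rpow_neg_one]
    field_simp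
  have hcard : (0 : ℝ) ≤ s.card := by positivity
  have hle : ((s.filter (fun n => a ≤ y n ∧ y n < b)).card : ℝ) ≤ s.card := by
    exact_mod_cast card_filter_le _ _
  by_cases hbig : 1 ≤ b - a + 2 * δ
  · have h1 : (s.card : ℝ) ≤ (b - a + 2 * δ) * s.card := by nlinarith
    have h2 : 0 ≤ (δ + 3 * (H * κ)) * s.card := by positivity
    nlinarith
  · push Not at hbig
    have hδ2 : δ ≤ 1 / 2 := by linarith
    -- the integral over the large arc
    set J : ℝ → ℝ := fun v => ∫ θ in (a - δ)..(b + δ), edF H (θ - v) with hJ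
    have hJ0 : ∀ v, 0 ≤ J v := by
      intro v
      apply intervalIntegral.integral_nonneg (by linarith)
      intro u _
      exact edF_nonneg H _
    have hcont : ∀ v, Continuous (fun θ : ℝ => edF H (θ - v)) :=
      fun v => (edF_cont H).comp (by fun_prop)
    have hJ1 : ∀ v, a ≤ v → v < b → 1 - δ / 2 ≤ J v := by
      intro v hv1 hv2
      have h1 := ed_period H hH (a - δ) v
      have h2 := intervalIntegral.integral_add_adjacent_intervals
        ((hcont v).intervalIntegrable (a - δ) (b + δ) (μ := MeasureTheory.volume))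
        ((hcont v).intervalIntegrable (b + δ) (a - δ + 1))
      have h3 : ∫ θ in (b + δ)..(a - δ + 1), edF H (θ - v) ≤ δ / 2 := by
        rw [intervalIntegral.integral_comp_sub_right (fun u => edF H u) v]
        have h4 : ∫ u in (b + δ - v)..(a - δ + 1 - v), edF H u ≤ ∫ u in δ..(1 - δ), edF H u := by
          apply intervalIntegral.integral_mono_interval (by linarith) (by linarith) (by linarith)
          · exact Filter.Eventually.of_forall (fun u => edF_nonneg H u)
          · exact (edF_cont H).intervalIntegrable _ _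
        have h5 := ed_tail H hH δ hδ0 hδ2
        have h6 : 1 / (2 * H * δ) = δ / 2 := by
          rw [div_eq_div_iff (by positivity) (by norm_num)]
          nlinarith
        linarith
      have h7 : J v + ∫ θ in (b + δ)..(a - δ + 1), edF H (θ - v) = 1 := by
        rw [hJ]; simp only; rw [h2, h1]
      linarith
    have hsum : ∑ n ∈ s, J (y n) ≤ (b - a + 2 * δ) * ((1 + H * κ) * s.card) := by
      have h1 : ∑ n ∈ s, J (y n) = ∫ θ in (a - δ)..(b + δ), ∑ n ∈ s, edF H (θ - y n) := by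
        rw [intervalIntegral.integral_finsetSum]
        intro n _
        exact (hcont _).intervalIntegrable _ _
      rw [h1]
      have h2 : ∫ θ in (a - δ)..(b + δ), ∑ n ∈ s, edF H (θ - y n) ≤
          ∫ _θ in (a - δ)..(b + δ), (1 + H * κ) * s.card := by
        apply intervalIntegral.integral_mono_on (by linarith)
        · exact (continuous_finsetSum s (fun n _ => hcont (y n))).intervalIntegrable _ _
        · exact continuous_const.intervalIntegrable _ _
        · intro θ _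
          exact ed_sum ι s y H κ hH hκ hS θ
      rw [intervalIntegral.integral_const, smul_eq_mul] at h2
      have h3 : b + δ - (a - δ) = b - a + 2 * δ := by ring
      rw [h3] at h2
      exact h2
    have hlow : (1 - δ / 2) * ((s.filter (fun n => a ≤ y n ∧ y n < b)).card : ℝ) ≤
        ∑ n ∈ s, J (y n) := by
      calc (1 - δ / 2) * ((s.filter (fun n => a ≤ y n ∧ y n < b)).card : ℝ)
          = ∑ n ∈ s.filter (fun n => a ≤ y n ∧ y n < b), (1 - δ / 2) := by
            rw [sum_const, nsmul_eq_mul, mul_comm]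
        _ ≤ ∑ n ∈ s.filter (fun n => a ≤ y n ∧ y n < b), J (y n) := by
            apply sum_le_sum
            intro n hn
            rw [mem_filter] at hn
            exact hJ1 _ hn.2.1 hn.2.2
        _ ≤ ∑ n ∈ s, J (y n) :=
            sum_le_sum_of_subset_of_nonneg (filter_subset _ _) (fun n _ _ => hJ0 _)
    set F : ℝ := ((s.filter (fun n => a ≤ y n ∧ y n < b)).card : ℝ) with hF
    have h1 : F ≤ δ / 2 * s.card + (b - a + 2 * δ) * ((1 + H * κ) * s.card) := by nlinarith
    have h2 : (b - a + 2 * δ) * ((1 + H * κ) * s.card) ≤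
        (b - a + 2 * δ) * s.card + 1 * (H * κ * s.card) := by
      have h3 : 0 ≤ H * κ * s.card := by positivity
      nlinarith
    have h4 : 0 ≤ H * κ * s.card := by positivity
    nlinarith [mul_nonneg hδ0.le hcard]

open Classical in
theorem equidist : ∃ C : ℝ, 0 ≤ C ∧ ∀ (ι : Type) (s : Finset ι) (x : ι → ℝ) (H : ℕ) (κ : ℝ),
    1 ≤ H → 0 ≤ κ → (∀ h ∈ Icc 1 H, ‖∑ n ∈ s, ee ((h : ℝ) * x n)‖ ≤ κ * s.card) →
    ∀ l : ℝ, 0 ≤ l → l ≤ 1 →
    |((s.filter (fun n => Int.fract (x n) < l)).card : ℝ) - l * s.card| ≤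
      C * ((H : ℝ) ^ (-(1 : ℝ) / 2) + H * κ) * s.card := by
  refine ⟨3, by norm_num, ?_⟩
  intro ι s x H κ hH hκ hS l hl0 hl1
  have hS' : ∀ h ∈ Icc 1 H, ‖∑ n ∈ s, ee ((h : ℝ) * Int.fract (x n))‖ ≤ κ * s.card := by
    intro h hh
    have h1 : ∀ n ∈ s, ee ((h : ℝ) * Int.fract (x n)) = ee ((h : ℝ) * x n) := by
      intro n _
      have h2 : (h : ℝ) * x n = (h : ℝ) * Int.fract (x n) + (((h : ℤ) * ⌊x n⌋ : ℤ) : ℝ) := by
        push_cast
        rw [← mul_add, Int.fract_add_floor]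
      rw [h2, ed_ee_add, ed_ee_int, mul_one]
    rw [sum_congr rfl h1]
    exact hS h hh
  have hu := ed_upper ι s (fun n => Int.fract (x n)) H κ hH hκ hS' 0 l hl0
  have hd := ed_upper ι s (fun n => Int.fract (x n)) H κ hH hκ hS' l 1 hl1
  have e1 : s.filter (fun n => 0 ≤ Int.fract (x n) ∧ Int.fract (x n) < l) =
      s.filter (fun n => Int.fract (x n) < l) := by
    apply filter_congr
    intro n _
    exact ⟨fun h => h.2, fun h => ⟨Int.fract_nonneg _, h⟩⟩
  have e2 : s.filter (fun n => l ≤ Int.fract (x n) ∧ Int.fract (x n) < 1) =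
      s.filter (fun n => ¬ Int.fract (x n) < l) := by
    apply filter_congr
    intro n _
    exact ⟨fun h => not_lt.2 h.1, fun h => ⟨not_lt.1 h, Int.fract_lt_one _⟩⟩
  rw [e1] at hu
  rw [e2] at hd
  have e3 : ((s.filter (fun n => Int.fract (x n) < l)).card : ℝ) +
      ((s.filter (fun n => ¬ Int.fract (x n) < l)).card : ℝ) = s.card := by
    exact_mod_cast card_filter_add_card_filter_not (fun n => Int.fract (x n) < l)
  rw [abs_le]
  constructor <;> nlinarith

end EK75
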