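import Pool.Agent.H75.EK.Gal
import Pool.Agent.H75.EK.Ub
import Pool.Agent.H75.EK.Abel
import Pool.Agent.H75.EK.Mert

/-! Module EXC: no `r` successively irreducible polynomials can all be exceptional. -/

open Polynomial Finset
open scoped Real BigOperators

namespace EK75

theorem exc (k : ℕ) (hk : 1 ≤ k) : ∃ r : ℕ, 1 ≤ r ∧ ∀ C5 : ℝ, ∃ A b0 : ℝ, 1 ≤ A ∧ 1 ≤ b0 ∧
    ∀ (H E : ℝ) (g : Fin r → ℤ[X]), 2 ≤ H → H ^ A ≤ E → (∀ i, (g i).Monic) →
    (∀ i, (g i).natDegree = k) → (∀ i, HtLe (g i) H) → SuccIrr g →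
    ∃ i, C5 ≤ Ssum (rhoR (g i)) E (E ^ b0) := by
  have hkf : 1 ≤ k.factorial := k.factorial_pos
  refine ⟨4 * k.factorial * k, ?_, fun C5 => ?_⟩
  · nlinarith [Nat.mul_le_mul hkf hk]
  set r := 4 * k.factorial * k with hr
  have hr1 : 1 ≤ r := by
    rw [hr]; nlinarith [Nat.mul_le_mul hkf hk]
  obtain ⟨A1, hA1, hgal⟩ := gal_main k r hk hr1
  -- Mertens constants for all degrees up to `(k r)!`
  have hmu : ∀ d : ℕ, ∃ C : ℝ, 0 ≤ C ∧ (1 ≤ d → ∀ g : ℤ[X], g.Monic →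
    g.natDegree = d → Irreducible g → ∀ H : ℝ, 2 ≤ H → HtLe g H → ∀ Y : ℝ, 1 ≤ Y →
    Msum (rhoR g) Y ≤ Real.log Y + C * Real.log H) := by
    intro d
    by_cases hd : 1 ≤ d
    · obtain ⟨C, hC, h⟩ := mertens_upper d hd
      exact ⟨C, hC, fun _ => h⟩
    · exact ⟨0, le_rfl, fun h => absurd h hd⟩
  choose Cd hCd0 hCd using hmu
  set D := (k * r).factorial with hD
  set Cm : ℝ := ∑ d ∈ range (D + 1), Cd d with hCm
  have hCm0 : 0 ≤ Cm := sum_nonneg fun d _ => hCd0 d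
  have hCdm : ∀ d ≤ D, Cd d ≤ Cm := fun d hd =>
    single_le_sum (f := Cd) (fun i _ => hCd0 i) (mem_range.2 (by omega))
  obtain ⟨C2, hC2⟩ := mert2
  set A : ℝ := A1 + 2 * Cm * A1 with hA
  have hA1' : A1 ≤ A := by rw [hA]; nlinarith
  set B : ℝ := |C2| + 1 / 2 + r * |C5| with hB
  have hB0 : 0 ≤ B := by positivity
  refine ⟨A, Real.exp (4 / 3 * B), by linarith, Real.one_le_exp (by positivity), ?_⟩
  intro H E g hH hE hmon hdeg hht hirr
  set b0 := Real.exp (4 / 3 * B) with hb0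
  have hb01 : 1 ≤ b0 := Real.one_le_exp (by positivity)
  have hlogb0 : Real.log b0 = 4 / 3 * B := Real.log_exp _
  have hH0 : 0 < H := by linarith
  have hH1 : 1 ≤ H := by linarith
  have hlogH : 0 < Real.log H := Real.log_pos (by linarith)
  have hE2 : 2 ≤ E := by
    calc (2 : ℝ) ≤ H := hH
      _ = H ^ (1 : ℝ) := (Real.rpow_one H).symm
      _ ≤ H ^ A := Real.rpow_le_rpow_of_exponent_le hH1 (by linarith)
      _ ≤ E := hE
  have hE0 : 0 < E := by linarith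
  have hlogE : 0 < Real.log E := Real.log_pos (by linarith)
  have hlogEA : A * Real.log H ≤ Real.log E := by
    rw [← Real.log_rpow hH0]
    exact Real.log_le_log (Real.rpow_pos_of_pos hH0 _) hE
  have hEb : E ≤ E ^ b0 := by
    calc E = E ^ (1 : ℝ) := (Real.rpow_one E).symm
      _ ≤ E ^ b0 := Real.rpow_le_rpow_of_exponent_le (by linarith) hb01
  have hratio : Real.log (E ^ b0) / Real.log E = b0 := by
    rw [Real.log_rpow hE0]; field_simp
  obtain ⟨L, n, Δ, h, w, hn, hh, hΔ1, hΔ, hw, hmain⟩ := hgal H hH g hmon hdeg hht hirr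
  -- `Ssum` of the `h j`
  have hHA1 : 2 ≤ H ^ A1 := by
    calc (2 : ℝ) ≤ H := hH
      _ = H ^ (1 : ℝ) := (Real.rpow_one H).symm
      _ ≤ H ^ A1 := Real.rpow_le_rpow_of_exponent_le hH1 hA1
  have hS : ∀ j, Ssum (rhoR (h j)) E (E ^ b0) ≤ Real.log b0 + 2 := by
    intro j
    obtain ⟨h1, h2, h3, h4, h5⟩ := hh j
    have hm := hCd (h j).natDegree h3 (h j) h1 rfl h2 (H ^ A1) hHA1 h5
    have hlA1 : Real.log (H ^ A1) = A1 * Real.log H := Real.log_rpow hH0 _
    have hK : ∀ Y : ℝ, 1 ≤ Y → Msum (rhoR (h j)) Y ≤ Real.log Y + Cm * (A1 * Real.log H) := by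
      intro Y hY
      refine (hm Y hY).trans ?_
      rw [hlA1]
      have : Cd (h j).natDegree * (A1 * Real.log H) ≤ Cm * (A1 * Real.log H) :=
        mul_le_mul_of_nonneg_right (hCdm _ h4) (by positivity)
      linarith
    have h6 := abel_upper (rhoR (h j)) (fun p => Nat.cast_nonneg _) (Cm * (A1 * Real.log H))
      (by positivity) hK E (E ^ b0) hE2 hEb
    rw [hratio] at h6
    have h7 : 2 * (Cm * (A1 * Real.log H)) / Real.log E ≤ 1 := by
      rw [div_le_one hlogE]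
      calc 2 * (Cm * (A1 * Real.log H)) = (2 * Cm * A1) * Real.log H := by ring
        _ ≤ A * Real.log H := mul_le_mul_of_nonneg_right (by rw [hA]; linarith) hlogH.le
        _ ≤ Real.log E := hlogEA
    linarith
  -- primes in the range are not divisors of `Δ`
  have hpr : ∀ p ∈ prIoc E (E ^ b0), p.Prime ∧ E < p ∧ ¬ p ∣ Δ := by
    intro p hp
    obtain ⟨h1, h2⟩ := mem_filter.1 hp
    obtain ⟨h3, _⟩ := Finset.mem_Ioc.1 h1
    have h4 : E < p := (Nat.floor_lt hE0.le).1 h3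
    refine ⟨h2, h4, fun hd => ?_⟩
    have h5 : p ≤ Δ := Nat.le_of_dvd (by omega) hd
    have h6 : (p : ℝ) ≤ Δ := by exact_mod_cast h5
    have h7 : (Δ : ℝ) ≤ E := hΔ.trans ((Real.rpow_le_rpow_of_exponent_le hH1 hA1').trans hE)
    linarith
  have hn0 : (0 : ℝ) < n := by exact_mod_cast hn
  -- pointwise inequality
  have hpt : ∀ p ∈ prIoc E (E ^ b0), (1 : ℝ) / p ≤
      (∑ i, rhoR (g i) p / p) + (∑ j, (w j : ℝ) * (rhoR (h j) p / p)) / n := by
    intro p hp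
    obtain ⟨hp1, hp2, hp3⟩ := hpr p hp
    have hp0 : (0 : ℝ) < p := by exact_mod_cast hp1.pos
    have hg0 : ∀ i, 0 ≤ rhoR (g i) p / p := fun i => div_nonneg (Nat.cast_nonneg _) hp0.le
    have hh0 : 0 ≤ (∑ j, (w j : ℝ) * (rhoR (h j) p / p)) / n :=
      div_nonneg (sum_nonneg fun j _ => mul_nonneg (Nat.cast_nonneg _)
        (div_nonneg (Nat.cast_nonneg _) hp0.le)) hn0.le
    by_cases hall : ∀ i, rho (g i) p = 0
    · have h1 := hmain p hp1 hp3 hall
      have h2 : (n : ℝ) ≤ ∑ j, (w j : ℝ) * rhoR (h j) p := by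
        have : ((n : ℕ) : ℝ) ≤ ((∑ j, w j * rho (h j) p : ℕ) : ℝ) := by exact_mod_cast h1
        simpa [rhoR] using this
      have h3 : (∑ j, (w j : ℝ) * (rhoR (h j) p / p)) = (∑ j, (w j : ℝ) * rhoR (h j) p) / p := by
        rw [sum_div]
        exact sum_congr rfl fun j _ => by ring
      have h4 : (1 : ℝ) / p ≤ (∑ j, (w j : ℝ) * (rhoR (h j) p / p)) / n := by
        rw [h3, div_div, mul_comm (p : ℝ) n, ← div_div]
        exact div_le_div_of_nonneg_right ((one_le_div hn0).2 h2) hp0.le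
      have h5 : 0 ≤ ∑ i, rhoR (g i) p / p := sum_nonneg fun i _ => hg0 i
      linarith
    · push Not at hall
      obtain ⟨i, hi⟩ := hall
      have h1 : (1 : ℝ) ≤ rhoR (g i) p := by
        have : 1 ≤ rho (g i) p := Nat.one_le_iff_ne_zero.2 hi
        unfold rhoR
        exact_mod_cast this
      have h2 : (1 : ℝ) / p ≤ rhoR (g i) p / p := div_le_div_of_nonneg_right h1 hp0.le
      have h3 : rhoR (g i) p / p ≤ ∑ i, rhoR (g i) p / p :=
        single_le_sum (f := fun i => rhoR (g i) p / p) (fun i _ => hg0 i) (mem_univ i)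
      linarith
  -- sum over the primes
  have hsum : Ssum (fun _ => 1) E (E ^ b0) ≤
      (∑ i, Ssum (rhoR (g i)) E (E ^ b0)) +
        (∑ j, (w j : ℝ) * Ssum (rhoR (h j)) E (E ^ b0)) / n := by
    unfold Ssum
    calc ∑ p ∈ prIoc E (E ^ b0), (1 : ℝ) / p
        ≤ ∑ p ∈ prIoc E (E ^ b0), ((∑ i, rhoR (g i) p / p) +
          (∑ j, (w j : ℝ) * (rhoR (h j) p / p)) / n) := sum_le_sum hpt
      _ = (∑ p ∈ prIoc E (E ^ b0), ∑ i, rhoR (g i) p / p) +
          (∑ p ∈ prIoc E (E ^ b0), ∑ j, (w j : ℝ) * (rhoR (h j) p / p)) / n := by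
        rw [sum_add_distrib, ← sum_div]
      _ = (∑ i, ∑ p ∈ prIoc E (E ^ b0), rhoR (g i) p / p) +
          (∑ j, (w j : ℝ) * ∑ p ∈ prIoc E (E ^ b0), rhoR (h j) p / p) / n := by
        have e1 : (∑ p ∈ prIoc E (E ^ b0), ∑ i, rhoR (g i) p / (p : ℝ)) =
            ∑ i, ∑ p ∈ prIoc E (E ^ b0), rhoR (g i) p / (p : ℝ) := sum_comm
        have e2 : (∑ p ∈ prIoc E (E ^ b0), ∑ j, (w j : ℝ) * (rhoR (h j) p / p)) =
            ∑ j, (w j : ℝ) * ∑ p ∈ prIoc E (E ^ b0), rhoR (h j) p / p := by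
          rw [sum_comm]
          exact sum_congr rfl fun j _ => (mul_sum _ _ _).symm
        rw [e1, e2]
  have hw' : (∑ j, (w j : ℝ)) * 4 ≤ n := by
    have h1 : (4 * (∑ j, w j)) * (k.factorial * k) ≤ n * (k.factorial * k) := by
      calc (4 * (∑ j, w j)) * (k.factorial * k) = r * ∑ j, w j := by rw [hr]; ring
        _ ≤ k.factorial * k * n := hw
        _ = n * (k.factorial * k) := by ring
    have h2 : 4 * (∑ j, w j) ≤ n :=
      Nat.le_of_mul_le_mul_right h1 (Nat.mul_pos (by omega) (by omega))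
    have h3 : ((4 * (∑ j, w j) : ℕ) : ℝ) ≤ n := by exact_mod_cast h2
    push_cast at h3
    linarith
  have hlogb00 : 0 ≤ Real.log b0 := Real.log_nonneg hb01
  have hh' : (∑ j, (w j : ℝ) * Ssum (rhoR (h j)) E (E ^ b0)) / n ≤ (Real.log b0 + 2) / 4 := by
    rw [div_le_iff₀ hn0]
    calc ∑ j, (w j : ℝ) * Ssum (rhoR (h j)) E (E ^ b0)
        ≤ ∑ j, (w j : ℝ) * (Real.log b0 + 2) :=
          sum_le_sum fun j _ => mul_le_mul_of_nonneg_left (hS j) (Nat.cast_nonneg _)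
      _ = (∑ j, (w j : ℝ)) * (Real.log b0 + 2) := by rw [sum_mul]
      _ ≤ (n / 4) * (Real.log b0 + 2) :=
          mul_le_mul_of_nonneg_right (by linarith) (by linarith)
      _ = (Real.log b0 + 2) / 4 * n := by ring
  have hm2 := (abs_le.1 (hC2 E (E ^ b0) hE2 hEb)).1
  rw [hratio] at hm2
  have hfin : (r : ℝ) * |C5| ≤ ∑ i, Ssum (rhoR (g i)) E (E ^ b0) := by
    have h1 : C2 ≤ |C2| := le_abs_self _
    rw [hlogb0] at hh' hm2
    rw [hB] at hh' hm2
    linarith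
  by_contra hcon
  push Not at hcon
  have h1 : ∑ i, Ssum (rhoR (g i)) E (E ^ b0) < ∑ _i : Fin r, C5 := by
    refine sum_lt_sum_of_nonempty ?_ fun i _ => hcon i
    exact ⟨⟨0, by omega⟩, mem_univ _⟩
  rw [sum_const, card_univ, Fintype.card_fin, nsmul_eq_mul] at h1
  have h2 : (r : ℝ) * C5 ≤ r * |C5| := mul_le_mul_of_nonneg_left (le_abs_self _) (Nat.cast_nonneg _)
  linarith

end EK75
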