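import Pool.Agent.H75.EK.Maj
import Pool.Agent.H75.EK.Cdf

/-! Module FIN: the theorem. -/

open Polynomial Finset Filter Topology MeasureTheory ProbabilityTheory
open scoped Real BigOperators

namespace EK75

/-- number of distinct prime divisors of the integer `m` (`0` for `m = 0`) -/
def omegaZ (m : ℤ) : ℕ := m.natAbs.primeFactors.card

lemma fin_natDegree (f : ℝ[X]) (hf : ∃ j, 1 ≤ j ∧ Irrational (f.coeff j)) : 1 ≤ f.natDegree := by
  obtain ⟨j, hj, hirr⟩ := hf
  exact hj.trans (le_natDegree_of_ne_zero (fun h => hirr ⟨0, by simp [h]⟩))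

lemma fin_char (f : ℝ[X]) (hf : ∃ j, 1 ≤ j ∧ Irrational (f.coeff j)) (ξ : ℝ) :
    Tendsto (fun N : ℕ => (∑ n ∈ Icc 1 N, Complex.exp (Complex.I * ξ *
        (((omY f N n : ℝ) - L2 N) / Real.sqrt (L2 N) : ℝ))) / (N : ℂ)) atTop
      (𝓝 (Complex.exp (-(ξ : ℂ) ^ 2 / 2))) := by
  have hk := fin_natDegree f hf
  rw [Metric.tendsto_atTop]
  intro ε hε
  obtain ⟨N1, h1⟩ := minor f hk ξ (ε / 2) (by positivity)
  obtain ⟨N2, h2⟩ := major f hf ξ (ε / 2) (by positivity)
  refine ⟨max (max N1 N2) 1, fun N hN => ?_⟩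
  have hN1 : N1 ≤ N := ((le_max_left _ _).trans (le_max_left _ _)).trans hN
  have hN2 : N2 ≤ N := ((le_max_right _ _).trans (le_max_left _ _)).trans hN
  have hN3 : 1 ≤ N := (le_max_right _ _).trans hN
  obtain ⟨T, q, a, hT, hM, hNA⟩ := majD_exists f N hN3
  rw [dist_eq_norm]
  rcases le_or_gt (thr N) T with h | h
  · exact (h1 N T hN1 hNA h).trans_lt (by linarith)
  · exact (h2 N T q a hN2 hM hNA h).trans_lt (by linarith)

lemma fin_L2_tendsto : Tendsto L2 atTop atTop := by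
  unfold L2
  exact Real.tendsto_log_atTop.comp (Real.tendsto_log_atTop.comp tendsto_natCast_atTop_atTop)

lemma fin_bound (f : ℝ[X]) : ∃ C : ℝ, 1 ≤ C ∧ ∀ N n : ℕ, n ∈ Icc 1 N →
    |f.eval (n : ℝ)| + 1 ≤ C * (N : ℝ) ^ f.natDegree := by
  refine ⟨∑ i ∈ range (f.natDegree + 1), |f.coeff i| + 1, ?_, ?_⟩
  · have : 0 ≤ ∑ i ∈ range (f.natDegree + 1), |f.coeff i| := sum_nonneg fun _ _ => abs_nonneg _
    linarith
  · intro N n hn
    rw [mem_Icc] at hn
    have hN1 : (1 : ℝ) ≤ N := by exact_mod_cast hn.1.trans hn.2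
    have hn1 : (1 : ℝ) ≤ n := by exact_mod_cast hn.1
    have hnN : (n : ℝ) ≤ N := by exact_mod_cast hn.2
    have hNk : (1 : ℝ) ≤ (N : ℝ) ^ f.natDegree := one_le_pow₀ hN1
    rw [eval_eq_sum_range]
    calc |∑ i ∈ range (f.natDegree + 1), f.coeff i * (n : ℝ) ^ i| + 1
        ≤ ∑ i ∈ range (f.natDegree + 1), |f.coeff i| * (N : ℝ) ^ f.natDegree + 1 := by
          gcongr
          refine (abs_sum_le_sum_abs _ _).trans (sum_le_sum fun i hi => ?_)
          rw [abs_mul, abs_of_nonneg (by positivity : (0 : ℝ) ≤ (n : ℝ) ^ i)]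
          gcongr
          calc (n : ℝ) ^ i ≤ (N : ℝ) ^ i := by gcongr
            _ ≤ (N : ℝ) ^ f.natDegree := pow_le_pow_right₀ hN1 (by
                rw [mem_range] at hi; omega)
      _ ≤ (∑ i ∈ range (f.natDegree + 1), |f.coeff i| + 1) * (N : ℝ) ^ f.natDegree := by
          rw [add_mul, sum_mul]
          linarith

/-- a nonzero integer has at most `log |m| / log y` prime factors larger than `y` -/
lemma fin_large (m : ℤ) (hm : m ≠ 0) (y : ℝ) (hy : 1 < y) :
    (((prLe y).filter (fun p : ℕ => (p : ℤ) ∣ m)).card : ℝ) ≤ omegaZ m ∧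
    (omegaZ m : ℝ) - (((prLe y).filter (fun p : ℕ => (p : ℤ) ∣ m)).card : ℝ) ≤
      Real.log |(m : ℝ)| / Real.log y := by
  have hm' : m.natAbs ≠ 0 := Int.natAbs_ne_zero.mpr hm
  have hset : (prLe y).filter (fun p : ℕ => (p : ℤ) ∣ m) =
      m.natAbs.primeFactors.filter (fun p => p ≤ ⌊y⌋₊) := by
    ext p
    simp only [prLe, mem_filter, mem_range, Nat.mem_primeFactors, Int.natCast_dvd]
    constructor
    · rintro ⟨⟨h1, h2⟩, h3⟩
      exact ⟨⟨h2, h3, hm'⟩, by omega⟩
    · rintro ⟨⟨h1, h2, h3⟩, h4⟩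
      exact ⟨⟨by omega, h1⟩, h2⟩
  have hcard : (m.natAbs.primeFactors.filter (fun p => p ≤ ⌊y⌋₊)).card +
      (m.natAbs.primeFactors.filter (fun p => ¬ p ≤ ⌊y⌋₊)).card = omegaZ m := by
    unfold omegaZ
    exact card_filter_add_card_filter_not _
  rw [hset]
  refine ⟨by exact_mod_cast (card_filter_le _ _), ?_⟩
  have hr : (omegaZ m : ℝ) - ((m.natAbs.primeFactors.filter (fun p => p ≤ ⌊y⌋₊)).card : ℝ) =
      ((m.natAbs.primeFactors.filter (fun p => ¬ p ≤ ⌊y⌋₊)).card : ℝ) := by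
    rw [← hcard]; push_cast; ring
  rw [hr, le_div_iff₀ (Real.log_pos hy)]
  set r := (m.natAbs.primeFactors.filter (fun p => ¬ p ≤ ⌊y⌋₊)).card with hrdef
  have hprod : y ^ r ≤ |(m : ℝ)| := by
    have h1 : y ^ r ≤ ∏ p ∈ m.natAbs.primeFactors.filter (fun p => ¬ p ≤ ⌊y⌋₊), (p : ℝ) := by
      rw [hrdef, ← prod_const]
      refine prod_le_prod (fun _ _ => by linarith) (fun p hp => ?_)
      rw [mem_filter] at hp
      have : ⌊y⌋₊ < p := by omega
      exact ((Nat.floor_lt (by linarith)).mp this).le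
    have h2 : (∏ p ∈ m.natAbs.primeFactors.filter (fun p => ¬ p ≤ ⌊y⌋₊), p) ∣ m.natAbs :=
      (prod_dvd_prod_of_subset _ _ _ (filter_subset _ _)).trans (Nat.prod_primeFactors_dvd _)
    have h3 : ((∏ p ∈ m.natAbs.primeFactors.filter (fun p => ¬ p ≤ ⌊y⌋₊), p : ℕ) : ℝ) ≤
        (m.natAbs : ℝ) := by exact_mod_cast Nat.le_of_dvd (Nat.pos_of_ne_zero hm') h2
    have h4 : (m.natAbs : ℝ) = |(m : ℝ)| := by
      rw [Nat.cast_natAbs]; simp
    push_cast at h3
    linarith
  calc (r : ℝ) * Real.log y = Real.log (y ^ r) := by rw [Real.log_pow]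
    _ ≤ Real.log |(m : ℝ)| := Real.log_le_log (by positivity) hprod

lemma fin_log_yN (N : ℕ) (hN : 1 ≤ N) : Real.log (yN N) = (L2 N) ^ (-(1 : ℝ) / 4) * Real.log N := by
  unfold yN
  exact Real.log_rpow (by exact_mod_cast hN) _

lemma fin_exp_sub (ξ x y : ℝ) : ‖Complex.exp (Complex.I * ξ * (x : ℝ)) -
    Complex.exp (Complex.I * ξ * (y : ℝ))‖ ≤ |ξ| * |x - y| := by
  have h : ∀ z : ℝ, Complex.exp (Complex.I * ξ * z) = Complex.exp (((ξ * z : ℝ) : ℂ) * Complex.I) := by
    intro z; congr 1; push_cast; ring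
  rw [h x, h y]
  have h2 : Complex.exp (((ξ * x : ℝ) : ℂ) * Complex.I) - Complex.exp (((ξ * y : ℝ) : ℂ) * Complex.I) =
      Complex.exp (((ξ * y : ℝ) : ℂ) * Complex.I) *
        (Complex.exp (Complex.I * ((ξ * x - ξ * y : ℝ) : ℂ)) - 1) := by
    rw [mul_sub, mul_one, ← Complex.exp_add]
    congr 2
    push_cast; ring
  rw [h2, norm_mul, Complex.norm_exp_ofReal_mul_I, one_mul]
  refine (Real.norm_exp_I_mul_ofReal_sub_one_le).trans ?_
  rw [Real.norm_eq_abs, ← mul_sub, abs_mul]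

lemma fin_exp_norm (ξ x : ℝ) : ‖Complex.exp (Complex.I * ξ * (x : ℝ))‖ = 1 := by
  have h : Complex.exp (Complex.I * ξ * x) = Complex.exp (((ξ * x : ℝ) : ℂ) * Complex.I) := by
    congr 1; push_cast; ring
  rw [h, Complex.norm_exp_ofReal_mul_I]

open Classical in
theorem main_theorem (f : ℝ[X]) (hf : ∃ j, 1 ≤ j ∧ Irrational (f.coeff j)) (t : ℝ) :
    Tendsto (fun N : ℕ => (((Icc 1 N).filter (fun n : ℕ =>
        ((omegaZ ⌊f.eval (n : ℝ)⌋ : ℝ) - Real.log (Real.log N)) / Real.sqrt (Real.log (Real.log N))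
          ≤ t)).card : ℝ) / N) atTop (𝓝 ((gaussianReal 0 1).real (Set.Iic t))) := by
  have hk := fin_natDegree f hf
  have hdeg : 0 < f.degree := natDegree_pos_iff_degree_pos.mp hk
  refine cdf_of_char (fun N n => ((omegaZ ⌊f.eval (n : ℝ)⌋ : ℝ) - Real.log (Real.log N)) /
    Real.sqrt (Real.log (Real.log N))) (fun ξ => ?_) t
  have hchar := fin_char f hf ξ
  obtain ⟨C, hC1, hC⟩ := fin_bound f
  -- eventually the floor is nonzero
  have habs : Tendsto (fun n : ℕ => |f.eval (n : ℝ)|) atTop atTop :=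
    (Polynomial.abs_tendsto_atTop f hdeg).comp tendsto_natCast_atTop_atTop
  obtain ⟨n0, hn0⟩ := (habs.eventually_ge_atTop 1).exists_forall_of_atTop
  have hfl : ∀ n : ℕ, n0 ≤ n → ⌊f.eval (n : ℝ)⌋ ≠ 0 := by
    intro n hn h0
    have h1 := hn0 n hn
    rw [Int.floor_eq_zero_iff] at h0
    rw [abs_of_nonneg h0.1] at h1
    exact absurd h0.2 (not_lt.mpr h1)
  -- the difference tends to zero
  set k := f.natDegree with hkdef
  have hdiff : Tendsto (fun N : ℕ => (∑ n ∈ Icc 1 N, Complex.exp (Complex.I * ξ *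
        (((omegaZ ⌊f.eval (n : ℝ)⌋ : ℝ) - Real.log (Real.log N)) /
          Real.sqrt (Real.log (Real.log N)) : ℝ))) / (N : ℂ) -
      (∑ n ∈ Icc 1 N, Complex.exp (Complex.I * ξ *
        (((omY f N n : ℝ) - L2 N) / Real.sqrt (L2 N) : ℝ))) / (N : ℂ)) atTop (𝓝 0) := by
    have hbd : ∀ᶠ N : ℕ in atTop, ‖(∑ n ∈ Icc 1 N, Complex.exp (Complex.I * ξ *
        (((omegaZ ⌊f.eval (n : ℝ)⌋ : ℝ) - Real.log (Real.log N)) /
          Real.sqrt (Real.log (Real.log N)) : ℝ))) / (N : ℂ) -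
      (∑ n ∈ Icc 1 N, Complex.exp (Complex.I * ξ *
        (((omY f N n : ℝ) - L2 N) / Real.sqrt (L2 N) : ℝ))) / (N : ℂ)‖ ≤
        |ξ| * ((k + 1) * (L2 N) ^ (-(1 : ℝ) / 4)) + 2 * n0 * (N : ℝ)⁻¹ := by
      have e1 : ∀ᶠ N : ℕ in atTop, 1 ≤ L2 N := fin_L2_tendsto.eventually_ge_atTop 1
      have e2 : ∀ᶠ N : ℕ in atTop, Real.log C ≤ Real.log (N : ℝ) :=
        (Real.tendsto_log_atTop.comp tendsto_natCast_atTop_atTop).eventually_ge_atTop _
      have e3 : ∀ᶠ N : ℕ in atTop, 1 ≤ Real.log (N : ℝ) :=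
        (Real.tendsto_log_atTop.comp tendsto_natCast_atTop_atTop).eventually_ge_atTop _
      filter_upwards [e1, e2, e3, eventually_ge_atTop 1] with N h1 h2 h3 h4
      have hN0 : (0 : ℝ) < N := by exact_mod_cast h4
      rw [← sub_div, norm_div, Complex.norm_natCast, div_le_iff₀ hN0, ← sum_sub_distrib]
      have hL2 : Real.log (Real.log N) = L2 N := rfl
      have hyN : 1 < yN N := by
        unfold yN
        refine Real.one_lt_rpow ?_ (by positivity)
        by_contra hcon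
        have : Real.log (N : ℝ) ≤ 0 := Real.log_nonpos hN0.le (not_lt.mp hcon)
        linarith
      have hterm : ∀ n ∈ Icc 1 N, ‖Complex.exp (Complex.I * ξ *
          (((omegaZ ⌊f.eval (n : ℝ)⌋ : ℝ) - Real.log (Real.log N)) /
          Real.sqrt (Real.log (Real.log N)) : ℝ)) - Complex.exp (Complex.I * ξ *
          (((omY f N n : ℝ) - L2 N) / Real.sqrt (L2 N) : ℝ))‖ ≤
          |ξ| * ((k + 1) * (L2 N) ^ (-(1 : ℝ) / 4)) + (if n < n0 then 2 else 0) := by
        intro n hn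
        split_ifs with hlt
        · refine (norm_sub_le _ _).trans ?_
          rw [fin_exp_norm, fin_exp_norm]
          have : 0 ≤ |ξ| * ((k + 1) * (L2 N) ^ (-(1 : ℝ) / 4)) := by positivity
          linarith
        · have hne := hfl n (not_lt.mp hlt)
          have g12 := fin_large _ hne (yN N) hyN
          have g1 : ((omY f N n : ℕ) : ℝ) ≤ omegaZ ⌊f.eval (n : ℝ)⌋ := g12.1
          have g2 : (omegaZ ⌊f.eval (n : ℝ)⌋ : ℝ) - ((omY f N n : ℕ) : ℝ) ≤
            Real.log |((⌊f.eval (n : ℝ)⌋ : ℤ) : ℝ)| / Real.log (yN N) := g12.2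
          refine (fin_exp_sub ξ _ _).trans ?_
          rw [add_zero]
          refine mul_le_mul_of_nonneg_left ?_ (abs_nonneg _)
          rw [hL2, ← sub_div, sub_sub_sub_cancel_right, abs_div,
            abs_of_nonneg (Real.sqrt_nonneg (L2 N)), abs_of_nonneg (sub_nonneg.mpr g1)]
          have hsq : 0 < Real.sqrt (L2 N) := Real.sqrt_pos.mpr (by linarith)
          rw [div_le_iff₀ hsq]
          refine g2.trans ?_
          rw [fin_log_yN N h4]
          have hfl1 : |((⌊f.eval (n : ℝ)⌋ : ℤ) : ℝ)| ≤ C * (N : ℝ) ^ k := by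
            refine le_trans ?_ (hC N n hn)
            have h5 := Int.floor_le (f.eval (n : ℝ))
            have h6 := Int.lt_floor_add_one (f.eval (n : ℝ))
            rw [abs_le]
            constructor
            · have := neg_abs_le (f.eval (n : ℝ)); linarith
            · have := le_abs_self (f.eval (n : ℝ)); linarith
          have hpos : 0 < |((⌊f.eval (n : ℝ)⌋ : ℤ) : ℝ)| := by
            rw [abs_pos]; exact_mod_cast hne
          have hlog : Real.log |((⌊f.eval (n : ℝ)⌋ : ℤ) : ℝ)| ≤ (k + 1) * Real.log N := by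
            refine (Real.log_le_log hpos hfl1).trans ?_
            rw [Real.log_mul (by linarith) (by positivity), Real.log_pow]
            nlinarith
          have hL0 : 0 < L2 N := by linarith
          rw [div_le_iff₀ (by positivity)]
          have hs : Real.sqrt (L2 N) = (L2 N) ^ ((1 : ℝ) / 2) := Real.sqrt_eq_rpow _
          have hmul : (L2 N) ^ (-(1 : ℝ) / 4) * Real.sqrt (L2 N) * (L2 N) ^ (-(1 : ℝ) / 4) = 1 := by
            rw [hs, ← Real.rpow_add hL0, ← Real.rpow_add hL0]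
            norm_num
          calc Real.log |((⌊f.eval (n : ℝ)⌋ : ℤ) : ℝ)| ≤ (k + 1) * Real.log N := hlog
            _ = (k + 1) * Real.log N *
              ((L2 N) ^ (-(1 : ℝ) / 4) * Real.sqrt (L2 N) * (L2 N) ^ (-(1 : ℝ) / 4)) := by
                rw [hmul, mul_one]
            _ = _ := by ring
      refine (norm_sum_le _ _).trans ((sum_le_sum hterm).trans ?_)
      rw [sum_add_distrib, sum_const, Nat.card_Icc, Nat.add_sub_cancel, nsmul_eq_mul, add_mul,
        mul_comm (N : ℝ)]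
      have hcnt : ((((Icc 1 N).filter (fun n => n < n0)).card : ℕ) : ℝ) ≤ n0 := by
        have : ((Icc 1 N).filter (fun n => n < n0)).card ≤ n0 :=
          calc ((Icc 1 N).filter (fun n => n < n0)).card ≤ (range n0).card :=
                card_le_card (fun n hn => by rw [mem_filter] at hn; exact mem_range.mpr hn.2)
            _ = n0 := card_range _
        exact_mod_cast this
      have hsum : (∑ n ∈ Icc 1 N, (if n < n0 then (2 : ℝ) else 0)) ≤ 2 * n0 * (N : ℝ)⁻¹ * N := by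
        rw [sum_ite, sum_const_zero, add_zero, sum_const, nsmul_eq_mul, mul_assoc (2 * (n0 : ℝ)),
          inv_mul_cancel₀ hN0.ne']
        linarith
      linarith
    refine squeeze_zero_norm' hbd ?_
    have t1 : Tendsto (fun N : ℕ => (L2 N) ^ (-(1 : ℝ) / 4)) atTop (𝓝 0) := by
      have := (tendsto_rpow_neg_atTop (y := (1 : ℝ) / 4) (by norm_num)).comp fin_L2_tendsto
      refine this.congr (fun N => ?_)
      simp only [Function.comp]
      congr 1; ring
    have t2 : Tendsto (fun N : ℕ => ((N : ℝ))⁻¹) atTop (𝓝 0) :=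
      tendsto_inv_atTop_zero.comp tendsto_natCast_atTop_atTop
    have := ((t1.const_mul ((k : ℝ) + 1)).const_mul |ξ|).add (t2.const_mul (2 * (n0 : ℝ)))
    simpa using this
  have := hdiff.add hchar
  simpa using this

end EK75
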