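import Pool.Agent.H75.EK.Defs

/-! Module GAL1: independence of the roots of successively irreducible polynomials. -/

open Polynomial Finset NumberField
open scoped Real BigOperators

namespace EK75

/-- the product over `ℚ` of the first polynomials of a list -/
noncomputable def prodLt {r : ℕ} (g : Fin r → ℤ[X]) (i : ℕ) : ℚ[X] :=
  ∏ l ∈ (Finset.univ : Finset (Fin r)).filter (fun l => l.val < i), (g l).map (Int.castRingHom ℚ)

/-- `g i` is irreducible over the splitting field of the product of the `g l`, `l < i` -/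
def SuccIrr {r : ℕ} (g : Fin r → ℤ[X]) : Prop :=
  ∀ i : Fin r, Irreducible ((g i).map (algebraMap ℤ (SplittingField (prodLt g i.val))))

theorem gal1_irrQ {r : ℕ} (g : Fin r → ℤ[X]) (hg : ∀ i, (g i).Monic) (hind : SuccIrr g)
    (i : Fin r) : Irreducible ((g i).map (Int.castRingHom ℚ)) := by
  have h1 := hind i
  have h2 : (g i).map (algebraMap ℤ (SplittingField (prodLt g i.val))) =
      ((g i).map (Int.castRingHom ℚ)).map (algebraMap ℚ (SplittingField (prodLt g i.val))) := by
    rw [Polynomial.map_map]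
    congr 1
  rw [h2] at h1
  exact Monic.irreducible_of_irreducible_map (algebraMap ℚ (SplittingField (prodLt g i.val))) _
    ((hg i).map _) h1

theorem gal1_mem_rootSet {M : Type} [Field M] [NumberField M] {g : ℤ[X]} (hg : g.Monic) {x : M} :
    x ∈ g.rootSet M ↔ aeval x g = 0 :=
  by rw [mem_rootSet]; exact ⟨fun h => h.2, fun h => ⟨hg.ne_zero, h⟩⟩

/-- transitivity over a subfield over which `g` is irreducible -/
theorem gal1_trans_over {M : Type} [Field M] [NumberField M] [IsGalois ℚ M]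
    (Ω : IntermediateField ℚ M) (g : ℤ[X]) (hg : g.Monic)
    (hirr : Irreducible (g.map (algebraMap ℤ Ω))) (x x' : M) (hx : aeval x g = 0)
    (hx' : aeval x' g = 0) : ∃ σ : M ≃ₐ[ℚ] M, σ x = x' ∧ ∀ z ∈ Ω, σ z = z := by
  have hx1 : aeval x (g.map (algebraMap ℤ Ω)) = 0 := by rw [aeval_map_algebraMap, hx]
  have hx1' : aeval x' (g.map (algebraMap ℤ Ω)) = 0 := by rw [aeval_map_algebraMap, hx']
  have hmin : g.map (algebraMap ℤ Ω) = minpoly Ω x :=
    minpoly.eq_of_irreducible_of_monic hirr hx1 (hg.map _)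
  have halg : IsAlgebraic Ω x := Algebra.IsAlgebraic.isAlgebraic x
  have hn : Normal Ω M := inferInstance
  obtain ⟨σ, hσ⟩ := minpoly.exists_algEquiv_of_root' (K := Ω) (L := M) (x := x') (y := x)
    halg (by rw [← hmin]; exact hx1')
  refine ⟨AlgEquiv.restrictScalars ℚ σ, hσ, ?_⟩
  intro z hz
  exact σ.commutes (⟨z, hz⟩ : Ω)

theorem gal1_field {r : ℕ} (g : Fin r → ℤ[X]) (hind : SuccIrr g) (M : Type) [Field M]
    [NumberField M] (hsplit : ∀ i, ((g i).map (algebraMap ℤ M)).Splits) (j : Fin r) :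
    Irreducible ((g j).map (algebraMap ℤ
      (IntermediateField.adjoin ℚ ((prodLt g j.val).rootSet M)))) := by
  have hs : ((prodLt g j.val).map (algebraMap ℚ M)).Splits := by
    rw [prodLt, Polynomial.map_prod]
    apply Splits.prod
    intro l _
    have h0 : (algebraMap ℚ M).comp (Int.castRingHom ℚ) = algebraMap ℤ M := RingHom.ext_int _ _
    rw [Polynomial.map_map, h0]
    exact hsplit l
  have hsf : IsSplittingField ℚ (IntermediateField.adjoin ℚ ((prodLt g j.val).rootSet M))
    (prodLt g j.val) := IntermediateField.adjoin_rootSet_isSplittingField hs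
  let e := IsSplittingField.algEquiv (IntermediateField.adjoin ℚ ((prodLt g j.val).rootSet M))
    (prodLt g j.val)
  have h1 := hind j
  have h2 : (g j).map (algebraMap ℤ (IntermediateField.adjoin ℚ ((prodLt g j.val).rootSet M))) =
      Polynomial.mapEquiv e.symm.toRingEquiv
        ((g j).map (algebraMap ℤ (SplittingField (prodLt g j.val)))) := by
    rw [Polynomial.mapEquiv_apply, Polynomial.map_map]
    congr 1
    exact RingHom.ext_int _ _
  rw [h2]
  exact (MulEquiv.irreducible_iff (Polynomial.mapEquiv e.symm.toRingEquiv)).2 h1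

theorem gal1_lt {r : ℕ} (g : Fin r → ℤ[X]) (hg : ∀ i, (g i).Monic)
    (hind : SuccIrr g) (M : Type) [Field M] [NumberField M]
    [IsGalois ℚ M] (hsplit : ∀ i, ((g i).map (algebraMap ℤ M)).Splits)
    (htr : ∀ i, ∀ x x' : (g i).rootSet M, ∃ σ : M ≃ₐ[ℚ] M, σ x = x')
    (i j : Fin r) (hij : i < j) (x x' : (g i).rootSet M) (y y' : (g j).rootSet M) :
    ∃ σ : M ≃ₐ[ℚ] M, σ x = x' ∧ σ y = y' := by
  obtain ⟨σ1, h1⟩ := htr i x x'
  have hy : aeval (σ1 y : M) (g j) = 0 := by
    have h2 : aeval (y : M) (g j) = 0 := (gal1_mem_rootSet (hg j)).1 y.2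
    have h3 := Polynomial.aeval_algHom_apply (σ1.toAlgHom.restrictScalars ℤ) (y : M) (g j)
    rw [h2, map_zero] at h3
    exact h3
  have hy' : aeval (y' : M) (g j) = 0 := (gal1_mem_rootSet (hg j)).1 y'.2
  obtain ⟨σ2, h2, h3⟩ := gal1_trans_over _ (g j) (hg j) (gal1_field g hind M hsplit j)
    (σ1 y) y' hy hy'
  refine ⟨σ1.trans σ2, ?_, h2⟩
  have h4 : (x' : M) ∈ IntermediateField.adjoin ℚ ((prodLt g j.val).rootSet M) := by
    apply IntermediateField.subset_adjoin
    rw [mem_rootSet]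
    constructor
    · rw [prodLt, Finset.prod_ne_zero_iff]
      intro l _
      exact ((hg l).map _).ne_zero
    · rw [prodLt, map_prod, Finset.prod_eq_zero_iff]
      refine ⟨i, Finset.mem_filter.2 ⟨Finset.mem_univ _, hij⟩, ?_⟩
      have h5 : aeval (x' : M) (g i) = 0 := (gal1_mem_rootSet (hg i)).1 x'.2
      have h6 : (Int.castRingHom ℚ) = algebraMap ℤ ℚ := rfl
      rw [h6, aeval_map_algebraMap, h5]
  change σ2 (σ1 x) = x'
  rw [h1]
  exact h3 _ h4

/-- in any Galois number field containing all roots: transitivity on pairs of roots -/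
theorem gal_trans {r : ℕ} (k : ℕ) (hk : 1 ≤ k) (g : Fin r → ℤ[X]) (hg : ∀ i, (g i).Monic)
    (hd : ∀ i, (g i).natDegree = k) (hind : SuccIrr g) (M : Type) [Field M] [NumberField M]
    [IsGalois ℚ M] (hsplit : ∀ i, ((g i).map (algebraMap ℤ M)).Splits) :
    (∀ i, Fintype.card ((g i).rootSet M) = k) ∧
    (∀ i, ∀ x x' : (g i).rootSet M, ∃ σ : M ≃ₐ[ℚ] M, σ x = x') ∧
    (∀ i j, i ≠ j → ∀ x x' : (g i).rootSet M, ∀ y y' : (g j).rootSet M,
      ∃ σ : M ≃ₐ[ℚ] M, σ x = x' ∧ σ y = y') := by
  have htr : ∀ i, ∀ x x' : (g i).rootSet M, ∃ σ : M ≃ₐ[ℚ] M, σ x = x' := by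
    intro i x x'
    have hx : aeval (x : M) (g i) = 0 := (gal1_mem_rootSet (hg i)).1 x.2
    have hx' : aeval (x' : M) (g i) = 0 := (gal1_mem_rootSet (hg i)).1 x'.2
    have hirr := gal1_irrQ g hg hind i
    have h6 : (Int.castRingHom ℚ) = algebraMap ℤ ℚ := rfl
    have hx1 : aeval (x : M) ((g i).map (Int.castRingHom ℚ)) = 0 := by
      rw [h6, aeval_map_algebraMap, hx]
    have hx1' : aeval (x' : M) ((g i).map (Int.castRingHom ℚ)) = 0 := by
      rw [h6, aeval_map_algebraMap, hx']
    have hmin : (g i).map (Int.castRingHom ℚ) = minpoly ℚ (x : M) :=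
      minpoly.eq_of_irreducible_of_monic hirr hx1 ((hg i).map _)
    exact minpoly.exists_algEquiv_of_root' (K := ℚ) (L := M)
      (Algebra.IsAlgebraic.isAlgebraic (x : M)) (by rw [← hmin]; exact hx1')
  refine ⟨?_, htr, ?_⟩
  · intro i
    have hirr := gal1_irrQ g hg hind i
    have hsep : ((g i).map (Int.castRingHom ℚ)).Separable := hirr.separable
    have h1 : (((g i).map (Int.castRingHom ℚ)).map (algebraMap ℚ M)).Splits := by
      have h0 : (algebraMap ℚ M).comp (Int.castRingHom ℚ) = algebraMap ℤ M := RingHom.ext_int _ _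
      rw [Polynomial.map_map, h0]; exact hsplit i
    have h2 := card_rootSet_eq_natDegree hsep h1
    have h3 : ((g i).map (Int.castRingHom ℚ)).rootSet M = (g i).rootSet M := by
      ext z
      have h6 : (Int.castRingHom ℚ) = algebraMap ℤ ℚ := rfl
      rw [gal1_mem_rootSet (hg i), mem_rootSet, h6, aeval_map_algebraMap]
      exact ⟨fun h => h.2, fun h => ⟨((hg i).map _).ne_zero, h⟩⟩
    rw [(hg i).natDegree_map, hd i] at h2
    rw [← h2]
    exact Fintype.card_congr (Equiv.setCongr h3.symm)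
  · intro i j hij x x' y y'
    rcases lt_or_gt_of_ne hij with h | h
    · exact gal1_lt g hg hind M hsplit htr i j h x x' y y'
    · obtain ⟨σ, h1, h2⟩ := gal1_lt g hg hind M hsplit htr j i h y y' x x'
      exact ⟨σ, h2, h1⟩

end EK75
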