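import Pool.Agent.H75.EK.Gal2

/-! Module GAL3: Frobenius elements and roots modulo `p`. -/

open Polynomial Finset NumberField
open scoped Real BigOperators

namespace EK75

variable (M : Type) [Field M] [NumberField M] [IsGalois ℚ M]

theorem gal3_under (P : Ideal (𝓞 M)) (hP : P.IsPrime) (p : ℕ) (hp : p.Prime)
    (hpP : (p : 𝓞 M) ∈ P) : P.under ℤ = Ideal.span {(p : ℤ)} := by
  have hmax : (Ideal.span {(p : ℤ)}).IsMaximal := by
    have : Prime (p : ℤ) := Nat.prime_iff_prime_int.1 hp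
    exact PrincipalIdealRing.isMaximal_of_irreducible this.irreducible
  refine (hmax.eq_of_le (Ideal.IsPrime.ne_top (hP.under ℤ)) ?_).symm
  rw [Ideal.span_singleton_le_iff_mem, Ideal.mem_comap]
  simpa using hpP

/-- existence of a Frobenius element -/
theorem frob_exists (p : ℕ) (hp : p.Prime) : ∃ (P : Ideal (𝓞 M)) (φ : M ≃ₐ[ℚ] M), P.IsPrime ∧
    (p : 𝓞 M) ∈ P ∧ ∀ x : 𝓞 M, φ • x - x ^ p ∈ P := by
  have hne : Ideal.span {(p : 𝓞 M)} ≠ ⊤ := by
    rw [Ne, Ideal.span_singleton_eq_top]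
    intro h
    rw [NumberField.isUnit_iff_norm] at h
    have h1 : (Algebra.norm ℚ ((p : 𝓞 M) : M)) = (p : ℚ) ^ Module.finrank ℚ M := by
      have : (((p : 𝓞 M) : M)) = algebraMap ℚ M p := by simp
      rw [this, Algebra.norm_algebraMap]
    have h2 : ((RingOfIntegers.norm ℚ (p : 𝓞 M) : 𝓞 ℚ) : ℚ) = (p : ℚ) ^ Module.finrank ℚ M := by
      rw [← h1]; rfl
    rw [h2] at h
    have hp1 : (1 : ℚ) < p := by exact_mod_cast hp.one_lt
    have h3 : (1 : ℚ) < (p : ℚ) ^ Module.finrank ℚ M :=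
      one_lt_pow₀ hp1 (Module.finrank_pos).ne'
    rw [abs_of_pos (by linarith)] at h
    linarith
  obtain ⟨P, hmax, hle⟩ := Ideal.exists_le_maximal _ hne
  have hpP : (p : 𝓞 M) ∈ P := hle (Ideal.mem_span_singleton_self _)
  obtain ⟨φ, hφ⟩ := IsArithFrobAt.exists_of_isInvariant ℤ (M ≃ₐ[ℚ] M) P
  refine ⟨P, φ, hmax.isPrime, hpP, ?_⟩
  intro x
  have h1 := hφ x
  have h2 : Nat.card (ℤ ⧸ P.under ℤ) = p := by
    rw [gal3_under M P hmax.isPrime p hp hpP]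
    have := Nat.card_congr (Int.quotientSpanNatEquivZMod p).toEquiv
    rw [this, Nat.card_zmod]
  rw [h2] at h1
  exact h1

variable {M} in
theorem gal3_res (p : ℕ) (hp : p.Prime) (P : Ideal (𝓞 M)) (hP : P.IsPrime) (hpP : (p : 𝓞 M) ∈ P)
    (z : 𝓞 M) (hz : z - z ^ p ∈ P) : ∃ r ∈ range p, z - (r : 𝓞 M) ∈ P := by
  have : Fact p.Prime := ⟨hp⟩
  have hchar : CharP (𝓞 M ⧸ P) p := by
    rw [CharP.charP_iff_prime_eq_zero hp]
    have : Ideal.Quotient.mk P (p : 𝓞 M) = 0 := Ideal.Quotient.eq_zero_iff_mem.2 hpP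
    simpa using this
  let f : ZMod p →+* (𝓞 M ⧸ P) := ZMod.castHom (dvd_refl p) _
  set zb : 𝓞 M ⧸ P := Ideal.Quotient.mk P z with hzb
  have hz' : zb ^ p - zb = 0 := by
    have h1 : Ideal.Quotient.mk P (z - z ^ p) = 0 := Ideal.Quotient.eq_zero_iff_mem.2 hz
    rw [map_sub, map_pow, ← hzb] at h1
    rw [← neg_sub, h1, neg_zero]
  have hroots : ((X ^ p - X : (ZMod p)[X]).roots) = Finset.univ.val := by
    have := FiniteField.roots_X_pow_card_sub_X (ZMod p)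
    rwa [ZMod.card p] at this
  have hmon : (X ^ p - X : (ZMod p)[X]).Monic :=
    monic_X_pow_sub (by rw [degree_X]; exact_mod_cast hp.one_lt)
  have hcard : ((X ^ p - X : (ZMod p)[X]).roots).card = (X ^ p - X : (ZMod p)[X]).natDegree := by
    rw [hroots, FiniteField.X_pow_card_sub_X_natDegree_eq _ hp.one_lt]
    have : (Finset.univ : Finset (ZMod p)).card = p := by rw [Finset.card_univ, ZMod.card]
    exact this
  have hprod := prod_multiset_X_sub_C_of_monic_of_roots_card_eq hmon hcard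
  have h2 := congrArg (eval₂ f zb) hprod
  rw [hroots, eval₂_sub, eval₂_X_pow, eval₂_X, hz'] at h2
  have h3 : ∏ a : ZMod p, (zb - f a) = 0 := by
    have h4 : (Multiset.map (fun a : ZMod p => X - C a) Finset.univ.val).prod =
      ∏ a : ZMod p, (X - C a) := rfl
    rw [h4, eval₂_finsetProd] at h2
    simpa using h2
  obtain ⟨a, -, ha⟩ := Finset.prod_eq_zero_iff.1 h3
  refine ⟨a.val, Finset.mem_range.2 (ZMod.val_lt a), ?_⟩
  rw [← Ideal.Quotient.eq_zero_iff_mem, map_sub, map_natCast, ← hzb]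
  have h5 : f a = ((a.val : ℕ) : 𝓞 M ⧸ P) := by
    have : f ((a.val : ℕ) : ZMod p) = ((a.val : ℕ) : 𝓞 M ⧸ P) := map_natCast f _
    rwa [ZMod.natCast_zmod_val] at this
  rw [← h5]
  exact ha

variable {M} in
theorem gal3_root (p : ℕ) (hp : p.Prime) (P : Ideal (𝓞 M)) (hP : P.IsPrime)
    (hpP : (p : 𝓞 M) ∈ P) (g : ℤ[X]) (z : 𝓞 M) (hz : aeval z g = 0) (r : ℕ)
    (hr : z - (r : 𝓞 M) ∈ P) : (p : ℤ) ∣ g.eval (r : ℤ) := by
  have h1 : aeval (r : 𝓞 M) g ∈ P := by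
    have h2 : z - (r : 𝓞 M) ∣ aeval z g - aeval (r : 𝓞 M) g := by
      rw [← eval_map_algebraMap, ← eval_map_algebraMap]
      exact sub_dvd_eval_sub _ _ _
    obtain ⟨c, hc⟩ := h2
    rw [hz, zero_sub] at hc
    have h3 : aeval (r : 𝓞 M) g = -((z - (r : 𝓞 M)) * c) := by rw [← hc, neg_neg]
    rw [h3]
    exact P.neg_mem (Ideal.mul_mem_right _ _ hr)
  have h2 : aeval (r : 𝓞 M) g = algebraMap ℤ (𝓞 M) (g.eval (r : ℤ)) := by
    have : (r : 𝓞 M) = algebraMap ℤ (𝓞 M) (r : ℤ) := by simp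
    rw [this, aeval_algebraMap_apply]
    simp [aeval_def]
  rw [h2] at h1
  have h3 : g.eval (r : ℤ) ∈ P.under ℤ := h1
  rw [gal3_under M P hP p hp hpP, Ideal.mem_span_singleton] at h3
  exact h3

/-- a root fixed by Frobenius gives a root mod `p` -/
theorem frob_root (p : ℕ) (hp : p.Prime) (P : Ideal (𝓞 M)) (hP : P.IsPrime) (hpP : (p : 𝓞 M) ∈ P)
    (φ : M ≃ₐ[ℚ] M) (hφ : ∀ x : 𝓞 M, φ • x - x ^ p ∈ P) (g : ℤ[X]) (z : 𝓞 M) (hz : aeval z g = 0)
    (hfix : φ • z = z) : 1 ≤ rho g p := by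
  have h1 := hφ z
  rw [hfix] at h1
  obtain ⟨r, hr, hr'⟩ := gal3_res p hp P hP hpP z h1
  have h2 := gal3_root p hp P hP hpP g z hz r hr'
  rw [rho, Nat.one_le_iff_ne_zero, Finset.card_ne_zero]
  exact ⟨r, Finset.mem_filter.2 ⟨hr, h2⟩⟩

open Classical in
theorem frob_count (τ : M ≃ₐ[ℚ] M) (h : ℤ[X]) (β : 𝓞 M) (Δ : ℕ) (hc : CycGen M τ h β Δ)
    (p : ℕ) (hp : p.Prime) (hpΔ : ¬ p ∣ Δ) (P : Ideal (𝓞 M)) (hP : P.IsPrime) (hpP : (p : 𝓞 M) ∈ P)
    (φ : M ≃ₐ[ℚ] M) (hφ : ∀ x : 𝓞 M, φ • x - x ^ p ∈ P) :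
    ((Finset.univ : Finset (M ≃ₐ[ℚ] M)).filter
      (fun σ => σ⁻¹ * φ * σ ∈ Subgroup.zpowers τ)).card ≤ orderOf τ * rho h p := by
  set S := (Finset.univ : Finset (M ≃ₐ[ℚ] M)).filter
      (fun σ => σ⁻¹ * φ * σ ∈ Subgroup.zpowers τ) with hS
  have hex : ∀ σ ∈ S, ∃ r ∈ range p, σ • β - (r : 𝓞 M) ∈ P := by
    intro σ hσ
    have h1 : σ⁻¹ * φ * σ ∈ Subgroup.zpowers τ := (Finset.mem_filter.1 hσ).2
    rw [← hc.fix] at h1
    have h2 : φ • (σ • β) = σ • β := by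
      have h3 := congrArg (fun b => σ • b) h1
      simp only [smul_smul] at h3
      rw [smul_smul]
      have h4 : σ * (σ⁻¹ * φ * σ) = φ * σ := by group
      rwa [h4] at h3
    apply gal3_res p hp P hP hpP
    have h3 := hφ (σ • β)
    rwa [h2] at h3
  let r : (M ≃ₐ[ℚ] M) → ℕ := fun σ => if hσ : σ ∈ S then (hex σ hσ).choose else 0
  have hr : ∀ σ ∈ S, r σ ∈ range p ∧ σ • β - ((r σ : ℕ) : 𝓞 M) ∈ P := by
    intro σ hσ
    have : r σ = (hex σ hσ).choose := dif_pos hσ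
    rw [this]
    exact (hex σ hσ).choose_spec
  have himg : S.image r ⊆ (range p).filter (fun r : ℕ => (p : ℤ) ∣ h.eval (r : ℤ)) := by
    intro t ht
    obtain ⟨σ, hσ, rfl⟩ := Finset.mem_image.1 ht
    refine Finset.mem_filter.2 ⟨(hr σ hσ).1, ?_⟩
    refine gal3_root p hp P hP hpP h (σ • β) ?_ _ (hr σ hσ).2
    have h1 : aeval (σ • β) h = σ • (aeval β h) := by
      have := Polynomial.aeval_algHom_apply (MulSemiringAction.toAlgHom ℤ (𝓞 M) σ) β h
      exact this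
    rw [h1, hc.root, smul_zero]
  have hfib : ∀ t ∈ S.image r, (S.filter (fun σ => r σ = t)).card ≤ orderOf τ := by
    intro t ht
    obtain ⟨σ₀, hσ₀, rfl⟩ := Finset.mem_image.1 ht
    have hsub : S.filter (fun σ => r σ = r σ₀) ⊆
        ((Subgroup.zpowers τ : Set (M ≃ₐ[ℚ] M)).toFinset).image (fun g => σ₀ * g) := by
      intro σ hσ
      obtain ⟨hσS, hσr⟩ := Finset.mem_filter.1 hσ
      rw [Finset.mem_image]
      refine ⟨σ₀⁻¹ * σ, ?_, by group⟩
      rw [Set.mem_toFinset, SetLike.mem_coe, ← hc.fix]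
      have h1 : σ • β - σ₀ • β ∈ P := by
        have h2 := P.sub_mem (hr σ hσS).2 (hr σ₀ hσ₀).2
        rw [hσr] at h2
        have h3 : σ • β - ((r σ₀ : ℕ) : 𝓞 M) - (σ₀ • β - ((r σ₀ : ℕ) : 𝓞 M)) = σ • β - σ₀ • β := by
          ring
        rwa [h3] at h2
      have h2 := hc.sep P p hP hp hpP hpΔ σ σ₀ h1
      rw [mul_smul, h2, inv_smul_smul]
    refine (Finset.card_le_card hsub).trans (Finset.card_image_le.trans ?_)
    rw [Set.toFinset_card]
    have : Fintype.card (Subgroup.zpowers τ) = orderOf τ := Fintype.card_zpowers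
    exact le_of_eq this
  refine (Finset.card_le_mul_card_image S (orderOf τ) hfib).trans ?_
  exact Nat.mul_le_mul_left _ (Finset.card_le_card himg)

end EK75
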