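import Pool.Agent.H75.EK.Grp
import Pool.Agent.H75.EK.Gal1
import Pool.Agent.H75.EK.Gal3

/-! Module GAL: upper-bound Chebotarev for primes modulo which no `g i` has a root. -/

open Polynomial Finset NumberField
open scoped Real BigOperators

namespace EK75

theorem gal_bd (g : ℤ[X]) (hg : g.Monic) (H : ℝ) (hH : 2 ≤ H) (hh : HtLe g H) (z : ℂ)
    (hz : aeval z g = 0) : ‖z‖ ≤ H ^ 2 := by
  have hm : (g.map (Int.castRingHom ℂ)).Monic := hg.map _
  have hr : (g.map (Int.castRingHom ℂ)).IsRoot z := by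
    rw [IsRoot.def, eval_map]
    exact hz
  have h1 := hr.norm_lt_cauchyBound hm.ne_zero
  have h2 : (g.map (Int.castRingHom ℂ)).cauchyBound ≤ Real.toNNReal H + 1 := by
    rw [cauchyBound, hm.leadingCoeff, nnnorm_one, div_one]
    refine add_le_add ?_ le_rfl
    apply Finset.sup_le
    intro i _
    have h3 := hh i
    rw [← NNReal.coe_le_coe, Real.coe_toNNReal H (by linarith)]
    simp only [coeff_map, coe_nnnorm]
    have : ((Int.castRingHom ℂ) (g.coeff i)) = (((g.coeff i : ℤ) : ℝ) : ℂ) := by simp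
    rw [this, Complex.norm_real]
    exact h3
  have h3 : ((g.map (Int.castRingHom ℂ)).cauchyBound : ℝ) ≤ H + 1 := by
    have := NNReal.coe_le_coe.2 h2
    rwa [NNReal.coe_add, Real.coe_toNNReal H (by linarith), NNReal.coe_one] at this
  have h4 : ‖z‖ < ((g.map (Int.castRingHom ℂ)).cauchyBound : ℝ) := NNReal.coe_lt_coe.2 h1
  nlinarith

section

variable (M : Type) [Field M] [Algebra ℚ M] (g : ℤ[X])

/-- the Galois group acts on the roots -/
@[reducible] def galAct : MulAction (M ≃ₐ[ℚ] M) (g.rootSet M) where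
  smul σ x := ⟨σ x, by
    obtain ⟨x, hx⟩ := x
    rw [mem_rootSet'] at hx ⊢
    refine ⟨hx.1, ?_⟩
    have h1 : aeval (σ x) g = σ (aeval x g) := by
      have := Polynomial.aeval_algHom_apply (σ.toAlgHom.restrictScalars ℤ) x g
      exact this
    rw [h1, hx.2, map_zero]⟩
  one_smul x := Subtype.ext rfl
  mul_smul σ τ x := Subtype.ext rfl

theorem gal_pow (k : ℕ) (hc : Fintype.card (g.rootSet M) = k) (τ : M ≃ₐ[ℚ] M) (x : g.rootSet M) :
    (τ ^ k.factorial) (x : M) = x := by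
  classical
  let _ := galAct M g
  let pm : (M ≃ₐ[ℚ] M) →* Equiv.Perm (g.rootSet M) := MulAction.toPermHom _ _
  have h1 : pm (τ ^ k.factorial) = 1 := by
    rw [map_pow]
    have h2 : Fintype.card (Equiv.Perm (g.rootSet M)) = k.factorial := by
      rw [Fintype.card_perm, hc]
    rw [← h2]
    exact pow_card_eq_one
  have h3 : pm (τ ^ k.factorial) x = x := by rw [h1]; rfl
  exact congrArg Subtype.val h3

end

theorem gal_card_congr {α : Type*} (s : Finset α) (p q : α → Prop) (dp : DecidablePred p)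
    (dq : DecidablePred q) (h : ∀ a, p a ↔ q a) : (s.filter p).card = (s.filter q).card := by
  have : s.filter p = s.filter q := by
    ext a
    rw [Finset.mem_filter, Finset.mem_filter, h]
  rw [this]

open Classical in
theorem gal_core (k r D : ℕ) (hk : 1 ≤ k) (_hr : 1 ≤ r) (hkr : k * r ≤ D) (hD1 : 1 ≤ D) (A0 : ℝ)
    (hA0 : 1 ≤ A0)
    (M : Type) [Field M] [NumberField M] [IsGalois ℚ M]
    (hpoly : ∀ H : ℝ, 2 ≤ H → ∀ S : Finset (𝓞 M), S.card ≤ D →
      IntermediateField.adjoin ℚ ((fun z : 𝓞 M => (z : M)) '' (S : Set (𝓞 M))) = ⊤ →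
      (∀ z ∈ S, ∀ σ : M →+* ℂ, ‖σ (z : M)‖ ≤ H) →
      ∀ τ : M ≃ₐ[ℚ] M, ∃ (h : ℤ[X]) (β : 𝓞 M) (Δ : ℕ),
        CycGen M τ h β Δ ∧ HtLe h (H ^ A0) ∧ (Δ : ℝ) ≤ H ^ A0)
    (hfin : Module.finrank ℚ M ≤ D) (H : ℝ) (hH : 2 ≤ H)
    (g : Fin r → ℤ[X]) (hg : ∀ i, (g i).Monic) (hd : ∀ i, (g i).natDegree = k)
    (hht : ∀ i, HtLe (g i) H)
    (hgen : IntermediateField.adjoin ℚ {x : M | ∃ i, x ∈ (g i).rootSet M} = ⊤)
    (hcard : ∀ i, Fintype.card ((g i).rootSet M) = k)
    (htr1 : ∀ i, ∀ x x' : (g i).rootSet M, ∃ σ : M ≃ₐ[ℚ] M, σ x = x')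
    (htr2 : ∀ i j, i ≠ j → ∀ x x' : (g i).rootSet M, ∀ y y' : (g j).rootSet M,
      ∃ σ : M ≃ₐ[ℚ] M, σ x = x' ∧ σ y = y') :
    ∃ (L n Δ : ℕ) (h : Fin L → ℤ[X]) (w : Fin L → ℕ), 1 ≤ n ∧
      (∀ j, (h j).Monic ∧ Irreducible (h j) ∧ 1 ≤ (h j).natDegree ∧
        (h j).natDegree ≤ D ∧ HtLe (h j) (H ^ (2 * A0 * D))) ∧
      1 ≤ Δ ∧ (Δ : ℝ) ≤ H ^ (2 * A0 * D) ∧ r * ∑ j, w j ≤ k.factorial * k * n ∧
      ∀ p : ℕ, p.Prime → ¬ p ∣ Δ → (∀ i, rho (g i) p = 0) → n ≤ ∑ j, w j * rho (h j) p := by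
  have hH1 : 1 ≤ H := by linarith
  have hD1' : (1 : ℝ) ≤ (D : ℝ) := by exact_mod_cast hD1
  -- roots as algebraic integers
  have hint : ∀ i, ∀ x ∈ (g i).rootSet M, ∃ z : 𝓞 M, (z : M) = x ∧ aeval z (g i) = 0 := by
    intro i x hx
    have hx0 : aeval x (g i) = 0 := (mem_rootSet'.1 hx).2
    have hxi : IsIntegral ℤ x := ⟨g i, hg i, hx0⟩
    refine ⟨⟨x, hxi⟩, rfl, ?_⟩
    apply RingOfIntegers.ext
    have h3 : ((aeval (⟨x, hxi⟩ : 𝓞 M) (g i) : 𝓞 M) : M) = aeval x (g i) :=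
      (Polynomial.aeval_algebraMap_apply M (⟨x, hxi⟩ : 𝓞 M) (g i)).symm
    refine h3.trans ?_
    rw [hx0]
    exact (map_zero _).symm
  set S : Finset (𝓞 M) := Finset.univ.biUnion (fun i => ((g i).aroots (𝓞 M)).toFinset) with hS
  have hSmem : ∀ z : 𝓞 M, z ∈ S ↔ ∃ i, aeval z (g i) = 0 := by
    intro z
    rw [hS, Finset.mem_biUnion]
    constructor
    · rintro ⟨i, _, hi⟩
      rw [Multiset.mem_toFinset, mem_aroots'] at hi
      exact ⟨i, hi.2⟩
    · rintro ⟨i, hi⟩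
      refine ⟨i, Finset.mem_univ _, ?_⟩
      rw [Multiset.mem_toFinset, mem_aroots']
      exact ⟨((hg i).map _).ne_zero, hi⟩
  have hScard : S.card ≤ D := by
    refine le_trans (Finset.card_biUnion_le_card_mul _ _ k ?_) ?_
    · intro i _
      refine (Multiset.toFinset_card_le _).trans ?_
      refine (Polynomial.card_roots' _).trans ?_
      rw [(hg i).natDegree_map, hd i]
    · rw [Finset.card_univ, Fintype.card_fin, mul_comm]
      exact hkr
  have hSgen : IntermediateField.adjoin ℚ ((fun z : 𝓞 M => (z : M)) '' (S : Set (𝓞 M))) = ⊤ := by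
    rw [eq_top_iff, ← hgen]
    apply IntermediateField.adjoin.mono
    rintro x ⟨i, hx⟩
    obtain ⟨z, hz, hz0⟩ := hint i x hx
    exact ⟨z, Finset.mem_coe.2 ((hSmem z).2 ⟨i, hz0⟩), hz⟩
  have hSbd : ∀ z ∈ S, ∀ σ : M →+* ℂ, ‖σ (z : M)‖ ≤ H ^ 2 := by
    intro z hz σ
    obtain ⟨i, hi⟩ := (hSmem z).1 hz
    apply gal_bd (g i) (hg i) H hH (hht i)
    have h1 : aeval (z : M) (g i) = 0 := by
      have := Polynomial.aeval_algebraMap_apply M z (g i)
      rw [hi, map_zero] at this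
      exact this
    have h2 := Polynomial.aeval_algHom_apply σ.toIntAlgHom (z : M) (g i)
    rw [h1, map_zero] at h2
    exact h2
  have hH2 : (2 : ℝ) ≤ H ^ 2 := by nlinarith
  choose hh ββ ΔΔ hcyc hhHt hΔ using hpoly (H ^ 2) hH2 S hScard hSgen hSbd
  -- the set of fixed point free elements
  set FS : Finset (M ≃ₐ[ℚ] M) := (Finset.univ : Finset (M ≃ₐ[ℚ] M)).filter
    (fun τ => ∀ i, ∀ x : (g i).rootSet M, τ x ≠ x) with hFS
  have hGcard : Fintype.card (M ≃ₐ[ℚ] M) = Module.finrank ℚ M := by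
    rw [← Nat.card_eq_fintype_card]
    exact IsGalois.card_aut_eq_finrank ℚ M
  have hff : FS.card * r ≤ k * Fintype.card (M ≃ₐ[ℚ] M) := by
    let _ : ∀ i, MulAction (M ≃ₐ[ℚ] M) ((g i).rootSet M) := fun i => galAct M (g i)
    have h1 := ff_bound (G := M ≃ₐ[ℚ] M) r k (fun i => (g i).rootSet M)
      (fun i => by rw [← hcard i]) hk ?_ ?_
    · refine le_trans (le_of_eq ?_) h1
      refine congrArg (fun t => t * r) ?_
      refine gal_card_congr _ _ _ _ _ ?_
      intro τ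
      constructor
      · intro h i x hx
        exact h i x (congrArg Subtype.val hx)
      · intro h i x hx
        exact h i x (Subtype.ext hx)
    · intro i x x'
      obtain ⟨σ, hσ⟩ := htr1 i x x'
      exact ⟨σ, Subtype.ext hσ⟩
    · intro i j hij x x' y y'
      obtain ⟨σ, hσ, hσ'⟩ := htr2 i j hij x x' y y'
      exact ⟨σ, Subtype.ext hσ, Subtype.ext hσ'⟩
  have hord : ∀ τ : M ≃ₐ[ℚ] M, orderOf τ ≤ k.factorial := by
    intro τ
    apply Nat.le_of_dvd (Nat.factorial_pos k)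
    rw [orderOf_dvd_iff_pow_eq_one]
    have h1 : (⊤ : IntermediateField ℚ M) ≤ IntermediateField.fixedField
        (Subgroup.zpowers (τ ^ k.factorial)) := by
      rw [← hgen, IntermediateField.adjoin_le_iff]
      rintro x ⟨i, hx⟩
      have h2 := gal_pow M (g i) k (by rw [← hcard i]) τ ⟨x, hx⟩
      intro σ
      obtain ⟨σ, hσ⟩ := σ
      obtain ⟨m, rfl⟩ := Subgroup.mem_zpowers_iff.1 hσ
      change ((τ ^ k.factorial) ^ m) x = x
      have h3 : τ ^ k.factorial ∈ MulAction.stabilizer (M ≃ₐ[ℚ] M) x := h2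
      exact (MulAction.stabilizer (M ≃ₐ[ℚ] M) x).zpow_mem h3 m
    ext x
    have h2 := h1 (IntermediateField.mem_top (x := x)) ⟨τ ^ k.factorial, Subgroup.mem_zpowers _⟩
    exact h2
  -- the data
  refine ⟨FS.card, Fintype.card (M ≃ₐ[ℚ] M), ∏ τ ∈ FS, ΔΔ τ, fun j => hh (FS.equivFin.symm j),
    fun j => orderOf ((FS.equivFin.symm j : FS) : M ≃ₐ[ℚ] M), Fintype.card_pos, ?_, ?_, ?_, ?_, ?_⟩
  · intro j
    set τ : M ≃ₐ[ℚ] M := ((FS.equivFin.symm j : FS) : M ≃ₐ[ℚ] M) with hτ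
    have hdeg := (hcyc τ).deg
    have hpos : 0 < Module.finrank ℚ M := Module.finrank_pos
    refine ⟨(hcyc τ).monic, (hcyc τ).irr, ?_, ?_, ?_⟩
    · rcases Nat.eq_zero_or_pos (hh τ).natDegree with h0 | h0
      · rw [h0, zero_mul] at hdeg
        omega
      · exact h0
    · have h1 : 1 ≤ orderOf τ := orderOf_pos τ
      calc (hh τ).natDegree ≤ (hh τ).natDegree * orderOf τ := Nat.le_mul_of_pos_right _ h1
        _ ≤ D := by rw [hdeg]; exact hfin
    · intro i
      refine (hhHt τ i).trans ?_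
      rw [← Real.rpow_natCast, ← Real.rpow_mul (by linarith)]
      apply Real.rpow_le_rpow_of_exponent_le hH1
      push_cast
      nlinarith
  · refine Nat.one_le_iff_ne_zero.2 (Finset.prod_ne_zero_iff.2 fun τ _ => ?_)
    have := (hcyc τ).pos
    omega
  · push_cast
    have h1 : ∏ τ ∈ FS, ((ΔΔ τ : ℕ) : ℝ) ≤ ∏ τ ∈ FS, (H ^ 2) ^ A0 := by
      apply Finset.prod_le_prod
      · intro τ _; positivity
      · intro τ _; exact hΔ τ
    refine h1.trans ?_
    rw [Finset.prod_const]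
    have h2 : FS.card ≤ D := (Finset.card_le_univ FS).trans (by rw [hGcard]; exact hfin)
    have h3 : (1 : ℝ) ≤ (H ^ 2) ^ A0 := Real.one_le_rpow (by nlinarith) (by linarith)
    refine (pow_le_pow_right₀ h3 h2).trans ?_
    rw [← Real.rpow_natCast, ← Real.rpow_natCast, ← Real.rpow_mul (by positivity),
      ← Real.rpow_mul (by linarith)]
    apply Real.rpow_le_rpow_of_exponent_le hH1
    push_cast
    nlinarith
  · have h1 : ∑ j : Fin FS.card, orderOf ((FS.equivFin.symm j : FS) : M ≃ₐ[ℚ] M) ≤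
        FS.card * k.factorial := by
      refine (Finset.sum_le_card_nsmul _ _ k.factorial (fun j _ => hord _)).trans ?_
      simp
    calc r * ∑ j : Fin FS.card, orderOf ((FS.equivFin.symm j : FS) : M ≃ₐ[ℚ] M)
        ≤ r * (FS.card * k.factorial) := Nat.mul_le_mul_left _ h1
      _ = k.factorial * (FS.card * r) := by ring
      _ ≤ k.factorial * (k * Fintype.card (M ≃ₐ[ℚ] M)) := Nat.mul_le_mul_left _ hff
      _ = k.factorial * k * Fintype.card (M ≃ₐ[ℚ] M) := by ring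
  · intro p hp hpΔ hrho
    obtain ⟨P, φ, hP, hpP, hφ⟩ := frob_exists M p hp
    have hφF : ∀ i, ∀ x : (g i).rootSet M, φ x ≠ x := by
      intro i x hx
      obtain ⟨z, hz, hz0⟩ := hint i x x.2
      have h1 : φ • z = z := by
        apply RingOfIntegers.ext
        change φ (z : M) = (z : M)
        rw [hz, hx]
      have h2 := frob_root M p hp P hP hpP φ hφ (g i) z hz0 h1
      rw [hrho i] at h2
      omega
    have hconj : ∀ σ ∈ (Finset.univ : Finset (M ≃ₐ[ℚ] M)), σ⁻¹ * φ * σ ∈ FS := by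
      intro σ _
      rw [hFS, Finset.mem_filter]
      refine ⟨Finset.mem_univ _, ?_⟩
      intro i x hx
      let _ := galAct M (g i)
      apply hφF i (σ • x)
      have h1 : σ ((σ⁻¹ * φ * σ) (x : M)) = φ (σ (x : M)) := by
        change σ (σ⁻¹ (φ (σ (x : M)))) = _
        exact AlgEquiv.apply_symm_apply σ _
      rw [hx] at h1
      exact h1.symm
    have hcount := Finset.card_eq_sum_card_fiberwise (f := fun σ : M ≃ₐ[ℚ] M => σ⁻¹ * φ * σ)
      (s := Finset.univ) (t := FS) hconj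
    rw [Finset.card_univ] at hcount
    rw [hcount]
    have hsum : ∑ j : Fin FS.card, orderOf ((FS.equivFin.symm j : FS) : M ≃ₐ[ℚ] M) *
        rho (hh (FS.equivFin.symm j)) p = ∑ τ ∈ FS, orderOf τ * rho (hh τ) p := by
      rw [← Finset.sum_coe_sort FS]
      exact Equiv.sum_comp FS.equivFin.symm (fun τ : FS => orderOf (τ : M ≃ₐ[ℚ] M) * rho (hh τ) p)
    rw [hsum]
    apply Finset.sum_le_sum
    intro τ hτ
    have hpτ : ¬ p ∣ ΔΔ τ := fun hdiv => hpΔ (hdiv.trans (Finset.dvd_prod_of_mem _ hτ))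
    refine le_trans (Finset.card_le_card ?_)
      (frob_count M τ (hh τ) (ββ τ) (ΔΔ τ) (hcyc τ) p hp hpτ P hP hpP φ hφ)
    intro σ hσ
    rw [Finset.mem_filter] at hσ ⊢
    refine ⟨hσ.1, ?_⟩
    rw [hσ.2]
    exact Subgroup.mem_zpowers τ

theorem gal_exists (f : ℚ[X]) : ∃ (M : Type) (_ : Field M) (_ : CharZero M),
    IsSplittingField ℚ M f := by
  refine ⟨SplittingField f, inferInstance, inferInstance, ?_⟩
  have key : ∀ a b : Algebra ℚ (SplittingField f), @IsSplittingField ℚ (SplittingField f) _ _ a f →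
      @IsSplittingField ℚ (SplittingField f) _ _ b f := by
    intro a b h
    obtain rfl : a = b := Subsingleton.elim _ _
    exact h
  exact key _ _ (IsSplittingField.splittingField f)

theorem gal_main (k r : ℕ) (hk : 1 ≤ k) (hr : 1 ≤ r) : ∃ A : ℝ, 1 ≤ A ∧ ∀ H : ℝ, 2 ≤ H →
    ∀ g : Fin r → ℤ[X], (∀ i, (g i).Monic) → (∀ i, (g i).natDegree = k) → (∀ i, HtLe (g i) H) →
    SuccIrr g →
    ∃ (L n Δ : ℕ) (h : Fin L → ℤ[X]) (w : Fin L → ℕ), 1 ≤ n ∧
      (∀ j, (h j).Monic ∧ Irreducible (h j) ∧ 1 ≤ (h j).natDegree ∧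
        (h j).natDegree ≤ (k * r).factorial ∧ HtLe (h j) (H ^ A)) ∧
      1 ≤ Δ ∧ (Δ : ℝ) ≤ H ^ A ∧ r * ∑ j, w j ≤ k.factorial * k * n ∧
      ∀ p : ℕ, p.Prime → ¬ p ∣ Δ → (∀ i, rho (g i) p = 0) → n ≤ ∑ j, w j * rho (h j) p := by
  classical
  set D : ℕ := (k * r).factorial with hD
  have hD1 : 1 ≤ D := Nat.factorial_pos _
  obtain ⟨A0, hA0, hpoly⟩ := gal_poly D
  have hD1' : (1 : ℝ) ≤ (D : ℝ) := by exact_mod_cast hD1
  refine ⟨2 * A0 * D, by nlinarith, ?_⟩
  intro H hH g hg hd hht hind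
  obtain ⟨f, hfprod⟩ : ∃ f : ℚ[X], f = ∏ l, (g l).map (Int.castRingHom ℚ) := ⟨_, rfl⟩
  have hf0 : f ≠ 0 := by
    rw [hfprod, Finset.prod_ne_zero_iff]
    intro l _
    exact ((hg l).map _).ne_zero
  have hfdeg : f.natDegree = k * r := by
    rw [hfprod, natDegree_prod_of_monic _ _ (fun l _ => (hg l).map _)]
    have : ∀ l ∈ (Finset.univ : Finset (Fin r)),
        ((g l).map (Int.castRingHom ℚ)).natDegree = k := by
      intro l _
      rw [(hg l).natDegree_map, hd l]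
    rw [Finset.sum_congr rfl this]
    simp [mul_comm]
  have hdvd : ∀ i, (g i).map (Int.castRingHom ℚ) ∣ f := by
    intro i
    rw [hfprod]
    exact Finset.dvd_prod_of_mem _ (Finset.mem_univ i)
  obtain ⟨M, _, _, hspl⟩ := gal_exists f
  have hfd : FiniteDimensional ℚ M := IsSplittingField.finiteDimensional M f
  have hnf : NumberField M := { to_charZero := inferInstance, to_finiteDimensional := inferInstance }
  have hgal : IsGalois ℚ M := by
    have : Normal ℚ M := Normal.of_isSplittingField f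
    exact ⟨⟩
  have hfin : Module.finrank ℚ M ≤ D := by
    have hfact : Fact ((f.map (algebraMap ℚ M)).Splits) := ⟨IsSplittingField.splits M f⟩
    have h1 := Polynomial.Gal.galActionHom_injective f M
    have h2 : Fintype.card f.Gal ≤ Fintype.card (Equiv.Perm (f.rootSet M)) :=
      Fintype.card_le_of_injective _ h1
    rw [Fintype.card_perm] at h2
    have h3 : Fintype.card (f.rootSet M) ≤ k * r := by
      have := ncard_rootSet_le f M
      rw [hfdeg] at this
      rwa [← Nat.card_coe_set_eq, Nat.card_eq_fintype_card] at this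
    have h4 : Nat.card (M ≃ₐ[ℚ] M) = Module.finrank ℚ M := IsGalois.card_aut_eq_finrank ℚ M
    have h5 : Nat.card (M ≃ₐ[ℚ] M) = Fintype.card f.Gal := by
      rw [← Nat.card_eq_fintype_card]
      exact Nat.card_congr (IsSplittingField.algEquiv M f).autCongr.toEquiv
    rw [← h4, h5]
    exact h2.trans (Nat.factorial_le h3)
  have hsplit : ∀ i, ((g i).map (algebraMap ℤ M)).Splits := by
    intro i
    have h1 : (f.map (algebraMap ℚ M)).Splits := IsSplittingField.splits M f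
    refine h1.of_dvd ((Polynomial.map_ne_zero_iff (algebraMap ℚ M).injective).2 hf0) ?_
    have h3 : (g i).map (algebraMap ℤ M) =
        ((g i).map (Int.castRingHom ℚ)).map (algebraMap ℚ M) := by
      rw [Polynomial.map_map]
      congr 1
      exact Subsingleton.elim _ _
    rw [h3]
    exact Polynomial.map_dvd _ (hdvd i)
  obtain ⟨hcard, htr1, htr2⟩ := gal_trans k hk g hg hd hind M hsplit
  have hgen : IntermediateField.adjoin ℚ {x : M | ∃ i, x ∈ (g i).rootSet M} = ⊤ := by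
    have h1 := IsSplittingField.adjoin_rootSet M f
    have h2 : f.rootSet M ⊆ {x : M | ∃ i, x ∈ (g i).rootSet M} := by
      intro x hx
      have hx0 : aeval x f = 0 := (mem_rootSet'.1 hx).2
      rw [hfprod, map_prod, Finset.prod_eq_zero_iff] at hx0
      obtain ⟨i, _, hi⟩ := hx0
      refine ⟨i, ?_⟩
      rw [mem_rootSet']
      refine ⟨((hg i).map _).ne_zero, ?_⟩
      rw [← hi, aeval_def, aeval_def, eval₂_map]
      congr 1
      exact Subsingleton.elim _ _
    rw [← IntermediateField.toSubalgebra_injective.eq_iff, IntermediateField.top_toSubalgebra,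
      eq_top_iff, ← h1]
    refine (Algebra.adjoin_mono h2).trans ?_
    exact IntermediateField.algebra_adjoin_le_adjoin ℚ _
  obtain ⟨L, n, Δ, h, w, h1, h2, h3, h4, h5, h6⟩ := gal_core k r D hk hr
    (Nat.self_le_factorial _) hD1 A0 hA0 M
    (hpoly M hfin) hfin H hH g hg hd hht hgen hcard htr1 htr2
  exact ⟨L, n, Δ, h, w, h1, h2, h3, h4, h5, h6⟩

end EK75
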