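import Pool.Agent.H75.EK.Defs

/-! Module GAL2: generators of the fixed fields of cyclic subgroups, of controlled height. -/

open Polynomial Finset NumberField
open scoped Real BigOperators

namespace EK75

/-- Properties of an integral generator `β` (with minimal polynomial `h`) of the fixed field of `⟨τ⟩`;
`Δ` is a nonzero multiple of all primes modulo which two conjugates of `β` may collide. -/
structure CycGen (M : Type) [Field M] [NumberField M] (τ : M ≃ₐ[ℚ] M) (h : ℤ[X]) (β : 𝓞 M) (Δ : ℕ) :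
    Prop where
  monic : h.Monic
  irr : Irreducible h
  deg : h.natDegree * orderOf τ = Module.finrank ℚ M
  root : aeval β h = 0
  fix : ∀ σ : M ≃ₐ[ℚ] M, σ • β = β ↔ σ ∈ Subgroup.zpowers τ
  pos : 1 ≤ Δ
  sep : ∀ (P : Ideal (𝓞 M)) (p : ℕ), P.IsPrime → p.Prime → (p : 𝓞 M) ∈ P → ¬ p ∣ Δ →
    ∀ σ σ' : M ≃ₐ[ℚ] M, σ • β - σ' • β ∈ P → σ • β = σ' • β

section gal2

variable {M : Type} [Field M] [NumberField M]

theorem gal2_prod_le {ι : Type*} (s : Finset ι) (f : ι → ℝ) (C : ℝ) (h0 : ∀ i, 0 ≤ f i)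
    (h : ∀ i, f i ≤ C) : ∏ i ∈ s, f i ≤ C ^ s.card := by
  rw [← Finset.prod_const]
  exact Finset.prod_le_prod (fun i _ => h0 i) (fun i _ => h i)

theorem gal2_coe_smul (σ : M ≃ₐ[ℚ] M) (x : 𝓞 M) : ((σ • x : 𝓞 M) : M) = σ (x : M) := rfl

/-- a nonzero polynomial of degree at most `n` has a non-root among `0, ..., n` -/
theorem gal2_nonroot (P : M[X]) (hP : P ≠ 0) (n : ℕ) (hn : P.natDegree ≤ n) :
    ∃ c : ℕ, c ≤ n ∧ P.eval (c : M) ≠ 0 := by
  by_contra hcon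
  apply hP
  refine Polynomial.eq_zero_of_natDegree_lt_card_of_eval_eq_zero' P
    ((range (n + 1)).map ⟨fun c : ℕ => (c : M), Nat.cast_injective⟩) ?_ ?_
  · intro i hi
    rw [Finset.mem_map] at hi
    obtain ⟨c, hc, rfl⟩ := hi
    by_contra hne
    exact hcon ⟨c, Nat.lt_succ_iff.1 (Finset.mem_range.1 hc), hne⟩
  · rw [Finset.card_map, Finset.card_range]
    omega

/-- an automorphism which fixes a set of generators is trivial -/
theorem gal2_eq_one (S : Set M) (hgen : IntermediateField.adjoin ℚ S = ⊤) (σ : M ≃ₐ[ℚ] M)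
    (h : ∀ z ∈ S, σ z = z) : σ = 1 := by
  let E : IntermediateField ℚ M :=
    { carrier := {x | σ x = x}
      mul_mem' := by
        intro a b ha hb
        change σ (a * b) = a * b
        rw [map_mul, show σ a = a from ha, show σ b = b from hb]
      add_mem' := by
        intro a b ha hb
        change σ (a + b) = a + b
        rw [map_add, show σ a = a from ha, show σ b = b from hb]
      algebraMap_mem' := fun r => σ.commutes r
      inv_mem' := by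
        intro a ha
        change σ a⁻¹ = a⁻¹
        rw [map_inv₀, show σ a = a from ha] }
  have h1 : IntermediateField.adjoin ℚ S ≤ E := by
    rw [IntermediateField.adjoin_le_iff]
    intro z hz
    exact h z hz
  rw [hgen] at h1
  ext x
  have h2 : x ∈ E := h1 IntermediateField.mem_top
  exact h2

theorem gal2_card [IsGalois ℚ M] [Fintype (M ≃ₐ[ℚ] M)] :
    Fintype.card (M ≃ₐ[ℚ] M) = Module.finrank ℚ M := by
  rw [← Nat.card_eq_fintype_card]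
  exact IsGalois.card_aut_eq_finrank ℚ M

theorem gal2_gamma [IsGalois ℚ M] (D : ℕ) (hD : Module.finrank ℚ M ≤ D) (H : ℝ) (hH : 2 ≤ H)
    (S : Finset (𝓞 M)) (hS : S.card ≤ D)
    (hgen : IntermediateField.adjoin ℚ ((fun z : 𝓞 M => (z : M)) '' (S : Set (𝓞 M))) = ⊤)
    (hb : ∀ z ∈ S, ∀ σ : M →+* ℂ, ‖σ (z : M)‖ ≤ H) :
    ∃ γ : 𝓞 M, (∀ σ : M ≃ₐ[ℚ] M, σ • γ = γ → σ = 1) ∧
      ∀ φ : M →+* ℂ, ‖φ (γ : M)‖ ≤ ((D * (D ^ 2 + 1) ^ D : ℕ) : ℝ) * H := by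
  classical
  have : Fintype (M ≃ₐ[ℚ] M) := Fintype.ofFinite _
  let e := S.equivFin
  let P : (M ≃ₐ[ℚ] M) → M[X] := fun σ => ∑ z : S, C (σ ((z : 𝓞 M) : M) - ((z : 𝓞 M) : M)) * X ^ (e z : ℕ)
  have hP : ∀ σ : M ≃ₐ[ℚ] M, σ ≠ 1 → P σ ≠ 0 := by
    intro σ hσ hP0
    apply hσ
    refine gal2_eq_one _ hgen σ ?_
    rintro _ ⟨z, hz, rfl⟩
    have h1 : (P σ).coeff (e ⟨z, hz⟩ : ℕ) = 0 := by rw [hP0]; simp
    simp only [P, finsetSum_coeff, coeff_C_mul, coeff_X_pow] at h1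
    rw [Finset.sum_eq_single (⟨z, hz⟩ : S)] at h1
    · simp at h1
      exact sub_eq_zero.1 h1
    · intro b _ hb'
      have : (e ⟨z, hz⟩ : ℕ) ≠ (e b : ℕ) := by
        intro h2
        exact hb' (e.injective (Fin.ext h2)).symm
      simp [this]
    · intro hn; exact absurd (Finset.mem_univ _) hn
  have hdeg : ∀ σ : M ≃ₐ[ℚ] M, (P σ).natDegree ≤ D := by
    intro σ
    refine natDegree_sum_le_of_forall_le _ _ ?_
    intro z _
    refine (natDegree_C_mul_X_pow_le _ _).trans ?_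
    have := (e z).2
    omega
  have hcard : Fintype.card (M ≃ₐ[ℚ] M) ≤ D := by rw [gal2_card]; exact hD
  let Q : M[X] := ∏ σ ∈ (univ : Finset (M ≃ₐ[ℚ] M)).erase 1, P σ
  have hQ : Q ≠ 0 := by
    rw [Finset.prod_ne_zero_iff]
    intro σ hσ
    exact hP σ (Finset.ne_of_mem_erase hσ)
  have hQd : Q.natDegree ≤ D ^ 2 := by
    refine (natDegree_prod_le _ _).trans ?_
    refine (Finset.sum_le_card_nsmul _ _ D (fun σ _ => hdeg σ)).trans ?_
    rw [smul_eq_mul, pow_two]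
    refine Nat.mul_le_mul_right _ ?_
    exact (Finset.card_le_univ _).trans hcard
  obtain ⟨c, hc, hcQ⟩ := gal2_nonroot Q hQ (D ^ 2) hQd
  rw [eval_prod, Finset.prod_ne_zero_iff] at hcQ
  refine ⟨∑ z : S, (c : 𝓞 M) ^ (e z : ℕ) * (z : 𝓞 M), ?_, ?_⟩
  · intro σ hσ
    by_contra hne
    apply hcQ σ (Finset.mem_erase.2 ⟨hne, Finset.mem_univ _⟩)
    have h1 := congrArg (fun x : 𝓞 M => (x : M)) hσ
    simp only [gal2_coe_smul] at h1
    simp only [map_sum, map_mul, map_pow, map_natCast] at h1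
    simp only [P, eval_finsetSum, eval_mul, eval_C, eval_pow, eval_X]
    have h2 : ∑ z : S, (σ ((z : 𝓞 M) : M) - ((z : 𝓞 M) : M)) * (c : M) ^ (e z : ℕ) =
        ∑ z : S, (c : M) ^ (e z : ℕ) * σ ((z : 𝓞 M) : M) - ∑ z : S, (c : M) ^ (e z : ℕ) * ((z : 𝓞 M) : M) := by
      rw [← Finset.sum_sub_distrib]
      exact Finset.sum_congr rfl fun z _ => by ring
    rw [h2, sub_eq_zero]
    exact h1
  · intro φ
    simp only [map_sum, map_mul, map_pow, map_natCast]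
    refine (norm_sum_le _ _).trans ?_
    have hH0 : (0 : ℝ) ≤ H := by linarith
    have h1 : ∀ z : S, ‖(c : ℂ) ^ (e z : ℕ) * φ ((z : 𝓞 M) : M)‖ ≤ ((D ^ 2 + 1 : ℕ) : ℝ) ^ D * H := by
      intro z
      rw [norm_mul, norm_pow, Complex.norm_natCast]
      refine mul_le_mul ?_ (hb z z.2 φ) (norm_nonneg _) (by positivity)
      calc (c : ℝ) ^ (e z : ℕ) ≤ ((D ^ 2 + 1 : ℕ) : ℝ) ^ (e z : ℕ) := by
            refine pow_le_pow_left₀ (by positivity) ?_ _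
            exact_mod_cast hc.trans (Nat.le_succ _)
        _ ≤ ((D ^ 2 + 1 : ℕ) : ℝ) ^ D := by
            refine pow_le_pow_right₀ ?_ ?_
            · exact_mod_cast Nat.succ_le_succ (Nat.zero_le _)
            · have := (e z).2
              omega
    refine (Finset.sum_le_card_nsmul _ _ _ (fun z _ => h1 z)).trans ?_
    rw [nsmul_eq_mul, Finset.card_univ, Fintype.card_coe]
    have h2 : (S.card : ℝ) ≤ D := by exact_mod_cast hS
    push_cast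
    rw [mul_assoc]
    exact mul_le_mul_of_nonneg_right h2 (by positivity)

theorem gal2_comp_norm (τ : M ≃ₐ[ℚ] M) (x : 𝓞 M) (B : ℝ) (hB : ∀ φ : M →+* ℂ, ‖φ (x : M)‖ ≤ B)
    (φ : M →+* ℂ) : ‖φ ((τ • x : 𝓞 M) : M)‖ ≤ B :=
  hB (φ.comp (τ : M →+* M))

theorem gal2_beta [IsGalois ℚ M] (D : ℕ) (hD : Module.finrank ℚ M ≤ D) (γ : 𝓞 M)
    (hγ : ∀ σ : M ≃ₐ[ℚ] M, σ • γ = γ → σ = 1) (B : ℝ) (hB0 : 0 ≤ B)
    (hB : ∀ φ : M →+* ℂ, ‖φ (γ : M)‖ ≤ B) (τ : M ≃ₐ[ℚ] M) :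
    ∃ β : 𝓞 M, (∀ σ : M ≃ₐ[ℚ] M, σ • β = β ↔ σ ∈ Subgroup.zpowers τ) ∧
      ∀ φ : M →+* ℂ, ‖φ (β : M)‖ ≤ (((D ^ 2 + 1 : ℕ) : ℝ) + B) ^ D := by
  classical
  have : Fintype (M ≃ₐ[ℚ] M) := Fintype.ofFinite _
  have : Fintype (Subgroup.zpowers τ) := Fintype.ofFinite _
  let P : (M ≃ₐ[ℚ] M) → M[X] := fun σ => ∏ g : Subgroup.zpowers τ, (X - C (σ ((g : M ≃ₐ[ℚ] M) (γ : M))))
  have hcard : Fintype.card (M ≃ₐ[ℚ] M) ≤ D := by rw [gal2_card]; exact hD
  have hcard' : Fintype.card (Subgroup.zpowers τ) ≤ D :=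
    (Fintype.card_le_of_injective _ Subtype.val_injective).trans hcard
  have hdeg : ∀ σ : M ≃ₐ[ℚ] M, (P σ).natDegree ≤ D := by
    intro σ
    refine (natDegree_prod_le _ _).trans ?_
    refine (Finset.sum_le_card_nsmul _ _ 1 (fun g _ => ?_)).trans ?_
    · rw [natDegree_X_sub_C]
    · simpa using hcard'
  have hP : ∀ σ : M ≃ₐ[ℚ] M, σ ∉ Subgroup.zpowers τ → P 1 - P σ ≠ 0 := by
    intro σ hσ h0
    have h1 := congrArg (fun R : M[X] => R.eval (γ : M)) h0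
    simp only [eval_sub, eval_zero, P, eval_prod, eval_X, eval_C] at h1
    rw [sub_eq_zero] at h1
    have h2 : ∏ g : Subgroup.zpowers τ, ((γ : M) - (1 : M ≃ₐ[ℚ] M) ((g : M ≃ₐ[ℚ] M) (γ : M))) = 0 := by
      apply Finset.prod_eq_zero (Finset.mem_univ (1 : Subgroup.zpowers τ))
      simp
    rw [h2] at h1
    have h3 := h1.symm
    rw [Finset.prod_eq_zero_iff] at h3
    obtain ⟨g, _, hg⟩ := h3
    rw [sub_eq_zero] at hg
    have h4 : (σ * g : M ≃ₐ[ℚ] M) • γ = γ := by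
      apply RingOfIntegers.ext
      exact hg.symm
    have h5 := hγ _ h4
    apply hσ
    have h6 : σ = (g : M ≃ₐ[ℚ] M)⁻¹ := eq_inv_of_mul_eq_one_left h5
    rw [h6]
    exact Subgroup.inv_mem _ g.2
  let Q : M[X] := ∏ σ ∈ (univ : Finset (M ≃ₐ[ℚ] M)).filter (fun σ => σ ∉ Subgroup.zpowers τ), (P 1 - P σ)
  have hQ : Q ≠ 0 := by
    rw [Finset.prod_ne_zero_iff]
    intro σ hσ
    exact hP σ (Finset.mem_filter.1 hσ).2
  have hQd : Q.natDegree ≤ D ^ 2 := by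
    refine (natDegree_prod_le _ _).trans ?_
    refine (Finset.sum_le_card_nsmul _ _ D (fun σ _ => ?_)).trans ?_
    · exact (natDegree_sub_le _ _).trans (max_le (hdeg 1) (hdeg σ))
    · rw [smul_eq_mul, pow_two]
      refine Nat.mul_le_mul_right _ ?_
      exact (Finset.card_le_univ _).trans hcard
  obtain ⟨c, hc, hcQ⟩ := gal2_nonroot Q hQ (D ^ 2) hQd
  rw [eval_prod, Finset.prod_ne_zero_iff] at hcQ
  have hcoe : ∀ σ : M ≃ₐ[ℚ] M,
      ((σ • (∏ g : Subgroup.zpowers τ, ((c : 𝓞 M) - (g : M ≃ₐ[ℚ] M) • γ)) : 𝓞 M) : M) =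
        (P σ).eval (c : M) := by
    intro σ
    rw [gal2_coe_smul]
    simp only [P, eval_prod, eval_sub, eval_X, eval_C, map_prod, map_sub, map_natCast, gal2_coe_smul]
  refine ⟨∏ g : Subgroup.zpowers τ, ((c : 𝓞 M) - (g : M ≃ₐ[ℚ] M) • γ), ?_, ?_⟩
  · intro σ
    constructor
    · intro h
      by_contra hσ
      apply hcQ σ (Finset.mem_filter.2 ⟨Finset.mem_univ _, hσ⟩)
      rw [eval_sub, ← hcoe, ← hcoe, h, one_smul, sub_self]
    · intro hσ
      rw [Finset.smul_prod']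
      have h1 : ∀ g : Subgroup.zpowers τ, σ • ((c : 𝓞 M) - (g : M ≃ₐ[ℚ] M) • γ) =
          (c : 𝓞 M) - (((⟨σ, hσ⟩ * g : Subgroup.zpowers τ) : M ≃ₐ[ℚ] M)) • γ := by
        intro g
        rw [smul_sub, Subgroup.coe_mul, mul_smul]
        congr 1
        apply RingOfIntegers.ext
        rw [gal2_coe_smul]
        simp
      rw [Finset.prod_congr rfl fun g _ => h1 g]
      exact Equiv.prod_comp (Equiv.mulLeft (⟨σ, hσ⟩ : Subgroup.zpowers τ))
        (fun g => (c : 𝓞 M) - (g : M ≃ₐ[ℚ] M) • γ)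
  · intro φ
    simp only [map_prod, map_sub, map_natCast, norm_prod]
    have hbase : (1 : ℝ) ≤ ((D ^ 2 + 1 : ℕ) : ℝ) + B := by
      have : (1 : ℝ) ≤ ((D ^ 2 + 1 : ℕ) : ℝ) := by exact_mod_cast Nat.succ_le_succ (Nat.zero_le _)
      linarith
    have h1 : ∀ g : Subgroup.zpowers τ, ‖(c : ℂ) - φ (((g : M ≃ₐ[ℚ] M) • γ : 𝓞 M) : M)‖ ≤
        ((D ^ 2 + 1 : ℕ) : ℝ) + B := by
      intro g
      refine (norm_sub_le _ _).trans ?_
      rw [Complex.norm_natCast]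
      have h2 : (c : ℝ) ≤ ((D ^ 2 + 1 : ℕ) : ℝ) := by exact_mod_cast hc.trans (Nat.le_succ _)
      have h3 := gal2_comp_norm (g : M ≃ₐ[ℚ] M) γ B hB φ
      linarith
    refine (gal2_prod_le _ _ _ (fun g => norm_nonneg _) (fun g => h1 g)).trans ?_
    exact pow_le_pow_right₀ hbase (by simpa using hcard')

theorem gal2_minpoly (β : 𝓞 M) :
    minpoly ℚ (β : M) = (minpoly ℤ β).map (algebraMap ℤ ℚ) := by
  rw [← RingOfIntegers.minpoly_coe]
  exact minpoly.isIntegrallyClosed_eq_field_fractions' ℚ (RingOfIntegers.isIntegral_coe β)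

theorem gal2_deg [IsGalois ℚ M] (τ : M ≃ₐ[ℚ] M) (β : 𝓞 M)
    (hfix : ∀ σ : M ≃ₐ[ℚ] M, σ • β = β ↔ σ ∈ Subgroup.zpowers τ) :
    (minpoly ℤ β).natDegree * orderOf τ = Module.finrank ℚ M := by
  have hmon : (minpoly ℤ β).Monic := minpoly.monic (RingOfIntegers.isIntegral β)
  have h1 : (minpoly ℤ β).natDegree = (minpoly ℚ (β : M)).natDegree := by
    rw [gal2_minpoly, hmon.natDegree_map]
  have hint : IsIntegral ℚ (β : M) := Algebra.IsIntegral.isIntegral _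
  have h2 := IntermediateField.adjoin.finrank hint
  have h3 := IsGalois.card_fixingSubgroup_eq_finrank (IntermediateField.adjoin ℚ {(β : M)})
  have h4 : (IntermediateField.adjoin ℚ {(β : M)}).fixingSubgroup = Subgroup.zpowers τ := by
    ext σ
    rw [← hfix σ, IntermediateField.mem_fixingSubgroup_iff]
    constructor
    · intro h
      apply RingOfIntegers.ext
      exact h _ (IntermediateField.mem_adjoin_simple_self ℚ (β : M))
    · intro h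
      let E : IntermediateField ℚ M :=
        { carrier := {x | σ x = x}
          mul_mem' := by
            intro a b ha hb
            change σ (a * b) = a * b
            rw [map_mul, show σ a = a from ha, show σ b = b from hb]
          add_mem' := by
            intro a b ha hb
            change σ (a + b) = a + b
            rw [map_add, show σ a = a from ha, show σ b = b from hb]
          algebraMap_mem' := fun r => σ.commutes r
          inv_mem' := by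
            intro a ha
            change σ a⁻¹ = a⁻¹
            rw [map_inv₀, show σ a = a from ha] }
      have hE : IntermediateField.adjoin ℚ {(β : M)} ≤ E := by
        rw [IntermediateField.adjoin_le_iff, Set.singleton_subset_iff]
        exact congrArg (fun x : 𝓞 M => (x : M)) h
      intro x hx
      exact hE hx
  rw [h4, Nat.card_zpowers] at h3
  rw [h1, ← h2, h3]
  exact Module.finrank_mul_finrank ℚ _ M

theorem gal2_coeff (D : ℕ) (hD : Module.finrank ℚ M ≤ D) (β : 𝓞 M) (B : ℝ) (hB1 : 1 ≤ B)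
    (hB : ∀ φ : M →+* ℂ, ‖φ (β : M)‖ ≤ B) : HtLe (minpoly ℤ β) ((2 * B) ^ D) := by
  intro i
  have h1 := NumberField.Embeddings.coeff_bdd_of_norm_le hB i
  rw [gal2_minpoly, coeff_map] at h1
  have h2 : ‖(algebraMap ℤ ℚ) ((minpoly ℤ β).coeff i)‖ = |(((minpoly ℤ β).coeff i : ℤ) : ℝ)| := by
    rw [← Rat.norm_cast_real, Real.norm_eq_abs]
    simp
  rw [h2, max_eq_left hB1] at h1
  refine h1.trans ?_
  have h3 : ((Module.finrank ℚ M).choose (Module.finrank ℚ M / 2) : ℝ) ≤ 2 ^ D := by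
    have : (Module.finrank ℚ M).choose (Module.finrank ℚ M / 2) ≤ 2 ^ D :=
      (Nat.choose_le_two_pow _ _).trans (Nat.pow_le_pow_right (by norm_num) hD)
    exact_mod_cast this
  rw [mul_pow, mul_comm]
  exact mul_le_mul h3 (pow_le_pow_right₀ hB1 hD) (by positivity) (by positivity)

theorem gal2_Delta [IsGalois ℚ M] (D : ℕ) (hD : Module.finrank ℚ M ≤ D) (β : 𝓞 M) (B : ℝ)
    (hB1 : 1 ≤ B) (hB : ∀ φ : M →+* ℂ, ‖φ (β : M)‖ ≤ B) :
    ∃ Δ : ℕ, 1 ≤ Δ ∧ (Δ : ℝ) ≤ (2 * B) ^ (D ^ 3) ∧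
      ∀ (P : Ideal (𝓞 M)) (p : ℕ), P.IsPrime → p.Prime → (p : 𝓞 M) ∈ P → ¬ p ∣ Δ →
        ∀ σ σ' : M ≃ₐ[ℚ] M, σ • β - σ' • β ∈ P → σ • β = σ' • β := by
  classical
  have : Fintype (M ≃ₐ[ℚ] M) := Fintype.ofFinite _
  have hcard : Fintype.card (M ≃ₐ[ℚ] M) ≤ D := by rw [gal2_card]; exact hD
  let f : (M ≃ₐ[ℚ] M) → (M ≃ₐ[ℚ] M) → 𝓞 M := fun σ σ' =>
    if σ • β = σ' • β then 1 else σ • β - σ' • β
  let δ : 𝓞 M := ∏ σ : M ≃ₐ[ℚ] M, ∏ σ' : M ≃ₐ[ℚ] M, f σ σ'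
  have hδ : δ ≠ 0 := by
    rw [Finset.prod_ne_zero_iff]
    intro σ _
    rw [Finset.prod_ne_zero_iff]
    intro σ' _
    simp only [f]
    split_ifs with h
    · exact one_ne_zero
    · exact sub_ne_zero.2 h
  have hB2 : (1 : ℝ) ≤ 2 * B := by linarith
  have hfb : ∀ (φ : M →+* ℂ) (σ σ' : M ≃ₐ[ℚ] M), ‖φ ((f σ σ' : 𝓞 M) : M)‖ ≤ 2 * B := by
    intro φ σ σ'
    simp only [f]
    split_ifs with h
    · simp only [map_one, norm_one]; exact hB2
    · simp only [map_sub]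
      refine (norm_sub_le _ _).trans ?_
      have h1 := gal2_comp_norm σ β B hB φ
      have h2 := gal2_comp_norm σ' β B hB φ
      linarith
  have hδb : ∀ φ : M →+* ℂ, ‖φ (δ : M)‖ ≤ (2 * B) ^ (D ^ 2) := by
    intro φ
    simp only [δ, map_prod, norm_prod]
    have h1 : ∀ σ : M ≃ₐ[ℚ] M, ∏ σ' : M ≃ₐ[ℚ] M, ‖φ ((f σ σ' : 𝓞 M) : M)‖ ≤ (2 * B) ^ D := by
      intro σ
      refine (gal2_prod_le _ _ _ (fun σ' => norm_nonneg _) (fun σ' => hfb φ σ σ')).trans ?_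
      exact pow_le_pow_right₀ hB2 (by simpa using hcard)
    refine (gal2_prod_le _ _ _ (fun σ => Finset.prod_nonneg fun σ' _ => norm_nonneg _) (fun σ => h1 σ)).trans ?_
    rw [← pow_mul]
    refine pow_le_pow_right₀ hB2 ?_
    rw [pow_two]
    exact Nat.mul_le_mul_left _ (by simpa using hcard)
  refine ⟨Ideal.absNorm (Ideal.span {δ}), ?_, ?_, ?_⟩
  · rw [Nat.one_le_iff_ne_zero, Ideal.absNorm_span_singleton, Int.natAbs_ne_zero]
    exact Algebra.norm_ne_zero_iff.2 hδ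
  · have h1 : (Ideal.absNorm (Ideal.span {δ}) : ℝ) = ‖(algebraMap ℚ ℂ) (Algebra.norm ℚ (δ : M))‖ := by
      rw [Ideal.absNorm_span_singleton, ← Algebra.coe_norm_int]
      simp [Nat.cast_natAbs]
    rw [h1, Algebra.norm_eq_prod_embeddings ℚ ℂ (δ : M), norm_prod]
    refine (gal2_prod_le _ (fun φ : M →ₐ[ℚ] ℂ => ‖φ (δ : M)‖) ((2 * B) ^ (D ^ 2)) (fun φ => norm_nonneg _) (fun φ => hδb (φ : M →+* ℂ))).trans ?_
    rw [← pow_mul]
    refine pow_le_pow_right₀ hB2 ?_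
    rw [Finset.card_univ, AlgHom.card, pow_succ D 2]
    exact Nat.mul_le_mul_left _ hD
  · intro P p hP hp hpP hpΔ σ σ' hσ
    by_contra hne
    apply hP.ne_top
    have h1 : δ ∈ P := by
      have h2 : f σ σ' ∈ P := by
        simp only [f, if_neg hne]
        exact hσ
      have h3 : (∏ σ'' : M ≃ₐ[ℚ] M, f σ σ'') ∈ P :=
        P.mem_of_dvd (Finset.dvd_prod_of_mem _ (Finset.mem_univ σ')) h2
      exact P.mem_of_dvd (Finset.dvd_prod_of_mem (fun σ : M ≃ₐ[ℚ] M => ∏ σ'' : M ≃ₐ[ℚ] M, f σ σ'')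
        (Finset.mem_univ σ)) h3
    have h2 : ((Ideal.absNorm (Ideal.span {δ}) : ℕ) : 𝓞 M) ∈ P := by
      have h3 := Ideal.absNorm_mem (Ideal.span {δ})
      have h4 : Ideal.span {δ} ≤ P := by
        rw [Ideal.span_le, Set.singleton_subset_iff]
        exact h1
      exact h4 h3
    have h3 : IsCoprime (p : ℤ) ((Ideal.absNorm (Ideal.span {δ}) : ℕ) : ℤ) := by
      rw [Nat.isCoprime_iff_coprime]
      exact (Nat.Prime.coprime_iff_not_dvd hp).2 hpΔ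
    obtain ⟨u, v, huv⟩ := h3
    rw [Ideal.eq_top_iff_one]
    have h4 : (1 : 𝓞 M) = (u : 𝓞 M) * (p : 𝓞 M) +
        (v : 𝓞 M) * ((Ideal.absNorm (Ideal.span {δ}) : ℕ) : 𝓞 M) := by
      have := congrArg (fun x : ℤ => (x : 𝓞 M)) huv
      simp only [Int.cast_add, Int.cast_mul, Int.cast_natCast, Int.cast_one] at this
      exact this.symm
    rw [h4]
    exact P.add_mem (P.mul_mem_left _ hpP) (P.mul_mem_left _ h2)

end gal2

theorem gal_poly (D : ℕ) : ∃ A : ℝ, 1 ≤ A ∧ ∀ (M : Type) [Field M] [NumberField M] [IsGalois ℚ M],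
    Module.finrank ℚ M ≤ D → ∀ H : ℝ, 2 ≤ H → ∀ S : Finset (𝓞 M), S.card ≤ D →
    IntermediateField.adjoin ℚ ((fun z : 𝓞 M => (z : M)) '' (S : Set (𝓞 M))) = ⊤ →
    (∀ z ∈ S, ∀ σ : M →+* ℂ, ‖σ (z : M)‖ ≤ H) →
    ∀ τ : M ≃ₐ[ℚ] M, ∃ (h : ℤ[X]) (β : 𝓞 M) (Δ : ℕ),
      CycGen M τ h β Δ ∧ HtLe h (H ^ A) ∧ (Δ : ℝ) ≤ H ^ A := by
  set C1 : ℕ := D * (D ^ 2 + 1) ^ D with hC1
  set a : ℕ := D ^ 2 + 1 + C1 + 1 with ha
  set A : ℕ := (a * D + 1) * (D ^ 3 + D) + 1 with hA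
  refine ⟨(A : ℝ), by exact_mod_cast Nat.succ_le_succ (Nat.zero_le _), ?_⟩
  intro M _ _ _ hD H hH S hS hgen hb τ
  obtain ⟨γ, hγ, hγb⟩ := gal2_gamma D hD H hH S hS hgen hb
  have hH0 : (0 : ℝ) ≤ H := by linarith
  have hH1 : (1 : ℝ) ≤ H := by linarith
  obtain ⟨β, hβ, hβb⟩ := gal2_beta D hD γ hγ ((C1 : ℝ) * H) (by positivity) hγb τ
  set B : ℝ := (((D ^ 2 + 1 : ℕ) : ℝ) + (C1 : ℝ) * H) ^ D with hB
  have hbase1 : (1 : ℝ) ≤ ((D ^ 2 + 1 : ℕ) : ℝ) + (C1 : ℝ) * H := by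
    have : (1 : ℝ) ≤ ((D ^ 2 + 1 : ℕ) : ℝ) := by exact_mod_cast Nat.succ_le_succ (Nat.zero_le _)
    have : 0 ≤ (C1 : ℝ) * H := by positivity
    linarith
  have hB1 : 1 ≤ B := one_le_pow₀ hbase1
  have hbase : ((D ^ 2 + 1 : ℕ) : ℝ) + (C1 : ℝ) * H ≤ H ^ a := by
    have h1 : ((D ^ 2 + 1 + C1 : ℕ) : ℝ) ≤ H ^ (D ^ 2 + 1 + C1) := by
      have h2 : ((D ^ 2 + 1 + C1 : ℕ) : ℝ) ≤ (2 : ℝ) ^ (D ^ 2 + 1 + C1) := by
        exact_mod_cast (Nat.lt_two_pow_self).le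
      exact h2.trans (pow_le_pow_left₀ (by norm_num) hH _)
    calc ((D ^ 2 + 1 : ℕ) : ℝ) + (C1 : ℝ) * H ≤ ((D ^ 2 + 1 : ℕ) : ℝ) * H + (C1 : ℝ) * H := by
          have : ((D ^ 2 + 1 : ℕ) : ℝ) * 1 ≤ ((D ^ 2 + 1 : ℕ) : ℝ) * H :=
            mul_le_mul_of_nonneg_left hH1 (by positivity)
          linarith
      _ = ((D ^ 2 + 1 + C1 : ℕ) : ℝ) * H := by push_cast; ring
      _ ≤ H ^ (D ^ 2 + 1 + C1) * H := mul_le_mul_of_nonneg_right h1 hH0
      _ = H ^ a := by rw [ha, pow_succ H (D ^ 2 + 1 + C1)]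
  have h2B : 2 * B ≤ H ^ (a * D + 1) := by
    have h1 : B ≤ (H ^ a) ^ D := pow_le_pow_left₀ (by linarith) hbase _
    calc 2 * B ≤ H * (H ^ a) ^ D := mul_le_mul hH h1 (by linarith) hH0
      _ = H ^ (a * D + 1) := by rw [← pow_mul, pow_succ]; ring
  have hpow : ∀ m : ℕ, m ≤ D ^ 3 + D → (2 * B) ^ m ≤ H ^ (A : ℝ) := by
    intro m hm
    rw [Real.rpow_natCast]
    calc (2 * B) ^ m ≤ (H ^ (a * D + 1)) ^ m := pow_le_pow_left₀ (by linarith) h2B _
      _ = H ^ ((a * D + 1) * m) := by rw [← pow_mul]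
      _ ≤ H ^ A := by
          refine pow_le_pow_right₀ hH1 ?_
          rw [hA]
          exact (Nat.mul_le_mul_left _ hm).trans (Nat.le_succ _)
  obtain ⟨Δ, hΔ1, hΔb, hsep⟩ := gal2_Delta D hD β B hB1 hβb
  refine ⟨minpoly ℤ β, β, Δ, ⟨minpoly.monic (RingOfIntegers.isIntegral β),
    minpoly.irreducible (RingOfIntegers.isIntegral β), gal2_deg τ β hβ, minpoly.aeval ℤ β, hβ, hΔ1,
    hsep⟩, ?_, ?_⟩
  · intro i
    exact (gal2_coeff D hD β B hB1 hβb i).trans (hpow D (Nat.le_add_left _ _))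
  · exact hΔb.trans (hpow (D ^ 3) (Nat.le_add_right _ _))

end EK75
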