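import Pool.Agent.H75.EK.Defs

/-! Module GRP: few elements of a group act without fixed point on many independent transitive sets. -/

open Polynomial Finset
open scoped Real BigOperators

namespace EK75

open Classical in
theorem grp_burnside {G : Type*} [Group G] [Fintype G] {X : Type*} [Fintype X] [MulAction G X]
    [Nonempty X] (htr : ∀ x x' : X, ∃ g : G, g • x = x') :
    ∑ g : G, Fintype.card (MulAction.fixedBy X g) = Fintype.card G := by
  have h := MulAction.sum_card_fixedBy_eq_card_orbits_mul_card_group G X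
  rw [h]
  have h1 : Fintype.card (Quotient (MulAction.orbitRel G X)) = 1 := by
    rw [Fintype.card_eq_one_iff]
    obtain ⟨x0⟩ := (inferInstance : Nonempty X)
    refine ⟨Quotient.mk _ x0, ?_⟩
    intro y
    induction y using Quotient.inductionOn with
    | _ y =>
      apply Quotient.sound
      obtain ⟨g, hg⟩ := htr x0 y
      exact ⟨g, hg⟩
  rw [h1, one_mul]

open Classical in
theorem ff_bound {G : Type*} [Group G] [Fintype G] (r k : ℕ) (Xs : Fin r → Type*)
    [∀ i, Fintype (Xs i)] [∀ i, MulAction G (Xs i)] (hcard : ∀ i, Fintype.card (Xs i) = k)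
    (hk : 1 ≤ k) (htr : ∀ i, ∀ x x' : Xs i, ∃ g : G, g • x = x')
    (htr2 : ∀ i j, i ≠ j → ∀ x x' : Xs i, ∀ y y' : Xs j, ∃ g : G, g • x = x' ∧ g • y = y') :
    ((Finset.univ : Finset G).filter (fun g => ∀ i, ∀ x : Xs i, g • x ≠ x)).card * r ≤
      k * Fintype.card G := by
  rcases Nat.eq_zero_or_pos r with hr | hr
  · subst hr; simp
  have hne : ∀ i, Nonempty (Xs i) := fun i => by
    rw [← Fintype.card_pos_iff, hcard i]; omega
  set f : Fin r → G → ℤ := fun i g => (Fintype.card (MulAction.fixedBy (Xs i) g) : ℤ) with hf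
  have h1 : ∀ i, ∑ g : G, f i g = (Fintype.card G : ℤ) := by
    intro i
    have := grp_burnside (G := G) (X := Xs i) (htr i)
    simp only [hf]
    exact_mod_cast this
  have hfk : ∀ i g, f i g ≤ k := by
    intro i g
    simp only [hf]
    have : Fintype.card (MulAction.fixedBy (Xs i) g) ≤ Fintype.card (Xs i) := by
      exact Fintype.card_subtype_le _
    rw [hcard i] at this
    exact_mod_cast this
  have hf0 : ∀ i g, 0 ≤ f i g := fun i g => by simp only [hf]; positivity
  have h2 : ∀ i j, i ≠ j → ∑ g : G, f i g * f j g = (Fintype.card G : ℤ) := by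
    intro i j hij
    have hb := grp_burnside (G := G) (X := Xs i × Xs j) (by
      rintro ⟨x, y⟩ ⟨x', y'⟩
      obtain ⟨g, hg1, hg2⟩ := htr2 i j hij x x' y y'
      exact ⟨g, by simp [Prod.smul_def, hg1, hg2]⟩)
    have hc : ∀ (g : G) (inst : Fintype (MulAction.fixedBy (Xs i × Xs j) g)),
        @Fintype.card (MulAction.fixedBy (Xs i × Xs j) g) inst =
        Fintype.card (MulAction.fixedBy (Xs i) g) * Fintype.card (MulAction.fixedBy (Xs j) g) := by
      intro g inst
      rw [← Fintype.card_prod]
      refine Fintype.card_congr ?_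
      refine { toFun := fun z => (⟨z.1.1, ?_⟩, ⟨z.1.2, ?_⟩), invFun := fun z => ⟨(z.1.1, z.2.1), ?_⟩, left_inv := ?_, right_inv := ?_ }
      · have := z.2
        rw [MulAction.mem_fixedBy] at this ⊢
        exact congrArg Prod.fst this
      · have := z.2
        rw [MulAction.mem_fixedBy] at this ⊢
        exact congrArg Prod.snd this
      · have h1 := z.1.2
        have h2 := z.2.2
        rw [MulAction.mem_fixedBy] at h1 h2 ⊢
        exact Prod.ext h1 h2
      · intro z; rfl
      · intro z; rfl
    simp only [hf]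
    rw [← hb]
    push_cast
    refine Finset.sum_congr rfl fun g _ => ?_
    rw [hc g]; push_cast; rfl
  have h3 : ∀ i, ∑ g : G, f i g * f i g ≤ k * (Fintype.card G : ℤ) := by
    intro i
    rw [← h1 i, Finset.mul_sum]
    refine Finset.sum_le_sum fun g _ => ?_
    exact mul_le_mul_of_nonneg_right (hfk i g) (hf0 i g)
  set S := (Finset.univ : Finset G).filter (fun g => ∀ i, ∀ x : Xs i, g • x ≠ x) with hS
  have h4 : ∑ g : G, (∑ i, (f i g - 1)) ^ 2 ≤ r * ((k : ℤ) * Fintype.card G) := by
    have e1 : ∀ g : G, (∑ i, (f i g - 1)) ^ 2 = ∑ i, ∑ j, (f i g - 1) * (f j g - 1) := by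
      intro g
      rw [sq, Finset.sum_mul_sum]
    simp_rw [e1]
    rw [Finset.sum_comm]
    have e2 : ∀ i : Fin r, ∑ g : G, ∑ j, (f i g - 1) * (f j g - 1) ≤ (k : ℤ) * Fintype.card G := by
      intro i
      rw [Finset.sum_comm]
      have e3 : ∀ j : Fin r, ∑ g : G, (f i g - 1) * (f j g - 1) =
          ∑ g : G, f i g * f j g - (Fintype.card G : ℤ) := by
        intro j
        have : ∀ g : G, (f i g - 1) * (f j g - 1) = f i g * f j g - f i g - f j g + 1 := by
          intro g; ring
        simp_rw [this]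
        rw [Finset.sum_add_distrib, Finset.sum_sub_distrib, Finset.sum_sub_distrib, h1 i, h1 j]
        simp
      simp_rw [e3]
      rw [← Finset.add_sum_erase _ _ (Finset.mem_univ i)]
      have e4 : ∑ j ∈ Finset.univ.erase i, (∑ g : G, f i g * f j g - (Fintype.card G : ℤ)) = 0 := by
        refine Finset.sum_eq_zero fun j hj => ?_
        rw [h2 i j (Finset.ne_of_mem_erase hj).symm]; ring
      rw [e4]
      have := h3 i
      have h5 : (0 : ℤ) ≤ Fintype.card G := by positivity
      linarith
    calc ∑ i : Fin r, ∑ g : G, ∑ j, (f i g - 1) * (f j g - 1)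
        ≤ ∑ i : Fin r, (k : ℤ) * Fintype.card G := Finset.sum_le_sum fun i _ => e2 i
      _ = r * ((k : ℤ) * Fintype.card G) := by simp
  have h5 : (S.card : ℤ) * (r : ℤ) ^ 2 ≤ ∑ g : G, (∑ i, (f i g - 1)) ^ 2 := by
    calc (S.card : ℤ) * (r : ℤ) ^ 2 = ∑ g ∈ S, (r : ℤ) ^ 2 := by simp
      _ ≤ ∑ g ∈ S, (∑ i, (f i g - 1)) ^ 2 := by
          refine Finset.sum_le_sum fun g hg => ?_
          have hg' := (Finset.mem_filter.mp hg).2
          have : ∀ i, f i g = 0 := by
            intro i
            simp only [hf]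
            rw [Nat.cast_eq_zero, Fintype.card_eq_zero_iff]
            refine ⟨fun z => ?_⟩
            exact hg' i z.1 (MulAction.mem_fixedBy.mp z.2)
          simp [this]
      _ ≤ _ := by
          refine Finset.sum_le_sum_of_subset_of_nonneg (Finset.subset_univ _) ?_
          intro g _ _
          positivity
  have h6 : (S.card : ℤ) * (r : ℤ) ^ 2 ≤ r * ((k : ℤ) * Fintype.card G) := h5.trans h4
  have h7 : ((S.card : ℤ) * r) * r ≤ ((k : ℤ) * Fintype.card G) * r := by nlinarith [h6]
  have h8 : (S.card : ℤ) * r ≤ (k : ℤ) * Fintype.card G :=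
    le_of_mul_le_mul_right h7 (by exact_mod_cast hr)
  exact_mod_cast h8

end EK75
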