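import Pool.Agent.H75.EK.Pb3

/-! Module HITD: the number of ideals dividing an integer. -/

open Polynomial Finset NumberField
open scoped Real BigOperators

namespace EK75

/-- at most `n` ideals divide `I` -/
def hitd_FC {R : Type} [CommRing R] (I : Ideal R) (n : ℕ) : Prop :=
  {J : Ideal R | J ∣ I}.Finite ∧ {J : Ideal R | J ∣ I}.ncard ≤ n

theorem hitd_mul {R : Type} [CommRing R] [IsDedekindDomain R] {I J : Ideal R} {n m : ℕ}
    (hI : hitd_FC I n) (hJ : hitd_FC J m) : hitd_FC (I * J) (n * m) := by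
  have hsub : {K : Ideal R | K ∣ I * J} ⊆
      (fun t : Ideal R × Ideal R => t.1 * t.2) ''
        ({K : Ideal R | K ∣ I} ×ˢ {K : Ideal R | K ∣ J}) := by
    intro K hK
    obtain ⟨a, b, ha, hb, rfl⟩ := exists_dvd_and_dvd_of_dvd_mul (show K ∣ I * J from hK)
    exact ⟨(a, b), ⟨ha, hb⟩, rfl⟩
  have hfin : ({K : Ideal R | K ∣ I} ×ˢ {K : Ideal R | K ∣ J}).Finite := hI.1.prod hJ.1
  refine ⟨(hfin.image _).subset hsub, ?_⟩
  refine (Set.ncard_le_ncard hsub (hfin.image _)).trans ?_
  refine (Set.ncard_image_le hfin).trans ?_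
  rw [Set.ncard_prod]
  exact Nat.mul_le_mul hI.2 hJ.2

theorem hitd_one {R : Type} [CommRing R] [IsDedekindDomain R] : hitd_FC (1 : Ideal R) 1 := by
  have h : {J : Ideal R | J ∣ 1} = {1} := by
    ext J
    rw [Set.mem_ofPred_eq, Set.mem_singleton_iff]
    constructor
    · intro h
      have := isUnit_of_dvd_one h
      rwa [Ideal.isUnit_iff, ← Ideal.one_eq_top] at this
    · rintro rfl
      exact dvd_refl _
  rw [hitd_FC, h]
  exact ⟨Set.finite_singleton _, by rw [Set.ncard_singleton]⟩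

theorem hitd_pow {R : Type} [CommRing R] [IsDedekindDomain R] {P : Ideal R} (hP : Prime P)
    (v : ℕ) : hitd_FC (P ^ v) (v + 1) := by
  have hsub : {K : Ideal R | K ∣ P ^ v} ⊆ ((range (v + 1)).image (fun i => P ^ i) :
      Finset (Ideal R)) := by
    intro K hK
    obtain ⟨i, hi, h⟩ := (dvd_prime_pow hP v).1 (show K ∣ P ^ v from hK)
    rw [associated_iff_eq] at h
    rw [Finset.coe_image]
    exact ⟨i, by rw [Finset.mem_coe, Finset.mem_range]; omega, h.symm⟩
  refine ⟨(Finset.finite_toSet _).subset hsub, ?_⟩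
  refine (Set.ncard_le_ncard hsub (Finset.finite_toSet _)).trans ?_
  rw [Set.ncard_coe_finset]
  refine Finset.card_image_le.trans ?_
  rw [Finset.card_range]

theorem hitd_multiset {R : Type} [CommRing R] [IsDedekindDomain R] (v : ℕ)
    (s : Multiset (Ideal R)) : (∀ P ∈ s, Prime P) →
    hitd_FC ((s.map (fun P => P ^ v)).prod) ((v + 1) ^ s.card) := by
  induction s using Multiset.induction_on with
  | empty =>
    intro _
    simpa using hitd_one
  | cons P s ih =>
    intro h
    rw [Multiset.map_cons, Multiset.prod_cons, Multiset.card_cons, pow_succ']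
    exact hitd_mul (hitd_pow (h P (Multiset.mem_cons_self P s)) v)
      (ih (fun Q hQ => h Q (Multiset.mem_cons_of_mem hQ)))

theorem hitd_mono {R : Type} [CommRing R] {I : Ideal R} {n m : ℕ}
    (hI : hitd_FC I n) (h : n ≤ m) : hitd_FC I m := ⟨hI.1, hI.2.trans h⟩

theorem hitd_prime (K : Type) [Field K] [NumberField K] (D : ℕ) (hD : Module.finrank ℚ K ≤ D)
    (p : ℕ) (hp : p.Prime) (v : ℕ) :
    hitd_FC (Ideal.span {(p : 𝓞 K)} ^ v) ((v + 1) ^ D) := by
  classical
  have hp0 : (p : 𝓞 K) ≠ 0 := by exact_mod_cast hp.ne_zero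
  have hne : Ideal.span {(p : 𝓞 K)} ≠ ⊥ := by
    rwa [Ne, Ideal.span_singleton_eq_bot]
  set s := UniqueFactorizationMonoid.normalizedFactors (Ideal.span {(p : 𝓞 K)}) with hs
  have hprime : ∀ P ∈ s, Prime P := fun P hP =>
    UniqueFactorizationMonoid.prime_of_normalized_factor P hP
  have hprod : s.prod = Ideal.span {(p : 𝓞 K)} := Ideal.prod_normalizedFactors_eq_self hne
  have hnorm : (s.map Ideal.absNorm).prod = p ^ Module.finrank ℤ (𝓞 K) := by
    rw [← Ideal.absNorm_span_natCast, ← hprod, map_multiset_prod]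
  have hcard : s.card ≤ D := by
    have hdvd : ∀ t : Multiset (Ideal (𝓞 K)), (∀ P ∈ t, p ∣ Ideal.absNorm P) →
        p ^ t.card ∣ (t.map Ideal.absNorm).prod := by
      intro t
      induction t using Multiset.induction_on with
      | empty => intro _; simp
      | cons P t ih =>
        intro h
        rw [Multiset.card_cons, Multiset.map_cons, Multiset.prod_cons, pow_succ']
        exact mul_dvd_mul (h P (Multiset.mem_cons_self P t))
          (ih (fun Q hQ => h Q (Multiset.mem_cons_of_mem hQ)))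
    have h1 : ∀ P ∈ s, p ∣ Ideal.absNorm P := by
      intro P hP
      have h2 : Ideal.absNorm P ∣ p ^ Module.finrank ℤ (𝓞 K) := by
        rw [← hnorm]
        exact Multiset.dvd_prod (Multiset.mem_map_of_mem _ hP)
      obtain ⟨i, _, hi⟩ := (Nat.dvd_prime_pow hp).1 h2
      have hi0 : i ≠ 0 := by
        rintro rfl
        rw [pow_zero, Ideal.absNorm_eq_one_iff] at hi
        exact (hprime P hP).not_isUnit (Ideal.isUnit_iff.2 hi)
      rw [hi]
      exact dvd_pow_self p hi0
    have h3 := hdvd s h1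
    rw [hnorm, Nat.pow_dvd_pow_iff_le_right hp.one_lt] at h3
    have h4 : Module.finrank ℤ (𝓞 K) = Module.finrank ℚ K := RingOfIntegers.rank K
    omega
  have h5 := hitd_multiset v s hprime
  rw [Multiset.prod_map_pow, Multiset.map_id', hprod] at h5
  exact hitd_mono h5 (Nat.pow_le_pow_right (by omega) hcard)

theorem hitd_nat (K : Type) [Field K] [NumberField K] (D : ℕ) (hD : Module.finrank ℚ K ≤ D)
    (n : ℕ) (hn : n ≠ 0) : hitd_FC (Ideal.span {(n : 𝓞 K)}) (n.divisors.card ^ D) := by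
  have key : ∀ s : Finset ℕ, (∀ p ∈ s, p.Prime) →
      hitd_FC (Ideal.span {((∏ p ∈ s, p ^ n.factorization p : ℕ) : 𝓞 K)})
        (∏ p ∈ s, (n.factorization p + 1) ^ D) := by
    intro s
    induction s using Finset.induction_on with
    | empty =>
      intro _
      rw [Finset.prod_empty, Finset.prod_empty, Nat.cast_one, Ideal.span_singleton_one,
        ← Ideal.one_eq_top]
      exact hitd_one
    | insert p s hp ih =>
      intro h
      rw [Finset.prod_insert hp, Finset.prod_insert hp, Nat.cast_mul, Nat.cast_pow,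
        ← Ideal.span_singleton_mul_span_singleton, ← Ideal.span_singleton_pow]
      exact hitd_mul (hitd_prime K D hD p (h p (Finset.mem_insert_self p s)) _)
        (ih (fun q hq => h q (Finset.mem_insert_of_mem hq)))
  have h1 := key n.primeFactors (fun p hp => Nat.prime_of_mem_primeFactors hp)
  rw [Finset.prod_pow, ← Nat.card_divisors hn] at h1
  have h2 := Nat.prod_factorization_pow_eq_self hn
  rw [Finsupp.prod, Nat.support_factorization] at h2
  rwa [h2] at h1

theorem ideal_div_count (D : ℕ) (ε : ℝ) (hε : 0 < ε) : ∃ C : ℝ, ∀ (K : Type) [Field K]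
    [NumberField K], Module.finrank ℚ K ≤ D → ∀ a : ℤ, a ≠ 0 →
    {I : Ideal (𝓞 K) | I ∣ Ideal.span {(a : 𝓞 K)}}.Finite ∧
    ({I : Ideal (𝓞 K) | I ∣ Ideal.span {(a : 𝓞 K)}}.ncard : ℝ) ≤ C * |(a : ℝ)| ^ ε := by
  have hε' : 0 < ε / (D + 1) := by positivity
  obtain ⟨C, hC⟩ := tau_le (ε / (D + 1)) hε'
  refine ⟨C ^ (D + 1), ?_⟩
  intro K _ _ hD a ha
  have hn : a.natAbs ≠ 0 := Int.natAbs_ne_zero.2 ha
  have h1 := hitd_nat K (D + 1) (by omega) a.natAbs hn
  have h2 : Ideal.span {((a.natAbs : ℕ) : 𝓞 K)} = Ideal.span {(a : 𝓞 K)} := by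
    rcases Int.natAbs_eq a with h | h
    · conv_rhs => rw [h]
      rw [Int.cast_natCast]
    · conv_rhs => rw [h]
      rw [Int.cast_neg, Int.cast_natCast, Ideal.span_singleton_neg]
  rw [h2] at h1
  refine ⟨h1.1, ?_⟩
  have h3 := hC a.natAbs (Nat.one_le_iff_ne_zero.2 hn)
  have h4 : ((a.natAbs : ℕ) : ℝ) = |(a : ℝ)| := by
    rw [Nat.cast_natAbs, Int.cast_abs]
  rw [h4] at h3
  have h5 : (({I : Ideal (𝓞 K) | I ∣ Ideal.span {(a : 𝓞 K)}}.ncard : ℕ) : ℝ) ≤
      ((a.natAbs.divisors.card : ℕ) : ℝ) ^ (D + 1) := by exact_mod_cast h1.2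
  refine h5.trans ((pow_le_pow_left₀ (by positivity) h3 (D + 1)).trans ?_)
  rw [mul_pow]
  apply le_of_eq
  congr 1
  rw [← Real.rpow_natCast, ← Real.rpow_mul (abs_nonneg _)]
  congr 1
  push_cast
  field_simp

end EK75
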