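import Pool.Agent.H75.EK.Defs

/-! Module HITI: denominators ideals of factors (Gauss' lemma) and separation by norms. -/

open Polynomial Finset NumberField
open scoped Real BigOperators

namespace EK75

/-- `b` clears the denominators of all coefficients of `A` -/
def Clears {K : Type} [Field K] [NumberField K] (b : Ideal (𝓞 K)) (A : K[X]) : Prop :=
  ∀ m : ℕ, ∀ x ∈ b, ∃ z : 𝓞 K, (z : K) = (x : K) * A.coeff m

/-- common denominator of a polynomial -/
theorem hiti_denom {K : Type} [Field K] [NumberField K] (A : K[X]) :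
    ∃ d : 𝓞 K, d ≠ 0 ∧ ∀ m, ∃ y : 𝓞 K, (y : K) = (d : K) * A.coeff m := by
  obtain ⟨b, hb⟩ := IsLocalization.exist_integer_multiples_of_finset (nonZeroDivisors (𝓞 K))
    (S := K) A.coeffs
  refine ⟨b, nonZeroDivisors.ne_zero b.2, fun m => ?_⟩
  by_cases hm : A.coeff m = 0
  · exact ⟨0, by simp [hm]⟩
  · obtain ⟨y, hy⟩ := hb (A.coeff m) (Polynomial.coeff_mem_coeffs hm)
    refine ⟨y, ?_⟩
    rw [show ((y : 𝓞 K) : K) = algebraMap (𝓞 K) K y from rfl, hy, Algebra.smul_def]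

/-- products of coefficients of factors of an integral polynomial are integral (Kronecker) -/
theorem hiti_prod_int {K : Type} [Field K] [NumberField K] (F : ℤ[X]) (a : ℤ)
    (A B : K[X]) (hfac : F.map (algebraMap ℤ K) = C (a : K) * A * B) (m n : ℕ) :
    ∃ z : 𝓞 K, (z : K) = (a : K) * A.coeff m * B.coeff n := by
  have key : (a : K) * A.coeff m * B.coeff n ∈ (algebraMap (𝓞 K) K).range := by
    apply IsDedekindDomain.HeightOneSpectrum.mem_integers_of_valuation_le_one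
    intro v
    have hb : (1 : NNReal) < 2 := by norm_num
    have hna := v.isNonarchimedean_adicAbv (K := K) hb
    set w : AbsoluteValue K ℝ := v.adicAbv hb with hw
    have h1 : w ((a : K) * A.coeff m * B.coeff n) ≤ 1 := by
      rw [map_mul, map_mul]
      have hA := A.le_gaussNorm w (c := 1) zero_le_one m
      have hB := B.le_gaussNorm w (c := 1) zero_le_one n
      rw [one_pow, mul_one] at hA hB
      have hF : (F.map (algebraMap ℤ K)).gaussNorm w 1 ≤ 1 := by
        obtain ⟨i, hi⟩ := (F.map (algebraMap ℤ K)).exists_eq_gaussNorm w 1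
        rw [hi, one_pow, mul_one, Polynomial.coeff_map]
        have : (algebraMap ℤ K) (F.coeff i) = algebraMap (𝓞 K) K (algebraMap ℤ (𝓞 K) (F.coeff i)) := by
          rw [← IsScalarTower.algebraMap_apply]
        rw [this]
        exact v.adicAbv_coe_le_one hb _
      rw [hfac, Polynomial.gaussNorm_mul hna zero_lt_one, Polynomial.gaussNorm_mul hna zero_lt_one,
        Polynomial.gaussNorm_C] at hF
      refine le_trans ?_ hF
      have h0 : 0 ≤ w (a : K) := w.nonneg _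
      have h0A : 0 ≤ w (A.coeff m) := w.nonneg _
      have h0B : 0 ≤ w (B.coeff n) := w.nonneg _
      have h0G : 0 ≤ gaussNorm w 1 A := A.gaussNorm_nonneg w zero_le_one
      exact mul_le_mul (mul_le_mul_of_nonneg_left hA h0) hB h0B (mul_nonneg h0 h0G)
    have h2 : (v.adicAbv hb : AbsoluteValue K ℝ) ((a : K) * A.coeff m * B.coeff n) =
      ((WithZeroMulInt.toNNReal (ne_zero_of_lt hb) (v.valuation K ((a : K) * A.coeff m * B.coeff n)) : NNReal) : ℝ) := rfl
    rw [hw, h2] at h1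
    have h3 : WithZeroMulInt.toNNReal (ne_zero_of_lt hb) (v.valuation K ((a : K) * A.coeff m * B.coeff n)) ≤ 1 := by
      exact_mod_cast h1
    exact (WithZeroMulInt.toNNReal_le_one_iff hb).mp h3
  obtain ⟨z, hz⟩ := key
  exact ⟨z, hz⟩

theorem gauss_split {K : Type} [Field K] [NumberField K] (F : ℤ[X]) (a : ℤ) (ha : a ≠ 0)
    (A B : K[X]) (hA : A.Monic) (hB : B.Monic) (hfac : F.map (algebraMap ℤ K) = C (a : K) * A * B) :
    ∃ b c : Ideal (𝓞 K), b ≠ ⊥ ∧ c ≠ ⊥ ∧ b * c ∣ Ideal.span {(a : 𝓞 K)} ∧ Clears b A ∧ Clears c B := by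
  obtain ⟨d, hd, hdA⟩ := hiti_denom A
  obtain ⟨e, he, heB⟩ := hiti_denom B
  choose yA hyA using hdA
  choose yB hyB using heB
  have hdK : (d : K) ≠ 0 := by
    simpa using hd
  have heK : (e : K) ≠ 0 := by
    simpa using he
  set I : Ideal (𝓞 K) := Ideal.span (Set.range yA) with hI
  set J : Ideal (𝓞 K) := Ideal.span (Set.range yB) with hJ
  have hdI : Ideal.span {d} ≤ I := by
    rw [Ideal.span_singleton_le_iff_mem]
    have : d = yA A.natDegree := by
      apply RingOfIntegers.ext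
      rw [hyA, Polynomial.coeff_natDegree, hA.leadingCoeff, mul_one]
    rw [this]
    exact Ideal.subset_span ⟨_, rfl⟩
  have heJ : Ideal.span {e} ≤ J := by
    rw [Ideal.span_singleton_le_iff_mem]
    have : e = yB B.natDegree := by
      apply RingOfIntegers.ext
      rw [hyB, Polynomial.coeff_natDegree, hB.leadingCoeff, mul_one]
    rw [this]
    exact Ideal.subset_span ⟨_, rfl⟩
  obtain ⟨b, hb⟩ := Ideal.dvd_iff_le.mpr hdI
  obtain ⟨c, hc⟩ := Ideal.dvd_iff_le.mpr heJ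
  have hdb : Ideal.span {d} ≠ (⊥ : Ideal (𝓞 K)) := by
    rwa [Ne, Ideal.span_singleton_eq_bot]
  have heb : Ideal.span {e} ≠ (⊥ : Ideal (𝓞 K)) := by
    rwa [Ne, Ideal.span_singleton_eq_bot]
  have hI0 : I ≠ ⊥ := by
    rintro h; rw [h, Ideal.bot_mul] at hb; exact hdb hb
  have hJ0 : J ≠ ⊥ := by
    rintro h; rw [h, Ideal.bot_mul] at hc; exact heb hc
  refine ⟨b, c, ?_, ?_, ?_, ?_, ?_⟩
  · rintro h; rw [h, Ideal.mul_bot] at hb; exact hdb hb
  · rintro h; rw [h, Ideal.mul_bot] at hc; exact heb hc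
  · have hle : Ideal.span {(a : 𝓞 K)} * (I * J) ≤ Ideal.span {d} * Ideal.span {e} := by
      rw [Ideal.span_singleton_mul_span_singleton, hI, hJ, Ideal.span_mul_span', Ideal.span_mul_span',
        Ideal.span_le]
      rintro _ ⟨_, rfl, _, ⟨_, ⟨m, rfl⟩, _, ⟨n, rfl⟩, rfl⟩, rfl⟩
      rw [SetLike.mem_coe, Ideal.mem_span_singleton]
      obtain ⟨z, hz⟩ := hiti_prod_int F a A B hfac m n
      refine ⟨z, ?_⟩
      apply RingOfIntegers.ext
      simp only [map_mul, hyA, hyB, hz, map_intCast]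
      ring
    rw [hb, hc] at hle
    have hdvd := Ideal.dvd_iff_le.mpr hle
    have h2 : (I * J) * (b * c) ∣ (I * J) * Ideal.span {(a : 𝓞 K)} := by
      have e1 : (I * J) * (b * c) = I * b * (J * c) := by ring
      have e2 : (I * J) * Ideal.span {(a : 𝓞 K)} = Ideal.span {(a : 𝓞 K)} * (I * J) := by ring
      rw [e1, e2]; exact hdvd
    have hIJ : I * J ≠ 0 := by
      rw [Ne, Ideal.zero_eq_bot, Ideal.mul_eq_bot]
      push Not
      exact ⟨hI0, hJ0⟩
    exact (mul_dvd_mul_iff_left hIJ).mp h2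
  · intro m x hx
    have : yA m * x ∈ I * b := Ideal.mul_mem_mul (Ideal.subset_span ⟨m, rfl⟩) hx
    rw [← hb, Ideal.mem_span_singleton] at this
    obtain ⟨z, hz⟩ := this
    refine ⟨z, ?_⟩
    have h1 : ((yA m * x : 𝓞 K) : K) = ((d * z : 𝓞 K) : K) := by rw [hz]
    simp only [map_mul, hyA] at h1
    have h2 : (d : K) * ((x : K) * A.coeff m) = (d : K) * (z : K) := by rw [← h1]; ring
    exact (mul_left_cancel₀ hdK h2).symm
  · intro m x hx
    have : yB m * x ∈ J * c := Ideal.mul_mem_mul (Ideal.subset_span ⟨m, rfl⟩) hx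
    rw [← hc, Ideal.mem_span_singleton] at this
    obtain ⟨z, hz⟩ := this
    refine ⟨z, ?_⟩
    have h1 : ((yB m * x : 𝓞 K) : K) = ((e * z : 𝓞 K) : K) := by rw [hz]
    simp only [map_mul, hyB] at h1
    have h2 : (e : K) * ((x : K) * B.coeff m) = (e : K) * (z : K) := by rw [← h1]; ring
    exact (mul_left_cancel₀ heK h2).symm

theorem absNorm_span_int {K : Type} [Field K] [NumberField K] (a : ℤ) :
    Ideal.absNorm (Ideal.span {(a : 𝓞 K)}) = a.natAbs ^ Module.finrank ℚ K := by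
  rw [Ideal.absNorm_span_singleton]
  have : (a : 𝓞 K) = algebraMap ℤ (𝓞 K) a := by simp
  rw [this, Algebra.norm_algebraMap, Int.natAbs_pow, RingOfIntegers.rank]

theorem hiti_norm {K : Type} [Field K] [NumberField K] (y : 𝓞 K) :
    (Ideal.absNorm (Ideal.span {y}) : ℝ) = ∏ σ : K →+* ℂ, ‖σ (y : K)‖ := by
  rw [Ideal.absNorm_span_singleton]
  have h := Algebra.norm_eq_prod_embeddings ℚ ℂ (y : K)
  have h2 : ∏ σ : K →ₐ[ℚ] ℂ, σ (y : K) = ∏ σ : K →+* ℂ, σ (y : K) := by
    symm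
    refine Fintype.prod_equiv (RingHom.equivRatAlgHom K ℂ) _ _ fun σ => rfl
  rw [h2] at h
  rw [← norm_prod, ← h, ← Algebra.coe_norm_int]
  simp only [eq_ratCast, Rat.cast_intCast, Complex.norm_intCast]
  rw [← Int.cast_natCast, Int.natCast_natAbs]
  simp

theorem norm_sep {K : Type} [Field K] [NumberField K] (b : Ideal (𝓞 K)) (hb : b ≠ ⊥) (δ : K)
    (hδ : δ ≠ 0) (h : ∀ x ∈ b, ∃ z : 𝓞 K, (z : K) = (x : K) * δ) :
    1 ≤ (Ideal.absNorm b : ℝ) * ∏ σ : K →+* ℂ, ‖σ δ‖ := by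
  -- an integer multiple of `δ` is integral
  obtain ⟨x0, hx0, hx0'⟩ := Submodule.exists_mem_ne_zero_of_ne_bot hb
  set n : ℕ := Ideal.absNorm b with hn
  have hn0 : n ≠ 0 := by
    rw [hn, Ne, Ideal.absNorm_eq_zero_iff]; exact hb
  have hnb : ((n : ℕ) : 𝓞 K) ∈ b := Ideal.absNorm_mem b
  obtain ⟨y, hy⟩ := h _ hnb
  have hy' : (y : K) = (n : K) * δ := by
    rw [hy]; simp
  have hy0 : y ≠ 0 := by
    intro hy0
    rw [hy0] at hy'
    have : (n : K) ≠ 0 := by exact_mod_cast hn0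
    exact (mul_ne_zero this hδ) (by rw [← hy']; simp)
  have hle : b * Ideal.span {y} ≤ Ideal.span {((n : ℤ) : 𝓞 K)} := by
    rw [Ideal.mul_le]
    intro x hx t ht
    rw [Ideal.mem_span_singleton] at ht ⊢
    obtain ⟨s, rfl⟩ := ht
    obtain ⟨z, hz⟩ := h x hx
    refine ⟨z * s, ?_⟩
    apply RingOfIntegers.ext
    simp only [map_mul, hy', hz, map_intCast]
    push_cast
    ring
  have hdvd := Ideal.absNorm_dvd_absNorm_of_le hle
  rw [map_mul, absNorm_span_int, Int.natAbs_natCast] at hdvd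
  have hpos : 0 < Ideal.absNorm b * Ideal.absNorm (Ideal.span {y}) := by
    apply Nat.mul_pos (Nat.pos_of_ne_zero hn0)
    apply Nat.pos_of_ne_zero
    rw [Ne, Ideal.absNorm_eq_zero_iff, Ideal.span_singleton_eq_bot]
    exact hy0
  have hle2 := Nat.le_of_dvd hpos hdvd
  have hle3 : (n : ℝ) ^ Module.finrank ℚ K ≤
      (n : ℝ) * ∏ σ : K →+* ℂ, ‖σ (y : K)‖ := by
    rw [← hiti_norm]
    exact_mod_cast hle2
  have hprod : ∏ σ : K →+* ℂ, ‖σ (y : K)‖ =
      (n : ℝ) ^ Module.finrank ℚ K * ∏ σ : K →+* ℂ, ‖σ δ‖ := by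
    rw [hy']
    simp only [map_mul, map_natCast, norm_mul, Complex.norm_natCast, Finset.prod_mul_distrib]
    rw [Finset.prod_const, Finset.card_univ, NumberField.Embeddings.card]
  rw [hprod] at hle3
  have hnp : (0 : ℝ) < (n : ℝ) ^ Module.finrank ℚ K := by positivity
  have : (n : ℝ) ^ Module.finrank ℚ K * 1 ≤
      (n : ℝ) ^ Module.finrank ℚ K * ((n : ℝ) * ∏ σ : K →+* ℂ, ‖σ δ‖) := by
    rw [mul_one]; linarith [hle3]
  exact le_of_mul_le_mul_left this hnp

end EK75
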