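import Pool.Agent.H75.EK.HitG
import Pool.Agent.H75.EK.HitI
import Pool.Agent.H75.EK.HitD

/-! Module HIT: few `t` make `F - t` reducible over a given number field. -/

open Polynomial Finset NumberField
open scoped Real BigOperators

namespace EK75

private theorem hit_step (P : ℂ[X]) (y : ℂ) (R B : ℝ) (hy : ‖y‖ ≤ R)
    (hB : ∀ m, ‖P.coeff m‖ ≤ B) (m : ℕ) : ‖((X - C y) * P).coeff m‖ ≤ (1 + R) * B := by
  have hB0 : 0 ≤ B := (norm_nonneg _).trans (hB 0)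
  rw [sub_mul, coeff_sub, coeff_C_mul]
  have h1 : ‖(X * P).coeff m‖ ≤ B := by
    rcases m with _ | m
    · simpa using hB0
    · rw [coeff_X_mul]; exact hB m
  have h2 : ‖y * P.coeff m‖ ≤ R * B := by
    rw [norm_mul]
    exact mul_le_mul hy (hB m) (norm_nonneg _) ((norm_nonneg _).trans hy)
  calc ‖(X * P).coeff m - y * P.coeff m‖ ≤ ‖(X * P).coeff m‖ + ‖y * P.coeff m‖ := norm_sub_le _ _
    _ ≤ B + R * B := add_le_add h1 h2
    _ = (1 + R) * B := by ring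

private theorem hit_coeff_bound {ι : Type*} [DecidableEq ι] (J : Finset ι) (y : ι → ℂ) (R : ℝ)
    (hR : 0 ≤ R) (hy : ∀ i ∈ J, ‖y i‖ ≤ R) :
    ∀ m, ‖(∏ i ∈ J, (X - C (y i))).coeff m‖ ≤ (1 + R) ^ J.card := by
  induction J using Finset.induction_on with
  | empty =>
    intro m
    rw [Finset.prod_empty, coeff_one, Finset.card_empty, pow_zero]
    split_ifs
    · simp
    · simp
  | insert j J hj ih =>
    intro m
    rw [Finset.prod_insert hj, Finset.card_insert_of_notMem hj, pow_succ, mul_comm _ (1 + R)]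
    exact hit_step _ _ R _ (hy j (Finset.mem_insert_self _ _))
      (ih (fun i hi => hy i (Finset.mem_insert_of_mem hi))) m

private theorem hit_coeff_diff {ι : Type*} [DecidableEq ι] (J : Finset ι) (y y' : ι → ℂ) (R ε : ℝ)
    (hR : 0 ≤ R) (hy : ∀ i ∈ J, ‖y i‖ ≤ R) (hy' : ∀ i ∈ J, ‖y' i‖ ≤ R)
    (hε : ∀ i ∈ J, ‖y i - y' i‖ ≤ ε) :
    ∀ m, ‖(∏ i ∈ J, (X - C (y i)) - ∏ i ∈ J, (X - C (y' i))).coeff m‖
      ≤ J.card * (1 + R) ^ (J.card - 1) * ε := by
  induction J using Finset.induction_on with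
  | empty => intro m; simp
  | insert j J hj ih =>
    intro m
    have ih' := ih (fun i hi => hy i (Finset.mem_insert_of_mem hi))
      (fun i hi => hy' i (Finset.mem_insert_of_mem hi))
      (fun i hi => hε i (Finset.mem_insert_of_mem hi))
    have hb := hit_coeff_bound J y' R hR (fun i hi => hy' i (Finset.mem_insert_of_mem hi))
    rw [Finset.prod_insert hj, Finset.prod_insert hj, Finset.card_insert_of_notMem hj]
    have e : (X - C (y j)) * ∏ i ∈ J, (X - C (y i)) - (X - C (y' j)) * ∏ i ∈ J, (X - C (y' i))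
        = (X - C (y j)) * (∏ i ∈ J, (X - C (y i)) - ∏ i ∈ J, (X - C (y' i)))
          + C (y' j - y j) * ∏ i ∈ J, (X - C (y' i)) := by
      rw [C_sub]; ring
    rw [e, coeff_add, coeff_C_mul]
    have h1 := hit_step _ (y j) R _ (hy j (Finset.mem_insert_self _ _)) ih' m
    have h2 : ‖(y' j - y j) * (∏ i ∈ J, (X - C (y' i))).coeff m‖ ≤ ε * (1 + R) ^ J.card := by
      rw [norm_mul, norm_sub_rev]
      have hεj := hε j (Finset.mem_insert_self _ _)
      exact mul_le_mul hεj (hb m) (norm_nonneg _) ((norm_nonneg _).trans hεj)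
    have h3 : (1 + R) * (J.card * (1 + R) ^ (J.card - 1) * ε) = J.card * (1 + R) ^ J.card * ε := by
      rcases Nat.eq_zero_or_pos J.card with h0 | h0
      · rw [h0]; simp
      · obtain ⟨n, hn⟩ : ∃ n, J.card = n + 1 := ⟨J.card - 1, by omega⟩
        rw [hn, Nat.add_sub_cancel, pow_succ]; ring
    rw [h3] at h1
    rw [Nat.add_sub_cancel, Nat.cast_add, Nat.cast_one]
    calc _ ≤ _ := norm_add_le _ _
      _ ≤ J.card * (1 + R) ^ J.card * ε + ε * (1 + R) ^ J.card := add_le_add h1 h2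
      _ = _ := by ring

private theorem hit_subset {k : ℕ} (y : Fin k → ℂ) (hy : Function.Injective y) (P : ℂ[X])
    (hP : P.Monic) (hd : P ∣ ∏ i, (X - C (y i))) :
    ∃ J : Finset (Fin k), P = ∏ i ∈ J, (X - C (y i)) := by
  classical
  have hne : (∏ i, (X - C (y i))) ≠ 0 := by
    rw [Finset.prod_ne_zero_iff]
    intro i _
    exact X_sub_C_ne_zero _
  have hroots : P.roots ≤ (Finset.univ.val.map y) := by
    have h1 := Polynomial.roots.le_of_dvd hne hd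
    have h2 : (∏ i, (X - C (y i))).roots = Finset.univ.val.map y := by
      have h3 : (∏ i, (X - C (y i))) = ((Finset.univ.val.map y).map (fun a => X - C a)).prod := by
        rw [Multiset.map_map]
        rfl
      rw [h3, Polynomial.roots_multiset_prod_X_sub_C]
    rwa [h2] at h1
  have hnd : (Finset.univ.val.map y).Nodup := by
    rw [Multiset.nodup_map_iff_of_injective hy]
    exact Finset.univ.nodup
  have hnd' : P.roots.Nodup := Multiset.nodup_of_le hroots hnd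
  refine ⟨Finset.univ.filter (fun i => y i ∈ P.roots), ?_⟩
  have hsplit : P = (P.roots.map (fun a => X - C a)).prod :=
    (IsAlgClosed.splits P).eq_prod_roots_of_monic hP
  have h4 : P.roots = (Finset.univ.filter (fun i => y i ∈ P.roots)).val.map y := by
    rw [Multiset.Nodup.ext hnd' ((Multiset.nodup_map_iff_of_injective hy).2 (Finset.nodup _))]
    intro a
    constructor
    · intro ha
      have := Multiset.mem_of_le hroots ha
      rw [Multiset.mem_map] at this ⊢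
      obtain ⟨i, _, rfl⟩ := this
      exact ⟨i, by simpa using ha, rfl⟩
    · intro ha
      rw [Multiset.mem_map] at ha
      obtain ⟨i, hi, rfl⟩ := ha
      have : i ∈ Finset.univ.filter (fun i => y i ∈ P.roots) := hi
      exact (Finset.mem_filter.1 this).2
  conv_lhs => rw [hsplit, h4]
  rw [Multiset.map_map]
  rfl

/-- The data attached to a `t` with `F - t` reducible over `K`. -/
private def HitTy (K : Type) [Field K] [NumberField K] (k : ℕ) (F : ℤ[X]) (y : Fin k → ℂ) (t : ℤ)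
    (ty : ((K →+* ℂ) → Finset (Fin k)) × Ideal (𝓞 K) × Ideal (𝓞 K)) : Prop :=
  ∃ A B : K[X], A.Monic ∧ B.Monic ∧ 1 ≤ A.natDegree ∧ 1 ≤ B.natDegree ∧
    (F - C t).map (algebraMap ℤ K) = C ((F.leadingCoeff : ℤ) : K) * A * B ∧
    Clears ty.2.1 A ∧ Clears ty.2.2 B ∧ ty.2.1 ≠ ⊥ ∧ ty.2.2 ≠ ⊥ ∧
    ty.2.1 * ty.2.2 ∣ Ideal.span {((F.leadingCoeff : ℤ) : 𝓞 K)} ∧
    (∀ σ : K →+* ℂ, A.map σ = ∏ i ∈ ty.1 σ, (X - C (y i))) ∧
    (∀ σ : K →+* ℂ, B.map σ = ∏ i ∈ (ty.1 σ)ᶜ, (X - C (y i)))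

private theorem hit_exists (K : Type) [Field K] [NumberField K] (k : ℕ) (hk : 2 ≤ k) (F : ℤ[X])
    (hF : F.natDegree = k) (y : Fin k → ℂ) (t : ℤ) (hy : RootsOf k F t y)
    (hred : ¬ Irreducible ((F - C t).map (algebraMap ℤ K))) :
    ∃ ty, HitTy K k F y t ty := by
  classical
  have hF0 : F ≠ 0 := by
    rintro rfl
    rw [natDegree_zero] at hF
    omega
  have hlc : F.leadingCoeff ≠ 0 := leadingCoeff_ne_zero.2 hF0
  have hdeg : (F - C t).natDegree = k := by rw [natDegree_sub_C, hF]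
  have hlc' : (F - C t).leadingCoeff = F.leadingCoeff := by
    rw [leadingCoeff, hdeg, coeff_sub, coeff_C, if_neg (by omega), sub_zero, leadingCoeff, hF]
  have hinj : Function.Injective (algebraMap ℤ K) := by
    rw [algebraMap_int_eq]; exact Int.cast_injective
  set p := (F - C t).map (algebraMap ℤ K) with hp
  have hpdeg : p.natDegree = k := by rw [hp, natDegree_map_eq_of_injective hinj, hdeg]
  have hplc : p.leadingCoeff = ((F.leadingCoeff : ℤ) : K) := by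
    rw [hp, leadingCoeff_map_of_injective hinj, hlc']
    simp
  have hp0 : p ≠ 0 := by
    rintro h0
    rw [h0, natDegree_zero] at hpdeg
    omega
  have hnu : ¬ IsUnit p := by
    intro hu
    have := natDegree_eq_zero_of_isUnit hu
    omega
  obtain ⟨A', B', hA', hB', hAB⟩ := (irreducible_or_factor hnu).resolve_left hred
  have hA0 : A' ≠ 0 := by
    rintro rfl
    rw [zero_mul] at hAB
    exact hp0 hAB
  have hB0 : B' ≠ 0 := by
    rintro rfl
    rw [mul_zero] at hAB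
    exact hp0 hAB
  have hAl : A'.leadingCoeff ≠ 0 := leadingCoeff_ne_zero.2 hA0
  have hBl : B'.leadingCoeff ≠ 0 := leadingCoeff_ne_zero.2 hB0
  have hAd : 1 ≤ A'.natDegree := by
    by_contra hcon
    apply hA'
    rw [Polynomial.isUnit_iff_degree_eq_zero, degree_eq_natDegree hA0]
    have : A'.natDegree = 0 := by omega
    rw [this]; rfl
  have hBd : 1 ≤ B'.natDegree := by
    by_contra hcon
    apply hB'
    rw [Polynomial.isUnit_iff_degree_eq_zero, degree_eq_natDegree hB0]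
    have : B'.natDegree = 0 := by omega
    rw [this]; rfl
  set A := C (A'.leadingCoeff)⁻¹ * A' with hAdef
  set B := C (B'.leadingCoeff)⁻¹ * B' with hBdef
  have hAm : A.Monic := by
    rw [Monic, hAdef, leadingCoeff_mul, leadingCoeff_C, inv_mul_cancel₀ hAl]
  have hBm : B.Monic := by
    rw [Monic, hBdef, leadingCoeff_mul, leadingCoeff_C, inv_mul_cancel₀ hBl]
  have hAnd : A.natDegree = A'.natDegree := by
    rw [hAdef, natDegree_C_mul (inv_ne_zero hAl)]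
  have hBnd : B.natDegree = B'.natDegree := by
    rw [hBdef, natDegree_C_mul (inv_ne_zero hBl)]
  have hfac : p = C ((F.leadingCoeff : ℤ) : K) * A * B := by
    rw [← hplc, hAB, leadingCoeff_mul, hAdef, hBdef, C_mul]
    have h1 : C A'.leadingCoeff * C (A'.leadingCoeff)⁻¹ = 1 := by
      rw [← C_mul, mul_inv_cancel₀ hAl, C_1]
    have h2 : C B'.leadingCoeff * C (B'.leadingCoeff)⁻¹ = 1 := by
      rw [← C_mul, mul_inv_cancel₀ hBl, C_1]
    calc A' * B' = (C A'.leadingCoeff * C (A'.leadingCoeff)⁻¹) *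
          (C B'.leadingCoeff * C (B'.leadingCoeff)⁻¹) * (A' * B') := by rw [h1, h2, one_mul, one_mul]
      _ = _ := by ring
  obtain ⟨b, c, hb, hc, hbc, hbA, hcB⟩ := gauss_split (F - C t) F.leadingCoeff hlc A B hAm hBm hfac
  obtain ⟨hyi, hyp⟩ := hy
  have hlcC : ((F.leadingCoeff : ℤ) : ℂ) ≠ 0 := Int.cast_ne_zero.2 hlc
  -- the product over each embedding
  have hσ : ∀ σ : K →+* ℂ, A.map σ * B.map σ = ∏ i, (X - C (y i)) := by
    intro σ
    have h1 : p.map σ = (F - C t).map (Int.castRingHom ℂ) := by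
      rw [hp, Polynomial.map_map]
      congr 1
      exact RingHom.ext_int _ _
    rw [hfac, Polynomial.map_mul, Polynomial.map_mul, map_C, map_intCast, hyp, mul_assoc] at h1
    exact mul_left_cancel₀ (C_ne_zero.2 hlcC) h1
  have hJ : ∀ σ : K →+* ℂ, ∃ J : Finset (Fin k), A.map σ = ∏ i ∈ J, (X - C (y i)) := by
    intro σ
    apply hit_subset y hyi _ (hAm.map σ)
    rw [← hσ σ]
    exact dvd_mul_right _ _
  choose J hJ using hJ
  refine ⟨⟨J, b, c⟩, A, B, hAm, hBm, by omega, by omega, hfac, hbA, hcB, hb, hc, hbc, hJ, ?_⟩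
  intro σ
  have h1 := hσ σ
  rw [← Finset.prod_mul_prod_compl (J σ), ← hJ σ] at h1
  exact mul_left_cancel₀ (hAm.map σ).ne_zero h1

private theorem hit_sep_aux (K : Type) [Field K] [NumberField K] (k : ℕ) (b : Ideal (𝓞 K))
    (hb : b ≠ ⊥) (A A' : K[X]) (hA : Clears b A) (hA' : Clears b A') (hne : A ≠ A')
    (J : (K →+* ℂ) → Finset (Fin k)) (y y' : Fin k → ℂ) (s : ℕ) (hJ : ∀ σ, (J σ).card = s)
    (hAJ : ∀ σ : K →+* ℂ, A.map σ = ∏ i ∈ J σ, (X - C (y i)))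
    (hAJ' : ∀ σ : K →+* ℂ, A'.map σ = ∏ i ∈ J σ, (X - C (y' i)))
    (R ε : ℝ) (hR : 0 ≤ R) (hε0 : 0 ≤ ε) (hy : ∀ i, ‖y i‖ ≤ R) (hy' : ∀ i, ‖y' i‖ ≤ R)
    (hε : ∀ i, ‖y i - y' i‖ ≤ ε) :
    1 ≤ (Ideal.absNorm b : ℝ) * (k * (1 + R) ^ (s - 1) * ε) ^ Module.finrank ℚ K := by
  classical
  obtain ⟨m, hm⟩ : ∃ m, A.coeff m ≠ A'.coeff m := by
    by_contra hcon
    push Not at hcon
    exact hne (Polynomial.ext hcon)
  have h1 := norm_sep b hb (A.coeff m - A'.coeff m) (sub_ne_zero.2 hm) (by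
    intro x hx
    obtain ⟨z, hz⟩ := hA m x hx
    obtain ⟨z', hz'⟩ := hA' m x hx
    refine ⟨z - z', ?_⟩
    have e1 : ((z - z' : 𝓞 K) : K) = (z : K) - (z' : K) := rfl
    rw [e1, hz, hz']
    ring)
  refine h1.trans ?_
  apply mul_le_mul_of_nonneg_left _ (Nat.cast_nonneg _)
  rw [← NumberField.Embeddings.card K ℂ, ← Finset.card_univ, ← Finset.prod_const]
  apply Finset.prod_le_prod
  · intro σ _; exact norm_nonneg _
  · intro σ _
    have h2 := hit_coeff_diff (J σ) y y' R ε hR (fun i _ => hy i) (fun i _ => hy' i)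
      (fun i _ => hε i) m
    rw [← hAJ σ, ← hAJ' σ, coeff_sub, coeff_map, coeff_map, ← map_sub, hJ σ] at h2
    refine h2.trans ?_
    apply mul_le_mul_of_nonneg_right _ hε0
    apply mul_le_mul_of_nonneg_right _ (by positivity)
    rw [← hJ σ]
    have := Finset.card_le_univ (J σ)
    rw [Fintype.card_fin] at this
    exact_mod_cast this

private theorem hit_sep (K : Type) [Field K] [NumberField K] (k : ℕ) (F : ℤ[X])
    (hF : F.natDegree = k) (hF0 : F ≠ 0)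
    (t t' : ℤ) (htt : t ≠ t') (y y' : Fin k → ℂ)
    (ty : ((K →+* ℂ) → Finset (Fin k)) × Ideal (𝓞 K) × Ideal (𝓞 K))
    (h : HitTy K k F y t ty) (h' : HitTy K k F y' t' ty)
    (R ε : ℝ) (hR : 0 ≤ R) (hε0 : 0 ≤ ε) (hy : ∀ i, ‖y i‖ ≤ R) (hy' : ∀ i, ‖y' i‖ ≤ R)
    (hε : ∀ i, ‖y i - y' i‖ ≤ ε) :
    1 ≤ |((F.leadingCoeff : ℤ) : ℝ)| * ((k : ℝ) ^ 2 * (1 + R) ^ (k - 2) * ε ^ 2) := by
  classical
  obtain ⟨A, B, hAm, hBm, hAd, hBd, hfac, hbA, hcB, hb, hc, hbc, hJA, hJB⟩ := h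
  obtain ⟨A', B', hAm', hBm', hAd', hBd', hfac', hbA', hcB', _, _, _, hJA', hJB'⟩ := h'
  set b := ty.2.1 with hbdef
  set c := ty.2.2 with hcdef
  have hinj : Function.Injective (algebraMap ℤ K) := by
    rw [algebraMap_int_eq]; exact Int.cast_injective
  -- no common divisor
  have hcommon : ∀ P : K[X], P.Monic → 1 ≤ P.natDegree →
      P ∣ (F - C t).map (algebraMap ℤ K) → P ∣ (F - C t').map (algebraMap ℤ K) → False := by
    intro P hPm hPd h1 h2
    have h3 := dvd_sub h1 h2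
    have h4 : (F - C t).map (algebraMap ℤ K) - (F - C t').map (algebraMap ℤ K)
        = C (((t' - t : ℤ)) : K) := by
      rw [Polynomial.map_sub, Polynomial.map_sub, map_C, map_C]
      have e1 : (algebraMap ℤ K) t = ((t : ℤ) : K) := by simp
      have e2 : (algebraMap ℤ K) t' = ((t' : ℤ) : K) := by simp
      rw [e1, e2]
      push_cast
      rw [C_sub]
      ring
    rw [h4] at h3
    have h5 : ((t' - t : ℤ) : K) ≠ 0 := Int.cast_ne_zero.2 (sub_ne_zero.2 (Ne.symm htt))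
    have h6 := natDegree_le_of_dvd h3 (C_ne_zero.2 h5)
    rw [natDegree_C] at h6
    omega
  have hneA : A ≠ A' := by
    rintro rfl
    apply hcommon A hAm hAd
    · rw [hfac, mul_comm (C _) A, mul_assoc]; exact dvd_mul_right _ _
    · rw [hfac', mul_comm (C _) A, mul_assoc]; exact dvd_mul_right _ _
  have hneB : B ≠ B' := by
    rintro rfl
    apply hcommon B hBm hBd
    · rw [hfac]; exact dvd_mul_left _ _
    · rw [hfac']; exact dvd_mul_left _ _
  -- degrees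
  have hcardA : ∀ σ : K →+* ℂ, (ty.1 σ).card = A.natDegree := by
    intro σ
    have h1 : (A.map σ).natDegree = A.natDegree := natDegree_map_eq_of_injective σ.injective A
    rw [hJA σ, natDegree_prod_of_monic _ _ (fun i _ => monic_X_sub_C _)] at h1
    simpa using h1
  have hcardB : ∀ σ : K →+* ℂ, ((ty.1 σ)ᶜ).card = B.natDegree := by
    intro σ
    have h1 : (B.map σ).natDegree = B.natDegree := natDegree_map_eq_of_injective σ.injective B
    rw [hJB σ, natDegree_prod_of_monic _ _ (fun i _ => monic_X_sub_C _)] at h1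
    simpa using h1
  have hsum : A.natDegree + B.natDegree = k := by
    have σ : K →+* ℂ := Classical.arbitrary _
    rw [← hcardA σ, ← hcardB σ, Finset.card_add_card_compl, Fintype.card_fin]
  have h1 := hit_sep_aux K k b hb A A' hbA hbA' hneA ty.1 y y' A.natDegree hcardA hJA hJA'
    R ε hR hε0 hy hy' hε
  have h2 := hit_sep_aux K k c hc B B' hcB hcB' hneB (fun σ => (ty.1 σ)ᶜ) y y' B.natDegree hcardB
    hJB hJB' R ε hR hε0 hy hy' hε
  set d := Module.finrank ℚ K with hd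
  have hd0 : d ≠ 0 := by
    rw [hd]
    exact Module.finrank_pos.ne'
  have hN : (Ideal.absNorm b : ℝ) * (Ideal.absNorm c : ℝ) ≤ |((F.leadingCoeff : ℤ) : ℝ)| ^ d := by
    have h3 : Ideal.absNorm (b * c) ∣ F.leadingCoeff.natAbs ^ d := by
      rw [hd, ← absNorm_span_int (K := K)]
      exact Ideal.absNorm_dvd_absNorm_of_le (Ideal.dvd_iff_le.1 hbc)
    have h4 : Ideal.absNorm (b * c) ≤ F.leadingCoeff.natAbs ^ d := by
      apply Nat.le_of_dvd _ h3
      apply pow_pos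
      exact Int.natAbs_pos.2 (leadingCoeff_ne_zero.2 hF0)
    rw [map_mul] at h4
    have h5 : ((Ideal.absNorm b * Ideal.absNorm c : ℕ) : ℝ) ≤ ((F.leadingCoeff.natAbs ^ d : ℕ) : ℝ) :=
      Nat.cast_le.2 h4
    rw [Nat.cast_mul, Nat.cast_pow, Nat.cast_natAbs, Int.cast_abs] at h5
    exact h5
  have h3 : (1 : ℝ) ≤ (|((F.leadingCoeff : ℤ) : ℝ)| *
      ((k : ℝ) ^ 2 * (1 + R) ^ (k - 2) * ε ^ 2)) ^ d := by
    have hkexp : k - 2 = (A.natDegree - 1) + (B.natDegree - 1) := by omega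
    calc (1 : ℝ) = 1 * 1 := by ring
      _ ≤ ((Ideal.absNorm b : ℝ) * (k * (1 + R) ^ (A.natDegree - 1) * ε) ^ d) *
          ((Ideal.absNorm c : ℝ) * (k * (1 + R) ^ (B.natDegree - 1) * ε) ^ d) :=
        mul_le_mul h1 h2 zero_le_one (zero_le_one.trans h1)
      _ = ((Ideal.absNorm b : ℝ) * (Ideal.absNorm c : ℝ)) *
          ((k : ℝ) ^ 2 * (1 + R) ^ (k - 2) * ε ^ 2) ^ d := by
        rw [hkexp, pow_add]
        ring
      _ ≤ |((F.leadingCoeff : ℤ) : ℝ)| ^ d * ((k : ℝ) ^ 2 * (1 + R) ^ (k - 2) * ε ^ 2) ^ d :=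
        mul_le_mul_of_nonneg_right hN (by positivity)
      _ = _ := (mul_pow _ _ _).symm
  by_contra hcon
  push Not at hcon
  have h4 : (|((F.leadingCoeff : ℤ) : ℝ)| *
      ((k : ℝ) ^ 2 * (1 + R) ^ (k - 2) * ε ^ 2)) ^ d < 1 :=
    pow_lt_one₀ (by positivity) hcon hd0
  linarith

private theorem hit_num (k : ℕ) (hk : 2 ≤ k) (Cg C0 : ℝ) (hCg : 1 ≤ Cg) (hC0 : 0 < C0)
    (q T η : ℝ) (m : ℕ) (hq : 1 ≤ q) (hqT : q ≤ T) (hη : 0 < η) (a Δ : ℝ)
    (ha : a ≤ C0 * q)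
    (h : 1 ≤ a * ((k : ℝ) ^ 2 * (1 + Cg * (T / q) ^ ((1 : ℝ) / k)) ^ (k - 2) *
      (Cg * Δ / (q * η ^ m * (T / q) ^ (((k : ℝ) - 1) / k))) ^ 2)) :
    T * η ^ (2 * m) ≤ C0 * ((k : ℝ) ^ 2 * (2 * Cg) ^ (k - 2) * Cg ^ 2) * Δ ^ 2 := by
  have hq0 : 0 < q := by linarith
  have hT0 : 0 < T := by linarith
  have hZ1 : 1 ≤ T / q := by rw [le_div_iff₀ hq0]; linarith
  have hZ0 : 0 < T / q := by positivity
  have hk0 : (k : ℝ) ≠ 0 := by positivity
  set z := (T / q) ^ ((1 : ℝ) / k) with hz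
  have hz1 : 1 ≤ z := Real.one_le_rpow hZ1 (by positivity)
  have hz0 : 0 < z := by linarith
  have hzk : z ^ k = T / q := by
    rw [hz, ← Real.rpow_natCast, ← Real.rpow_mul hZ0.le, one_div, inv_mul_cancel₀ hk0,
      Real.rpow_one]
  have hzk1 : (T / q) ^ (((k : ℝ) - 1) / k) = z ^ (k - 1) := by
    rw [hz, ← Real.rpow_natCast, ← Real.rpow_mul hZ0.le]
    congr 1
    rw [Nat.cast_sub (by omega)]
    push_cast
    ring
  rw [hzk1] at h
  have hb : (1 + Cg * z) ^ (k - 2) ≤ (2 * Cg) ^ (k - 2) * z ^ (k - 2) := by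
    rw [← mul_pow]
    apply pow_le_pow_left₀ (by positivity)
    nlinarith
  set P : ℝ := (k : ℝ) ^ 2 * (2 * Cg) ^ (k - 2) * Cg ^ 2 with hP
  have hP0 : 0 ≤ P := by positivity
  have hden : 0 < q * η ^ m * z ^ (k - 1) := by positivity
  have e1 : (Cg * Δ / (q * η ^ m * z ^ (k - 1))) ^ 2 * (q * η ^ m * z ^ (k - 1)) ^ 2
      = (Cg * Δ) ^ 2 := by
    rw [← mul_pow, div_mul_cancel₀ _ hden.ne']
  have h1 : (q * η ^ m * z ^ (k - 1)) ^ 2 ≤
      (C0 * q) * ((k : ℝ) ^ 2 * ((2 * Cg) ^ (k - 2) * z ^ (k - 2)) * (Cg * Δ) ^ 2) := by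
    calc (q * η ^ m * z ^ (k - 1)) ^ 2 = 1 * (q * η ^ m * z ^ (k - 1)) ^ 2 := by ring
      _ ≤ (a * ((k : ℝ) ^ 2 * (1 + Cg * z) ^ (k - 2) *
          (Cg * Δ / (q * η ^ m * z ^ (k - 1))) ^ 2)) * (q * η ^ m * z ^ (k - 1)) ^ 2 :=
        mul_le_mul_of_nonneg_right h (by positivity)
      _ = a * ((k : ℝ) ^ 2 * (1 + Cg * z) ^ (k - 2) * (Cg * Δ) ^ 2) := by
        rw [← e1]; ring
      _ ≤ (C0 * q) * ((k : ℝ) ^ 2 * (1 + Cg * z) ^ (k - 2) * (Cg * Δ) ^ 2) :=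
        mul_le_mul_of_nonneg_right ha (by positivity)
      _ ≤ _ := by
        apply mul_le_mul_of_nonneg_left _ (by positivity)
        apply mul_le_mul_of_nonneg_right _ (by positivity)
        exact mul_le_mul_of_nonneg_left hb (by positivity)
  have e2 : (q * η ^ m * z ^ (k - 1)) ^ 2 = (q * z ^ (k - 2)) * (T * η ^ (2 * m)) := by
    have e3 : z ^ (k - 1) * z ^ (k - 1) = z ^ (k - 2) * z ^ k := by
      rw [← pow_add, ← pow_add]
      congr 1
      omega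
    calc (q * η ^ m * z ^ (k - 1)) ^ 2
        = q * q * (z ^ (k - 1) * z ^ (k - 1)) * (η ^ m * η ^ m) := by ring
      _ = q * (z ^ (k - 2)) * ((T / q) * q) * (η ^ m * η ^ m) := by rw [e3, hzk]; ring
      _ = _ := by rw [div_mul_cancel₀ _ hq0.ne', two_mul, pow_add]; ring
  have e4 : (C0 * q) * ((k : ℝ) ^ 2 * ((2 * Cg) ^ (k - 2) * z ^ (k - 2)) * (Cg * Δ) ^ 2)
      = (q * z ^ (k - 2)) * (C0 * P * Δ ^ 2) := by rw [hP]; ring
  rw [e2, e4] at h1
  exact le_of_mul_le_mul_left h1 (by positivity)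

private theorem hit_floor_card (c l : ℝ) (hc : 0 < c) (hl : 0 < l) :
    ((Finset.Icc ⌊-c / l⌋ ⌊c / l⌋).card : ℝ) ≤ 2 * (c / l) + 2 := by
  rw [Int.card_Icc]
  have h1 : (⌊c / l⌋ : ℝ) ≤ c / l := Int.floor_le _
  have h2 : -c / l < (⌊-c / l⌋ : ℝ) + 1 := Int.lt_floor_add_one _
  have h3 : ⌊-c / l⌋ ≤ ⌊c / l⌋ + 1 := by
    have : -c / l ≤ c / l := by
      apply div_le_div_of_nonneg_right _ hl.le
      linarith
    have := Int.floor_le_floor this
    omega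
  have h4 : ((⌊c / l⌋ + 1 - ⌊-c / l⌋).toNat : ℝ) = (⌊c / l⌋ : ℝ) + 1 - (⌊-c / l⌋ : ℝ) := by
    have h5 : ((⌊c / l⌋ + 1 - ⌊-c / l⌋).toNat : ℤ) = ⌊c / l⌋ + 1 - ⌊-c / l⌋ :=
      Int.toNat_of_nonneg (by omega)
    have h6 : (((⌊c / l⌋ + 1 - ⌊-c / l⌋).toNat : ℤ) : ℝ)
      = ((⌊c / l⌋ + 1 - ⌊-c / l⌋ : ℤ) : ℝ) := by rw [h5]
    push_cast at h6
    exact h6
  rw [h4]
  have h7 : -c / l = -(c / l) := neg_div _ _
  rw [h7] at h2 ⊢
  linarith

open Classical in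
private theorem hit_inj (k D : ℕ) (hk : 2 ≤ k) (c0 C0 C1 : ℝ) (hc0 : 0 < c0) (hC0 : 0 < C0)
    (hC1 : 0 < C1) (Cg : ℝ) (m : ℕ) (hCg : 1 ≤ Cg) (Cd ε : ℝ)
    (K : Type) [Field K] [NumberField K] (hD : Module.finrank ℚ K ≤ D)
    (F : ℤ[X]) (hF : F.natDegree = k) (hF0 : F ≠ 0) (q T η l : ℝ) (hq : 1 ≤ q) (hqT : q ≤ T)
    (hη : 0 < η) (hl : 0 < l) (hlw : l ≤ η ^ m * T / Cg)
    (hl2 : C0 * ((k : ℝ) ^ 2 * (2 * Cg) ^ (k - 2) * Cg ^ 2) * l ^ 2 < T * η ^ (2 * m))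
    (ha : |((F.leadingCoeff : ℤ) : ℝ)| ≤ C0 * q)
    (hdiv : {I : Ideal (𝓞 K) | I ∣ Ideal.span {((F.leadingCoeff : ℤ) : 𝓞 K)}}.Finite ∧
      ({I : Ideal (𝓞 K) | I ∣ Ideal.span {((F.leadingCoeff : ℤ) : 𝓞 K)}}.ncard : ℝ) ≤
        Cd * |((F.leadingCoeff : ℤ) : ℝ)| ^ ε)
    (bad : Finset ℤ)
    (hbad : ∀ t0 : ℤ, ∃ y : ℤ → Fin k → ℂ,
      ∀ t : ℤ, |(t : ℝ)| ≤ C1 * T → t ∉ bad → |(t : ℝ) - t0| ≤ η ^ m * T / Cg →
        RootsOf k F t (y t) ∧ (∀ i, ‖y t i‖ ≤ Cg * (T / q) ^ ((1 : ℝ) / k)) ∧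
        ∀ t' : ℤ, |(t' : ℝ)| ≤ C1 * T → t' ∉ bad → |(t' : ℝ) - t0| ≤ η ^ m * T / Cg →
          ∀ i, ‖y t i - y t' i‖ ≤
            Cg * |(t : ℝ) - t'| / (q * η ^ m * (T / q) ^ (((k : ℝ) - 1) / k))) :
    (((Finset.Icc (-⌊C1 * T⌋) ⌊C1 * T⌋).filter
      (fun t : ℤ => t ∉ bad ∧ ¬ Irreducible ((F - Polynomial.C t).map (algebraMap ℤ K)))).card : ℝ)
      ≤ (2 * (C1 * T / l) + 2) * (((2 : ℝ) ^ k) ^ D *
        ((Cd * |((F.leadingCoeff : ℤ) : ℝ)| ^ ε) * (Cd * |((F.leadingCoeff : ℤ) : ℝ)| ^ ε))) := by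
  choose y hy using hbad
  set S := (Finset.Icc (-⌊C1 * T⌋) ⌊C1 * T⌋).filter
      (fun t : ℤ => t ∉ bad ∧ ¬ Irreducible ((F - Polynomial.C t).map (algebraMap ℤ K))) with hS
  have hT0 : 0 < T := by linarith
  have hq0 : 0 < q := by linarith
  have hC1T : 0 < C1 * T := by positivity
  have hSmem : ∀ t ∈ S, |(t : ℝ)| ≤ C1 * T ∧ t ∉ bad ∧
      ¬ Irreducible ((F - Polynomial.C t).map (algebraMap ℤ K)) := by
    intro t ht
    rw [hS, Finset.mem_filter, Finset.mem_Icc] at ht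
    refine ⟨?_, ht.2⟩
    obtain ⟨⟨h1, h2⟩, _⟩ := ht
    have h3 : (⌊C1 * T⌋ : ℝ) ≤ C1 * T := Int.floor_le _
    have h1' : (-(⌊C1 * T⌋ : ℝ)) ≤ (t : ℝ) := by exact_mod_cast h1
    have h2' : (t : ℝ) ≤ (⌊C1 * T⌋ : ℝ) := by exact_mod_cast h2
    rw [abs_le]
    constructor <;> linarith
  -- windows
  have ht0 : ∀ j : ℤ, ∃ t0 : ℤ, ∀ t ∈ S, ⌊(t : ℝ) / l⌋ = j → |(t : ℝ) - t0| < l := by
    intro j
    by_cases hj : ∃ t ∈ S, ⌊(t : ℝ) / l⌋ = j
    · obtain ⟨t0, _, ht0⟩ := hj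
      refine ⟨t0, fun t _ htj => ?_⟩
      have h1 := Int.abs_sub_lt_one_of_floor_eq_floor (htj.trans ht0.symm)
      rw [← sub_div, abs_div, abs_of_pos hl, div_lt_one hl] at h1
      exact h1
    · refine ⟨0, fun t ht htj => ?_⟩
      exact absurd ⟨t, ht, htj⟩ hj
  choose t0 ht0 using ht0
  have hwin : ∀ t ∈ S, |(t : ℝ) - t0 ⌊(t : ℝ) / l⌋| ≤ η ^ m * T / Cg := fun t ht =>
    (ht0 _ t ht rfl).le.trans hlw
  have hex : ∀ t ∈ S, ∃ ty, HitTy K k F (y (t0 ⌊(t : ℝ) / l⌋) t) t ty := by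
    intro t ht
    obtain ⟨h1, h2, h3⟩ := hSmem t ht
    exact hit_exists K k hk F hF _ t (hy _ t h1 h2 (hwin t ht)).1 h3
  have hex' : ∀ t : ℤ, ∃ ty, t ∈ S → HitTy K k F (y (t0 ⌊(t : ℝ) / l⌋) t) t ty := by
    intro t
    by_cases ht : t ∈ S
    · obtain ⟨ty, hty⟩ := hex t ht
      exact ⟨ty, fun _ => hty⟩
    · exact ⟨⟨fun _ => ∅, ⊥, ⊥⟩, fun h => absurd h ht⟩
  choose ty hty using hex'
  obtain ⟨hfin, hcard⟩ := hdiv
  set Ds : Finset (Ideal (𝓞 K)) := hfin.toFinset with hDs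
  have hDscard : (Ds.card : ℝ) ≤ Cd * |((F.leadingCoeff : ℤ) : ℝ)| ^ ε := by
    rw [hDs, ← Set.ncard_eq_toFinset_card _ hfin]
    exact hcard
  set Tgt : Finset (ℤ × (((K →+* ℂ) → Finset (Fin k)) × (Ideal (𝓞 K) × Ideal (𝓞 K)))) :=
    (Finset.Icc ⌊-(C1 * T) / l⌋ ⌊(C1 * T) / l⌋) ×ˢ (Finset.univ ×ˢ (Ds ×ˢ Ds)) with hTgt
  have hle : S.card ≤ Tgt.card := by
    apply Finset.card_le_card_of_injOn (fun t : ℤ => (⌊(t : ℝ) / l⌋, ty t))
    · intro t ht
      have ht' : t ∈ S := ht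
      obtain ⟨A, B, _, _, _, _, _, _, _, _, _, hbc, _, _⟩ := hty t ht'
      have h1 := (hSmem t ht').1
      rw [abs_le] at h1
      rw [hTgt, Finset.mem_coe, Finset.mem_product, Finset.mem_product, Finset.mem_product,
        Finset.mem_Icc]
      refine ⟨⟨?_, ?_⟩, Finset.mem_univ _, ?_, ?_⟩
      · exact Int.floor_le_floor (div_le_div_of_nonneg_right h1.1 hl.le)
      · exact Int.floor_le_floor (div_le_div_of_nonneg_right h1.2 hl.le)
      · rw [hDs, Set.Finite.mem_toFinset]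
        exact (dvd_mul_right _ _).trans hbc
      · rw [hDs, Set.Finite.mem_toFinset]
        exact (dvd_mul_left _ _).trans hbc
    · intro t ht t' ht' heq
      have htS : t ∈ S := ht
      have htS' : t' ∈ S := ht'
      simp only [Prod.mk.injEq] at heq
      obtain ⟨hj, htyeq⟩ := heq
      by_contra hne
      have hd1 := hty t htS
      have hd2 := hty t' htS'
      rw [← htyeq, ← hj] at hd2
      obtain ⟨a1, a2, _⟩ := hSmem t htS
      obtain ⟨b1, b2, _⟩ := hSmem t' htS'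
      have hw := hwin t htS
      have hw' := hwin t' htS'
      rw [← hj] at hw'
      obtain ⟨_, hy2, hy3⟩ := hy _ t a1 a2 hw
      obtain ⟨_, hy2', _⟩ := hy _ t' b1 b2 hw'
      have hy4 := hy3 t' b1 b2 hw'
      have hsep := hit_sep K k F hF hF0 t t' hne _ _ (ty t) hd1 hd2
        (Cg * (T / q) ^ ((1 : ℝ) / k))
        (Cg * |(t : ℝ) - t'| / (q * η ^ m * (T / q) ^ (((k : ℝ) - 1) / k)))
        (by positivity) (by positivity) hy2 hy2' hy4
      have hnum := hit_num k hk Cg C0 hCg hC0 q T η m hq hqT hη _ _ ha hsep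
      have hlt : |(t : ℝ) - t'| < l := by
        have h1 := Int.abs_sub_lt_one_of_floor_eq_floor hj
        rw [← sub_div, abs_div, abs_of_pos hl, div_lt_one hl] at h1
        exact h1
      have hsq : |(t : ℝ) - t'| ^ 2 ≤ l ^ 2 :=
        pow_le_pow_left₀ (abs_nonneg _) hlt.le 2
      have : C0 * ((k : ℝ) ^ 2 * (2 * Cg) ^ (k - 2) * Cg ^ 2) * |(t : ℝ) - t'| ^ 2
          ≤ C0 * ((k : ℝ) ^ 2 * (2 * Cg) ^ (k - 2) * Cg ^ 2) * l ^ 2 :=
        mul_le_mul_of_nonneg_left hsq (by positivity)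
      linarith
  have hle' : (S.card : ℝ) ≤ (Tgt.card : ℝ) := Nat.cast_le.2 hle
  refine hle'.trans ?_
  rw [hTgt, Finset.card_product, Finset.card_product, Finset.card_product]
  push_cast
  have hu : ((Finset.univ : Finset ((K →+* ℂ) → Finset (Fin k))).card : ℝ) ≤ ((2 : ℝ) ^ k) ^ D := by
    rw [Finset.card_univ, Fintype.card_fun, Fintype.card_finset, Fintype.card_fin,
      NumberField.Embeddings.card K ℂ]
    push_cast
    apply pow_le_pow_right₀ _ hD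
    exact one_le_pow₀ (by norm_num)
  have hDs0 : (0 : ℝ) ≤ Ds.card := Nat.cast_nonneg _
  apply mul_le_mul (hit_floor_card (C1 * T) l hC1T hl) _ (by positivity) (by positivity)
  apply mul_le_mul hu _ (by positivity) (by positivity)
  exact mul_le_mul hDscard hDscard hDs0 (hDs0.trans hDscard)

open Classical in
theorem hit_count (k D : ℕ) (hk : 1 ≤ k) (c0 C0 C1 : ℝ) (hc0 : 0 < c0) (hC0 : 0 < C0)
    (hC1 : 0 < C1) : ∃ c C2 : ℝ, 0 < c ∧ 0 ≤ C2 ∧ ∀ (K : Type) [Field K] [NumberField K],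
    Module.finrank ℚ K ≤ D → ∀ (F : ℤ[X]) (q T : ℕ), F.natDegree = k → F.coeff 0 = 0 → 1 ≤ q →
    q ≤ T → c0 * q ≤ |((F.leadingCoeff : ℤ) : ℝ)| → HtLe F (C0 * q) →
    (((Finset.Icc (-⌊C1 * T⌋) ⌊C1 * T⌋).filter
      (fun t : ℤ => ¬ Irreducible ((F - Polynomial.C t).map (algebraMap ℤ K)))).card : ℝ) ≤
      C2 * (T : ℝ) ^ (1 - c) := by
  rcases Nat.lt_or_ge k 2 with hk2 | hk2
  · -- degree one
    have hk1 : k = 1 := by omega
    subst hk1
    refine ⟨1, 0, one_pos, le_rfl, ?_⟩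
    intro K _ _ _ F q T hF _ hq hqT hlc _
    rw [zero_mul]
    have hF0 : F ≠ 0 := by
      rintro rfl
      rw [natDegree_zero] at hF
      omega
    have hinj : Function.Injective (algebraMap ℤ K) := by
      rw [algebraMap_int_eq]; exact Int.cast_injective
    rw [Finset.filter_false_of_mem, Finset.card_empty, Nat.cast_zero]
    intro t _
    rw [not_not]
    apply irreducible_of_degree_eq_one
    have h1 : ((F - C t).map (algebraMap ℤ K)).natDegree = 1 := by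
      rw [natDegree_map_eq_of_injective hinj, natDegree_sub_C, hF]
    have h2 : (F - C t).map (algebraMap ℤ K) ≠ 0 := by
      intro h0
      rw [h0, natDegree_zero] at h1
      omega
    rw [degree_eq_natDegree h2, h1]
    rfl
  · obtain ⟨Cg, m, hCg, hgeom⟩ := hit_geom k hk2 c0 C0 C1 hc0 hC0 hC1
    obtain ⟨Cd, hCd⟩ := ideal_div_count D (1 / 16) (by norm_num)
    set CK : ℝ := (k : ℝ) ^ 2 * (2 * Cg) ^ (k - 2) * Cg ^ 2 with hCK
    have hCg0 : 0 < Cg := by linarith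
    have hCK0 : 0 < CK := by positivity
    set c3 : ℝ := 1 / (Cg * (1 + C0 * CK)) with hc3
    have hc30 : 0 < c3 := by positivity
    have hc31 : c3 ≤ 1 / Cg := by
      rw [hc3]
      apply one_div_le_one_div_of_le hCg0
      nlinarith [mul_pos hC0 hCK0]
    have hc3le1 : c3 ≤ 1 := hc31.trans (by rw [div_le_one hCg0]; exact hCg)
    have hc32 : C0 * CK * c3 ^ 2 < 1 := by
      have hx : 0 < C0 * CK := mul_pos hC0 hCK0
      have h1 : c3 ≤ 1 / (1 + C0 * CK) := by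
        rw [hc3]
        apply one_div_le_one_div_of_le (by positivity)
        nlinarith
      have h2 : c3 ^ 2 ≤ (1 / (1 + C0 * CK)) ^ 2 := pow_le_pow_left₀ hc30.le h1 2
      calc C0 * CK * c3 ^ 2 ≤ C0 * CK * (1 / (1 + C0 * CK)) ^ 2 :=
            mul_le_mul_of_nonneg_left h2 hx.le
        _ < 1 := by
          rw [div_pow, one_pow, mul_one_div, div_lt_one (by positivity)]
          nlinarith
    set c4 : ℝ := 1 / (8 * ((m : ℝ) + 1)) with hc4
    have hc40 : 0 < c4 := by positivity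
    have hc48 : c4 ≤ 1 / 8 := by
      rw [hc4]
      apply one_div_le_one_div_of_le (by norm_num)
      have : (0 : ℝ) ≤ m := Nat.cast_nonneg _
      linarith
    have hc4m : c4 * m ≤ 1 / 8 := by
      rw [hc4, one_div, inv_mul_le_iff₀ (by positivity)]
      have : (0 : ℝ) ≤ m := Nat.cast_nonneg _
      linarith
    refine ⟨c4, (2 * C1 + 2) / c3 * (((2 : ℝ) ^ k) ^ D * (Cd ^ 2 * (C0 ^ ((1 : ℝ) / 16)) ^ 2)) + 2 * Cg,
      hc40, by positivity, ?_⟩
    intro K _ _ hD F q T hF hFc hq hqT hlc hht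
    have hF0 : F ≠ 0 := by
      rintro rfl
      rw [natDegree_zero] at hF
      omega
    have hq' : (1 : ℝ) ≤ q := by exact_mod_cast hq
    have hqT' : (q : ℝ) ≤ T := by exact_mod_cast hqT
    have hT1 : (1 : ℝ) ≤ T := hq'.trans hqT'
    have hT0 : (0 : ℝ) < T := by linarith
    set η : ℝ := (T : ℝ) ^ (-c4) with hη
    have hη0 : 0 < η := Real.rpow_pos_of_pos hT0 _
    have hη1 : η ≤ 1 := Real.rpow_le_one_of_one_le_of_nonpos hT1 (by linarith)
    obtain ⟨bad, hbadc, hbad⟩ := hgeom F q T η hF hFc hq' hqT' hη0 hη1 hlc hht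
    set l : ℝ := c3 * η ^ m * (T : ℝ) ^ ((1 : ℝ) / 2) with hl
    have hTh0 : 0 < (T : ℝ) ^ ((1 : ℝ) / 2) := Real.rpow_pos_of_pos hT0 _
    have hTh : (T : ℝ) ^ ((1 : ℝ) / 2) ≤ T := by
      calc (T : ℝ) ^ ((1 : ℝ) / 2) ≤ (T : ℝ) ^ (1 : ℝ) :=
            Real.rpow_le_rpow_of_exponent_le hT1 (by norm_num)
        _ = T := Real.rpow_one _
    have hThsq : ((T : ℝ) ^ ((1 : ℝ) / 2)) ^ 2 = T := by
      rw [← Real.rpow_natCast, ← Real.rpow_mul hT0.le]
      norm_num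
    have hηm0 : 0 < η ^ m := pow_pos hη0 m
    have hl0 : 0 < l := by positivity
    have hlw : l ≤ η ^ m * T / Cg := by
      rw [hl]
      calc c3 * η ^ m * (T : ℝ) ^ ((1 : ℝ) / 2) ≤ (1 / Cg) * η ^ m * T := by
            apply mul_le_mul _ hTh hTh0.le (by positivity)
            exact mul_le_mul_of_nonneg_right hc31 hηm0.le
        _ = η ^ m * T / Cg := by ring
    have hl2 : C0 * ((k : ℝ) ^ 2 * (2 * Cg) ^ (k - 2) * Cg ^ 2) * l ^ 2 < T * η ^ (2 * m) := by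
      rw [← hCK, hl, mul_pow, mul_pow, hThsq]
      have e1 : η ^ (2 * m) = (η ^ m) ^ 2 := by rw [← pow_mul, mul_comm]
      rw [e1]
      calc C0 * CK * (c3 ^ 2 * (η ^ m) ^ 2 * T) = (C0 * CK * c3 ^ 2) * (T * (η ^ m) ^ 2) := by ring
        _ < 1 * (T * (η ^ m) ^ 2) := mul_lt_mul_of_pos_right hc32 (by positivity)
        _ = T * (η ^ m) ^ 2 := one_mul _
    have ha : |((F.leadingCoeff : ℤ) : ℝ)| ≤ C0 * q := hht _
    have haT : |((F.leadingCoeff : ℤ) : ℝ)| ≤ C0 * T :=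
      ha.trans (mul_le_mul_of_nonneg_left hqT' hC0.le)
    have hlc0 : F.leadingCoeff ≠ 0 := leadingCoeff_ne_zero.2 hF0
    have hmain := hit_inj k D hk2 c0 C0 C1 hc0 hC0 hC1 Cg m hCg Cd (1 / 16) K hD F hF hF0 q T η l
      hq' hqT' hη0 hl0 hlw hl2 ha (hCd K hD F.leadingCoeff hlc0) bad hbad
    set S := (Finset.Icc (-⌊C1 * T⌋) ⌊C1 * T⌋).filter
      (fun t : ℤ => t ∉ bad ∧ ¬ Irreducible ((F - Polynomial.C t).map (algebraMap ℤ K))) with hS
    have hcov : ((Finset.Icc (-⌊C1 * T⌋) ⌊C1 * T⌋).filter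
        (fun t : ℤ => ¬ Irreducible ((F - Polynomial.C t).map (algebraMap ℤ K)))).card
        ≤ S.card + bad.card := by
      refine le_trans (Finset.card_le_card ?_) (Finset.card_union_le S bad)
      intro t ht
      rw [Finset.mem_filter] at ht
      rw [Finset.mem_union]
      by_cases hb : t ∈ bad
      · exact Or.inr hb
      · left
        rw [hS, Finset.mem_filter]
        exact ⟨ht.1, hb, ht.2⟩
    have hcov' : (((Finset.Icc (-⌊C1 * T⌋) ⌊C1 * T⌋).filter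
        (fun t : ℤ => ¬ Irreducible ((F - Polynomial.C t).map (algebraMap ℤ K)))).card : ℝ)
        ≤ (S.card : ℝ) + (bad.card : ℝ) := by exact_mod_cast hcov
    refine hcov'.trans ?_
    rw [add_mul]
    have hpow4 : (T : ℝ) ^ ((3 : ℝ) / 4) ≤ (T : ℝ) ^ (1 - c4) :=
      Real.rpow_le_rpow_of_exponent_le hT1 (by linarith)
    apply add_le_add
    · refine hmain.trans ?_
      -- the three factors
      have f1 : 2 * (C1 * T / l) + 2 ≤ (2 * C1 + 2) / c3 * (T : ℝ) ^ ((5 : ℝ) / 8) := by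
        have g1 : 1 ≤ T / l := by
          rw [le_div_iff₀ hl0, one_mul]
          calc l ≤ η ^ m * T / Cg := hlw
            _ ≤ 1 * T / 1 := by
              apply div_le_div₀ (by positivity) _ one_pos hCg
              exact mul_le_mul_of_nonneg_right (pow_le_one₀ hη0.le hη1) hT0.le
            _ = T := by ring
        have g2 : T / l ≤ 1 / c3 * (T : ℝ) ^ ((5 : ℝ) / 8) := by
          rw [div_le_iff₀ hl0, hl]
          have g3 : η ^ m = (T : ℝ) ^ (-(c4 * m)) := by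
            rw [hη, ← Real.rpow_natCast, ← Real.rpow_mul hT0.le]
            congr 1
            ring
          rw [g3]
          have g4 : 1 / c3 * (T : ℝ) ^ ((5 : ℝ) / 8) *
              (c3 * (T : ℝ) ^ (-(c4 * m)) * (T : ℝ) ^ ((1 : ℝ) / 2))
              = (T : ℝ) ^ ((5 : ℝ) / 8 + (-(c4 * m)) + (1 : ℝ) / 2) := by
            rw [Real.rpow_add hT0, Real.rpow_add hT0]
            field_simp
          rw [g4]
          calc (T : ℝ) = (T : ℝ) ^ (1 : ℝ) := (Real.rpow_one _).symm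
            _ ≤ _ := Real.rpow_le_rpow_of_exponent_le hT1 (by linarith)
        calc 2 * (C1 * T / l) + 2 = 2 * C1 * (T / l) + 2 * 1 := by ring
          _ ≤ 2 * C1 * (T / l) + 2 * (T / l) := by linarith
          _ = (2 * C1 + 2) * (T / l) := by ring
          _ ≤ (2 * C1 + 2) * (1 / c3 * (T : ℝ) ^ ((5 : ℝ) / 8)) :=
            mul_le_mul_of_nonneg_left g2 (by positivity)
          _ = _ := by ring
      have f2 : (Cd * |((F.leadingCoeff : ℤ) : ℝ)| ^ ((1 : ℝ) / 16)) *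
          (Cd * |((F.leadingCoeff : ℤ) : ℝ)| ^ ((1 : ℝ) / 16))
          ≤ Cd ^ 2 * (C0 ^ ((1 : ℝ) / 16)) ^ 2 * (T : ℝ) ^ ((1 : ℝ) / 8) := by
        have g1 : |((F.leadingCoeff : ℤ) : ℝ)| ^ ((1 : ℝ) / 16)
            ≤ C0 ^ ((1 : ℝ) / 16) * (T : ℝ) ^ ((1 : ℝ) / 16) := by
          rw [← Real.mul_rpow hC0.le hT0.le]
          exact Real.rpow_le_rpow (abs_nonneg _) haT (by norm_num)
        have g2 : (T : ℝ) ^ ((1 : ℝ) / 8) = ((T : ℝ) ^ ((1 : ℝ) / 16)) ^ 2 := by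
          rw [← Real.rpow_natCast, ← Real.rpow_mul hT0.le]
          norm_num
        rw [g2]
        calc (Cd * |((F.leadingCoeff : ℤ) : ℝ)| ^ ((1 : ℝ) / 16)) *
            (Cd * |((F.leadingCoeff : ℤ) : ℝ)| ^ ((1 : ℝ) / 16))
            = Cd ^ 2 * (|((F.leadingCoeff : ℤ) : ℝ)| ^ ((1 : ℝ) / 16)) ^ 2 := by ring
          _ ≤ Cd ^ 2 * (C0 ^ ((1 : ℝ) / 16) * (T : ℝ) ^ ((1 : ℝ) / 16)) ^ 2 := by
            apply mul_le_mul_of_nonneg_left _ (by positivity)
            exact pow_le_pow_left₀ (by positivity) g1 2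
          _ = _ := by ring
      have f3 : (T : ℝ) ^ ((5 : ℝ) / 8) * (T : ℝ) ^ ((1 : ℝ) / 8) = (T : ℝ) ^ ((3 : ℝ) / 4) := by
        rw [← Real.rpow_add hT0]; norm_num
      have hsq0 : 0 ≤ (Cd * |((F.leadingCoeff : ℤ) : ℝ)| ^ ((1 : ℝ) / 16)) *
          (Cd * |((F.leadingCoeff : ℤ) : ℝ)| ^ ((1 : ℝ) / 16)) := mul_self_nonneg _
      calc _ ≤ ((2 * C1 + 2) / c3 * (T : ℝ) ^ ((5 : ℝ) / 8)) * (((2 : ℝ) ^ k) ^ D *
            (Cd ^ 2 * (C0 ^ ((1 : ℝ) / 16)) ^ 2 * (T : ℝ) ^ ((1 : ℝ) / 8))) := by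
            apply mul_le_mul f1 _ (by positivity) (by positivity)
            exact mul_le_mul_of_nonneg_left f2 (by positivity)
        _ = (2 * C1 + 2) / c3 * (((2 : ℝ) ^ k) ^ D * (Cd ^ 2 * (C0 ^ ((1 : ℝ) / 16)) ^ 2)) *
            ((T : ℝ) ^ ((5 : ℝ) / 8) * (T : ℝ) ^ ((1 : ℝ) / 8)) := by ring
        _ ≤ _ := by
          rw [f3]
          exact mul_le_mul_of_nonneg_left hpow4 (by positivity)
    · refine hbadc.trans ?_
      have h1 : η * T = (T : ℝ) ^ (1 - c4) := by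
        rw [hη]
        nth_rewrite 2 [← Real.rpow_one (T : ℝ)]
        rw [← Real.rpow_add hT0]
        congr 1
        ring
      have h2 : (1 : ℝ) ≤ (T : ℝ) ^ (1 - c4) := Real.one_le_rpow hT1 (by linarith)
      rw [h1]
      nlinarith

end EK75
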