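import Pool.Agent.H75.EK.Defs

/-! Module HITG: geometry of the complex roots of `F - t`. -/

open Polynomial Finset
open scoped Real BigOperators

namespace EK75

/-- `y` enumerates the (distinct) roots of `F - t` -/
def RootsOf (k : ℕ) (F : ℤ[X]) (t : ℤ) (y : Fin k → ℂ) : Prop :=
  Function.Injective y ∧
    (F - C t).map (Int.castRingHom ℂ) = C ((F.leadingCoeff : ℤ) : ℂ) * ∏ i, (X - C (y i))

/-- enumeration of the roots of a complex polynomial -/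
theorem hitg_enum (P : ℂ[X]) (k : ℕ) (hP : P.natDegree = k) :
    ∃ y : Fin k → ℂ, P = C P.leadingCoeff * ∏ i, (X - C (y i)) := by
  classical
  have hs : P.Splits := IsAlgClosed.splits P
  have hcard : Multiset.card P.roots = k := by
    rw [← hP]; exact hs.natDegree_eq_card_roots.symm
  have hprod : C P.leadingCoeff * (P.roots.map (fun a => X - C a)).prod = P :=
    Polynomial.C_leadingCoeff_mul_prod_multiset_X_sub_C (by rw [hcard, hP])
  have hlen : P.roots.toList.length = k := by rw [Multiset.length_toList, hcard]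
  refine ⟨fun i => P.roots.toList.get (i.cast hlen.symm), ?_⟩
  have h1 : (P.roots.map (fun a => X - C a)).prod =
      ∏ i : Fin k, (X - C (P.roots.toList.get (i.cast hlen.symm))) := by
    conv_lhs => rw [← Multiset.coe_toList P.roots]
    rw [Multiset.map_coe, Multiset.prod_coe]
    subst hlen
    rw [← List.prod_ofFn]
    congr 1
    apply List.ext_get
    · simp
    · intro n h1 h2
      simp
  rw [← h1]
  exact hprod.symm

theorem hitg_pow_sub (x y : ℂ) (R : ℝ) (hx : ‖x‖ ≤ R) (hy : ‖y‖ ≤ R) (j : ℕ) :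
    ‖x ^ j - y ^ j‖ ≤ j * R ^ (j - 1) * ‖x - y‖ := by
  have hR : 0 ≤ R := (norm_nonneg _).trans hx
  induction j with
  | zero => simp
  | succ j ih =>
    have h1 : x ^ (j + 1) - y ^ (j + 1) = x * (x ^ j - y ^ j) + (x - y) * y ^ j := by ring
    rw [h1]
    have h2 : ‖x * (x ^ j - y ^ j)‖ ≤ R * (j * R ^ (j - 1) * ‖x - y‖) := by
      rw [norm_mul]
      exact mul_le_mul hx ih (norm_nonneg _) hR
    have h3 : ‖(x - y) * y ^ j‖ ≤ R ^ j * ‖x - y‖ := by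
      rw [norm_mul, norm_pow, mul_comm]
      exact mul_le_mul_of_nonneg_right (pow_le_pow_left₀ (norm_nonneg _) hy _) (norm_nonneg _)
    refine (norm_add_le _ _).trans ((add_le_add h2 h3).trans (le_of_eq ?_))
    rcases j with _ | j
    · simp
    · simp only [Nat.add_sub_cancel]
      push_cast
      ring

theorem hitg_lip (G : ℂ[X]) (k : ℕ) (hG : G.natDegree = k) (A R : ℝ)
    (hA : ∀ j, ‖G.coeff j‖ ≤ A) (hR : 1 ≤ R) (x y : ℂ) (hx : ‖x‖ ≤ R) (hy : ‖y‖ ≤ R) :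
    ‖G.eval x - G.eval y‖ ≤ (k + 1) * (A * (k * R ^ (k - 1))) * ‖x - y‖ := by
  have hA0 : 0 ≤ A := (norm_nonneg _).trans (hA 0)
  have hR0 : (0 : ℝ) ≤ R := by linarith
  rw [Polynomial.eval_eq_sum_range, Polynomial.eval_eq_sum_range, hG, ← Finset.sum_sub_distrib]
  refine (norm_sum_le _ _).trans ?_
  have h1 : ∀ j ∈ range (k + 1), ‖G.coeff j * x ^ j - G.coeff j * y ^ j‖ ≤
      A * (k * R ^ (k - 1)) * ‖x - y‖ := by
    intro j hj
    rw [Finset.mem_range] at hj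
    rw [← mul_sub, norm_mul]
    have h2 := hitg_pow_sub x y R hx hy j
    have h3 : (j : ℝ) * R ^ (j - 1) ≤ k * R ^ (k - 1) := by
      refine mul_le_mul (by exact_mod_cast (by omega : j ≤ k)) ?_ (by positivity) (by positivity)
      exact pow_le_pow_right₀ hR (by omega)
    calc ‖G.coeff j‖ * ‖x ^ j - y ^ j‖ ≤ A * (j * R ^ (j - 1) * ‖x - y‖) :=
          mul_le_mul (hA j) h2 (norm_nonneg _) hA0
      _ ≤ A * (k * R ^ (k - 1) * ‖x - y‖) :=
          mul_le_mul_of_nonneg_left (mul_le_mul_of_nonneg_right h3 (norm_nonneg _)) hA0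
      _ = _ := by ring
  refine (Finset.sum_le_sum h1).trans (le_of_eq ?_)
  rw [Finset.sum_const, Finset.card_range, nsmul_eq_mul]
  push_cast
  ring

/-- roots are small -/
theorem hitg_root (P : ℂ[X]) (d : ℕ) (hd : 1 ≤ d) (hP : P.natDegree = d) (A B : ℝ)
    (hA : ∀ j, 1 ≤ j → j < d → ‖P.coeff j‖ ≤ A) (hA0 : 0 ≤ A) (hB : ‖P.coeff 0‖ ≤ B) (x : ℂ)
    (hx : 1 ≤ ‖x‖) (h : P.eval x = 0) :
    ‖P.leadingCoeff‖ * ‖x‖ ^ d ≤ A * d * ‖x‖ ^ (d - 1) + B := by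
  have h1 : P.leadingCoeff * x ^ d = -∑ j ∈ range d, P.coeff j * x ^ j := by
    rw [Polynomial.eval_eq_sum_range, hP, Finset.sum_range_succ] at h
    unfold Polynomial.leadingCoeff
    rw [hP]
    linear_combination h
  have h2 : ‖P.leadingCoeff‖ * ‖x‖ ^ d = ‖∑ j ∈ range d, P.coeff j * x ^ j‖ := by
    rw [← norm_pow, ← norm_mul, h1, norm_neg]
  rw [h2]
  obtain ⟨d', rfl⟩ : ∃ d', d = d' + 1 := ⟨d - 1, by omega⟩
  rw [Finset.sum_range_succ']
  refine (norm_add_le _ _).trans (add_le_add ?_ ?_)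
  · refine (norm_sum_le _ _).trans ?_
    have h3 : ∀ j ∈ range d', ‖P.coeff (j + 1) * x ^ (j + 1)‖ ≤ A * ‖x‖ ^ (d' + 1 - 1) := by
      intro j hj
      rw [Finset.mem_range] at hj
      rw [norm_mul, norm_pow]
      exact mul_le_mul (hA _ (by omega) (by omega)) (pow_le_pow_right₀ hx (by omega))
        (by positivity) hA0
    refine (Finset.sum_le_sum h3).trans ?_
    rw [Finset.sum_const, Finset.card_range, nsmul_eq_mul]
    push_cast
    have h4 : 0 ≤ A * ‖x‖ ^ (d' + 1 - 1) := by positivity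
    have h5 : A * ((d' : ℝ) + 1) * ‖x‖ ^ (d' + 1 - 1) =
        d' * (A * ‖x‖ ^ (d' + 1 - 1)) + A * ‖x‖ ^ (d' + 1 - 1) := by ring
    calc (d' : ℝ) * (A * ‖x‖ ^ (d' + 1 - 1)) ≤
        d' * (A * ‖x‖ ^ (d' + 1 - 1)) + A * ‖x‖ ^ (d' + 1 - 1) := by linarith
      _ = _ := h5.symm
  · simpa using hB

theorem hitg_deriv {k : ℕ} (G : ℂ[X]) (a t : ℂ) (y : Fin k → ℂ)
    (h : G - C t = C a * ∏ i, (X - C (y i))) (j : Fin k) :
    G.derivative.eval (y j) = a * ∏ i ∈ univ.erase j, (y j - y i) := by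
  have h1 : G.derivative = C a * derivative (∏ i, (X - C (y i))) := by
    have : derivative (G - C t) = derivative (C a * ∏ i, (X - C (y i))) := by rw [h]
    rw [derivative_sub, derivative_C, sub_zero, derivative_mul, derivative_C, zero_mul, zero_add]
      at this
    exact this
  rw [h1, eval_mul, eval_C, Polynomial.derivative_prod_finset, eval_finsetSum]
  congr 1
  rw [Finset.sum_eq_single j]
  · rw [eval_mul, eval_prod]
    simp
  · intro i _ hij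
    rw [eval_mul, eval_prod]
    have : ∏ l ∈ univ.erase i, eval (y j) (X - C (y l)) = 0 := by
      apply Finset.prod_eq_zero (i := j)
      · rw [Finset.mem_erase]; exact ⟨hij.symm, Finset.mem_univ _⟩
      · simp
    rw [this, zero_mul]
  · intro h; exact absurd (Finset.mem_univ _) h

/-- matching of the roots -/
theorem hitg_match {k : ℕ} (G : ℂ[X]) (a t t' : ℂ) (sep : ℝ) (ha : a ≠ 0)
    (hs : 0 < sep) (y y' : Fin k → ℂ)
    (h : G - C t = C a * ∏ i, (X - C (y i))) (h' : G - C t' = C a * ∏ i, (X - C (y' i)))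
    (hsep : ∀ i j, i ≠ j → sep ≤ ‖y' i - y' j‖) (hc : ‖t - t'‖ ≤ ‖a‖ * (sep / 8) ^ k) (i : Fin k) :
    ∃ j, ‖y i - y' j‖ ≤ sep / 8 ∧ ‖y i - y' j‖ * (‖a‖ * (sep / 2) ^ (k - 1)) ≤ ‖t - t'‖ := by
  have ha' : 0 < ‖a‖ := norm_pos_iff.2 ha
  have h1 : G.eval (y i) = t := by
    have : (G - C t).eval (y i) = 0 := by
      rw [h, eval_mul, eval_prod]
      rw [Finset.prod_eq_zero (Finset.mem_univ i) (by simp), mul_zero]
    rw [eval_sub, eval_C, sub_eq_zero] at this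
    exact this
  have h2 : ‖t - t'‖ = ‖a‖ * ∏ j, ‖y i - y' j‖ := by
    have : (G - C t').eval (y i) = a * ∏ j, (y i - y' j) := by
      rw [h', eval_mul, eval_prod, eval_C]
      simp
    rw [eval_sub, eval_C, h1] at this
    rw [this, norm_mul, norm_prod]
  have h3 : ∃ j, ‖y i - y' j‖ ≤ sep / 8 := by
    by_contra hcon
    push Not at hcon
    have h4 : (sep / 8) ^ k < ∏ j, ‖y i - y' j‖ := by
      have h5 : ∏ _j : Fin k, (sep / 8) < ∏ j, ‖y i - y' j‖ :=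
        Finset.prod_lt_prod_of_nonempty (fun _ _ => by positivity) (fun j _ => hcon j)
          ⟨i, Finset.mem_univ _⟩
      rwa [Finset.prod_const, Finset.card_univ, Fintype.card_fin] at h5
    have h5 : ‖a‖ * (sep / 8) ^ k < ‖a‖ * ∏ j, ‖y i - y' j‖ := mul_lt_mul_of_pos_left h4 ha'
    linarith
  obtain ⟨j, hj⟩ := h3
  refine ⟨j, hj, ?_⟩
  have h4 : (sep / 2) ^ (k - 1) ≤ ∏ l ∈ univ.erase j, ‖y i - y' l‖ := by
    have h5 : ∏ _l ∈ univ.erase j, (sep / 2) ≤ ∏ l ∈ univ.erase j, ‖y i - y' l‖ := by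
      refine Finset.prod_le_prod (fun _ _ => by positivity) fun l hl => ?_
      have h6 := hsep j l (Finset.ne_of_mem_erase hl).symm
      have h7 : ‖y' j - y' l‖ ≤ ‖y i - y' j‖ + ‖y i - y' l‖ := by
        have : y' j - y' l = -(y i - y' j) + (y i - y' l) := by ring
        rw [this]
        refine (norm_add_le _ _).trans ?_
        rw [norm_neg]
      linarith
    rw [Finset.prod_const, Finset.card_erase_of_mem (Finset.mem_univ _), Finset.card_univ,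
      Fintype.card_fin] at h5
    exact h5
  rw [h2, ← Finset.mul_prod_erase univ _ (Finset.mem_univ j)]
  calc ‖y i - y' j‖ * (‖a‖ * (sep / 2) ^ (k - 1)) =
      ‖a‖ * (‖y i - y' j‖ * (sep / 2) ^ (k - 1)) := by ring
    _ ≤ ‖a‖ * (‖y i - y' j‖ * ∏ l ∈ univ.erase j, ‖y i - y' l‖) :=
      mul_le_mul_of_nonneg_left (mul_le_mul_of_nonneg_left h4 (norm_nonneg _)) ha'.le

/-- standing assumptions -/
structure HitgA (k : ℕ) (c0 C0 C1 q T η ρ : ℝ) (G : ℂ[X]) : Prop where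
  hk : 2 ≤ k
  c0p : 0 < c0
  C0p : 0 < C0
  C1p : 0 < C1
  q1 : 1 ≤ q
  Teq : T = q * ρ ^ k
  ρ1 : 1 ≤ ρ
  η0 : 0 < η
  η1 : η ≤ 1
  deg : G.natDegree = k
  G0 : G.coeff 0 = 0
  lead : c0 * q ≤ ‖G.leadingCoeff‖
  coef : ∀ j, ‖G.coeff j‖ ≤ C0 * q

/-- bound for the roots -/
noncomputable def hitgK (k : ℕ) (c0 C0 C1 : ℝ) : ℝ := 1 + 2 * (C0 * k + C1) / c0

/-- Lipschitz constant -/
noncomputable def hitgL (k : ℕ) (c0 C0 C1 : ℝ) : ℝ :=
  (k + 1) * (C0 * (k * hitgK k c0 C0 C1 ^ (k - 1)))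

/-- separation constant -/
noncomputable def hitgc (k : ℕ) (c0 C0 C1 : ℝ) : ℝ :=
  (1 / hitgL k c0 C0 C1) ^ (k - 1) / (2 * hitgK k c0 C0 C1) ^ (k - 2)

theorem hitgK_ge (k : ℕ) (c0 C0 C1 : ℝ) (h0 : 0 < c0) (h1 : 0 < C0) (h2 : 0 < C1) :
    1 ≤ hitgK k c0 C0 C1 := by
  unfold hitgK
  have : 0 ≤ 2 * (C0 * k + C1) / c0 := by positivity
  linarith

theorem hitgL_pos (k : ℕ) (hk : 2 ≤ k) (c0 C0 C1 : ℝ) (h0 : 0 < c0) (h1 : 0 < C0) (h2 : 0 < C1) :
    0 < hitgL k c0 C0 C1 := by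
  have h3 := hitgK_ge k c0 C0 C1 h0 h1 h2
  have h4 : (0 : ℝ) < k := by exact_mod_cast (by omega : 0 < k)
  unfold hitgL
  have h5 : 0 < hitgK k c0 C0 C1 := by linarith
  positivity

theorem hitgc_pos (k : ℕ) (hk : 2 ≤ k) (c0 C0 C1 : ℝ) (h0 : 0 < c0) (h1 : 0 < C0) (h2 : 0 < C1) :
    0 < hitgc k c0 C0 C1 := by
  have h3 := hitgK_ge k c0 C0 C1 h0 h1 h2
  have h4 := hitgL_pos k hk c0 C0 C1 h0 h1 h2
  unfold hitgc
  have h5 : 0 < hitgK k c0 C0 C1 := by linarith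
  positivity

theorem hitg_natDegree_sub (G : ℂ[X]) (t : ℂ) : (G - C t).natDegree = G.natDegree :=
  Polynomial.natDegree_sub_C

theorem hitg_lead_sub (G : ℂ[X]) (t : ℂ) (h : 1 ≤ G.natDegree) :
    (G - C t).leadingCoeff = G.leadingCoeff := by
  unfold Polynomial.leadingCoeff
  rw [hitg_natDegree_sub, coeff_sub, coeff_C, if_neg (by omega), sub_zero]

theorem hitg_root_bound {k : ℕ} {c0 C0 C1 q T η ρ : ℝ} {G : ℂ[X]}
    (h : HitgA k c0 C0 C1 q T η ρ G) (t x : ℂ) (ht : ‖t‖ ≤ C1 * T) (hx : (G - C t).eval x = 0) :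
    ‖x‖ ≤ hitgK k c0 C0 C1 * ρ := by
  by_contra hcon
  push Not at hcon
  have hk := h.hk
  have hc0 := h.c0p
  have hC0 := h.C0p
  have hC1 := h.C1p
  have hq := h.q1
  have hρ := h.ρ1
  have hK := hitgK_ge k c0 C0 C1 h.c0p h.C0p h.C1p
  have hKx : hitgK k c0 C0 C1 ≤ ‖x‖ := by
    have := mul_le_mul_of_nonneg_left hρ (by linarith : 0 ≤ hitgK k c0 C0 C1)
    linarith
  have hx1 : 1 ≤ ‖x‖ := hK.trans hKx
  have h1 := hitg_root (G - C t) k (by omega) (by rw [hitg_natDegree_sub, h.deg]) (C0 * q)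
    (C1 * T) (fun j hj _ => by
      rw [coeff_sub, coeff_C, if_neg (by omega), sub_zero]; exact h.coef j) (by positivity)
    (by rw [coeff_sub, h.G0, coeff_C_zero, zero_sub, norm_neg]; exact ht) x hx1 hx
  rw [hitg_lead_sub G t (by rw [h.deg]; omega), h.Teq] at h1
  obtain ⟨d, rfl⟩ : ∃ d, k = d + 1 := ⟨k - 1, by omega⟩
  simp only [Nat.add_sub_cancel] at h1
  set K := hitgK (d + 1) c0 C0 C1 with hKdef
  have hK0 : 0 < K := by linarith
  -- K * (c0 q) ‖x‖^d ≤ ...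
  have h2 : ρ ^ (d + 1) ≤ ‖x‖ ^ d * ‖x‖ / K := by
    rw [le_div_iff₀ hK0, ← pow_succ]
    have h3 : (K * ρ) ^ (d + 1) ≤ ‖x‖ ^ (d + 1) := pow_le_pow_left₀ (by positivity) hcon.le _
    have h4 : ρ ^ (d + 1) * K ≤ (K * ρ) ^ (d + 1) := by
      rw [mul_pow, mul_comm]
      refine mul_le_mul_of_nonneg_right ?_ (by positivity)
      calc K = K ^ 1 := (pow_one K).symm
        _ ≤ K ^ (d + 1) := pow_le_pow_right₀ hK (by omega)
    linarith
  have h3 : ‖x‖ ^ d ≤ ‖x‖ ^ d * ‖x‖ / K := by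
    rw [le_div_iff₀ hK0]
    exact mul_le_mul_of_nonneg_left hKx (by positivity)
  have hX : 0 < ‖x‖ ^ d * ‖x‖ := by positivity
  have h4 : c0 * q * (‖x‖ ^ d * ‖x‖) ≤
      (C0 * q * ((d + 1 : ℕ) : ℝ) + C1 * q) * (‖x‖ ^ d * ‖x‖ / K) := by
    have h5 : c0 * q * (‖x‖ ^ d * ‖x‖) ≤ ‖G.leadingCoeff‖ * ‖x‖ ^ (d + 1) := by
      rw [pow_succ]
      exact mul_le_mul_of_nonneg_right h.lead hX.le
    have h6 : C0 * q * ((d + 1 : ℕ) : ℝ) * ‖x‖ ^ d ≤
        C0 * q * ((d + 1 : ℕ) : ℝ) * (‖x‖ ^ d * ‖x‖ / K) :=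
      mul_le_mul_of_nonneg_left h3 (by positivity)
    have h7 : C1 * (q * ρ ^ (d + 1)) ≤ C1 * q * (‖x‖ ^ d * ‖x‖ / K) := by
      rw [← mul_assoc]
      exact mul_le_mul_of_nonneg_left h2 (by positivity)
    linarith
  have h5 : c0 * q * K ≤ C0 * q * ((d + 1 : ℕ) : ℝ) + C1 * q := by
    have h6 : (c0 * q * K) * (‖x‖ ^ d * ‖x‖ / K) ≤
        (C0 * q * ((d + 1 : ℕ) : ℝ) + C1 * q) * (‖x‖ ^ d * ‖x‖ / K) := by
      refine le_trans (le_of_eq ?_) h4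
      field_simp
    exact le_of_mul_le_mul_right h6 (by positivity)
  have h6 : c0 * K = c0 + 2 * (C0 * ((d + 1 : ℕ) : ℝ) + C1) := by
    rw [hKdef]
    unfold hitgK
    field_simp
  have h7 : c0 * q * K = (c0 * K) * q := by ring
  rw [h7, h6] at h5
  have h8 : 0 < C0 * ((d + 1 : ℕ) : ℝ) + C1 := by positivity
  nlinarith

theorem hitg_crit_bound {k : ℕ} {c0 C0 C1 q T η ρ : ℝ} {G : ℂ[X]}
    (h : HitgA k c0 C0 C1 q T η ρ G) (x : ℂ) (hx : G.derivative.eval x = 0) :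
    ‖x‖ ≤ hitgK k c0 C0 C1 * ρ := by
  by_contra hcon
  push Not at hcon
  have hk := h.hk
  have hc0 := h.c0p
  have hC0 := h.C0p
  have hC1 := h.C1p
  have hq := h.q1
  have hρ := h.ρ1
  have hK := hitgK_ge k c0 C0 C1 h.c0p h.C0p h.C1p
  have hKx : hitgK k c0 C0 C1 < ‖x‖ := by
    have := mul_le_mul_of_nonneg_left hρ (by linarith : 0 ≤ hitgK k c0 C0 C1)
    linarith
  have hx1 : 1 ≤ ‖x‖ := hK.trans hKx.le
  have hdeg : G.derivative.natDegree = k - 1 := by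
    have := Polynomial.degree_derivative (p := G) (by rw [h.deg]; omega)
    rw [h.deg] at this
    exact Polynomial.natDegree_eq_of_degree_eq_some this
  have hcoef : ∀ j, j < k → ‖G.derivative.coeff j‖ ≤ k * (C0 * q) := by
    intro j hj
    rw [coeff_derivative, norm_mul, mul_comm]
    refine mul_le_mul ?_ (h.coef _) (norm_nonneg _) (by positivity)
    have : ‖((j : ℂ) + 1)‖ = (j : ℝ) + 1 := by
      have h1 : ((j : ℂ) + 1) = ((j + 1 : ℕ) : ℂ) := by push_cast; ring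
      rw [h1, Complex.norm_natCast]; push_cast; ring
    rw [this]
    exact_mod_cast hj
  have h1 := hitg_root G.derivative (k - 1) (by omega) hdeg (k * (C0 * q))
    (k * (C0 * q)) (fun j _ hj => hcoef j (by omega)) (by positivity)
    (hcoef 0 (by omega)) x hx1 hx
  have hlead : ‖G.derivative.leadingCoeff‖ = k * ‖G.leadingCoeff‖ := by
    unfold Polynomial.leadingCoeff
    rw [hdeg, coeff_derivative, h.deg, norm_mul, mul_comm, Nat.sub_add_cancel (by omega)]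
    congr 1
    have h1 : (((k - 1 : ℕ) : ℂ) + 1) = ((k : ℕ) : ℂ) := by
      have : (((k - 1 : ℕ) : ℂ) + 1) = ((k - 1 + 1 : ℕ) : ℂ) := by push_cast; ring
      rw [this, Nat.sub_add_cancel (by omega)]
    rw [h1, Complex.norm_natCast]
  rw [hlead] at h1
  obtain ⟨d, rfl⟩ : ∃ d, k = d + 2 := ⟨k - 2, by omega⟩
  have e1 : d + 2 - 1 = d + 1 := rfl
  have e2 : d + 2 - 1 - 1 = d := rfl
  rw [e2, e1] at h1
  have hx2 : (1 : ℝ) ≤ ‖x‖ ^ d := one_le_pow₀ hx1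
  have hkp : (0 : ℝ) < ((d + 2 : ℕ) : ℝ) := by positivity
  have h2 : ((d + 2 : ℕ) : ℝ) * (c0 * q) * (‖x‖ ^ d * ‖x‖) ≤
      ((d + 2 : ℕ) : ℝ) * (C0 * q) * ((d + 2 : ℕ) : ℝ) * ‖x‖ ^ d := by
    have h3 : ((d + 2 : ℕ) : ℝ) * (c0 * q) * (‖x‖ ^ d * ‖x‖) ≤
        ((d + 2 : ℕ) : ℝ) * ‖G.leadingCoeff‖ * ‖x‖ ^ (d + 1) := by
      rw [pow_succ]
      exact mul_le_mul_of_nonneg_right (mul_le_mul_of_nonneg_left h.lead hkp.le) (by positivity)
    have h4 : ((d + 2 : ℕ) : ℝ) * (C0 * q) ≤ ((d + 2 : ℕ) : ℝ) * (C0 * q) * ‖x‖ ^ d :=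
      le_mul_of_one_le_right (by positivity) hx2
    have h5 : ((d + 2 : ℕ) : ℝ) * (C0 * q) * ((d + 1 : ℕ) : ℝ) * ‖x‖ ^ d +
        ((d + 2 : ℕ) : ℝ) * (C0 * q) * ‖x‖ ^ d =
        ((d + 2 : ℕ) : ℝ) * (C0 * q) * ((d + 2 : ℕ) : ℝ) * ‖x‖ ^ d := by
      push_cast; ring
    linarith
  have h3 : c0 * ‖x‖ ≤ C0 * ((d + 2 : ℕ) : ℝ) := by
    have h4 : (((d + 2 : ℕ) : ℝ) * q * ‖x‖ ^ d) * (c0 * ‖x‖) ≤
        (((d + 2 : ℕ) : ℝ) * q * ‖x‖ ^ d) * (C0 * ((d + 2 : ℕ) : ℝ)) := by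
      linarith
    exact le_of_mul_le_mul_left h4 (by positivity)
  have h4 : c0 * hitgK (d + 2) c0 C0 C1 = c0 + 2 * (C0 * ((d + 2 : ℕ) : ℝ) + C1) := by
    unfold hitgK
    field_simp
  have h5 : c0 * hitgK (d + 2) c0 C0 C1 < c0 * ‖x‖ := mul_lt_mul_of_pos_left hKx hc0
  have h6 : 0 < C0 * ((d + 2 : ℕ) : ℝ) := by positivity
  linarith

/-- the roots of `F - t` are separated -/
theorem hitg_sep {k : ℕ} {c0 C0 C1 q T η ρ : ℝ} {G : ℂ[X]}
    (h : HitgA k c0 C0 C1 q T η ρ G) (ξ : Fin (k - 1) → ℂ)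
    (hξ : G.derivative = C G.derivative.leadingCoeff * ∏ i, (X - C (ξ i)))
    (t : ℂ) (ht : ‖t‖ ≤ C1 * T) (hgood : ∀ i, η * T ≤ ‖t - G.eval (ξ i)‖) :
    ∃ y : Fin k → ℂ, G - C t = C G.leadingCoeff * ∏ i, (X - C (y i)) ∧
      (∀ i, ‖y i‖ ≤ hitgK k c0 C0 C1 * ρ) ∧
      ∀ i j, i ≠ j → hitgc k c0 C0 C1 * η ^ (k - 1) * ρ ≤ ‖y i - y j‖ := by
  classical
  have hk := h.hk
  have hc0 := h.c0p
  have hC0 := h.C0p
  have hC1 := h.C1p
  have hq := h.q1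
  have hρ := h.ρ1
  have hη := h.η0
  have hK := hitgK_ge k c0 C0 C1 h.c0p h.C0p h.C1p
  have hL := hitgL_pos k hk c0 C0 C1 h.c0p h.C0p h.C1p
  have hK0 : 0 < hitgK k c0 C0 C1 := by linarith
  obtain ⟨y, hy⟩ := hitg_enum (G - C t) k (by rw [hitg_natDegree_sub, h.deg])
  rw [hitg_lead_sub G t (by rw [h.deg]; omega)] at hy
  have hroot : ∀ i, (G - C t).eval (y i) = 0 := by
    intro i
    rw [hy, eval_mul, eval_prod, Finset.prod_eq_zero (Finset.mem_univ i) (by simp), mul_zero]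
  have hb : ∀ i, ‖y i‖ ≤ hitgK k c0 C0 C1 * ρ := fun i => hitg_root_bound h t (y i) ht (hroot i)
  refine ⟨y, hy, hb, ?_⟩
  have hξb : ∀ i, ‖ξ i‖ ≤ hitgK k c0 C0 C1 * ρ := by
    intro i
    apply hitg_crit_bound h
    rw [hξ, eval_mul, eval_prod, Finset.prod_eq_zero (Finset.mem_univ i) (by simp), mul_zero]
  have hR1 : 1 ≤ hitgK k c0 C0 C1 * ρ := by nlinarith
  -- distance from the critical points
  have hd : ∀ j i, 1 / hitgL k c0 C0 C1 * (η * ρ) ≤ ‖y j - ξ i‖ := by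
    intro j i
    have h1 := hitg_lip G k h.deg (C0 * q) (hitgK k c0 C0 C1 * ρ) h.coef hR1 (y j) (ξ i) (hb j)
      (hξb i)
    have h2 : G.eval (y j) = t := by
      have := hroot j
      rw [eval_sub, eval_C, sub_eq_zero] at this
      exact this
    rw [h2] at h1
    have h3 := (hgood i).trans h1
    have h4 : (k + 1 : ℝ) * (C0 * q * (k * (hitgK k c0 C0 C1 * ρ) ^ (k - 1))) =
        hitgL k c0 C0 C1 * (q * ρ ^ (k - 1)) := by
      unfold hitgL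
      rw [mul_pow]
      ring
    rw [h4, h.Teq] at h3
    have h5 : ρ ^ k = ρ ^ (k - 1) * ρ := by
      rw [← pow_succ, Nat.sub_add_cancel (by omega)]
    rw [h5] at h3
    have h6 : (q * ρ ^ (k - 1)) * (η * ρ) ≤ (q * ρ ^ (k - 1)) * (hitgL k c0 C0 C1 * ‖y j - ξ i‖) := by
      linarith
    have h7 := le_of_mul_le_mul_left h6 (by positivity)
    rw [div_mul_eq_mul_div, one_mul, div_le_iff₀ hL]
    linarith
  -- the derivative
  have hkC : ‖G.derivative.leadingCoeff‖ = k * ‖G.leadingCoeff‖ := by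
    have hdeg : G.derivative.natDegree = k - 1 := by
      have := Polynomial.degree_derivative (p := G) (by rw [h.deg]; omega)
      rw [h.deg] at this
      exact Polynomial.natDegree_eq_of_degree_eq_some this
    unfold Polynomial.leadingCoeff
    rw [hdeg, coeff_derivative, h.deg, norm_mul, mul_comm, Nat.sub_add_cancel (by omega)]
    congr 1
    have h1 : (((k - 1 : ℕ) : ℂ) + 1) = ((k : ℕ) : ℂ) := by
      have : (((k - 1 : ℕ) : ℂ) + 1) = ((k - 1 + 1 : ℕ) : ℂ) := by push_cast; ring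
      rw [this, Nat.sub_add_cancel (by omega)]
    rw [h1, Complex.norm_natCast]
  have ha0 : 0 < ‖G.leadingCoeff‖ := lt_of_lt_of_le (by positivity) h.lead
  intro i j hij
  have h1 := hitg_deriv G G.leadingCoeff t y hy j
  have h2 : ‖G.derivative.eval (y j)‖ = k * ‖G.leadingCoeff‖ * ∏ l, ‖y j - ξ l‖ := by
    rw [hξ, eval_mul, eval_C, eval_prod, norm_mul, norm_prod]
    rw [← hkC]
    simp
  have h3 : (1 / hitgL k c0 C0 C1 * (η * ρ)) ^ (k - 1) ≤ ∏ l, ‖y j - ξ l‖ := by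
    have := Finset.prod_le_prod (s := (univ : Finset (Fin (k - 1))))
      (f := fun _ => 1 / hitgL k c0 C0 C1 * (η * ρ)) (g := fun l => ‖y j - ξ l‖)
      (fun _ _ => by positivity) (fun l _ => hd j l)
    rwa [Finset.prod_const, Finset.card_univ, Fintype.card_fin] at this
  have h4 : ∏ l ∈ univ.erase j, ‖y j - y l‖ ≤ ‖y i - y j‖ * (2 * (hitgK k c0 C0 C1 * ρ)) ^ (k - 2) := by
    have hi : i ∈ univ.erase j := Finset.mem_erase.2 ⟨hij, Finset.mem_univ _⟩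
    rw [← Finset.mul_prod_erase _ _ hi, norm_sub_rev (y j) (y i)]
    refine mul_le_mul_of_nonneg_left ?_ (norm_nonneg _)
    have h5 := Finset.prod_le_prod (s := (univ.erase j).erase i)
      (f := fun l => ‖y j - y l‖) (g := fun _ => 2 * (hitgK k c0 C0 C1 * ρ))
      (fun _ _ => norm_nonneg _) (fun l _ => by
        refine (norm_sub_le _ _).trans ?_
        have := hb j
        have := hb l
        linarith)
    rw [Finset.prod_const, Finset.card_erase_of_mem hi,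
      Finset.card_erase_of_mem (Finset.mem_univ _), Finset.card_univ, Fintype.card_fin] at h5
    exact h5
  have h5 : ‖G.derivative.eval (y j)‖ = ‖G.leadingCoeff‖ * ∏ l ∈ univ.erase j, ‖y j - y l‖ := by
    rw [h1, norm_mul, norm_prod]
  have h6 : (1 / hitgL k c0 C0 C1 * (η * ρ)) ^ (k - 1) ≤
      ‖y i - y j‖ * (2 * (hitgK k c0 C0 C1 * ρ)) ^ (k - 2) := by
    have h7 : ‖G.leadingCoeff‖ * (1 / hitgL k c0 C0 C1 * (η * ρ)) ^ (k - 1) ≤
        ‖G.leadingCoeff‖ * (‖y i - y j‖ * (2 * (hitgK k c0 C0 C1 * ρ)) ^ (k - 2)) := by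
      calc _ ≤ ‖G.leadingCoeff‖ * ∏ l, ‖y j - ξ l‖ := mul_le_mul_of_nonneg_left h3 ha0.le
        _ ≤ k * ‖G.leadingCoeff‖ * ∏ l, ‖y j - ξ l‖ := by
            have hk1 : (1 : ℝ) ≤ k := by exact_mod_cast (by omega : 1 ≤ k)
            have : 0 ≤ ‖G.leadingCoeff‖ * ∏ l, ‖y j - ξ l‖ :=
              mul_nonneg ha0.le (Finset.prod_nonneg fun _ _ => norm_nonneg _)
            nlinarith
        _ = ‖G.leadingCoeff‖ * ∏ l ∈ univ.erase j, ‖y j - y l‖ := by rw [← h2, h5]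
        _ ≤ _ := mul_le_mul_of_nonneg_left h4 ha0.le
    exact le_of_mul_le_mul_left h7 ha0
  obtain ⟨d, rfl⟩ : ∃ d, k = d + 2 := ⟨k - 2, by omega⟩
  unfold hitgc
  have e1 : d + 2 - 1 = d + 1 := rfl
  have e2 : d + 2 - 2 = d := rfl
  rw [e1, e2] at h6 ⊢
  have h7 : ∀ A B : ℝ, 0 < B → A ^ (d + 1) / (2 * B) ^ d * η ^ (d + 1) * ρ =
      (A * (η * ρ)) ^ (d + 1) / (2 * (B * ρ)) ^ d := by
    intro A B hB
    have hρ0 : 0 < ρ := by linarith
    have e3 : (2 * (B * ρ)) ^ d = (2 * B) ^ d * ρ ^ d := by rw [← mul_assoc, mul_pow]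
    have e4 : (A * (η * ρ)) ^ (d + 1) = A ^ (d + 1) * η ^ (d + 1) * ρ * ρ ^ d := by
      rw [mul_pow, mul_pow, pow_succ ρ d]; ring
    rw [e3, e4, mul_div_mul_right _ _ (by positivity)]
    ring
  rw [h7 _ _ hK0, div_le_iff₀ (by positivity)]
  exact h6

theorem hitg_count (S : Finset ℤ) (v r : ℝ) (hr : 0 ≤ r) :
    ((S.filter (fun t : ℤ => |(t : ℝ) - v| < r)).card : ℝ) ≤ 2 * r + 1 := by
  have h1 : S.filter (fun t : ℤ => |(t : ℝ) - v| < r) ⊆ Finset.Icc ⌈v - r⌉ ⌊v + r⌋ := by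
    intro t ht
    rw [Finset.mem_filter, abs_lt] at ht
    rw [Finset.mem_Icc, Int.ceil_le, Int.le_floor]
    constructor <;> linarith [ht.2.1, ht.2.2]
  have h2 := Finset.card_le_card h1
  rw [Int.card_Icc] at h2
  have h3 : (((⌊v + r⌋ + 1 - ⌈v - r⌉).toNat : ℕ) : ℝ) ≤ 2 * r + 1 := by
    have h4 : (((⌊v + r⌋ + 1 - ⌈v - r⌉).toNat : ℤ)) = max (⌊v + r⌋ + 1 - ⌈v - r⌉) 0 :=
      Int.toNat_eq_max _
    have h5 : (((⌊v + r⌋ + 1 - ⌈v - r⌉).toNat : ℕ) : ℝ) =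
        ((((⌊v + r⌋ + 1 - ⌈v - r⌉).toNat : ℤ)) : ℝ) := by norm_cast
    rw [h5, h4]
    push_cast
    apply max_le
    · have := Int.floor_le (v + r)
      have := Int.le_ceil (v - r)
      linarith
    · linarith
  exact le_trans (by exact_mod_cast h2) h3

/-- the constant `c5` -/
noncomputable def hitgc5 (k : ℕ) (c0 C0 C1 : ℝ) : ℝ := c0 * (hitgc k c0 C0 C1 / 8) ^ k

noncomputable def hitgc6 (k : ℕ) (c0 C0 C1 : ℝ) : ℝ := c0 * (hitgc k c0 C0 C1 / 2) ^ (k - 1)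

theorem hitg_bad_card {k : ℕ} (G : ℂ[X]) (ξ : Fin (k - 1) → ℂ) (S : Finset ℤ) (r : ℝ) (hr : 0 ≤ r) :
    ((S.filter (fun t : ℤ => ∃ i, ‖(t : ℂ) - G.eval (ξ i)‖ < r)).card : ℝ) ≤ k * (2 * r + 1) := by
  classical
  have h1 : S.filter (fun t : ℤ => ∃ i, ‖(t : ℂ) - G.eval (ξ i)‖ < r) ⊆
      univ.biUnion (fun i => S.filter (fun t : ℤ => |(t : ℝ) - (G.eval (ξ i)).re| < r)) := by
    intro t ht
    rw [Finset.mem_filter] at ht
    obtain ⟨hS, i, hi⟩ := ht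
    rw [Finset.mem_biUnion]
    refine ⟨i, Finset.mem_univ _, Finset.mem_filter.2 ⟨hS, lt_of_le_of_lt ?_ hi⟩⟩
    have := Complex.abs_re_le_norm ((t : ℂ) - G.eval (ξ i))
    simpa using this
  have h2 : (S.filter (fun t : ℤ => ∃ i, ‖(t : ℂ) - G.eval (ξ i)‖ < r)).card ≤
      ∑ i : Fin (k - 1), (S.filter (fun t : ℤ => |(t : ℝ) - (G.eval (ξ i)).re| < r)).card :=
    (Finset.card_le_card h1).trans Finset.card_biUnion_le
  have h3 : ((S.filter (fun t : ℤ => ∃ i, ‖(t : ℂ) - G.eval (ξ i)‖ < r)).card : ℝ) ≤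
      ∑ i : Fin (k - 1), ((S.filter (fun t : ℤ => |(t : ℝ) - (G.eval (ξ i)).re| < r)).card : ℝ) := by
    exact_mod_cast h2
  refine h3.trans ((Finset.sum_le_sum fun i _ => hitg_count S _ r hr).trans ?_)
  rw [Finset.sum_const, Finset.card_univ, Fintype.card_fin, nsmul_eq_mul]
  refine mul_le_mul_of_nonneg_right ?_ (by positivity)
  exact_mod_cast Nat.sub_le k 1

/-- the windows -/
theorem hitg_window {k : ℕ} {c0 C0 C1 q T η ρ : ℝ} {G : ℂ[X]}
    (h : HitgA k c0 C0 C1 q T η ρ G) (ξ : Fin (k - 1) → ℂ)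
    (hξ : G.derivative = C G.derivative.leadingCoeff * ∏ i, (X - C (ξ i)))
    (Adm : ℤ → Prop) (hA1 : ∀ t, Adm t → |(t : ℝ)| ≤ C1 * T)
    (hA2 : ∀ t, Adm t → ∀ i, η * T ≤ ‖(t : ℂ) - G.eval (ξ i)‖)
    (hA3 : ∀ t t', Adm t → Adm t' → |(t : ℝ) - t'| ≤ hitgc5 k c0 C0 C1 * η ^ (k * k) * T) :
    ∃ y : ℤ → Fin k → ℂ, ∀ t, Adm t →
      (Function.Injective (y t) ∧ G - C (t : ℂ) = C G.leadingCoeff * ∏ i, (X - C (y t i))) ∧
      (∀ i, ‖y t i‖ ≤ hitgK k c0 C0 C1 * ρ) ∧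
      ∀ t', Adm t' → ∀ i, ‖y t i - y t' i‖ * (hitgc6 k c0 C0 C1 * (q * η ^ (k * k) * ρ ^ (k - 1))) ≤
        |(t : ℝ) - t'| := by
  classical
  have hk := h.hk
  have hc0 := h.c0p
  have hq := h.q1
  have hρ := h.ρ1
  have hη := h.η0
  have hη1 := h.η1
  have hc := hitgc_pos k hk c0 C0 C1 h.c0p h.C0p h.C1p
  obtain ⟨sep, hsepdef⟩ : ∃ sep, sep = hitgc k c0 C0 C1 * η ^ (k - 1) * ρ := ⟨_, rfl⟩
  have hsep : 0 < sep := by rw [hsepdef]; positivity
  have ha0 : 0 < ‖G.leadingCoeff‖ := lt_of_lt_of_le (by positivity) h.lead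
  have hne : G.leadingCoeff ≠ 0 := norm_pos_iff.1 ha0
  have hdist : ∀ t t' : ℤ, ‖(t : ℂ) - (t' : ℂ)‖ = |(t : ℝ) - t'| := by
    intro t t'
    have : (t : ℂ) - (t' : ℂ) = (((t : ℝ) - t' : ℝ) : ℂ) := by push_cast; ring
    rw [this, Complex.norm_real, Real.norm_eq_abs]
  -- enumerations
  have henum : ∀ t, Adm t → ∃ y : Fin k → ℂ, G - C (t : ℂ) = C G.leadingCoeff * ∏ i, (X - C (y i)) ∧
      (∀ i, ‖y i‖ ≤ hitgK k c0 C0 C1 * ρ) ∧ ∀ i j, i ≠ j → sep ≤ ‖y i - y j‖ := by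
    intro t ht
    rw [hsepdef]
    refine hitg_sep h ξ hξ (t : ℂ) ?_ (hA2 t ht)
    have : ‖(t : ℂ)‖ = |(t : ℝ)| := by
      have h1 : (t : ℂ) = ((t : ℝ) : ℂ) := by push_cast; rfl
      rw [h1, Complex.norm_real, Real.norm_eq_abs]
    rw [this]
    exact hA1 t ht
  have hclose : ∀ t t', Adm t → Adm t' → ‖(t : ℂ) - (t' : ℂ)‖ ≤ ‖G.leadingCoeff‖ * (sep / 8) ^ k := by
    intro t t' ht ht'
    rw [hdist]
    refine (hA3 t t' ht ht').trans ?_
    have h1 : hitgc5 k c0 C0 C1 * η ^ (k * k) * T =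
        c0 * q * ((hitgc k c0 C0 C1 / 8) ^ k * ((η ^ k) ^ k * ρ ^ k)) := by
      unfold hitgc5
      rw [h.Teq, pow_mul]
      ring
    have h2 : (sep / 8) ^ k = (hitgc k c0 C0 C1 / 8) ^ k * ((η ^ (k - 1)) ^ k * ρ ^ k) := by
      rw [hsepdef, ← mul_pow, ← mul_pow]
      congr 1
      ring
    rw [h1, h2]
    refine mul_le_mul h.lead ?_ (by positivity) ha0.le
    refine mul_le_mul_of_nonneg_left ?_ (by positivity)
    refine mul_le_mul_of_nonneg_right ?_ (by positivity)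
    exact pow_le_pow_left₀ (by positivity) (pow_le_pow_of_le_one hη.le hη1 (by omega)) _
  have hlow : hitgc6 k c0 C0 C1 * (q * η ^ (k * k) * ρ ^ (k - 1)) ≤
      ‖G.leadingCoeff‖ * (sep / 2) ^ (k - 1) := by
    have h1 : hitgc6 k c0 C0 C1 * (q * η ^ (k * k) * ρ ^ (k - 1)) =
        c0 * q * ((hitgc k c0 C0 C1 / 2) ^ (k - 1) * (η ^ (k * k) * ρ ^ (k - 1))) := by
      unfold hitgc6
      ring
    have h2 : (sep / 2) ^ (k - 1) =
        (hitgc k c0 C0 C1 / 2) ^ (k - 1) * ((η ^ (k - 1)) ^ (k - 1) * ρ ^ (k - 1)) := by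
      rw [hsepdef, ← mul_pow, ← mul_pow]
      congr 1
      ring
    rw [h1, h2]
    refine mul_le_mul h.lead ?_ (by positivity) ha0.le
    refine mul_le_mul_of_nonneg_left ?_ (by positivity)
    refine mul_le_mul_of_nonneg_right ?_ (by positivity)
    rw [← pow_mul]
    exact pow_le_pow_of_le_one hη.le hη1 (Nat.mul_le_mul (Nat.sub_le _ _) (Nat.sub_le _ _))
  by_cases hex : ∃ t, Adm t
  swap
  · exact ⟨fun _ _ => 0, fun t ht => absurd ⟨t, ht⟩ hex⟩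
  obtain ⟨ts, hts⟩ := hex
  obtain ⟨ys, hys1, hys2, hys3⟩ := henum ts hts
  have hnear : ∀ t, Adm t → ∃ y : Fin k → ℂ, G - C (t : ℂ) = C G.leadingCoeff * ∏ i, (X - C (y i)) ∧
      (∀ i, ‖y i‖ ≤ hitgK k c0 C0 C1 * ρ) ∧ (∀ i j, i ≠ j → sep ≤ ‖y i - y j‖) ∧
      ∀ i, ‖ys i - y i‖ ≤ sep / 8 := by
    intro t ht
    obtain ⟨z, hz1, hz2, hz3⟩ := henum t ht
    choose σ hσ1 hσ2 using fun i => hitg_match G G.leadingCoeff (ts : ℂ) (t : ℂ) sep hne hsep ys z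
      hys1 hz1 hz3 (hclose ts t hts ht) i
    have hinj : Function.Injective σ := by
      intro i i' hii
      by_contra hne'
      have h1 := hys3 i i' hne'
      have h2 : ‖ys i - ys i'‖ ≤ ‖ys i - z (σ i)‖ + ‖ys i' - z (σ i')‖ := by
        have : ys i - ys i' = (ys i - z (σ i)) - (ys i' - z (σ i')) := by rw [hii]; ring
        rw [this]
        exact norm_sub_le _ _
      have := hσ1 i
      have := hσ1 i'
      linarith
    have hbij : Function.Bijective σ := Finite.injective_iff_bijective.1 hinj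
    refine ⟨fun i => z (σ i), ?_, fun i => hz2 _, fun i j hij => hz3 _ _ fun h => hij (hinj h), hσ1⟩
    rw [hz1]
    congr 1
    exact ((Equiv.ofBijective σ hbij).prod_comp (fun i => X - C (z i))).symm
  have hchoice : ∀ t, ∃ y : Fin k → ℂ, Adm t →
      (G - C (t : ℂ) = C G.leadingCoeff * ∏ i, (X - C (y i)) ∧
      (∀ i, ‖y i‖ ≤ hitgK k c0 C0 C1 * ρ) ∧ (∀ i j, i ≠ j → sep ≤ ‖y i - y j‖) ∧
      ∀ i, ‖ys i - y i‖ ≤ sep / 8) := by
    intro t
    by_cases ht : Adm t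
    · obtain ⟨y, hy⟩ := hnear t ht
      exact ⟨y, fun _ => hy⟩
    · exact ⟨0, fun h => absurd h ht⟩
  choose y hy using hchoice
  refine ⟨y, fun t ht => ?_⟩
  obtain ⟨hy1, hy2, hy3, hy4⟩ := hy t ht
  refine ⟨⟨?_, hy1⟩, hy2, ?_⟩
  · intro i j hij
    by_contra hne'
    have := hy3 i j hne'
    rw [hij, sub_self, norm_zero] at this
    linarith
  · intro t' ht' i
    obtain ⟨hz1, hz2, hz3, hz4⟩ := hy t' ht'
    obtain ⟨j, hj1, hj2⟩ := hitg_match G G.leadingCoeff (t : ℂ) (t' : ℂ) sep hne hsep (y t) (y t')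
      hy1 hz1 hz3 (hclose t t' ht ht') i
    have hji : j = i := by
      by_contra hne'
      have h1 := hys3 j i hne'
      have h2 : ‖ys j - ys i‖ ≤ ‖ys j - y t' j‖ + ‖y t i - y t' j‖ + ‖ys i - y t i‖ := by
        have : ys j - ys i = (ys j - y t' j) - (y t i - y t' j) - (ys i - y t i) := by ring
        rw [this]
        refine (norm_sub_le _ _).trans ?_
        have := norm_sub_le (ys j - y t' j) (y t i - y t' j)
        linarith
      have := hz4 j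
      have := hy4 i
      linarith
    subst hji
    rw [hdist] at hj2
    exact le_trans (mul_le_mul_of_nonneg_left hlow (norm_nonneg _)) hj2

theorem hit_geom (k : ℕ) (hk : 2 ≤ k) (c0 C0 C1 : ℝ) (hc0 : 0 < c0) (hC0 : 0 < C0) (hC1 : 0 < C1) :
    ∃ (Cg : ℝ) (m : ℕ), 1 ≤ Cg ∧ ∀ (F : ℤ[X]) (q T η : ℝ), F.natDegree = k → F.coeff 0 = 0 →
    1 ≤ q → q ≤ T → 0 < η → η ≤ 1 → c0 * q ≤ |((F.leadingCoeff : ℤ) : ℝ)| → HtLe F (C0 * q) →
    ∃ bad : Finset ℤ, (bad.card : ℝ) ≤ Cg * (η * T + 1) ∧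
    ∀ t0 : ℤ, ∃ y : ℤ → Fin k → ℂ,
      ∀ t : ℤ, |(t : ℝ)| ≤ C1 * T → t ∉ bad → |(t : ℝ) - t0| ≤ η ^ m * T / Cg →
        RootsOf k F t (y t) ∧ (∀ i, ‖y t i‖ ≤ Cg * (T / q) ^ ((1 : ℝ) / k)) ∧
        ∀ t' : ℤ, |(t' : ℝ)| ≤ C1 * T → t' ∉ bad → |(t' : ℝ) - t0| ≤ η ^ m * T / Cg →
          ∀ i, ‖y t i - y t' i‖ ≤
            Cg * |(t : ℝ) - t'| / (q * η ^ m * (T / q) ^ (((k : ℝ) - 1) / k)) := by
  classical
  have hK := hitgK_ge k c0 C0 C1 hc0 hC0 hC1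
  have hc := hitgc_pos k hk c0 C0 C1 hc0 hC0 hC1
  have hc5 : 0 < hitgc5 k c0 C0 C1 := by unfold hitgc5; positivity
  have hc6 : 0 < hitgc6 k c0 C0 C1 := by unfold hitgc6; positivity
  have hk0 : (0 : ℝ) < k := by exact_mod_cast (by omega : 0 < k)
  obtain ⟨Cg, hCg⟩ : ∃ Cg, Cg = hitgK k c0 C0 C1 + 2 / hitgc5 k c0 C0 C1 + 1 / hitgc6 k c0 C0 C1 +
    2 * (k : ℝ) := ⟨_, rfl⟩
  have h5p : 0 < 2 / hitgc5 k c0 C0 C1 := by positivity
  have h6p : 0 < 1 / hitgc6 k c0 C0 C1 := by positivity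
  have hCgK : hitgK k c0 C0 C1 ≤ Cg := by rw [hCg]; linarith
  have hCg5 : 2 / hitgc5 k c0 C0 C1 ≤ Cg := by rw [hCg]; linarith
  have hCg6 : 1 / hitgc6 k c0 C0 C1 ≤ Cg := by rw [hCg]; linarith
  have hCgk : 2 * (k : ℝ) ≤ Cg := by rw [hCg]; linarith
  have hCg1 : 1 ≤ Cg := hK.trans hCgK
  have hCg0 : 0 < Cg := by linarith
  refine ⟨Cg, k * k, hCg1, ?_⟩
  intro F q T η hdeg hF0 hq hqT hη hη1 hlead hH
  have hq0 : 0 < q := by linarith
  have hT0 : 0 < T := by linarith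
  have hTq : 1 ≤ T / q := by rw [le_div_iff₀ hq0]; linarith
  obtain ⟨ρ, hρdef⟩ : ∃ ρ, ρ = (T / q) ^ ((1 : ℝ) / k) := ⟨_, rfl⟩
  have hρ1 : 1 ≤ ρ := by
    rw [hρdef]
    exact Real.one_le_rpow hTq (by positivity)
  have hρk : ρ ^ k = T / q := by
    rw [hρdef, ← Real.rpow_natCast, ← Real.rpow_mul (by positivity), one_div,
      inv_mul_cancel₀ hk0.ne', Real.rpow_one]
  have hρk1 : (T / q) ^ (((k : ℝ) - 1) / k) = ρ ^ (k - 1) := by
    rw [hρdef, ← Real.rpow_natCast, ← Real.rpow_mul (by positivity), Nat.cast_sub (by omega)]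
    congr 1
    push_cast
    ring
  have hTeq : T = q * ρ ^ k := by rw [hρk]; field_simp
  obtain ⟨G, hG⟩ : ∃ G, G = F.map (Int.castRingHom ℂ) := ⟨_, rfl⟩
  have hinj : Function.Injective (Int.castRingHom ℂ) := (Int.castRingHom ℂ).injective_int
  have hGdeg : G.natDegree = k := by
    rw [hG, Polynomial.natDegree_map_eq_of_injective hinj, hdeg]
  have hGcoef : ∀ j, G.coeff j = ((F.coeff j : ℤ) : ℂ) := by
    intro j; rw [hG, coeff_map]; rfl
  have hGlead : G.leadingCoeff = ((F.leadingCoeff : ℤ) : ℂ) := by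
    unfold Polynomial.leadingCoeff
    rw [hGdeg, hdeg, hGcoef]
  have hA : HitgA k c0 C0 C1 q T η ρ G := by
    refine ⟨hk, hc0, hC0, hC1, hq, hTeq, hρ1, hη, hη1, hGdeg, ?_, ?_, ?_⟩
    · rw [hGcoef, hF0]; simp
    · rw [hGlead, Complex.norm_intCast]; exact hlead
    · intro j; rw [hGcoef, Complex.norm_intCast]; exact hH j
  have hddeg : G.derivative.natDegree = k - 1 := by
    have := Polynomial.degree_derivative (p := G) (by rw [hGdeg]; omega)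
    rw [hGdeg] at this
    exact Polynomial.natDegree_eq_of_degree_eq_some this
  obtain ⟨ξ, hξ⟩ := hitg_enum G.derivative (k - 1) hddeg
  have hηT : 0 ≤ η * T := by positivity
  refine ⟨(Finset.Icc (-⌊C1 * T⌋) ⌊C1 * T⌋).filter
    (fun t : ℤ => ∃ i, ‖(t : ℂ) - G.eval (ξ i)‖ < η * T), ?_, ?_⟩
  · refine (hitg_bad_card G ξ _ _ hηT).trans ?_
    have : (k : ℝ) * (2 * (η * T) + 1) ≤ 2 * k * (η * T + 1) := by nlinarith
    exact this.trans (mul_le_mul_of_nonneg_right hCgk (by positivity))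
  intro t0
  obtain ⟨Adm, hAdm⟩ : ∃ Adm : ℤ → Prop, Adm = fun t : ℤ => |(t : ℝ)| ≤ C1 * T ∧
    t ∉ (Finset.Icc (-⌊C1 * T⌋) ⌊C1 * T⌋).filter
      (fun t : ℤ => ∃ i, ‖(t : ℂ) - G.eval (ξ i)‖ < η * T) ∧
    |(t : ℝ) - t0| ≤ η ^ (k * k) * T / Cg := ⟨_, rfl⟩
  obtain ⟨y, hy⟩ := hitg_window hA ξ hξ Adm (fun t ht => by rw [hAdm] at ht; exact ht.1)
    (fun t ht i => by
      rw [hAdm] at ht
      by_contra hcon
      push Not at hcon
      apply ht.2.1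
      rw [Finset.mem_filter, Finset.mem_Icc]
      refine ⟨⟨?_, ?_⟩, i, hcon⟩
      · have h1 : -t ≤ ⌊C1 * T⌋ := by
          rw [Int.le_floor]; push_cast
          have := (abs_le.1 ht.1).1
          linarith
        linarith
      · rw [Int.le_floor]
        exact (abs_le.1 ht.1).2)
    (fun t t' ht ht' => by
      rw [hAdm] at ht ht'
      have h1 : |(t : ℝ) - t'| ≤ |(t : ℝ) - t0| + |(t' : ℝ) - t0| := by
        have : (t : ℝ) - t' = (t - t0) - (t' - t0) := by ring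
        rw [this]
        exact abs_sub _ _
      have h2 := ht.2.2
      have h3 := ht'.2.2
      have h4 : 2 / Cg ≤ hitgc5 k c0 C0 C1 := by
        rw [div_le_iff₀ hCg0]
        rw [div_le_iff₀ hc5] at hCg5
        linarith
      have h5 : η ^ (k * k) * T / Cg + η ^ (k * k) * T / Cg = 2 / Cg * (η ^ (k * k) * T) := by ring
      have h6 : 2 / Cg * (η ^ (k * k) * T) ≤ hitgc5 k c0 C0 C1 * (η ^ (k * k) * T) :=
        mul_le_mul_of_nonneg_right h4 (by positivity)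
      calc |(t : ℝ) - t'| ≤ η ^ (k * k) * T / Cg + η ^ (k * k) * T / Cg := by linarith
        _ ≤ hitgc5 k c0 C0 C1 * (η ^ (k * k) * T) := by rw [h5]; exact h6
        _ = _ := by ring)
  refine ⟨y, ?_⟩
  intro t h1 h2 h3
  have hAt : Adm t := by rw [hAdm]; exact ⟨h1, h2, h3⟩
  obtain ⟨⟨hi, hy1⟩, hy2, hy3⟩ := hy t hAt
  refine ⟨⟨hi, ?_⟩, ?_, ?_⟩
  · rw [Polynomial.map_sub, Polynomial.map_C, ← hG, ← hGlead]
    exact hy1
  · intro i
    rw [← hρdef]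
    exact (hy2 i).trans (mul_le_mul_of_nonneg_right hCgK (by linarith))
  · intro t' h1' h2' h3' i
    have hAt' : Adm t' := by rw [hAdm]; exact ⟨h1', h2', h3'⟩
    have h4 := hy3 t' hAt' i
    rw [hρk1]
    rw [le_div_iff₀ (by positivity)]
    have h5 : hitgc6 k c0 C0 C1 * (‖y t i - y t' i‖ * (q * η ^ (k * k) * ρ ^ (k - 1))) ≤
        |(t : ℝ) - t'| := by
      calc _ = ‖y t i - y t' i‖ * (hitgc6 k c0 C0 C1 * (q * η ^ (k * k) * ρ ^ (k - 1))) := by ring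
        _ ≤ _ := h4
    have h6 : ‖y t i - y t' i‖ * (q * η ^ (k * k) * ρ ^ (k - 1)) ≤
        1 / hitgc6 k c0 C0 C1 * |(t : ℝ) - t'| := by
      rw [div_mul_eq_mul_div, one_mul, le_div_iff₀ hc6]
      linarith
    exact h6.trans (mul_le_mul_of_nonneg_right hCg6 (abs_nonneg _))

end EK75
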