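import Pool.Agent.H75.EK.Defs

/-! Module LAT: counting points of ideal lattices in boxes. -/

open Polynomial Finset
open scoped Real BigOperators

namespace EK75

/-- the lattice of `u ∈ ℤ^k` with `∑ u_i θ^i ∈ J` -/
def latI {R' : Type*} [CommRing R'] (k : ℕ) (θ : R') (J : Ideal R') :
    AddSubgroup (Fin k → ℤ) where
  carrier := {u | ∑ i, (u i : R') * θ ^ (i : ℕ) ∈ J}
  zero_mem' := by simp
  add_mem' := by
    intro a b ha hb
    simp only [Set.mem_ofPred_eq, Pi.add_apply, Int.cast_add, add_mul, sum_add_distrib] at *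
    exact J.add_mem ha hb
  neg_mem' := by
    intro a ha
    simp only [Set.mem_ofPred_eq, Pi.neg_apply, Int.cast_neg, neg_mul, sum_neg_distrib] at *
    exact J.neg_mem ha

theorem lat_mem {R' : Type*} [CommRing R'] {k : ℕ} {θ : R'} {J : Ideal R'} {u : Fin k → ℤ} :
    u ∈ latI k θ J ↔ ∑ i, (u i : R') * θ ^ (i : ℕ) ∈ J := Iff.rfl

/-- small representatives of the classes -/
theorem lat_reps {k : ℕ} (L : AddSubgroup (Fin k → ℤ)) (R : ℕ)
    (hcov : ∀ z : Fin k → ℤ, ∃ d ∈ L, ∀ i, |z i - d i| ≤ (R : ℤ)) :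
    ∃ r : ((Fin k → ℤ) ⧸ L) → (Fin k → ℤ), (∀ c, ((r c : Fin k → ℤ) : (Fin k → ℤ) ⧸ L) = c) ∧
      ∀ c i, |r c i| ≤ (R : ℤ) := by
  have h : ∀ c : (Fin k → ℤ) ⧸ L, ∃ z : Fin k → ℤ, ((z : Fin k → ℤ) : (Fin k → ℤ) ⧸ L) = c ∧
      ∀ i, |z i| ≤ (R : ℤ) := by
    intro c
    obtain ⟨z, rfl⟩ := QuotientAddGroup.mk_surjective c
    obtain ⟨d, hd, hz⟩ := hcov z
    refine ⟨z - d, ?_, fun i => hz i⟩
    rw [QuotientAddGroup.eq]
    have : -(z - d) + z = d := by abel
    rw [this]; exact hd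
  choose r hr using h
  exact ⟨r, fun c => (hr c).1, fun c => (hr c).2⟩

open Classical in
theorem lat_count {k : ℕ} (L : AddSubgroup (Fin k → ℤ)) (m : ℕ) (hm : 1 ≤ m)
    (hidx : L.index = m) (R : ℕ)
    (hcov : ∀ z : Fin k → ℤ, ∃ d ∈ L, ∀ i, |z i - d i| ≤ (R : ℤ)) (X : ℕ) :
    ((boxZ k X).filter (fun u => u ∈ L)).card * m ≤ (X + 2 * R) ^ k ∧
    (2 * R ≤ X → (X - 2 * R) ^ k ≤ m * ((boxZ k X).filter (fun u => u ∈ L)).card) := by
  obtain ⟨r, hr1, hr2⟩ := lat_reps L R hcov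
  have hfin : Finite ((Fin k → ℤ) ⧸ L) := by
    have : L.index ≠ 0 := by omega
    exact Nat.finite_of_card_ne_zero this
  have : Fintype ((Fin k → ℤ) ⧸ L) := Fintype.ofFinite _
  have hcard : Fintype.card ((Fin k → ℤ) ⧸ L) = m := by
    rw [← hidx, AddSubgroup.index, Nat.card_eq_fintype_card]
  have hbox : ∀ {u : Fin k → ℤ} {Y : ℕ}, u ∈ boxZ k Y ↔ ∀ i, 0 ≤ u i ∧ u i < Y := by
    intro u Y
    simp [boxZ, Fintype.mem_piFinset]
  constructor
  · -- upper bound
    have h1 : (((boxZ k X).filter (fun u => u ∈ L)) ×ˢ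
        (Finset.univ : Finset ((Fin k → ℤ) ⧸ L))).card ≤
        (Fintype.piFinset fun _ : Fin k => Finset.Ico (-(R : ℤ)) (X + R : ℤ)).card := by
      refine Finset.card_le_card_of_injOn (fun x => x.1 + r x.2) ?_ ?_
      · rintro ⟨u, c⟩ hx
        simp only [coe_product, Set.mem_prod, mem_coe, mem_filter, coe_univ, Set.mem_univ,
          and_true] at hx
        have hu := hbox.mp hx.1
        simp only [mem_coe, Fintype.mem_piFinset, mem_Ico, Pi.add_apply]
        intro i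
        have h2 := abs_le.mp (hr2 c i)
        have h3 := hu i
        constructor <;> [linarith [h2.1]; skip]
        linarith [h2.2]
      · rintro ⟨u, c⟩ hx ⟨u', c'⟩ hx' heq
        simp only [coe_product, Set.mem_prod, mem_coe, mem_filter, coe_univ, Set.mem_univ,
          and_true] at hx hx'
        dsimp only at heq
        have hc : c = c' := by
          have h4 := congrArg (fun z : Fin k → ℤ => (z : (Fin k → ℤ) ⧸ L)) heq
          simp only [QuotientAddGroup.mk_add, hr1] at h4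
          rw [(QuotientAddGroup.eq_zero_iff u).mpr hx.2, (QuotientAddGroup.eq_zero_iff u').mpr hx'.2,
            zero_add, zero_add] at h4
          exact h4
        subst hc
        simpa using heq
    rw [Finset.card_product, Finset.card_univ, hcard, Fintype.card_piFinset] at h1
    simp only [Int.card_Ico, prod_const, card_univ, Fintype.card_fin] at h1
    have h5 : ((X : ℤ) + R - -R).toNat = X + 2 * R := by omega
    rw [h5] at h1
    exact h1
  · intro hRX
    have h1 : (Fintype.piFinset fun _ : Fin k => Finset.Ico (R : ℤ) (X - R : ℤ)).card ≤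
        ((Finset.univ : Finset ((Fin k → ℤ) ⧸ L)) ×ˢ
          ((boxZ k X).filter (fun u => u ∈ L))).card := by
      refine Finset.card_le_card_of_injOn
        (fun z => ((z : (Fin k → ℤ) ⧸ L), z - r (z : (Fin k → ℤ) ⧸ L))) ?_ ?_
      · intro z hz
        simp only [mem_coe, Fintype.mem_piFinset, mem_Ico] at hz
        simp only [coe_product, Set.mem_prod, mem_coe, mem_filter, coe_univ, Set.mem_univ,
          true_and]
        constructor
        · rw [hbox]
          intro i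
          have h2 := abs_le.mp (hr2 (z : (Fin k → ℤ) ⧸ L) i)
          have h3 := hz i
          simp only [Pi.sub_apply]
          constructor <;> [linarith [h2.2]; linarith [h2.1]]
        · rw [← QuotientAddGroup.eq_zero_iff, QuotientAddGroup.mk_sub, hr1, sub_self]
      · intro z hz z' hz' heq
        simp only [Prod.mk.injEq] at heq
        rw [heq.1] at heq
        simpa using heq.2
    rw [Finset.card_product, Finset.card_univ, hcard, Fintype.card_piFinset] at h1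
    simp only [Int.card_Ico, prod_const, card_univ, Fintype.card_fin] at h1
    have h5 : ((X : ℤ) - R - R).toNat = X - 2 * R := by omega
    rw [h5] at h1
    exact h1

/-- companion map -/
def latC {n : ℕ} (g : ℤ[X]) (u : Fin (n + 1) → ℤ) : Fin (n + 1) → ℤ :=
  fun i => (Fin.cons 0 (fun j : Fin n => u j.castSucc) : Fin (n + 1) → ℤ) i
    - g.coeff (i : ℕ) * u (Fin.last n)

theorem latC_sum {n : ℕ} (g : ℤ[X]) (hg : g.Monic) (hd : g.natDegree = n + 1) {S : Type*}
    [CommRing S] (s : S) (hs : aeval s g = 0) (u : Fin (n + 1) → ℤ) :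
    ∑ i, ((latC g u i : ℤ) : S) * s ^ (i : ℕ) = s * ∑ i, (u i : S) * s ^ (i : ℕ) := by
  have h0 : s ^ (n + 1) = - ∑ i : Fin (n + 1), (g.coeff (i : ℕ) : S) * s ^ (i : ℕ) := by
    have h1 := hs
    rw [aeval_eq_sum_range, hd, Finset.sum_range_succ] at h1
    have h2 : g.coeff (n + 1) = 1 := by rw [← hd]; exact hg.coeff_natDegree
    rw [h2, one_smul] at h1
    rw [← Fin.sum_univ_eq_sum_range (fun i => g.coeff i • s ^ i)] at h1
    rw [eq_neg_iff_add_eq_zero, add_comm]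
    simpa [zsmul_eq_mul] using h1
  have h3 : ∑ i : Fin (n + 1), ((latC g u i : ℤ) : S) * s ^ (i : ℕ) =
      (∑ i : Fin (n + 1), (((Fin.cons 0 (fun j : Fin n => u j.castSucc) : Fin (n + 1) → ℤ) i : ℤ) : S)
        * s ^ (i : ℕ)) - (∑ i : Fin (n + 1), (g.coeff (i : ℕ) : S) * s ^ (i : ℕ)) *
          (u (Fin.last n) : S) := by
    rw [Finset.sum_mul, ← Finset.sum_sub_distrib]
    refine Finset.sum_congr rfl fun i _ => ?_
    simp only [latC, Int.cast_sub, Int.cast_mul]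
    ring
  rw [h3, Fin.sum_univ_succ]
  simp only [Fin.cons_zero, Int.cast_zero, zero_mul, zero_add, Fin.cons_succ, Fin.val_succ]
  rw [Fin.sum_univ_castSucc (fun i => (u i : S) * s ^ (i : ℕ)), mul_add, Finset.mul_sum]
  simp only [Fin.val_castSucc, Fin.val_last]
  have h4 : s * ((u (Fin.last n) : S) * s ^ n) = (u (Fin.last n) : S) * s ^ (n + 1) := by ring
  rw [h4, h0]
  have h5 : ∀ i : Fin n, s * ((u i.castSucc : S) * s ^ (i : ℕ)) =
      (u i.castSucc : S) * s ^ ((i : ℕ) + 1) := by intro i; ring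
  simp only [h5]
  ring

theorem latC_norm {n : ℕ} (g : ℤ[X]) (H : ℝ) (hH : 1 ≤ H) (hht : HtLe g H) (u : Fin (n + 1) → ℤ)
    (M : ℝ) (hM : 0 ≤ M) (hu : ∀ i, |(u i : ℝ)| ≤ M) (i : Fin (n + 1)) :
    |((latC g u i : ℤ) : ℝ)| ≤ (1 + H) * M := by
  have h1 : |(((Fin.cons 0 (fun j : Fin n => u j.castSucc) : Fin (n + 1) → ℤ) i : ℤ) : ℝ)| ≤ M := by
    refine Fin.cases ?_ (fun j => ?_) i
    · simpa using hM
    · simpa using hu j.castSucc
  have h2 : |((g.coeff (i : ℕ) : ℤ) : ℝ) * (u (Fin.last n) : ℝ)| ≤ H * M := by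
    rw [abs_mul]
    exact mul_le_mul (hht i) (hu _) (abs_nonneg _) (by linarith)
  have h3 : ((latC g u i : ℤ) : ℝ) =
      (((Fin.cons 0 (fun j : Fin n => u j.castSucc) : Fin (n + 1) → ℤ) i : ℤ) : ℝ) -
        ((g.coeff (i : ℕ) : ℤ) : ℝ) * (u (Fin.last n) : ℝ) := by
    simp only [latC, Int.cast_sub, Int.cast_mul]
  rw [h3]
  calc _ ≤ _ := abs_sub _ _
    _ ≤ M + H * M := add_le_add h1 h2
    _ = (1 + H) * M := by ring

/-- iterates of the companion map -/
def latW {n : ℕ} (g : ℤ[X]) (v : Fin (n + 1) → ℤ) : ℕ → (Fin (n + 1) → ℤ)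
  | 0 => v
  | j + 1 => latC g (latW g v j)

theorem latW_sum {n : ℕ} (g : ℤ[X]) (hg : g.Monic) (hd : g.natDegree = n + 1) {S : Type*}
    [CommRing S] (s : S) (hs : aeval s g = 0) (v : Fin (n + 1) → ℤ) (j : ℕ) :
    ∑ i, ((latW g v j i : ℤ) : S) * s ^ (i : ℕ) = s ^ j * ∑ i, (v i : S) * s ^ (i : ℕ) := by
  induction j with
  | zero => simp [latW]
  | succ j ih =>
    rw [latW, latC_sum g hg hd s hs, ih, pow_succ]; ring

theorem latW_norm {n : ℕ} (g : ℤ[X]) (H : ℝ) (hH : 1 ≤ H) (hht : HtLe g H) (v : Fin (n + 1) → ℤ)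
    (M : ℝ) (hM : 0 ≤ M) (hv : ∀ i, |(v i : ℝ)| ≤ M) (j : ℕ) (i : Fin (n + 1)) :
    |((latW g v j i : ℤ) : ℝ)| ≤ (1 + H) ^ j * M := by
  induction j generalizing i with
  | zero => simpa [latW] using hv i
  | succ j ih =>
    have := latC_norm g H hH hht (latW g v j) ((1 + H) ^ j * M) (by positivity) ih i
    rw [latW]
    calc _ ≤ _ := this
      _ = _ := by rw [pow_succ]; ring

theorem lat_inj {n : ℕ} (g : ℤ[X]) (hg : g.Monic) (hd : g.natDegree = n + 1)
    (u : Fin (n + 1) → ℤ)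
    (h : ∑ i, (u i : AdjoinRoot g) * (AdjoinRoot.root g) ^ (i : ℕ) = 0) : u = 0 := by
  set P : ℤ[X] := ∑ i : Fin (n + 1), Polynomial.monomial (i : ℕ) (u i) with hP
  have hcoeff : ∀ i : Fin (n + 1), P.coeff i = u i := by
    intro i
    rw [hP, Polynomial.finsetSum_coeff]
    simp only [Polynomial.coeff_monomial]
    rw [Finset.sum_eq_single i]
    · simp
    · intro j _ hj
      rw [if_neg]
      intro h; exact hj (Fin.ext h)
    · simp
  have h1 : AdjoinRoot.mk g P = 0 := by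
    rw [hP, map_sum, ← h]
    refine Finset.sum_congr rfl fun i _ => ?_
    rw [← Polynomial.C_mul_X_pow_eq_monomial, map_mul, map_pow, AdjoinRoot.mk_X]
    congr 1
  rw [AdjoinRoot.mk_eq_zero] at h1
  have hP0 : P = 0 := by
    by_contra hne
    have h2 : P.natDegree < n + 1 := by
      rw [Polynomial.natDegree_lt_iff_degree_lt hne]
      refine (Polynomial.degree_sum_le _ _).trans_lt ?_
      rw [Finset.sup_lt_iff (by exact_mod_cast WithBot.bot_lt_coe (n + 1))]
      intro i _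
      refine (Polynomial.degree_monomial_le _ _).trans_lt ?_
      exact_mod_cast i.2
    have h3 := Polynomial.natDegree_le_of_dvd h1 hne
    omega
  ext i
  rw [← hcoeff i, hP0]
  simp

theorem lat_indep {n : ℕ} (g : ℤ[X]) (hg : g.Monic) (hd : g.natDegree = n + 1)
    (hirr : Irreducible g) (v : Fin (n + 1) → ℤ) (hv0 : v ≠ 0) :
    LinearIndependent ℚ (fun (j : Fin (n + 1)) (i : Fin (n + 1)) => (latW g v (j : ℕ) i : ℚ)) := by
  rw [← LinearIndependent.iff_fractionRing ℤ ℚ, Fintype.linearIndependent_iff]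
  intro c hc
  have hprime : Prime g := hirr.prime
  have hdom : IsDomain (AdjoinRoot g) := AdjoinRoot.isDomain_of_prime hprime
  have hroot : aeval (AdjoinRoot.root g) g = 0 := by
    rw [aeval_def, AdjoinRoot.algebraMap_eq]; exact AdjoinRoot.eval₂_root _
  have h1 : ∀ i, ∑ j : Fin (n + 1), c j * latW g v (j : ℕ) i = 0 := by
    intro i
    have h2 := congrFun hc i
    have h2' : ∑ j : Fin (n + 1), (c j : ℚ) * (latW g v (j : ℕ) i : ℚ) = 0 := by
      rw [Finset.sum_apply] at h2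
      refine Eq.trans (Finset.sum_congr rfl fun j _ => ?_) h2
      rw [Pi.smul_apply, zsmul_eq_mul]
    exact_mod_cast h2'
  have h3 : (∑ j : Fin (n + 1), (c j : AdjoinRoot g) * (AdjoinRoot.root g) ^ (j : ℕ)) *
      (∑ i, (v i : AdjoinRoot g) * (AdjoinRoot.root g) ^ (i : ℕ)) = 0 := by
    calc _ = ∑ j : Fin (n + 1), (c j : AdjoinRoot g) *
          ∑ i, ((latW g v (j : ℕ) i : ℤ) : AdjoinRoot g) * (AdjoinRoot.root g) ^ (i : ℕ) := by
          rw [Finset.sum_mul]
          refine Finset.sum_congr rfl fun j _ => ?_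
          rw [latW_sum g hg hd _ hroot v j]; ring
      _ = ∑ i : Fin (n + 1), ((∑ j : Fin (n + 1), c j * latW g v (j : ℕ) i : ℤ) : AdjoinRoot g) *
          (AdjoinRoot.root g) ^ (i : ℕ) := by
          simp_rw [Finset.mul_sum, Int.cast_sum, Finset.sum_mul]
          rw [Finset.sum_comm]
          refine Finset.sum_congr rfl fun i _ => Finset.sum_congr rfl fun j _ => ?_
          push_cast; ring
      _ = 0 := by simp [h1]
  rcases mul_eq_zero.mp h3 with h4 | h4
  · have := lat_inj g hg hd c h4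
    intro i
    rw [this]; rfl
  · exact absurd (lat_inj g hg hd v h4) hv0

/-- covering radius -/
theorem lat_cov {n : ℕ} (g : ℤ[X]) (hg : g.Monic) (hd : g.natDegree = n + 1)
    (hirr : Irreducible g) (H : ℝ) (hH : 1 ≤ H) (hht : HtLe g H)
    {R' : Type*} [CommRing R'] (θ : R') (hθ : aeval θ g = 0) (J : Ideal R')
    (v : Fin (n + 1) → ℤ) (hvL : v ∈ latI (n + 1) θ J) (hv0 : v ≠ 0) (M : ℝ) (hM : 0 ≤ M)
    (hv : ∀ i, |(v i : ℝ)| ≤ M) (z : Fin (n + 1) → ℤ) :
    ∃ d ∈ latI (n + 1) θ J, ∀ i, |((z i - d i : ℤ) : ℝ)| ≤ (n + 1) * ((1 + H) ^ n * M) := by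
  classical
  have hli := lat_indep g hg hd hirr v hv0
  let B := basisOfLinearIndependentOfCardEqFinrank hli (by simp)
  have hB : ∀ j : Fin (n + 1), B j = fun i => (latW g v (j : ℕ) i : ℚ) := by
    intro j
    simp [B]
  let x : Fin (n + 1) → ℚ := fun j => B.repr (fun i => (z i : ℚ)) j
  let d : Fin (n + 1) → ℤ := ∑ j : Fin (n + 1), ⌊x j⌋ • latW g v (j : ℕ)
  have hW : ∀ j : ℕ, latW g v j ∈ latI (n + 1) θ J := by
    intro j
    rw [lat_mem, latW_sum g hg hd θ hθ v j]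
    exact J.mul_mem_left _ (lat_mem.mp hvL)
  have hdL : d ∈ latI (n + 1) θ J :=
    AddSubgroup.sum_mem _ fun j _ => AddSubgroup.zsmul_mem _ (hW j) _
  refine ⟨d, hdL, ?_⟩
  -- coordinates
  have hco : ∀ i, (z i : ℚ) = ∑ j : Fin (n + 1), x j * (latW g v (j : ℕ) i : ℚ) := by
    intro i
    have h4 := congrFun (B.sum_repr (fun i => (z i : ℚ))) i
    simp only [Finset.sum_apply, Pi.smul_apply, smul_eq_mul] at h4
    rw [← h4]
    refine Finset.sum_congr rfl fun j _ => ?_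
    rw [hB]
  intro i
  have h9 : ((z i - d i : ℤ) : ℚ) = ∑ j : Fin (n + 1), Int.fract (x j) * (latW g v (j : ℕ) i : ℚ) := by
    have h10 : (d i : ℚ) = ∑ j : Fin (n + 1), (⌊x j⌋ : ℚ) * (latW g v (j : ℕ) i : ℚ) := by
      simp only [d, Finset.sum_apply, Pi.smul_apply, smul_eq_mul, Int.cast_sum, Int.cast_mul]
    rw [Int.cast_sub, hco i, h10, ← Finset.sum_sub_distrib]
    refine Finset.sum_congr rfl fun j _ => ?_
    rw [← sub_mul]
    rfl
  have h11 : ((z i - d i : ℤ) : ℝ) =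
      ∑ j : Fin (n + 1), ((Int.fract (x j) : ℚ) : ℝ) * (latW g v (j : ℕ) i : ℝ) := by
    have := congrArg (fun q : ℚ => (q : ℝ)) h9
    simpa using this
  rw [h11]
  calc _ ≤ ∑ j : Fin (n + 1), |((Int.fract (x j) : ℚ) : ℝ) * (latW g v (j : ℕ) i : ℝ)| :=
        Finset.abs_sum_le_sum_abs _ _
    _ ≤ ∑ _j : Fin (n + 1), (1 + H) ^ n * M := by
        refine Finset.sum_le_sum fun j _ => ?_
        rw [abs_mul]
        have h12 : |((Int.fract (x j) : ℚ) : ℝ)| ≤ 1 := by
          rw [abs_of_nonneg (by exact_mod_cast Int.fract_nonneg (x j))]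
          exact_mod_cast (Int.fract_lt_one (x j)).le
        have h13 := latW_norm g H hH hht v M hM hv (j : ℕ) i
        have h14 : (1 + H) ^ (j : ℕ) * M ≤ (1 + H) ^ n * M := by
          apply mul_le_mul_of_nonneg_right _ hM
          exact pow_le_pow_right₀ (by linarith) (by omega)
        calc _ ≤ 1 * ((1 + H) ^ n * M) :=
              mul_le_mul h12 (h13.trans h14) (abs_nonneg _) zero_le_one
          _ = _ := one_mul _
    _ = _ := by simp

open Classical in
/-- covering radius of ideal lattices: `g` monic irreducible of degree `k`, coefficients bounded by `H` -/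
theorem lat_ideal (k : ℕ) (hk : 1 ≤ k) (g : ℤ[X]) (hg : g.Monic) (hd : g.natDegree = k)
    (hirr : Irreducible g) (H : ℝ) (hH : 1 ≤ H) (hht : HtLe g H)
    {R' : Type*} [CommRing R'] (θ : R') (hθ : aeval θ g = 0) (J : Ideal R') (m : ℕ) (hm : 1 ≤ m)
    (hidx : (latI k θ J).index = m) (X : ℕ) (Rm : ℝ)
    (hRm : Rm = k * (1 + H) ^ k * (m : ℝ) ^ ((1 : ℝ) / k)) :
    (((boxZ k X).filter (fun u => u ∈ latI k θ J)).card : ℝ) * m ≤ (X + 2 * Rm) ^ k ∧
    (2 * Rm ≤ X → (X - 2 * Rm) ^ k ≤ m * (((boxZ k X).filter (fun u => u ∈ latI k θ J)).card : ℝ)) := by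
  obtain ⟨n, rfl⟩ : ∃ n, k = n + 1 := ⟨k - 1, by omega⟩
  set μ : ℝ := (m : ℝ) ^ ((1 : ℝ) / (n + 1 : ℕ)) with hμ
  have hμ0 : 0 ≤ μ := by positivity
  have hμm : μ ^ (n + 1) = m := by
    rw [hμ, ← Real.rpow_natCast, ← Real.rpow_mul (by positivity)]
    rw [one_div, inv_mul_cancel₀ (by positivity), Real.rpow_one]
  -- pigeonhole
  have hpig : ∃ v ∈ latI (n + 1) θ J, v ≠ 0 ∧ ∀ i, |(v i : ℝ)| ≤ μ := by
    have hfin : Finite ((Fin (n + 1) → ℤ) ⧸ latI (n + 1) θ J) := by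
      have : (latI (n + 1) θ J).index ≠ 0 := by omega
      exact Nat.finite_of_card_ne_zero this
    have : Fintype ((Fin (n + 1) → ℤ) ⧸ latI (n + 1) θ J) := Fintype.ofFinite _
    have hcard : Fintype.card ((Fin (n + 1) → ℤ) ⧸ latI (n + 1) θ J) = m := by
      rw [← hidx, AddSubgroup.index, Nat.card_eq_fintype_card]
    have hlt : (Finset.univ : Finset ((Fin (n + 1) → ℤ) ⧸ latI (n + 1) θ J)).card <
        (boxZ (n + 1) (⌊μ⌋₊ + 1)).card := by
      rw [Finset.card_univ, hcard, boxZ, Fintype.card_piFinset]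
      simp only [Int.card_Ico, prod_const, card_univ, Fintype.card_fin]
      have h1 : (((⌊μ⌋₊ + 1 : ℕ) : ℤ) - 0).toNat = ⌊μ⌋₊ + 1 := by omega
      rw [h1]
      have h2 : (m : ℝ) < ((⌊μ⌋₊ + 1 : ℕ) : ℝ) ^ (n + 1) := by
        rw [← hμm]
        apply pow_lt_pow_left₀ _ hμ0 (by omega)
        push_cast
        exact Nat.lt_floor_add_one μ
      exact_mod_cast h2
    obtain ⟨u, hu, u', hu', hne, heq⟩ := Finset.exists_ne_map_eq_of_card_lt_of_maps_to hlt
      (f := fun u : Fin (n + 1) → ℤ => (u : (Fin (n + 1) → ℤ) ⧸ latI (n + 1) θ J))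
      (fun _ _ => Finset.mem_univ _)
    have hb : ∀ {w : Fin (n + 1) → ℤ}, w ∈ boxZ (n + 1) (⌊μ⌋₊ + 1) → ∀ i, 0 ≤ w i ∧
        w i ≤ ⌊μ⌋₊ := by
      intro w hw i
      simp only [boxZ, Fintype.mem_piFinset, mem_Ico] at hw
      have := hw i
      constructor <;> omega
    refine ⟨u - u', ?_, sub_ne_zero.mpr hne, ?_⟩
    · rw [← QuotientAddGroup.eq_zero_iff, QuotientAddGroup.mk_sub]
      exact sub_eq_zero.mpr heq
    · intro i
      have h3 := hb hu i
      have h4 := hb hu' i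
      have h5 : |(u - u') i| ≤ (⌊μ⌋₊ : ℤ) := by
        rw [Pi.sub_apply, abs_le]; constructor <;> linarith [h3.1, h3.2, h4.1, h4.2]
      have h6 : |(((u - u') i : ℤ) : ℝ)| ≤ (⌊μ⌋₊ : ℝ) := by exact_mod_cast h5
      exact h6.trans (Nat.floor_le hμ0)
  obtain ⟨v, hvL, hv0, hv⟩ := hpig
  have hcov0 := lat_cov g hg hd hirr H hH hht θ hθ J v hvL hv0 μ hμ0 hv
  have hRm0 : 0 ≤ Rm := by rw [hRm]; positivity
  have hle : ((n : ℝ) + 1) * ((1 + H) ^ n * μ) ≤ Rm := by
    rw [hRm]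
    push_cast
    rw [mul_assoc ((n : ℝ) + 1)]
    apply mul_le_mul_of_nonneg_left _ (by positivity)
    apply mul_le_mul_of_nonneg_right _ hμ0
    exact pow_le_pow_right₀ (by linarith) (by omega)
  have hcov : ∀ z : Fin (n + 1) → ℤ, ∃ d ∈ latI (n + 1) θ J, ∀ i, |z i - d i| ≤ (⌊Rm⌋₊ : ℤ) := by
    intro z
    obtain ⟨d, hdL, h⟩ := hcov0 z
    refine ⟨d, hdL, fun i => ?_⟩
    have h1 : |((z i - d i : ℤ) : ℝ)| ≤ Rm := (h i).trans hle
    have h2 : ((|z i - d i|.toNat : ℕ) : ℝ) ≤ Rm := by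
      have h3 : ((|z i - d i|.toNat : ℤ)) = |z i - d i| := Int.toNat_of_nonneg (abs_nonneg _)
      have h4 : ((|z i - d i|.toNat : ℕ) : ℝ) = ((|z i - d i| : ℤ) : ℝ) := by
        rw [← h3]; norm_cast
      rw [h4, Int.cast_abs]; exact h1
    have h5 := Nat.le_floor h2
    omega
  obtain ⟨hup, hlow⟩ := lat_count (latI (n + 1) θ J) m hm hidx ⌊Rm⌋₊ hcov X
  have hfl : ((⌊Rm⌋₊ : ℕ) : ℝ) ≤ Rm := Nat.floor_le hRm0
  constructor
  · have h1 : ((((boxZ (n + 1) X).filter (fun u => u ∈ latI (n + 1) θ J)).card * m : ℕ) : ℝ) ≤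
        (((X + 2 * ⌊Rm⌋₊) ^ (n + 1) : ℕ) : ℝ) := by exact_mod_cast hup
    push_cast at h1
    refine h1.trans ?_
    apply pow_le_pow_left₀ (by positivity)
    linarith
  · intro h2R
    have h2 : 2 * ⌊Rm⌋₊ ≤ X := by
      have : ((2 * ⌊Rm⌋₊ : ℕ) : ℝ) ≤ X := by push_cast; linarith
      exact_mod_cast this
    have h3 := hlow h2
    have h4 : (((X - 2 * ⌊Rm⌋₊) ^ (n + 1) : ℕ) : ℝ) ≤
        ((m * ((boxZ (n + 1) X).filter (fun u => u ∈ latI (n + 1) θ J)).card : ℕ) : ℝ) := by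
      exact_mod_cast h3
    rw [Nat.cast_pow, Nat.cast_sub h2] at h4
    push_cast at h4
    refine le_trans ?_ h4
    apply pow_le_pow_left₀ (by linarith)
    linarith

end EK75
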