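import Pool.Agent.H75.EK.Lb1
import Pool.Agent.H75.EK.Lb3

/-! Module LB: lower Mertens bound for an irreducible polynomial. -/

open Polynomial Finset
open scoped Real BigOperators

namespace EK75

theorem lb_msum_mono (g : ℤ[X]) {Y Y' : ℝ} (h : Y ≤ Y') : Msum (rhoR g) Y ≤ Msum (rhoR g) Y' := by
  unfold Msum
  refine sum_le_sum_of_subset_of_nonneg ?_ fun p hp _ => ?_
  · unfold prLe
    refine filter_subset_filter _ (range_subset_range.2 ?_)
    have := Nat.floor_le_floor h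
    omega
  · exact div_nonneg (mul_nonneg (Nat.cast_nonneg _) (Real.log_natCast_nonneg p)) (Nat.cast_nonneg _)

theorem lb_msum_nonneg (g : ℤ[X]) (Y : ℝ) : 0 ≤ Msum (rhoR g) Y := by
  unfold Msum
  exact sum_nonneg fun p _ =>
    div_nonneg (mul_nonneg (Nat.cast_nonneg _) (Real.log_natCast_nonneg p)) (Nat.cast_nonneg _)

theorem lb_ssum_mono (g : ℤ[X]) (E : ℝ) {Y Y' : ℝ} (h : Y ≤ Y') :
    Ssum (rhoR g) E Y ≤ Ssum (rhoR g) E Y' := by
  unfold Ssum
  refine sum_le_sum_of_subset_of_nonneg ?_ fun p hp _ => ?_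
  · unfold prIoc
    refine filter_subset_filter _ (Ioc_subset_Ioc le_rfl (Nat.floor_le_floor h))
  · exact div_nonneg (Nat.cast_nonneg _) (Nat.cast_nonneg _)

theorem mertens_lower (k : ℕ) (hk : 1 ≤ k) : ∃ A C : ℝ, 1 ≤ A ∧ 0 ≤ C ∧ ∀ g : ℤ[X], g.Monic →
    g.natDegree = k → Irreducible g → ∀ H : ℝ, 2 ≤ H → HtLe g H → ∀ E : ℝ, H ^ A ≤ E →
    ∀ Y : ℝ, 1 ≤ Y →
    Real.log Y - C * Real.log E -
      C * Real.log Y / max 1 (Ssum (rhoR g) E (Y ^ ((1 : ℝ) / (4 * k)))) ≤ Msum (rhoR g) Y := by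
  obtain ⟨C1, hC1, hlow⟩ := T_lower k hk
  obtain ⟨A3, C3, a1, hA3, hC3, hka, hup⟩ := T_upper k hk
  obtain ⟨C2, hC2, hsv⟩ := sieve2 k hk
  have hk0 : (0 : ℝ) < k := by exact_mod_cast hk
  refine ⟨A3, C1 + C3 + C2 * (a1 + C3) + C2 + k * A3, hA3, by positivity, ?_⟩
  set C : ℝ := C1 + C3 + C2 * (a1 + C3) + C2 + k * A3 with hC
  intro g hg hd hirr H hH hht E hE Y hY
  have hH0 : 0 < H := by linarith
  have hH1 : 1 ≤ H := by linarith
  have hHE : H ≤ E := by
    calc H = H ^ (1 : ℝ) := (Real.rpow_one H).symm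
      _ ≤ H ^ A3 := Real.rpow_le_rpow_of_exponent_le hH1 hA3
      _ ≤ E := hE
  have hE0 : 0 < E := by linarith
  have hlH0 : 0 ≤ Real.log H := Real.log_nonneg hH1
  have hlHE : Real.log H ≤ Real.log E := Real.log_le_log hH0 hHE
  have hlE0 : 0 ≤ Real.log E := hlH0.trans hlHE
  have hlY0 : 0 ≤ Real.log Y := Real.log_nonneg hY
  have hY0 : 0 < Y := by linarith
  set S := Ssum (rhoR g) E (Y ^ ((1 : ℝ) / (4 * k))) with hS
  have hmax : (0 : ℝ) < max 1 S := lt_of_lt_of_le one_pos (le_max_left _ _)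
  have hC0 : 0 ≤ C := by rw [hC]; positivity
  have hthird : 0 ≤ C * Real.log Y / max 1 S := by positivity
  by_cases hcase : Y < E ^ (k * A3)
  · -- trivial range
    have h1 : Real.log Y ≤ k * A3 * Real.log E := by
      rw [← Real.log_rpow hE0]
      exact Real.log_le_log hY0 hcase.le
    have h2 : k * A3 * Real.log E ≤ C * Real.log E := by
      refine mul_le_mul_of_nonneg_right ?_ hlE0
      rw [hC]
      have : 0 ≤ C1 + C3 + C2 * (a1 + C3) + C2 := by positivity
      linarith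
    have h3 := lb_msum_nonneg g Y
    linarith
  push Not at hcase
  obtain ⟨K, _, _, θ, hθ, hfr⟩ := nf_exists k hk g hg hd hirr
  -- the choice of `X`
  set R : ℝ := (Y * H ^ (a1 : ℝ)) ^ ((1 : ℝ) / k) with hR
  have hYH0 : 0 < Y * H ^ (a1 : ℝ) := by positivity
  have hR0 : 0 ≤ R := by rw [hR]; positivity
  set X : ℕ := ⌊R⌋₊ with hX
  have hXR : (X : ℝ) ≤ R := Nat.floor_le hR0
  have hYk : 1 ≤ Y ^ ((1 : ℝ) / k) := Real.one_le_rpow hY (by positivity)
  have hR2 : 2 * Y ^ ((1 : ℝ) / k) ≤ R := by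
    rw [hR, Real.mul_rpow hY0.le (by positivity), mul_comm]
    refine mul_le_mul_of_nonneg_left ?_ (by positivity)
    rw [← Real.rpow_mul hH0.le]
    calc (2 : ℝ) ≤ H := hH
      _ = H ^ (1 : ℝ) := (Real.rpow_one H).symm
      _ ≤ H ^ ((a1 : ℝ) * (1 / k)) := by
        refine Real.rpow_le_rpow_of_exponent_le hH1 ?_
        rw [mul_one_div, le_div_iff₀ hk0, one_mul]
        exact_mod_cast hka
  have hXY : Y ^ ((1 : ℝ) / k) ≤ X := by
    have := Nat.lt_floor_add_one R
    rw [← hX] at this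
    linarith
  have hX1 : 1 ≤ X := by
    have : (1 : ℝ) ≤ X := hYk.trans hXY
    exact_mod_cast this
  have hX0 : (0 : ℝ) < X := by exact_mod_cast hX1
  have hXE : E ^ A3 ≤ (X : ℝ) := by
    refine le_trans ?_ hXY
    calc E ^ A3 = (E ^ (k * A3)) ^ ((1 : ℝ) / k) := by
          rw [← Real.rpow_mul hE0.le]
          congr 1
          field_simp
      _ ≤ Y ^ ((1 : ℝ) / k) := Real.rpow_le_rpow (by positivity) hcase (by positivity)
  have hXk : (X : ℝ) ^ k ≤ Y * H ^ a1 := by
    calc (X : ℝ) ^ k ≤ R ^ k := pow_le_pow_left₀ hX0.le hXR k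
      _ = Y * H ^ a1 := by
        rw [hR, ← Real.rpow_natCast, ← Real.rpow_mul hYH0.le, one_div,
          inv_mul_cancel₀ hk0.ne', Real.rpow_one, Real.rpow_natCast]
  have hXk0 : (0 : ℝ) < (X : ℝ) ^ k := by positivity
  -- the ingredients
  have h1 := hlow K g hg hd hirr θ hθ hfr H hH hht X hX1
  have h2 := hup K g hg hd hirr θ hθ hfr H hH hht E hE X hXE
  have h3 := hsv g hg hd E hE0.le X hX1
  set F : ℝ := ((freeU g k X E ((X : ℝ) ^ ((1 : ℝ) / 4))).card : ℝ) with hF
  set S' := Ssum (rhoR g) E ((X : ℝ) ^ ((1 : ℝ) / 4)) with hS'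
  have hSS : S ≤ S' := by
    refine lb_ssum_mono g E ?_
    calc Y ^ ((1 : ℝ) / (4 * k)) = (Y ^ ((1 : ℝ) / k)) ^ ((1 : ℝ) / 4) := by
          rw [← Real.rpow_mul hY0.le]
          congr 1
          field_simp
      _ ≤ (X : ℝ) ^ ((1 : ℝ) / 4) := Real.rpow_le_rpow (by positivity) hXY (by norm_num)
  have hF0 : 0 ≤ F := Nat.cast_nonneg _
  have h4 : F * max 1 S ≤ C2 * (X : ℝ) ^ k :=
    (mul_le_mul_of_nonneg_left (max_le_max le_rfl hSS) hF0).trans h3
  have h5 : F ≤ C2 / max 1 S * (X : ℝ) ^ k := by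
    rw [div_mul_eq_mul_div, le_div_iff₀ hmax]
    exact h4
  have hM : Msum (rhoR g) ((X : ℝ) ^ k / H ^ a1) ≤ Msum (rhoR g) Y := by
    refine lb_msum_mono g ?_
    rw [div_le_iff₀ (by positivity)]
    exact hXk
  have hlX1 : Real.log Y ≤ k * Real.log X := by
    have := Real.log_le_log (by positivity) hXY
    rw [Real.log_rpow hY0] at this
    calc Real.log Y = k * (1 / k * Real.log Y) := by field_simp
      _ ≤ k * Real.log X := mul_le_mul_of_nonneg_left this hk0.le
  have hlX2 : k * Real.log X ≤ Real.log Y + a1 * Real.log H := by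
    have := Real.log_le_log hXk0 hXk
    rw [Real.log_pow, Real.log_mul hY0.ne' (by positivity), Real.log_pow] at this
    exact this
  -- divide by `X ^ k`
  have h6 : (X : ℝ) ^ k * (k * Real.log X - C1 * Real.log H) ≤
      (X : ℝ) ^ k * (Msum (rhoR g) Y + C3 * Real.log H +
        C2 / max 1 S * (k * Real.log X + C3 * Real.log H)) := by
    have hpos : 0 ≤ k * Real.log X + C3 * Real.log H := by
      have : 0 ≤ C3 * Real.log H := by positivity
      linarith
    calc (X : ℝ) ^ k * (k * Real.log X - C1 * Real.log H)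
        = (X : ℝ) ^ k * (k * Real.log X) - C1 * (X : ℝ) ^ k * Real.log H := by ring
      _ ≤ _ := h1
      _ ≤ _ := h2
      _ ≤ (X : ℝ) ^ k * (Msum (rhoR g) Y + C3 * Real.log H) +
          (C2 / max 1 S * (X : ℝ) ^ k) * (k * Real.log X + C3 * Real.log H) := by
          refine add_le_add ?_ (mul_le_mul_of_nonneg_right h5 hpos)
          exact mul_le_mul_of_nonneg_left (by linarith) hXk0.le
      _ = _ := by ring
  have h7 := le_of_mul_le_mul_left h6 hXk0
  -- final estimate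
  have hq0 : 0 ≤ C2 / max 1 S := by positivity
  have hq1 : C2 / max 1 S ≤ C2 := by
    rw [div_le_iff₀ hmax]
    exact le_mul_of_one_le_right hC2 (le_max_left _ _)
  have h8 : C2 / max 1 S * (k * Real.log X + C3 * Real.log H) ≤
      C2 * Real.log Y / max 1 S + C2 * (a1 + C3) * Real.log H := by
    calc C2 / max 1 S * (k * Real.log X + C3 * Real.log H)
        ≤ C2 / max 1 S * (Real.log Y + (a1 + C3) * Real.log H) :=
          mul_le_mul_of_nonneg_left (by linarith) hq0
      _ = C2 * Real.log Y / max 1 S + C2 / max 1 S * ((a1 + C3) * Real.log H) := by ring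
      _ ≤ C2 * Real.log Y / max 1 S + C2 * ((a1 + C3) * Real.log H) := by
          have : C2 / max 1 S * ((a1 + C3) * Real.log H) ≤ C2 * ((a1 + C3) * Real.log H) :=
            mul_le_mul_of_nonneg_right hq1 (by positivity)
          linarith
      _ = _ := by ring
  have h9 : C2 * Real.log Y / max 1 S ≤ C * Real.log Y / max 1 S := by
    refine div_le_div_of_nonneg_right (mul_le_mul_of_nonneg_right ?_ hlY0) hmax.le
    rw [hC]
    have : 0 ≤ C1 + C3 + C2 * (a1 + C3) + k * A3 := by positivity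
    linarith
  have h10 : (C1 + C3 + C2 * (a1 + C3)) * Real.log H ≤ C * Real.log E := by
    calc (C1 + C3 + C2 * (a1 + C3)) * Real.log H ≤ (C1 + C3 + C2 * (a1 + C3)) * Real.log E :=
          mul_le_mul_of_nonneg_left hlHE (by positivity)
      _ ≤ C * Real.log E := by
          refine mul_le_mul_of_nonneg_right ?_ hlE0
          rw [hC]
          have : 0 ≤ C2 + k * A3 := by positivity
          linarith
  nlinarith

end EK75
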