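import Pool.Agent.H75.EK.Nf

/-! Module LB1: lower bound for the average of `log N(u)`. -/

open Polynomial Finset NumberField
open scoped Real BigOperators

namespace EK75

theorem lb1_card_int (S : Finset ℤ) (c r : ℝ) (hr : 0 ≤ r)
    (h : ∀ a ∈ S, |(a : ℝ) + c| < r) : (S.card : ℝ) ≤ 2 * r + 1 := by
  have hsub : S ⊆ Finset.Icc ⌈-c - r⌉ ⌊-c + r⌋ := by
    intro a ha
    have h1 := abs_lt.1 (h a ha)
    rw [Finset.mem_Icc]
    exact ⟨Int.ceil_le.2 (by linarith [h1.1]), Int.le_floor.2 (by linarith [h1.2])⟩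
  have h1 := Finset.card_le_card hsub
  rw [Int.card_Icc] at h1
  have h2 : (((⌊-c + r⌋ + 1 - ⌈-c - r⌉).toNat : ℕ) : ℝ) ≤ 2 * r + 1 := by
    rcases le_total 0 (⌊-c + r⌋ + 1 - ⌈-c - r⌉) with h0 | h0
    · have h3 : (((⌊-c + r⌋ + 1 - ⌈-c - r⌉).toNat : ℕ) : ℝ) =
          (((⌊-c + r⌋ + 1 - ⌈-c - r⌉ : ℤ)) : ℝ) := by
        have : (((⌊-c + r⌋ + 1 - ⌈-c - r⌉).toNat : ℕ) : ℤ) = ⌊-c + r⌋ + 1 - ⌈-c - r⌉ :=
          Int.toNat_of_nonneg h0
        exact_mod_cast this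
      rw [h3]
      push_cast
      have h4 := Int.floor_le (-c + r)
      have h5 := Int.le_ceil (-c - r)
      linarith
    · rw [Int.toNat_of_nonpos h0]
      simp only [Nat.cast_zero]
      linarith
  calc (S.card : ℝ) ≤ (((⌊-c + r⌋ + 1 - ⌈-c - r⌉).toNat : ℕ) : ℝ) := by exact_mod_cast h1
    _ ≤ 2 * r + 1 := h2

theorem lb1_card_box (k X : ℕ) : (boxZ k X).card = X ^ k := by
  unfold boxZ
  rw [Fintype.card_piFinset]
  simp

theorem lb1_count (k X : ℕ) (z : ℂ) (r : ℝ) (hr : 0 ≤ r) :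
    (((boxZ (k + 1) X).filter
      (fun u : Fin (k + 1) → ℤ => ‖∑ i : Fin (k + 1), (u i : ℂ) * z ^ (i : ℕ)‖ < r)).card : ℝ) ≤ (2 * r + 1) * (X : ℝ) ^ k := by
  classical
  set s := (boxZ (k + 1) X).filter (fun u : Fin (k + 1) → ℤ => ‖∑ i : Fin (k + 1), (u i : ℂ) * z ^ (i : ℕ)‖ < r) with hs
  let f : (Fin (k + 1) → ℤ) → (Fin k → ℤ) := fun u i => u i.succ
  have hfib : ∀ b ∈ s.image f, (s.filter (fun a => f a = b)).card ≤ ⌊2 * r + 1⌋₊ := by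
    intro b _
    apply Nat.le_floor
    have hinj : Set.InjOn (fun u : Fin (k + 1) → ℤ => u 0) (s.filter (fun a => f a = b)) := by
      intro u hu v hv huv
      have hu' := (Finset.mem_filter.1 (Finset.mem_coe.1 hu)).2
      have hv' := (Finset.mem_filter.1 (Finset.mem_coe.1 hv)).2
      funext i
      refine Fin.cases huv (fun i => ?_) i
      exact congrFun (hu'.trans hv'.symm) i
    rw [← Finset.card_image_of_injOn hinj]
    refine lb1_card_int _ ((∑ i : Fin k, (b i : ℂ) * z ^ ((i : ℕ) + 1)).re) r hr ?_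
    intro a ha
    obtain ⟨u, hu, rfl⟩ := Finset.mem_image.1 ha
    obtain ⟨hu1, hu2⟩ := Finset.mem_filter.1 hu
    have hu3 := (Finset.mem_filter.1 (hs ▸ hu1)).2
    rw [Fin.sum_univ_succ] at hu3
    have h4 : ∑ i : Fin k, ((u i.succ : ℤ) : ℂ) * z ^ ((i.succ : Fin (k + 1)) : ℕ) =
        ∑ i : Fin k, (b i : ℂ) * z ^ ((i : ℕ) + 1) := by
      refine Finset.sum_congr rfl fun i _ => ?_
      rw [Fin.val_succ, ← hu2]
    rw [h4] at hu3
    have h5 : ((u 0 : ℤ) : ℝ) + (∑ i : Fin k, (b i : ℂ) * z ^ ((i : ℕ) + 1)).re =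
        (((u 0 : ℤ) : ℂ) * z ^ ((0 : Fin (k + 1)) : ℕ) +
          ∑ i : Fin k, (b i : ℂ) * z ^ ((i : ℕ) + 1)).re := by
      rw [Complex.add_re]
      simp
    change |((u 0 : ℤ) : ℝ) + _| < r
    rw [h5]
    exact lt_of_le_of_lt (Complex.abs_re_le_norm _) hu3
  have h1 := Finset.card_le_mul_card_image s ⌊2 * r + 1⌋₊ hfib
  have h2 : (s.image f).card ≤ X ^ k := by
    rw [← lb1_card_box k X]
    refine Finset.card_le_card ?_
    intro b hb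
    obtain ⟨u, hu, rfl⟩ := Finset.mem_image.1 hb
    have hu1 := (Finset.mem_filter.1 (hs ▸ hu)).1
    unfold boxZ at hu1 ⊢
    rw [Fintype.mem_piFinset] at hu1 ⊢
    intro i
    exact hu1 i.succ
  have h3 : (s.card : ℝ) ≤ (⌊2 * r + 1⌋₊ : ℝ) * ((s.image f).card : ℝ) := by exact_mod_cast h1
  have h4 : ((⌊2 * r + 1⌋₊ : ℕ) : ℝ) ≤ 2 * r + 1 := Nat.floor_le (by linarith)
  have h5 : ((s.image f).card : ℝ) ≤ (X : ℝ) ^ k := by exact_mod_cast h2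
  calc (s.card : ℝ) ≤ (⌊2 * r + 1⌋₊ : ℝ) * ((s.image f).card : ℝ) := h3
    _ ≤ (2 * r + 1) * (X : ℝ) ^ k :=
      mul_le_mul h4 h5 (Nat.cast_nonneg _) (by linarith)

theorem lb1_exp_sum (M : ℕ) : ∑ j ∈ range (M + 1), Real.exp (-(j : ℝ)) ≤ 2 := by
  have h1 : ∀ j : ℕ, Real.exp (-(j : ℝ)) ≤ (1 / (2 : ℝ)) ^ j := by
    intro j
    have h2 : Real.exp (-(j : ℝ)) = (Real.exp (-1)) ^ j := by
      rw [← Real.exp_nat_mul]
      ring_nf
    rw [h2]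
    refine pow_le_pow_left₀ (Real.exp_pos _).le ?_ j
    rw [Real.exp_neg, one_div]
    refine inv_anti₀ (by norm_num) ?_
    have := Real.add_one_le_exp (1 : ℝ)
    linarith
  calc ∑ j ∈ range (M + 1), Real.exp (-(j : ℝ)) ≤ ∑ j ∈ range (M + 1), (1 / (2 : ℝ)) ^ j :=
        Finset.sum_le_sum fun j _ => h1 j
    _ ≤ 2 := sum_geometric_two_le _

/-- the number of `j ≤ M` with `z < X e^{-j}` -/
noncomputable def lb1_m (M X : ℕ) (z : ℝ) : ℕ :=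
  ((range (M + 1)).filter (fun j : ℕ => z < X * Real.exp (-(j : ℝ)))).card

theorem lb1_m_spec (M X : ℕ) (z : ℝ) (h : lb1_m M X z < M + 1) :
    X * Real.exp (-(lb1_m M X z : ℝ)) ≤ z := by
  by_contra hcon
  push Not at hcon
  have hsub : range (lb1_m M X z + 1) ⊆
      (range (M + 1)).filter (fun j : ℕ => z < X * Real.exp (-(j : ℝ))) := by
    intro j hj
    rw [Finset.mem_range] at hj
    rw [Finset.mem_filter, Finset.mem_range]
    refine ⟨by omega, lt_of_lt_of_le hcon ?_⟩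
    refine mul_le_mul_of_nonneg_left (Real.exp_le_exp.2 ?_) (Nat.cast_nonneg _)
    have : (j : ℝ) ≤ lb1_m M X z := by exact_mod_cast Nat.lt_succ_iff.1 hj
    linarith
  have h1 := Finset.card_le_card hsub
  rw [Finset.card_range] at h1
  have h2 : lb1_m M X z = ((range (M + 1)).filter
    (fun j : ℕ => z < X * Real.exp (-(j : ℝ)))).card := rfl
  omega

theorem lb1_sum_m (k M X : ℕ) (hX : 1 ≤ X) (z : ℂ) :
    ∑ u ∈ boxZ (k + 1) X, (lb1_m M X ‖∑ i, (u i : ℂ) * z ^ (i : ℕ)‖ : ℝ) ≤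
      (X : ℝ) ^ k * (4 * X + M + 1) := by
  have h1 : ∀ u : Fin (k + 1) → ℤ, (lb1_m M X ‖∑ i, (u i : ℂ) * z ^ (i : ℕ)‖ : ℝ) =
      ∑ j ∈ range (M + 1),
        (if ‖∑ i, (u i : ℂ) * z ^ (i : ℕ)‖ < X * Real.exp (-(j : ℝ)) then (1 : ℝ) else 0) := by
    intro u
    rw [Finset.sum_boole]
    rfl
  rw [Finset.sum_congr rfl fun u _ => h1 u, Finset.sum_comm]
  have h2 : ∀ j ∈ range (M + 1), ∑ u ∈ boxZ (k + 1) X,
      (if ‖∑ i, (u i : ℂ) * z ^ (i : ℕ)‖ < X * Real.exp (-(j : ℝ)) then (1 : ℝ) else 0) ≤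
      (2 * (X * Real.exp (-(j : ℝ))) + 1) * (X : ℝ) ^ k := by
    intro j _
    rw [Finset.sum_boole]
    exact lb1_count k X z _ (by positivity)
  refine (Finset.sum_le_sum h2).trans ?_
  rw [← Finset.sum_mul, Finset.sum_add_distrib, Finset.sum_const, Finset.card_range]
  rw [mul_comm]
  refine mul_le_mul_of_nonneg_left ?_ (by positivity)
  have h3 : ∑ i ∈ range (M + 1), 2 * ((X : ℝ) * Real.exp (-(i : ℝ))) =
      2 * X * ∑ i ∈ range (M + 1), Real.exp (-(i : ℝ)) := by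
    rw [Finset.mul_sum]
    refine Finset.sum_congr rfl fun i _ => ?_
    ring
  rw [h3]
  have h4 := mul_le_mul_of_nonneg_left (lb1_exp_sum M) (show (0 : ℝ) ≤ 2 * X by positivity)
  simp only [nsmul_eq_mul, mul_one]
  push_cast
  linarith

theorem T_lower (k : ℕ) (hk : 1 ≤ k) : ∃ C : ℝ, 0 ≤ C ∧
    ∀ (K : Type) [Field K] [NumberField K] (g : ℤ[X]), g.Monic → g.natDegree = k → Irreducible g →
    ∀ (θ : 𝓞 K), aeval θ g = 0 → Module.finrank ℚ K = k →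
    ∀ H : ℝ, 2 ≤ H → HtLe g H → ∀ X : ℕ, 1 ≤ X →
    (X : ℝ) ^ k * (k * Real.log X) - C * (X : ℝ) ^ k * Real.log H ≤
      ∑ u ∈ boxZ k X, Real.log (nn θ u) := by
  have hlog2 : 0 < Real.log 2 := Real.log_pos (by norm_num)
  refine ⟨k * (k + 6) / Real.log 2, by positivity, ?_⟩
  intro K _ _ g hg hd hirr θ hθ hfr H hH hHt X hX
  have hX0 : (1 : ℝ) ≤ X := by exact_mod_cast hX
  have hlogX : 0 ≤ Real.log X := Real.log_nonneg hX0
  have hlogX' : Real.log X ≤ X := by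
    have := Real.log_le_sub_one_of_pos (show (0 : ℝ) < X by linarith)
    linarith
  set M : ℕ := ⌈(k : ℝ) * Real.log X⌉₊ with hM
  have hM1 : (k : ℝ) * Real.log X ≤ M := Nat.le_ceil _
  have hM2 : (M : ℝ) ≤ k * X + 1 := by
    have h1 := Nat.ceil_lt_add_one (show 0 ≤ (k : ℝ) * Real.log X by positivity)
    have h2 : (k : ℝ) * Real.log X ≤ k * X := mul_le_mul_of_nonneg_left hlogX' (Nat.cast_nonneg _)
    rw [← hM] at h1
    linarith
  have hcardσ : Fintype.card (K →+* ℂ) = k := by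
    rw [NumberField.Embeddings.card K ℂ, hfr]
  -- pointwise bound
  have hpt : ∀ u : Fin k → ℤ, (k : ℝ) * Real.log X -
      ∑ σ : K →+* ℂ, (lb1_m M X ‖∑ i, (u i : ℂ) * (σ (θ : K)) ^ (i : ℕ)‖ : ℝ) ≤
        Real.log (nn θ u) := by
    intro u
    by_cases hcase : ∃ σ : K →+* ℂ,
        (k : ℝ) * Real.log X ≤ (lb1_m M X ‖∑ i, (u i : ℂ) * (σ (θ : K)) ^ (i : ℕ)‖ : ℝ)
    · obtain ⟨σ, hσ⟩ := hcase
      have h1 : (lb1_m M X ‖∑ i, (u i : ℂ) * (σ (θ : K)) ^ (i : ℕ)‖ : ℝ) ≤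
          ∑ σ : K →+* ℂ, (lb1_m M X ‖∑ i, (u i : ℂ) * (σ (θ : K)) ^ (i : ℕ)‖ : ℝ) :=
        Finset.single_le_sum
          (f := fun σ : K →+* ℂ => (lb1_m M X ‖∑ i, (u i : ℂ) * (σ (θ : K)) ^ (i : ℕ)‖ : ℝ))
          (fun σ _ => Nat.cast_nonneg _) (Finset.mem_univ σ)
      have h2 : 0 ≤ Real.log (nn θ u) := Real.log_natCast_nonneg _
      linarith
    · push Not at hcase
      have h1 : ∀ σ : K →+* ℂ,
          X * Real.exp (-(lb1_m M X ‖∑ i, (u i : ℂ) * (σ (θ : K)) ^ (i : ℕ)‖ : ℝ)) ≤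
            ‖∑ i, (u i : ℂ) * (σ (θ : K)) ^ (i : ℕ)‖ := by
        intro σ
        apply lb1_m_spec
        have := (hcase σ).trans_le hM1
        have : lb1_m M X ‖∑ i, (u i : ℂ) * (σ (θ : K)) ^ (i : ℕ)‖ < M := by exact_mod_cast this
        omega
      have h2 : (X : ℝ) ^ k * Real.exp (-∑ σ : K →+* ℂ,
          (lb1_m M X ‖∑ i, (u i : ℂ) * (σ (θ : K)) ^ (i : ℕ)‖ : ℝ)) ≤ nn θ u := by
        rw [nf_prod k hk g hg hd hirr θ hθ hfr u]
        calc (X : ℝ) ^ k * Real.exp (-∑ σ : K →+* ℂ,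
              (lb1_m M X ‖∑ i, (u i : ℂ) * (σ (θ : K)) ^ (i : ℕ)‖ : ℝ)) =
            ∏ σ : K →+* ℂ,
              (X * Real.exp (-(lb1_m M X ‖∑ i, (u i : ℂ) * (σ (θ : K)) ^ (i : ℕ)‖ : ℝ))) := by
              rw [Finset.prod_mul_distrib, Finset.prod_const, Finset.card_univ, hcardσ,
                ← Finset.sum_neg_distrib, Real.exp_sum]
          _ ≤ _ := Finset.prod_le_prod (fun σ _ => by positivity) (fun σ _ => h1 σ)
      have h3 : Real.log ((X : ℝ) ^ k * Real.exp (-∑ σ : K →+* ℂ,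
          (lb1_m M X ‖∑ i, (u i : ℂ) * (σ (θ : K)) ^ (i : ℕ)‖ : ℝ))) ≤ Real.log (nn θ u) :=
        Real.log_le_log (by positivity) h2
      rw [Real.log_mul (by positivity) (Real.exp_ne_zero _), Real.log_exp, Real.log_pow] at h3
      linarith
  -- the sum
  obtain ⟨k', rfl⟩ : ∃ k', k = k' + 1 := ⟨k - 1, by omega⟩
  have hsum := Finset.sum_le_sum (s := boxZ (k' + 1) X) fun u _ => hpt u
  rw [Finset.sum_sub_distrib, Finset.sum_const, lb1_card_box, Finset.sum_comm] at hsum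
  have hbound : ∑ σ : K →+* ℂ, ∑ u ∈ boxZ (k' + 1) X,
      (lb1_m M X ‖∑ i, (u i : ℂ) * (σ (θ : K)) ^ (i : ℕ)‖ : ℝ) ≤
      ∑ σ : K →+* ℂ, (X : ℝ) ^ k' * (4 * X + M + 1) :=
    Finset.sum_le_sum fun σ _ => lb1_sum_m k' M X hX _
  rw [Finset.sum_const, Finset.card_univ, hcardσ] at hbound
  have hb2 : ((k' + 1 : ℕ) • ((X : ℝ) ^ k' * (4 * X + M + 1))) ≤
      ((k' + 1 : ℕ) : ℝ) * (((k' + 1 : ℕ) : ℝ) + 6) * (X : ℝ) ^ (k' + 1) := by
    rw [nsmul_eq_mul, mul_assoc]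
    refine mul_le_mul_of_nonneg_left ?_ (Nat.cast_nonneg _)
    calc (X : ℝ) ^ k' * (4 * X + M + 1) ≤ (X : ℝ) ^ k' * ((((k' + 1 : ℕ) : ℝ) + 6) * X) := by
          refine mul_le_mul_of_nonneg_left ?_ (by positivity)
          nlinarith
      _ = (((k' + 1 : ℕ) : ℝ) + 6) * (X : ℝ) ^ (k' + 1) := by ring
  have hC : ((k' + 1 : ℕ) : ℝ) * (((k' + 1 : ℕ) : ℝ) + 6) * (X : ℝ) ^ (k' + 1) ≤
      ((k' + 1 : ℕ) : ℝ) * (((k' + 1 : ℕ) : ℝ) + 6) / Real.log 2 * (X : ℝ) ^ (k' + 1) *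
        Real.log H := by
    have hlogH : Real.log 2 ≤ Real.log H := Real.log_le_log (by norm_num) hH
    have h1 : ((k' + 1 : ℕ) : ℝ) * (((k' + 1 : ℕ) : ℝ) + 6) / Real.log 2 * (X : ℝ) ^ (k' + 1) *
        Real.log H = ((k' + 1 : ℕ) : ℝ) * (((k' + 1 : ℕ) : ℝ) + 6) * (X : ℝ) ^ (k' + 1) *
          (Real.log H / Real.log 2) := by
      field_simp
    rw [h1]
    refine le_mul_of_one_le_right (by positivity) ?_
    rw [le_div_iff₀ hlog2]
    linarith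
  rw [nsmul_eq_mul] at hsum
  push_cast at hsum hC hb2 hbound ⊢
  linarith

end EK75
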