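import Pool.Agent.H75.EK.Mert

/-! Module LB2: second moment sieve. -/

open Polynomial Finset
open scoped Real BigOperators

namespace EK75

open Classical in
/-- `u ∈ [0,X)^k` such that no prime `p ∈ (a,b]` and root `r` of `g` mod `p` satisfy `p ∣ u(r)` -/
noncomputable def freeU (g : ℤ[X]) (k X : ℕ) (a b : ℝ) : Finset (Fin k → ℤ) :=
  (boxZ k X).filter fun u => ∀ p ∈ prIoc a b, ∀ r ∈ range p, (p : ℤ) ∣ g.eval (r : ℤ) →
    ¬ ((p : ℤ) ∣ ∑ i : Fin k, u i * (r : ℤ) ^ (i : ℕ))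

/-! ### Counting in one residue class -/

theorem lb2_card_modEq (X q : ℕ) (hq : 0 < q) (v : ℤ) :
    |((((Finset.Ico 0 (X : ℤ)).filter (· ≡ v [ZMOD q])).card : ℝ)) - (X : ℝ) / q| ≤ 1 := by
  have hq' : (0 : ℤ) < q := by exact_mod_cast hq
  have hqR : (0 : ℝ) < q := by exact_mod_cast hq
  have h := Int.Ico_filter_modEq_card 0 (X : ℤ) hq' v
  have h1 : (((Finset.Ico 0 (X : ℤ)).filter (· ≡ v [ZMOD q])).card : ℤ) =
      max (⌈((X : ℤ) - v : ℚ) / ((q : ℤ) : ℚ)⌉ - ⌈((0 : ℤ) - v : ℚ) / ((q : ℤ) : ℚ)⌉) 0 := h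
  set A : ℤ := ⌈((X : ℤ) - v : ℚ) / ((q : ℤ) : ℚ)⌉ with hA
  set B : ℤ := ⌈((0 : ℤ) - v : ℚ) / ((q : ℤ) : ℚ)⌉ with hB
  have a1 := Int.le_ceil (((X : ℤ) - v : ℚ) / ((q : ℤ) : ℚ))
  have a2 := Int.ceil_lt_add_one (((X : ℤ) - v : ℚ) / ((q : ℤ) : ℚ))
  have b1 := Int.le_ceil (((0 : ℤ) - v : ℚ) / ((q : ℤ) : ℚ))
  have b2 := Int.ceil_lt_add_one (((0 : ℤ) - v : ℚ) / ((q : ℤ) : ℚ))
  rw [← hA] at a1 a2
  rw [← hB] at b1 b2
  have hqQ : (0 : ℚ) < q := by exact_mod_cast hq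
  have e1 : (((X : ℤ) - v : ℚ) / ((q : ℤ) : ℚ)) - (((0 : ℤ) - v : ℚ) / ((q : ℤ) : ℚ)) = (X : ℚ) / q := by
    push_cast
    field_simp
    ring
  have hX0 : (0 : ℚ) ≤ (X : ℚ) / q := by positivity
  have c1 : (A : ℚ) - B - (X : ℚ) / q < 1 := by linarith
  have c2 : -1 < (A : ℚ) - B - (X : ℚ) / q := by linarith
  have hcard : ((((Finset.Ico 0 (X : ℤ)).filter (· ≡ v [ZMOD q])).card : ℕ) : ℚ) =
      max ((A : ℚ) - B) 0 := by
    have : ((((Finset.Ico 0 (X : ℤ)).filter (· ≡ v [ZMOD q])).card : ℤ) : ℚ) =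
        ((max (A - B) 0 : ℤ) : ℚ) := by rw [h1]
    push_cast at this
    exact this
  have d : |(((((Finset.Ico 0 (X : ℤ)).filter (· ≡ v [ZMOD q])).card : ℕ) : ℚ)) - (X : ℚ) / q| ≤ 1 := by
    rw [hcard, abs_le]
    constructor
    · have := le_max_left ((A : ℚ) - B) 0
      linarith
    · rcases le_total ((A : ℚ) - B) 0 with h0 | h0
      · rw [max_eq_right h0]; linarith
      · rw [max_eq_left h0]; linarith
  have d2 : ((|(((((Finset.Ico 0 (X : ℤ)).filter (· ≡ v [ZMOD q])).card : ℕ) : ℚ)) - (X : ℚ) / q| : ℚ) : ℝ)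
      ≤ ((1 : ℚ) : ℝ) := by exact_mod_cast d
  push_cast at d2
  exact d2

theorem lb2_class_le (X q : ℕ) (hq : 0 < q) (S : Finset ℤ) (hS : S ⊆ Finset.Ico 0 (X : ℤ))
    (h : ∀ a ∈ S, ∀ b ∈ S, (q : ℤ) ∣ a - b) : (S.card : ℝ) ≤ (X : ℝ) / q + 1 := by
  rcases S.eq_empty_or_nonempty with h0 | ⟨a0, ha0⟩
  · rw [h0]
    have : (0 : ℝ) ≤ (X : ℝ) / q := by positivity
    simp only [Finset.card_empty, Nat.cast_zero]
    linarith
  · have h1 : S ⊆ (Finset.Ico 0 (X : ℤ)).filter (· ≡ a0 [ZMOD q]) := by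
      intro a ha
      rw [Finset.mem_filter]
      refine ⟨hS ha, ?_⟩
      have := h a0 ha0 a ha
      exact (Int.modEq_iff_dvd).2 this
    have h2 := lb2_card_modEq X q hq a0
    have h3 : (S.card : ℝ) ≤ (((Finset.Ico 0 (X : ℤ)).filter (· ≡ a0 [ZMOD q])).card : ℝ) := by
      exact_mod_cast Finset.card_le_card h1
    have := (abs_le.1 h2).2
    linarith

theorem lb2_class_ge (X q : ℕ) (hq : 0 < q) (c : ℤ) :
    (X : ℝ) / q - 1 ≤ (((Finset.Ico 0 (X : ℤ)).filter (fun a => (q : ℤ) ∣ a + c)).card : ℝ) := by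
  have h2 := lb2_card_modEq X q hq (-c)
  have h1 : (Finset.Ico 0 (X : ℤ)).filter (· ≡ -c [ZMOD q]) =
      (Finset.Ico 0 (X : ℤ)).filter (fun a => (q : ℤ) ∣ a + c) := by
    apply Finset.filter_congr
    intro a _
    rw [Int.modEq_comm, Int.modEq_iff_dvd, sub_neg_eq_add]
  rw [h1] at h2
  have := (abs_le.1 h2).1
  linarith

/-! ### Counting in the box -/

theorem lb2_box_sum (n X : ℕ) (F : (Fin (n + 1) → ℤ) → ℝ) :
    ∑ u ∈ boxZ (n + 1) X, F u =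
      ∑ v ∈ boxZ n X, ∑ a ∈ Finset.Ico 0 (X : ℤ), F (Fin.cons a v) := by
  rw [← Finset.sum_product']
  refine Finset.sum_nbij' (fun u => (Fin.tail u, u 0)) (fun x => Fin.cons x.2 x.1) ?_ ?_ ?_ ?_ ?_
  · intro u hu
    unfold boxZ at hu ⊢
    rw [Fintype.mem_piFinset] at hu
    rw [Finset.mem_product, Fintype.mem_piFinset]
    exact ⟨fun i => hu i.succ, hu 0⟩
  · intro x hx
    unfold boxZ at hx ⊢
    rw [Finset.mem_product, Fintype.mem_piFinset] at hx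
    rw [Fintype.mem_piFinset]
    intro i
    refine Fin.cases ?_ (fun i => ?_) i
    · exact hx.2
    · exact hx.1 i
  · intro u _
    exact Fin.cons_self_tail u
  · intro x _
    simp
  · intro u _
    rw [Fin.cons_self_tail]

theorem lb2_box_card (n X : ℕ) : ((boxZ n X).card : ℝ) = (X : ℝ) ^ n := by
  unfold boxZ
  rw [Fintype.card_piFinset]
  simp

/-- evaluation of the polynomial with coefficients `u` -/
def lb2ev {k : ℕ} (u : Fin k → ℤ) (r : ℤ) : ℤ := ∑ i : Fin k, u i * r ^ (i : ℕ)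

theorem lb2ev_cons {n : ℕ} (a : ℤ) (v : Fin n → ℤ) (r : ℤ) :
    lb2ev (Fin.cons a v : Fin (n + 1) → ℤ) r = a + r * lb2ev v r := by
  unfold lb2ev
  rw [Fin.sum_univ_succ]
  simp only [Fin.cons_zero, Fin.val_zero, pow_zero, mul_one, Fin.cons_succ, Fin.val_succ]
  rw [Finset.mul_sum]
  congr 1
  refine Finset.sum_congr rfl fun i _ => ?_
  ring

/-- indicator -/
noncomputable def lb2ind (P : Prop) : ℝ := by
  classical exact if P then 1 else 0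

theorem lb2ind_nonneg (P : Prop) : 0 ≤ lb2ind P := by
  unfold lb2ind
  split_ifs <;> simp

theorem lb2_sum_ind {α : Type*} (s : Finset α) (P : α → Prop) [DecidablePred P] :
    ∑ a ∈ s, lb2ind (P a) = ((s.filter P).card : ℝ) := by
  unfold lb2ind
  rw [Finset.card_filter]
  push_cast
  refine Finset.sum_congr rfl fun a _ => ?_
  by_cases h : P a <;> simp [h]

theorem lb2_one_ge (n X : ℕ) (p : ℕ) (hp : 0 < p) (r : ℤ) :
    (X : ℝ) ^ n * ((X : ℝ) / p - 1) ≤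
      ∑ u ∈ boxZ (n + 1) X, lb2ind ((p : ℤ) ∣ lb2ev u r) := by
  rw [lb2_box_sum, ← lb2_box_card n X, ← nsmul_eq_mul]
  refine Finset.card_nsmul_le_sum _ _ _ fun v _ => ?_
  simp only [lb2ev_cons]
  rw [lb2_sum_ind]
  exact lb2_class_ge X p hp _

theorem lb2_two_le (n X : ℕ) (p p' : ℕ) (q : ℕ) (hq : 0 < q)
    (hdiv : ∀ x : ℤ, (p : ℤ) ∣ x → (p' : ℤ) ∣ x → (q : ℤ) ∣ x) (r r' : ℤ) :
    ∑ u ∈ boxZ (n + 1) X, lb2ind ((p : ℤ) ∣ lb2ev u r ∧ (p' : ℤ) ∣ lb2ev u r') ≤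
      (X : ℝ) ^ n * ((X : ℝ) / q + 1) := by
  rw [lb2_box_sum, ← lb2_box_card n X, ← nsmul_eq_mul]
  refine Finset.sum_le_card_nsmul _ _ _ fun v _ => ?_
  simp only [lb2ev_cons]
  rw [lb2_sum_ind]
  refine lb2_class_le X q hq _ (Finset.filter_subset _ _) ?_
  intro a ha b hb
  rw [Finset.mem_filter] at ha hb
  apply hdiv
  · have := dvd_sub ha.2.1 hb.2.1
    simpa using this
  · have := dvd_sub ha.2.2 hb.2.2
    simpa using this

theorem lb2_same_le (n X : ℕ) (p : ℕ) (hp : p.Prime) (r r' : ℤ) (hr : ¬ (p : ℤ) ∣ r - r') :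
    ∑ u ∈ boxZ (n + 1 + 1) X, lb2ind ((p : ℤ) ∣ lb2ev u r ∧ (p : ℤ) ∣ lb2ev u r') ≤
      (X : ℝ) ^ n * ((X : ℝ) / p + 1) ^ 2 := by
  have hpos := hp.pos
  rw [lb2_box_sum, lb2_box_sum, ← lb2_box_card n X, ← nsmul_eq_mul]
  refine Finset.sum_le_card_nsmul _ _ _ fun w _ => ?_
  classical
  -- the admissible `b`
  set T : Finset ℤ := (Finset.Ico 0 (X : ℤ)).filter
    (fun b => (p : ℤ) ∣ (r * (b + r * lb2ev w r)) - (r' * (b + r' * lb2ev w r'))) with hT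
  have hTc : (T.card : ℝ) ≤ (X : ℝ) / p + 1 := by
    refine lb2_class_le X p hpos _ (Finset.filter_subset _ _) ?_
    intro a ha b hb
    rw [hT, Finset.mem_filter] at ha hb
    have h1 := dvd_sub ha.2 hb.2
    have h2 : (r * (a + r * lb2ev w r)) - (r' * (a + r' * lb2ev w r')) -
        ((r * (b + r * lb2ev w r)) - (r' * (b + r' * lb2ev w r'))) = (r - r') * (a - b) := by ring
    rw [h2] at h1
    exact (Int.Prime.dvd_mul' hp h1).resolve_left hr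
  have hinner : ∀ b ∈ Finset.Ico 0 (X : ℤ), ∑ a ∈ Finset.Ico 0 (X : ℤ),
      lb2ind ((p : ℤ) ∣ lb2ev (Fin.cons a (Fin.cons b w) : Fin (n + 1 + 1) → ℤ) r ∧
        (p : ℤ) ∣ lb2ev (Fin.cons a (Fin.cons b w) : Fin (n + 1 + 1) → ℤ) r') ≤
      if b ∈ T then (X : ℝ) / p + 1 else 0 := by
    intro b hb
    rw [lb2_sum_ind]
    split_ifs with hbT
    · refine lb2_class_le X p hpos _ (Finset.filter_subset _ _) ?_
      intro a ha a' ha'
      rw [Finset.mem_filter] at ha ha'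
      have := dvd_sub ha.2.1 ha'.2.1
      simpa [lb2ev_cons] using this
    · have : (Finset.Ico 0 (X : ℤ)).filter (fun a =>
        (p : ℤ) ∣ lb2ev (Fin.cons a (Fin.cons b w) : Fin (n + 1 + 1) → ℤ) r ∧
        (p : ℤ) ∣ lb2ev (Fin.cons a (Fin.cons b w) : Fin (n + 1 + 1) → ℤ) r') = ∅ := by
        rw [Finset.filter_eq_empty_iff]
        intro a _ h
        apply hbT
        rw [hT, Finset.mem_filter]
        refine ⟨hb, ?_⟩
        have := dvd_sub h.1 h.2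
        simpa [lb2ev_cons] using this
      rw [this]
      simp
  refine (Finset.sum_le_sum hinner).trans ?_
  rw [← Finset.sum_filter, Finset.sum_const, nsmul_eq_mul]
  have h5 : (Finset.Ico 0 (X : ℤ)).filter (fun b => b ∈ T) = T := by
    ext b
    rw [Finset.mem_filter, hT, Finset.mem_filter]
    tauto
  rw [h5, sq]
  exact mul_le_mul_of_nonneg_right hTc (by positivity)

/-! ### Pairs (prime, root) -/

theorem lb2_rho_le {g : ℤ[X]} (hg : g.Monic) {p : ℕ} (hp : p.Prime) : rho g p ≤ g.natDegree := by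
  have : Fact p.Prime := ⟨hp⟩
  set G : (ZMod p)[X] := g.map (Int.castRingHom (ZMod p)) with hG
  have hGm : G.Monic := hg.map _
  have hinj : Set.InjOn (fun r : ℕ => (r : ZMod p))
      ((range p).filter (fun r : ℕ => (p : ℤ) ∣ g.eval (r : ℤ)) : Finset ℕ) := by
    intro r hr r' hr' h
    rw [Finset.mem_coe, Finset.mem_filter, Finset.mem_range] at hr hr'
    have h2 : ((r : ℕ) : ZMod p) = ((r' : ℕ) : ZMod p) := h
    rw [ZMod.natCast_eq_natCast_iff'] at h2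
    rwa [Nat.mod_eq_of_lt hr.1, Nat.mod_eq_of_lt hr'.1] at h2
  classical
  have h1 : ((range p).filter (fun r : ℕ => (p : ℤ) ∣ g.eval (r : ℤ))).card ≤ G.roots.toFinset.card := by
    refine Finset.card_le_card_of_injOn (fun r : ℕ => (r : ZMod p)) ?_ hinj
    intro r hr
    rw [Finset.mem_coe, Finset.mem_filter] at hr
    rw [Finset.mem_coe, Multiset.mem_toFinset, Polynomial.mem_roots hGm.ne_zero]
    show G.eval ((r : ℕ) : ZMod p) = 0
    have h3 : G.eval ((r : ℕ) : ZMod p) = ((g.eval (r : ℤ) : ℤ) : ZMod p) := by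
      rw [hG, Polynomial.eval_map, ← Int.cast_natCast (R := ZMod p), ← eq_intCast (Int.castRingHom (ZMod p)) (r : ℤ),
        Polynomial.eval₂_at_apply]
      rfl
    rw [h3]
    exact (ZMod.intCast_zmod_eq_zero_iff_dvd _ _).2 hr.2
  have h2 : G.roots.toFinset.card ≤ G.natDegree :=
    (Multiset.toFinset_card_le _).trans (Polynomial.card_roots' G)
  unfold rho
  refine h1.trans (h2.trans ?_)
  rw [hG, hg.natDegree_map]

/-- pairs (prime, root) -/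
noncomputable def lb2P (g : ℤ[X]) (a b : ℝ) : Finset (Σ _ : ℕ, ℕ) :=
  (prIoc a b).sigma fun p => (range p).filter (fun r : ℕ => (p : ℤ) ∣ g.eval (r : ℤ))

theorem lb2_mem {g : ℤ[X]} {a b : ℝ} {x : Σ _ : ℕ, ℕ} (hx : x ∈ lb2P g a b) :
    x.1.Prime ∧ x.1 ≤ ⌊b⌋₊ ∧ x.2 < x.1 ∧ x.1 ∈ prIoc a b := by
  unfold lb2P at hx
  rw [Finset.mem_sigma, Finset.mem_filter, Finset.mem_range] at hx
  have h := hx.1
  unfold prIoc at h
  rw [Finset.mem_filter, Finset.mem_Ioc] at h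
  exact ⟨h.2, h.1.2, hx.2.1, hx.1⟩

theorem lb2_S (g : ℤ[X]) (a b : ℝ) : Ssum (rhoR g) a b = ∑ x ∈ lb2P g a b, (1 : ℝ) / x.1 := by
  unfold Ssum lb2P rhoR rho
  rw [Finset.sum_sigma]
  refine Finset.sum_congr rfl fun p _ => ?_
  have h : ∀ r ∈ (range p).filter (fun r : ℕ => (p : ℤ) ∣ g.eval (r : ℤ)),
      (1 : ℝ) / (((⟨p, r⟩ : Σ _ : ℕ, ℕ).1 : ℕ) : ℝ) = 1 / (p : ℝ) := fun r _ => rfl
  rw [Finset.sum_congr rfl h, Finset.sum_const, nsmul_eq_mul]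
  ring

theorem lb2_prIoc_card (a b : ℝ) : (prIoc a b).card ≤ ⌊b⌋₊ := by
  unfold prIoc
  refine (Finset.card_filter_le _ _).trans ?_
  rw [Nat.card_Ioc]
  omega

theorem lb2_P_card (g : ℤ[X]) (a b : ℝ) : (lb2P g a b).card ≤ ⌊b⌋₊ ^ 2 := by
  unfold lb2P
  rw [Finset.card_sigma]
  calc ∑ p ∈ prIoc a b, ((range p).filter (fun r : ℕ => (p : ℤ) ∣ g.eval (r : ℤ))).card
      ≤ ∑ p ∈ prIoc a b, ⌊b⌋₊ := by
        refine Finset.sum_le_sum fun p hp => ?_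
        refine (Finset.card_filter_le _ _).trans ?_
        rw [Finset.card_range]
        unfold prIoc at hp
        rw [Finset.mem_filter, Finset.mem_Ioc] at hp
        exact hp.1.2
    _ = (prIoc a b).card * ⌊b⌋₊ := by rw [Finset.sum_const, smul_eq_mul]
    _ ≤ ⌊b⌋₊ * ⌊b⌋₊ := Nat.mul_le_mul_right _ (lb2_prIoc_card a b)
    _ = ⌊b⌋₊ ^ 2 := by ring

theorem lb2_S_le (g : ℤ[X]) (a b : ℝ) : Ssum (rhoR g) a b ≤ ⌊b⌋₊ := by
  unfold Ssum
  calc ∑ p ∈ prIoc a b, rhoR g p / p ≤ ∑ p ∈ prIoc a b, (1 : ℝ) := by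
        refine Finset.sum_le_sum fun p _ => ?_
        refine div_le_one_of_le₀ ?_ (Nat.cast_nonneg _)
        unfold rhoR rho
        exact_mod_cast (Finset.card_filter_le _ _).trans (by rw [Finset.card_range])
    _ = ((prIoc a b).card : ℝ) := by simp
    _ ≤ ⌊b⌋₊ := by exact_mod_cast lb2_prIoc_card a b

theorem lb2_S_nonneg (g : ℤ[X]) (a b : ℝ) : 0 ≤ Ssum (rhoR g) a b := by
  rw [lb2_S]
  exact Finset.sum_nonneg fun x _ => by positivity

/-- number of pairs with a given prime -/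
theorem lb2_same_count {g : ℤ[X]} (hg : g.Monic) {k : ℕ} (hk : g.natDegree = k) (a b : ℝ) (q : ℕ) :
    ∑ y ∈ lb2P g a b, (if q = y.1 then (1 : ℝ) else 0) ≤ k := by
  unfold lb2P
  rw [Finset.sum_sigma]
  have h1 : ∀ p ∈ prIoc a b, ∑ r ∈ (range p).filter (fun r : ℕ => (p : ℤ) ∣ g.eval (r : ℤ)),
      (if q = (⟨p, r⟩ : Σ _ : ℕ, ℕ).1 then (1 : ℝ) else 0) = if q = p then (rho g p : ℝ) else 0 := by
    intro p _
    have h : ∀ r ∈ (range p).filter (fun r : ℕ => (p : ℤ) ∣ g.eval (r : ℤ)),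
        (if q = (⟨p, r⟩ : Σ _ : ℕ, ℕ).1 then (1 : ℝ) else 0) = if q = p then 1 else 0 := fun r _ => rfl
    rw [Finset.sum_congr rfl h, Finset.sum_const, nsmul_eq_mul]
    unfold rho
    split_ifs <;> simp
  rw [Finset.sum_congr rfl h1, Finset.sum_ite_eq]
  split_ifs with hq
  · unfold prIoc at hq
    rw [Finset.mem_filter] at hq
    rw [← hk]
    exact_mod_cast lb2_rho_le hg hq.2
  · exact Nat.cast_nonneg _

theorem lb2_sum_sq {g : ℤ[X]} (hg : g.Monic) {k : ℕ} (hk : g.natDegree = k) (a b : ℝ) :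
    ∑ x ∈ lb2P g a b, (1 : ℝ) / (x.1 : ℝ) ^ 2 ≤ k * ∑' n : ℕ, (1 : ℝ) / (n : ℝ) ^ 2 := by
  unfold lb2P
  rw [Finset.sum_sigma]
  have hsum : Summable (fun n : ℕ => (1 : ℝ) / (n : ℝ) ^ 2) :=
    Real.summable_one_div_nat_pow.2 (by norm_num)
  calc ∑ p ∈ prIoc a b, ∑ r ∈ (range p).filter (fun r : ℕ => (p : ℤ) ∣ g.eval (r : ℤ)),
        (1 : ℝ) / (((⟨p, r⟩ : Σ _ : ℕ, ℕ).1 : ℕ) : ℝ) ^ 2
      ≤ ∑ p ∈ prIoc a b, (k : ℝ) * (1 / (p : ℝ) ^ 2) := by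
        refine Finset.sum_le_sum fun p hp => ?_
        have h : ∀ r ∈ (range p).filter (fun r : ℕ => (p : ℤ) ∣ g.eval (r : ℤ)),
            (1 : ℝ) / (((⟨p, r⟩ : Σ _ : ℕ, ℕ).1 : ℕ) : ℝ) ^ 2 = 1 / (p : ℝ) ^ 2 := fun r _ => rfl
        rw [Finset.sum_congr rfl h, Finset.sum_const, nsmul_eq_mul]
        refine mul_le_mul_of_nonneg_right ?_ (by positivity)
        unfold prIoc at hp
        rw [Finset.mem_filter] at hp
        have := lb2_rho_le hg hp.2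
        unfold rho at this
        rw [hk] at this
        exact_mod_cast this
    _ = k * ∑ p ∈ prIoc a b, 1 / (p : ℝ) ^ 2 := by rw [Finset.mul_sum]
    _ ≤ k * ∑' n : ℕ, (1 : ℝ) / (n : ℝ) ^ 2 := by
        refine mul_le_mul_of_nonneg_left ?_ (Nat.cast_nonneg _)
        exact hsum.sum_le_tsum _ (fun n _ => by positivity)

/-- two conditions -/
theorem lb2_pair {g : ℤ[X]} (hg : g.Monic) {n X : ℕ} (hk : g.natDegree = n + 1) {a b : ℝ}
    (hb : ⌊b⌋₊ ≤ X) {x y : Σ _ : ℕ, ℕ} (hx : x ∈ lb2P g a b) (hy : y ∈ lb2P g a b) :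
    ∑ u ∈ boxZ (n + 1) X, lb2ind ((x.1 : ℤ) ∣ lb2ev u x.2 ∧ (y.1 : ℤ) ∣ lb2ev u y.2) ≤
      (X : ℝ) ^ (n + 1) * ((1 / x.1) * (1 / y.1)) + (X : ℝ) ^ n +
      (if x = y then (X : ℝ) ^ (n + 1) * (1 / x.1) else 0) +
      (if x.1 = y.1 then 4 * (X : ℝ) ^ (n + 1) * (1 / (x.1 : ℝ) ^ 2) else 0) := by
  obtain ⟨hxp, hxb, hxr, -⟩ := lb2_mem hx
  obtain ⟨hyp, hyb, hyr, -⟩ := lb2_mem hy
  have hX0 : (0 : ℝ) ≤ X := Nat.cast_nonneg _
  have hxpos : (0 : ℝ) < x.1 := by exact_mod_cast hxp.pos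
  have hypos : (0 : ℝ) < y.1 := by exact_mod_cast hyp.pos
  by_cases h : x.1 = y.1
  · by_cases h2 : x.2 = y.2
    · have hxy : x = y := Sigma.ext h (by rw [h2])
      rw [if_pos hxy, if_pos h]
      subst hxy
      have h3 := lb2_two_le n X x.1 x.1 x.1 hxp.pos (fun z hz _ => hz) x.2 x.2
      have h4 : (X : ℝ) ^ n * ((X : ℝ) / x.1 + 1) = (X : ℝ) ^ (n + 1) * (1 / x.1) + (X : ℝ) ^ n := by
        rw [pow_succ]; ring
      have h5 : 0 ≤ (X : ℝ) ^ (n + 1) * ((1 / x.1) * (1 / x.1)) := by positivity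
      have h6 : 0 ≤ 4 * (X : ℝ) ^ (n + 1) * (1 / (x.1 : ℝ) ^ 2) := by positivity
      linarith
    · have hxy : x ≠ y := fun e => h2 (by rw [e])
      rw [if_neg hxy, if_pos h]
      -- degree at least two
      have hn : ∃ n', n = n' + 1 := by
        rcases n with _ | n'
        · exfalso
          have h1 := lb2_rho_le hg hxp
          rw [hk] at h1
          unfold rho at h1
          have hx2 : x.2 ∈ (range x.1).filter (fun r : ℕ => (x.1 : ℤ) ∣ g.eval (r : ℤ)) := by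
            have := hx
            unfold lb2P at this
            exact (Finset.mem_sigma.1 this).2
          have hy2 : y.2 ∈ (range x.1).filter (fun r : ℕ => (x.1 : ℤ) ∣ g.eval (r : ℤ)) := by
            have := hy
            unfold lb2P at this
            rw [h]
            exact (Finset.mem_sigma.1 this).2
          have := Finset.card_le_one.1 (by simpa using h1) x.2 hx2 y.2 hy2
          exact h2 this
        · exact ⟨n', rfl⟩
      obtain ⟨n', rfl⟩ := hn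
      have hr : ¬ (x.1 : ℤ) ∣ ((x.2 : ℕ) : ℤ) - ((y.2 : ℕ) : ℤ) := by
        intro hd
        have h1 : |((x.2 : ℕ) : ℤ) - ((y.2 : ℕ) : ℤ)| < (x.1 : ℤ) := by
          rw [abs_lt]
          rw [← h] at hyr
          constructor <;> omega
        have := Int.eq_zero_of_abs_lt_dvd hd h1
        apply h2
        omega
      have h3 := lb2_same_le n' X x.1 hxp x.2 y.2 hr
      rw [← h]
      refine h3.trans ?_
      have h4 : (1 : ℝ) ≤ (X : ℝ) / x.1 := by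
        rw [le_div_iff₀ hxpos, one_mul]
        exact_mod_cast hxb.trans hb
      have h5 : (X : ℝ) ^ n' * ((X : ℝ) / x.1 + 1) ^ 2 ≤ 4 * (X : ℝ) ^ (n' + 1 + 1) * (1 / (x.1 : ℝ) ^ 2) := by
        calc (X : ℝ) ^ n' * ((X : ℝ) / x.1 + 1) ^ 2 ≤ (X : ℝ) ^ n' * (2 * ((X : ℝ) / x.1)) ^ 2 := by
              gcongr
              linarith
          _ = 4 * (X : ℝ) ^ (n' + 1 + 1) * (1 / (x.1 : ℝ) ^ 2) := by
              field_simp
              ring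
      have h6 : 0 ≤ (X : ℝ) ^ (n' + 1 + 1) * ((1 / x.1) * (1 / x.1)) := by positivity
      have h7 : 0 ≤ (X : ℝ) ^ (n' + 1) := by positivity
      linarith
  · have hxy : x ≠ y := fun e => h (by rw [e])
    rw [if_neg hxy, if_neg h]
    have hco : IsCoprime ((x.1 : ℕ) : ℤ) ((y.1 : ℕ) : ℤ) :=
      Nat.isCoprime_iff_coprime.2 ((Nat.coprime_primes hxp hyp).2 h)
    have h3 := lb2_two_le n X x.1 y.1 (x.1 * y.1) (Nat.mul_pos hxp.pos hyp.pos) (fun z hz hz' => by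
      push_cast
      exact hco.mul_dvd hz hz') x.2 y.2
    have h4 : (X : ℝ) ^ n * ((X : ℝ) / ((x.1 * y.1 : ℕ) : ℝ) + 1) =
        (X : ℝ) ^ (n + 1) * ((1 / x.1) * (1 / y.1)) + (X : ℝ) ^ n := by
      push_cast
      rw [pow_succ]
      field_simp
    linarith

theorem sieve2 (k : ℕ) (hk : 1 ≤ k) : ∃ C : ℝ, 0 ≤ C ∧ ∀ g : ℤ[X], g.Monic → g.natDegree = k →
    ∀ E : ℝ, 0 ≤ E → ∀ X : ℕ, 1 ≤ X →
    ((freeU g k X E ((X : ℝ) ^ ((1 : ℝ) / 4))).card : ℝ) *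
      max 1 (Ssum (rhoR g) E ((X : ℝ) ^ ((1 : ℝ) / 4))) ≤ C * (X : ℝ) ^ k := by
  obtain ⟨n, rfl⟩ : ∃ n, k = n + 1 := ⟨k - 1, by omega⟩
  set C2 : ℝ := ∑' m : ℕ, (1 : ℝ) / (m : ℝ) ^ 2 with hC2
  have hC20 : 0 ≤ C2 := tsum_nonneg fun m => by positivity
  refine ⟨5 + 4 * ((n + 1 : ℕ) : ℝ) ^ 2 * C2, by positivity, ?_⟩
  intro g hg hdeg E hE X hX
  have hXR : (1 : ℝ) ≤ X := by exact_mod_cast hX
  have hX0 : (0 : ℝ) < X := by linarith
  set b : ℝ := (X : ℝ) ^ ((1 : ℝ) / 4) with hb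
  have hb1 : 1 ≤ b := Real.one_le_rpow hXR (by norm_num)
  have hb4 : b ^ 4 = X := by
    rw [hb, ← Real.rpow_natCast, ← Real.rpow_mul hX0.le]
    norm_num
  set fb : ℝ := (⌊b⌋₊ : ℝ) with hfb
  have hfb0 : 0 ≤ fb := Nat.cast_nonneg _
  have hfbb : fb ≤ b := Nat.floor_le (by linarith)
  have hbX : ⌊b⌋₊ ≤ X := by
    have h1 : b ≤ X := by
      rw [← hb4]
      calc b = b ^ 1 := (pow_one b).symm
        _ ≤ b ^ 4 := pow_le_pow_right₀ hb1 (by norm_num)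
    have h2 : fb ≤ X := hfbb.trans h1
    rw [hfb] at h2
    exact_mod_cast h2
  set S : ℝ := Ssum (rhoR g) E b with hS
  set P := lb2P g E b with hP
  have hS0 : 0 ≤ S := lb2_S_nonneg g E b
  have hSe : S = ∑ x ∈ P, (1 : ℝ) / x.1 := lb2_S g E b
  have hSb : S ≤ fb := lb2_S_le g E b
  have hPc : (P.card : ℝ) ≤ fb ^ 2 := by
    have := lb2_P_card g E b
    rw [hfb]
    exact_mod_cast this
  have hPX : (P.card : ℝ) ^ 2 ≤ X := by
    calc (P.card : ℝ) ^ 2 ≤ (fb ^ 2) ^ 2 := by gcongr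
      _ = fb ^ 4 := by ring
      _ ≤ b ^ 4 := by gcongr
      _ = X := hb4
  have hSPX : S * P.card ≤ X := by
    calc S * P.card ≤ b * b ^ 2 := by
          refine mul_le_mul (hSb.trans hfbb) (hPc.trans (by gcongr)) (Nat.cast_nonneg _) (by linarith)
      _ = b ^ 3 := by ring
      _ ≤ b ^ 4 := pow_le_pow_right₀ hb1 (by norm_num)
      _ = X := hb4
  -- the counting function
  let Z : (Fin (n + 1) → ℤ) → ℝ := fun u => ∑ x ∈ P, lb2ind ((x.1 : ℤ) ∣ lb2ev u x.2)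
  have hZ1 : (X : ℝ) ^ (n + 1) * S - (X : ℝ) ^ n * P.card ≤ ∑ u ∈ boxZ (n + 1) X, Z u := by
    rw [Finset.sum_comm]
    have h1 : ∀ x ∈ P, (X : ℝ) ^ n * ((X : ℝ) / x.1 - 1) ≤
        ∑ u ∈ boxZ (n + 1) X, lb2ind ((x.1 : ℤ) ∣ lb2ev u x.2) := fun x hx =>
      lb2_one_ge n X x.1 (lb2_mem hx).1.pos x.2
    refine le_trans (le_of_eq ?_) (Finset.sum_le_sum h1)
    rw [hSe, Finset.mul_sum]
    have h2 : (X : ℝ) ^ n * (P.card : ℝ) = ∑ x ∈ P, (X : ℝ) ^ n := by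
      rw [Finset.sum_const, nsmul_eq_mul]; ring
    rw [h2, ← Finset.sum_sub_distrib]
    refine Finset.sum_congr rfl fun x _ => ?_
    rw [pow_succ]
    ring
  have hZ2 : ∑ u ∈ boxZ (n + 1) X, Z u ^ 2 ≤ (X : ℝ) ^ (n + 1) * S ^ 2 + (X : ℝ) ^ n * (P.card : ℝ) ^ 2 +
      (X : ℝ) ^ (n + 1) * S + 4 * (X : ℝ) ^ (n + 1) * (((n + 1 : ℕ) : ℝ) ^ 2 * C2) := by
    have h1 : ∀ u, Z u ^ 2 = ∑ x ∈ P, ∑ y ∈ P,
        lb2ind ((x.1 : ℤ) ∣ lb2ev u x.2 ∧ (y.1 : ℤ) ∣ lb2ev u y.2) := by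
      intro u
      show (∑ x ∈ P, lb2ind ((x.1 : ℤ) ∣ lb2ev u x.2)) ^ 2 = _
      rw [sq, Finset.sum_mul_sum]
      refine Finset.sum_congr rfl fun x _ => Finset.sum_congr rfl fun y _ => ?_
      unfold lb2ind
      by_cases h1 : (x.1 : ℤ) ∣ lb2ev u x.2 <;> by_cases h2 : (y.1 : ℤ) ∣ lb2ev u y.2 <;>
        simp [h1, h2]
    simp only [h1]
    rw [Finset.sum_comm]
    have h2 : ∀ x ∈ P, ∑ u ∈ boxZ (n + 1) X, ∑ y ∈ P,
        lb2ind ((x.1 : ℤ) ∣ lb2ev u x.2 ∧ (y.1 : ℤ) ∣ lb2ev u y.2) ≤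
        ∑ y ∈ P, ((X : ℝ) ^ (n + 1) * ((1 / x.1) * (1 / y.1)) + (X : ℝ) ^ n +
      (if x = y then (X : ℝ) ^ (n + 1) * (1 / x.1) else 0) +
      (if x.1 = y.1 then 4 * (X : ℝ) ^ (n + 1) * (1 / (x.1 : ℝ) ^ 2) else 0)) := by
      intro x hx
      rw [Finset.sum_comm]
      exact Finset.sum_le_sum fun y hy => lb2_pair hg hdeg hbX hx hy
    refine (Finset.sum_le_sum h2).trans ?_
    simp only [Finset.sum_add_distrib]
    have e1 : ∑ x ∈ P, ∑ y ∈ P, (X : ℝ) ^ (n + 1) * ((1 / (x.1 : ℝ)) * (1 / y.1)) =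
        (X : ℝ) ^ (n + 1) * S ^ 2 := by
      rw [hSe, sq, Finset.sum_mul_sum, Finset.mul_sum]
      refine Finset.sum_congr rfl fun x _ => ?_
      rw [Finset.mul_sum]
    have e2 : ∑ x ∈ P, ∑ y ∈ P, (X : ℝ) ^ n = (X : ℝ) ^ n * (P.card : ℝ) ^ 2 := by
      simp only [Finset.sum_const, nsmul_eq_mul]
      ring
    have e3 : ∑ x ∈ P, ∑ y ∈ P, (if x = y then (X : ℝ) ^ (n + 1) * (1 / (x.1 : ℝ)) else 0) =
        (X : ℝ) ^ (n + 1) * S := by
      rw [hSe, Finset.mul_sum]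
      refine Finset.sum_congr rfl fun x hx => ?_
      rw [Finset.sum_ite_eq, if_pos hx]
    have e4 : ∑ x ∈ P, ∑ y ∈ P, (if x.1 = y.1 then 4 * (X : ℝ) ^ (n + 1) * (1 / (x.1 : ℝ) ^ 2) else 0) ≤
        4 * (X : ℝ) ^ (n + 1) * (((n + 1 : ℕ) : ℝ) ^ 2 * C2) := by
      have h3 : ∀ x ∈ P, ∑ y ∈ P, (if x.1 = y.1 then 4 * (X : ℝ) ^ (n + 1) * (1 / (x.1 : ℝ) ^ 2) else 0) ≤
          4 * (X : ℝ) ^ (n + 1) * ((n + 1 : ℕ) : ℝ) * (1 / (x.1 : ℝ) ^ 2) := by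
        intro x _
        have h4 := lb2_same_count hg hdeg E b x.1
        rw [← hP] at h4
        have h5 : ∑ y ∈ P, (if x.1 = y.1 then 4 * (X : ℝ) ^ (n + 1) * (1 / (x.1 : ℝ) ^ 2) else 0) =
            4 * (X : ℝ) ^ (n + 1) * (1 / (x.1 : ℝ) ^ 2) * ∑ y ∈ P, (if x.1 = y.1 then (1 : ℝ) else 0) := by
          rw [Finset.mul_sum]
          refine Finset.sum_congr rfl fun y _ => ?_
          split_ifs <;> simp
        rw [h5]
        calc 4 * (X : ℝ) ^ (n + 1) * (1 / (x.1 : ℝ) ^ 2) * ∑ y ∈ P, (if x.1 = y.1 then (1 : ℝ) else 0)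
            ≤ 4 * (X : ℝ) ^ (n + 1) * (1 / (x.1 : ℝ) ^ 2) * ((n + 1 : ℕ) : ℝ) :=
              mul_le_mul_of_nonneg_left h4 (by positivity)
          _ = _ := by ring
      refine (Finset.sum_le_sum h3).trans ?_
      rw [← Finset.mul_sum]
      have h6 := lb2_sum_sq hg hdeg E b
      rw [← hP, ← hC2] at h6
      calc 4 * (X : ℝ) ^ (n + 1) * ((n + 1 : ℕ) : ℝ) * ∑ x ∈ P, 1 / (x.1 : ℝ) ^ 2
          ≤ 4 * (X : ℝ) ^ (n + 1) * ((n + 1 : ℕ) : ℝ) * (((n + 1 : ℕ) : ℝ) * C2) :=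
            mul_le_mul_of_nonneg_left h6 (by positivity)
        _ = _ := by ring
    rw [e1, e2, e3]
    linarith
  -- variance
  have hvar : ((freeU g (n + 1) X E b).card : ℝ) * S ^ 2 ≤
      (X : ℝ) ^ (n + 1) * (S + 3 + 4 * (((n + 1 : ℕ) : ℝ) ^ 2 * C2)) := by
    have h1 : ((freeU g (n + 1) X E b).card : ℝ) * S ^ 2 ≤ ∑ u ∈ boxZ (n + 1) X, (Z u - S) ^ 2 := by
      have h2 : ∀ u ∈ freeU g (n + 1) X E b, S ^ 2 ≤ (Z u - S) ^ 2 := by
        intro u hu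
        unfold freeU at hu
        rw [Finset.mem_filter] at hu
        have h3 : Z u = 0 := by
          show ∑ x ∈ P, lb2ind ((x.1 : ℤ) ∣ lb2ev u x.2) = 0
          refine Finset.sum_eq_zero fun x hx => ?_
          have h4 := hx
          rw [hP] at h4
          unfold lb2P at h4
          rw [Finset.mem_sigma, Finset.mem_filter] at h4
          have h5 := hu.2 x.1 h4.1 x.2 h4.2.1 h4.2.2
          unfold lb2ind lb2ev
          rw [if_neg h5]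
        rw [h3]
        apply le_of_eq
        ring
      rw [← nsmul_eq_mul]
      refine (Finset.card_nsmul_le_sum _ _ _ h2).trans ?_
      refine Finset.sum_le_sum_of_subset_of_nonneg ?_ (fun u _ _ => sq_nonneg _)
      unfold freeU
      exact Finset.filter_subset _ _
    refine h1.trans ?_
    have h2 : ∑ u ∈ boxZ (n + 1) X, (Z u - S) ^ 2 = ∑ u ∈ boxZ (n + 1) X, Z u ^ 2 -
        2 * S * ∑ u ∈ boxZ (n + 1) X, Z u + S ^ 2 * (X : ℝ) ^ (n + 1) := by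
      rw [← lb2_box_card (n + 1) X, Finset.mul_sum, ← Finset.sum_sub_distrib, mul_comm (S ^ 2),
        ← nsmul_eq_mul, ← Finset.sum_const, ← Finset.sum_add_distrib]
      refine Finset.sum_congr rfl fun u _ => ?_
      ring
    rw [h2]
    have hXn : (0 : ℝ) ≤ (X : ℝ) ^ n := by positivity
    have h3 : (X : ℝ) ^ n * (P.card : ℝ) ^ 2 ≤ (X : ℝ) ^ (n + 1) := by
      rw [pow_succ]
      exact mul_le_mul_of_nonneg_left hPX hXn
    have h4 : (X : ℝ) ^ n * (S * P.card) ≤ (X : ℝ) ^ (n + 1) := by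
      rw [pow_succ]
      exact mul_le_mul_of_nonneg_left hSPX hXn
    have h5 : 2 * S * ((X : ℝ) ^ (n + 1) * S - (X : ℝ) ^ n * P.card) ≤
        2 * S * ∑ u ∈ boxZ (n + 1) X, Z u := mul_le_mul_of_nonneg_left hZ1 (by linarith)
    nlinarith
  -- conclusion
  have hfree : ((freeU g (n + 1) X E b).card : ℝ) ≤ (X : ℝ) ^ (n + 1) := by
    rw [← lb2_box_card (n + 1) X]
    unfold freeU
    exact_mod_cast Finset.card_filter_le _ _
  have hXk : (0 : ℝ) ≤ (X : ℝ) ^ (n + 1) := by positivity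
  have hextra : 0 ≤ 4 * ((n + 1 : ℕ) : ℝ) ^ 2 * C2 := by positivity
  rcases le_total S 1 with h | h
  · rw [max_eq_left h, mul_one]
    nlinarith
  · rw [max_eq_right h]
    have hS1 : 0 < S := by linarith
    have h6 : ((freeU g (n + 1) X E b).card : ℝ) * S * S ≤
        ((5 + 4 * ((n + 1 : ℕ) : ℝ) ^ 2 * C2) * (X : ℝ) ^ (n + 1)) * S := by
      calc ((freeU g (n + 1) X E b).card : ℝ) * S * S = ((freeU g (n + 1) X E b).card : ℝ) * S ^ 2 := by ring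
        _ ≤ (X : ℝ) ^ (n + 1) * (S + 3 + 4 * (((n + 1 : ℕ) : ℝ) ^ 2 * C2)) := hvar
        _ ≤ (X : ℝ) ^ (n + 1) * ((5 + 4 * ((n + 1 : ℕ) : ℝ) ^ 2 * C2) * S) := by
            refine mul_le_mul_of_nonneg_left ?_ hXk
            nlinarith
        _ = _ := by ring
    exact le_of_mul_le_mul_right h6 hS1

end EK75
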