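import Pool.Agent.H75.EK.Vin

/-! Module TN: major arc data at scale `N`. -/

open Polynomial Finset
open scoped Real BigOperators

namespace EK75

/-- there is an approximation of height `T` at scale `N` -/
def tn_A (f : ℝ[X]) (N T : ℕ) : Prop :=
  1 ≤ T ∧ ∃ q : ℕ, 1 ≤ q ∧ q ≤ T ∧ ∀ j ∈ Icc 1 f.natDegree,
    ∃ m : ℤ, |(q : ℝ) * f.coeff j - m| * (N : ℝ) ^ j ≤ T

theorem tn_A_exists (f : ℝ[X]) (N : ℕ) (hN : 1 ≤ N) : ∃ T, tn_A f N T := by
  have hN' : (1 : ℝ) ≤ N := by exact_mod_cast hN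
  refine ⟨N ^ f.natDegree, Nat.one_le_pow _ _ hN, 1, le_rfl, Nat.one_le_pow _ _ hN, ?_⟩
  intro j hj
  rw [Finset.mem_Icc] at hj
  refine ⟨round ((1 : ℕ) * f.coeff j : ℝ), ?_⟩
  have h1 : |((1 : ℕ) : ℝ) * f.coeff j - round (((1 : ℕ) : ℝ) * f.coeff j)| ≤ 1 :=
    (abs_sub_round _).trans (by norm_num)
  have h2 : (N : ℝ) ^ j ≤ (N : ℝ) ^ f.natDegree := pow_le_pow_right₀ hN' hj.2
  push_cast at h1 ⊢
  calc _ ≤ 1 * (N : ℝ) ^ j := mul_le_mul_of_nonneg_right h1 (by positivity)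
    _ ≤ _ := by rw [one_mul]; exact h2

theorem majD_exists (f : ℝ[X]) (N : ℕ) (hN : 1 ≤ N) :
    ∃ (T q : ℕ) (a : ℕ → ℤ), 1 ≤ T ∧ MajD f N T q a ∧ NonApp f N T := by
  classical
  have hex := tn_A_exists f N hN
  obtain ⟨hT1, q, hq1, hqT, hq⟩ := Nat.find_spec hex
  have hmin : ∀ T', T' < Nat.find hex → ¬ tn_A f N T' := fun T' h => Nat.find_min hex h
  generalize Nat.find hex = T at hT1 hqT hq hmin
  choose! a ha using hq
  refine ⟨T, q, a, hT1, ⟨hq1, hqT, ha, ?_, ?_⟩, ?_⟩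
  · intro p hp hpq
    by_contra hcon
    push Not at hcon
    obtain ⟨r, rfl⟩ := hpq
    have hp2 := hp.two_le
    have hr1 : 1 ≤ r := by
      rcases Nat.eq_zero_or_pos r with h | h
      · subst h; omega
      · exact h
    have h2r : 2 * r ≤ p * r := Nat.mul_le_mul_right _ hp2
    refine hmin (T - 1) (by omega) ⟨by omega, r, hr1, by omega, ?_⟩
    intro j hj
    obtain ⟨b, hb⟩ := hcon j hj
    refine ⟨b, ?_⟩
    have h1 := ha j hj
    rw [hb] at h1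
    have h2 : ((p * r : ℕ) : ℝ) * f.coeff j - ((p * b : ℤ) : ℝ) = p * ((r : ℝ) * f.coeff j - b) := by
      push_cast; ring
    rw [h2, abs_mul, Nat.abs_cast] at h1
    have h3 : (2 : ℝ) ≤ p := by exact_mod_cast hp2
    have h4 : 0 ≤ |(r : ℝ) * f.coeff j - b| * (N : ℝ) ^ j := by positivity
    have h5 : (2 : ℝ) ≤ T := by
      have : 2 ≤ T := by omega
      exact_mod_cast this
    rw [Nat.cast_sub hT1]
    push_cast
    nlinarith
  · by_contra hcon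
    push Not at hcon
    obtain ⟨h1, h2⟩ := hcon
    refine hmin (T - 1) (by omega) ⟨by omega, q, hq1, by omega, ?_⟩
    intro j hj
    refine ⟨a j, ?_⟩
    rw [Nat.cast_sub hT1]
    exact (h2 j hj).le.trans (by simp)
  · intro q' hq1' hqT'
    by_contra hcon
    push Not at hcon
    refine hmin (T - 1) (by omega) ⟨by omega, q', hq1', by omega, ?_⟩
    intro j hj
    refine ⟨round ((q' : ℝ) * f.coeff j), ?_⟩
    rw [Nat.cast_sub hT1]
    exact (hcon j hj).trans (by simp)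

theorem majD_tendsto (f : ℝ[X]) (hf : ∃ j, 1 ≤ j ∧ Irrational (f.coeff j)) :
    ∀ T0 : ℕ, ∃ N0 : ℕ, ∀ N, N0 ≤ N → ∀ (T q : ℕ) (a : ℕ → ℤ), MajD f N T q a → T0 ≤ T := by
  obtain ⟨j, hj1, hj⟩ := hf
  have hjk : j ∈ Icc 1 f.natDegree := by
    rw [Finset.mem_Icc]
    refine ⟨hj1, le_natDegree_of_ne_zero ?_⟩
    exact hj.ne_zero
  intro T0
  have hpos : ∀ q : ℕ, 1 ≤ q → 0 < |(q : ℝ) * f.coeff j - round ((q : ℝ) * f.coeff j)| := by
    intro q hq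
    rw [abs_pos, sub_ne_zero]
    have h1 : Irrational ((q : ℝ) * f.coeff j) := hj.natCast_mul (by omega)
    exact h1.ne_int _
  have hδ : ∃ δ : ℝ, 0 < δ ∧ ∀ q ∈ Icc 1 T0,
      δ ≤ |(q : ℝ) * f.coeff j - round ((q : ℝ) * f.coeff j)| := by
    rcases (Icc 1 T0).eq_empty_or_nonempty with he | hne
    · exact ⟨1, one_pos, by rw [he]; simp⟩
    · refine ⟨(Icc 1 T0).inf' hne
        (fun q : ℕ => |(q : ℝ) * f.coeff j - round ((q : ℝ) * f.coeff j)|), ?_, ?_⟩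
      · rw [Finset.lt_inf'_iff]
        intro q hq
        exact hpos q (Finset.mem_Icc.1 hq).1
      · intro q hq
        exact Finset.inf'_le _ hq
  obtain ⟨δ, hδ0, hδ⟩ := hδ
  refine ⟨⌊(T0 : ℝ) / δ⌋₊ + 1, ?_⟩
  intro N hN T q a h
  by_contra hT
  push Not at hT
  have h1 := h.app j hjk
  have h2 := hδ q (Finset.mem_Icc.2 ⟨h.q1, h.qT.trans hT.le⟩)
  have h3 : δ ≤ |(q : ℝ) * f.coeff j - a j| := h2.trans (round_le _ _)
  have hN' : (T0 : ℝ) / δ < N := by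
    refine (Nat.lt_floor_add_one _).trans_le ?_
    exact_mod_cast hN
  have hN1 : (1 : ℝ) ≤ N := by
    have : 1 ≤ N := by omega
    exact_mod_cast this
  have h4 : (N : ℝ) ≤ (N : ℝ) ^ j := by
    calc (N : ℝ) = (N : ℝ) ^ 1 := (pow_one _).symm
      _ ≤ _ := pow_le_pow_right₀ hN1 hj1
  have h5 : (T0 : ℝ) < N * δ := by rwa [div_lt_iff₀ hδ0] at hN'
  have h6 : δ * (N : ℝ) ≤ |(q : ℝ) * f.coeff j - a j| * (N : ℝ) ^ j :=
    mul_le_mul h3 h4 (by linarith) (abs_nonneg _)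
  have h7 : (T : ℝ) < T0 := by exact_mod_cast hT
  linarith

theorem nonApp_mono (f : ℝ[X]) (N T T' : ℕ) (h : NonApp f N T) (hT : T' ≤ T) : NonApp f N T' := by
  intro q hq1 hqT
  obtain ⟨j, hj, h1⟩ := h q hq1 (lt_of_lt_of_le hqT hT)
  refine ⟨j, hj, lt_of_le_of_lt ?_ h1⟩
  have : (T' : ℝ) ≤ T := by exact_mod_cast hT
  linarith

/-- consequences of the definitions -/
theorem majD_tt (f : ℝ[X]) (N T q : ℕ) (a : ℕ → ℤ) (h : MajD f N T q a) (n : ℕ) (hn : n ∈ Icc 1 N) :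
    |(tt f q a n : ℝ)| ≤ (1 + |f.coeff 0| + f.natDegree) * T := by
  rw [Finset.mem_Icc] at hn
  have hF : (((FF f.natDegree a).eval (n : ℤ) : ℤ) : ℝ) = ∑ j ∈ Icc 1 f.natDegree, (a j : ℝ) * (n : ℝ) ^ j := by
    simp only [FF, eval_finsetSum, eval_mul, eval_C, eval_pow, eval_X]
    push_cast
    rfl
  have hf : f.eval (n : ℝ) = f.coeff 0 + ∑ j ∈ Icc 1 f.natDegree, f.coeff j * (n : ℝ) ^ j := by
    rw [eval_eq_sum_range, Finset.range_eq_Ico, Finset.sum_eq_sum_Ico_succ_bot (Nat.succ_pos _)]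
    simp only [pow_zero, mul_one]
    rfl
  have hfr : f.eval (n : ℝ) = ⌊f.eval (n : ℝ)⌋ + Int.fract (f.eval (n : ℝ)) :=
    (Int.floor_add_fract _).symm
  have h1 : (tt f q a n : ℝ) = q * Int.fract (f.eval (n : ℝ)) - (q * f.coeff 0 +
      ∑ j ∈ Icc 1 f.natDegree, ((q : ℝ) * f.coeff j - a j) * (n : ℝ) ^ j) := by
    have h2 : ∑ j ∈ Icc 1 f.natDegree, ((q : ℝ) * f.coeff j - a j) * (n : ℝ) ^ j =
        q * ∑ j ∈ Icc 1 f.natDegree, f.coeff j * (n : ℝ) ^ j -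
          ∑ j ∈ Icc 1 f.natDegree, (a j : ℝ) * (n : ℝ) ^ j := by
      rw [Finset.mul_sum, ← Finset.sum_sub_distrib]
      exact Finset.sum_congr rfl fun j _ => by ring
    unfold tt
    push_cast
    rw [hF, h2]
    have h3 : (⌊f.eval (n : ℝ)⌋ : ℝ) = f.eval (n : ℝ) - Int.fract (f.eval (n : ℝ)) := by linarith
    rw [h3, hf]
    ring
  have hqT : (q : ℝ) ≤ T := by exact_mod_cast h.qT
  have hn0 : (0 : ℝ) ≤ n := Nat.cast_nonneg _
  have hnN : (n : ℝ) ≤ N := by exact_mod_cast hn.2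
  have h4 : |∑ j ∈ Icc 1 f.natDegree, ((q : ℝ) * f.coeff j - a j) * (n : ℝ) ^ j| ≤
      f.natDegree * T := by
    refine (Finset.abs_sum_le_sum_abs _ _).trans ?_
    calc _ ≤ ∑ j ∈ Icc 1 f.natDegree, (T : ℝ) := by
          refine Finset.sum_le_sum fun j hj => ?_
          rw [abs_mul, abs_of_nonneg (pow_nonneg hn0 j)]
          refine le_trans ?_ (h.app j hj)
          exact mul_le_mul_of_nonneg_left (pow_le_pow_left₀ hn0 hnN _) (abs_nonneg _)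
      _ = f.natDegree * T := by simp
  have h5 : |(q : ℝ) * f.coeff 0| ≤ T * |f.coeff 0| := by
    rw [abs_mul, Nat.abs_cast]
    exact mul_le_mul_of_nonneg_right hqT (abs_nonneg _)
  have h6 : |(q : ℝ) * Int.fract (f.eval (n : ℝ))| ≤ T := by
    rw [abs_mul, Nat.abs_cast, abs_of_nonneg (Int.fract_nonneg _)]
    calc (q : ℝ) * Int.fract (f.eval (n : ℝ)) ≤ q * 1 :=
          mul_le_mul_of_nonneg_left (Int.fract_lt_one _).le (Nat.cast_nonneg _)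
      _ ≤ T := by rw [mul_one]; exact hqT
  rw [h1]
  refine (abs_sub _ _).trans ?_
  refine (add_le_add h6 ((abs_add_le _ _).trans (add_le_add h5 h4))).trans ?_
  exact le_of_eq (by ring)

theorem majD_coeff (f : ℝ[X]) (N T q : ℕ) (a : ℕ → ℤ) (h : MajD f N T q a) (hTN : T ≤ N) (j : ℕ)
    (hj : j ∈ Icc 1 f.natDegree) : |((a j : ℤ) : ℝ)| ≤ (|f.coeff j| + 1) * q := by
  have h1 := h.app j hj
  rw [Finset.mem_Icc] at hj
  have hq1 : (1 : ℝ) ≤ q := by exact_mod_cast h.q1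
  have hqT : (q : ℝ) ≤ T := by exact_mod_cast h.qT
  have hTN' : (T : ℝ) ≤ N := by exact_mod_cast hTN
  have hN1 : (1 : ℝ) ≤ N := by linarith
  have h4 : (N : ℝ) ≤ (N : ℝ) ^ j := by
    calc (N : ℝ) = (N : ℝ) ^ 1 := (pow_one _).symm
      _ ≤ _ := pow_le_pow_right₀ hN1 hj.1
  have h5 : |(q : ℝ) * f.coeff j - a j| ≤ 1 := by
    by_contra hcon
    push Not at hcon
    have h6 : 1 * (N : ℝ) ^ j < |(q : ℝ) * f.coeff j - a j| * (N : ℝ) ^ j :=
      mul_lt_mul_of_pos_right hcon (by linarith)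
    linarith
  have h6 : |((a j : ℤ) : ℝ)| ≤ |(q : ℝ) * f.coeff j| + |(q : ℝ) * f.coeff j - a j| := by
    have := abs_sub_abs_le_abs_sub (a j : ℝ) ((q : ℝ) * f.coeff j)
    rw [abs_sub_comm] at this
    linarith
  rw [abs_mul, Nat.abs_cast] at h6
  nlinarith [abs_nonneg (f.coeff j)]

/-- lower bound for the leading coefficient, when `T^2 ≤ N` and `N` is large -/
theorem majD_lead (f : ℝ[X]) (hk : 1 ≤ f.natDegree) : ∃ N0 : ℕ, ∀ N, N0 ≤ N → ∀ (T q : ℕ)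
    (a : ℕ → ℤ), MajD f N T q a → T ^ 2 ≤ N →
    |f.leadingCoeff| / 2 * q ≤ |((a f.natDegree : ℤ) : ℝ)| := by
  have hf : f ≠ 0 := by
    rintro rfl
    simp at hk
  have hlc : 0 < |f.leadingCoeff| := abs_pos.2 (leadingCoeff_ne_zero.2 hf)
  refine ⟨⌈4 / |f.leadingCoeff| ^ 2⌉₊, ?_⟩
  intro N hN T q a h hTN
  have h1 := h.app f.natDegree (Finset.mem_Icc.2 ⟨hk, le_rfl⟩)
  have hq1 : (1 : ℝ) ≤ q := by exact_mod_cast h.q1
  have hqT : (q : ℝ) ≤ T := by exact_mod_cast h.qT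
  have hTN' : (T : ℝ) ^ 2 ≤ N := by exact_mod_cast hTN
  have hN' : 4 / |f.leadingCoeff| ^ 2 ≤ (N : ℝ) := (Nat.le_ceil _).trans (by exact_mod_cast hN)
  have hN1 : (1 : ℝ) ≤ N := by nlinarith
  have h4 : (N : ℝ) ≤ (N : ℝ) ^ f.natDegree := by
    calc (N : ℝ) = (N : ℝ) ^ 1 := (pow_one _).symm
      _ ≤ _ := pow_le_pow_right₀ hN1 hk
  change |(q : ℝ) * f.leadingCoeff - a f.natDegree| * (N : ℝ) ^ f.natDegree ≤ T at h1
  have h5 : |(q : ℝ) * f.leadingCoeff - a f.natDegree| ≤ |f.leadingCoeff| / 2 := by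
    by_contra hcon
    push Not at hcon
    have h6 : |f.leadingCoeff| / 2 * (N : ℝ) < |(q : ℝ) * f.leadingCoeff - a f.natDegree| *
        (N : ℝ) ^ f.natDegree :=
      lt_of_lt_of_le (mul_lt_mul_of_pos_right hcon (by linarith))
        (mul_le_mul_of_nonneg_left h4 (abs_nonneg _))
    have h7 : |f.leadingCoeff| / 2 * (N : ℝ) < T := lt_of_lt_of_le h6 h1
    rw [div_le_iff₀ (by positivity)] at hN'
    have h8 : (|f.leadingCoeff| / 2 * (N : ℝ)) ^ 2 < (T : ℝ) ^ 2 :=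
      pow_lt_pow_left₀ h7 (by positivity) (by norm_num)
    have h9 : (|f.leadingCoeff| / 2 * (N : ℝ)) ^ 2 = (N * |f.leadingCoeff| ^ 2) * N / 4 := by ring
    rw [h9] at h8
    nlinarith
  have h6 : |(q : ℝ) * f.leadingCoeff| ≤ |(q : ℝ) * f.leadingCoeff - a f.natDegree| +
      |((a f.natDegree : ℤ) : ℝ)| := by
    have := abs_sub_abs_le_abs_sub ((q : ℝ) * f.leadingCoeff) (a f.natDegree : ℝ)
    linarith
  rw [abs_mul, Nat.abs_cast] at h6
  nlinarith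

end EK75
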