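import Pool.Agent.H75.EK.Weyl
import Pool.Agent.H75.EK.Ed

/-! Module W2: divisibility of `⌊f(n)⌋` by small `d`. -/

open Polynomial Finset
open scoped Real BigOperators

namespace EK75

theorem w2_ee_add (x y : ℝ) : ee (x + y) = ee x * ee y := by
  unfold ee
  rw [← Complex.exp_add]
  congr 1
  push_cast
  ring

theorem w2_norm_ee (x : ℝ) : ‖ee x‖ = 1 := by
  unfold ee
  have : (2 * (π : ℂ) * (x : ℂ) * Complex.I) = ((2 * π * x : ℝ) : ℂ) * Complex.I := by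
    push_cast; ring
  rw [this, Complex.norm_exp_ofReal_mul_I]

theorem w2_nint_le (x : ℝ) (m : ℤ) : nint x ≤ |x - m| := round_le x m

theorem w2_nint_mul (d : ℕ) (x : ℝ) : nint (d * x) ≤ d * nint x := by
  have h := w2_nint_le (d * x) (d * round x)
  refine h.trans ?_
  push_cast
  rw [← mul_sub, abs_mul, Nat.abs_cast]
  exact le_rfl

theorem w2_dvd_iff (d : ℕ) (hd : 1 ≤ d) (y : ℝ) :
    (d : ℤ) ∣ ⌊y⌋ ↔ Int.fract (y / d) < 1 / d := by
  have hd0 : (0 : ℝ) < d := by exact_mod_cast hd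
  constructor
  · rintro ⟨w, hw⟩
    have h1 : y = d * w + Int.fract y := by
      have := Int.floor_add_fract y
      rw [hw] at this
      push_cast at this
      exact this.symm
    have h2 : y / d = Int.fract y / d + w := by
      field_simp
      linarith
    have h3 : Int.fract y / d < 1 / d := by
      apply div_lt_div_of_pos_right (Int.fract_lt_one y) hd0
    have h4 : 0 ≤ Int.fract y / d := div_nonneg (Int.fract_nonneg y) hd0.le
    have h5 : (1 : ℝ) / d ≤ 1 := by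
      rw [div_le_one hd0]; exact_mod_cast hd
    rw [h2, Int.fract_add_intCast, Int.fract_eq_self.mpr ⟨h4, by linarith⟩]
    exact h3
  · intro h
    have h1 := Int.floor_add_fract (y / d)
    have h2 := Int.fract_nonneg (y / d)
    have h3 : y = d * ⌊y / d⌋ + d * Int.fract (y / d) := by
      rw [← mul_add, h1]
      field_simp
    have h4 : d * Int.fract (y / d) < 1 := by
      rw [lt_div_iff₀ hd0] at h
      linarith
    have h5 : 0 ≤ d * Int.fract (y / d) := mul_nonneg hd0.le h2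
    refine ⟨⌊y / d⌋, ?_⟩
    rw [Int.floor_eq_iff]
    push_cast
    constructor <;> linarith

open Classical in
theorem div_equi (k : ℕ) (hk : 1 ≤ k) : ∃ (c : ℝ) (T0 : ℕ), 0 < c ∧ ∀ f : ℝ[X], f.natDegree = k →
    ∀ N T : ℕ, 1 ≤ N → T0 ≤ T → NonApp f N T → ∀ d : ℕ, 1 ≤ d → (d : ℝ) ≤ (T : ℝ) ^ c →
    |(((Icc 1 N).filter (fun n : ℕ => (d : ℤ) ∣ ⌊f.eval (n : ℝ)⌋)).card : ℝ) - N / d| ≤
      N * (T : ℝ) ^ (-c) := by
  obtain ⟨Cw, hCw, hW⟩ := weyl_inverse k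
  obtain ⟨Ce, hCe, hE⟩ := equidist
  set M : ℕ := 12 * Cw + 10 with hM
  set B : ℝ := 3 * Ce + 2 * (Cw : ℝ) ^ Cw + 2 with hB
  have hM0 : (M : ℝ) ≠ 0 := by positivity
  have hCC : (0 : ℝ) ≤ (Cw : ℝ) ^ Cw := by positivity
  have hB2 : 2 ≤ B := by rw [hB]; linarith
  refine ⟨1 / M, ⌈B ^ M⌉₊ + 1, by positivity, ?_⟩
  intro f hf N T hN hT hNA d hd hdT
  -- the parameter `t = T ^ (1 / M)`
  have hT0 : (0 : ℝ) ≤ T := Nat.cast_nonneg T
  have hTB : B ^ M ≤ T := by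
    have h1 : B ^ M ≤ (⌈B ^ M⌉₊ : ℝ) := Nat.le_ceil _
    have h2 : ((⌈B ^ M⌉₊ + 1 : ℕ) : ℝ) ≤ T := by exact_mod_cast hT
    push_cast at h2
    linarith
  have hTpos : (0 : ℝ) < T := lt_of_lt_of_le (by positivity) hTB
  set t : ℝ := (T : ℝ) ^ (1 / (M : ℝ)) with ht
  have htM : t ^ M = T := by
    rw [ht, ← Real.rpow_natCast, ← Real.rpow_mul hT0, one_div, inv_mul_cancel₀ hM0, Real.rpow_one]
  have htB : B ≤ t := by
    have h1 : (B ^ M) ^ (1 / (M : ℝ)) ≤ t := Real.rpow_le_rpow (by positivity) hTB (by positivity)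
    rwa [← Real.rpow_natCast, ← Real.rpow_mul (by linarith), one_div, mul_inv_cancel₀ hM0,
      Real.rpow_one] at h1
  have ht0 : 0 < t := by linarith
  have ht1 : 1 ≤ t := by linarith
  have htneg : (T : ℝ) ^ (-(1 / (M : ℝ))) = t⁻¹ := by rw [Real.rpow_neg hT0]
  rw [htneg]
  have hd0 : (0 : ℝ) < d := by exact_mod_cast hd
  -- parameters
  set H : ℕ := ⌈t ^ 4⌉₊ with hH
  have hH1 : 1 ≤ H := by
    rw [hH, Nat.one_le_ceil_iff]; positivity
  have hHlo : t ^ 4 ≤ (H : ℝ) := Nat.le_ceil _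
  have hHhi : (H : ℝ) ≤ 2 * t ^ 4 := by
    have h1 : (H : ℝ) < t ^ 4 + 1 := Nat.ceil_lt_add_one (by positivity)
    have h2 : 1 ≤ t ^ 4 := one_le_pow₀ ht1
    linarith
  set κ : ℝ := (t ^ 6)⁻¹ with hκ
  have hκ0 : 0 < κ := by positivity
  have hκ1 : κ ≤ 1 := by
    rw [hκ]; exact inv_le_one_of_one_le₀ (one_le_pow₀ ht1)
  have hCκ : ((Cw : ℝ) / κ) ^ Cw = (Cw : ℝ) ^ Cw * t ^ (6 * Cw) := by
    rw [hκ, div_inv_eq_mul, mul_pow, ← pow_mul]
  -- exponential sums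
  have hexp : ∀ h ∈ Icc 1 H, ‖∑ n ∈ Icc 1 N, ee ((h : ℝ) * (f.eval (n : ℝ) / d))‖ ≤
      κ * (Icc 1 N).card := by
    intro h hh
    rw [Finset.mem_Icc] at hh
    rw [Nat.card_Icc, Nat.add_sub_cancel]
    by_contra hcon
    push Not at hcon
    have hsum : ∀ n : ℕ, (h : ℝ) * (f.eval (n : ℝ) / d) =
        (h : ℝ) * f.coeff 0 / d + ∑ j ∈ Icc 1 k, ((h : ℝ) * f.coeff j / d) * (n : ℝ) ^ j := by
      intro n
      rw [Polynomial.eval_eq_sum_range, hf, Finset.sum_range_succ']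
      have h1 : ∑ j ∈ Icc 1 k, ((h : ℝ) * f.coeff j / d) * (n : ℝ) ^ j =
          ∑ j ∈ range k, ((h : ℝ) * f.coeff (j + 1) / d) * (n : ℝ) ^ (j + 1) := by
        rw [Finset.range_eq_Ico, Finset.sum_Ico_add' (fun j => ((h : ℝ) * f.coeff j / d) * (n : ℝ) ^ j)
          0 k 1]
        rfl
      rw [h1, pow_zero, mul_one, add_div, mul_add, Finset.sum_div, Finset.mul_sum, add_comm]
      congr 1
      · ring
      · apply Finset.sum_congr rfl
        intro j _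
        ring
    have hfac : ∑ n ∈ Icc 1 N, ee ((h : ℝ) * (f.eval (n : ℝ) / d)) =
        ee ((h : ℝ) * f.coeff 0 / d) *
          ∑ n ∈ Icc 1 N, ee (∑ j ∈ Icc 1 k, ((h : ℝ) * f.coeff j / d) * (n : ℝ) ^ j) := by
      rw [Finset.mul_sum]
      apply Finset.sum_congr rfl
      intro n _
      rw [hsum n, w2_ee_add]
    rw [hfac, norm_mul, w2_norm_ee, one_mul] at hcon
    obtain ⟨q, hq1, hq2, hq3⟩ := hW (fun j => (h : ℝ) * f.coeff j / d) N κ hN hκ0 hκ1 hcon.le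
    rw [hCκ] at hq2 hq3
    have hhH : (h : ℝ) ≤ H := by exact_mod_cast hh.2
    have hqh1 : 1 ≤ q * h := Nat.mul_pos hq1 hh.1
    have htC : 2 * (Cw : ℝ) ^ Cw + 2 ≤ t := by rw [hB] at htB; linarith
    have hqh2 : q * h < T := by
      have h1 : ((q * h : ℕ) : ℝ) < T := by
        push_cast
        calc (q : ℝ) * h ≤ ((Cw : ℝ) ^ Cw * t ^ (6 * Cw)) * (2 * t ^ 4) := by
              apply mul_le_mul hq2 (hhH.trans hHhi) (Nat.cast_nonneg _) (by positivity)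
          _ = (2 * (Cw : ℝ) ^ Cw) * t ^ (6 * Cw + 4) := by rw [pow_add]; ring
          _ < t * t ^ (6 * Cw + 4) := by
              apply mul_lt_mul_of_pos_right (by linarith) (by positivity)
          _ = t ^ (6 * Cw + 5) := by rw [← pow_succ']
          _ ≤ t ^ M := by
              apply pow_le_pow_right₀ ht1; omega
          _ = T := htM
      exact_mod_cast h1
    obtain ⟨j, hj, hj2⟩ := hNA (q * h) hqh1 hqh2
    rw [hf] at hj
    have h3 := hq3 j hj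
    have h4 : nint (((q * h : ℕ) : ℝ) * f.coeff j) ≤ d * nint ((q : ℝ) * ((h : ℝ) * f.coeff j / d)) := by
      have e1 : ((q * h : ℕ) : ℝ) * f.coeff j = d * ((q : ℝ) * ((h : ℝ) * f.coeff j / d)) := by
        push_cast
        field_simp
      rw [e1]
      exact w2_nint_mul d _
    have h5 : nint (((q * h : ℕ) : ℝ) * f.coeff j) * (N : ℝ) ^ j ≤
        d * ((Cw : ℝ) ^ Cw * t ^ (6 * Cw)) := by
      calc nint (((q * h : ℕ) : ℝ) * f.coeff j) * (N : ℝ) ^ j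
          ≤ (d * nint ((q : ℝ) * ((h : ℝ) * f.coeff j / d))) * (N : ℝ) ^ j :=
            mul_le_mul_of_nonneg_right h4 (by positivity)
        _ = d * (nint ((q : ℝ) * ((h : ℝ) * f.coeff j / d)) * (N : ℝ) ^ j) := by ring
        _ ≤ d * ((Cw : ℝ) ^ Cw * t ^ (6 * Cw)) := mul_le_mul_of_nonneg_left h3 hd0.le
    have h6 : d * ((Cw : ℝ) ^ Cw * t ^ (6 * Cw)) ≤ T - 1 := by
      have h7 : d * ((Cw : ℝ) ^ Cw * t ^ (6 * Cw)) ≤ t * ((Cw : ℝ) ^ Cw * t ^ (6 * Cw)) :=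
        mul_le_mul_of_nonneg_right hdT (by positivity)
      have h8 : t * ((Cw : ℝ) ^ Cw * t ^ (6 * Cw)) + t ^ (6 * Cw + 1) ≤ t * t ^ (6 * Cw + 1) := by
        have : t * ((Cw : ℝ) ^ Cw * t ^ (6 * Cw)) = (Cw : ℝ) ^ Cw * t ^ (6 * Cw + 1) := by
          rw [pow_succ]; ring
        rw [this, ← add_one_mul]
        apply mul_le_mul_of_nonneg_right (by linarith) (by positivity)
      have h9 : t * t ^ (6 * Cw + 1) ≤ T := by
        rw [← pow_succ', ← htM]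
        apply pow_le_pow_right₀ ht1; omega
      have h10 : 1 ≤ t ^ (6 * Cw + 1) := one_le_pow₀ ht1
      linarith
    linarith
  have hmain := hE ℕ (Icc 1 N) (fun n => f.eval (n : ℝ) / d) H κ hH1 hκ0.le hexp (1 / d)
    (by positivity) (by rw [div_le_one hd0]; exact_mod_cast hd)
  have hcard : ((Icc 1 N).card : ℝ) = N := by rw [Nat.card_Icc, Nat.add_sub_cancel]
  rw [hcard] at hmain
  have hfil : (Icc 1 N).filter (fun n : ℕ => (d : ℤ) ∣ ⌊f.eval (n : ℝ)⌋) =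
      (Icc 1 N).filter (fun n : ℕ => Int.fract (f.eval (n : ℝ) / d) < 1 / (d : ℝ)) := by
    apply Finset.filter_congr
    intro n _
    exact w2_dvd_iff d hd _
  rw [hfil]
  have e2 : (N : ℝ) / d = 1 / d * N := by ring
  rw [e2]
  refine hmain.trans ?_
  have hN0 : (0 : ℝ) ≤ N := Nat.cast_nonneg N
  rw [mul_comm (N : ℝ)]
  apply mul_le_mul_of_nonneg_right _ hN0
  have h1 : (H : ℝ) ^ (-(1 : ℝ) / 2) ≤ (t ^ 2)⁻¹ := by
    have h2 : (H : ℝ) ^ (-(1 : ℝ) / 2) ≤ (t ^ 4) ^ (-(1 : ℝ) / 2) :=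
      Real.rpow_le_rpow_of_nonpos (by positivity) hHlo (by norm_num)
    have h3 : (t ^ 4) ^ (-(1 : ℝ) / 2) = (t ^ 2)⁻¹ := by
      rw [← Real.rpow_natCast, ← Real.rpow_mul ht0.le, ← Real.rpow_natCast, ← Real.rpow_neg ht0.le]
      norm_num
    rwa [h3] at h2
  have h2 : (H : ℝ) * κ ≤ 2 * (t ^ 2)⁻¹ := by
    calc (H : ℝ) * κ ≤ (2 * t ^ 4) * (t ^ 6)⁻¹ := mul_le_mul_of_nonneg_right hHhi (by positivity)
      _ = 2 * (t ^ 2)⁻¹ := by field_simp
  have h3 : Ce * ((H : ℝ) ^ (-(1 : ℝ) / 2) + H * κ) ≤ Ce * (3 * (t ^ 2)⁻¹) :=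
    mul_le_mul_of_nonneg_left (by linarith) hCe
  refine h3.trans ?_
  have h4 : 3 * Ce ≤ t := by rw [hB] at htB; linarith
  calc Ce * (3 * (t ^ 2)⁻¹) = (3 * Ce) * (t ^ 2)⁻¹ := by ring
    _ ≤ t * (t ^ 2)⁻¹ := mul_le_mul_of_nonneg_right h4 (by positivity)
    _ = t⁻¹ := by field_simp

end EK75
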