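import Pool.Agent.H75.EK.Cond
import Pool.Agent.H75.EK.W2
import Pool.Agent.H75.EK.Tn

/-! Module MU: the small primes contribute the right amount to the mean, for most `t(n)`. -/

open Polynomial Finset
open scoped Real BigOperators

namespace EK75

/-- primes `≤ z` not dividing `q a_k` -/
noncomputable def goodP (k q : ℕ) (a : ℕ → ℤ) (z : ℝ) : Finset ℕ :=
  (prLe z).filter (fun p : ℕ => ¬ ((p : ℤ) ∣ (q : ℤ) * a k))

lemma mu_rho_le (g : ℤ[X]) (p : ℕ) (hp : p.Prime) (k : ℕ) (hk : g.natDegree ≤ k)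
    (hc : ¬ ((p : ℤ) ∣ g.coeff k)) : rho g p ≤ k := by
  classical
  have : Fact p.Prime := ⟨hp⟩
  set h : (ZMod p)[X] := g.map (Int.castRingHom (ZMod p)) with hh
  have h0 : h ≠ 0 := by
    intro h1
    have h2 : h.coeff k = 0 := by rw [h1, coeff_zero]
    rw [hh, coeff_map] at h2
    have h3 : ((g.coeff k : ℤ) : ZMod p) = 0 := h2
    exact hc ((ZMod.intCast_zmod_eq_zero_iff_dvd _ p).1 h3)
  have h1 : rho g p ≤ h.roots.toFinset.card := by
    unfold rho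
    refine Finset.card_le_card_of_injOn (fun r : ℕ => (r : ZMod p)) ?_ ?_
    · intro r hr
      have hr' := (Finset.mem_filter.1 (Finset.mem_coe.1 hr)).2
      rw [Finset.mem_coe, Multiset.mem_toFinset, mem_roots h0, IsRoot.def, hh]
      have h2 : (g.map (Int.castRingHom (ZMod p))).eval ((r : ZMod p)) =
          ((g.eval (r : ℤ) : ℤ) : ZMod p) := by
        have := Polynomial.eval_map_apply (f := Int.castRingHom (ZMod p)) (p := g) (r : ℤ)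
        simpa using this
      show (g.map (Int.castRingHom (ZMod p))).eval ((r : ZMod p)) = 0
      rw [h2]
      exact (ZMod.intCast_zmod_eq_zero_iff_dvd _ p).2 hr'
    · intro r hr s hs hrs
      have hr' := Finset.mem_range.1 (Finset.mem_filter.1 (Finset.mem_coe.1 hr)).1
      have hs' := Finset.mem_range.1 (Finset.mem_filter.1 (Finset.mem_coe.1 hs)).1
      have h2 := (ZMod.natCast_eq_natCast_iff' r s p).1 hrs
      rwa [Nat.mod_eq_of_lt hr', Nat.mod_eq_of_lt hs'] at h2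
  have h2 : h.roots.toFinset.card ≤ h.natDegree :=
    (Multiset.toFinset_card_le _).trans (card_roots' h)
  have h3 : h.natDegree ≤ g.natDegree := natDegree_map_le
  omega

lemma mu_Ft_deg (k : ℕ) (a : ℕ → ℤ) (t : ℤ) : (Ft k a t).natDegree ≤ k := by
  unfold Ft FF
  refine (natDegree_sub_le _ _).trans ?_
  rw [natDegree_C, max_eq_left (Nat.zero_le _)]
  refine natDegree_sum_le_of_forall_le _ _ fun j hj => ?_
  exact (natDegree_C_mul_X_pow_le _ _).trans (Finset.mem_Icc.1 hj).2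

lemma mu_Ft_coeff (k : ℕ) (hk : 1 ≤ k) (a : ℕ → ℤ) (t : ℤ) : (Ft k a t).coeff k = a k := by
  unfold Ft FF
  rw [coeff_sub, finsetSum_coeff, coeff_C, if_neg (by omega), sub_zero,
    Finset.sum_eq_single k]
  · rw [coeff_C_mul_X_pow, if_pos rfl]
  · intro j _ hj
    rw [coeff_C_mul_X_pow, if_neg (Ne.symm hj)]
  · intro h
    exact absurd (Finset.mem_Icc.2 ⟨hk, le_refl k⟩) h

open Classical in
/-- the mixed moments of the local densities -/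
lemma mu_moment (k : ℕ) (f : ℝ[X]) (hf : f.natDegree = k) (Cc c0 : ℝ)
    (N T q : ℕ) (a : ℕ → ℤ) (hM : MajD f N T q a)
    (hcond : ∀ S : Finset ℕ, (∀ p ∈ S, p.Prime ∧ ¬ p ∣ q) → ∀ t : ℤ,
      |(((Icc 1 N).filter (fun n => tt f q a n = t ∧
        ∀ p ∈ S, (p : ℤ) ∣ ⌊f.eval (n : ℝ)⌋)).card : ℝ) -
      (((Icc 1 N).filter (fun n => tt f q a n = t)).card : ℝ) *
        ∏ p ∈ S, (rho (Ft k a t) p : ℝ) / p| ≤ Cc * q * ∏ p ∈ S, (p : ℝ))
    (hdiv : ∀ d : ℕ, 1 ≤ d → (d : ℝ) ≤ (T : ℝ) ^ c0 →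
      |(((Icc 1 N).filter (fun n : ℕ => (d : ℤ) ∣ ⌊f.eval (n : ℝ)⌋)).card : ℝ) - N / d| ≤
        N * (T : ℝ) ^ (-c0))
    (hCc : 0 ≤ Cc) (hT : 2 * (1 + |f.coeff 0| + k) + 1 ≤ (T : ℝ))
    (S : Finset ℕ) (hS : ∀ p ∈ S, p.Prime ∧ ¬ p ∣ q)
    (hd : ((∏ p ∈ S, p : ℕ) : ℝ) ≤ (T : ℝ) ^ c0) :
    |∑ n ∈ Icc 1 N, ∏ p ∈ S, (rho (Ft k a (tt f q a n)) p : ℝ) / p - N / ∏ p ∈ S, (p : ℝ)| ≤
      Cc * (T : ℝ) ^ 3 * ∏ p ∈ S, (p : ℝ) + N * (T : ℝ) ^ (-c0) := by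
  have hq : (q : ℝ) ≤ T := by exact_mod_cast hM.qT
  have hT1 : (1 : ℝ) ≤ T := by
    have : 0 ≤ |f.coeff 0| := abs_nonneg _
    have : (0 : ℝ) ≤ k := Nat.cast_nonneg k
    linarith
  set d : ℕ := ∏ p ∈ S, p with hdd
  have hdR : (d : ℝ) = ∏ p ∈ S, (p : ℝ) := by rw [hdd]; push_cast; rfl
  have hd1 : 1 ≤ d := Finset.prod_pos fun p hp => (hS p hp).1.pos
  set Ts : Finset ℤ := (Icc 1 N).image (tt f q a) with hTs
  -- number of values
  have hcard : (Ts.card : ℝ) ≤ (T : ℝ) ^ 2 := by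
    set B : ℝ := (1 + |f.coeff 0| + k) * T with hB
    have hB0 : 0 ≤ B := by positivity
    have hsub : Ts ⊆ Finset.Icc (-⌊B⌋) ⌊B⌋ := by
      intro t ht
      rw [hTs, Finset.mem_image] at ht
      obtain ⟨n, hn, rfl⟩ := ht
      have h1 := majD_tt f N T q a hM n hn
      rw [hf, ← hB, abs_le] at h1
      rw [Finset.mem_Icc]
      refine ⟨?_, Int.le_floor.2 h1.2⟩
      have h2 : -(tt f q a n) ≤ ⌊B⌋ := by
        rw [Int.le_floor]
        push_cast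
        linarith [h1.1]
      linarith
    have h2 := Finset.card_le_card hsub
    rw [Int.card_Icc] at h2
    have h3 : (Ts.card : ℝ) ≤ 2 * B + 1 := by
      have h4 : (Ts.card : ℤ) ≤ 2 * ⌊B⌋ + 1 := by
        have : (0 : ℤ) ≤ ⌊B⌋ := Int.floor_nonneg.2 hB0
        omega
      have h5 : (Ts.card : ℝ) ≤ 2 * (⌊B⌋ : ℝ) + 1 := by exact_mod_cast h4
      linarith [Int.floor_le B]
    have h6 : (2 * (1 + |f.coeff 0| + k) + 1) * (T : ℝ) ≤ T * T :=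
      mul_le_mul_of_nonneg_right hT (by linarith)
    calc (Ts.card : ℝ) ≤ 2 * B + 1 := h3
      _ ≤ (2 * (1 + |f.coeff 0| + k) + 1) * (T : ℝ) := by rw [hB]; linarith
      _ ≤ (T : ℝ) ^ 2 := by rw [sq]; exact h6
  -- grouping
  have hA : ∑ n ∈ Icc 1 N, ∏ p ∈ S, (rho (Ft k a (tt f q a n)) p : ℝ) / p =
      ∑ t ∈ Ts, (((Icc 1 N).filter (fun n => tt f q a n = t)).card : ℝ) *
        ∏ p ∈ S, (rho (Ft k a t) p : ℝ) / p := by
    rw [← Finset.sum_fiberwise_of_maps_to (g := tt f q a) (t := Ts)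
      (fun n hn => Finset.mem_image_of_mem _ hn)]
    refine Finset.sum_congr rfl fun t _ => ?_
    rw [← nsmul_eq_mul, ← Finset.sum_const]
    refine Finset.sum_congr rfl fun n hn => ?_
    rw [(Finset.mem_filter.1 hn).2]
  have hB : (((Icc 1 N).filter (fun n : ℕ => (d : ℤ) ∣ ⌊f.eval (n : ℝ)⌋)).card : ℝ) =
      ∑ t ∈ Ts, (((Icc 1 N).filter (fun n => tt f q a n = t ∧
        ∀ p ∈ S, (p : ℤ) ∣ ⌊f.eval (n : ℝ)⌋)).card : ℝ) := by
    have h1 : ∀ m : ℤ, (d : ℤ) ∣ m ↔ ∀ p ∈ S, (p : ℤ) ∣ m := by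
      intro m
      have hdZ : (d : ℤ) = ∏ p ∈ S, (p : ℤ) := by rw [hdd]; push_cast; rfl
      rw [hdZ]
      constructor
      · intro h p hp
        exact (Finset.dvd_prod_of_mem _ hp).trans h
      · intro h
        refine Finset.prod_dvd_of_coprime ?_ h
        intro p hp p' hp' hne
        have h2 := (Nat.coprime_primes (hS p hp).1 (hS p' hp').1).2 hne
        exact Nat.isCoprime_iff_coprime.2 h2
    have h2 : (Icc 1 N).filter (fun n : ℕ => (d : ℤ) ∣ ⌊f.eval (n : ℝ)⌋) =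
        (Icc 1 N).filter (fun n : ℕ => ∀ p ∈ S, (p : ℤ) ∣ ⌊f.eval (n : ℝ)⌋) :=
      Finset.filter_congr fun n _ => h1 _
    rw [h2, Finset.card_eq_sum_card_fiberwise (f := tt f q a) (t := Ts)
      (fun n hn => Finset.mem_coe.2 (Finset.mem_image_of_mem _
        (Finset.mem_filter.1 (Finset.mem_coe.1 hn)).1))]
    push_cast
    refine Finset.sum_congr rfl fun t _ => ?_
    rw [Finset.filter_filter]
    congr 2
    exact Finset.filter_congr fun n _ => and_comm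
  have h1 : |(((Icc 1 N).filter (fun n : ℕ => (d : ℤ) ∣ ⌊f.eval (n : ℝ)⌋)).card : ℝ) -
      ∑ n ∈ Icc 1 N, ∏ p ∈ S, (rho (Ft k a (tt f q a n)) p : ℝ) / p| ≤
      Cc * (T : ℝ) ^ 3 * ∏ p ∈ S, (p : ℝ) := by
    rw [hA, hB, ← Finset.sum_sub_distrib]
    refine (Finset.abs_sum_le_sum_abs _ _).trans ?_
    refine (Finset.sum_le_sum fun t _ => hcond S hS t).trans ?_
    rw [Finset.sum_const, nsmul_eq_mul]
    have hP0 : (0 : ℝ) ≤ ∏ p ∈ S, (p : ℝ) := Finset.prod_nonneg fun p _ => Nat.cast_nonneg p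
    have h2 : (Ts.card : ℝ) * q ≤ (T : ℝ) ^ 2 * T :=
      mul_le_mul hcard hq (Nat.cast_nonneg q) (by positivity)
    calc (Ts.card : ℝ) * (Cc * q * ∏ p ∈ S, (p : ℝ)) =
        (Cc * ∏ p ∈ S, (p : ℝ)) * ((Ts.card : ℝ) * q) := by ring
      _ ≤ (Cc * ∏ p ∈ S, (p : ℝ)) * ((T : ℝ) ^ 2 * T) :=
        mul_le_mul_of_nonneg_left h2 (mul_nonneg hCc hP0)
      _ = _ := by ring
  have h2 := hdiv d hd1 hd
  rw [← hdR]
  rw [← hdR] at h1
  rw [abs_sub_comm] at h1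
  calc _ ≤ |∑ n ∈ Icc 1 N, ∏ p ∈ S, (rho (Ft k a (tt f q a n)) p : ℝ) / p -
        (((Icc 1 N).filter (fun n : ℕ => (d : ℤ) ∣ ⌊f.eval (n : ℝ)⌋)).card : ℝ)| +
        |(((Icc 1 N).filter (fun n : ℕ => (d : ℤ) ∣ ⌊f.eval (n : ℝ)⌋)).card : ℝ) - N / d| :=
        abs_sub_le _ _ _
    _ ≤ _ := add_le_add h1 h2

theorem mu_small (k : ℕ) (hk : 1 ≤ k) : ∃ (c C : ℝ) (T0 : ℕ), 0 < c ∧ 0 ≤ C ∧ ∀ f : ℝ[X],
    f.natDegree = k → ∃ T1 : ℕ, ∀ (N T q : ℕ) (a : ℕ → ℤ), 1 ≤ N → MajD f N T q a → NonApp f N T →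
    T0 ≤ T → T1 ≤ T → T ^ 4 ≤ N → a k ≠ 0 → ∀ z : ℝ, 2 ≤ z → z ≤ (T : ℝ) ^ c →
    ∑ n ∈ Icc 1 N, (∑ p ∈ goodP k q a z, (rho (Ft k a (tt f q a n)) p : ℝ) / p -
      ∑ p ∈ goodP k q a z, (1 : ℝ) / p) ^ 2 ≤ C * N := by
  classical
  obtain ⟨c0, T0, hc0, hdiv⟩ := div_equi k hk
  obtain ⟨Cc, hCc, hcond⟩ := cond k hk
  set c : ℝ := min (c0 / 2) (1 / 4) with hc
  have hcpos : 0 < c := lt_min (by linarith) (by norm_num)
  have hc1 : 2 * c ≤ c0 := by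
    have := min_le_left (c0 / 2) (1 / 4 : ℝ)
    linarith
  have hc2 : 4 * c ≤ 1 := by
    have := min_le_right (c0 / 2) (1 / 4 : ℝ)
    linarith
  refine ⟨c, 2 * (k : ℝ) ^ 2 + 12 * (Cc + 1), T0, hcpos, by positivity, ?_⟩
  intro f hf
  refine ⟨⌈2 * (1 + |f.coeff 0| + k) + 1⌉₊, ?_⟩
  intro N T q a hN hM hNA hT0 hT1 hTN hak z hz1 hz2
  have hTR : 2 * (1 + |f.coeff 0| + k) + 1 ≤ (T : ℝ) :=
    (Nat.le_ceil _).trans (by exact_mod_cast hT1)
  have hT1' : (1 : ℝ) ≤ T := by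
    have : 0 ≤ |f.coeff 0| := abs_nonneg _
    have : (0 : ℝ) ≤ k := Nat.cast_nonneg k
    linarith
  have hTpos : (0 : ℝ) < T := by linarith
  have hN0 : (0 : ℝ) ≤ N := Nat.cast_nonneg N
  set P := goodP k q a z with hP
  have hPmem : ∀ p ∈ P, p.Prime ∧ ¬ p ∣ q ∧ ¬ ((p : ℤ) ∣ a k) ∧ (p : ℝ) ≤ z := by
    intro p hp
    rw [hP, goodP, Finset.mem_filter, prLe, Finset.mem_filter, Finset.mem_range] at hp
    obtain ⟨⟨h1, h2⟩, h3⟩ := hp
    refine ⟨h2, fun h => h3 ?_, fun h => h3 (Dvd.dvd.mul_left h _), ?_⟩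
    · exact Dvd.dvd.mul_right (by exact_mod_cast h) _
    · exact (Nat.le_floor_iff (by linarith)).1 (by omega)
  have hz0 : 0 ≤ z := by linarith
  set E : ℝ := Cc * (T : ℝ) ^ 3 * (T : ℝ) ^ (2 * c) + N * (T : ℝ) ^ (-c0) with hE
  have hE0 : 0 ≤ E := by positivity
  have hzz : z * z ≤ (T : ℝ) ^ (2 * c) := by
    rw [two_mul, Real.rpow_add hTpos]
    exact mul_le_mul hz2 hz2 hz0 (by positivity)
  have hz2c : z ≤ (T : ℝ) ^ (2 * c) := by
    refine le_trans ?_ hzz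
    nlinarith
  have hcc : (T : ℝ) ^ (2 * c) ≤ (T : ℝ) ^ c0 := Real.rpow_le_rpow_of_exponent_le hT1' hc1
  -- moments
  have hmom : ∀ S : Finset ℕ, (∀ p ∈ S, p ∈ P) → (∏ p ∈ S, (p : ℝ)) ≤ (T : ℝ) ^ (2 * c) →
      |∑ n ∈ Icc 1 N, ∏ p ∈ S, (rho (Ft k a (tt f q a n)) p : ℝ) / p -
        N / ∏ p ∈ S, (p : ℝ)| ≤ E := by
    intro S hS hd
    have h1 := mu_moment k f hf Cc c0 N T q a hM (fun S hS t => hcond f hf N T q a hM S hS t)
      (fun d h1 h2 => hdiv f hf N T hN hT0 hNA d h1 h2) hCc hTR S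
      (fun p hp => ⟨(hPmem p (hS p hp)).1, (hPmem p (hS p hp)).2.1⟩)
      (by push_cast; exact hd.trans hcc)
    refine h1.trans ?_
    rw [hE]
    have h2 : Cc * (T : ℝ) ^ 3 * ∏ p ∈ S, (p : ℝ) ≤ Cc * (T : ℝ) ^ 3 * (T : ℝ) ^ (2 * c) :=
      mul_le_mul_of_nonneg_left hd (by positivity)
    linarith
  -- first moments
  have hm1 : ∀ p ∈ P, |∑ n ∈ Icc 1 N, (rho (Ft k a (tt f q a n)) p : ℝ) / p - N / p| ≤ E := by
    intro p hp
    have h1 := hmom {p} (fun r hr => by rw [Finset.mem_singleton.1 hr]; exact hp)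
      (by rw [Finset.prod_singleton]; exact (hPmem p hp).2.2.2.trans hz2c)
    simpa using h1
  have hm2 : ∀ p ∈ P, ∀ r ∈ P, p ≠ r →
      |∑ n ∈ Icc 1 N, ((rho (Ft k a (tt f q a n)) p : ℝ) / p) *
        ((rho (Ft k a (tt f q a n)) r : ℝ) / r) - N / (p * r)| ≤ E := by
    intro p hp r hr hne
    have h1 := hmom {p, r} (fun s hs => by
        rcases Finset.mem_insert.1 hs with rfl | hs
        · exact hp
        · rw [Finset.mem_singleton.1 hs]; exact hr)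
      (by
        rw [Finset.prod_pair hne]
        exact (mul_le_mul (hPmem p hp).2.2.2 (hPmem r hr).2.2.2 (Nat.cast_nonneg r) hz0).trans
          hzz)
    rw [Finset.prod_pair hne] at h1
    have h2 : ∀ n, ∏ s ∈ ({p, r} : Finset ℕ), (rho (Ft k a (tt f q a n)) s : ℝ) / s =
        ((rho (Ft k a (tt f q a n)) p : ℝ) / p) * ((rho (Ft k a (tt f q a n)) r : ℝ) / r) :=
      fun n => Finset.prod_pair hne
    simp only [h2] at h1
    exact h1
  -- the pair sums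
  have hpair : ∀ p ∈ P, ∀ r ∈ P,
      ∑ n ∈ Icc 1 N, ((rho (Ft k a (tt f q a n)) p : ℝ) / p - 1 / p) *
        ((rho (Ft k a (tt f q a n)) r : ℝ) / r - 1 / r) ≤
      (if p = r then N * (k : ℝ) ^ 2 * (1 / (p : ℝ) ^ 2) else 0) + 3 * E := by
    intro p hp r hr
    have hp1 : (1 : ℝ) ≤ p := by exact_mod_cast (hPmem p hp).1.one_lt.le
    have hr1 : (1 : ℝ) ≤ r := by exact_mod_cast (hPmem r hr).1.one_lt.le
    by_cases hpr : p = r
    · subst hpr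
      rw [if_pos rfl]
      have h1 : ∀ n ∈ Icc 1 N, ((rho (Ft k a (tt f q a n)) p : ℝ) / p - 1 / p) *
          ((rho (Ft k a (tt f q a n)) p : ℝ) / p - 1 / p) ≤ (k : ℝ) ^ 2 * (1 / (p : ℝ) ^ 2) := by
        intro n _
        have h2 : rho (Ft k a (tt f q a n)) p ≤ k :=
          mu_rho_le _ p (hPmem p hp).1 k (mu_Ft_deg k a _)
            (by rw [mu_Ft_coeff k hk]; exact (hPmem p hp).2.2.1)
        have h3 : (rho (Ft k a (tt f q a n)) p : ℝ) ≤ k := by exact_mod_cast h2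
        have h4 : (0 : ℝ) ≤ rho (Ft k a (tt f q a n)) p := Nat.cast_nonneg _
        have h5 : (1 : ℝ) ≤ k := by exact_mod_cast hk
        have h6 : ((rho (Ft k a (tt f q a n)) p : ℝ) - 1) ^ 2 ≤ (k : ℝ) ^ 2 := by
          rw [sq_le_sq, abs_of_nonneg (by linarith : (0 : ℝ) ≤ k), abs_le]
          constructor <;> linarith
        have h7 : ((rho (Ft k a (tt f q a n)) p : ℝ) / p - 1 / p) *
            ((rho (Ft k a (tt f q a n)) p : ℝ) / p - 1 / p) =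
            ((rho (Ft k a (tt f q a n)) p : ℝ) - 1) ^ 2 * (1 / (p : ℝ) ^ 2) := by
          field_simp
        rw [h7]
        exact mul_le_mul_of_nonneg_right h6 (by positivity)
      have h2 := Finset.sum_le_sum h1
      rw [Finset.sum_const, nsmul_eq_mul, Nat.card_Icc, Nat.add_sub_cancel] at h2
      linarith
    · rw [if_neg hpr, zero_add]
      have e1 := hm1 p hp
      have e2 := hm1 r hr
      have e3 := hm2 p hp r hr hpr
      set A1 := ∑ n ∈ Icc 1 N, (rho (Ft k a (tt f q a n)) p : ℝ) / p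
      set A2 := ∑ n ∈ Icc 1 N, (rho (Ft k a (tt f q a n)) r : ℝ) / r
      set A3 := ∑ n ∈ Icc 1 N, ((rho (Ft k a (tt f q a n)) p : ℝ) / p) *
        ((rho (Ft k a (tt f q a n)) r : ℝ) / r)
      have h1 : ∑ n ∈ Icc 1 N, ((rho (Ft k a (tt f q a n)) p : ℝ) / p - 1 / p) *
          ((rho (Ft k a (tt f q a n)) r : ℝ) / r - 1 / r) =
          A3 - (1 / r) * A1 - (1 / p) * A2 + N * ((1 / p) * (1 / r)) := by
        have h2 : ∀ n ∈ Icc 1 N, ((rho (Ft k a (tt f q a n)) p : ℝ) / p - 1 / p) *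
            ((rho (Ft k a (tt f q a n)) r : ℝ) / r - 1 / r) =
            ((rho (Ft k a (tt f q a n)) p : ℝ) / p) * ((rho (Ft k a (tt f q a n)) r : ℝ) / r)
              - (1 / r) * ((rho (Ft k a (tt f q a n)) p : ℝ) / p)
              - (1 / p) * ((rho (Ft k a (tt f q a n)) r : ℝ) / r) + (1 / p) * (1 / r) :=
          fun n _ => by ring
        rw [Finset.sum_congr rfl h2, Finset.sum_add_distrib, Finset.sum_sub_distrib,
          Finset.sum_sub_distrib, ← Finset.mul_sum, ← Finset.mul_sum, Finset.sum_const,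
          nsmul_eq_mul, Nat.card_Icc, Nat.add_sub_cancel]
      have h3 : A3 - (1 / r) * A1 - (1 / p) * A2 + N * ((1 / p) * (1 / r)) =
          (A3 - N / (p * r)) - (1 / r) * (A1 - N / p) - (1 / p) * (A2 - N / r) := by
        have hp' : (p : ℝ) ≠ 0 := by linarith
        have hr' : (r : ℝ) ≠ 0 := by linarith
        field_simp
        ring
      rw [h1, h3]
      have i1 : -((1 / r : ℝ) * (A1 - N / p)) ≤ E := by
        have j1 : (1 / r : ℝ) ≤ 1 := by rw [div_le_one (by linarith)]; exact hr1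
        have j0 : (0 : ℝ) ≤ 1 / r := by positivity
        have j2 := (abs_le.1 e1).1
        calc -((1 / r : ℝ) * (A1 - N / p)) = (1 / r) * (-(A1 - N / p)) := by ring
          _ ≤ (1 / r) * E := mul_le_mul_of_nonneg_left (by linarith) j0
          _ ≤ 1 * E := mul_le_mul_of_nonneg_right j1 hE0
          _ = E := one_mul E
      have i2 : -((1 / p : ℝ) * (A2 - N / r)) ≤ E := by
        have j1 : (1 / p : ℝ) ≤ 1 := by rw [div_le_one (by linarith)]; exact hp1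
        have j0 : (0 : ℝ) ≤ 1 / p := by positivity
        have j2 := (abs_le.1 e2).1
        calc -((1 / p : ℝ) * (A2 - N / r)) = (1 / p) * (-(A2 - N / r)) := by ring
          _ ≤ (1 / p) * E := mul_le_mul_of_nonneg_left (by linarith) j0
          _ ≤ 1 * E := mul_le_mul_of_nonneg_right j1 hE0
          _ = E := one_mul E
      have i3 := (abs_le.1 e3).2
      linarith
  -- expand the square
  have hexp : ∑ n ∈ Icc 1 N, (∑ p ∈ P, (rho (Ft k a (tt f q a n)) p : ℝ) / p -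
      ∑ p ∈ P, (1 : ℝ) / p) ^ 2 =
      ∑ p ∈ P, ∑ r ∈ P, ∑ n ∈ Icc 1 N, ((rho (Ft k a (tt f q a n)) p : ℝ) / p - 1 / p) *
        ((rho (Ft k a (tt f q a n)) r : ℝ) / r - 1 / r) := by
    have h1 : ∀ n ∈ Icc 1 N, (∑ p ∈ P, (rho (Ft k a (tt f q a n)) p : ℝ) / p -
        ∑ p ∈ P, (1 : ℝ) / p) ^ 2 = ∑ p ∈ P, ∑ r ∈ P,
        ((rho (Ft k a (tt f q a n)) p : ℝ) / p - 1 / p) *
        ((rho (Ft k a (tt f q a n)) r : ℝ) / r - 1 / r) := by
      intro n _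
      rw [← Finset.sum_sub_distrib, sq, Finset.sum_mul_sum]
    rw [Finset.sum_congr rfl h1, Finset.sum_comm]
    exact Finset.sum_congr rfl fun p _ => Finset.sum_comm
  rw [hexp]
  refine (Finset.sum_le_sum fun p hp => Finset.sum_le_sum fun r hr => hpair p hp r hr).trans ?_
  have hsplit : ∑ p ∈ P, ∑ r ∈ P,
      ((if p = r then N * (k : ℝ) ^ 2 * (1 / (p : ℝ) ^ 2) else 0) + 3 * E) =
      N * (k : ℝ) ^ 2 * ∑ p ∈ P, 1 / (p : ℝ) ^ 2 + (P.card : ℝ) ^ 2 * (3 * E) := by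
    have h1 : ∀ p ∈ P, ∑ r ∈ P,
        ((if p = r then N * (k : ℝ) ^ 2 * (1 / (p : ℝ) ^ 2) else 0) + 3 * E) =
        N * (k : ℝ) ^ 2 * (1 / (p : ℝ) ^ 2) + P.card * (3 * E) := by
      intro p hp
      rw [Finset.sum_add_distrib, Finset.sum_ite_eq, if_pos hp, Finset.sum_const, nsmul_eq_mul]
    rw [Finset.sum_congr rfl h1, Finset.sum_add_distrib, ← Finset.mul_sum, Finset.sum_const,
      nsmul_eq_mul]
    ring
  rw [hsplit]
  -- squares
  have hsq : ∑ p ∈ P, 1 / (p : ℝ) ^ 2 ≤ 2 := by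
    have h1 : P ⊆ Ioo 0 (⌊z⌋₊ + 1) := by
      intro p hp
      have h2 := (hPmem p hp).1.pos
      have h3 : p ≤ ⌊z⌋₊ := Nat.le_floor (hPmem p hp).2.2.2
      exact Finset.mem_Ioo.2 ⟨h2, by omega⟩
    have h2 := sum_Ioo_inv_sq_le (α := ℝ) 0 (⌊z⌋₊ + 1)
    calc ∑ p ∈ P, 1 / (p : ℝ) ^ 2 ≤ ∑ p ∈ Ioo 0 (⌊z⌋₊ + 1), 1 / (p : ℝ) ^ 2 :=
          Finset.sum_le_sum_of_subset_of_nonneg h1 fun p _ _ => by positivity
      _ = ∑ p ∈ Ioo 0 (⌊z⌋₊ + 1), ((p : ℝ) ^ 2)⁻¹ :=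
          Finset.sum_congr rfl fun p _ => one_div _
      _ ≤ _ := h2
      _ = 2 := by norm_num
  -- number of primes
  have hPc : (P.card : ℝ) ≤ 2 * z := by
    have h1 : P.card ≤ ⌊z⌋₊ + 1 := by
      have : P ⊆ range (⌊z⌋₊ + 1) := by
        intro p hp
        rw [hP, goodP, Finset.mem_filter, prLe, Finset.mem_filter] at hp
        exact hp.1.1
      have h2 := Finset.card_le_card this
      rwa [Finset.card_range] at h2
    have h3 : (P.card : ℝ) ≤ (⌊z⌋₊ : ℝ) + 1 := by exact_mod_cast h1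
    linarith [Nat.floor_le hz0]
  have hPc2 : (P.card : ℝ) ^ 2 ≤ 4 * (T : ℝ) ^ (2 * c) := by
    have h1 : (P.card : ℝ) ^ 2 ≤ (2 * z) ^ 2 := pow_le_pow_left₀ (Nat.cast_nonneg _) hPc 2
    calc (P.card : ℝ) ^ 2 ≤ (2 * z) ^ 2 := h1
      _ = 4 * (z * z) := by ring
      _ ≤ _ := mul_le_mul_of_nonneg_left hzz (by norm_num)
  have hTN' : (T : ℝ) ^ 4 ≤ N := by exact_mod_cast hTN
  have hEE : (T : ℝ) ^ (2 * c) * E ≤ (Cc + 1) * N := by
    rw [hE]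
    have h1 : (T : ℝ) ^ (2 * c) * (Cc * (T : ℝ) ^ 3 * (T : ℝ) ^ (2 * c)) ≤ Cc * N := by
      have h2 : (T : ℝ) ^ (2 * c) * (T : ℝ) ^ (2 * c) ≤ T := by
        rw [← Real.rpow_add hTpos]
        calc (T : ℝ) ^ (2 * c + 2 * c) ≤ (T : ℝ) ^ (1 : ℝ) :=
              Real.rpow_le_rpow_of_exponent_le hT1' (by linarith)
          _ = T := Real.rpow_one _
      calc (T : ℝ) ^ (2 * c) * (Cc * (T : ℝ) ^ 3 * (T : ℝ) ^ (2 * c)) =
          Cc * ((T : ℝ) ^ 3 * ((T : ℝ) ^ (2 * c) * (T : ℝ) ^ (2 * c))) := by ring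
        _ ≤ Cc * ((T : ℝ) ^ 3 * T) :=
            mul_le_mul_of_nonneg_left (mul_le_mul_of_nonneg_left h2 (by positivity)) hCc
        _ = Cc * (T : ℝ) ^ 4 := by ring
        _ ≤ Cc * N := mul_le_mul_of_nonneg_left hTN' hCc
    have h3 : (T : ℝ) ^ (2 * c) * (N * (T : ℝ) ^ (-c0)) ≤ N := by
      have h4 : (T : ℝ) ^ (2 * c) * (T : ℝ) ^ (-c0) ≤ 1 := by
        rw [← Real.rpow_add hTpos]
        exact Real.rpow_le_one_of_one_le_of_nonpos hT1' (by linarith)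
      calc (T : ℝ) ^ (2 * c) * (N * (T : ℝ) ^ (-c0)) =
          N * ((T : ℝ) ^ (2 * c) * (T : ℝ) ^ (-c0)) := by ring
        _ ≤ N * 1 := mul_le_mul_of_nonneg_left h4 hN0
        _ = N := mul_one _
    calc (T : ℝ) ^ (2 * c) * (Cc * (T : ℝ) ^ 3 * (T : ℝ) ^ (2 * c) + N * (T : ℝ) ^ (-c0)) =
        (T : ℝ) ^ (2 * c) * (Cc * (T : ℝ) ^ 3 * (T : ℝ) ^ (2 * c)) +
          (T : ℝ) ^ (2 * c) * (N * (T : ℝ) ^ (-c0)) := by ring
      _ ≤ Cc * N + N := add_le_add h1 h3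
      _ = (Cc + 1) * N := by ring
  have f1 : N * (k : ℝ) ^ 2 * ∑ p ∈ P, 1 / (p : ℝ) ^ 2 ≤ N * (k : ℝ) ^ 2 * 2 :=
    mul_le_mul_of_nonneg_left hsq (by positivity)
  have f2 : (P.card : ℝ) ^ 2 * (3 * E) ≤ 12 * ((Cc + 1) * N) := by
    calc (P.card : ℝ) ^ 2 * (3 * E) ≤ (4 * (T : ℝ) ^ (2 * c)) * (3 * E) :=
          mul_le_mul_of_nonneg_right hPc2 (by positivity)
      _ = 12 * ((T : ℝ) ^ (2 * c) * E) := by ring
      _ ≤ _ := mul_le_mul_of_nonneg_left hEE (by norm_num)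
  calc _ ≤ N * (k : ℝ) ^ 2 * 2 + 12 * ((Cc + 1) * N) := add_le_add f1 f2
    _ = _ := by ring

end EK75
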