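import Pool.Agent.H75.EK.Pb
import Pool.Agent.H75.EK.Hit
import Pool.Agent.H75.EK.Exc
import Pool.Agent.H75.EK.Boot
import Pool.Agent.H75.EK.Lb
import Pool.Agent.H75.EK.Tn

/-! Module TYP: for most `n` the primes above `T^A` contribute the right amount to the mean. -/

open Polynomial Finset
open scoped Real BigOperators

namespace EK75

/-- scaling the roots by a nonzero constant preserves irreducibility over a field -/
theorem typ_scale_irr {K : Type*} [Field K] (p : K[X]) (r : K) (hr : r ≠ 0) (hp : Irreducible p) :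
    Irreducible (p.scaleRoots r) := by
  have hunit : ∀ (u : K[X]) (s : K), IsUnit (u.scaleRoots s) → IsUnit u := by
    intro u s hu
    rw [Polynomial.isUnit_iff_degree_eq_zero] at hu ⊢
    rwa [degree_scaleRoots] at hu
  refine ⟨fun hu => hp.not_isUnit (hunit _ _ hu), ?_⟩
  intro a b hab
  have h1 : p = a.scaleRoots r⁻¹ * b.scaleRoots r⁻¹ := by
    have h2 : (p.scaleRoots r).scaleRoots r⁻¹ = p := by
      rw [← scaleRoots_mul, mul_inv_cancel₀ hr]
      ext n
      simp
    rw [← h2, hab, mul_scaleRoots_of_noZeroDivisors]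
  rcases hp.isUnit_or_isUnit h1 with h | h
  · left; exact hunit _ _ h
  · right; exact hunit _ _ h

theorem typ_finrank_aux (p : ℚ[X]) (m : ℕ) (hp : p.natDegree ≤ m) (L : Type) [Field L] [Algebra ℚ L]
    [hL : IsSplittingField ℚ L p] : Module.finrank ℚ L ≤ m.factorial := by
  classical
  have : Normal ℚ L := Normal.of_isSplittingField p
  have : FiniteDimensional ℚ L := IsSplittingField.finiteDimensional L p
  have h1 : Nat.card (L ≃ₐ[ℚ] L) = Module.finrank ℚ L := by
    have : IsGalois ℚ L := ⟨⟩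
    exact IsGalois.card_aut_eq_finrank _ _
  have h5 : Nat.card (L ≃ₐ[ℚ] L) ≤ Nat.card p.Gal := by
    have e : L ≃ₐ[ℚ] p.SplittingField := IsSplittingField.algEquiv L p
    exact Nat.card_le_card_of_injective _ (AlgEquiv.autCongr e).injective
  have : Fact ((p.map (algebraMap ℚ L)).Splits) := ⟨hL.splits⟩
  have h2 := Polynomial.Gal.galActionHom_injective p L
  have h3 : Nat.card p.Gal ≤ Nat.card (Equiv.Perm (p.rootSet L)) :=
    Nat.card_le_card_of_injective _ h2
  rw [← h1]
  refine le_trans h5 (le_trans h3 ?_)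
  rw [Nat.card_eq_fintype_card, Fintype.card_perm]
  refine Nat.factorial_le ?_
  refine le_trans ?_ hp
  have h4 := Polynomial.ncard_rootSet_le p L
  rwa [← Nat.card_coe_set_eq, Nat.card_eq_fintype_card] at h4

theorem typ_split_aux (L : Type) [Field L] [CharZero L] (p : ℚ[X]) (i : Algebra ℚ L)
    (h : @IsSplittingField ℚ L _ _ i p) :
    @IsSplittingField ℚ L _ _ DivisionRing.toRatAlgebra p := by
  have e : i = DivisionRing.toRatAlgebra := Subsingleton.elim _ _
  rw [← e]
  exact h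

theorem typ_split (p : ℚ[X]) :
    @IsSplittingField ℚ p.SplittingField _ _ DivisionRing.toRatAlgebra p :=
  typ_split_aux _ p _ (IsSplittingField.splittingField p)

theorem typ_nf (p : ℚ[X]) : NumberField p.SplittingField := by
  have := typ_split p
  have h := @IsSplittingField.finiteDimensional ℚ p.SplittingField _ _ (DivisionRing.toRatAlgebra) p this
  exact { to_charZero := inferInstance, to_finiteDimensional := h }

theorem typ_finrank (p : ℚ[X]) (m : ℕ) (hp : p.natDegree ≤ m) :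
    @Module.finrank ℚ p.SplittingField _ _ DivisionRing.toRatAlgebra.toModule ≤ m.factorial := by
  have := typ_split p
  exact @typ_finrank_aux p m hp p.SplittingField _ (DivisionRing.toRatAlgebra) this

theorem typ_FF_coeff (k : ℕ) (a : ℕ → ℤ) (j : ℕ) :
    (FF k a).coeff j = if j ∈ Icc 1 k then a j else 0 := by
  unfold FF
  rw [finsetSum_coeff]
  simp only [coeff_C_mul, coeff_X_pow]
  rw [Finset.sum_congr rfl (fun i _ => by rw [mul_ite, mul_one, mul_zero])]
  simp [Finset.sum_ite_eq]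

theorem typ_Ft_coeff (k : ℕ) (a : ℕ → ℤ) (t : ℤ) (j : ℕ) :
    (Ft k a t).coeff j = (if j ∈ Icc 1 k then a j else 0) - if j = 0 then t else 0 := by
  unfold Ft
  rw [coeff_sub, typ_FF_coeff, coeff_C]

theorem typ_Ft_natDegree (k : ℕ) (hk : 1 ≤ k) (a : ℕ → ℤ) (ha : a k ≠ 0) (t : ℤ) :
    (Ft k a t).natDegree = k := by
  apply natDegree_eq_of_le_of_coeff_ne_zero
  · rw [natDegree_le_iff_coeff_eq_zero]
    intro N hN
    rw [typ_Ft_coeff, if_neg (by simp; omega), if_neg (by omega), sub_zero]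
  · rw [typ_Ft_coeff, if_pos (by simp; omega), if_neg (by omega), sub_zero]
    exact ha

theorem typ_FF_natDegree (k : ℕ) (hk : 1 ≤ k) (a : ℕ → ℤ) (ha : a k ≠ 0) :
    (FF k a).natDegree = k := by
  apply natDegree_eq_of_le_of_coeff_ne_zero
  · rw [natDegree_le_iff_coeff_eq_zero]
    intro N hN
    rw [typ_FF_coeff, if_neg (by simp; omega)]
  · rw [typ_FF_coeff, if_pos (by simp; omega)]
    exact ha

theorem typ_Ft_lead (k : ℕ) (hk : 1 ≤ k) (a : ℕ → ℤ) (ha : a k ≠ 0) (t : ℤ) :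
    (Ft k a t).leadingCoeff = a k := by
  rw [leadingCoeff, typ_Ft_natDegree k hk a ha, typ_Ft_coeff, if_pos (by simp; omega),
    if_neg (by omega), sub_zero]

theorem typ_Ft_ne (k : ℕ) (hk : 1 ≤ k) (a : ℕ → ℤ) (ha : a k ≠ 0) (t : ℤ) : Ft k a t ≠ 0 := by
  intro h
  have := typ_Ft_natDegree k hk a ha t
  rw [h, natDegree_zero] at this
  omega

theorem typ_Gt_monic (k : ℕ) (hk : 1 ≤ k) (a : ℕ → ℤ) (ha : a k ≠ 0) (t : ℤ) :
    (Gt k a t).Monic := monic_integralNormalization (typ_Ft_ne k hk a ha t)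

theorem typ_Gt_natDegree (k : ℕ) (hk : 1 ≤ k) (a : ℕ → ℤ) (ha : a k ≠ 0) (t : ℤ) :
    (Gt k a t).natDegree = k := by
  unfold Gt
  rw [natDegree_integralNormalization, typ_Ft_natDegree k hk a ha]

theorem typ_Gt_irr (k : ℕ) (hk : 1 ≤ k) (a : ℕ → ℤ) (ha : a k ≠ 0) (t : ℤ) (K : Type) [Field K]
    [CharZero K] (φ : ℤ →+* K) (h : Irreducible ((Ft k a t).map φ)) :
    Irreducible ((Gt k a t).map φ) := by
  have hinj : Function.Injective φ := by
    have : φ = Int.castRingHom K := RingHom.ext_int _ _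
    rw [this]
    exact RingHom.injective_int _
  have hl := typ_Ft_lead k hk a ha t
  have hne : φ (a k) ≠ 0 := by
    intro h0
    exact ha ((injective_iff_map_eq_zero φ).1 hinj _ h0)
  have h1 : C (φ (a k)) * (Gt k a t).map φ = ((Ft k a t).map φ).scaleRoots (φ (a k)) := by
    have h2 := leadingCoeff_smul_integralNormalization (Ft k a t)
    rw [hl] at h2
    have h3 := congrArg (Polynomial.map φ) h2
    rw [map_scaleRoots _ _ _ (by rw [hl]; exact hne)] at h3
    rw [← h3, smul_eq_C_mul, Polynomial.map_mul, map_C]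
    rfl
  have h4 := typ_scale_irr _ _ hne h
  rw [← h1] at h4
  exact (irreducible_isUnit_mul (isUnit_C.2 (IsUnit.mk0 _ hne))).1 h4

theorem typ_Gt_irrZ (k : ℕ) (hk : 1 ≤ k) (a : ℕ → ℤ) (ha : a k ≠ 0) (t : ℤ) (φ : ℤ →+* ℚ)
    (h : Irreducible ((Gt k a t).map φ)) : Irreducible (Gt k a t) := by
  rw [(typ_Gt_monic k hk a ha t).irreducible_iff_irreducible_map_fraction_map (K := ℚ)]
  have : φ = algebraMap ℤ ℚ := RingHom.ext_int _ _
  rwa [← this]

/-- number of roots mod `p` as the number of zeros in `ZMod p` -/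
theorem typ_rho_zmod (g : ℤ[X]) (p : ℕ) [Fact p.Prime] :
    rho g p = (Finset.univ.filter (fun x : ZMod p => (g.map (Int.castRingHom (ZMod p))).eval x = 0)).card := by
  unfold rho
  have key : ∀ r : ℕ, ((p : ℤ) ∣ g.eval (r : ℤ)) ↔
      (g.map (Int.castRingHom (ZMod p))).eval (r : ZMod p) = 0 := by
    intro r
    rw [← ZMod.intCast_zmod_eq_zero_iff_dvd, eval_map]
    have : (((r : ℤ) : ZMod p)) = (r : ZMod p) := by push_cast; rfl
    rw [← this, ← eq_intCast (Int.castRingHom (ZMod p)) (r : ℤ), eval₂_at_apply]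
    rfl
  refine Finset.card_bij (fun r _ => (r : ZMod p)) ?_ ?_ ?_
  · intro r hr
    simp only [Finset.mem_filter, Finset.mem_range] at hr
    simp only [Finset.mem_filter, Finset.mem_univ, true_and]
    exact (key r).1 hr.2
  · intro r hr s hs hrs
    simp only [Finset.mem_filter, Finset.mem_range] at hr hs
    rw [ZMod.natCast_eq_natCast_iff'] at hrs
    rwa [Nat.mod_eq_of_lt hr.1, Nat.mod_eq_of_lt hs.1] at hrs
  · intro x hx
    simp only [Finset.mem_filter, Finset.mem_univ, true_and] at hx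
    refine ⟨x.val, ?_, ZMod.natCast_zmod_val x⟩
    simp only [Finset.mem_filter, Finset.mem_range]
    refine ⟨ZMod.val_lt x, ?_⟩
    rw [key, ZMod.natCast_zmod_val]
    exact hx

theorem typ_rho_Gt (k : ℕ) (hk : 1 ≤ k) (a : ℕ → ℤ) (ha : a k ≠ 0) (t : ℤ) (p : ℕ) (hp : p.Prime)
    (hpa : ¬ (p : ℤ) ∣ a k) : rho (Ft k a t) p = rho (Gt k a t) p := by
  have : Fact p.Prime := ⟨hp⟩
  rw [typ_rho_zmod, typ_rho_zmod]
  have hak : ((a k : ℤ) : ZMod p) ≠ 0 := by
    rw [Ne, ZMod.intCast_zmod_eq_zero_iff_dvd]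
    exact hpa
  have key : ∀ x : ZMod p, ((Gt k a t).map (Int.castRingHom (ZMod p))).eval (((a k : ℤ) : ZMod p) * x) =
      ((a k : ℤ) : ZMod p) ^ (k - 1) * ((Ft k a t).map (Int.castRingHom (ZMod p))).eval x := by
    intro x
    have h := integralNormalization_eval₂_leadingCoeff_mul (p := Ft k a t)
      (by rw [typ_Ft_natDegree k hk a ha]; exact hk) (Int.castRingHom (ZMod p)) x
    rw [typ_Ft_lead k hk a ha, typ_Ft_natDegree k hk a ha] at h
    rw [eval_map, eval_map]
    exact h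
  refine Finset.card_bij (fun x _ => ((a k : ℤ) : ZMod p) * x) ?_ ?_ ?_
  · intro x hx
    simp only [Finset.mem_filter, Finset.mem_univ, true_and] at hx ⊢
    rw [key, hx, mul_zero]
  · intro x _ y _ hxy
    exact mul_left_cancel₀ hak hxy
  · intro y hy
    simp only [Finset.mem_filter, Finset.mem_univ, true_and] at hy
    refine ⟨((a k : ℤ) : ZMod p)⁻¹ * y, ?_, ?_⟩
    · simp only [Finset.mem_filter, Finset.mem_univ, true_and]
      have h1 := key (((a k : ℤ) : ZMod p)⁻¹ * y)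
      rw [mul_inv_cancel_left₀ hak, hy] at h1
      exact (mul_eq_zero.1 h1.symm).resolve_left (pow_ne_zero _ hak)
    · rw [mul_inv_cancel_left₀ hak]

theorem typ_Gt_ht (k : ℕ) (hk : 1 ≤ k) (a : ℕ → ℤ) (ha : a k ≠ 0) (t : ℤ) (M : ℝ) (hM1 : 1 ≤ M)
    (hM : ∀ j ∈ Icc 1 k, |((a j : ℤ) : ℝ)| ≤ M) (ht : |(t : ℝ)| ≤ M) : HtLe (Gt k a t) (M ^ k) := by
  intro i
  have h1M : 1 ≤ M ^ k := one_le_pow₀ hM1
  by_cases hi : i = k
  · have : (Gt k a t).coeff i = 1 := by
      have := typ_Gt_monic k hk a ha t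
      rw [hi]
      rwa [Monic, leadingCoeff, typ_Gt_natDegree k hk a ha] at this
    rw [this]
    simpa using h1M
  · by_cases hi2 : k < i
    · rw [coeff_eq_zero_of_natDegree_lt (by rw [typ_Gt_natDegree k hk a ha]; exact hi2)]
      simp
      positivity
    · have hik : i < k := by omega
      unfold Gt
      rw [integralNormalization_coeff_ne_natDegree (by rw [typ_Ft_natDegree k hk a ha]; exact hi),
        typ_Ft_lead k hk a ha, typ_Ft_natDegree k hk a ha]
      have h2 : |(((Ft k a t).coeff i : ℤ) : ℝ)| ≤ M := by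
        rw [typ_Ft_coeff]
        by_cases h0 : i = 0
        · rw [if_neg (by simp; omega), if_pos h0]
          push_cast
          rw [zero_sub, abs_neg]
          exact ht
        · rw [if_pos (by simp; omega), if_neg h0, sub_zero]
          exact hM i (by simp; omega)
      push_cast
      rw [abs_mul, abs_pow]
      calc |(((Ft k a t).coeff i : ℤ) : ℝ)| * |((a k : ℤ) : ℝ)| ^ (k - 1 - i)
          ≤ M * M ^ (k - 1 - i) := by
            apply mul_le_mul h2 _ (by positivity) (by linarith)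
            exact pow_le_pow_left₀ (abs_nonneg _) (hM k (by simp; omega)) _
        _ = M ^ (k - 1 - i + 1) := by rw [pow_succ]; ring
        _ ≤ M ^ k := pow_le_pow_right₀ hM1 (by omega)

/-- irreducibility over a field -/
def TypIrr (K : Type) [Field K] (g : ℤ[X]) : Prop := Irreducible (g.map (Int.castRingHom K))

theorem typIrr_Gt (k : ℕ) (hk : 1 ≤ k) (a : ℕ → ℤ) (ha : a k ≠ 0) (t : ℤ) (K : Type) [Field K]
    [CharZero K] (h : TypIrr K (Ft k a t)) : TypIrr K (Gt k a t) :=
  typ_Gt_irr k hk a ha t K (Int.castRingHom K) h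

theorem typIrr_of (K : Type) [Field K] (g : ℤ[X]) (h : Irreducible (g.map (algebraMap ℤ K))) :
    TypIrr K g := h

theorem typIrr_to (p : ℚ[X]) (g : ℤ[X]) (h : TypIrr p.SplittingField g) :
    Irreducible (g.map (algebraMap ℤ p.SplittingField)) := by
  unfold TypIrr at h
  exact h

theorem typ_conv (k : ℕ) (hk : 1 ≤ k) (a : ℕ → ℤ) (ha : a k ≠ 0) (t : ℤ) (P Q : ℚ[X]) (hQ : Q = P)
    (h : TypIrr P.SplittingField (Ft k a t)) :
    Irreducible ((Gt k a t).map (algebraMap ℤ Q.SplittingField)) := by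
  subst hQ
  exact typIrr_to _ _ (typIrr_Gt k hk a ha t Q.SplittingField h)

theorem typ_seq (k r : ℕ) (hk : 1 ≤ k) (a : ℕ → ℤ) (ha : a k ≠ 0) (B : ℤ → Prop)
    (hstep : ∀ (K : Type) [Field K] [NumberField K], Module.finrank ℚ K ≤ (k * r).factorial →
      ∃ t, B t ∧ Irreducible ((Ft k a t).map (algebraMap ℤ K))) :
    ∃ t : Fin r → ℤ, (∀ i, B (t i)) ∧ SuccIrr (fun i => Gt k a (t i)) := by
  classical
  have h1 : ∀ p : ℚ[X], ∃ t, p.natDegree ≤ k * r →
      (B t ∧ TypIrr p.SplittingField (Ft k a t)) := by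
    intro p
    by_cases hp : p.natDegree ≤ k * r
    · have := typ_nf p
      obtain ⟨t, ht1, ht2⟩ := hstep p.SplittingField (typ_finrank p _ hp)
      refine ⟨t, fun _ => ⟨ht1, ?_⟩⟩
      exact typIrr_of _ _ ht2
    · exact ⟨0, fun h => absurd h hp⟩
  choose next hnext using h1
  -- the sequence of products
  let P : ℕ → ℚ[X] := fun n => Nat.rec 1 (fun _ p => p * (Gt k a (next p)).map (Int.castRingHom ℚ)) n
  have hP0 : P 0 = 1 := rfl
  have hPs : ∀ n, P (n + 1) = P n * (Gt k a (next (P n))).map (Int.castRingHom ℚ) := fun n => rfl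
  have hdeg : ∀ n, (P n).natDegree ≤ k * n := by
    intro n
    induction n with
    | zero => rw [hP0]; simp
    | succ n ih =>
      rw [hPs]
      refine le_trans natDegree_mul_le ?_
      have h2 : ((Gt k a (next (P n))).map (Int.castRingHom ℚ)).natDegree ≤ k :=
        le_trans natDegree_map_le (typ_Gt_natDegree k hk a ha _).le
      calc (P n).natDegree + _ ≤ k * n + k := Nat.add_le_add ih h2
        _ = k * (n + 1) := by ring
  have hprod : ∀ n, n ≤ r → prodLt (fun i : Fin r => Gt k a (next (P i.val))) n = P n := by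
    intro n
    induction n with
    | zero =>
      intro _
      unfold prodLt
      rw [hP0, Finset.filter_false_of_mem (by intro x _; omega), Finset.prod_empty]
    | succ n ih =>
      intro hn
      have h3 := ih (by omega)
      rw [hPs, ← h3]
      unfold prodLt
      have h4 : (Finset.univ : Finset (Fin r)).filter (fun l => l.val < n + 1) =
          insert (⟨n, by omega⟩ : Fin r) ((Finset.univ : Finset (Fin r)).filter (fun l => l.val < n)) := by
        ext l
        simp only [Finset.mem_filter, Finset.mem_univ, true_and, Finset.mem_insert, Fin.ext_iff]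
        omega
      rw [h4, Finset.prod_insert (by simp), mul_comm]
      congr 1
      unfold prodLt at h3
      rw [h3]
  refine ⟨fun i => next (P i.val), ?_, ?_⟩
  · intro i
    exact (hnext (P i.val) (le_trans (hdeg _) (Nat.mul_le_mul_left _ i.isLt.le))).1
  · intro i
    have h5 := (hnext (P i.val) (le_trans (hdeg _) (Nat.mul_le_mul_left _ i.isLt.le))).2
    exact typ_conv k hk a ha _ _ _ (hprod i.val i.isLt.le) h5

theorem typ_FF_lead (k : ℕ) (hk : 1 ≤ k) (a : ℕ → ℤ) (ha : a k ≠ 0) :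
    (FF k a).leadingCoeff = a k := by
  rw [leadingCoeff, typ_FF_natDegree k hk a ha, typ_FF_coeff, if_pos (by simp; omega)]

/-- the basic data extracted from `MajD` -/
theorem typ_data (f : ℝ[X]) (hk : 1 ≤ f.natDegree) : ∃ N0 : ℕ, ∀ (N T q : ℕ) (a : ℕ → ℤ),
    N0 ≤ N → MajD f N T q a → T ^ 4 ≤ N →
    a f.natDegree ≠ 0 ∧ |f.leadingCoeff| / 2 * q ≤ |((a f.natDegree : ℤ) : ℝ)| ∧
    (∀ j ∈ Icc 1 f.natDegree, |((a j : ℤ) : ℝ)| ≤ (1 + ∑ j ∈ Icc 1 f.natDegree, |f.coeff j|) * q) := by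
  obtain ⟨N0, hN0⟩ := majD_lead f hk
  refine ⟨N0, fun N T q a hN hM hT => ?_⟩
  have hT1 : 1 ≤ T := le_trans hM.q1 hM.qT
  have hTN : T ≤ N := le_trans (Nat.le_self_pow (by norm_num) T) hT
  have hT2 : T ^ 2 ≤ N := le_trans (Nat.pow_le_pow_right hT1 (by norm_num)) hT
  have h1 := hN0 N hN T q a hM hT2
  have hq : (0 : ℝ) < q := by exact_mod_cast hM.q1
  have hlc : 0 < |f.leadingCoeff| := by
    rw [abs_pos, Ne, leadingCoeff_eq_zero]
    rintro rfl
    simp at hk
  refine ⟨?_, h1, ?_⟩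
  · intro h0
    rw [h0] at h1
    simp only [Int.cast_zero, abs_zero] at h1
    have : 0 < |f.leadingCoeff| / 2 * q := by positivity
    linarith
  · intro j hj
    refine le_trans (majD_coeff f N T q a hM hTN j hj) ?_
    apply mul_le_mul_of_nonneg_right _ hq.le
    have := Finset.single_le_sum (f := fun j => |f.coeff j|) (fun i _ => abs_nonneg _) hj
    linarith

theorem typ_prIoc_lt {a b : ℝ} {p : ℕ} (ha : 0 ≤ a) (hp : p ∈ prIoc a b) : a < p ∧ p.Prime := by
  unfold prIoc at hp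
  rw [Finset.mem_filter, Finset.mem_Ioc] at hp
  exact ⟨(Nat.floor_lt ha).1 hp.1.1, hp.2⟩

/-- the two sums agree above `E` -/
theorem typ_Ssum_eq (k : ℕ) (hk : 1 ≤ k) (a : ℕ → ℤ) (ha : a k ≠ 0) (t : ℤ) (E y : ℝ) (hE : 0 ≤ E)
    (hEa : |((a k : ℤ) : ℝ)| ≤ E) :
    Ssum (rhoR (Ft k a t)) E y = Ssum (rhoR (Gt k a t)) E y := by
  unfold Ssum
  refine Finset.sum_congr rfl (fun p hp => ?_)
  obtain ⟨h1, h2⟩ := typ_prIoc_lt hE hp
  unfold rhoR
  rw [typ_rho_Gt k hk a ha t p h2]
  intro h3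
  have h4 := Int.le_of_dvd (abs_pos.2 ha) ((dvd_abs _ _).2 h3)
  have h5 : (p : ℝ) ≤ |((a k : ℤ) : ℝ)| := by exact_mod_cast h4
  linarith

theorem typ (f : ℝ[X]) (hk : 1 ≤ f.natDegree) : ∃ (A c C : ℝ) (T0 N0 : ℕ), 1 ≤ A ∧ 0 < c ∧ 0 ≤ C ∧
    ∀ (N T q : ℕ) (a : ℕ → ℤ), N0 ≤ N → T0 ≤ T → MajD f N T q a → T ^ 4 ≤ N →
    ∃ G ⊆ Icc 1 N, (((Icc 1 N) \ G).card : ℝ) ≤ C * N * (T : ℝ) ^ (-c) ∧
      ∀ n ∈ G, ∀ y : ℝ, (T : ℝ) ^ A ≤ y →
        |Ssum (rhoR (Ft f.natDegree a (tt f q a n))) ((T : ℝ) ^ A) y -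
          Real.log (Real.log y / Real.log ((T : ℝ) ^ A))| ≤
        C * (1 + Real.log (1 + Real.log (Real.log y / Real.log ((T : ℝ) ^ A)))) := by
  classical
  set k := f.natDegree with hkdef
  obtain ⟨r, hr1, hexc⟩ := exc k hk
  set c0 : ℝ := |f.leadingCoeff| / 2 with hc0def
  have hc0 : 0 < c0 := by
    have : 0 < |f.leadingCoeff| := by
      rw [abs_pos, Ne, leadingCoeff_eq_zero]
      rintro rfl
      simp [hkdef] at hk
    positivity
  set C0 : ℝ := 1 + ∑ j ∈ Icc 1 k, |f.coeff j| with hC0def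
  have hC0 : 1 ≤ C0 := by
    have : 0 ≤ ∑ j ∈ Icc 1 k, |f.coeff j| := Finset.sum_nonneg (fun i _ => abs_nonneg _)
    linarith
  set C1 : ℝ := 1 + |f.coeff 0| + k with hC1def
  have hC1 : 1 ≤ C1 := by
    have h1 := abs_nonneg (f.coeff 0)
    have h2 : (0 : ℝ) ≤ k := Nat.cast_nonneg _
    linarith
  obtain ⟨c4, C2, hc4, hC2, hhit⟩ := hit_count k (k * r).factorial hk c0 C0 C1 hc0 (by linarith) (by linarith)
  obtain ⟨c5, Cp, hc5, hCp, hpb⟩ := pb k hk (c4 / 2) (by positivity)
  obtain ⟨Cu, hCu, hup⟩ := mertens_upper k hk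
  obtain ⟨A1, Cl, hA1, hCl, hlow⟩ := mertens_lower k hk
  have hkR : (1 : ℝ) ≤ k := by exact_mod_cast hk
  obtain ⟨C5, hboot⟩ := boot (1 + Cu + Cl) ((1 : ℝ) / (4 * k)) (by linarith) (by positivity)
    (by rw [div_le_one (by positivity)]; linarith)
  obtain ⟨A2, b0, hA2, hb0, hexc2⟩ := hexc C5
  obtain ⟨C', hC', hboot'⟩ := hboot b0 hb0
  obtain ⟨N1, hN1⟩ := typ_data f hk
  set M0 : ℝ := C0 + C1 with hM0def
  have hM0 : 1 ≤ M0 := by linarith
  set A : ℝ := (k + 1) * (A1 + A2) with hAdef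
  have hA : 2 ≤ A := by nlinarith
  set c : ℝ := min c5 (c4 / 2) with hcdef
  have hc : 0 < c := lt_min hc5 (by positivity)
  refine ⟨A, c, 2 * (Cp * (1 + C2)) + C' + 1 + 2 * Cu, ⌈M0 ^ k⌉₊ + 2 + ⌈M0⌉₊, N1, by linarith, hc, by positivity, ?_⟩
  intro N T q a hN hT hM hT4
  obtain ⟨hak, hak2, haj⟩ := hN1 N T q a hN hM hT4
  -- basic inequalities for `T`
  have hT2n : 2 ≤ T := by omega
  have hT2 : (2 : ℝ) ≤ T := by exact_mod_cast hT2n
  have hTpos : (0 : ℝ) < T := by linarith
  have hT1 : (1 : ℝ) ≤ T := by linarith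
  have hTM : M0 ^ k ≤ T := by
    have h1 : M0 ^ k ≤ ⌈M0 ^ k⌉₊ := Nat.le_ceil _
    have h2 : ((⌈M0 ^ k⌉₊ : ℕ) : ℝ) ≤ T := by exact_mod_cast (by omega : ⌈M0 ^ k⌉₊ ≤ T)
    linarith
  have hTM1 : M0 ≤ T := by
    have h1 : M0 ≤ ⌈M0⌉₊ := Nat.le_ceil _
    have h2 : ((⌈M0⌉₊ : ℕ) : ℝ) ≤ T := by exact_mod_cast (by omega : ⌈M0⌉₊ ≤ T)
    linarith
  have hq1 : (1 : ℝ) ≤ q := by exact_mod_cast hM.q1
  have hqT : (q : ℝ) ≤ T := by exact_mod_cast hM.qT
  -- `E` and `H`
  set E : ℝ := (T : ℝ) ^ A with hEdef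
  set H : ℝ := (T : ℝ) ^ (k + 1) with hHdef
  have hHT : (T : ℝ) ≤ H := by
    rw [hHdef, pow_succ]
    exact le_mul_of_one_le_left hTpos.le (one_le_pow₀ hT1)
  have hH2 : 2 ≤ H := by linarith
  have hHrp : H = (T : ℝ) ^ ((k : ℝ) + 1) := by
    rw [hHdef, ← Real.rpow_natCast]
    push_cast
    rfl
  have hHE : ∀ A' : ℝ, A' ≤ A1 + A2 → H ^ A' ≤ E := by
    intro A' hA'
    rw [hHrp, ← Real.rpow_mul hTpos.le, hEdef]
    apply Real.rpow_le_rpow_of_exponent_le hT1
    rw [hAdef]
    exact mul_le_mul_of_nonneg_left hA' (by positivity)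
  have hHE1 : H ≤ E := by
    have := hHE 1 (by linarith)
    rwa [Real.rpow_one] at this
  have hTE : (T : ℝ) ≤ E := le_trans hHT hHE1
  have hE2 : 2 ≤ E := by linarith
  have hT2E : (T : ℝ) ^ 2 ≤ E := by
    rw [hEdef, ← Real.rpow_natCast]
    exact Real.rpow_le_rpow_of_exponent_le hT1 (by push_cast; exact hA)
  have hlogE : 0 < Real.log E := Real.log_pos (by linarith)
  have hlogHE : Real.log H ≤ Real.log E := Real.log_le_log (by linarith) hHE1
  have hlogH : 0 ≤ Real.log H := Real.log_nonneg (by linarith)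
  -- heights
  have haM : ∀ j ∈ Icc 1 k, |((a j : ℤ) : ℝ)| ≤ M0 * T := by
    intro j hj
    refine le_trans (haj j hj) ?_
    calc (1 + ∑ j ∈ Icc 1 f.natDegree, |f.coeff j|) * (q : ℝ) ≤ C0 * T := by
          apply mul_le_mul_of_nonneg_left hqT (by linarith)
      _ ≤ M0 * T := mul_le_mul_of_nonneg_right (by linarith) hTpos.le
  have hHt : ∀ t : ℤ, |(t : ℝ)| ≤ C1 * T → HtLe (Gt k a t) H := by
    intro t ht i
    have h1 := typ_Gt_ht k hk a hak t (M0 * T) (by nlinarith) haM
      (le_trans ht (mul_le_mul_of_nonneg_right (by linarith) hTpos.le)) i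
    refine le_trans h1 ?_
    rw [mul_pow, hHdef, pow_succ, mul_comm]
    exact mul_le_mul_of_nonneg_left hTM (by positivity)
  have hakE : |((a k : ℤ) : ℝ)| ≤ E := by
    refine le_trans (haM k (by simp; exact hk)) (le_trans ?_ hT2E)
    rw [sq]
    exact mul_le_mul_of_nonneg_right hTM1 hTpos.le
  -- the bound for each number field
  set Q : ℝ := N * (Cp * (1 + C2)) * (T : ℝ) ^ (-c) with hQdef
  have hKbound : ∀ (K : Type) [Field K] [NumberField K], Module.finrank ℚ K ≤ (k * r).factorial →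
      (((Icc 1 N).filter (fun n => ¬ Irreducible ((Ft k a (tt f q a n)).map (algebraMap ℤ K)))).card : ℝ)
        ≤ Q := by
    intro K _ _ hK
    have h1 := hhit K hK (FF k a) q T (typ_FF_natDegree k hk a hak)
      (by rw [typ_FF_coeff, if_neg (by simp)]) hM.q1 hM.qT (by rw [typ_FF_lead k hk a hak]; exact hak2)
      (by
        intro i
        rw [typ_FF_coeff]
        split_ifs with h
        · exact haj i h
        · simp; positivity)
    set Bad := (Finset.Icc (-⌊C1 * T⌋) ⌊C1 * T⌋).filter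
      (fun t : ℤ => ¬ Irreducible ((FF k a - Polynomial.C t).map (algebraMap ℤ K))) with hBad
    have h2 := hpb f rfl N T q a hM hT4 Bad
    have h3 : (((Icc 1 N).filter
        (fun n => ¬ Irreducible ((Ft k a (tt f q a n)).map (algebraMap ℤ K)))).card : ℝ) ≤
        (((Icc 1 N).filter (fun n => tt f q a n ∈ Bad)).card : ℝ) := by
      have : (Icc 1 N).filter (fun n => ¬ Irreducible ((Ft k a (tt f q a n)).map (algebraMap ℤ K))) ⊆
          (Icc 1 N).filter (fun n => tt f q a n ∈ Bad) := by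
        intro n hn
        rw [Finset.mem_filter] at hn ⊢
        refine ⟨hn.1, ?_⟩
        rw [hBad, Finset.mem_filter, Finset.mem_Icc]
        have h4 := majD_tt f N T q a hM n hn.1
        rw [abs_le] at h4
        refine ⟨⟨?_, ?_⟩, hn.2⟩
        · rw [neg_le, Int.le_floor]
          push_cast
          linarith [h4.1]
        · rw [Int.le_floor]
          exact h4.2
      exact_mod_cast Finset.card_le_card this
    refine le_trans h3 (le_trans h2 ?_)
    have h5 : (T : ℝ) ^ (-c5) ≤ (T : ℝ) ^ (-c) :=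
      Real.rpow_le_rpow_of_exponent_le hT1 (by have := min_le_left c5 (c4 / 2); linarith)
    have h6 : (T : ℝ) ^ (c4 / 2 - 1) * (T : ℝ) ^ (1 - c4) ≤ (T : ℝ) ^ (-c) := by
      rw [← Real.rpow_add hTpos]
      exact Real.rpow_le_rpow_of_exponent_le hT1 (by have := min_le_right c5 (c4 / 2); linarith)
    have hTp : 0 ≤ (T : ℝ) ^ (c4 / 2 - 1) := by positivity
    rw [hQdef, mul_assoc (N : ℝ)]
    apply mul_le_mul_of_nonneg_left _ (Nat.cast_nonneg _)
    calc Cp * (T : ℝ) ^ (-c5) + Cp * (T : ℝ) ^ (c4 / 2 - 1) * (Bad.card : ℝ)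
        ≤ Cp * (T : ℝ) ^ (-c) + Cp * (T : ℝ) ^ (c4 / 2 - 1) * (C2 * (T : ℝ) ^ (1 - c4)) := by
          apply add_le_add
          · exact mul_le_mul_of_nonneg_left h5 hCp.le
          · exact mul_le_mul_of_nonneg_left h1 (by positivity)
      _ = Cp * (T : ℝ) ^ (-c) + Cp * C2 * ((T : ℝ) ^ (c4 / 2 - 1) * (T : ℝ) ^ (1 - c4)) := by ring
      _ ≤ Cp * (T : ℝ) ^ (-c) + Cp * C2 * (T : ℝ) ^ (-c) := by
          have := mul_le_mul_of_nonneg_left h6 (mul_nonneg hCp.le hC2)
          linarith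
      _ = Cp * (1 + C2) * (T : ℝ) ^ (-c) := by ring
  -- the exceptional values
  set B : ℤ → Prop := fun t => Irreducible (Gt k a t) ∧ Ssum (rhoR (Gt k a t)) E (E ^ b0) < C5 ∧
    |(t : ℝ)| ≤ C1 * T with hBdef
  have hBbound : (((Icc 1 N).filter (fun n => B (tt f q a n))).card : ℝ) ≤ Q := by
    by_contra hcon
    push Not at hcon
    obtain ⟨t, ht1, ht2⟩ := typ_seq k r hk a hak B (by
      intro K _ _ hK
      have h1 := hKbound K hK
      have h2 : ∃ n ∈ (Icc 1 N).filter (fun n => B (tt f q a n)),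
          n ∉ (Icc 1 N).filter (fun n => ¬ Irreducible ((Ft k a (tt f q a n)).map (algebraMap ℤ K))) := by
        by_contra hh
        push Not at hh
        have h3 := Finset.card_le_card (s := (Icc 1 N).filter (fun n => B (tt f q a n))) hh
        have h4 : (((Icc 1 N).filter (fun n => B (tt f q a n))).card : ℝ) ≤
          (((Icc 1 N).filter
            (fun n => ¬ Irreducible ((Ft k a (tt f q a n)).map (algebraMap ℤ K)))).card : ℝ) := by
          exact_mod_cast h3
        linarith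
      obtain ⟨n, hn1, hn2⟩ := h2
      rw [Finset.mem_filter] at hn1
      rw [Finset.mem_filter] at hn2
      push Not at hn2
      exact ⟨tt f q a n, hn1.2, hn2 hn1.1⟩)
    obtain ⟨i, hi⟩ := hexc2 H E (fun i => Gt k a (t i)) hH2 (hHE A2 (by linarith))
      (fun i => typ_Gt_monic k hk a hak _) (fun i => typ_Gt_natDegree k hk a hak _)
      (fun i => hHt _ (ht1 i).2.2) ht2
    have := (ht1 i).2.1
    linarith
  -- the good set
  refine ⟨(Icc 1 N).filter (fun n => Irreducible ((Ft k a (tt f q a n)).map (algebraMap ℤ ℚ)) ∧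
    ¬ B (tt f q a n)), Finset.filter_subset _ _, ?_, ?_⟩
  · have hQ1 := hKbound ℚ (by
      rw [Module.finrank_self]
      exact Nat.factorial_pos _)
    have hsub : (Icc 1 N) \ ((Icc 1 N).filter (fun n => Irreducible ((Ft k a (tt f q a n)).map
        (algebraMap ℤ ℚ)) ∧ ¬ B (tt f q a n))) ⊆
        ((Icc 1 N).filter (fun n => ¬ Irreducible ((Ft k a (tt f q a n)).map (algebraMap ℤ ℚ)))) ∪
        ((Icc 1 N).filter (fun n => B (tt f q a n))) := by
      intro n hn
      rw [Finset.mem_sdiff, Finset.mem_filter] at hn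
      rw [Finset.mem_union, Finset.mem_filter, Finset.mem_filter]
      by_cases h : Irreducible ((Ft k a (tt f q a n)).map (algebraMap ℤ ℚ))
      · right
        refine ⟨hn.1, ?_⟩
        by_contra hB
        exact hn.2 ⟨hn.1, h, hB⟩
      · left
        exact ⟨hn.1, h⟩
    have h1 := Finset.card_le_card hsub
    have h2 := le_trans h1 (Finset.card_union_le _ _)
    have h3 : ((((Icc 1 N) \ ((Icc 1 N).filter (fun n => Irreducible ((Ft k a (tt f q a n)).map
        (algebraMap ℤ ℚ)) ∧ ¬ B (tt f q a n)))).card : ℕ) : ℝ) ≤ Q + Q := by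
      refine le_trans (Nat.cast_le.2 h2) ?_
      rw [Nat.cast_add]
      exact add_le_add hQ1 hBbound
    refine le_trans h3 ?_
    have hTc : 0 ≤ (T : ℝ) ^ (-c) := by positivity
    have hNT : 0 ≤ (N : ℝ) * (T : ℝ) ^ (-c) := by positivity
    have : Q + Q = (2 * (Cp * (1 + C2))) * ((N : ℝ) * (T : ℝ) ^ (-c)) := by rw [hQdef]; ring
    rw [this, mul_assoc (2 * (Cp * (1 + C2)) + C' + 1 + 2 * Cu)]
    apply mul_le_mul_of_nonneg_right _ hNT
    linarith
  · intro n hn y hy
    rw [Finset.mem_filter] at hn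
    obtain ⟨hn1, hn2, hn3⟩ := hn
    have htn : |((tt f q a n : ℤ) : ℝ)| ≤ C1 * T := majD_tt f N T q a hM n hn1
    have hirrQ := typ_Gt_irr k hk a hak (tt f q a n) ℚ _ hn2
    have hirr := typ_Gt_irrZ k hk a hak (tt f q a n) _ hirrQ
    have hS5 : C5 ≤ Ssum (rhoR (Gt k a (tt f q a n))) E (E ^ b0) := by
      by_contra hcon
      push Not at hcon
      exact hn3 ⟨hirr, hcon, htn⟩
    rw [typ_Ssum_eq k hk a hak _ E y (by linarith) hakE]
    set g := Gt k a (tt f q a n) with hg
    have hgm : g.Monic := typ_Gt_monic k hk a hak _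
    have hgd : g.natDegree = k := typ_Gt_natDegree k hk a hak _
    have hgH : HtLe g H := hHt _ htn
    have hw : ∀ p, 0 ≤ rhoR g p := fun p => by unfold rhoR; positivity
    have hU := hup g hgm hgd hirr H hH2 hgH
    have hL := hlow g hgm hgd hirr H hH2 hgH E (hHE A1 (by linarith))
    have hupper := abel_upper (rhoR g) hw (Cu * Real.log H) (by positivity) hU E y hE2 hy
    have hlower := hboot' (rhoR g) E hw hE2
      (by
        intro Y hY
        refine le_trans (hU Y hY) ?_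
        have h1 : Cu * Real.log H ≤ Cu * Real.log E := mul_le_mul_of_nonneg_left hlogHE hCu
        have h2 : 0 ≤ (1 + Cl) * Real.log E := by positivity
        nlinarith)
      (by
        intro Y hY
        refine le_trans ?_ (hL Y hY)
        have hYl : 0 ≤ Real.log Y := Real.log_nonneg hY
        have hm : 0 < max 1 (Ssum (rhoR g) E (Y ^ ((1 : ℝ) / (4 * k)))) :=
          lt_of_lt_of_le one_pos (le_max_left _ _)
        have h1 : Cl * Real.log E ≤ (1 + Cu + Cl) * Real.log E :=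
          mul_le_mul_of_nonneg_right (by linarith) hlogE.le
        have h2 : Cl * Real.log Y / max 1 (Ssum (rhoR g) E (Y ^ ((1 : ℝ) / (4 * k)))) ≤
            (1 + Cu + Cl) * Real.log Y / max 1 (Ssum (rhoR g) E (Y ^ ((1 : ℝ) / (4 * k)))) := by
          apply div_le_div_of_nonneg_right _ hm.le
          exact mul_le_mul_of_nonneg_right (by linarith) hYl
        linarith)
      hS5 y hy
    have hratio : 1 ≤ Real.log y / Real.log E := by
      rw [one_le_div hlogE]
      exact Real.log_le_log (by linarith) hy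
    have hl1 : 0 ≤ Real.log (Real.log y / Real.log E) := Real.log_nonneg hratio
    have hl2 : 0 ≤ Real.log (1 + Real.log (Real.log y / Real.log E)) :=
      Real.log_nonneg (by linarith)
    have hquot : 2 * (Cu * Real.log H) / Real.log E ≤ 2 * Cu := by
      rw [div_le_iff₀ hlogE]
      nlinarith
    rw [abs_le]
    set ℓ := Real.log (1 + Real.log (Real.log y / Real.log E)) with hℓ
    set X := 2 * (Cp * (1 + C2)) with hX
    have hX0 : 0 ≤ X := by positivity
    constructor
    · have : C' * (1 + ℓ) ≤ (X + C' + 1 + 2 * Cu) * (1 + ℓ) :=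
        mul_le_mul_of_nonneg_right (by linarith) (by linarith)
      linarith
    · have : (1 + 2 * Cu) * (1 + ℓ) ≤ (X + C' + 1 + 2 * Cu) * (1 + ℓ) :=
        mul_le_mul_of_nonneg_right (by linarith) (by linarith)
      have h9 : (1 + 2 * Cu) ≤ (1 + 2 * Cu) * (1 + ℓ) := by nlinarith
      linarith

end EK75
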