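import Pool.Agent.H75.EK.Clt
import Pool.Agent.H75.EK.W2
import Pool.Agent.H75.EK.Mert

/-! Module MIN: minor arc case. -/

open Polynomial Finset
open scoped Real BigOperators

namespace EK75

/-- `loglog N` -/
noncomputable def L2 (N : ℕ) : ℝ := Real.log (Real.log N)

/-- the truncation `y = N^{(loglog N)^{-1/4}}` -/
noncomputable def yN (N : ℕ) : ℝ := (N : ℝ) ^ ((L2 N) ^ (-(1 : ℝ) / 4))

/-- the threshold `N^{(loglog N)^{-1/8}}` between minor and major arcs -/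
noncomputable def thr (N : ℕ) : ℝ := (N : ℝ) ^ ((L2 N) ^ (-(1 : ℝ) / 8))

/-- the number of primes `p ≤ y_N` dividing `⌊f(n)⌋` -/
noncomputable def omY (f : ℝ[X]) (N n : ℕ) : ℕ :=
  ((prLe (yN N)).filter (fun p : ℕ => (p : ℤ) ∣ ⌊f.eval (n : ℝ)⌋)).card

theorem min_L2_tendsto : Filter.Tendsto L2 Filter.atTop Filter.atTop :=
  Real.tendsto_log_atTop.comp (Real.tendsto_log_atTop.comp tendsto_natCast_atTop_atTop)

theorem min_mem {y : ℝ} {p : ℕ} (hy : 0 ≤ y) (hp : p ∈ prLe y) : p.Prime ∧ (p : ℝ) ≤ y := by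
  unfold prLe at hp
  rw [Finset.mem_filter, Finset.mem_range, Nat.lt_succ_iff] at hp
  exact ⟨hp.2, (Nat.le_floor_iff hy).1 hp.1⟩

/-- `∑ 1/p² ≤ 2` -/
theorem min_sq (y : ℝ) : ∑ p ∈ prLe y, ((1 : ℝ) / p) ^ 2 ≤ 2 := by
  have h1 := sum_Ioo_inv_sq_le (α := ℝ) 0 (⌊y⌋₊ + 1)
  have h2 : ∑ p ∈ prLe y, ((1 : ℝ) / p) ^ 2 ≤ ∑ i ∈ Finset.Ioo 0 (⌊y⌋₊ + 1), ((i : ℝ) ^ 2)⁻¹ := by
    have h3 : prLe y ⊆ Finset.Ioo 0 (⌊y⌋₊ + 1) := by
      intro p hp
      unfold prLe at hp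
      rw [Finset.mem_filter, Finset.mem_range] at hp
      rw [Finset.mem_Ioo]
      exact ⟨hp.2.pos, hp.1⟩
    calc ∑ p ∈ prLe y, ((1 : ℝ) / p) ^ 2 = ∑ i ∈ prLe y, ((i : ℝ) ^ 2)⁻¹ := by
          apply Finset.sum_congr rfl
          intro i _
          rw [one_div, inv_pow]
      _ ≤ _ := Finset.sum_le_sum_of_subset_of_nonneg h3 fun _ _ _ => by positivity
  refine h2.trans (h1.trans ?_)
  norm_num

theorem min_filter_congr {α : Type*} (s : Finset α) (P Q : α → Prop) (D1 : DecidablePred P)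
    (D2 : DecidablePred Q) (h : ∀ a ∈ s, P a ↔ Q a) :
    @Finset.filter α P D1 s = @Finset.filter α Q D2 s := by
  ext a
  constructor
  · intro ha
    have ha' := (@Finset.mem_filter _ _ D1 _ _).1 ha
    exact (@Finset.mem_filter _ _ D2 _ _).2 ⟨ha'.1, (h a ha'.1).1 ha'.2⟩
  · intro ha
    have ha' := (@Finset.mem_filter _ _ D2 _ _).1 ha
    exact (@Finset.mem_filter _ _ D1 _ _).2 ⟨ha'.1, (h a ha'.1).2 ha'.2⟩

theorem min_card {y : ℝ} (hy : 2 ≤ y) : ((prLe y).card : ℝ) + 1 ≤ 2 * y := by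
  have h1 : (prLe y).card ≤ ⌊y⌋₊ := by
    have h2 : prLe y ⊆ Finset.Ioc 0 ⌊y⌋₊ := by
      intro p hp
      have h3 := min_mem (by linarith) hp
      rw [Finset.mem_Ioc]
      exact ⟨h3.1.pos, (Nat.le_floor_iff (by linarith)).2 h3.2⟩
    simpa using Finset.card_le_card h2
  have h3 : ((prLe y).card : ℝ) ≤ y := le_trans (by exact_mod_cast h1) (Nat.floor_le (by linarith))
  linarith

/-- real variable version of the quantities -/
theorem min_asym (c c0 s0 C0 C ε T0 : ℝ) (m : ℕ) (hc : 0 < c) (hc0 : 0 < c0) (hC0 : 0 < C0)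
    (hε : 0 < ε) : ∀ᶠ x : ℝ in Filter.atTop, 1 ≤ x ∧ s0 ≤ Real.sqrt x ∧
      (1 / 4) * Real.log x + C ≤ c0 * Real.sqrt x ∧
      m * x ^ (-(1 : ℝ) / 4) ≤ c * x ^ (-(1 : ℝ) / 8) ∧
      2 ≤ Real.exp (Real.exp x * x ^ (-(1 : ℝ) / 4)) ∧
      T0 ≤ Real.exp (Real.exp x * x ^ (-(1 : ℝ) / 8)) ∧
      C0 * (2 * Real.exp (Real.exp x * x ^ (-(1 : ℝ) / 4))) ^ m *
        Real.exp (-(c * (Real.exp x * x ^ (-(1 : ℝ) / 8)))) ≤ ε := by
  have hr : Filter.Tendsto (fun x : ℝ => x ^ (-(1 : ℝ) / 8)) Filter.atTop (nhds 0) := by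
    have := tendsto_rpow_neg_atTop (y := 1 / 8) (by norm_num)
    simpa [neg_div] using this
  have hq : Filter.Tendsto (fun x : ℝ => Real.exp x * x ^ (-(1 : ℝ) / 4)) Filter.atTop
      Filter.atTop := by
    have := tendsto_exp_mul_div_rpow_atTop (1 / 4) 1 one_pos
    refine Filter.Tendsto.congr' ?_ this
    filter_upwards [Filter.eventually_gt_atTop 0] with x hx
    rw [one_mul, neg_div, Real.rpow_neg hx.le, div_eq_mul_inv]
  have hu : Filter.Tendsto (fun x : ℝ => Real.exp x * x ^ (-(1 : ℝ) / 8)) Filter.atTop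
      Filter.atTop := by
    have := tendsto_exp_mul_div_rpow_atTop (1 / 8) 1 one_pos
    refine Filter.Tendsto.congr' ?_ this
    filter_upwards [Filter.eventually_gt_atTop 0] with x hx
    rw [one_mul, neg_div, Real.rpow_neg hx.le, div_eq_mul_inv]
  have hs : Filter.Tendsto Real.sqrt Filter.atTop Filter.atTop := Real.tendsto_sqrt_atTop
  have hl : ∀ᶠ x : ℝ in Filter.atTop, Real.log x ≤ c0 * Real.sqrt x := by
    have h1 := (isLittleO_log_rpow_atTop (r := 1 / 2) (by norm_num)).bound hc0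
    filter_upwards [h1, Filter.eventually_gt_atTop 1] with x hx hx1
    rw [Real.norm_eq_abs, Real.norm_eq_abs, ← Real.sqrt_eq_rpow,
      abs_of_nonneg (Real.sqrt_nonneg x)] at hx
    exact (le_abs_self _).trans hx
  have hCs : ∀ᶠ x : ℝ in Filter.atTop, 4 / 3 * C ≤ c0 * Real.sqrt x :=
    (hs.const_mul_atTop hc0).eventually_ge_atTop _
  have hm : ∀ᶠ x : ℝ in Filter.atTop, m * x ^ (-(1 : ℝ) / 8) ≤ c / 2 := by
    have := (hr.const_mul (m : ℝ)).eventually_le_const (show (m : ℝ) * 0 < c / 2 by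
      rw [mul_zero]; positivity)
    exact this
  have hfin : ∀ᶠ x : ℝ in Filter.atTop, Real.log (C0 * 2 ^ m / ε) ≤
      (c / 2) * (Real.exp x * x ^ (-(1 : ℝ) / 8)) :=
    (hu.const_mul_atTop (by positivity)).eventually_ge_atTop _
  filter_upwards [Filter.eventually_ge_atTop 1, hs.eventually_ge_atTop s0, hl, hCs, hm,
    hq.eventually_ge_atTop (Real.log 2), hu.eventually_ge_atTop (Real.log (max T0 1)), hfin]
    with x h0' h1 h2 h3 h4 h5 h6 h7
  have h0 : 0 < x := by linarith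
  have hsq : x ^ (-(1 : ℝ) / 4) = x ^ (-(1 : ℝ) / 8) * x ^ (-(1 : ℝ) / 8) := by
    rw [← Real.rpow_add h0]; norm_num
  have hrp : 0 < x ^ (-(1 : ℝ) / 8) := Real.rpow_pos_of_pos h0 _
  refine ⟨h0', h1, by linarith, ?_, ?_, ?_, ?_⟩
  · rw [hsq, ← mul_assoc]
    refine (mul_le_mul_of_nonneg_right h4 hrp.le).trans ?_
    nlinarith
  · rw [← Real.log_le_iff_le_exp (by norm_num)]
    exact h5
  · refine (le_max_left T0 1).trans ?_
    rw [← Real.log_le_iff_le_exp (by positivity)]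
    exact h6
  · set u := Real.exp x with hu'
    set r := x ^ (-(1 : ℝ) / 8) with hr'
    have hu0 : 0 < u := Real.exp_pos x
    rw [hsq, mul_pow, ← Real.exp_nat_mul]
    have h8 : (m : ℝ) * (u * (r * r)) ≤ (c / 2) * (u * r) := by
      have := mul_le_mul_of_nonneg_right h4 (mul_pos hu0 hrp).le
      nlinarith
    have h9 : C0 * 2 ^ m ≤ ε * Real.exp ((c / 2) * (u * r)) := by
      have h10 : C0 * 2 ^ m / ε ≤ Real.exp ((c / 2) * (u * r)) := by
        rw [← Real.log_le_iff_le_exp (by positivity)]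
        exact h7
      rw [div_le_iff₀ hε] at h10
      linarith
    calc C0 * (2 ^ m * Real.exp ((m : ℝ) * (u * (r * r)))) * Real.exp (-(c * (u * r)))
        = (C0 * 2 ^ m) * (Real.exp ((m : ℝ) * (u * (r * r))) * Real.exp (-(c * (u * r)))) := by
          ring
      _ ≤ (ε * Real.exp ((c / 2) * (u * r))) *
          (Real.exp ((c / 2) * (u * r)) * Real.exp (-(c * (u * r)))) := by
          gcongr
      _ = ε := by
          rw [mul_assoc, ← Real.exp_add, ← Real.exp_add]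
          have : c / 2 * (u * r) + (c / 2 * (u * r) + -(c * (u * r))) = 0 := by ring
          rw [this, Real.exp_zero, mul_one]

theorem minor (f : ℝ[X]) (hk : 1 ≤ f.natDegree) (ξ ε : ℝ) (hε : 0 < ε) : ∃ N0 : ℕ, ∀ N T : ℕ,
    N0 ≤ N → NonApp f N T → thr N ≤ T →
    ‖(∑ n ∈ Icc 1 N, Complex.exp (Complex.I * ξ *
        (((omY f N n : ℝ) - L2 N) / Real.sqrt (L2 N) : ℝ))) / (N : ℂ) -
      Complex.exp (-(ξ : ℂ) ^ 2 / 2)‖ ≤ ε := by
  obtain ⟨m, c0, s0, C0, hc0, hs0, hC0, hclt⟩ := clt_core 2 ξ (ε / 2) (by positivity)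
  obtain ⟨c, T0, hc, hdiv⟩ := div_equi f.natDegree hk
  obtain ⟨C, hC⟩ := mert5
  have hev := min_L2_tendsto.eventually (min_asym c c0 s0 C0 C (ε / 2) T0 m hc hc0 hC0
    (by positivity))
  have hlog : ∀ᶠ N : ℕ in Filter.atTop, 0 < Real.log N :=
    (Real.tendsto_log_atTop.comp tendsto_natCast_atTop_atTop).eventually_gt_atTop 0
  obtain ⟨N0, hN0⟩ := Filter.eventually_atTop.1 ((hev.and hlog).and (Filter.eventually_ge_atTop 1))
  refine ⟨N0, fun N T hN happ hT => ?_⟩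
  obtain ⟨⟨⟨h0', h1, h2, h3, h4, h5, h6⟩, hlogN⟩, hN1⟩ := hN0 N hN
  set x := L2 N with hx
  have h0 : 0 < x := by linarith
  have hexp : Real.exp x = Real.log N := by rw [hx, L2, Real.exp_log hlogN]
  have hNpos : (0 : ℝ) < N := by exact_mod_cast hN1
  have hy : yN N = Real.exp (Real.exp x * x ^ (-(1 : ℝ) / 4)) := by
    rw [yN, Real.rpow_def_of_pos hNpos, hexp]
  have hth : thr N = Real.exp (Real.exp x * x ^ (-(1 : ℝ) / 8)) := by
    rw [thr, Real.rpow_def_of_pos hNpos, hexp]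
  rw [← hy] at h4 h6
  rw [← hth] at h5
  have hTpos : (0 : ℝ) < T := by
    refine lt_of_lt_of_le ?_ hT
    rw [hth]; exact Real.exp_pos _
  have hyTc : (yN N) ^ m ≤ (T : ℝ) ^ c := by
    have e1 : (yN N) ^ m = Real.exp (Real.exp x * (m * x ^ (-(1 : ℝ) / 4))) := by
      rw [hy, ← Real.exp_nat_mul]; ring_nf
    have e2 : (thr N) ^ c = Real.exp (Real.exp x * (c * x ^ (-(1 : ℝ) / 8))) := by
      rw [hth, ← Real.exp_mul]; ring_nf
    calc (yN N) ^ m ≤ (thr N) ^ c := by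
          rw [e1, e2]
          gcongr
      _ ≤ (T : ℝ) ^ c := Real.rpow_le_rpow (by rw [hth]; positivity) hT hc.le
  have hTc : (T : ℝ) ^ (-c) ≤ Real.exp (-(c * (Real.exp x * x ^ (-(1 : ℝ) / 8)))) := by
    have e2 : (thr N) ^ c = Real.exp (c * (Real.exp x * x ^ (-(1 : ℝ) / 8))) := by
      rw [hth, ← Real.exp_mul]; ring_nf
    rw [Real.rpow_neg hTpos.le, Real.exp_neg, ← e2]
    apply inv_anti₀
    · rw [e2]; exact Real.exp_pos _
    · exact Real.rpow_le_rpow (by rw [hth]; positivity) hT hc.le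
  have hsq : Real.sqrt x ^ 2 = x := Real.sq_sqrt h0.le
  -- Mertens
  have hmert : |∑ p ∈ prLe (yN N), (1 : ℝ) / p - Real.sqrt x ^ 2| ≤ c0 * Real.sqrt x := by
    have e1 := hC (yN N) h4
    have e2 : Real.log (Real.log (yN N)) = x - (1 / 4) * Real.log x := by
      rw [hy, Real.log_exp, Real.log_mul (Real.exp_pos _).ne' (Real.rpow_pos_of_pos h0 _).ne',
        Real.log_exp, Real.log_rpow h0]
      ring
    rw [e2] at e1
    rw [hsq]
    have hlx : 0 ≤ Real.log x := Real.log_nonneg h0'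
    rw [abs_le] at e1 ⊢
    constructor <;> linarith [e1.1, e1.2]
  have hT0 : T0 ≤ T := by exact_mod_cast h5.trans hT
  have hmain := hclt ℕ ℕ (prLe (yN N)) (Icc 1 N) (fun p => 1 / (p : ℝ)) (fun _ => 1 / (N : ℝ))
    (fun p n => (p : ℤ) ∣ ⌊f.eval (n : ℝ)⌋) (Real.sqrt x) ((T : ℝ) ^ (-c))
    (fun p _ => by positivity) (fun p hp => by
      have := (min_mem (by linarith) hp).1.one_lt.le
      rw [div_le_one (by exact_mod_cast (by omega : 0 < p))]
      exact_mod_cast this) (min_sq _) h1 hmert (fun _ _ => by positivity) (by positivity) ?_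
  · have hW : ∑ _n ∈ Icc 1 N, 1 / (N : ℝ) = 1 := by
      rw [Finset.sum_const, Nat.card_Icc, nsmul_eq_mul, Nat.add_sub_cancel]
      field_simp
    rw [hW, mul_one, Complex.ofReal_one, one_mul, hsq] at hmain
    have e1 : ∑ n ∈ Icc 1 N, ((1 / (N : ℝ) : ℝ) : ℂ) * Complex.exp (Complex.I * ξ *
        (((((prLe (yN N)).filter (fun p : ℕ => (p : ℤ) ∣ ⌊f.eval (n : ℝ)⌋)).card : ℝ) - x) /
          Real.sqrt x : ℝ)) = (∑ n ∈ Icc 1 N, Complex.exp (Complex.I * ξ *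
        (((omY f N n : ℝ) - x) / Real.sqrt x : ℝ))) / (N : ℂ) := by
      rw [Finset.sum_div]
      apply Finset.sum_congr rfl
      intro n _
      rw [omY]
      push_cast
      ring
    have e2 : ‖(∑ n ∈ Icc 1 N, Complex.exp (Complex.I * ξ *
        (((omY f N n : ℝ) - x) / Real.sqrt x : ℝ))) / (N : ℂ) -
          Complex.exp (-(ξ : ℂ) ^ 2 / 2)‖ ≤
        ε / 2 + C0 * (((prLe (yN N)).card : ℝ) + 1) ^ m * (T : ℝ) ^ (-c) := by
      rw [← e1]
      refine le_trans (le_of_eq ?_) hmain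
      congr 2
      apply Finset.sum_congr rfl
      intro n _
      have e3 : ∀ (D1 D2 : DecidablePred (fun p : ℕ => (p : ℤ) ∣ ⌊f.eval (n : ℝ)⌋)),
          (@Finset.filter ℕ (fun p : ℕ => (p : ℤ) ∣ ⌊f.eval (n : ℝ)⌋) D1 (prLe (yN N))).card =
          (@Finset.filter ℕ (fun p : ℕ => (p : ℤ) ∣ ⌊f.eval (n : ℝ)⌋) D2 (prLe (yN N))).card := by
        intro D1 D2
        apply congrArg
        ext p
        exact (@Finset.mem_filter _ _ D1 _ _).trans (@Finset.mem_filter _ _ D2 _ _).symm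
      rw [e3]
    refine e2.trans ?_
    have e4 : C0 * (((prLe (yN N)).card : ℝ) + 1) ^ m * (T : ℝ) ^ (-c) ≤ ε / 2 := by
      refine le_trans ?_ h6
      gcongr
      exact min_card h4
    linarith
  · intro S hS hSm
    have hpr : ∀ p ∈ S, p.Prime ∧ (p : ℝ) ≤ yN N := fun p hp => min_mem (by linarith) (hS hp)
    set d : ℕ := ∏ p ∈ S, p with hd
    have hd1 : 1 ≤ d := Nat.one_le_iff_ne_zero.2 (Finset.prod_ne_zero_iff.2 fun p hp =>
      (hpr p hp).1.ne_zero)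
    have hdle : (d : ℝ) ≤ (T : ℝ) ^ c := by
      refine le_trans ?_ hyTc
      rw [hd]
      push_cast
      calc ∏ p ∈ S, (p : ℝ) ≤ ∏ _p ∈ S, yN N :=
            Finset.prod_le_prod (fun _ _ => by positivity) fun p hp => (hpr p hp).2
        _ = yN N ^ S.card := Finset.prod_const _
        _ ≤ yN N ^ m := pow_le_pow_right₀ (by linarith) hSm
    have hiff : ∀ z : ℤ, (∀ p ∈ S, (p : ℤ) ∣ z) ↔ (d : ℤ) ∣ z := by
      intro z
      constructor
      · intro h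
        rw [hd]
        push_cast
        refine Finset.prod_dvd_of_coprime ?_ h
        intro p hp q hq hpq
        exact Nat.isCoprime_iff_coprime.2 ((Nat.coprime_primes (hpr p hp).1 (hpr q hq).1).2 hpq)
      · intro h p hp
        refine dvd_trans ?_ h
        exact_mod_cast Finset.dvd_prod_of_mem (fun p : ℕ => p) hp
    have h7 := hdiv f rfl N T hN1 hT0 happ d hd1 hdle
    have h8 : ∑ n ∈ (Icc 1 N).filter (fun n : ℕ => (d : ℤ) ∣ ⌊f.eval (n : ℝ)⌋), 1 / (N : ℝ) -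
        (∑ _n ∈ Icc 1 N, 1 / (N : ℝ)) * ∏ p ∈ S, 1 / (p : ℝ) =
        ((((Icc 1 N).filter (fun n : ℕ => (d : ℤ) ∣ ⌊f.eval (n : ℝ)⌋)).card : ℝ) - N / d) / N := by
      have hW : ∑ _n ∈ Icc 1 N, 1 / (N : ℝ) = 1 := by
        rw [Finset.sum_const, Nat.card_Icc, nsmul_eq_mul, Nat.add_sub_cancel]
        field_simp
      have hdR : (0 : ℝ) < d := by exact_mod_cast hd1
      have hP : ∏ p ∈ S, 1 / (p : ℝ) = 1 / d := by
        rw [hd, Finset.prod_div_distrib, Finset.prod_const_one]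
        push_cast
        rfl
      rw [hW, hP, Finset.sum_const, nsmul_eq_mul]
      field_simp
    have h9 : |∑ n ∈ (Icc 1 N).filter (fun n : ℕ => (d : ℤ) ∣ ⌊f.eval (n : ℝ)⌋), 1 / (N : ℝ) -
        (∑ _n ∈ Icc 1 N, 1 / (N : ℝ)) * ∏ p ∈ S, 1 / (p : ℝ)| ≤ (T : ℝ) ^ (-c) := by
      rw [h8, abs_div, abs_of_pos hNpos, div_le_iff₀ hNpos, mul_comm]
      exact h7
    refine le_trans (le_of_eq ?_) h9
    congr 2
    exact Finset.sum_congr (min_filter_congr _ _ _ _ _ fun n _ => hiff _) fun _ _ => rfl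

end EK75
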