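import Pool.Agent.H75.EK.PbAlt

/-! Module PB: the law of `t(n)` gives little mass to sparse sets. -/

open Polynomial Finset
open scoped Real BigOperators

namespace EK75

open Classical in
theorem pb (k : ℕ) (hk : 1 ≤ k) (c' : ℝ) (hc' : 0 < c') : ∃ c C : ℝ, 0 < c ∧ 0 < C ∧
    ∀ f : ℝ[X], f.natDegree = k → ∀ (N T q : ℕ) (a : ℕ → ℤ), MajD f N T q a → T ^ 4 ≤ N →
    ∀ B : Finset ℤ,
    (((Icc 1 N).filter (fun n => tt f q a n ∈ B)).card : ℝ) ≤
      N * (C * (T : ℝ) ^ (-c) + C * (T : ℝ) ^ (c' - 1) * B.card) :=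
  pb_alt k hk c' hc'

end EK75
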