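import Pool.Agent.H75.EK.Pb1

/-! Module PB2: solutions of `F(x) ≡ t (mod q)` weighted by `gcd(F'(x), q)`. -/

open Polynomial Finset
open scoped Real BigOperators

namespace EK75

/-! ### Multiplicativity -/

theorem pb2_gcd_congr {a b : ℤ} {q : ℕ} (h : (q : ℤ) ∣ a - b) : Int.gcd a q = Int.gcd b q := by
  apply Nat.dvd_antisymm
  · apply Int.dvd_gcd
    · have h1 : ((Int.gcd a q : ℕ) : ℤ) ∣ a := Int.gcd_dvd_left ..
      have h2 : ((Int.gcd a q : ℕ) : ℤ) ∣ (q : ℤ) := Int.gcd_dvd_right ..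
      have h3 := dvd_sub h1 (h2.trans h)
      simpa using h3
    · exact Int.gcd_dvd_right ..
  · apply Int.dvd_gcd
    · have h1 : ((Int.gcd b q : ℕ) : ℤ) ∣ b := Int.gcd_dvd_left ..
      have h2 : ((Int.gcd b q : ℕ) : ℤ) ∣ (q : ℤ) := Int.gcd_dvd_right ..
      have h3 := dvd_add h1 (h2.trans h)
      simpa using h3
    · exact Int.gcd_dvd_right ..

theorem pb2_dvd_mod (x a : ℕ) : (a : ℤ) ∣ (x : ℤ) - ((x % a : ℕ) : ℤ) := by
  refine ⟨((x / a : ℕ) : ℤ), ?_⟩
  have h : ((a * (x / a) + x % a : ℕ) : ℤ) = (x : ℤ) := by rw [Nat.div_add_mod]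
  push_cast at h ⊢
  linarith

theorem pb2_sum_mul (f : ℕ → ℤ → ℝ) (hper : ∀ q : ℕ, ∀ x y : ℤ, (q : ℤ) ∣ x - y → f q x = f q y)
    (hmul : ∀ a b : ℕ, Nat.Coprime a b → ∀ x, f (a * b) x = f a x * f b x) {a b : ℕ} (ha : a ≠ 0)
    (hb : b ≠ 0) (h : Nat.Coprime a b) :
    ∑ x ∈ range (a * b), f (a * b) x = (∑ x ∈ range a, f a x) * (∑ x ∈ range b, f b x) := by
  rw [Finset.sum_mul_sum, ← Finset.sum_product']
  refine Finset.sum_nbij' (fun x => (x % a, x % b)) (fun u => (Nat.chineseRemainder h u.1 u.2 : ℕ))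
    ?_ ?_ ?_ ?_ ?_
  · intro x _
    simp only [Finset.mem_product, Finset.mem_range]
    exact ⟨Nat.mod_lt _ (Nat.pos_of_ne_zero ha), Nat.mod_lt _ (Nat.pos_of_ne_zero hb)⟩
  · intro u _
    simp only [Finset.mem_range]
    exact Nat.chineseRemainder_lt_mul h _ _ ha hb
  · intro x hx
    simp only [Finset.mem_range] at hx
    have h1 := (Nat.chineseRemainder h (x % a) (x % b)).2
    have h2 := Nat.chineseRemainder_lt_mul h (x % a) (x % b) ha hb
    have h3 : (Nat.chineseRemainder h (x % a) (x % b) : ℕ) ≡ x [MOD a * b] := by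
      rw [← Nat.modEq_and_modEq_iff_modEq_mul h]
      exact ⟨h1.1.trans (Nat.mod_modEq _ _), h1.2.trans (Nat.mod_modEq _ _)⟩
    exact Nat.ModEq.eq_of_lt_of_lt h3 h2 hx
  · rintro ⟨u, v⟩ huv
    simp only [Finset.mem_product, Finset.mem_range] at huv
    have h1 := (Nat.chineseRemainder h u v).2
    simp only [Prod.mk.injEq]
    exact ⟨by rw [h1.1, Nat.mod_eq_of_lt huv.1], by rw [h1.2, Nat.mod_eq_of_lt huv.2]⟩
  · intro x _
    simp only
    rw [hmul a b h]
    congr 1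
    · apply hper
      exact pb2_dvd_mod x a
    · apply hper
      exact pb2_dvd_mod x b

/-- The general multiplicative bound. -/
theorem pb2_sum_le (f : ℕ → ℤ → ℝ) (hf0 : ∀ q x, 0 ≤ f q x)
    (hper : ∀ q : ℕ, ∀ x y : ℤ, (q : ℤ) ∣ x - y → f q x = f q y)
    (hmul : ∀ a b : ℕ, Nat.Coprime a b → ∀ x, f (a * b) x = f a x * f b x)
    (B : ℕ → ℝ) (hB0 : ∀ q, 0 ≤ B q) (hB1 : f 1 0 ≤ B 1)
    (hBmul : ∀ a b : ℕ, 1 < a → 1 < b → Nat.Coprime a b → B a * B b ≤ B (a * b))
    (Good : ℕ → Prop) (hgood : ∀ a b, Good (a * b) → Good a ∧ Good b)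
    (hloc : ∀ p e : ℕ, p.Prime → 0 < e → Good (p ^ e) → ∑ x ∈ range (p ^ e), f (p ^ e) x ≤ B (p ^ e))
    (q : ℕ) (hq : 1 ≤ q) (hG : Good q) : ∑ x ∈ range q, f q x ≤ B q := by
  induction q using Nat.recOnPosPrimePosCoprime with
  | prime_pow p n hp hn => exact hloc p n hp hn hG
  | zero => omega
  | one => simpa using hB1
  | coprime a b ha hb h iha ihb =>
    obtain ⟨hGa, hGb⟩ := hgood a b hG
    rw [pb2_sum_mul f hper hmul (by omega) (by omega) h]
    refine le_trans ?_ (hBmul a b ha hb h)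
    exact mul_le_mul (iha (by omega) hGa) (ihb (by omega) hGb)
      (Finset.sum_nonneg fun x _ => hf0 _ _) (hB0 _)

/-! ### Taylor -/

theorem pb2_taylor (F : ℤ[X]) (x y : ℤ) :
    ∃ k : ℤ, F.eval y - F.eval x = (derivative F).eval x * (y - x) + k * (y - x) ^ 2 := by
  obtain ⟨k, h⟩ := Polynomial.binomExpansion F x (y - x)
  refine ⟨k, ?_⟩
  rw [add_sub_cancel] at h
  rw [h]; ring

theorem pb2_close (F : ℤ[X]) (p e v : ℕ) (hp : p.Prime) (t x y : ℤ)
    (hx : ((p : ℤ) ^ e) ∣ F.eval x - t) (hy : ((p : ℤ) ^ e) ∣ F.eval y - t)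
    (hv : ¬ ((p : ℤ) ^ (v + 1) ∣ (derivative F).eval x)) (hxy : ((p : ℤ) ^ (v + 1)) ∣ y - x) :
    ((p : ℤ) ^ (e - v)) ∣ y - x := by
  have hpz : Prime (p : ℤ) := Nat.prime_iff_prime_int.mp hp
  have hp0 : (p : ℤ) ≠ 0 := hpz.ne_zero
  rcases eq_or_ne (y - x) 0 with h0 | h0
  · rw [h0]; exact dvd_zero _
  have hfin : FiniteMultiplicity (p : ℤ) (y - x) := by
    rw [Int.finiteMultiplicity_iff]
    exact ⟨by simpa using hp.ne_one, h0⟩
  obtain ⟨u, hu, hndvd⟩ := hfin.exists_eq_pow_mul_and_not_dvd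
  set w := multiplicity (p : ℤ) (y - x) with hw
  by_contra hcon
  have hwe : w < e - v := by
    by_contra hge
    push Not at hge
    apply hcon
    rw [hu]
    exact (pow_dvd_pow _ hge).mul_right _
  have hwv : v + 1 ≤ w := by
    by_contra hlt
    push Not at hlt
    have h1 : ((p : ℤ) ^ (w + 1)) ∣ y - x := (pow_dvd_pow _ (by omega)).trans hxy
    rw [hu, pow_succ] at h1
    exact hndvd ((mul_dvd_mul_iff_left (pow_ne_zero w hp0)).mp h1)
  obtain ⟨k, hk⟩ := pb2_taylor F x y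
  have h1 : ((p : ℤ) ^ (w + (v + 1))) ∣ F.eval y - F.eval x := by
    have := dvd_sub hy hx
    rw [sub_sub_sub_cancel_right] at this
    exact (pow_dvd_pow _ (by omega)).trans this
  have h2 : ((p : ℤ) ^ (w + (v + 1))) ∣ k * (y - x) ^ 2 := by
    apply Dvd.dvd.mul_left
    rw [sq, pow_add]
    apply mul_dvd_mul
    · rw [hu]; exact dvd_mul_right _ _
    · exact hxy
  have h3 : ((p : ℤ) ^ (w + (v + 1))) ∣ (derivative F).eval x * (y - x) := by
    have h4 := dvd_sub h1 h2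
    rw [hk, add_sub_cancel_right] at h4
    exact h4
  rw [hu, pow_add, mul_left_comm] at h3
  have h5 := (mul_dvd_mul_iff_left (pow_ne_zero w hp0)).mp h3
  exact hv (hpz.pow_dvd_of_dvd_mul_right _ hndvd h5)

/-- the solutions with `gcd = p^v` -/
noncomputable def pb2A (F : ℤ[X]) (t : ℤ) (p e v : ℕ) : Finset ℕ :=
  (range (p ^ e)).filter (fun x : ℕ => ((p ^ e : ℕ) : ℤ) ∣ F.eval (x : ℤ) - t ∧
    Int.gcd ((derivative F).eval (x : ℤ)) ((p ^ e : ℕ) : ℤ) = p ^ v)

theorem pb2_not_dvd {a : ℤ} {p e v : ℕ} (hp : p.Prime) (hve : v < e)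
    (h : Int.gcd a ((p ^ e : ℕ) : ℤ) = p ^ v) : ¬ ((p : ℤ) ^ (v + 1) ∣ a) := by
  intro hd
  have h1 : p ^ (v + 1) ∣ Int.gcd a ((p ^ e : ℕ) : ℤ) := by
    apply Int.dvd_gcd
    · push_cast; exact hd
    · push_cast; exact pow_dvd_pow _ hve
  rw [h] at h1
  exact absurd (Nat.le_of_dvd (pow_pos hp.pos _) h1)
    (not_le.mpr (Nat.pow_lt_pow_right hp.one_lt (Nat.lt_succ_self v)))

theorem pb2A_zero (k : ℕ) (F : ℤ[X]) (hF : F.natDegree ≤ k) (t : ℤ) (p e : ℕ) (hp : p.Prime) (he : 0 < e)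
    (hc : ∃ j, 1 ≤ j ∧ ¬ ((p : ℤ) ∣ F.coeff j)) : (pb2A F t p e 0).card ≤ k := by
  have : Fact p.Prime := ⟨hp⟩
  set G : (ZMod p)[X] := (F - C t).map (Int.castRingHom (ZMod p)) with hG
  have hG0 : G ≠ 0 := by
    obtain ⟨j, hj1, hj⟩ := hc
    intro h0
    apply hj
    have h1 : G.coeff j = 0 := by rw [h0]; simp
    rw [hG, coeff_map, coeff_sub, coeff_C, if_neg (by omega), sub_zero] at h1
    exact (ZMod.intCast_zmod_eq_zero_iff_dvd _ _).mp (by simpa using h1)
  have hGd : G.natDegree ≤ k := by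
    refine le_trans (natDegree_map_le) ?_
    refine le_trans (natDegree_sub_le _ _) ?_
    simp [hF]
  have hinj : Set.InjOn (fun x : ℕ => (x : ZMod p)) (pb2A F t p e 0 : Set ℕ) := by
    intro x hx y hy hxy
    simp only [pb2A, Finset.coe_filter, Finset.mem_range, Set.mem_ofPred_eq] at hx hy
    have h1 : ((p : ℤ) ^ (0 + 1)) ∣ (y : ℤ) - x := by
      rw [zero_add, pow_one]
      apply (ZMod.intCast_zmod_eq_zero_iff_dvd _ _).mp
      push_cast
      rw [sub_eq_zero]; exact hxy.symm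
    have h2 := pb2_close F p e 0 hp t x y (by simpa using hx.2.1) (by simpa using hy.2.1)
      (pb2_not_dvd hp he hx.2.2) h1
    rw [Nat.sub_zero] at h2
    have h3 : y ≡ x [MOD p ^ e] := by
      rw [Nat.modEq_iff_dvd]
      have := (dvd_neg.mpr h2)
      rw [neg_sub] at this
      exact_mod_cast this
    exact (Nat.ModEq.eq_of_lt_of_lt h3 hy.1 hx.1).symm
  calc (pb2A F t p e 0).card = ((pb2A F t p e 0).image (fun x : ℕ => (x : ZMod p))).card := by
        rw [Finset.card_image_of_injOn hinj]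
    _ ≤ G.roots.toFinset.card := by
        apply Finset.card_le_card
        intro z hz
        simp only [Finset.mem_image] at hz
        obtain ⟨x, hx, rfl⟩ := hz
        simp only [pb2A, Finset.mem_filter, Finset.mem_range] at hx
        rw [Multiset.mem_toFinset, mem_roots hG0, IsRoot.def, hG]
        have h1 : ((F - C t).map (Int.castRingHom (ZMod p))).eval ((x : ℤ) : ZMod p) =
            (((F - C t).eval (x : ℤ) : ℤ) : ZMod p) := by
          have := Polynomial.eval_map_apply (p := F - C t) (f := Int.castRingHom (ZMod p)) (x : ℤ)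
          simpa using this
        rw [Int.cast_natCast] at h1
        rw [h1, ZMod.intCast_zmod_eq_zero_iff_dvd]
        simp only [eval_sub, eval_C]
        refine dvd_trans ?_ hx.2.1
        push_cast
        exact dvd_pow_self _ he.ne'
    _ ≤ k := (Multiset.toFinset_card_le _).trans ((card_roots' _).trans hGd)

theorem pb2A_pos (F : ℤ[X]) (t : ℤ) (p e v : ℕ) (hp : p.Prime) (hv : 1 ≤ v) :
    (pb2A F t p e v).card ≤ p ^ (3 * v) := by
  rcases Nat.lt_or_ge (3 * v) e with h | h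
  · have h1 : (pb2A F t p e v).card ≤ p ^ v * (range (p ^ (v + 1))).card := by
      apply Finset.card_le_mul_card_image_of_maps_to (f := fun x => x % p ^ (v + 1))
      · intro x _
        simp only [Finset.mem_range]
        exact Nat.mod_lt _ (pow_pos hp.pos _)
      · intro b _
        rw [← Finset.card_range (p ^ v)]
        apply Finset.card_le_card_of_injOn (fun x => x / p ^ (e - v))
        · intro x hx
          simp only [Finset.coe_filter, Set.mem_ofPred_eq, pb2A, Finset.mem_filter, Finset.mem_range] at hx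
          simp only [Finset.coe_range, Set.mem_Iio]
          rw [Nat.div_lt_iff_lt_mul (pow_pos hp.pos _), ← pow_add]
          have : v + (e - v) = e := by omega
          rw [this]; exact hx.1.1
        · intro x hx y hy hxy
          simp only [Finset.coe_filter, Set.mem_ofPred_eq, pb2A, Finset.mem_filter, Finset.mem_range] at hx hy
          have h2 : ((p : ℤ) ^ (v + 1)) ∣ (y : ℤ) - x := by
            have h3 : x ≡ y [MOD p ^ (v + 1)] := by rw [Nat.ModEq, hx.2, hy.2]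
            rw [Nat.modEq_iff_dvd] at h3
            exact_mod_cast h3
          have h4 := pb2_close F p e v hp t x y (by simpa using hx.1.2.1) (by simpa using hy.1.2.1)
            (pb2_not_dvd hp (by omega) hx.1.2.2) h2
          have h5 : x ≡ y [MOD p ^ (e - v)] := by
            rw [Nat.modEq_iff_dvd]
            exact_mod_cast h4
          simp only at hxy
          rw [← Nat.div_add_mod x (p ^ (e - v)), ← Nat.div_add_mod y (p ^ (e - v)), hxy, h5]
    calc (pb2A F t p e v).card ≤ p ^ v * (range (p ^ (v + 1))).card := h1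
      _ = p ^ (v + (v + 1)) := by rw [Finset.card_range, ← pow_add]
      _ ≤ p ^ (3 * v) := Nat.pow_le_pow_right hp.pos (by omega)
  · calc (pb2A F t p e v).card ≤ (range (p ^ e)).card := Finset.card_filter_le _ _
      _ = p ^ e := Finset.card_range _
      _ ≤ p ^ (3 * v) := Nat.pow_le_pow_right hp.pos h

/-- decomposition by the value `p^v` of the gcd -/
theorem pb2_split (P : ℕ → Prop) [DecidablePred P] (a : ℕ → ℤ) (p e : ℕ) (hp : p.Prime) (g : ℕ → ℝ)
    (hg : ∀ n, 0 ≤ g n) :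
    ∑ x ∈ (range (p ^ e)).filter P, g (Int.gcd (a x) ((p ^ e : ℕ) : ℤ)) ≤
      ∑ v ∈ range (e + 1), (((range (p ^ e)).filter
        (fun x => P x ∧ Int.gcd (a x) ((p ^ e : ℕ) : ℤ) = p ^ v)).card : ℝ) * g (p ^ v) := by
  have h1 : ∀ x ∈ (range (p ^ e)).filter P, g (Int.gcd (a x) ((p ^ e : ℕ) : ℤ)) ≤
      ∑ v ∈ range (e + 1), if Int.gcd (a x) ((p ^ e : ℕ) : ℤ) = p ^ v then g (p ^ v) else 0 := by
    intro x _
    have h2 : Int.gcd (a x) ((p ^ e : ℕ) : ℤ) ∣ p ^ e := by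
      have := Int.gcd_dvd_right (a := a x) (b := ((p ^ e : ℕ) : ℤ))
      exact_mod_cast this
    obtain ⟨v, hv, hv2⟩ := (Nat.dvd_prime_pow hp).mp h2
    have h3 := Finset.single_le_sum (s := range (e + 1))
      (f := fun v => if Int.gcd (a x) ((p ^ e : ℕ) : ℤ) = p ^ v then g (p ^ v) else 0)
      (fun w _ => by
        split_ifs
        · exact hg _
        · exact le_refl _) (Finset.mem_range.mpr (Nat.lt_succ_of_le hv))
    simp only [hv2, if_true] at h3 ⊢
    exact h3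
  refine (Finset.sum_le_sum h1).trans ?_
  rw [Finset.sum_comm]
  apply le_of_eq
  apply Finset.sum_congr rfl
  intro v _
  rw [← Finset.sum_filter, Finset.filter_filter, Finset.sum_const, nsmul_eq_mul]

theorem pb2_wloc (k : ℕ) (hk : 1 ≤ k) (F : ℤ[X]) (hF : F.natDegree ≤ k) (t : ℤ) (p e : ℕ) (hp : p.Prime)
    (he : 0 < e) (hc : ∃ j, 1 ≤ j ∧ ¬ ((p : ℤ) ∣ F.coeff j)) :
    ∑ x ∈ (range (p ^ e)).filter (fun x : ℕ => ((p ^ e : ℕ) : ℤ) ∣ F.eval (x : ℤ) - t),
      (((Int.gcd ((derivative F).eval (x : ℤ)) ((p ^ e : ℕ) : ℤ) : ℕ) : ℝ) ^ 3)⁻¹ ≤ k * (e + 1) := by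
  refine (pb2_split (fun x : ℕ => ((p ^ e : ℕ) : ℤ) ∣ F.eval (x : ℤ) - t)
    (fun x : ℕ => (derivative F).eval (x : ℤ)) p e hp (fun n => ((n : ℝ) ^ 3)⁻¹)
    (fun n => by positivity)).trans ?_
  rw [Finset.sum_range_succ', mul_add, mul_one]
  have h0 : (((range (p ^ e)).filter (fun x : ℕ => (((p ^ e : ℕ) : ℤ) ∣ F.eval (x : ℤ) - t) ∧
      Int.gcd ((derivative F).eval (x : ℤ)) ((p ^ e : ℕ) : ℤ) = p ^ 0)).card : ℝ) *
      ((((p ^ 0 : ℕ) : ℝ)) ^ 3)⁻¹ ≤ k := by
    have := pb2A_zero k F hF t p e hp he hc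
    simp only [pow_zero, Nat.cast_one, one_pow, inv_one, mul_one]
    simp only [pb2A, pow_zero] at this
    exact_mod_cast this
  have h1 : ∑ v ∈ range e, (((range (p ^ e)).filter (fun x : ℕ => (((p ^ e : ℕ) : ℤ) ∣ F.eval (x : ℤ) - t) ∧
      Int.gcd ((derivative F).eval (x : ℤ)) ((p ^ e : ℕ) : ℤ) = p ^ (v + 1))).card : ℝ) *
      ((((p ^ (v + 1) : ℕ) : ℝ)) ^ 3)⁻¹ ≤ k * e := by
    calc _ ≤ ∑ v ∈ range e, (1 : ℝ) := by
          apply Finset.sum_le_sum
          intro v _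
          have h2 := pb2A_pos F t p e (v + 1) hp (by omega)
          simp only [pb2A] at h2
          rw [← div_eq_mul_inv, div_le_one (by have := hp.pos; positivity)]
          have h3 : ((p ^ (3 * (v + 1)) : ℕ) : ℝ) = (((p ^ (v + 1) : ℕ) : ℝ)) ^ 3 := by
            push_cast; ring
          rw [← h3]
          exact_mod_cast h2
      _ = e := by simp
      _ ≤ k * e := by
          have : (1 : ℝ) ≤ k := by exact_mod_cast hk
          nlinarith [(Nat.cast_nonneg e : (0 : ℝ) ≤ e)]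
  exact add_le_add h1 h0

open Classical in
theorem wsum_le (k : ℕ) (hk : 1 ≤ k) (F : ℤ[X]) (hF : F.natDegree ≤ k) (q : ℕ) (hq : 1 ≤ q)
    (hc : ∀ p : ℕ, p.Prime → p ∣ q → ∃ j, 1 ≤ j ∧ ¬ ((p : ℤ) ∣ F.coeff j)) (t : ℤ) :
    ∑ x ∈ (range q).filter (fun x : ℕ => (q : ℤ) ∣ F.eval (x : ℤ) - t),
      (((Int.gcd ((derivative F).eval (x : ℤ)) q : ℕ) : ℝ) ^ 3)⁻¹ ≤
      (k : ℝ) ^ q.primeFactors.card * q.divisors.card := by
  have key := pb2_sum_le
    (fun q x => if (q : ℤ) ∣ F.eval x - t then (((Int.gcd ((derivative F).eval x) q : ℕ) : ℝ) ^ 3)⁻¹ else 0)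
    (fun q x => by
      split_ifs
      · positivity
      · exact le_refl _)
    (fun q x y hxy => by
      have h1 : (q : ℤ) ∣ F.eval x - F.eval y := hxy.trans (Polynomial.sub_dvd_eval_sub _ _ _)
      have h2 : (q : ℤ) ∣ (derivative F).eval x - (derivative F).eval y :=
        hxy.trans (Polynomial.sub_dvd_eval_sub _ _ _)
      rw [pb2_gcd_congr h2]
      have h3 : (q : ℤ) ∣ F.eval x - t ↔ (q : ℤ) ∣ F.eval y - t := by
        have h4 : F.eval x - t = (F.eval y - t) + (F.eval x - F.eval y) := by ring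
        rw [h4]
        exact (dvd_add_left h1)
      simp only [h3])
    (fun a b hab x => by
      have h1 : ((a * b : ℕ) : ℤ) ∣ F.eval x - t ↔ ((a : ℤ) ∣ F.eval x - t ∧ (b : ℤ) ∣ F.eval x - t) := by
        push_cast
        constructor
        · intro h
          exact ⟨(dvd_mul_right _ _).trans h, (dvd_mul_left _ _).trans h⟩
        · rintro ⟨h2, h3⟩
          exact IsCoprime.mul_dvd (Nat.isCoprime_iff_coprime.mpr hab) h2 h3
      have h2 : Int.gcd ((derivative F).eval x) ((a * b : ℕ) : ℤ) =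
          Int.gcd ((derivative F).eval x) a * Int.gcd ((derivative F).eval x) b := by
        simp only [Int.gcd, Int.natAbs_natCast]
        exact Nat.Coprime.gcd_mul _ hab
      simp only [h1, h2]
      by_cases ha : (a : ℤ) ∣ F.eval x - t <;> by_cases hb : (b : ℤ) ∣ F.eval x - t <;>
        simp [ha, hb, mul_pow, mul_comm])
    (fun q => (k : ℝ) ^ q.primeFactors.card * q.divisors.card)
    (fun q => by positivity)
    (by
      simp)
    (fun a b ha hb hab => by
      rw [Nat.Coprime.primeFactors_mul hab, Finset.card_union_of_disjoint (Nat.Coprime.disjoint_primeFactors hab),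
        Nat.Coprime.card_divisors_mul hab, pow_add]
      push_cast
      apply le_of_eq; ring)
    (fun q => ∀ p : ℕ, p.Prime → p ∣ q → ∃ j, 1 ≤ j ∧ ¬ ((p : ℤ) ∣ F.coeff j))
    (fun a b h => ⟨fun p hp hpa => h p hp (hpa.trans (dvd_mul_right _ _)),
      fun p hp hpb => h p hp (hpb.trans (dvd_mul_left _ _))⟩)
    (fun p e hp he hG => by
      rw [← Finset.sum_filter]
      refine (pb2_wloc k hk F hF t p e hp he (hG p hp (dvd_pow_self _ he.ne'))).trans ?_
      rw [Nat.primeFactors_prime_pow he.ne' hp, Nat.divisors_prime_pow hp]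
      simp)
    q hq hc
  rw [← Finset.sum_filter] at key
  exact key

theorem pb2_vcount (k : ℕ) (hk : 1 ≤ k) (F : ℤ[X]) (hF : F.natDegree ≤ k) (p e v : ℕ) (hp : p.Prime)
    (hve : v ≤ e) (hc : ∃ j, 1 ≤ j ∧ ¬ ((p : ℤ) ∣ F.coeff j)) :
    (((range (p ^ e)).filter (fun x : ℕ => (p : ℤ) ^ v ∣ (derivative F).eval (x : ℤ))).card : ℝ) ≤
      2 * (k : ℝ) ^ 2 * (p : ℝ) ^ e * (p : ℝ) ^ (-(v : ℝ) / k) := by
  have hpz : Prime (p : ℤ) := Nat.prime_iff_prime_int.mp hp
  have hp0 : (0 : ℝ) < p := by exact_mod_cast hp.pos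
  have hp1 : (1 : ℝ) ≤ p := by exact_mod_cast hp.one_lt.le
  have hk0 : (0 : ℝ) < k := by exact_mod_cast hk
  have hk1 : (1 : ℝ) ≤ k := by exact_mod_cast hk
  obtain ⟨j, hj1, hj⟩ := hc
  have hj0 : F.coeff j ≠ 0 := fun h => hj (by rw [h]; exact dvd_zero _)
  have hjk : j ≤ k := (le_natDegree_of_ne_zero hj0).trans hF
  have hco : (derivative F).coeff (j - 1) = F.coeff j * j := by
    rw [coeff_derivative, Nat.sub_add_cancel hj1]
    congr 1
    rw [Nat.cast_sub hj1]; ring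
  have hd0 : derivative F ≠ 0 := by
    intro h
    rw [h, coeff_zero] at hco
    have : (F.coeff j) * (j : ℤ) ≠ 0 := mul_ne_zero hj0 (by exact_mod_cast (by omega : j ≠ 0))
    exact this hco.symm
  set c := (derivative F).content with hcdef
  have hc0 : c ≠ 0 := by
    rw [hcdef, Ne, content_eq_zero_iff]; exact hd0
  have hfin : FiniteMultiplicity (p : ℤ) c := by
    rw [Int.finiteMultiplicity_iff]
    exact ⟨by simpa using hp.ne_one, hc0⟩
  obtain ⟨c', hc1, hc2⟩ := hfin.exists_eq_pow_mul_and_not_dvd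
  set v0 := multiplicity (p : ℤ) c with hv0
  have hv0k : (p : ℝ) ^ v0 ≤ k := by
    have h1 : ((p : ℤ) ^ v0) ∣ F.coeff j * j := by
      rw [← hco]
      refine dvd_trans ?_ (content_dvd_coeff (j - 1))
      rw [← hcdef, hc1]
      exact dvd_mul_right _ _
    have h2 : ((p : ℤ) ^ v0) ∣ (j : ℤ) := hpz.pow_dvd_of_dvd_mul_left _ hj h1
    have h3 : p ^ v0 ∣ j := by exact_mod_cast h2
    have h4 : p ^ v0 ≤ k := (Nat.le_of_dvd (by omega) h3).trans hjk
    exact_mod_cast h4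
  rcases Nat.lt_or_ge v0 v |>.symm with hv | hv
  · have h1 : (((range (p ^ e)).filter (fun x : ℕ => (p : ℤ) ^ v ∣ (derivative F).eval (x : ℤ))).card : ℝ) ≤
        (p : ℝ) ^ e := by
      have := (Finset.card_filter_le (range (p ^ e))
        (fun x : ℕ => (p : ℤ) ^ v ∣ (derivative F).eval (x : ℤ)))
      rw [Finset.card_range] at this
      exact_mod_cast this
    have h2 : (p : ℝ) ^ ((v : ℝ) / k) ≤ k := by
      calc (p : ℝ) ^ ((v : ℝ) / k) ≤ (p : ℝ) ^ (v : ℝ) := by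
            apply Real.rpow_le_rpow_of_exponent_le hp1
            exact div_le_self (Nat.cast_nonneg _) hk1
        _ = (p : ℝ) ^ v := Real.rpow_natCast _ _
        _ ≤ (p : ℝ) ^ v0 := pow_le_pow_right₀ hp1 hv
        _ ≤ k := hv0k
    have h3 : (1 : ℝ) ≤ 2 * (k : ℝ) ^ 2 * (p : ℝ) ^ (-(v : ℝ) / k) := by
      rw [neg_div, Real.rpow_neg hp0.le, ← div_eq_mul_inv, le_div_iff₀ (by positivity), one_mul]
      nlinarith
    calc _ ≤ (p : ℝ) ^ e := h1
      _ ≤ (2 * (k : ℝ) ^ 2 * (p : ℝ) ^ (-(v : ℝ) / k)) * (p : ℝ) ^ e :=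
          le_mul_of_one_le_left (by positivity) h3
      _ = _ := by ring
  · set u := v - v0 with hu
    have hu1 : 1 ≤ u := by omega
    set G := (derivative F).primPart with hG
    have hGF : derivative F = C c * G := (derivative F).eq_C_content_mul_primPart
    have hGd : G.natDegree ≤ k - 1 := by
      rw [hG, natDegree_primPart]
      exact (natDegree_derivative_le F).trans (by omega)
    have hGc : ∃ j, ¬ ((p : ℤ) ∣ G.coeff j) := by
      by_contra hcon
      push Not at hcon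
      have h1 : C (p : ℤ) ∣ G := by rw [C_dvd_iff_dvd_coeff]; exact hcon
      exact hpz.not_unit ((isPrimitive_primPart (derivative F)) _ h1)
    set i := (u - 1) / (k - 1) with hi
    have hi1 : (k - 1) * i ≤ u - 1 := Nat.mul_div_le _ _
    have hcc := content_count (k - 1) G hGd p hp hGc u i (by omega) (p ^ e)
    have hsub : (range (p ^ e)).filter (fun x : ℕ => (p : ℤ) ^ v ∣ (derivative F).eval (x : ℤ)) ⊆
        (range (p ^ e)).filter (fun x : ℕ => (p : ℤ) ^ u ∣ G.eval (x : ℤ)) := by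
      intro x hx
      simp only [Finset.mem_filter] at hx ⊢
      refine ⟨hx.1, ?_⟩
      have h1 := hx.2
      rw [hGF, eval_mul, eval_C, hc1, mul_assoc] at h1
      have h2 : v = v0 + u := by omega
      rw [h2, pow_add] at h1
      have h3 := (mul_dvd_mul_iff_left (pow_ne_zero v0 hpz.ne_zero)).mp h1
      exact hpz.pow_dvd_of_dvd_mul_left _ hc2 h3
    have h1 : (((range (p ^ e)).filter (fun x : ℕ => (p : ℤ) ^ v ∣ (derivative F).eval (x : ℤ))).card : ℝ) ≤
        (((k - 1) * (p ^ e / p ^ (i + 1) + 1) : ℕ) : ℝ) := by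
      exact_mod_cast (Finset.card_le_card hsub).trans hcc
    refine h1.trans ?_
    rcases Nat.eq_or_lt_of_le hk with hk' | hk'
    · rw [← hk']
      simp only [Nat.sub_self, Nat.zero_mul, Nat.cast_zero]
      positivity
    · have hD : 1 ≤ k - 1 := by omega
      have hi2 : i ≤ u - 1 := Nat.div_le_self _ _
      have hie : i + 1 ≤ e := by omega
      have hi3 : u ≤ (k - 1) * (i + 1) := by
        have := Nat.lt_mul_div_succ (u - 1) (show 0 < k - 1 by omega)
        rw [← hi] at this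
        omega
      have hi4 : (u : ℝ) ≤ k * ((i : ℝ) + 1) := by
        have : u ≤ k * (i + 1) := hi3.trans (Nat.mul_le_mul_right _ (by omega))
        exact_mod_cast this
      have h2 : p ^ e / p ^ (i + 1) = p ^ (e - (i + 1)) := Nat.pow_div hie hp.pos
      rw [h2]
      have h3 : ((p ^ (e - (i + 1)) : ℕ) : ℝ) = (p : ℝ) ^ e * (p : ℝ) ^ (-((i : ℝ) + 1)) := by
        push_cast
        rw [← Real.rpow_natCast, Nat.cast_sub hie, ← Real.rpow_natCast, ← Real.rpow_add hp0]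
        push_cast; ring_nf
      have h4 : (1 : ℝ) ≤ ((p ^ (e - (i + 1)) : ℕ) : ℝ) := by
        exact_mod_cast Nat.one_le_pow _ _ hp.pos
      have h5 : (p : ℝ) ^ (-((i : ℝ) + 1)) ≤ k * (p : ℝ) ^ (-(v : ℝ) / k) := by
        have h6 : (p : ℝ) ^ (-((i : ℝ) + 1)) ≤ (p : ℝ) ^ ((v0 : ℝ) + -(v : ℝ) / k) := by
          apply Real.rpow_le_rpow_of_exponent_le hp1
          have h7 : (v : ℝ) = v0 + u := by
            have : v = v0 + u := by omega
            exact_mod_cast this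
          have h8 : (u : ℝ) / k ≤ (i : ℝ) + 1 := by
            rw [div_le_iff₀ hk0]; linarith
          have h9 : (v0 : ℝ) / k ≤ v0 := div_le_self (Nat.cast_nonneg _) hk1
          rw [h7, neg_div, add_div]
          linarith
        rw [Real.rpow_add hp0, Real.rpow_natCast] at h6
        exact h6.trans (mul_le_mul_of_nonneg_right hv0k (by positivity))
      have h6 : ((k - 1 : ℕ) : ℝ) ≤ k := by exact_mod_cast Nat.sub_le k 1
      have h7 : (0 : ℝ) ≤ ((k - 1 : ℕ) : ℝ) := Nat.cast_nonneg _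
      rw [Nat.cast_mul, Nat.cast_add, Nat.cast_one]
      calc ((k - 1 : ℕ) : ℝ) * (((p ^ (e - (i + 1)) : ℕ) : ℝ) + 1)
          ≤ k * (2 * ((p ^ (e - (i + 1)) : ℕ) : ℝ)) := by
            apply mul_le_mul h6 (by linarith) (by linarith) hk0.le
        _ = 2 * k * ((p : ℝ) ^ e * (p : ℝ) ^ (-((i : ℝ) + 1))) := by rw [h3]; ring
        _ ≤ 2 * k * ((p : ℝ) ^ e * (k * (p : ℝ) ^ (-(v : ℝ) / k))) := by gcongr
        _ = _ := by ring

theorem pb2_geom (r : ℝ) (h0 : 0 ≤ r) (h1 : r < 1) (n : ℕ) : ∑ i ∈ range n, r ^ i ≤ 1 / (1 - r) := by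
  rw [le_div_iff₀ (by linarith), mul_comm, mul_neg_geom_sum]
  have : 0 ≤ r ^ n := pow_nonneg h0 n
  linarith

theorem vsum_le (k : ℕ) (hk : 1 ≤ k) : ∃ C : ℝ, 1 ≤ C ∧ ∀ (F : ℤ[X]), F.natDegree ≤ k →
    ∀ q : ℕ, 1 ≤ q → (∀ p : ℕ, p.Prime → p ∣ q → ∃ j, 1 ≤ j ∧ ¬ ((p : ℤ) ∣ F.coeff j)) →
    ∑ x ∈ range q, ((Int.gcd ((derivative F).eval (x : ℤ)) q : ℕ) : ℝ) ^ ((1 : ℝ) / (2 * k)) ≤
      C ^ q.primeFactors.card * q := by
  have hk0 : (0 : ℝ) < k := by exact_mod_cast hk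
  have hk1 : (1 : ℝ) ≤ k := by exact_mod_cast hk
  set r0 : ℝ := (2 : ℝ) ^ (-(1 / (2 * (k : ℝ)))) with hr0
  have hr00 : 0 < r0 := by positivity
  have hr01 : r0 < 1 := Real.rpow_lt_one_of_one_lt_of_neg (by norm_num) (by
    rw [neg_lt_zero]; positivity)
  have hC1 : 1 ≤ 2 * (k : ℝ) ^ 2 * (1 / (1 - r0)) := by
    have h1 : 1 ≤ 1 / (1 - r0) := by
      rw [le_div_iff₀ (by linarith)]; linarith
    nlinarith
  refine ⟨2 * (k : ℝ) ^ 2 * (1 / (1 - r0)), hC1, ?_⟩
  intro F hF q hq hc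
  refine pb2_sum_le
    (fun q x => ((Int.gcd ((derivative F).eval x) q : ℕ) : ℝ) ^ ((1 : ℝ) / (2 * k)))
    (fun q x => by positivity)
    (fun q x y hxy => by
      have h2 : (q : ℤ) ∣ (derivative F).eval x - (derivative F).eval y :=
        hxy.trans (Polynomial.sub_dvd_eval_sub _ _ _)
      rw [pb2_gcd_congr h2])
    (fun a b hab x => by
      have h2 : Int.gcd ((derivative F).eval x) ((a * b : ℕ) : ℤ) =
          Int.gcd ((derivative F).eval x) a * Int.gcd ((derivative F).eval x) b := by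
        simp only [Int.gcd, Int.natAbs_natCast]
        exact Nat.Coprime.gcd_mul _ hab
      rw [h2, Nat.cast_mul, Real.mul_rpow (Nat.cast_nonneg _) (Nat.cast_nonneg _)])
    (fun q => (2 * (k : ℝ) ^ 2 * (1 / (1 - r0))) ^ q.primeFactors.card * q)
    (fun q => by
      have : 0 ≤ 2 * (k : ℝ) ^ 2 * (1 / (1 - r0)) := by linarith
      positivity)
    (by simp)
    (fun a b ha hb hab => by
      rw [Nat.Coprime.primeFactors_mul hab, Finset.card_union_of_disjoint (Nat.Coprime.disjoint_primeFactors hab),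
        pow_add]
      push_cast
      apply le_of_eq; ring)
    (fun q => ∀ p : ℕ, p.Prime → p ∣ q → ∃ j, 1 ≤ j ∧ ¬ ((p : ℤ) ∣ F.coeff j))
    (fun a b h => ⟨fun p hp hpa => h p hp (hpa.trans (dvd_mul_right _ _)),
      fun p hp hpb => h p hp (hpb.trans (dvd_mul_left _ _))⟩)
    (fun p e hp he hG => ?_)
    q hq hc
  have hp0 : (0 : ℝ) < p := by exact_mod_cast hp.pos
  have hp2 : (2 : ℝ) ≤ p := by exact_mod_cast hp.two_le
  have hcp := hG p hp (dvd_pow_self _ he.ne')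
  have h1 := pb2_split (fun _ : ℕ => True) (fun x : ℕ => (derivative F).eval (x : ℤ)) p e hp
    (fun n => (n : ℝ) ^ ((1 : ℝ) / (2 * k))) (fun n => by positivity)
  rw [Finset.filter_true_of_mem (fun _ _ => trivial)] at h1
  refine h1.trans ?_
  rw [Nat.primeFactors_prime_pow he.ne' hp, Finset.card_singleton, pow_one]
  set r : ℝ := (p : ℝ) ^ (-(1 / (2 * (k : ℝ)))) with hr
  have hrr0 : r ≤ r0 := Real.rpow_le_rpow_of_nonpos (by norm_num) hp2 (by
    rw [neg_nonpos]; positivity)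
  have hr0' : 0 ≤ r := by positivity
  have hterm : ∀ v ∈ range (e + 1), (((range (p ^ e)).filter
        (fun x : ℕ => True ∧ Int.gcd ((derivative F).eval (x : ℤ)) ((p ^ e : ℕ) : ℤ) = p ^ v)).card : ℝ) *
          (((p ^ v : ℕ) : ℝ)) ^ ((1 : ℝ) / (2 * k)) ≤ 2 * (k : ℝ) ^ 2 * (p : ℝ) ^ e * r ^ v := by
    intro v hv
    rw [Finset.mem_range] at hv
    have h2 := pb2_vcount k hk F hF p e v hp (by omega) hcp
    have h3 : (((range (p ^ e)).filter
        (fun x : ℕ => True ∧ Int.gcd ((derivative F).eval (x : ℤ)) ((p ^ e : ℕ) : ℤ) = p ^ v)).card : ℝ) ≤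
        (((range (p ^ e)).filter (fun x : ℕ => (p : ℤ) ^ v ∣ (derivative F).eval (x : ℤ))).card : ℝ) := by
      norm_cast
      apply Finset.card_le_card
      intro x hx
      simp only [Finset.mem_filter, true_and] at hx ⊢
      refine ⟨hx.1, ?_⟩
      have h4 : ((Int.gcd ((derivative F).eval (x : ℤ)) ((p ^ e : ℕ) : ℤ) : ℕ) : ℤ) ∣
        (derivative F).eval (x : ℤ) := Int.gcd_dvd_left ..
      rw [hx.2] at h4
      exact_mod_cast h4
    have h5 : (((p ^ v : ℕ) : ℝ)) ^ ((1 : ℝ) / (2 * k)) = (p : ℝ) ^ ((v : ℝ) / (2 * k)) := by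
      push_cast
      rw [← Real.rpow_natCast, ← Real.rpow_mul hp0.le]
      congr 1; ring
    have h6 : r ^ v = (p : ℝ) ^ (-(v : ℝ) / k) * (p : ℝ) ^ ((v : ℝ) / (2 * k)) := by
      rw [hr, ← Real.rpow_natCast, ← Real.rpow_mul hp0.le, ← Real.rpow_add hp0]
      congr 1
      field_simp
      ring
    rw [h5, h6]
    calc _ ≤ (2 * (k : ℝ) ^ 2 * (p : ℝ) ^ e * (p : ℝ) ^ (-(v : ℝ) / k)) * (p : ℝ) ^ ((v : ℝ) / (2 * k)) := by
          apply mul_le_mul_of_nonneg_right (h3.trans h2) (by positivity)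
      _ = _ := by ring
  refine (Finset.sum_le_sum hterm).trans ?_
  rw [← Finset.mul_sum]
  have h7 : ∑ v ∈ range (e + 1), r ^ v ≤ 1 / (1 - r0) := by
    refine (pb2_geom r hr0' (by linarith) (e + 1)).trans ?_
    apply one_div_le_one_div_of_le (by linarith) (by linarith)
  calc 2 * (k : ℝ) ^ 2 * (p : ℝ) ^ e * ∑ v ∈ range (e + 1), r ^ v
      ≤ 2 * (k : ℝ) ^ 2 * (p : ℝ) ^ e * (1 / (1 - r0)) := by gcongr
    _ = _ := by push_cast; ring

end EK75
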