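import Pool.Agent.H75.EK.Defs

/-! Module PB4: sublevel sets and sign changes of real polynomials, counting in progressions. -/

open Polynomial Finset
open scoped Real BigOperators

namespace EK75

/-- Division by `X - x`. -/
theorem pb4_div (P : ℝ[X]) (x : ℝ) (D : ℕ) (hP : P.natDegree ≤ D + 1) :
    ∃ P1 : ℝ[X], P1.natDegree ≤ D ∧ P = C (P.eval x) + (X - C x) * P1 := by
  refine ⟨P /ₘ (X - C x), ?_, ?_⟩
  · rw [natDegree_divByMonic _ (monic_X_sub_C x), natDegree_X_sub_C]
    omega
  · conv_lhs => rw [← modByMonic_add_div P (X - C x), modByMonic_X_sub_C_eq_C_eval]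

/-- Interpolation bound for the coefficients. -/
theorem pb4_coeff (N : ℕ) (hN : 1 ≤ N) (s : ℕ) (hs : 1 ≤ s) (D : ℕ) :
    ∀ (P : ℝ[X]), P.natDegree ≤ D → ∀ (e : ℝ), 0 ≤ e → ∀ (A : Finset ℕ), A ⊆ Icc 1 N →
      D * s + 1 ≤ A.card → (∀ n ∈ A, |P.eval (n : ℝ)| ≤ e) →
      ∀ j, |P.coeff j| * (N : ℝ) ^ j ≤ e * (5 * N / s) ^ D := by
  induction D with
  | zero =>
    intro P hP e he A hA hc hPA j
    have hP0 : P.natDegree = 0 := by omega
    obtain ⟨c, rfl⟩ := natDegree_eq_zero.1 hP0
    have hne : A.Nonempty := by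
      rw [← Finset.card_pos]
      omega
    obtain ⟨n, hn⟩ := hne
    have h1 := hPA n hn
    rw [eval_C] at h1
    rcases Nat.eq_zero_or_pos j with rfl | hj
    · simpa using h1
    · rw [coeff_C, if_neg (by omega)]
      simpa using he
  | succ D ih =>
    intro P hP e he A hA hc hPA j
    have hNR : (1 : ℝ) ≤ N := by exact_mod_cast hN
    have hsR : (1 : ℝ) ≤ s := by exact_mod_cast hs
    have hne : A.Nonempty := by
      rw [← Finset.card_pos]
      omega
    set x := A.min' hne with hx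
    have hxA : x ∈ A := Finset.min'_mem A hne
    have hxN := Finset.mem_Icc.1 (hA hxA)
    obtain ⟨P1, hd, hPeq⟩ := pb4_div P (x : ℝ) D hP
    set A' := A.filter (fun n => x + s ≤ n) with hA'
    have hAle : ∀ n ∈ A, x ≤ n := fun n hn => Finset.min'_le A n hn
    have hcard : D * s + 1 ≤ A'.card := by
      have h1 : (A.filter (fun n => ¬ (x + s ≤ n))).card ≤ s := by
        have h2 : A.filter (fun n => ¬ (x + s ≤ n)) ⊆ Finset.Ico x (x + s) := by
          intro n hn
          rw [Finset.mem_filter] at hn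
          rw [Finset.mem_Ico]
          exact ⟨hAle n hn.1, by omega⟩
        have h3 := Finset.card_le_card h2
        rw [Nat.card_Ico] at h3
        omega
      have h4 := Finset.card_filter_add_card_filter_not (s := A) (fun n => x + s ≤ n)
      have h5 : (D + 1) * s = D * s + s := by ring
      rw [h5] at hc
      have h6 : A'.card = (A.filter (fun n => x + s ≤ n)).card := by rw [hA']
      omega
    have hev : ∀ y : ℝ, P.eval y = P.eval (x : ℝ) + (y - x) * P1.eval y := by
      intro y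
      conv_lhs => rw [hPeq]
      simp
    have hsN : (s : ℝ) ≤ N := by
      have h1 : A'.Nonempty := by
        rw [← Finset.card_pos]
        omega
      obtain ⟨n, hn⟩ := h1
      rw [hA', Finset.mem_filter] at hn
      have h2 := Finset.mem_Icc.1 (hA hn.1)
      have : s ≤ N := by omega
      exact_mod_cast this
    have hP1 : ∀ n ∈ A', |P1.eval (n : ℝ)| ≤ 2 * e / s := by
      intro n hn
      rw [hA', Finset.mem_filter] at hn
      have h1 := hPA n hn.1
      have h2 := hPA x hxA
      have h3 := hev n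
      have h4 : (s : ℝ) ≤ (n : ℝ) - x := by
        have : (x : ℝ) + s ≤ n := by exact_mod_cast hn.2
        linarith
      rw [le_div_iff₀ (by linarith)]
      have h5 : |((n : ℝ) - x) * P1.eval (n : ℝ)| ≤ 2 * e := by
        have : ((n : ℝ) - x) * P1.eval (n : ℝ) = P.eval (n : ℝ) - P.eval (x : ℝ) := by
          rw [h3]
          ring
        rw [this]
        calc |P.eval (n : ℝ) - P.eval (x : ℝ)| ≤ |P.eval (n : ℝ)| + |P.eval (x : ℝ)| := abs_sub _ _
          _ ≤ 2 * e := by linarith
      rw [abs_mul, abs_of_nonneg (by linarith : (0 : ℝ) ≤ (n : ℝ) - x)] at h5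
      have h6 : |P1.eval (n : ℝ)| * s ≤ |P1.eval (n : ℝ)| * ((n : ℝ) - x) :=
        mul_le_mul_of_nonneg_left h4 (abs_nonneg _)
      linarith
    have hIH := ih P1 hd (2 * e / s) (by positivity) A'
      ((Finset.filter_subset _ _).trans hA) hcard hP1
    set B : ℝ := 2 * e / s * (5 * N / s) ^ D with hB
    have hr : (1 : ℝ) ≤ N / s := by
      rw [le_div_iff₀ (by linarith)]
      linarith
    have hr5 : (1 : ℝ) ≤ (5 * N / s) ^ D := by
      apply one_le_pow₀
      have : 5 * (N : ℝ) / s = 5 * (N / s) := by ring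
      rw [this]
      linarith
    have hfin : 2 * N * B + e ≤ e * (5 * N / s) ^ (D + 1) := by
      have h1 : 2 * N * B = 4 * (N / s) * (e * (5 * N / s) ^ D) := by
        rw [hB]
        ring
      have h2 : e * (5 * N / s) ^ (D + 1) = 5 * (N / s) * (e * (5 * N / s) ^ D) := by
        rw [pow_succ]
        ring
      rw [h1, h2]
      have h3 : e ≤ (N / s) * (e * (5 * N / s) ^ D) := by
        have h4 : e ≤ e * (5 * N / s) ^ D := le_mul_of_one_le_right he hr5
        have h5 : e * (5 * N / s) ^ D ≤ (N / s) * (e * (5 * N / s) ^ D) :=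
          le_mul_of_one_le_left (by linarith) hr
        linarith
      linarith
    refine le_trans ?_ hfin
    have hxR : (x : ℝ) ≤ N := by exact_mod_cast hxN.2
    have hB0 : 0 ≤ B := by positivity
    rcases Nat.eq_zero_or_pos j with rfl | hj
    · have h1 : P.coeff 0 = P.eval (x : ℝ) - x * P1.coeff 0 := by
        conv_lhs => rw [hPeq]
        simp [mul_coeff_zero]
        ring
      rw [h1, pow_zero, mul_one]
      have h2 := hIH 0
      rw [pow_zero, mul_one] at h2
      have h3 := hPA x hxA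
      calc |P.eval (x : ℝ) - x * P1.coeff 0| ≤ |P.eval (x : ℝ)| + |x * P1.coeff 0| := abs_sub _ _
        _ ≤ e + N * B := by
            rw [abs_mul, abs_of_nonneg (by positivity : (0 : ℝ) ≤ (x : ℝ))]
            gcongr
        _ ≤ 2 * N * B + e := by nlinarith
    · obtain ⟨i, rfl⟩ : ∃ i, j = i + 1 := ⟨j - 1, by omega⟩
      have h1 : P.coeff (i + 1) = P1.coeff i - x * P1.coeff (i + 1) := by
        conv_lhs => rw [hPeq]
        rw [coeff_add, coeff_C, if_neg (by omega), zero_add, sub_mul, coeff_sub, coeff_X_mul,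
          coeff_C_mul]
      rw [h1]
      have h2 := hIH i
      have h3 := hIH (i + 1)
      calc |P1.coeff i - x * P1.coeff (i + 1)| * (N : ℝ) ^ (i + 1)
          ≤ (|P1.coeff i| + |x * P1.coeff (i + 1)|) * (N : ℝ) ^ (i + 1) := by
            gcongr
            exact abs_sub _ _
        _ = N * (|P1.coeff i| * (N : ℝ) ^ i) + x * (|P1.coeff (i + 1)| * (N : ℝ) ^ (i + 1)) := by
            rw [abs_mul, abs_of_nonneg (by positivity : (0 : ℝ) ≤ (x : ℝ))]
            ring
        _ ≤ N * B + N * B := by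
            gcongr
        _ ≤ 2 * N * B + e := by linarith

open Classical in
theorem sublevel (D : ℕ) : ∃ C : ℝ, 1 ≤ C ∧ ∀ P : ℝ[X], P.natDegree ≤ D → ∀ N : ℕ, 1 ≤ N →
    ∀ M lam : ℝ, 0 < M → 0 < lam → lam ≤ 1 → (∃ j, M ≤ |P.coeff j| * (N : ℝ) ^ j) →
    (((Icc 1 N).filter (fun n : ℕ => |P.eval (n : ℝ)| < lam * M)).card : ℝ) ≤
      C * (N * lam ^ ((1 : ℝ) / (D + 1)) + 1) := by
  refine ⟨5 * D + 1, by linarith [(Nat.cast_nonneg D : (0 : ℝ) ≤ D)], ?_⟩
  intro P hP N hN M lam hM hl hl1 hj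
  obtain ⟨j, hj⟩ := hj
  set A := (Icc 1 N).filter (fun n : ℕ => |P.eval (n : ℝ)| < lam * M) with hA
  have hsub : A ⊆ Icc 1 N := Finset.filter_subset _ _
  have hAe : ∀ n ∈ A, |P.eval (n : ℝ)| ≤ lam * M := by
    intro n hn
    rw [hA, Finset.mem_filter] at hn
    exact hn.2.le
  have hlp : 0 ≤ (N : ℝ) * lam ^ ((1 : ℝ) / (D + 1)) := by positivity
  rcases Nat.eq_zero_or_pos D with rfl | hD
  · -- constant polynomial
    have h0 : A = ∅ := by
      by_contra hne
      have hne' : A.Nonempty := Finset.nonempty_iff_ne_empty.2 hne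
      obtain ⟨n, hn⟩ := hne'
      have hP0 : P.natDegree = 0 := by omega
      obtain ⟨c, rfl⟩ := natDegree_eq_zero.1 hP0
      rw [hA, Finset.mem_filter, eval_C] at hn
      have h1 := hn.2
      rcases Nat.eq_zero_or_pos j with rfl | hj0
      · rw [coeff_C, if_pos rfl, pow_zero, mul_one] at hj
        nlinarith
      · rw [coeff_C, if_neg (by omega), abs_zero, zero_mul] at hj
        linarith
    rw [h0]
    simp only [Finset.card_empty, Nat.cast_zero]
    positivity
  · have hDR : (1 : ℝ) ≤ D := by exact_mod_cast hD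
    set m := A.card with hm
    set s := (m - 1) / D with hs
    have hms : m ≤ D * s + D := by
      have h1 := Nat.lt_div_mul_add (a := m - 1) hD
      have h2 : D * s = (m - 1) / D * D := by rw [hs]; ring
      omega
    have hmsR : (m : ℝ) ≤ D * s + D := by exact_mod_cast hms
    rcases Nat.eq_zero_or_pos s with h0 | hs0
    · rw [h0] at hmsR
      have : (m : ℝ) ≤ D := by simpa using hmsR
      nlinarith
    · have hc : D * s + 1 ≤ A.card := by
        have h1 : D * s ≤ m - 1 := by
          rw [hs, mul_comm]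
          exact Nat.div_mul_le_self _ _
        have h2 : 1 ≤ D * s := Nat.mul_pos hD hs0
        omega
      have h1 := pb4_coeff N hN s hs0 D P hP (lam * M) (by positivity) A hsub hc hAe j
      have h2 : M ≤ lam * M * (5 * N / s) ^ D := hj.trans h1
      have h3 : 1 ≤ lam * (5 * N / s) ^ D := by
        have : M * 1 ≤ M * (lam * (5 * N / s) ^ D) := by
          calc M * 1 = M := mul_one M
            _ ≤ lam * M * (5 * N / s) ^ D := h2
            _ = _ := by ring
        exact le_of_mul_le_mul_left this hM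
      have hsR : (0 : ℝ) < s := by exact_mod_cast hs0
      have h4 : (s : ℝ) ^ D ≤ lam * (5 * N) ^ D := by
        rw [div_pow] at h3
        have : lam * ((5 * N) ^ D / (s : ℝ) ^ D) = lam * (5 * N) ^ D / (s : ℝ) ^ D := by ring
        rw [this, le_div_iff₀ (by positivity)] at h3
        linarith
      have h5 : (s : ℝ) ≤ 5 * N * lam ^ ((1 : ℝ) / D) := by
        have h6 : (5 * (N : ℝ) * lam ^ ((1 : ℝ) / D)) ^ D = lam * (5 * N) ^ D := by
          rw [mul_pow, ← Real.rpow_natCast (lam ^ ((1 : ℝ) / D)) D, ← Real.rpow_mul hl.le]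
          rw [one_div_mul_cancel (by linarith), Real.rpow_one]
          ring
        rw [← h6] at h4
        exact le_of_pow_le_pow_left₀ (by omega) (by positivity) h4
      have h6 : lam ^ ((1 : ℝ) / D) ≤ lam ^ ((1 : ℝ) / (D + 1)) := by
        apply Real.rpow_le_rpow_of_exponent_ge hl hl1
        apply one_div_le_one_div_of_le (by linarith) (by linarith)
      have h7 : (s : ℝ) ≤ 5 * (N * lam ^ ((1 : ℝ) / (D + 1))) := by
        calc (s : ℝ) ≤ 5 * N * lam ^ ((1 : ℝ) / D) := h5
          _ ≤ 5 * N * lam ^ ((1 : ℝ) / (D + 1)) := by gcongr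
          _ = _ := by ring
      calc (m : ℝ) ≤ D * s + D := hmsR
        _ ≤ D * (5 * (N * lam ^ ((1 : ℝ) / (D + 1)))) + D := by gcongr
        _ ≤ (5 * D + 1) * (N * lam ^ ((1 : ℝ) / (D + 1)) + 1) := by nlinarith

theorem poly_cuts (k : ℕ) (P : ℝ[X]) (hP : P.natDegree ≤ k) (v : ℝ) : ∃ R : Finset ℝ,
    R.card ≤ k ∧ ∀ x y : ℝ, x ≤ y → (∀ r ∈ R, ¬ (x ≤ r ∧ r ≤ y)) →
      (v ≤ P.eval x ↔ v ≤ P.eval y) := by
  classical
  by_cases h0 : P = C v
  · refine ⟨∅, by simp, ?_⟩
    intro x y _ _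
    rw [h0]
    simp
  · refine ⟨(P - C v).roots.toFinset, ?_, ?_⟩
    · refine (Multiset.toFinset_card_le _).trans ((card_roots' _).trans ?_)
      rw [natDegree_sub_C]
      exact hP
    · intro x y hxy hR
      have hne : P - C v ≠ 0 := sub_ne_zero.2 h0
      have hcont : ContinuousOn (fun z => P.eval z) (Set.Icc x y) := P.continuous.continuousOn
      have key : ∀ z ∈ Set.Icc x y, P.eval z ≠ v := by
        intro z hz h
        apply hR z _ ⟨hz.1, hz.2⟩
        rw [Multiset.mem_toFinset, mem_roots hne]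
        simp [h]
      constructor
      · intro h
        by_contra h2
        push Not at h2
        obtain ⟨z, hz, hz2⟩ := intermediate_value_Icc' hxy hcont ⟨h2.le, h⟩
        exact key z hz hz2
      · intro h
        by_contra h2
        push Not at h2
        obtain ⟨z, hz, hz2⟩ := intermediate_value_Icc hxy hcont ⟨h2.le, h⟩
        exact key z hz hz2

theorem pb4_count (D a : ℕ) (hD : 1 ≤ D) (ha : a < D) (n : ℕ) :
    ∑ j ∈ Icc 1 n, (if j % D = a then 1 else 0) + (D - a) / D = (n + (D - a)) / D := by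
  induction n with
  | zero => simp
  | succ n ih =>
    rw [Finset.sum_Icc_succ_top (by omega)]
    have h1 : n + 1 + (D - a) = (n + (D - a)) + 1 := by ring
    rw [h1, Nat.succ_div, ← ih]
    have h2 : (D ∣ n + (D - a) + 1) ↔ (n + 1) % D = a := by
      have h3 : n + (D - a) + 1 + a = (n + 1) + D := by omega
      constructor
      · rintro ⟨c, hc⟩
        have h4 : n + 1 + D = D * c + a := by omega
        have h5 : (n + 1 + D) % D = a := by
          rw [h4, Nat.mul_add_mod, Nat.mod_eq_of_lt ha]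
        rwa [Nat.add_mod_right] at h5
      · intro h
        have h4 := Nat.div_add_mod (n + 1) D
        rw [h] at h4
        refine ⟨(n + 1) / D + 1, ?_⟩
        have : D * ((n + 1) / D + 1) = D * ((n + 1) / D) + D := by ring
        omega
    by_cases h3 : (n + 1) % D = a
    · rw [if_pos h3, if_pos (h2.2 h3)]
      ring
    · rw [if_neg h3, if_neg (fun h => h3 (h2.1 h))]
      ring

theorem pb4_g (D a : ℕ) (hD : 1 ≤ D) (ha : a < D) (n : ℕ) :
    |(∑ j ∈ Icc 1 n, (if j % D = a then (1 : ℝ) else 0)) - n / D| ≤ 1 := by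
  have h := pb4_count D a hD ha n
  set c := ∑ j ∈ Icc 1 n, (if j % D = a then 1 else 0) with hc
  have hcR : (∑ j ∈ Icc 1 n, (if j % D = a then (1 : ℝ) else 0)) = (c : ℝ) := by
    rw [hc]
    push_cast
    rfl
  rw [hcR]
  have hDR : (0 : ℝ) < D := by exact_mod_cast hD
  have h1 : (D - a) / D * D ≤ D - a := Nat.div_mul_le_self _ _
  have h2 := Nat.lt_div_mul_add (a := D - a) hD
  have h3 : (n + (D - a)) / D * D ≤ n + (D - a) := Nat.div_mul_le_self _ _
  have h4 := Nat.lt_div_mul_add (a := n + (D - a)) hD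
  rw [← h] at h3 h4
  have h5 : (c + (D - a) / D) * D = c * D + (D - a) / D * D := by ring
  rw [h5] at h3 h4
  have e1 : c * D ≤ n + D := by omega
  have e2 : n ≤ c * D + D := by omega
  have e1R : (c : ℝ) * D ≤ n + D := by exact_mod_cast e1
  have e2R : (n : ℝ) ≤ c * D + D := by exact_mod_cast e2
  rw [abs_le]
  have h6 : (n : ℝ) / D * D = n := by field_simp
  constructor
  · by_contra hcon
    push Not at hcon
    nlinarith
  · by_contra hcon
    push Not at hcon
    nlinarith

theorem pb4_G (D : ℕ) (hD : 1 ≤ D) (A : Finset ℕ) (hA : A ⊆ range D) (n : ℕ) :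
    |(∑ j ∈ Icc 1 n, (if j % D ∈ A then (1 : ℝ) else 0)) - n * A.card / D| ≤ A.card := by
  have h1 : (∑ j ∈ Icc 1 n, (if j % D ∈ A then (1 : ℝ) else 0)) - n * A.card / D =
      ∑ a ∈ A, ((∑ j ∈ Icc 1 n, (if j % D = a then (1 : ℝ) else 0)) - n / D) := by
    rw [Finset.sum_sub_distrib, Finset.sum_comm]
    congr 1
    · refine Finset.sum_congr rfl (fun j _ => ?_)
      rw [Finset.sum_ite_eq]
    · rw [Finset.sum_const, nsmul_eq_mul]
      ring
  rw [h1]
  calc |∑ a ∈ A, ((∑ j ∈ Icc 1 n, (if j % D = a then (1 : ℝ) else 0)) - n / D)|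
      ≤ ∑ a ∈ A, |(∑ j ∈ Icc 1 n, (if j % D = a then (1 : ℝ) else 0)) - n / D| :=
        Finset.abs_sum_le_sum_abs _ _
    _ ≤ ∑ a ∈ A, (1 : ℝ) := by
        refine Finset.sum_le_sum (fun a ha => ?_)
        exact pb4_g D a hD (Finset.mem_range.1 (hA ha)) n
    _ = A.card := by simp

theorem pb4_abel (q G : ℕ → ℝ) (hG0 : G 0 = 0) (N : ℕ) (hN : 1 ≤ N) :
    ∑ n ∈ Icc 1 N, q n * (G n - G (n - 1)) =
      q N * G N + ∑ n ∈ Ico 1 N, (q n - q (n + 1)) * G n := by
  induction N, hN using Nat.le_induction with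
  | base => simp [hG0]
  | succ n hn ih =>
    rw [Finset.sum_Icc_succ_top (by omega), ih, Finset.sum_Ico_succ_top hn]
    simp only [Nat.add_sub_cancel]
    ring

open Classical in
theorem ap_cuts (N D m : ℕ) (hD : 1 ≤ D) (Q : ℕ → Prop) (R : Finset ℝ) (hR : R.card ≤ m)
    (hQ : ∀ x y : ℕ, 1 ≤ x → x ≤ y → y ≤ N → (∀ r ∈ R, ¬ ((x : ℝ) ≤ r ∧ r ≤ (y : ℝ))) →
      (Q x ↔ Q y)) (A : Finset ℕ) (hA : A ⊆ range D) :
    |(((Icc 1 N).filter (fun n => Q n ∧ n % D ∈ A)).card : ℝ) -
      (((Icc 1 N).filter (fun n => Q n)).card : ℝ) * A.card / D| ≤ (2 * m + 1) * A.card := by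
  rcases Nat.eq_zero_or_pos N with rfl | hN
  · simp
    positivity
  set q : ℕ → ℝ := fun n => if Q n then 1 else 0 with hq
  set G : ℕ → ℝ := fun n =>
    (∑ j ∈ Icc 1 n, (if j % D ∈ A then (1 : ℝ) else 0)) - n * A.card / D with hG
  have hG0 : G 0 = 0 := by simp [hG]
  have hGb : ∀ n, |G n| ≤ A.card := fun n => pb4_G D hD A hA n
  have hGd : ∀ n, 1 ≤ n → G n - G (n - 1) = (if n % D ∈ A then (1 : ℝ) else 0) - A.card / D := by
    intro n hn
    obtain ⟨i, rfl⟩ : ∃ i, n = i + 1 := ⟨n - 1, by omega⟩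
    simp only [hG, Nat.add_sub_cancel]
    rw [Finset.sum_Icc_succ_top (by omega)]
    push_cast
    ring
  have hsum : (((Icc 1 N).filter (fun n => Q n ∧ n % D ∈ A)).card : ℝ) -
      (((Icc 1 N).filter (fun n => Q n)).card : ℝ) * A.card / D =
      ∑ n ∈ Icc 1 N, q n * (G n - G (n - 1)) := by
    rw [Finset.card_filter, Finset.card_filter]
    push_cast
    rw [mul_div_assoc, Finset.sum_mul, ← Finset.sum_sub_distrib]
    refine Finset.sum_congr rfl (fun n hn => ?_)
    rw [hGd n (Finset.mem_Icc.1 hn).1]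
    simp only [hq]
    by_cases h1 : Q n <;> by_cases h2 : n % D ∈ A <;> simp [h1, h2]
  rw [hsum, pb4_abel q G hG0 N hN]
  have hq1 : ∀ n, |q n| ≤ 1 := by
    intro n
    simp only [hq]
    split_ifs <;> simp
  have hbound : |∑ n ∈ Ico 1 N, (q n - q (n + 1)) * G n| ≤ 2 * m * A.card := by
    set T := (Ico 1 N).filter (fun n => ¬ (Q n ↔ Q (n + 1))) with hT
    have h1 : ∑ n ∈ Ico 1 N, (q n - q (n + 1)) * G n = ∑ n ∈ T, (q n - q (n + 1)) * G n := by
      rw [hT, Finset.sum_filter]
      refine Finset.sum_congr rfl (fun n _ => ?_)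
      by_cases h2 : Q n ↔ Q (n + 1)
      · rw [if_neg (not_not.2 h2)]
        simp [hq, h2]
      · rw [if_pos h2]
    have hTc : T.card ≤ 2 * m := by
      have h2 : T ⊆ R.biUnion (fun r => ({⌊r⌋₊, ⌊r⌋₊ - 1} : Finset ℕ)) := by
        intro n hn
        rw [hT, Finset.mem_filter, Finset.mem_Ico] at hn
        have h3 : ∃ r ∈ R, (n : ℝ) ≤ r ∧ r ≤ ((n + 1 : ℕ) : ℝ) := by
          by_contra hcon
          push Not at hcon
          apply hn.2
          apply hQ n (n + 1) hn.1.1 (by omega) (by omega)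
          intro r hr h
          exact absurd h.2 (not_le.2 (hcon r hr h.1))
        obtain ⟨r, hr, h4, h5⟩ := h3
        rw [Finset.mem_biUnion]
        refine ⟨r, hr, ?_⟩
        have h6 : n ≤ ⌊r⌋₊ := Nat.le_floor h4
        have h7 : ⌊r⌋₊ ≤ n + 1 := by
          have h8 := Nat.floor_mono h5
          rwa [Nat.floor_natCast] at h8
        simp only [Finset.mem_insert, Finset.mem_singleton]
        omega
      calc T.card ≤ (R.biUnion (fun r => ({⌊r⌋₊, ⌊r⌋₊ - 1} : Finset ℕ))).card :=
            Finset.card_le_card h2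
        _ ≤ ∑ r ∈ R, ({⌊r⌋₊, ⌊r⌋₊ - 1} : Finset ℕ).card := Finset.card_biUnion_le
        _ ≤ ∑ r ∈ R, 2 := Finset.sum_le_sum (fun r _ => Finset.card_le_two)
        _ = 2 * R.card := by rw [Finset.sum_const, smul_eq_mul, mul_comm]
        _ ≤ 2 * m := by omega
    rw [h1]
    calc |∑ n ∈ T, (q n - q (n + 1)) * G n| ≤ ∑ n ∈ T, |(q n - q (n + 1)) * G n| :=
          Finset.abs_sum_le_sum_abs _ _
      _ ≤ ∑ n ∈ T, (A.card : ℝ) := by
          refine Finset.sum_le_sum (fun n _ => ?_)
          rw [abs_mul]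
          have h2 : |q n - q (n + 1)| ≤ 1 := by
            simp only [hq]
            split_ifs <;> simp
          calc |q n - q (n + 1)| * |G n| ≤ 1 * A.card :=
                mul_le_mul h2 (hGb n) (abs_nonneg _) (by norm_num)
            _ = A.card := one_mul _
      _ = T.card * A.card := by rw [Finset.sum_const, nsmul_eq_mul]
      _ ≤ 2 * m * A.card := by
          have : (T.card : ℝ) ≤ 2 * m := by exact_mod_cast hTc
          gcongr
  calc |q N * G N + ∑ n ∈ Ico 1 N, (q n - q (n + 1)) * G n|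
      ≤ |q N * G N| + |∑ n ∈ Ico 1 N, (q n - q (n + 1)) * G n| := abs_add_le _ _
    _ ≤ 1 * A.card + 2 * m * A.card := by
        gcongr
        rw [abs_mul]
        exact mul_le_mul (hq1 N) (hGb N) (abs_nonneg _) (by norm_num)
    _ = (2 * m + 1) * A.card := by ring

end EK75
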