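import Pool.Agent.H75.EK.Pb2
import Pool.Agent.H75.EK.Pb3
import Pool.Agent.H75.EK.Pb4

/-! Module PB (alternative): the law of `t(n)` gives little mass to sparse sets. -/

open Polynomial Finset
open scoped Real BigOperators

namespace EK75

lemma pba_coeff (k : ℕ) (a : ℕ → ℤ) (j : ℕ) (hj : j ∈ Icc 1 k) : (FF k a).coeff j = a j := by
  unfold FF
  rw [finsetSum_coeff]
  simp only [coeff_C_mul, coeff_X_pow]
  rw [sum_eq_single j]
  · simp
  · intro i _ hi; simp [Ne.symm hi]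
  · intro h; exact absurd hj h

lemma pba_natDegree (k : ℕ) (a : ℕ → ℤ) : (FF k a).natDegree ≤ k := by
  unfold FF
  refine natDegree_sum_le_of_forall_le _ _ (fun j hj => ?_)
  rw [mem_Icc] at hj
  exact (natDegree_C_mul_X_pow_le _ _).trans hj.2

lemma pba_filter_dec {α : Type} (s : Finset α) (p : α → Prop) (d1 d2 : DecidablePred p) :
    @Finset.filter α p d1 s = @Finset.filter α p d2 s := by
  ext x; simp only [mem_filter]

/-- sums over `[1,N]` of functions of `n mod q` -/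
lemma pba_sum_mod (N q : ℕ) (hq : 1 ≤ q) (h : ℕ → ℝ) (hh : ∀ x, 0 ≤ h x) :
    ∑ n ∈ Icc 1 N, h (n % q) ≤ (N / q + 1) * ∑ x ∈ range q, h x := by
  have h1 : ∀ n ∈ Icc 1 N, h (n % q) = ∑ x ∈ range q, (if n % q = x then h x else 0) := by
    intro n _
    rw [sum_ite_eq, if_pos (mem_range.mpr (Nat.mod_lt _ hq))]
  rw [sum_congr rfl h1, sum_comm, mul_sum]
  refine sum_le_sum (fun x hx => ?_)
  have h2 : ∑ n ∈ Icc 1 N, (if n % q = x then h x else 0) =
      (∑ n ∈ Icc 1 N, (if n % q = x then (1 : ℝ) else 0)) * h x := by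
    rw [sum_mul]
    refine sum_congr rfl (fun n _ => ?_)
    split_ifs <;> simp
  rw [h2]
  refine mul_le_mul_of_nonneg_right ?_ (hh x)
  have := (abs_le.mp (pb4_g q x hq (mem_range.mp hx) N)).2
  linarith

lemma pba_count_mod (N q : ℕ) (hq : 1 ≤ q) (A : Finset ℕ) (hA : A ⊆ range q) :
    (((Icc 1 N).filter (fun n => n % q ∈ A)).card : ℝ) ≤ (N / q + 1) * A.card := by
  classical
  have h := pba_sum_mod N q hq (fun x => if x ∈ A then 1 else 0) (fun x => by split_ifs <;> norm_num)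
  simp only [sum_boole] at h
  have h2 : (range q).filter (fun x => x ∈ A) = A := by
    ext x
    rw [mem_filter]
    exact ⟨fun h => h.2, fun h => ⟨hA h, h⟩⟩
  rw [h2] at h
  refine le_trans (le_of_eq ?_) h
  rw [pba_filter_dec (Icc 1 N) _ _ (fun n => Classical.propDecidable _),
    pba_filter_dec (Icc 1 N) (fun n => n % q ∈ A) _ (fun n => Classical.propDecidable _)]

/-- naturals with bounded differences -/
lemma pba_diam (s : Finset ℕ) (L : ℝ) (hL : 0 ≤ L) (h : ∀ x ∈ s, ∀ y ∈ s, x ≤ y → (y : ℝ) - x ≤ L) :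
    (s.card : ℝ) ≤ L + 1 := by
  rcases s.eq_empty_or_nonempty with rfl | hne
  · simp; linarith
  · have h1 : s ⊆ Icc (s.min' hne) (s.max' hne) := fun x hx =>
      mem_Icc.mpr ⟨min'_le _ _ hx, le_max' _ _ hx⟩
    have h2 := card_le_card h1
    rw [Nat.card_Icc] at h2
    have h3 : s.min' hne ≤ s.max' hne := min'_le_max' _ _
    have h4 := h _ (min'_mem s hne) _ (max'_mem s hne) h3
    have h5 : (s.card : ℝ) ≤ ((s.max' hne + 1 - s.min' hne : ℕ) : ℝ) := by exact_mod_cast h2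
    rw [Nat.cast_sub (by omega)] at h5
    push_cast at h5
    linarith

/-- counting the points of a set cut into pieces of bounded length -/
lemma pba_pieces (s : Finset ℕ) (R : Finset ℝ) (m : ℕ) (hR : R.card ≤ m) (L : ℝ) (hL : 0 ≤ L)
    (h : ∀ x ∈ s, ∀ y ∈ s, x ≤ y → (∀ r ∈ R, ¬ ((x : ℝ) ≤ r ∧ r ≤ y)) → (y : ℝ) - x ≤ L) :
    (s.card : ℝ) ≤ (2 * m + 1) * (L + 1) := by
  classical
  set s1 := s.filter (fun n : ℕ => (n : ℝ) ∈ R) with hs1
  set s2 := s.filter (fun n : ℕ => ¬ (n : ℝ) ∈ R) with hs2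
  have hc : s1.card + s2.card = s.card := card_filter_add_card_filter_not _
  have h1 : s1.card ≤ m := by
    refine le_trans ?_ hR
    refine card_le_card_of_injOn (fun n : ℕ => (n : ℝ)) ?_ ?_
    · intro n hn
      rw [mem_coe, hs1, mem_filter] at hn
      exact hn.2
    · intro x _ y _ hxy
      exact Nat.cast_injective hxy
  set idx : ℕ → ℕ := fun n => (R.filter (fun r : ℝ => r < (n : ℝ))).card with hidx
  have hmap : ∀ n ∈ s2, idx n ∈ range (m + 1) := by
    intro n _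
    rw [mem_range]
    exact Nat.lt_succ_of_le ((card_filter_le _ _).trans hR)
  have hfib : ∀ i ∈ range (m + 1), (((s2.filter (fun n => idx n = i)).card : ℕ) : ℝ) ≤ L + 1 := by
    intro i _
    refine pba_diam _ L hL ?_
    intro x hx y hy hxy
    rw [mem_filter, hs2, mem_filter] at hx hy
    refine h x hx.1.1 y hy.1.1 hxy ?_
    intro r hr hcon
    have hsub : R.filter (fun r => r < (x : ℝ)) ⊆ R.filter (fun r => r < (y : ℝ)) := by
      intro r' hr'
      rw [mem_filter] at hr' ⊢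
      exact ⟨hr'.1, hr'.2.trans_le (by exact_mod_cast hxy)⟩
    have heq : R.filter (fun r => r < (x : ℝ)) = R.filter (fun r => r < (y : ℝ)) :=
      eq_of_subset_of_card_le hsub (by
        have e1 : idx x = idx y := by rw [hx.2, hy.2]
        have e2 : (R.filter (fun r : ℝ => r < (x : ℝ))).card =
          (R.filter (fun r : ℝ => r < (y : ℝ))).card := e1
        exact e2.ge)
    have hry : r < (y : ℝ) := lt_of_le_of_ne hcon.2 (fun he => hy.1.2 (he ▸ hr))
    have : r ∈ R.filter (fun r => r < (y : ℝ)) := mem_filter.mpr ⟨hr, hry⟩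
    rw [← heq, mem_filter] at this
    linarith [this.2, hcon.1]
  have h2 : (s2.card : ℝ) ≤ (m + 1) * (L + 1) := by
    rw [card_eq_sum_card_fiberwise hmap]
    push_cast
    refine (sum_le_sum hfib).trans ?_
    rw [sum_const, card_range, nsmul_eq_mul]
    push_cast
    exact le_rfl
  have h3 : (s.card : ℝ) = s1.card + s2.card := by exact_mod_cast hc.symm
  have h4 : (s1.card : ℝ) ≤ m := by exact_mod_cast h1
  have hm : (0 : ℝ) ≤ m := by positivity
  rw [h3]
  nlinarith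

/-- mean value estimate for polynomials -/
lemma pba_mvt (P : ℝ[X]) (x y v : ℝ) (hxy : x ≤ y) (h : ∀ z, x ≤ z → z ≤ y → v ≤ (derivative P).eval z) :
    v * (y - x) ≤ P.eval y - P.eval x := by
  rcases hxy.eq_or_lt with rfl | hlt
  · simp
  · obtain ⟨z, hz, hz2⟩ := exists_deriv_eq_slope (fun w => P.eval w) hlt P.continuous.continuousOn
      P.differentiable.differentiableOn
    rw [Polynomial.deriv] at hz2
    have h1 := h z hz.1.le hz.2.le
    rw [hz2, le_div_iff₀ (by linarith)] at h1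
    exact h1

lemma pba_eval_mod (F : ℤ[X]) (n q : ℕ) : (q : ℤ) ∣ F.eval (n : ℤ) - F.eval ((n % q : ℕ) : ℤ) :=
  (pb2_dvd_mod n q).trans (Polynomial.sub_dvd_eval_sub _ _ _)

lemma pba_gcd_pos (a : ℤ) (q : ℕ) (hq : 1 ≤ q) : 1 ≤ Int.gcd a q := by
  rw [Nat.one_le_iff_ne_zero]
  intro h
  rw [Int.gcd_eq_zero_iff] at h
  have := h.2
  omega

/-- singular part -/
lemma pba_sing (k : ℕ) (hk : 1 ≤ k) (c1 : ℝ) (hc1 : 0 < c1) : ∃ C : ℝ, 0 ≤ C ∧
    ∀ (F : ℤ[X]), F.natDegree ≤ k → ∀ q : ℕ, 1 ≤ q →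
    (∀ p : ℕ, p.Prime → p ∣ q → ∃ j, 1 ≤ j ∧ ¬ ((p : ℤ) ∣ F.coeff j)) → ∀ N T : ℕ, q ≤ T → T ≤ N →
    (((Icc 1 N).filter (fun n : ℕ => (T : ℝ) ^ c1 <
      ((Int.gcd ((derivative F).eval (n : ℤ)) q : ℕ) : ℝ))).card : ℝ) ≤
      C * (N * (T : ℝ) ^ (-(c1 / (4 * k)))) := by
  obtain ⟨C0, hC0, hv⟩ := vsum_le k hk
  obtain ⟨Cw, hw⟩ := omega_le C0 (c1 / (4 * k)) hC0 (by positivity)
  refine ⟨2 * |Cw|, by positivity, fun F hF q hq hc N T hqT hTN => ?_⟩
  set e : ℝ := (1 : ℝ) / (2 * k) with he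
  have hk0 : (0 : ℝ) < k := by exact_mod_cast hk
  have he0 : 0 < e := by positivity
  have hq0 : (0 : ℝ) < q := by exact_mod_cast hq
  have hq1 : (1 : ℝ) ≤ q := by exact_mod_cast hq
  have hqT' : (q : ℝ) ≤ T := by exact_mod_cast hqT
  have hTN' : (T : ℝ) ≤ N := by exact_mod_cast hTN
  have hT0 : (0 : ℝ) < T := by linarith
  set G : ℝ := (T : ℝ) ^ c1 with hG
  have hG0 : 0 < G := by positivity
  set h : ℕ → ℝ := fun x => ((Int.gcd ((derivative F).eval (x : ℤ)) q : ℕ) : ℝ) ^ e with hh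
  have hmod : ∀ n : ℕ, h n = h (n % q) := by
    intro n
    rw [hh]
    simp only
    rw [pb2_gcd_congr (pba_eval_mod (derivative F) n q)]
  calc (((Icc 1 N).filter (fun n : ℕ => G <
      ((Int.gcd ((derivative F).eval (n : ℤ)) q : ℕ) : ℝ))).card : ℝ)
      = ∑ n ∈ (Icc 1 N).filter (fun n : ℕ => G <
          ((Int.gcd ((derivative F).eval (n : ℤ)) q : ℕ) : ℝ)), (1 : ℝ) := by
        rw [sum_const, nsmul_eq_mul, mul_one]
    _ ≤ ∑ n ∈ (Icc 1 N).filter (fun n : ℕ => G <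
          ((Int.gcd ((derivative F).eval (n : ℤ)) q : ℕ) : ℝ)), h n * G ^ (-e) := by
        refine sum_le_sum (fun n hn => ?_)
        rw [mem_filter] at hn
        have h1 : G ^ e ≤ h n := by
          rw [hh]
          simp only
          exact Real.rpow_le_rpow hG0.le hn.2.le he0.le
        calc (1 : ℝ) = G ^ e * G ^ (-e) := by rw [← Real.rpow_add hG0]; simp
          _ ≤ h n * G ^ (-e) := by gcongr
    _ ≤ ∑ n ∈ Icc 1 N, h n * G ^ (-e) :=
        sum_le_sum_of_subset_of_nonneg (filter_subset _ _) (fun n _ _ => by positivity)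
    _ = (∑ n ∈ Icc 1 N, h (n % q)) * G ^ (-e) := by
        rw [sum_mul]
        exact sum_congr rfl (fun n _ => by rw [hmod n])
    _ ≤ ((N / q + 1) * (C0 ^ q.primeFactors.card * q)) * G ^ (-e) := by
        gcongr
        refine (pba_sum_mod N q hq h (fun x => by positivity)).trans ?_
        gcongr
        exact hv F hF q hq hc
    _ ≤ ((N / q + N / q) * (|Cw| * (T : ℝ) ^ (c1 / (4 * k)) * q)) * G ^ (-e) := by
        have h1 : (1 : ℝ) ≤ N / q := by rw [le_div_iff₀ hq0]; linarith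
        have h2 : C0 ^ q.primeFactors.card ≤ |Cw| * (T : ℝ) ^ (c1 / (4 * k)) := by
          refine (hw q hq).trans ?_
          have := le_abs_self Cw
          gcongr
        gcongr
    _ = 2 * |Cw| * (N * ((T : ℝ) ^ (c1 / (4 * k)) * G ^ (-e))) := by
        field_simp
        ring
    _ = 2 * |Cw| * (N * (T : ℝ) ^ (-(c1 / (4 * k)))) := by
        rw [hG, ← Real.rpow_mul hT0.le, ← Real.rpow_add hT0]
        congr 3
        rw [he]
        field_simp
        ring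

/-- number of nonsingular solutions -/
lemma pba_At (k : ℕ) (hk : 1 ≤ k) (c1 : ℝ) (hc1 : 0 < c1) : ∃ C : ℝ, 0 ≤ C ∧
    ∀ (F : ℤ[X]), F.natDegree ≤ k → ∀ q : ℕ, 1 ≤ q →
    (∀ p : ℕ, p.Prime → p ∣ q → ∃ j, 1 ≤ j ∧ ¬ ((p : ℤ) ∣ F.coeff j)) → ∀ T : ℕ, q ≤ T →
    ∀ t : ℤ, (((range q).filter (fun x : ℕ => (q : ℤ) ∣ F.eval (x : ℤ) - t ∧
      ((Int.gcd ((derivative F).eval (x : ℤ)) q : ℕ) : ℝ) ≤ (T : ℝ) ^ c1)).card : ℝ) ≤
      C * (T : ℝ) ^ (4 * c1) := by
  obtain ⟨Ct, ht⟩ := tau_le (c1 / 2) (by positivity)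
  obtain ⟨Cw, hw⟩ := omega_le k (c1 / 2) (by exact_mod_cast hk) (by positivity)
  refine ⟨|Ct| * |Cw|, by positivity, fun F hF q hq hc T hqT t => ?_⟩
  have hq0 : (0 : ℝ) < q := by exact_mod_cast hq
  have hqT' : (q : ℝ) ≤ T := by exact_mod_cast hqT
  have hT0 : (0 : ℝ) < T := by linarith
  set G : ℝ := (T : ℝ) ^ c1 with hG
  have hG0 : 0 < G := by positivity
  have h1 := wsum_le k hk F hF q hq hc t
  have h2 : (k : ℝ) ^ q.primeFactors.card ≤ |Cw| * (T : ℝ) ^ (c1 / 2) := by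
    refine (hw q hq).trans ?_
    have := le_abs_self Cw
    gcongr
  have h3 : (q.divisors.card : ℝ) ≤ |Ct| * (T : ℝ) ^ (c1 / 2) := by
    refine (ht q hq).trans ?_
    have := le_abs_self Ct
    gcongr
  calc (((range q).filter (fun x : ℕ => (q : ℤ) ∣ F.eval (x : ℤ) - t ∧
      ((Int.gcd ((derivative F).eval (x : ℤ)) q : ℕ) : ℝ) ≤ G)).card : ℝ)
      = ∑ x ∈ (range q).filter (fun x : ℕ => (q : ℤ) ∣ F.eval (x : ℤ) - t ∧
        ((Int.gcd ((derivative F).eval (x : ℤ)) q : ℕ) : ℝ) ≤ G), (1 : ℝ) := by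
        rw [sum_const, nsmul_eq_mul, mul_one]
    _ ≤ ∑ x ∈ (range q).filter (fun x : ℕ => (q : ℤ) ∣ F.eval (x : ℤ) - t ∧
        ((Int.gcd ((derivative F).eval (x : ℤ)) q : ℕ) : ℝ) ≤ G),
          G ^ 3 * (((Int.gcd ((derivative F).eval (x : ℤ)) q : ℕ) : ℝ) ^ 3)⁻¹ := by
        refine sum_le_sum (fun x hx => ?_)
        rw [mem_filter] at hx
        have h4 : (1 : ℝ) ≤ ((Int.gcd ((derivative F).eval (x : ℤ)) q : ℕ) : ℝ) := by
          exact_mod_cast pba_gcd_pos _ q hq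
        rw [← div_eq_mul_inv, le_div_iff₀ (by positivity), one_mul]
        have := hx.2.2
        gcongr
    _ = G ^ 3 * ∑ x ∈ (range q).filter (fun x : ℕ => (q : ℤ) ∣ F.eval (x : ℤ) - t ∧
        ((Int.gcd ((derivative F).eval (x : ℤ)) q : ℕ) : ℝ) ≤ G),
          (((Int.gcd ((derivative F).eval (x : ℤ)) q : ℕ) : ℝ) ^ 3)⁻¹ := by rw [mul_sum]
    _ ≤ G ^ 3 * ∑ x ∈ (range q).filter (fun x : ℕ => (q : ℤ) ∣ F.eval (x : ℤ) - t),
          (((Int.gcd ((derivative F).eval (x : ℤ)) q : ℕ) : ℝ) ^ 3)⁻¹ := by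
        refine mul_le_mul_of_nonneg_left (sum_le_sum_of_subset_of_nonneg ?_
          (fun _ _ _ => by positivity)) (by positivity)
        intro x hx
        rw [mem_filter] at hx ⊢
        exact ⟨hx.1, hx.2.1⟩
    _ ≤ G ^ 3 * ((|Cw| * (T : ℝ) ^ (c1 / 2)) * (|Ct| * (T : ℝ) ^ (c1 / 2))) := by
        gcongr
        exact h1.trans (by gcongr)
    _ = |Ct| * |Cw| * (G ^ 3 * (T : ℝ) ^ (c1 / 2) * (T : ℝ) ^ (c1 / 2)) := by ring
    _ = |Ct| * |Cw| * (T : ℝ) ^ (4 * c1) := by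
        rw [hG, ← Real.rpow_natCast, ← Real.rpow_mul hT0.le, ← Real.rpow_add hT0,
          ← Real.rpow_add hT0]
        congr 2
        push_cast
        ring

/-- the analytic condition -/
def pbaQ (θ : ℝ[X]) (u v x : ℝ) : Prop :=
  u ≤ θ.eval x ∧ ¬ (u + 1 ≤ θ.eval x) ∧
    (v ≤ (derivative θ).eval x ∨ v ≤ (-(derivative θ)).eval x)

lemma pba_cuts (k : ℕ) (θ : ℝ[X]) (hθ : θ.natDegree ≤ k) (u v : ℝ) (hv : 0 < v) :
    ∃ R : Finset ℝ, R.card ≤ 4 * k ∧
      (∀ x y : ℝ, x ≤ y → (∀ r ∈ R, ¬ (x ≤ r ∧ r ≤ y)) → (pbaQ θ u v x ↔ pbaQ θ u v y)) ∧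
      (∀ x y : ℝ, x ≤ y → (∀ r ∈ R, ¬ (x ≤ r ∧ r ≤ y)) → pbaQ θ u v x → pbaQ θ u v y →
        y - x ≤ 1 / v) := by
  classical
  have hd : (derivative θ).natDegree ≤ k := (natDegree_derivative_le θ).trans (by omega)
  obtain ⟨R1, h1c, h1⟩ := poly_cuts k θ hθ u
  obtain ⟨R2, h2c, h2⟩ := poly_cuts k θ hθ (u + 1)
  obtain ⟨R3, h3c, h3⟩ := poly_cuts k (derivative θ) hd v
  obtain ⟨R4, h4c, h4⟩ := poly_cuts k (-(derivative θ)) (by rw [natDegree_neg]; exact hd) v
  refine ⟨R1 ∪ R2 ∪ R3 ∪ R4, ?_, ?_, ?_⟩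
  · have e1 := card_union_le (R1 ∪ R2 ∪ R3) R4
    have e2 := card_union_le (R1 ∪ R2) R3
    have e3 := card_union_le R1 R2
    omega
  · intro x y hxy hR
    have g1 := h1 x y hxy (fun r hr => hR r (by simp [hr]))
    have g2 := h2 x y hxy (fun r hr => hR r (by simp [hr]))
    have g3 := h3 x y hxy (fun r hr => hR r (by simp [hr]))
    have g4 := h4 x y hxy (fun r hr => hR r (by simp [hr]))
    unfold pbaQ
    rw [g1, g2, g3, g4]
  · intro x y hxy hR hx hy
    rw [le_div_iff₀ hv]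
    rcases hx.2.2 with hd1 | hd1
    · have hz : ∀ z, x ≤ z → z ≤ y → v ≤ (derivative θ).eval z := by
        intro z hxz hzy
        exact (h3 x z hxz (fun r hr hc => hR r (by simp [hr]) ⟨hc.1, hc.2.trans hzy⟩)).mp hd1
      have := pba_mvt θ x y v hxy hz
      have e1 := hx.1
      have e2 := not_le.mp hy.2.1
      linarith
    · have hz : ∀ z, x ≤ z → z ≤ y → v ≤ (derivative (-θ)).eval z := by
        intro z hxz hzy
        rw [derivative_neg]
        exact (h4 x z hxz (fun r hr hc => hR r (by simp [hr]) ⟨hc.1, hc.2.trans hzy⟩)).mp hd1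
      have := pba_mvt (-θ) x y v hxy hz
      rw [eval_neg, eval_neg] at this
      have e1 := hy.1
      have e2 := not_le.mp hx.2.1
      linarith

open Classical in
lemma pba_countQ (k : ℕ) (θ : ℝ[X]) (hθ : θ.natDegree ≤ k) (u v : ℝ) (hv : 0 < v) (N q : ℕ)
    (hq : 1 ≤ q) (A : Finset ℕ) (hA : A ⊆ range q) :
    (((Icc 1 N).filter (fun n : ℕ => pbaQ θ u v n ∧ n % q ∈ A)).card : ℝ) ≤
      (8 * k + 1) * A.card * ((1 / v + 1) / q + 1) := by
  obtain ⟨R, hRc, hR1, hR2⟩ := pba_cuts k θ hθ u v hv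
  have h1 := ap_cuts N q (4 * k) hq (fun n : ℕ => pbaQ θ u v n) R hRc
    (fun x y _ hxy _ hr => hR1 x y (by exact_mod_cast hxy) hr) A hA
  have h2 : (((Icc 1 N).filter (fun n : ℕ => pbaQ θ u v n)).card : ℝ) ≤
      (2 * ((4 * k : ℕ) : ℝ) + 1) * (1 / v + 1) := by
    refine pba_pieces _ R (4 * k) hRc (1 / v) (by positivity) ?_
    intro x hx y hy hxy hr
    rw [mem_filter] at hx hy
    exact hR2 x y (by exact_mod_cast hxy) hr hx.2 hy.2
  have h3 := (abs_le.mp h1).2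
  have hq0 : (0 : ℝ) < q := by exact_mod_cast hq
  have hA0 : (0 : ℝ) ≤ A.card := by positivity
  have h4 : (((Icc 1 N).filter (fun n : ℕ => pbaQ θ u v n)).card : ℝ) * A.card / q ≤
      (2 * ((4 * k : ℕ) : ℝ) + 1) * (1 / v + 1) * A.card / q := by gcongr
  have h5 : (2 * ((4 * k : ℕ) : ℝ) + 1) * (1 / v + 1) * A.card / q + (2 * ((4 * k : ℕ) : ℝ) + 1) * A.card =
      (8 * k + 1) * A.card * ((1 / v + 1) / q + 1) := by
    push_cast
    field_simp
    ring
  rw [← h5]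
  linarith

/-- the real polynomial `θ = f - F / q` -/
noncomputable def pbaθ (f : ℝ[X]) (q : ℕ) (a : ℕ → ℤ) : ℝ[X] :=
  f - C (1 / (q : ℝ)) * (FF f.natDegree a).map (Int.castRingHom ℝ)

lemma pba_θ_natDegree (f : ℝ[X]) (q : ℕ) (a : ℕ → ℤ) : (pbaθ f q a).natDegree ≤ f.natDegree := by
  unfold pbaθ
  refine (natDegree_sub_le _ _).trans (max_le le_rfl ?_)
  exact (natDegree_C_mul_le _ _).trans (natDegree_map_le.trans (pba_natDegree _ _))

lemma pba_θ_eval (f : ℝ[X]) (q : ℕ) (a : ℕ → ℤ) (n : ℕ) : (pbaθ f q a).eval (n : ℝ) =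
    f.eval (n : ℝ) - ((FF f.natDegree a).eval (n : ℤ) : ℤ) / q := by
  unfold pbaθ
  rw [eval_sub, eval_mul, eval_C]
  have h2 := Polynomial.eval_intCast_map (Int.castRingHom ℝ) (FF f.natDegree a) (n : ℤ)
  have h3 : eval (n : ℝ) ((FF f.natDegree a).map (Int.castRingHom ℝ)) =
      ((FF f.natDegree a).eval (n : ℤ) : ℤ) := by simpa using h2
  rw [h3]
  ring

lemma pba_tt (f : ℝ[X]) (q : ℕ) (hq : 1 ≤ q) (a : ℕ → ℤ) (n : ℕ) :
    (q : ℤ) ∣ (FF f.natDegree a).eval (n : ℤ) - tt f q a n ∧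
    -(tt f q a n : ℝ) / q ≤ (pbaθ f q a).eval (n : ℝ) ∧
    (pbaθ f q a).eval (n : ℝ) < -(tt f q a n : ℝ) / q + 1 := by
  have hq0 : (0 : ℝ) < q := by exact_mod_cast hq
  have h1 : (FF f.natDegree a).eval (n : ℤ) - tt f q a n = q * ⌊f.eval (n : ℝ)⌋ := by
    unfold tt; ring
  have h2 : ((tt f q a n : ℤ) : ℝ) = ((FF f.natDegree a).eval (n : ℤ) : ℤ) -
      q * ((⌊f.eval (n : ℝ)⌋ : ℤ) : ℝ) := by
    unfold tt; push_cast; ring
  have h3 : -((tt f q a n : ℤ) : ℝ) / q = ((⌊f.eval (n : ℝ)⌋ : ℤ) : ℝ) -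
      ((FF f.natDegree a).eval (n : ℤ) : ℤ) / q := by
    rw [h2]
    field_simp
    ring
  refine ⟨⟨_, h1⟩, ?_, ?_⟩
  · rw [h3, pba_θ_eval]
    have := Int.floor_le (f.eval (n : ℝ))
    linarith
  · rw [h3, pba_θ_eval]
    have := Int.lt_floor_add_one (f.eval (n : ℝ))
    linarith

open Classical in
theorem pb_alt (k : ℕ) (hk : 1 ≤ k) (c' : ℝ) (hc' : 0 < c') : ∃ c C : ℝ, 0 < c ∧ 0 < C ∧
    ∀ f : ℝ[X], f.natDegree = k → ∀ (N T q : ℕ) (a : ℕ → ℤ), MajD f N T q a → T ^ 4 ≤ N →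
    ∀ B : Finset ℤ,
    (((Icc 1 N).filter (fun n => tt f q a n ∈ B)).card : ℝ) ≤
      N * (C * (T : ℝ) ^ (-c) + C * (T : ℝ) ^ (c' - 1) * B.card) := by
  have hk0 : (0 : ℝ) < k := by exact_mod_cast hk
  have hk1 : (1 : ℝ) ≤ k := by exact_mod_cast hk
  set b : ℝ := min c' 1 with hb
  have hb0 : 0 < b := lt_min hc' one_pos
  have hb1 : b ≤ 1 := min_le_right _ _
  have hbc : b ≤ c' := min_le_left _ _
  obtain ⟨Cs, hCs, hsing⟩ := pba_sing k hk (b / 8) (by positivity)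
  obtain ⟨Ca, hCa, hAt⟩ := pba_At k hk (b / 8) (by positivity)
  obtain ⟨Cu, hCu, hsub⟩ := sublevel (k - 1)
  set c : ℝ := min (b / 8 / (4 * k)) (b / 2 / k) with hc
  refine ⟨c, Cs + 2 * Cu + 4 * (8 * k + 1) * Ca + 4 * Ca, lt_min (by positivity) (by positivity),
    by positivity, ?_⟩
  rintro f rfl N T q a hM hT4 B
  set k := f.natDegree with hkdef
  have hq := hM.q1
  have hT1 : 1 ≤ T := hq.trans hM.qT
  have hTN : T ≤ N := (Nat.le_self_pow (by norm_num) T).trans hT4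
  have hq0 : (0 : ℝ) < q := by exact_mod_cast hq
  have hT0 : (0 : ℝ) < T := by exact_mod_cast hT1
  have hT1' : (1 : ℝ) ≤ T := by exact_mod_cast hT1
  have hTN' : (T : ℝ) ≤ N := by exact_mod_cast hTN
  have hN0 : (0 : ℝ) < N := by linarith
  have hN1 : 1 ≤ N := hT1.trans hTN
  have hqT' : (q : ℝ) ≤ T := by exact_mod_cast hM.qT
  set F : ℤ[X] := FF k a with hF
  have hFd : F.natDegree ≤ k := pba_natDegree k a
  have hcop : ∀ p : ℕ, p.Prime → p ∣ q → ∃ j, 1 ≤ j ∧ ¬ ((p : ℤ) ∣ F.coeff j) := by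
    intro p hp hpq
    obtain ⟨j, hj, hj2⟩ := hM.cop p hp hpq
    refine ⟨j, (mem_Icc.mp hj).1, ?_⟩
    rw [hF, pba_coeff k a j hj]
    exact hj2
  set At : ℤ → Finset ℕ := fun t => (range q).filter (fun x : ℕ => (q : ℤ) ∣ F.eval (x : ℤ) - t ∧
      ((Int.gcd ((derivative F).eval (x : ℤ)) q : ℕ) : ℝ) ≤ (T : ℝ) ^ (b / 8)) with hAtdef
  have hAtsub : ∀ t, At t ⊆ range q := fun t => filter_subset _ _
  have hAtc : ∀ t, ((At t).card : ℝ) ≤ Ca * (T : ℝ) ^ (b / 2) := by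
    intro t
    have := hAt F hFd q hq hcop T hM.qT t
    rw [show 4 * (b / 8) = b / 2 by ring] at this
    exact this
  -- membership of the residue
  have hmem : ∀ n : ℕ, ((Int.gcd ((derivative F).eval (n : ℤ)) q : ℕ) : ℝ) ≤ (T : ℝ) ^ (b / 8) →
      n % q ∈ At (tt f q a n) := by
    intro n hn
    rw [hAtdef]
    simp only
    rw [mem_filter]
    refine ⟨mem_range.mpr (Nat.mod_lt _ hq), ?_, ?_⟩
    · have h1 := (pba_tt f q hq a n).1
      have h2 := pba_eval_mod F n q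
      have h3 : F.eval ((n % q : ℕ) : ℤ) - tt f q a n =
        (F.eval (n : ℤ) - tt f q a n) - (F.eval (n : ℤ) - F.eval ((n % q : ℕ) : ℤ)) := by ring
      rw [h3]
      exact dvd_sub h1 h2
    · rw [← pb2_gcd_congr (pba_eval_mod (derivative F) n q)]
      exact hn
  set Sing : Finset ℕ := (Icc 1 N).filter (fun n : ℕ => (T : ℝ) ^ (b / 8) <
      ((Int.gcd ((derivative F).eval (n : ℤ)) q : ℕ) : ℝ)) with hSing
  have hSingc : (Sing.card : ℝ) ≤ Cs * (N * (T : ℝ) ^ (-c)) := by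
    refine (hsing F hFd q hq hcop N T hM.qT hTN).trans ?_
    have : (T : ℝ) ^ (-(b / 8 / (4 * k))) ≤ (T : ℝ) ^ (-c) :=
      Real.rpow_le_rpow_of_exponent_le hT1' (neg_le_neg (min_le_left _ _))
    gcongr
  have hpow : (T : ℝ) ^ (b - 1) ≤ (T : ℝ) ^ (c' - 1) :=
    Real.rpow_le_rpow_of_exponent_le hT1' (by linarith)
  have hTc0 : 0 ≤ (T : ℝ) ^ (-c) := by positivity
  have hTc'0 : 0 ≤ (T : ℝ) ^ (c' - 1) := by positivity
  have hB0 : (0 : ℝ) ≤ B.card := by positivity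
  rcases Nat.lt_or_ge (q + 1) T with hbig | hsmall
  rotate_left
  · -- q is at least T / 2
    have hq2 : (T : ℝ) ≤ 2 * q := by
      have : T ≤ 2 * q := by omega
      exact_mod_cast this
    have hcover : (Icc 1 N).filter (fun n => tt f q a n ∈ B) ⊆
        Sing ∪ B.biUnion (fun t => (Icc 1 N).filter (fun n => n % q ∈ At t)) := by
      intro n hn
      rw [mem_filter] at hn
      rw [mem_union]
      by_cases hs : (T : ℝ) ^ (b / 8) < ((Int.gcd ((derivative F).eval (n : ℤ)) q : ℕ) : ℝ)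
      · left
        rw [hSing, mem_filter]
        exact ⟨hn.1, hs⟩
      · right
        rw [mem_biUnion]
        exact ⟨tt f q a n, hn.2, mem_filter.mpr ⟨hn.1, hmem n (not_lt.mp hs)⟩⟩
    have hterm : ∀ t ∈ B, (((Icc 1 N).filter (fun n => n % q ∈ At t)).card : ℝ) ≤
        4 * Ca * (N * (T : ℝ) ^ (b - 1)) := by
      intro t _
      have h0 := pba_count_mod N q hq (At t) (hAtsub t)
      have h1 : (((Icc 1 N).filter (fun n => n % q ∈ At t)).card : ℝ) ≤ (N / q + 1) * (At t).card := by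
        refine le_trans (le_of_eq ?_) h0
        rw [pba_filter_dec (Icc 1 N) _ _ (fun n => Classical.propDecidable _),
          pba_filter_dec (Icc 1 N) (fun n => n % q ∈ At t) _ (fun n => Classical.propDecidable _)]
      have h2 : (N : ℝ) / q + 1 ≤ 4 * (N / T) := by
        have e1 : (N : ℝ) / q ≤ 2 * (N / T) := by
          rw [mul_div_assoc', div_le_div_iff₀ hq0 hT0]
          nlinarith
        have e2 : (1 : ℝ) ≤ N / q := by rw [le_div_iff₀ hq0]; linarith
        linarith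
      have h3 : (T : ℝ) ^ (b / 2) ≤ (T : ℝ) ^ b :=
        Real.rpow_le_rpow_of_exponent_le hT1' (by linarith)
      calc (((Icc 1 N).filter (fun n => n % q ∈ At t)).card : ℝ)
          ≤ (N / q + 1) * (At t).card := h1
        _ ≤ (4 * (N / T)) * (Ca * (T : ℝ) ^ b) := by
            have := hAtc t
            gcongr
            exact this.trans (by gcongr)
        _ = 4 * Ca * (N * ((T : ℝ) ^ b / T)) := by ring
        _ = 4 * Ca * (N * (T : ℝ) ^ (b - 1)) := by
            rw [Real.rpow_sub hT0, Real.rpow_one]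
    calc (((Icc 1 N).filter (fun n => tt f q a n ∈ B)).card : ℝ)
        ≤ ((Sing ∪ B.biUnion (fun t => (Icc 1 N).filter (fun n => n % q ∈ At t))).card : ℝ) := by
          exact_mod_cast card_le_card hcover
      _ ≤ (Sing.card : ℝ) + ∑ t ∈ B, (((Icc 1 N).filter (fun n => n % q ∈ At t)).card : ℝ) := by
          have h1 := card_union_le Sing (B.biUnion (fun t => (Icc 1 N).filter (fun n => n % q ∈ At t)))
          have h2 : (B.biUnion (fun t => (Icc 1 N).filter (fun n => n % q ∈ At t))).card ≤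
            ∑ t ∈ B, ((Icc 1 N).filter (fun n => n % q ∈ At t)).card := card_biUnion_le
          exact_mod_cast h1.trans (Nat.add_le_add_left h2 _)
      _ ≤ Cs * (N * (T : ℝ) ^ (-c)) + ∑ t ∈ B, 4 * Ca * (N * (T : ℝ) ^ (b - 1)) :=
          add_le_add hSingc (sum_le_sum hterm)
      _ = N * (Cs * (T : ℝ) ^ (-c) + 4 * Ca * (T : ℝ) ^ (b - 1) * B.card) := by
          rw [sum_const, nsmul_eq_mul]; ring
      _ ≤ _ := by
          gcongr
          · have : 0 ≤ 4 * (8 * (k : ℝ) + 1) * Ca + 4 * Ca := by positivity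
            linarith
          · have : 0 ≤ 4 * (8 * (k : ℝ) + 1) * Ca := by positivity
            linarith
  · -- the analytic case
    obtain ⟨j0, hj0, hj0'⟩ : ∃ j ∈ Icc 1 k, (T : ℝ) - 1 ≤ |(q : ℝ) * f.coeff j - a j| * (N : ℝ) ^ j := by
      rcases hM.big with h | h
      · omega
      · exact h
    have hT3 : 3 ≤ T := by omega
    have hT3' : (3 : ℝ) ≤ T := by exact_mod_cast hT3
    set θ : ℝ[X] := pbaθ f q a with hθ
    have hθd : θ.natDegree ≤ k := pba_θ_natDegree f q a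
    set lam : ℝ := (T : ℝ) ^ (-(b / 2)) with hlam
    set M' : ℝ := ((T : ℝ) - 1) / (q * N) with hM'
    have hlam0 : 0 < lam := by positivity
    have hlam1 : lam ≤ 1 := Real.rpow_le_one_of_one_le_of_nonpos hT1' (by linarith)
    have hM'0 : 0 < M' := by
      rw [hM']
      have : (0 : ℝ) < T - 1 := by linarith
      positivity
    have hcoef : ∃ j, M' ≤ |(derivative θ).coeff j| * (N : ℝ) ^ j := by
      rw [mem_Icc] at hj0
      obtain ⟨i, rfl⟩ : ∃ i, j0 = i + 1 := ⟨j0 - 1, by omega⟩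
      refine ⟨i, ?_⟩
      rw [coeff_derivative]
      have h1 : θ.coeff (i + 1) = (q * f.coeff (i + 1) - a (i + 1)) / q := by
        rw [hθ]
        unfold pbaθ
        rw [coeff_sub, coeff_C_mul, coeff_map, pba_coeff f.natDegree a (i + 1) (mem_Icc.mpr hj0)]
        simp only [eq_intCast]
        field_simp
      rw [h1, abs_mul, abs_div, abs_of_pos hq0]
      have h2 : (1 : ℝ) ≤ |((i : ℝ) + 1)| := by
        rw [abs_of_nonneg (by positivity)]
        have : (0 : ℝ) ≤ i := by positivity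
        linarith
      have h3 : M' ≤ |(q : ℝ) * f.coeff (i + 1) - a (i + 1)| / q * (N : ℝ) ^ i := by
        rw [hM', div_le_iff₀ (by positivity)]
        calc (T : ℝ) - 1 ≤ |(q : ℝ) * f.coeff (i + 1) - a (i + 1)| * (N : ℝ) ^ (i + 1) := hj0'
          _ = |(q : ℝ) * f.coeff (i + 1) - a (i + 1)| / q * (N : ℝ) ^ i * (q * N) := by
            field_simp
            ring
      calc M' ≤ |(q : ℝ) * f.coeff (i + 1) - a (i + 1)| / q * (N : ℝ) ^ i := h3
        _ = |(q : ℝ) * f.coeff (i + 1) - a (i + 1)| / q * 1 * (N : ℝ) ^ i := by ring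
        _ ≤ |(q : ℝ) * f.coeff (i + 1) - a (i + 1)| / q * |((i : ℝ) + 1)| * (N : ℝ) ^ i := by
            gcongr
    have hdd : (derivative θ).natDegree ≤ k - 1 :=
      (natDegree_derivative_le θ).trans (Nat.sub_le_sub_right hθd 1)
    have hS0 := hsub (derivative θ) hdd N hN1 M' lam hM'0 hlam0 hlam1 hcoef
    set S0 : Finset ℕ := (Icc 1 N).filter (fun n : ℕ => |(derivative θ).eval (n : ℝ)| < lam * M')
      with hS0def
    have hkc : ((k - 1 : ℕ) : ℝ) + 1 = k := by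
      rw [Nat.cast_sub hk]; push_cast; ring
    rw [hkc] at hS0
    have hc1 : c ≤ 1 := (min_le_right _ _).trans (by
      rw [div_le_one hk0]
      linarith)
    have hNT : 1 ≤ N * (T : ℝ) ^ (-c) := by
      rw [Real.rpow_neg hT0.le, ← div_eq_mul_inv, le_div_iff₀ (by positivity), one_mul]
      calc (T : ℝ) ^ c ≤ (T : ℝ) ^ (1 : ℝ) := Real.rpow_le_rpow_of_exponent_le hT1' hc1
        _ = T := Real.rpow_one _
        _ ≤ N := hTN'
    have hS0c : (S0.card : ℝ) ≤ 2 * Cu * (N * (T : ℝ) ^ (-c)) := by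
      refine hS0.trans ?_
      have h1 : lam ^ ((1 : ℝ) / k) ≤ (T : ℝ) ^ (-c) := by
        rw [hlam, ← Real.rpow_mul hT0.le]
        refine Real.rpow_le_rpow_of_exponent_le hT1' ?_
        have : c ≤ b / 2 / k := min_le_right _ _
        have e : -(b / 2) * (1 / (k : ℝ)) = -(b / 2 / k) := by ring
        rw [e]
        linarith
      have hCu0 : 0 ≤ Cu := by linarith
      calc Cu * (N * lam ^ ((1 : ℝ) / k) + 1) ≤ Cu * (N * (T : ℝ) ^ (-c) + N * (T : ℝ) ^ (-c)) := by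
            gcongr
        _ = _ := by ring
    set v : ℝ := lam * M' with hv
    have hv0 : 0 < v := by positivity
    have hcover : (Icc 1 N).filter (fun n => tt f q a n ∈ B) ⊆
        (Sing ∪ S0) ∪ B.biUnion (fun t => (Icc 1 N).filter (fun n : ℕ =>
          pbaQ θ (-(t : ℝ) / q) v n ∧ n % q ∈ At t)) := by
      intro n hn
      rw [mem_filter] at hn
      rw [mem_union, mem_union]
      by_cases hs : (T : ℝ) ^ (b / 8) < ((Int.gcd ((derivative F).eval (n : ℤ)) q : ℕ) : ℝ)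
      · left; left
        rw [hSing, mem_filter]
        exact ⟨hn.1, hs⟩
      · by_cases hs2 : |(derivative θ).eval (n : ℝ)| < lam * M'
        · left; right
          rw [hS0def, mem_filter]
          exact ⟨hn.1, hs2⟩
        · right
          rw [mem_biUnion]
          refine ⟨tt f q a n, hn.2, mem_filter.mpr ⟨hn.1, ⟨?_, ?_, ?_⟩, hmem n (not_lt.mp hs)⟩⟩
          · exact (pba_tt f q hq a n).2.1
          · exact not_le.mpr (pba_tt f q hq a n).2.2
          · rw [eval_neg]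
            exact le_abs.mp (not_lt.mp hs2)
    have hterm : ∀ t ∈ B, (((Icc 1 N).filter (fun n : ℕ =>
          pbaQ θ (-(t : ℝ) / q) v n ∧ n % q ∈ At t)).card : ℝ) ≤
        4 * (8 * k + 1) * Ca * (N * (T : ℝ) ^ (b - 1)) := by
      intro t _
      refine (pba_countQ k θ hθd (-(t : ℝ) / q) v hv0 N q hq (At t) (hAtsub t)).trans ?_
      have h2 : (1 / v + 1) / q + 1 ≤ 4 * (N * (T : ℝ) ^ (b / 2 - 1)) := by
        have e0 : (T : ℝ) ^ (b / 2 - 1) = 1 / (lam * T) := by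
          rw [hlam, Real.rpow_sub hT0, Real.rpow_one, Real.rpow_neg hT0.le]
          field_simp
        have e1 : 1 / v / q ≤ 2 * (N * (1 / (lam * T))) := by
          have : 1 / v / q = N * (1 / (lam * ((T : ℝ) - 1))) := by
            rw [hv, hM']
            have : (T : ℝ) - 1 ≠ 0 := by linarith
            field_simp
          rw [this]
          have h5 : 1 / (lam * ((T : ℝ) - 1)) ≤ 2 * (1 / (lam * T)) := by
            rw [mul_one_div, div_le_div_iff₀ (mul_pos hlam0 (by linarith)) (by positivity)]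
            nlinarith
          nlinarith
        have e2 : 1 ≤ N * (1 / (lam * T)) := by
          rw [mul_one_div, le_div_iff₀ (by positivity)]
          nlinarith
        have e3 : 1 / (q : ℝ) ≤ 1 := by
          rw [div_le_one hq0]
          exact_mod_cast hq
        rw [e0]
        calc (1 / v + 1) / q + 1 = 1 / v / q + 1 / q + 1 := by ring
          _ ≤ 2 * (N * (1 / (lam * T))) + N * (1 / (lam * T)) + N * (1 / (lam * T)) := by linarith
          _ = _ := by ring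
      calc (8 * (k : ℝ) + 1) * (At t).card * ((1 / v + 1) / q + 1)
          ≤ (8 * (k : ℝ) + 1) * (Ca * (T : ℝ) ^ (b / 2)) * (4 * (N * (T : ℝ) ^ (b / 2 - 1))) := by
            have := hAtc t
            gcongr
        _ = 4 * (8 * k + 1) * Ca * (N * ((T : ℝ) ^ (b / 2) * (T : ℝ) ^ (b / 2 - 1))) := by ring
        _ = 4 * (8 * k + 1) * Ca * (N * (T : ℝ) ^ (b - 1)) := by
            rw [← Real.rpow_add hT0]
            congr 3
            ring
    calc (((Icc 1 N).filter (fun n => tt f q a n ∈ B)).card : ℝ)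
        ≤ (((Sing ∪ S0) ∪ B.biUnion (fun t => (Icc 1 N).filter (fun n : ℕ =>
          pbaQ θ (-(t : ℝ) / q) v n ∧ n % q ∈ At t))).card : ℝ) := by
          exact_mod_cast card_le_card hcover
      _ ≤ (Sing.card : ℝ) + S0.card + ∑ t ∈ B, (((Icc 1 N).filter (fun n : ℕ =>
          pbaQ θ (-(t : ℝ) / q) v n ∧ n % q ∈ At t)).card : ℝ) := by
          have h1 := card_union_le (Sing ∪ S0) (B.biUnion (fun t => (Icc 1 N).filter (fun n : ℕ =>
            pbaQ θ (-(t : ℝ) / q) v n ∧ n % q ∈ At t)))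
          have h2 : (B.biUnion (fun t => (Icc 1 N).filter (fun n : ℕ =>
            pbaQ θ (-(t : ℝ) / q) v n ∧ n % q ∈ At t))).card ≤
            ∑ t ∈ B, ((Icc 1 N).filter (fun n : ℕ =>
            pbaQ θ (-(t : ℝ) / q) v n ∧ n % q ∈ At t)).card := card_biUnion_le
          have h3 := card_union_le Sing S0
          exact_mod_cast h1.trans (Nat.add_le_add h3 h2)
      _ ≤ Cs * (N * (T : ℝ) ^ (-c)) + 2 * Cu * (N * (T : ℝ) ^ (-c)) +
          ∑ t ∈ B, 4 * (8 * k + 1) * Ca * (N * (T : ℝ) ^ (b - 1)) :=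
          add_le_add (add_le_add hSingc hS0c) (sum_le_sum hterm)
      _ = N * ((Cs + 2 * Cu) * (T : ℝ) ^ (-c) +
          4 * (8 * k + 1) * Ca * (T : ℝ) ^ (b - 1) * B.card) := by
          rw [sum_const, nsmul_eq_mul]; ring
      _ ≤ _ := by
          have g1 : 0 ≤ 4 * (8 * (k : ℝ) + 1) * Ca := by positivity
          have g2 : 0 ≤ 4 * Ca := by positivity
          have g3 : 0 ≤ 2 * Cu := by positivity
          refine mul_le_mul_of_nonneg_left (add_le_add (mul_le_mul_of_nonneg_right ?_ hTc0)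
            (mul_le_mul_of_nonneg_right (mul_le_mul ?_ hpow (by positivity) (by positivity)) hB0)) hN0.le
          · linarith
          · linarith

end EK75
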