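import Pool.Agent.H75.EK.Defs

/-! Module VIN: Vinogradov's lemma on many multiples close to integers. -/

open Polynomial Finset
open scoped Real BigOperators

namespace EK75

/-- elementary properties of `nint` used everywhere -/
theorem nint_nonneg (x : ℝ) : 0 ≤ nint x := abs_nonneg _

theorem nint_le_half (x : ℝ) : nint x ≤ 1 / 2 := abs_sub_round x

theorem nint_le (x : ℝ) (m : ℤ) : nint x ≤ |x - m| := round_le x m

theorem nint_add (x y : ℝ) : nint (x + y) ≤ nint x + nint y := by
  have h := nint_le (x + y) (round x + round y)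
  refine h.trans ?_
  push_cast
  have : x + y - ((round x : ℝ) + (round y : ℝ)) = (x - round x) + (y - round y) := by ring
  rw [this]
  exact abs_add_le _ _

theorem nint_sub (x y : ℝ) : nint (x - y) ≤ nint x + nint y := by
  have h := nint_le (x - y) (round x - round y)
  refine h.trans ?_
  push_cast
  have : x - y - ((round x : ℝ) - (round y : ℝ)) = (x - round x) - (y - round y) := by ring
  rw [this]
  exact abs_sub _ _

theorem nint_add_int (x : ℝ) (m : ℤ) : nint (x + m) = nint x := by
  unfold nint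
  rw [round_add_intCast]
  push_cast
  congr 1
  ring

theorem nint_nat_mul (q : ℕ) (x : ℝ) : nint (q * x) ≤ q * nint x := by
  have h := nint_le ((q : ℝ) * x) ((q : ℤ) * round x)
  refine h.trans ?_
  push_cast
  have : (q : ℝ) * x - (q : ℝ) * (round x : ℝ) = (q : ℝ) * (x - round x) := by ring
  rw [this, abs_mul, Nat.abs_cast]
  exact le_refl _

theorem nint_int_mul (q : ℤ) (x : ℝ) : nint (q * x) ≤ |(q : ℝ)| * nint x := by
  have h := nint_le ((q : ℝ) * x) (q * round x)
  refine h.trans ?_
  push_cast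
  have : (q : ℝ) * x - (q : ℝ) * (round x : ℝ) = (q : ℝ) * (x - round x) := by ring
  rw [this, abs_mul]
  exact le_refl _

theorem vin_nint_mul_eq (k : ℕ) (x : ℝ) (h : (k : ℝ) * nint x ≤ 1 / 2) :
    (k : ℝ) * nint x ≤ nint (k * x) := by
  -- x = round x + t, |t| = nint x; k*x - m = (k * round x - m) + k t
  set t := x - round x with ht
  have hx : x = round x + t := by rw [ht]; ring
  have hnx : nint x = |t| := rfl
  rw [hnx] at h ⊢
  have e1 : (k : ℝ) * x = (k : ℝ) * t + (((k : ℤ) * round x : ℤ) : ℝ) := by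
    conv_lhs => rw [hx]
    push_cast; ring
  rw [e1, nint_add_int]
  have hk : (k : ℝ) * |t| = |(k : ℝ) * t| := by rw [abs_mul, Nat.abs_cast]
  rw [hk] at h ⊢
  set z := (k : ℝ) * t
  unfold nint
  by_cases hr : round z = 0
  · rw [hr]; simp
  · have h1 : (1 : ℝ) ≤ |((round z : ℤ) : ℝ)| := by
      have : (1 : ℤ) ≤ |round z| := Int.one_le_abs hr
      exact_mod_cast this
    have h2 : |((round z : ℤ) : ℝ)| ≤ |z| + |z - round z| := by
      have : ((round z : ℤ) : ℝ) = z - (z - round z) := by ring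
      rw [this]
      calc |z - (z - ↑(round z))| ≤ |z| + |z - ↑(round z)| := abs_sub _ _
        _ = _ := by ring_nf
    linarith

open Classical in
theorem vin_gap (S : Finset ℕ) (H : ℕ) (δ2 : ℝ) (hS : S ⊆ Icc 1 H) (h2 : 0 < δ2)
    (hH : 2 ≤ δ2 * H) (hc : δ2 * H ≤ (S.card : ℝ)) :
    ∃ a ∈ S, ∃ b ∈ S, a < b ∧ ((b - a : ℕ) : ℝ) ≤ 2 / δ2 := by
  set g := ⌊2 / δ2⌋₊ with hg
  have hg1 : 2 / δ2 < (g : ℝ) + 1 := Nat.lt_floor_add_one _
  have hg2 : (g : ℝ) ≤ 2 / δ2 := Nat.floor_le (by positivity)
  have hlt : (range (H / (g + 1) + 1)).card < S.card := by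
    rw [card_range]
    have h3 : (((H / (g + 1) + 1 : ℕ)) : ℝ) < (S.card : ℝ) := by
      push_cast
      have h4 : ((H / (g + 1) : ℕ) : ℝ) ≤ (H : ℝ) / ((g + 1 : ℕ) : ℝ) := Nat.cast_div_le
      have h5 : (H : ℝ) / ((g + 1 : ℕ) : ℝ) < δ2 * H / 2 := by
        have hHpos : (0 : ℝ) < H := by
          by_contra hneg
          push Not at hneg
          nlinarith
        rw [div_lt_iff₀ (by positivity)]
        push_cast
        rw [div_lt_iff₀ h2] at hg1
        nlinarith
      linarith
    exact_mod_cast h3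
  obtain ⟨a, ha, b, hb, hab, he⟩ := exists_ne_map_eq_of_card_lt_of_maps_to hlt
    (f := fun h => h / (g + 1)) (by
      intro h hh
      have := hS hh
      rw [mem_Icc] at this
      simp only [coe_range, Set.mem_Iio]
      exact Nat.lt_succ_of_le (Nat.div_le_div_right this.2))
  have key : ∀ a b : ℕ, a < b → a / (g + 1) = b / (g + 1) → ((b - a : ℕ) : ℝ) ≤ 2 / δ2 := by
    intro a b hab he
    refine le_trans ?_ hg2
    have h6 := Nat.div_add_mod a (g + 1)
    have h7 := Nat.div_add_mod b (g + 1)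
    have h8 : b % (g + 1) < g + 1 := Nat.mod_lt b (Nat.succ_pos g)
    rw [he] at h6
    have h9 : b - a ≤ g := by omega
    exact_mod_cast h9
  rcases lt_or_gt_of_ne hab with h | h
  · exact ⟨a, ha, b, hb, h, key a b h he⟩
  · exact ⟨b, hb, a, ha, h, key b a h he.symm⟩

open Classical in
theorem vinogradov (β : ℝ) (H : ℕ) (δ1 δ2 : ℝ) (hH : 1 ≤ H) (h2 : 0 < δ2) (h2' : δ2 ≤ 1)
    (h1 : 0 ≤ δ1) (h12 : 32 * δ1 ≤ δ2)
    (hc : δ2 * H ≤ (((Icc 1 H).filter (fun h : ℕ => nint (β * h) ≤ δ1)).card : ℝ)) :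
    ∃ q : ℕ, 1 ≤ q ∧ (q : ℝ) ≤ 2 / δ2 ∧ nint (q * β) * H ≤ 16 * δ1 / δ2 ^ 2 := by
  set S := (Icc 1 H).filter (fun h : ℕ => nint (β * h) ≤ δ1) with hSdef
  have hHpos : (0 : ℝ) < H := by exact_mod_cast hH
  have hHS : ∀ h ∈ S, 1 ≤ h ∧ h ≤ H ∧ nint (β * h) ≤ δ1 := by
    intro h hh
    rw [hSdef, mem_filter, mem_Icc] at hh
    exact ⟨hh.1.1, hh.1.2, hh.2⟩
  rcases lt_or_ge (δ2 * H) 2 with hsmall | hbig
  · have hcard : 0 < (S.card : ℝ) := lt_of_lt_of_le (by positivity) hc
    have hne : S.Nonempty := by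
      rw [← card_pos]; exact_mod_cast hcard
    obtain ⟨h, hh⟩ := hne
    obtain ⟨a1, a2, a3⟩ := hHS h hh
    have hH2 : (H : ℝ) ≤ 2 / δ2 := by
      rw [le_div_iff₀ h2]; nlinarith
    refine ⟨h, a1, ?_, ?_⟩
    · exact le_trans (by exact_mod_cast a2) hH2
    · rw [mul_comm (h : ℝ) β]
      calc nint (β * h) * H ≤ δ1 * (2 / δ2) := by
            apply mul_le_mul a3 hH2 hHpos.le h1
        _ = δ1 * 2 / δ2 := by ring
        _ ≤ 16 * δ1 / δ2 ^ 2 := by
            rw [div_le_div_iff₀ h2 (by positivity)]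
            nlinarith [mul_nonneg h1 h2.le, mul_nonneg (mul_nonneg h1 h2.le) h2.le,
              mul_nonneg (mul_nonneg h1 h2.le) (sub_nonneg.2 h2')]
  · obtain ⟨a, ha, b, hb, hab, hq⟩ := vin_gap S H δ2 (filter_subset _ _) h2 hbig hc
    set q := b - a with hqdef
    have hq1 : 1 ≤ q := by omega
    have hqpos : (0 : ℝ) < q := by exact_mod_cast hq1
    set ν := nint (q * β) with hν
    have hν0 : 0 ≤ ν := nint_nonneg _
    have hν1 : ν ≤ 2 * δ1 := by
      have e : (q : ℝ) * β = β * b - β * a := by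
        rw [hqdef, Nat.cast_sub hab.le]; ring
      rw [hν, e]
      refine (nint_sub _ _).trans ?_
      linarith [(hHS a ha).2.2, (hHS b hb).2.2]
    refine ⟨q, hq1, hq, ?_⟩
    change ν * H ≤ 16 * δ1 / δ2 ^ 2
    rcases hν0.eq_or_lt with h0 | hνpos
    · rw [← h0, zero_mul]; positivity
    have hνhalf : ν ≤ 1 / 2 := nint_le_half _
    set L := ⌊1 / (2 * ν)⌋₊ with hL
    have hx1 : (1 : ℝ) ≤ 1 / (2 * ν) := by
      rw [le_div_iff₀ (by positivity)]; linarith
    have hL1 : 1 ≤ L := by
      rw [hL, Nat.one_le_floor_iff]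
      exact hx1
    have hLle : (L : ℝ) ≤ 1 / (2 * ν) := Nat.floor_le (by positivity)
    have hLge : 1 / (4 * ν) ≤ (L : ℝ) := by
      have h3 : 1 / (2 * ν) < (L : ℝ) + 1 := Nat.lt_floor_add_one _
      have h4 : (1 : ℝ) ≤ L := by exact_mod_cast hL1
      have h5 : 1 / (4 * ν) = (1 / (2 * ν)) / 2 := by field_simp; norm_num
      rw [h5]; linarith
    set K := ⌊2 * δ1 / ν⌋₊ with hK
    have hKle : (K : ℝ) ≤ 2 * δ1 / ν := Nat.floor_le (by positivity)
    -- counting
    have hqL : 0 < q * L := Nat.mul_pos hq1 hL1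
    set key : ℕ → ℕ × ℕ := fun h => (h / (q * L), h % q) with hkey
    have hmaps : ∀ h ∈ S, key h ∈ (range (H / (q * L) + 1)) ×ˢ (range q) := by
      intro h hh
      rw [mem_product, mem_range, mem_range]
      exact ⟨Nat.lt_succ_of_le (Nat.div_le_div_right (hHS h hh).2.1), Nat.mod_lt _ hq1⟩
    have hfib : ∀ y ∈ (range (H / (q * L) + 1)) ×ˢ (range q),
        (S.filter (fun h => key h = y)).card ≤ K + 1 := by
      intro y _
      rcases (S.filter (fun h => key h = y)).eq_empty_or_nonempty with he | hne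
      · rw [he]; simp
      · set F := S.filter (fun h => key h = y) with hF
        set m := F.min' hne with hm
        have hmF : m ∈ F := min'_mem _ _
        have hsub : F ⊆ (range (K + 1)).image (fun k => m + q * k) := by
          intro h hh
          have hmh : m ≤ h := min'_le _ _ hh
          have hkm : key m = y := (mem_filter.1 hmF).2
          have hkh : key h = y := (mem_filter.1 hh).2
          have hmS : m ∈ S := (mem_filter.1 hmF).1
          have hhS : h ∈ S := (mem_filter.1 hh).1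
          have hk1 : h / (q * L) = m / (q * L) ∧ h % q = m % q := by
            have := hkh.trans hkm.symm
            rw [hkey] at this
            simpa [Prod.ext_iff] using this
          have hdvd : q ∣ h - m := (Nat.modEq_iff_dvd' hmh).1 (hk1.2.symm)
          obtain ⟨k, hk⟩ := hdvd
          have hlt : h - m < q * L := by
            have h6 := Nat.div_add_mod h (q * L)
            have h7 := Nat.div_add_mod m (q * L)
            have h8 := Nat.mod_lt h hqL
            rw [hk1.1] at h6
            omega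
          have hkL : k < L := by
            rw [hk] at hlt
            exact lt_of_mul_lt_mul_left hlt (Nat.zero_le _)
          have hkK : k ≤ K := by
            rw [hK, Nat.le_floor_iff (by positivity), le_div_iff₀ hνpos]
            have h9 : (k : ℝ) * ν ≤ 1 / 2 := by
              have : (k : ℝ) ≤ L := by exact_mod_cast hkL.le
              calc (k : ℝ) * ν ≤ (1 / (2 * ν)) * ν := by
                    apply mul_le_mul_of_nonneg_right (this.trans hLle) hνpos.le
                _ = 1 / 2 := by field_simp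
            have h10 := vin_nint_mul_eq k ((q : ℝ) * β) h9
            refine h10.trans ?_
            have e : (k : ℝ) * ((q : ℝ) * β) = β * h - β * m := by
              have : (h : ℝ) = m + q * k := by
                have : h = m + q * k := by omega
                exact_mod_cast this
              rw [this]; ring
            rw [e]
            refine (nint_sub _ _).trans ?_
            linarith [(hHS m hmS).2.2, (hHS h hhS).2.2]
          rw [mem_image]
          exact ⟨k, by rw [mem_range]; omega, by omega⟩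
        calc F.card ≤ ((range (K + 1)).image (fun k => m + q * k)).card := card_le_card hsub
          _ ≤ (range (K + 1)).card := card_image_le
          _ = K + 1 := card_range _
    have hcount : S.card ≤ ((H / (q * L) + 1) * q) * (K + 1) := by
      have := card_le_mul_card_image_of_maps_to hmaps (K + 1) hfib
      rw [card_product, card_range, card_range] at this
      linarith
    have hcountR : (S.card : ℝ) ≤ ((H / (q * L) + 1) * q) * (2 * δ1 / ν + 1) := by
      have h11 : (S.card : ℝ) ≤ ((((H / (q * L) : ℕ) : ℝ) + 1) * q) * (K + 1) := by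
        exact_mod_cast hcount
      have h12 : ((H / (q * L) : ℕ) : ℝ) ≤ (H : ℝ) / ((q : ℝ) * L) := by
        have : ((H / (q * L) : ℕ) : ℝ) ≤ (H : ℝ) / ((q * L : ℕ) : ℝ) := Nat.cast_div_le
        push_cast at this
        exact this
      refine h11.trans ?_
      apply mul_le_mul _ (by linarith) (by positivity) (by positivity)
      apply mul_le_mul_of_nonneg_right _ hqpos.le
      linarith
    have hLpos : (0 : ℝ) < L := by exact_mod_cast hL1
    have hfin : (S.card : ℝ) ≤ 16 * δ1 * H + 2 * q * δ1 / ν + q := by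
      refine hcountR.trans ?_
      have h13 : ((H : ℝ) / (q * L) + 1) * q = H / L + q := by field_simp
      rw [h13]
      have h14 : (H : ℝ) / L ≤ 4 * ν * H := by
        rw [div_le_iff₀ hLpos]
        have : 1 ≤ 4 * ν * L := by
          rw [div_le_iff₀ (by positivity)] at hLge
          linarith
        nlinarith
      have h15 : 0 ≤ 2 * δ1 / ν + 1 := by positivity
      calc (H / L + q) * (2 * δ1 / ν + 1) ≤ (4 * ν * H + q) * (2 * δ1 / ν + 1) := by
            apply mul_le_mul_of_nonneg_right _ h15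
            linarith
        _ = 8 * δ1 * H + 4 * ν * H + 2 * q * δ1 / ν + q := by field_simp; ring
        _ ≤ 16 * δ1 * H + 2 * q * δ1 / ν + q := by nlinarith
    have hmain : δ2 * H / 2 ≤ 2 * q * δ1 / ν + q := by nlinarith
    rcases le_or_gt (q : ℝ) (δ2 * H / 4) with hq4 | hq4
    · have h16 : δ2 * H / 4 ≤ 2 * q * δ1 / ν := by linarith
      rw [le_div_iff₀ hνpos] at h16
      have h17 : 2 * (q : ℝ) * δ1 ≤ 4 / δ2 * δ1 := by
        have : 2 * (q : ℝ) ≤ 4 / δ2 := by
          have : 4 / δ2 = 2 * (2 / δ2) := by ring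
          linarith
        exact mul_le_mul_of_nonneg_right this h1
      rw [le_div_iff₀ (by positivity)]
      have h18 : δ2 * H / 4 * ν ≤ 4 / δ2 * δ1 := h16.trans h17
      have h19 : δ2 * (δ2 * H / 4 * ν) ≤ δ2 * (4 / δ2 * δ1) :=
        mul_le_mul_of_nonneg_left h18 h2.le
      have h20 : δ2 * (4 / δ2 * δ1) = 4 * δ1 := by field_simp
      rw [h20] at h19
      nlinarith
    · have h21 : (H : ℝ) ≤ 8 / δ2 ^ 2 := by
        rw [le_div_iff₀ (by positivity)]
        have h22 : δ2 * H < 4 * q := by linarith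
        have h23 : (q : ℝ) * δ2 ≤ 2 := by
          rw [le_div_iff₀ h2] at hq; exact hq
        nlinarith
      calc ν * H ≤ (2 * δ1) * (8 / δ2 ^ 2) := by
            apply mul_le_mul hν1 h21 hHpos.le (by positivity)
        _ = 16 * δ1 / δ2 ^ 2 := by ring

theorem ee_add (x y : ℝ) : ee (x + y) = ee x * ee y := by
  unfold ee
  rw [← Complex.exp_add]
  congr 1
  push_cast
  ring

theorem ee_int (m : ℤ) : ee m = 1 := by
  unfold ee
  have : (2 * (π : ℂ) * ((m : ℝ) : ℂ) * Complex.I) = m * (2 * π * Complex.I) := by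
    push_cast; ring
  rw [this, Complex.exp_int_mul_two_pi_mul_I]

theorem norm_ee (x : ℝ) : ‖ee x‖ = 1 := by
  unfold ee
  have : (2 * (π : ℂ) * ((x : ℝ) : ℂ) * Complex.I) = ((2 * π * x : ℝ) : ℂ) * Complex.I := by
    push_cast; ring
  rw [this, Complex.norm_exp_ofReal_mul_I]

theorem ee_sub_le (x y : ℝ) : ‖ee x - ee y‖ ≤ 2 * π * |x - y| := by
  have h : ee x = ee y * ee (x - y) := by
    rw [← ee_add]; congr 1; ring
  have h2 : ee x - ee y = ee y * (ee (x - y) - 1) := by rw [h]; ring
  rw [h2, norm_mul, norm_ee, one_mul]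
  unfold ee
  have h3 : (2 * (π : ℂ) * ((x - y : ℝ) : ℂ) * Complex.I)
      = Complex.I * ((2 * π * (x - y) : ℝ) : ℂ) := by
    push_cast; ring
  rw [h3]
  refine (Real.norm_exp_I_mul_ofReal_sub_one_le).trans ?_
  rw [Real.norm_eq_abs, abs_mul, abs_of_pos (by positivity : (0 : ℝ) < 2 * π)]

theorem vin_norm_ee_sub_one (x : ℝ) : 4 * nint x ≤ ‖ee x - 1‖ := by
  set t := x - round x with ht
  have hx : x = t + (round x : ℤ) := by rw [ht]; ring
  have e1 : ee x = ee t := by
    conv_lhs => rw [hx]
    rw [ee_add, ee_int, mul_one]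
  have hn : nint x = |t| := rfl
  rw [e1, hn]
  have ht2 : |t| ≤ 1 / 2 := abs_sub_round x
  have e2 : ‖ee t - 1‖ = 2 * |Real.sin (π * t)| := by
    have h3 : ee t = Complex.exp (Complex.I * ((2 * π * t : ℝ) : ℂ)) := by
      unfold ee; congr 1; push_cast; ring
    rw [h3, Complex.norm_exp_I_mul_ofReal_sub_one]
    rw [Real.norm_eq_abs, abs_mul, abs_of_pos (by norm_num : (0 : ℝ) < 2)]
    congr 3
    ring
  rw [e2]
  have h4 : 2 * |t| ≤ |Real.sin (π * t)| := by
    have h5 : |Real.sin (π * t)| = Real.sin (π * |t|) := by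
      rcases le_or_gt 0 t with h | h
      · rw [abs_of_nonneg h, abs_of_nonneg]
        apply Real.sin_nonneg_of_nonneg_of_le_pi (by positivity)
        rw [abs_of_nonneg h] at ht2
        nlinarith [Real.pi_pos]
      · rw [abs_of_neg h, mul_neg, Real.sin_neg, abs_of_nonpos]
        have : 0 ≤ Real.sin (π * (-t)) := by
          apply Real.sin_nonneg_of_nonneg_of_le_pi
          · nlinarith [Real.pi_pos]
          · rw [abs_of_neg h] at ht2
            nlinarith [Real.pi_pos]
        rw [mul_neg, Real.sin_neg] at this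
        linarith
    rw [h5]
    have h6 := Real.mul_le_sin (x := π * |t|) (by positivity) (by nlinarith [Real.pi_pos])
    calc 2 * |t| = 2 / π * (π * |t|) := by field_simp
      _ ≤ _ := h6
  linarith

/-- geometric sum -/
theorem geom_ee (β : ℝ) (M : ℕ) (x0 : ℝ) :
    ‖∑ n ∈ range M, ee (x0 + β * n)‖ * nint β ≤ 1 / 2 := by
  rcases (nint_nonneg β).eq_or_lt with h0 | hpos
  · rw [← h0, mul_zero]; norm_num
  have hlow := vin_norm_ee_sub_one β
  have hne : ee β ≠ 1 := by
    intro h
    rw [h, sub_self, norm_zero] at hlow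
    linarith
  have hpow : ∀ n : ℕ, ee (β * n) = (ee β) ^ n := by
    intro n
    induction n with
    | zero => simp [ee]
    | succ n ih =>
      rw [pow_succ, ← ih, ← ee_add]
      congr 1
      push_cast
      ring
  have hsum : ∑ n ∈ range M, ee (x0 + β * n) = ee x0 * (((ee β) ^ M - 1) / (ee β - 1)) := by
    rw [← geom_sum_eq hne, mul_sum]
    apply sum_congr rfl
    intro n _
    rw [ee_add, hpow]
  rw [hsum, norm_mul, norm_ee, one_mul, norm_div]
  have hnum : ‖(ee β) ^ M - 1‖ ≤ 2 := by
    refine (norm_sub_le _ _).trans ?_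
    rw [norm_pow, norm_ee, one_pow, norm_one]
    norm_num
  have hdpos : 0 < ‖ee β - 1‖ := norm_pos_iff.2 (sub_ne_zero.2 hne)
  rw [div_mul_eq_mul_div, div_le_iff₀ hdpos]
  have hn0 : 0 ≤ ‖(ee β) ^ M - 1‖ := norm_nonneg _
  nlinarith

end EK75
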