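import Pool.Agent.H75.EK.Vin

/-! Module WEYL: inverse Weyl inequality for all coefficients. -/

open Polynomial Finset
open scoped Real BigOperators

namespace EK75

/-! ### polynomial bounds in `1/κ` -/

/-- `(C/κ)^C` -/
noncomputable def wBd (κ : ℝ) (C : ℕ) : ℝ := ((C : ℝ) / κ) ^ C

theorem weyl_one_le_div {κ : ℝ} (h0 : 0 < κ) (h1 : κ ≤ 1) {C : ℕ} (hC : 1 ≤ C) :
    1 ≤ (C : ℝ) / κ := by
  rw [le_div_iff₀ h0, one_mul]
  exact h1.trans (by exact_mod_cast hC)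

theorem weyl_bd_one {κ : ℝ} (h0 : 0 < κ) (h1 : κ ≤ 1) {C : ℕ} (hC : 1 ≤ C) : 1 ≤ wBd κ C :=
  one_le_pow₀ (weyl_one_le_div h0 h1 hC)

theorem weyl_bd_mul {κ : ℝ} (h0 : 0 < κ) (h1 : κ ≤ 1) {C D : ℕ} (hC : 1 ≤ C) (hD : 1 ≤ D) :
    wBd κ C * wBd κ D ≤ wBd κ (C + D) := by
  unfold wBd
  rw [pow_add]
  have hC0 := weyl_one_le_div h0 h1 hC
  have hD0 := weyl_one_le_div h0 h1 hD
  apply mul_le_mul
  · apply pow_le_pow_left₀ (by linarith)
    apply div_le_div_of_nonneg_right _ h0.le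
    push_cast
    have : (0 : ℝ) ≤ D := Nat.cast_nonneg _
    linarith
  · apply pow_le_pow_left₀ (by linarith)
    apply div_le_div_of_nonneg_right _ h0.le
    push_cast
    have : (0 : ℝ) ≤ C := Nat.cast_nonneg _
    linarith
  · positivity
  · positivity

theorem weyl_bd_mono {κ : ℝ} (h0 : 0 < κ) (h1 : κ ≤ 1) {C D : ℕ} (hC : 1 ≤ C) (hD : C ≤ D) :
    wBd κ C ≤ wBd κ D := by
  unfold wBd
  have hC0 := weyl_one_le_div h0 h1 hC
  calc ((C : ℝ) / κ) ^ C ≤ ((D : ℝ) / κ) ^ C := by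
        apply pow_le_pow_left₀ (by linarith)
        apply div_le_div_of_nonneg_right _ h0.le
        exact_mod_cast hD
    _ ≤ ((D : ℝ) / κ) ^ D := pow_le_pow_right₀ (weyl_one_le_div h0 h1 (hC.trans hD)) hD

/-- polynomially bounded in `1/κ`, nonnegative -/
def PBd (f : ℝ → ℝ) : Prop :=
  ∃ C : ℕ, 1 ≤ C ∧ ∀ κ : ℝ, 0 < κ → κ ≤ 1 → 0 ≤ f κ ∧ f κ ≤ wBd κ C

theorem PBd.mono {f g : ℝ → ℝ} (hf : PBd f) (h0 : ∀ κ, 0 < κ → κ ≤ 1 → 0 ≤ g κ)
    (h1 : ∀ κ, 0 < κ → κ ≤ 1 → g κ ≤ f κ) : PBd g := by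
  obtain ⟨C, hC, h⟩ := hf
  exact ⟨C, hC, fun κ hκ hκ1 => ⟨h0 κ hκ hκ1, (h1 κ hκ hκ1).trans (h κ hκ hκ1).2⟩⟩

theorem PBd.mul {f g : ℝ → ℝ} (hf : PBd f) (hg : PBd g) : PBd fun κ => f κ * g κ := by
  obtain ⟨C, hC, h⟩ := hf
  obtain ⟨D, hD, h'⟩ := hg
  refine ⟨C + D, by omega, fun κ hκ hκ1 => ?_⟩
  obtain ⟨a, b⟩ := h κ hκ hκ1
  obtain ⟨a', b'⟩ := h' κ hκ hκ1
  refine ⟨mul_nonneg a a', ?_⟩
  exact (mul_le_mul b b' a' (by linarith [weyl_bd_one hκ hκ1 hC])).trans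
    (weyl_bd_mul hκ hκ1 hC hD)

theorem PBd.add {f g : ℝ → ℝ} (hf : PBd f) (hg : PBd g) : PBd fun κ => f κ + g κ := by
  obtain ⟨C, hC, h⟩ := hf
  obtain ⟨D, hD, h'⟩ := hg
  refine ⟨C + D + 2, by omega, fun κ hκ hκ1 => ?_⟩
  obtain ⟨a, b⟩ := h κ hκ hκ1
  obtain ⟨a', b'⟩ := h' κ hκ hκ1
  refine ⟨add_nonneg a a', ?_⟩
  have h1 := weyl_bd_one hκ hκ1 hC
  have h2 := weyl_bd_one hκ hκ1 hD
  have h3 : wBd κ C * wBd κ D ≤ wBd κ (C + D) := weyl_bd_mul hκ hκ1 hC hD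
  have h4 : wBd κ (C + D) * wBd κ 2 ≤ wBd κ (C + D + 2) := weyl_bd_mul hκ hκ1 (by omega) (by omega)
  have h5 : (2 : ℝ) ≤ wBd κ 2 := by
    unfold wBd
    have h6 : (2 : ℝ) ≤ (2 : ℝ) / κ := by
      rw [le_div_iff₀ hκ]; linarith
    push_cast
    nlinarith
  have h7 : wBd κ C + wBd κ D ≤ (wBd κ C * wBd κ D) * 2 := by nlinarith
  have h8 : (wBd κ C * wBd κ D) * 2 ≤ wBd κ (C + D) * wBd κ 2 :=
    mul_le_mul h3 h5 (by norm_num) (by linarith [weyl_bd_one hκ hκ1 (C := C + D) (by omega)])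
  have h9 : f κ + g κ ≤ wBd κ C + wBd κ D := add_le_add b b'
  exact h9.trans (h7.trans (h8.trans h4))

theorem PBd.pow {f : ℝ → ℝ} (hf : PBd f) (n : ℕ) : PBd fun κ => f κ ^ n := by
  induction n with
  | zero =>
    refine ⟨1, le_rfl, fun κ hκ hκ1 => ?_⟩
    simp only [pow_zero]
    exact ⟨zero_le_one, weyl_bd_one hκ hκ1 le_rfl⟩
  | succ n ih =>
    have := ih.mul hf
    simpa only [pow_succ] using this

theorem PBd.const {c : ℝ} (hc : 0 ≤ c) : PBd fun _ => c := by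
  refine ⟨⌈c⌉₊ + 1, by omega, fun κ hκ hκ1 => ⟨hc, ?_⟩⟩
  unfold wBd
  have h1 := weyl_one_le_div hκ hκ1 (C := ⌈c⌉₊ + 1) (by omega)
  calc c ≤ (⌈c⌉₊ : ℝ) := Nat.le_ceil c
    _ ≤ ((⌈c⌉₊ + 1 : ℕ) : ℝ) := by push_cast; linarith
    _ ≤ ((⌈c⌉₊ + 1 : ℕ) : ℝ) / κ := by
        rw [le_div_iff₀ hκ]
        have : (0 : ℝ) ≤ ((⌈c⌉₊ + 1 : ℕ) : ℝ) := Nat.cast_nonneg _
        nlinarith
    _ ≤ (((⌈c⌉₊ + 1 : ℕ) : ℝ) / κ) ^ (⌈c⌉₊ + 1) := le_self_pow₀ h1 (by omega)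

theorem PBd.inv : PBd fun κ => κ⁻¹ := by
  refine ⟨1, le_rfl, fun κ hκ _ => ⟨by positivity, ?_⟩⟩
  unfold wBd
  simp

theorem PBd.subst {f u : ℝ → ℝ} (hf : PBd f) (hu : ∀ κ, 0 < κ → κ ≤ 1 → 0 < u κ ∧ u κ ≤ 1)
    (hg : PBd fun κ => (u κ)⁻¹) : PBd fun κ => f (u κ) := by
  obtain ⟨C, hC, h⟩ := hf
  have h1 : PBd fun κ => ((C : ℝ) * (u κ)⁻¹) ^ C :=
    ((PBd.const (Nat.cast_nonneg C)).mul hg).pow C
  refine h1.mono (fun κ h0 h1 => (h _ (hu κ h0 h1).1 (hu κ h0 h1).2).1) fun κ h0 h1 => ?_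
  have := (h _ (hu κ h0 h1).1 (hu κ h0 h1).2).2
  rw [← div_eq_mul_inv]
  exact this

/-! ### elementary lemmas -/

theorem weyl_nint_zero : nint 0 = 0 := by simp [nint]

theorem weyl_nint_sum {ι : Type*} (s : Finset ι) (f : ι → ℝ) :
    nint (∑ i ∈ s, f i) ≤ ∑ i ∈ s, nint (f i) := by
  classical
  induction s using Finset.induction_on with
  | empty => simp [weyl_nint_zero]
  | insert a s ha ih =>
    rw [Finset.sum_insert ha, Finset.sum_insert ha]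
    exact (nint_add _ _).trans (by linarith)

/-- van der Corput identity -/
theorem weyl_vdc (a : ℕ → ℂ) (N : ℕ) :
    (‖∑ n ∈ Icc 1 N, a n‖ ^ 2 : ℝ) = ∑ n ∈ Icc 1 N, ‖a n‖ ^ 2 +
      2 * (∑ h ∈ Ico 1 N, ∑ n ∈ Icc 1 (N - h), a (n + h) * (starRingEnd ℂ) (a n)).re := by
  induction N with
  | zero => simp
  | succ N ih =>
    rw [Finset.sum_Icc_succ_top (by omega), Finset.sum_Icc_succ_top (by omega)]
    have h1 : ∑ h ∈ Ico 1 (N + 1), ∑ n ∈ Icc 1 (N + 1 - h), a (n + h) * (starRingEnd ℂ) (a n) =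
        ∑ h ∈ Ico 1 N, ∑ n ∈ Icc 1 (N - h), a (n + h) * (starRingEnd ℂ) (a n) +
        a (N + 1) * (starRingEnd ℂ) (∑ n ∈ Icc 1 N, a n) := by
      have h2 : ∑ h ∈ Ico 1 (N + 1), ∑ n ∈ Icc 1 (N + 1 - h), a (n + h) * (starRingEnd ℂ) (a n) =
          ∑ h ∈ Ico 1 (N + 1), (∑ n ∈ Icc 1 (N - h), a (n + h) * (starRingEnd ℂ) (a n) +
            a (N + 1) * (starRingEnd ℂ) (a (N + 1 - h))) := by
        apply Finset.sum_congr rfl
        intro h hh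
        rw [Finset.mem_Ico] at hh
        have e1 : N + 1 - h = (N - h) + 1 := by omega
        rw [e1, Finset.sum_Icc_succ_top (by omega)]
        have e2 : N - h + 1 + h = N + 1 := by omega
        rw [e2]
      rw [h2, Finset.sum_add_distrib]
      congr 1
      · rcases Nat.eq_zero_or_pos N with h0 | h0
        · subst h0; simp
        · rw [Finset.sum_Ico_succ_top (by omega)]
          simp
      · rw [map_sum, Finset.mul_sum]
        apply Finset.sum_bij' (fun h _ => N + 1 - h) (fun n _ => N + 1 - n)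
        · intro h hh
          rw [Finset.mem_Ico] at hh
          rw [Finset.mem_Icc]
          omega
        · intro n hn
          rw [Finset.mem_Icc] at hn
          rw [Finset.mem_Ico]
          omega
        · intro h hh
          rw [Finset.mem_Ico] at hh
          omega
        · intro n hn
          rw [Finset.mem_Icc] at hn
          omega
        · intro h _
          rfl
    rw [h1, Complex.add_re, mul_add]
    set S := ∑ n ∈ Icc 1 N, a n with hS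
    have h3 : (‖S + a (N + 1)‖ ^ 2 : ℝ) = ‖S‖ ^ 2 + ‖a (N + 1)‖ ^ 2 +
        2 * (a (N + 1) * (starRingEnd ℂ) S).re := by
      rw [← Complex.normSq_eq_norm_sq, ← Complex.normSq_eq_norm_sq, ← Complex.normSq_eq_norm_sq,
        Complex.normSq_add]
      congr 2
      rw [← Complex.conj_re (S * _)]
      simp [mul_comm]
    rw [h3, ih]
    ring

theorem weyl_vdc_le (a : ℕ → ℂ) (ha : ∀ n, ‖a n‖ = 1) (N : ℕ) :
    (‖∑ n ∈ Icc 1 N, a n‖ ^ 2 : ℝ) ≤ N +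
      2 * ∑ h ∈ Ico 1 N, ‖∑ n ∈ Icc 1 (N - h), a (n + h) * (starRingEnd ℂ) (a n)‖ := by
  rw [weyl_vdc]
  apply add_le_add
  · simp [ha]
  · apply mul_le_mul_of_nonneg_left _ (by norm_num)
    exact (Complex.re_le_norm _).trans (norm_sum_le _ _)

/-- affine substitution -/
theorem weyl_affine (k : ℕ) (γ : ℕ → ℝ) (x0 q m : ℝ) :
    ∑ j ∈ Icc 1 k, γ j * (x0 + q * m) ^ j = (∑ j ∈ Icc 1 k, γ j * x0 ^ j) +
      ∑ i ∈ Icc 1 k, (q ^ i * ∑ j ∈ Icc i k, (j.choose i : ℝ) * γ j * x0 ^ (j - i)) * m ^ i := by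
  have h1 : ∀ j ∈ Icc 1 k, γ j * (x0 + q * m) ^ j = γ j * x0 ^ j +
      ∑ i ∈ Icc 1 j, q ^ i * ((j.choose i : ℝ) * γ j * x0 ^ (j - i)) * m ^ i := by
    intro j hj
    rw [add_comm x0, add_pow, Finset.range_eq_Ico, Finset.sum_eq_sum_Ico_succ_bot (by omega),
      mul_add]
    congr 1
    · simp
    · rw [Finset.mul_sum]
      apply Finset.sum_congr
      · ext i
        simp only [Finset.mem_Ico, Finset.mem_Icc]
        omega
      · intro i _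
        rw [mul_pow]
        ring
  rw [Finset.sum_congr rfl h1, Finset.sum_add_distrib]
  congr 1
  have h2 : ∑ j ∈ Icc 1 k, ∑ i ∈ Icc 1 j, q ^ i * ((j.choose i : ℝ) * γ j * x0 ^ (j - i)) * m ^ i =
      ∑ i ∈ Icc 1 k, ∑ j ∈ Icc i k, q ^ i * ((j.choose i : ℝ) * γ j * x0 ^ (j - i)) * m ^ i := by
    apply Finset.sum_comm'
    intro j i
    simp only [Finset.mem_Icc]
    omega
  rw [h2]
  apply Finset.sum_congr rfl
  intro i _
  rw [Finset.mul_sum, Finset.sum_mul]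

/-- shifting the range of summation -/
theorem weyl_shift (a : ℕ → ℂ) (ha : ∀ n, ‖a n‖ = 1) (N d : ℕ) :
    ‖∑ n ∈ Icc 1 N, a n - ∑ n ∈ Icc 1 N, a (n + d)‖ ≤ 2 * d := by
  induction d with
  | zero => simp
  | succ d ih =>
    have h1 : ∑ n ∈ Icc 1 N, a (n + d) - ∑ n ∈ Icc 1 N, a (n + (d + 1)) =
        a (1 + d) - a (N + 1 + d) := by
      clear ih
      induction N with
      | zero => simp
      | succ N ihN =>
        rw [Finset.sum_Icc_succ_top (by omega), Finset.sum_Icc_succ_top (by omega)]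
        have e1 : N + 1 + (d + 1) = N + 1 + 1 + d := by omega
        rw [e1]
        linear_combination ihN
    have h2 : ‖∑ n ∈ Icc 1 N, a (n + d) - ∑ n ∈ Icc 1 N, a (n + (d + 1))‖ ≤ 2 := by
      rw [h1]
      refine (norm_sub_le _ _).trans ?_
      rw [ha, ha]; norm_num
    have h3 : ∑ n ∈ Icc 1 N, a n - ∑ n ∈ Icc 1 N, a (n + (d + 1)) =
        (∑ n ∈ Icc 1 N, a n - ∑ n ∈ Icc 1 N, a (n + d)) +
        (∑ n ∈ Icc 1 N, a (n + d) - ∑ n ∈ Icc 1 N, a (n + (d + 1))) := by ring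
    rw [h3]
    refine (norm_add_le _ _).trans ?_
    push_cast
    linarith

/-- some shifted block sum is large -/
theorem weyl_block (a : ℕ → ℂ) (ha : ∀ n, ‖a n‖ = 1) (N M q : ℕ) (hN : 1 ≤ N) (κ : ℝ)
    (hS : κ * N ≤ ‖∑ n ∈ Icc 1 N, a n‖) :
    ∃ n0 ∈ Icc 1 N, M * (κ - 2 * q * M / N) ≤ ‖∑ m ∈ Icc 1 M, a (n0 + q * m)‖ := by
  have hN0 : (0 : ℝ) < N := by exact_mod_cast hN
  by_contra hcon
  push Not at hcon
  have h1 : ‖∑ n ∈ Icc 1 N, ∑ m ∈ Icc 1 M, a (n + q * m)‖ < N * (M * (κ - 2 * q * M / N)) := by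
    calc ‖∑ n ∈ Icc 1 N, ∑ m ∈ Icc 1 M, a (n + q * m)‖
        ≤ ∑ n ∈ Icc 1 N, ‖∑ m ∈ Icc 1 M, a (n + q * m)‖ := norm_sum_le _ _
      _ < ∑ _n ∈ Icc 1 N, M * (κ - 2 * q * M / N) := by
          apply Finset.sum_lt_sum_of_nonempty
          · exact ⟨1, by simp [hN]⟩
          · exact hcon
      _ = N * (M * (κ - 2 * q * M / N)) := by simp
  have h2 : ‖(M : ℂ) * ∑ n ∈ Icc 1 N, a n - ∑ n ∈ Icc 1 N, ∑ m ∈ Icc 1 M, a (n + q * m)‖ ≤
      M * (2 * (q * M)) := by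
    have e1 : (M : ℂ) * ∑ n ∈ Icc 1 N, a n - ∑ n ∈ Icc 1 N, ∑ m ∈ Icc 1 M, a (n + q * m) =
        ∑ m ∈ Icc 1 M, (∑ n ∈ Icc 1 N, a n - ∑ n ∈ Icc 1 N, a (n + q * m)) := by
      rw [Finset.sum_sub_distrib, Finset.sum_comm]
      simp
    rw [e1]
    refine (norm_sum_le _ _).trans ?_
    calc ∑ m ∈ Icc 1 M, ‖∑ n ∈ Icc 1 N, a n - ∑ n ∈ Icc 1 N, a (n + q * m)‖
        ≤ ∑ _m ∈ Icc 1 M, (2 * (q * M) : ℝ) := by
          apply Finset.sum_le_sum
          intro m hm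
          rw [Finset.mem_Icc] at hm
          refine (weyl_shift a ha N (q * m)).trans ?_
          have : (m : ℝ) ≤ M := by exact_mod_cast hm.2
          push_cast
          have hq : (0 : ℝ) ≤ q := Nat.cast_nonneg _
          nlinarith
      _ = M * (2 * (q * M)) := by simp
  have h3 : M * ‖∑ n ∈ Icc 1 N, a n‖ = ‖(M : ℂ) * ∑ n ∈ Icc 1 N, a n‖ := by
    rw [norm_mul]; simp
  have h4 : ‖(M : ℂ) * ∑ n ∈ Icc 1 N, a n‖ ≤
      ‖(M : ℂ) * ∑ n ∈ Icc 1 N, a n - ∑ n ∈ Icc 1 N, ∑ m ∈ Icc 1 M, a (n + q * m)‖ +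
      ‖∑ n ∈ Icc 1 N, ∑ m ∈ Icc 1 M, a (n + q * m)‖ := by
    have := norm_add_le ((M : ℂ) * ∑ n ∈ Icc 1 N, a n -
      ∑ n ∈ Icc 1 N, ∑ m ∈ Icc 1 M, a (n + q * m)) (∑ n ∈ Icc 1 N, ∑ m ∈ Icc 1 M, a (n + q * m))
    rwa [sub_add_cancel] at this
  have h5 : (M : ℝ) * (κ * N) ≤ M * ‖∑ n ∈ Icc 1 N, a n‖ :=
    mul_le_mul_of_nonneg_left hS (Nat.cast_nonneg _)
  have h6 : (N : ℝ) * (M * (κ - 2 * q * M / N)) = M * (κ * N) - M * (2 * (q * M)) := by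
    field_simp
  rw [h6] at h1
  linarith

theorem weyl_conj_ee (x : ℝ) : (starRingEnd ℂ) (ee x) = ee (-x) := by
  unfold ee
  rw [← Complex.exp_conj]
  congr 1
  simp only [map_mul, Complex.conj_ofReal, Complex.conj_I, Complex.ofReal_neg]
  have h2 : (starRingEnd ℂ) (2 : ℂ) = 2 := Complex.conj_ofReal 2
  rw [h2]
  ring

/-- the inverse Weyl inequality with a polynomially bounded function -/
def WW (k : ℕ) : Prop := ∃ f : ℝ → ℝ, PBd f ∧ ∀ (γ : ℕ → ℝ) (N : ℕ) (κ : ℝ), 1 ≤ N → 0 < κ →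
    κ ≤ 1 → κ * N ≤ ‖∑ n ∈ Icc 1 N, ee (∑ j ∈ Icc 1 k, γ j * (n : ℝ) ^ j)‖ →
    ∃ q : ℕ, 1 ≤ q ∧ (q : ℝ) ≤ f κ ∧ ∀ j ∈ Icc 1 k, nint (q * γ j) * (N : ℝ) ^ j ≤ f κ

/-- coefficients of `g(n+h) - g(n)` -/
noncomputable def weylD (k : ℕ) (γ : ℕ → ℝ) (h : ℝ) (i : ℕ) : ℝ :=
  (∑ j ∈ Icc i (k + 1), (j.choose i : ℝ) * γ j * h ^ (j - i)) - γ i

theorem weylD_top (k : ℕ) (γ : ℕ → ℝ) (h : ℝ) : weylD k γ h (k + 1) = 0 := by
  unfold weylD
  simp

theorem weylD_lead (k : ℕ) (γ : ℕ → ℝ) (h : ℝ) :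
    weylD k γ h k = ((k + 1 : ℕ) : ℝ) * γ (k + 1) * h := by
  unfold weylD
  rw [Finset.sum_Icc_succ_top (by omega)]
  simp

theorem weylD_eq (k : ℕ) (γ : ℕ → ℝ) (h n : ℝ) :
    ∑ j ∈ Icc 1 (k + 1), γ j * (n + h) ^ j - ∑ j ∈ Icc 1 (k + 1), γ j * n ^ j =
      (∑ j ∈ Icc 1 (k + 1), γ j * h ^ j) + ∑ i ∈ Icc 1 k, weylD k γ h i * n ^ i := by
  have h1 := weyl_affine (k + 1) γ h 1 n
  have h2 : ∑ j ∈ Icc 1 (k + 1), γ j * (n + h) ^ j = ∑ j ∈ Icc 1 (k + 1), γ j * (h + 1 * n) ^ j := by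
    apply Finset.sum_congr rfl
    intro j _
    rw [one_mul, add_comm n h]
  have h3 : ∑ i ∈ Icc 1 k, weylD k γ h i * n ^ i = ∑ i ∈ Icc 1 (k + 1), weylD k γ h i * n ^ i := by
    rw [Finset.sum_Icc_succ_top (by omega), weylD_top]
    ring
  rw [h2, h1, h3, add_sub_assoc, ← Finset.sum_sub_distrib]
  congr 1
  apply Finset.sum_congr rfl
  intro i _
  unfold weylD
  ring

theorem weyl_T (k : ℕ) (γ : ℕ → ℝ) (N h : ℕ) :
    ‖∑ n ∈ Icc 1 (N - h), ee (∑ j ∈ Icc 1 (k + 1), γ j * (((n + h : ℕ) : ℝ)) ^ j) *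
      (starRingEnd ℂ) (ee (∑ j ∈ Icc 1 (k + 1), γ j * (n : ℝ) ^ j))‖ =
    ‖∑ n ∈ Icc 1 (N - h), ee (∑ i ∈ Icc 1 k, weylD k γ h i * (n : ℝ) ^ i)‖ := by
  have h1 : ∀ n : ℕ, ee (∑ j ∈ Icc 1 (k + 1), γ j * (((n + h : ℕ) : ℝ)) ^ j) *
      (starRingEnd ℂ) (ee (∑ j ∈ Icc 1 (k + 1), γ j * (n : ℝ) ^ j)) =
      ee (∑ j ∈ Icc 1 (k + 1), γ j * (h : ℝ) ^ j) *
        ee (∑ i ∈ Icc 1 k, weylD k γ h i * (n : ℝ) ^ i) := by
    intro n
    rw [weyl_conj_ee, ← ee_add, ← ee_add, ← weylD_eq]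
    congr 1
    push_cast
    ring
  rw [Finset.sum_congr rfl fun n _ => h1 n, ← Finset.mul_sum, norm_mul, norm_ee, one_mul]

theorem weyl_sum_le (s : Finset ℕ) (f : ℕ → ℝ) : ‖∑ n ∈ s, ee (f n)‖ ≤ s.card := by
  refine (norm_sum_le _ _).trans ?_
  simp [norm_ee]

theorem weyl_lead (k : ℕ) (hk : 1 ≤ k) (ih : WW k) :
    ∃ f : ℝ → ℝ, PBd f ∧ ∀ (γ : ℕ → ℝ) (N : ℕ) (κ : ℝ), 1 ≤ N → 0 < κ →
    κ ≤ 1 → κ * N ≤ ‖∑ n ∈ Icc 1 N, ee (∑ j ∈ Icc 1 (k + 1), γ j * (n : ℝ) ^ j)‖ →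
    ∃ q : ℕ, 1 ≤ q ∧ (q : ℝ) ≤ f κ ∧ nint (q * γ (k + 1)) * (N : ℝ) ^ (k + 1) ≤ f κ := by
  classical
  obtain ⟨f0, hf0, hW⟩ := ih
  -- the functions
  have hsub : PBd fun κ => f0 (κ ^ 2 / 8) + 1 := by
    apply PBd.add _ (PBd.const zero_le_one)
    apply PBd.subst hf0 (u := fun κ => κ ^ 2 / 8)
    · intro κ h0 h1
      refine ⟨by positivity, ?_⟩
      have : κ ^ 2 ≤ 1 := pow_le_one₀ h0.le h1
      linarith
    · refine ((PBd.const (c := 8) (by norm_num)).mul (PBd.inv.pow 2)).mono ?_ ?_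
      · intro κ h0 _; positivity
      · intro κ h0 _
        rw [inv_div, div_eq_mul_inv, inv_pow]
  set B1 : ℝ → ℝ := fun κ => f0 (κ ^ 2 / 8) + 1 with hB1
  set Y : ℝ → ℝ := fun κ => 256 * (B1 κ) ^ 2 * (κ⁻¹) ^ 2 * (8 * (κ⁻¹) ^ 2) ^ k with hY
  have hYB : PBd Y := by
    exact ((((PBd.const (c := 256) (by norm_num)).mul (hsub.pow 2)).mul (PBd.inv.pow 2)).mul
      (((PBd.const (c := 8) (by norm_num)).mul (PBd.inv.pow 2)).pow k))
  set f : ℝ → ℝ := fun κ => (Y κ) ^ (k + 1) + 1 +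
    16 * (κ⁻¹) ^ 2 * B1 κ * B1 κ * (k + 1) +
    16 * B1 κ * (8 * (κ⁻¹) ^ 2) ^ k * (8 * B1 κ * (κ⁻¹) ^ 2) ^ 2 with hf
  have hfB : PBd f := by
    apply PBd.add
    · apply PBd.add
      · exact (hYB.pow (k + 1)).add (PBd.const zero_le_one)
      · exact (((((PBd.const (c := 16) (by norm_num)).mul (PBd.inv.pow 2)).mul hsub).mul
          hsub).mul (PBd.const (by positivity)))
    · exact ((((PBd.const (c := 16) (by norm_num)).mul hsub).mul
        (((PBd.const (c := 8) (by norm_num)).mul (PBd.inv.pow 2)).pow k)).mul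
        ((((PBd.const (c := 8) (by norm_num)).mul hsub).mul (PBd.inv.pow 2)).pow 2))
  refine ⟨f, hfB, ?_⟩
  intro γ N κ hN hκ hκ1 hS
  have hN0 : (0 : ℝ) < N := by exact_mod_cast hN
  have hN1 : (1 : ℝ) ≤ N := by exact_mod_cast hN
  have hκ' : 0 < κ ^ 2 / 8 := by positivity
  have hκ'1 : κ ^ 2 / 8 ≤ 1 := by
    have : κ ^ 2 ≤ 1 := pow_le_one₀ hκ.le hκ1
    linarith
  have hB1pos : 1 ≤ B1 κ := by
    obtain ⟨C, hC, h⟩ := hf0
    have := (h _ hκ' hκ'1).1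
    simp only [hB1]
    linarith
  have hB0 : 0 < B1 κ := by linarith
  have hYpos : 0 ≤ Y κ := by simp only [hY]; positivity
  have hinv1 : 1 ≤ κ⁻¹ := (one_le_inv₀ hκ).mpr hκ1
  have hterm2 : 0 ≤ 16 * (κ⁻¹) ^ 2 * B1 κ * B1 κ * (k + 1) := by positivity
  have hterm3 : 0 ≤ 16 * B1 κ * (8 * (κ⁻¹) ^ 2) ^ k * (8 * B1 κ * (κ⁻¹) ^ 2) ^ 2 := by positivity
  by_cases hsmall : (N : ℝ) ≤ Y κ
  · refine ⟨1, le_rfl, ?_, ?_⟩
    · have : 0 ≤ (Y κ) ^ (k + 1) := by positivity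
      simp only [hf]
      push_cast
      linarith
    · have h1 : nint (((1 : ℕ) : ℝ) * γ (k + 1)) ≤ 1 :=
        (nint_le_half (((1 : ℕ) : ℝ) * γ (k + 1))).trans (by norm_num)
      have h2 : (N : ℝ) ^ (k + 1) ≤ (Y κ) ^ (k + 1) := pow_le_pow_left₀ hN0.le hsmall _
      have h3 : nint (((1 : ℕ) : ℝ) * γ (k + 1)) * (N : ℝ) ^ (k + 1) ≤ 1 * (Y κ) ^ (k + 1) :=
        mul_le_mul h1 h2 (by positivity) zero_le_one
      refine h3.trans ?_
      simp only [hf]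
      linarith
  push Not at hsmall
  -- notation
  set T : ℕ → ℝ := fun h =>
    ‖∑ n ∈ Icc 1 (N - h), ee (∑ i ∈ Icc 1 k, weylD k γ h i * (n : ℝ) ^ i)‖ with hT
  have hTle : ∀ h, T h ≤ ((N - h : ℕ) : ℝ) := by
    intro h
    simp only [hT]
    refine (weyl_sum_le _ _).trans ?_
    simp
  have hTN : ∀ h, T h ≤ N := by
    intro h
    refine (hTle h).trans ?_
    exact_mod_cast Nat.sub_le N h
  -- Weyl differencing
  have hvdc : (κ * N) ^ 2 ≤ N + 2 * ∑ h ∈ Ico 1 N, T h := by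
    have h1 := weyl_vdc_le (fun n => ee (∑ j ∈ Icc 1 (k + 1), γ j * (n : ℝ) ^ j))
      (fun n => norm_ee _) N
    have h2 : (κ * N) ^ 2 ≤ ‖∑ n ∈ Icc 1 N, ee (∑ j ∈ Icc 1 (k + 1), γ j * (n : ℝ) ^ j)‖ ^ 2 :=
      pow_le_pow_left₀ (by positivity) hS 2
    refine h2.trans (h1.trans ?_)
    apply add_le_add le_rfl
    apply mul_le_mul_of_nonneg_left _ (by norm_num)
    apply Finset.sum_le_sum
    intro h _
    exact (weyl_T k γ N h).le
  set 𝓗 := (Ico 1 N).filter (fun h => κ ^ 2 / 8 * N ≤ T h) with h𝓗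
  have hsumT : ∑ h ∈ Ico 1 N, T h ≤ 𝓗.card * N + κ ^ 2 / 8 * N * N := by
    rw [← Finset.sum_filter_add_sum_filter_not (Ico 1 N) (fun h => κ ^ 2 / 8 * N ≤ T h)]
    apply add_le_add
    · calc ∑ h ∈ 𝓗, T h ≤ ∑ _h ∈ 𝓗, (N : ℝ) := Finset.sum_le_sum fun h _ => hTN h
        _ = 𝓗.card * N := by simp
    · calc ∑ h ∈ (Ico 1 N).filter (fun h => ¬ (κ ^ 2 / 8 * N ≤ T h)), T h
          ≤ ∑ _h ∈ (Ico 1 N).filter (fun h => ¬ (κ ^ 2 / 8 * N ≤ T h)), κ ^ 2 / 8 * N := by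
            apply Finset.sum_le_sum
            intro h hh
            rw [Finset.mem_filter] at hh
            exact (not_le.mp hh.2).le
        _ = ((Ico 1 N).filter (fun h => ¬ (κ ^ 2 / 8 * N ≤ T h))).card * (κ ^ 2 / 8 * N) := by simp
        _ ≤ N * (κ ^ 2 / 8 * N) := by
            apply mul_le_mul_of_nonneg_right _ (by positivity)
            have : ((Ico 1 N).filter (fun h => ¬ (κ ^ 2 / 8 * N ≤ T h))).card ≤ N := by
              refine (Finset.card_filter_le _ _).trans ?_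
              simp
            exact_mod_cast this
        _ = κ ^ 2 / 8 * N * N := by ring
  -- `N` is large
  have hYlow : 256 * (B1 κ) ^ 2 * (κ⁻¹) ^ 2 ≤ Y κ := by
    simp only [hY]
    have h1 : 1 ≤ (8 * (κ⁻¹) ^ 2) ^ k := by
      apply one_le_pow₀
      have : 1 ≤ (κ⁻¹) ^ 2 := one_le_pow₀ hinv1
      linarith
    have h2 : 0 ≤ 256 * (B1 κ) ^ 2 * (κ⁻¹) ^ 2 := by positivity
    nlinarith
  have hκN : 2 ≤ κ ^ 2 * N := by
    have h1 : 256 * (B1 κ) ^ 2 * (κ⁻¹) ^ 2 ≤ N := hYlow.trans hsmall.le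
    have h2 : 2 * (κ⁻¹) ^ 2 ≤ N := by
      refine le_trans ?_ h1
      have h3 : 1 ≤ (B1 κ) ^ 2 := one_le_pow₀ hB1pos
      have h4 : 0 ≤ (κ⁻¹) ^ 2 := by positivity
      nlinarith
    calc (2 : ℝ) = κ ^ 2 * (2 * (κ⁻¹) ^ 2) := by field_simp
      _ ≤ κ ^ 2 * N := mul_le_mul_of_nonneg_left h2 (by positivity)
  have hcard : κ ^ 2 / 8 * N ≤ 𝓗.card := by
    have h1 : (κ * N) ^ 2 ≤ N + 2 * (𝓗.card * N + κ ^ 2 / 8 * N * N) := by linarith
    have h2 : κ ^ 2 * N ≤ 1 + 2 * (𝓗.card + κ ^ 2 / 8 * N) := by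
      have h3 : (κ ^ 2 * N) * N ≤ (1 + 2 * (𝓗.card + κ ^ 2 / 8 * N)) * N := by
        calc (κ ^ 2 * N) * N = (κ * N) ^ 2 := by ring
          _ ≤ _ := h1
          _ = _ := by ring
      exact le_of_mul_le_mul_right h3 hN0
    linarith
  -- the induction hypothesis for `h ∈ 𝓗`
  have hih : ∀ h ∈ 𝓗, ∃ q : ℕ, 1 ≤ q ∧ (q : ℝ) ≤ B1 κ ∧
      nint (q * (((k + 1 : ℕ) : ℝ) * γ (k + 1) * h)) * ((N - h : ℕ) : ℝ) ^ k ≤ B1 κ := by
    intro h hh
    rw [h𝓗, Finset.mem_filter, Finset.mem_Ico] at hh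
    have h1 : 1 ≤ N - h := by omega
    have h2 : κ ^ 2 / 8 * ((N - h : ℕ) : ℝ) ≤
        ‖∑ n ∈ Icc 1 (N - h), ee (∑ i ∈ Icc 1 k, weylD k γ h i * (n : ℝ) ^ i)‖ := by
      refine le_trans ?_ hh.2
      apply mul_le_mul_of_nonneg_left _ hκ'.le
      exact_mod_cast Nat.sub_le N h
    obtain ⟨q, hq1, hq2, hq3⟩ := hW (weylD k γ h) (N - h) (κ ^ 2 / 8) h1 hκ' hκ'1 h2
    have h3 := hq3 k (by simp [hk])
    rw [weylD_lead] at h3
    exact ⟨q, hq1, by simp only [hB1]; linarith, by simp only [hB1]; linarith⟩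
  choose! Q hQ1 hQ2 hQ3 using hih
  -- pigeonhole
  set δ2 : ℝ := κ ^ 2 / (8 * B1 κ) with hδ2
  have hδ2pos : 0 < δ2 := by positivity
  have hδ21 : δ2 ≤ 1 := by
    rw [hδ2, div_le_one (by positivity)]
    have : κ ^ 2 ≤ 1 := pow_le_one₀ hκ.le hκ1
    linarith
  have hpig : ∃ y ∈ Icc 1 ⌊B1 κ⌋₊, δ2 * N ≤ ((𝓗.filter (fun h => Q h = y)).card : ℝ) := by
    apply Finset.exists_le_card_fiber_of_nsmul_le_card_of_maps_to
    · intro h hh
      rw [Finset.mem_Icc]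
      exact ⟨hQ1 h hh, Nat.le_floor (hQ2 h hh)⟩
    · refine ⟨1, ?_⟩
      rw [Finset.mem_Icc]
      exact ⟨le_rfl, Nat.le_floor (by push_cast; exact hB1pos)⟩
    · rw [Nat.card_Icc, Nat.add_sub_cancel, nsmul_eq_mul]
      refine le_trans ?_ hcard
      calc (⌊B1 κ⌋₊ : ℝ) * (δ2 * N) ≤ B1 κ * (δ2 * N) :=
            mul_le_mul_of_nonneg_right (Nat.floor_le hB0.le) (by positivity)
        _ = κ ^ 2 / 8 * N := by
            rw [hδ2]
            field_simp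
  obtain ⟨q0, hq0, hq0c⟩ := hpig
  rw [Finset.mem_Icc] at hq0
  have hq0B : (q0 : ℝ) ≤ B1 κ := (Nat.cast_le.mpr hq0.2).trans (Nat.floor_le hB0.le)
  set δ1 : ℝ := B1 κ / (κ ^ 2 / 8 * N) ^ k with hδ1
  have hδ1pos : 0 ≤ δ1 := by positivity
  have h12 : 32 * δ1 ≤ δ2 := by
    have h1 : (κ ^ 2 / 8) ^ k * N ≤ (κ ^ 2 / 8 * N) ^ k := by
      rw [mul_pow]
      apply mul_le_mul_of_nonneg_left _ (by positivity)
      exact le_self_pow₀ hN1 (by omega)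
    have h2 : 256 * (B1 κ) ^ 2 * (κ⁻¹) ^ 2 ≤ (κ ^ 2 / 8) ^ k * N := by
      have h3 : (κ ^ 2 / 8) ^ k * Y κ = 256 * (B1 κ) ^ 2 * (κ⁻¹) ^ 2 := by
        simp only [hY]
        have h4 : (κ ^ 2 / 8) ^ k * (8 * (κ⁻¹) ^ 2) ^ k = 1 := by
          rw [← mul_pow]
          have : κ ^ 2 / 8 * (8 * (κ⁻¹) ^ 2) = 1 := by field_simp
          rw [this, one_pow]
        linear_combination (256 * (B1 κ) ^ 2 * (κ⁻¹) ^ 2) * h4
      rw [← h3]
      exact mul_le_mul_of_nonneg_left hsmall.le (by positivity)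
    have h5 := h2.trans h1
    rw [hδ1, hδ2, ← mul_div_assoc, div_le_div_iff₀ (by positivity) (by positivity)]
    calc 32 * B1 κ * (8 * B1 κ) = κ ^ 2 * (256 * (B1 κ) ^ 2 * (κ⁻¹) ^ 2) := by
          field_simp
          ring
      _ ≤ κ ^ 2 * (κ ^ 2 / 8 * N) ^ k := mul_le_mul_of_nonneg_left h5 (by positivity)
  set β : ℝ := q0 * (((k + 1 : ℕ) : ℝ) * γ (k + 1)) with hβ
  have hvin : δ2 * N ≤ (((Icc 1 N).filter (fun h : ℕ => nint (β * h) ≤ δ1)).card : ℝ) := by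
    refine hq0c.trans ?_
    have : 𝓗.filter (fun h => Q h = q0) ⊆ (Icc 1 N).filter (fun h : ℕ => nint (β * h) ≤ δ1) := by
      intro h hh
      rw [Finset.mem_filter] at hh ⊢
      obtain ⟨hh1, hh2⟩ := hh
      have hm := hh1
      rw [h𝓗, Finset.mem_filter, Finset.mem_Ico] at hm
      refine ⟨by rw [Finset.mem_Icc]; omega, ?_⟩
      have h1 := hQ3 h hh1
      rw [hh2] at h1
      have h2 : κ ^ 2 / 8 * N ≤ ((N - h : ℕ) : ℝ) := hm.2.trans (hTle h)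
      have h3 : (κ ^ 2 / 8 * N) ^ k ≤ ((N - h : ℕ) : ℝ) ^ k := pow_le_pow_left₀ (by positivity) h2 k
      rw [hδ1, le_div_iff₀ (by positivity)]
      have h4 : β * h = q0 * (((k + 1 : ℕ) : ℝ) * γ (k + 1) * h) := by rw [hβ]; ring
      rw [h4]
      exact (mul_le_mul_of_nonneg_left h3 (nint_nonneg _)).trans h1
    exact_mod_cast Finset.card_le_card this
  obtain ⟨q', hq'1, hq'2, hq'3⟩ := vinogradov β N δ1 δ2 hN hδ2pos hδ21 hδ1pos h12 hvin
  refine ⟨q' * q0 * (k + 1), ?_, ?_, ?_⟩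
  · have : 0 < q' * q0 * (k + 1) := by
      have := hq0.1
      positivity
    omega
  · have h1 : ((q' * q0 * (k + 1) : ℕ) : ℝ) ≤ (2 / δ2) * B1 κ * (k + 1) := by
      push_cast
      apply mul_le_mul_of_nonneg_right _ (by positivity)
      exact mul_le_mul hq'2 hq0B (Nat.cast_nonneg _) (by positivity)
    have h2 : (2 / δ2) * B1 κ * (k + 1) = 16 * (κ⁻¹) ^ 2 * B1 κ * B1 κ * (k + 1) := by
      rw [hδ2]
      field_simp
      ring
    have h3 : 0 ≤ (Y κ) ^ (k + 1) := by positivity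
    simp only [hf]
    linarith
  · have h1 : ((q' * q0 * (k + 1) : ℕ) : ℝ) * γ (k + 1) = q' * β := by
      rw [hβ]
      push_cast
      ring
    rw [h1, pow_succ', ← mul_assoc]
    have h2 : nint (q' * β) * N * (N : ℝ) ^ k ≤ 16 * δ1 / δ2 ^ 2 * (N : ℝ) ^ k :=
      mul_le_mul_of_nonneg_right hq'3 (by positivity)
    have h3 : 16 * δ1 / δ2 ^ 2 * (N : ℝ) ^ k =
        16 * B1 κ * (8 * (κ⁻¹) ^ 2) ^ k * (8 * B1 κ * (κ⁻¹) ^ 2) ^ 2 := by
      have e1 : δ1 * (N : ℝ) ^ k = B1 κ * (8 * (κ⁻¹) ^ 2) ^ k := by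
        rw [hδ1, mul_pow, div_mul_eq_mul_div]
        have e3 : (8 * (κ⁻¹) ^ 2) ^ k = 1 / (κ ^ 2 / 8) ^ k := by
          rw [one_div, ← inv_pow, inv_div]
          congr 1
          field_simp
        rw [e3]
        field_simp
      have e2 : δ2⁻¹ = 8 * B1 κ * (κ⁻¹) ^ 2 := by
        rw [hδ2, inv_div]
        field_simp
      rw [← e2]
      calc 16 * δ1 / δ2 ^ 2 * (N : ℝ) ^ k = 16 * (δ1 * (N : ℝ) ^ k) * δ2⁻¹ ^ 2 := by
            field_simp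
        _ = _ := by rw [e1]; ring
    have h4 : 0 ≤ (Y κ) ^ (k + 1) := by positivity
    simp only [hf]
    linarith

theorem weyl_pow_sub (K : ℕ) (x y : ℝ) (hy : 0 ≤ y) (hxy : y ≤ x) :
    x ^ (K + 1) - y ^ (K + 1) ≤ (K + 1) * x ^ K * (x - y) := by
  induction K with
  | zero => simp
  | succ K ih =>
    have hx : 0 ≤ x := hy.trans hxy
    have h1 : x ^ (K + 1 + 1) - y ^ (K + 1 + 1) =
        x * (x ^ (K + 1) - y ^ (K + 1)) + y ^ (K + 1) * (x - y) := by ring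
    have h2 : y ^ (K + 1) ≤ x ^ (K + 1) := pow_le_pow_left₀ hy hxy _
    have h3 : x * (x ^ (K + 1) - y ^ (K + 1)) ≤ x * ((K + 1) * x ^ K * (x - y)) :=
      mul_le_mul_of_nonneg_left ih hx
    have h4 : y ^ (K + 1) * (x - y) ≤ x ^ (K + 1) * (x - y) :=
      mul_le_mul_of_nonneg_right h2 (by linarith)
    push_cast
    rw [h1]
    calc x * (x ^ (K + 1) - y ^ (K + 1)) + y ^ (K + 1) * (x - y)
        ≤ x * ((K + 1) * x ^ K * (x - y)) + x ^ (K + 1) * (x - y) := add_le_add h3 h4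
      _ = (K + 1 + 1) * x ^ (K + 1) * (x - y) := by ring

/-- freezing the leading term on a block -/
theorem weyl_freeze (k : ℕ) (γ : ℕ → ℝ) (q n0 m : ℕ) (hq : 1 ≤ q) :
    ‖ee (∑ j ∈ Icc 1 (k + 1), γ j * (((n0 + q * m : ℕ) : ℝ)) ^ j) -
      ee (∑ j ∈ Icc 1 k, γ j * ((n0 : ℝ) + q * m) ^ j) * ee (γ (k + 1) * (n0 : ℝ) ^ (k + 1))‖ ≤
    2 * π * (nint (q * γ (k + 1)) * ((k + 1) * ((n0 : ℝ) + q * m) ^ k * (q * m))) := by
  set b : ℤ := round ((q : ℝ) * γ (k + 1)) with hb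
  have hq0 : (0 : ℝ) < q := by exact_mod_cast hq
  obtain ⟨z, hz⟩ : ∃ z : ℤ, ((n0 : ℤ) + q * m) ^ (k + 1) - (n0 : ℤ) ^ (k + 1) = q * z := by
    have h1 : ((n0 : ℤ) + q * m) - n0 ∣ ((n0 : ℤ) + q * m) ^ (k + 1) - (n0 : ℤ) ^ (k + 1) :=
      sub_dvd_pow_sub_pow _ _ _
    have h2 : ((n0 : ℤ) + q * m) - n0 = q * m := by ring
    rw [h2] at h1
    obtain ⟨w, hw⟩ := h1
    exact ⟨m * w, by rw [hw]; ring⟩
  have hz' : ((n0 : ℝ) + q * m) ^ (k + 1) - (n0 : ℝ) ^ (k + 1) = q * z := by exact_mod_cast hz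
  set θ : ℝ := γ (k + 1) - b / q with hθ
  set y : ℝ := θ * (((n0 : ℝ) + q * m) ^ (k + 1) - (n0 : ℝ) ^ (k + 1)) with hy
  have h1 : ∑ j ∈ Icc 1 (k + 1), γ j * (((n0 + q * m : ℕ) : ℝ)) ^ j =
      ∑ j ∈ Icc 1 k, γ j * ((n0 : ℝ) + q * m) ^ j + γ (k + 1) * (n0 : ℝ) ^ (k + 1) + y +
        ((b * z : ℤ) : ℝ) := by
    rw [Finset.sum_Icc_succ_top (by omega)]
    push_cast
    have h2 : γ (k + 1) * ((n0 : ℝ) + q * m) ^ (k + 1) =
        γ (k + 1) * (n0 : ℝ) ^ (k + 1) + y + b * z := by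
      have h3 : γ (k + 1) * ((n0 : ℝ) + q * m) ^ (k + 1) - γ (k + 1) * (n0 : ℝ) ^ (k + 1) =
          γ (k + 1) * (q * z) := by rw [← hz']; ring
      have h4 : y = γ (k + 1) * (q * z) - b * z := by
        rw [hy, hθ, hz']
        field_simp
      linarith
    rw [h2]
    ring
  have h2 : ee (∑ j ∈ Icc 1 (k + 1), γ j * (((n0 + q * m : ℕ) : ℝ)) ^ j) =
      ee (∑ j ∈ Icc 1 k, γ j * ((n0 : ℝ) + q * m) ^ j) * ee (γ (k + 1) * (n0 : ℝ) ^ (k + 1)) *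
        ee y := by
    rw [h1, ee_add, ee_int, mul_one, ee_add, ee_add]
  rw [h2]
  have h3 : ee (∑ j ∈ Icc 1 k, γ j * ((n0 : ℝ) + q * m) ^ j) *
      ee (γ (k + 1) * (n0 : ℝ) ^ (k + 1)) * ee y -
      ee (∑ j ∈ Icc 1 k, γ j * ((n0 : ℝ) + q * m) ^ j) * ee (γ (k + 1) * (n0 : ℝ) ^ (k + 1)) =
      ee (∑ j ∈ Icc 1 k, γ j * ((n0 : ℝ) + q * m) ^ j) * ee (γ (k + 1) * (n0 : ℝ) ^ (k + 1)) *
        (ee y - ee 0) := by
    have : ee 0 = 1 := by
      have := ee_int 0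
      simpa using this
    rw [this]
    ring
  rw [h3, norm_mul, norm_mul, norm_ee, norm_ee, one_mul, one_mul]
  refine (ee_sub_le y 0).trans ?_
  rw [sub_zero]
  apply mul_le_mul_of_nonneg_left _ (by positivity)
  rw [hy, abs_mul]
  apply mul_le_mul
  · have h4 : θ = ((q : ℝ) * γ (k + 1) - b) / q := by
      rw [hθ]
      field_simp
    rw [h4, abs_div, abs_of_pos hq0]
    rw [div_le_iff₀ hq0]
    have h5 : (1 : ℝ) ≤ q := by exact_mod_cast hq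
    unfold nint
    rw [← hb]
    have h6 := abs_nonneg ((q : ℝ) * γ (k + 1) - b)
    nlinarith
  · have hn : (n0 : ℝ) ≤ (n0 : ℝ) + q * m := by
      have : (0 : ℝ) ≤ q * m := by positivity
      linarith
    rw [abs_of_nonneg (by
      have := pow_le_pow_left₀ (Nat.cast_nonneg n0) hn (k + 1)
      linarith)]
    have := weyl_pow_sub k ((n0 : ℝ) + q * m) n0 (Nat.cast_nonneg _) hn
    refine this.trans (le_of_eq ?_)
    ring
  · exact abs_nonneg _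
  · exact nint_nonneg _

theorem weyl_step (k : ℕ) (hk : 1 ≤ k) (ih : WW k) : WW (k + 1) := by
  obtain ⟨f1, hf1, hL⟩ := weyl_lead k hk ih
  obtain ⟨f0, hf0, hW⟩ := ih
  have hsub : PBd fun κ => f0 (κ / 2) + 1 := by
    apply PBd.add _ (PBd.const zero_le_one)
    apply PBd.subst hf0 (u := fun κ => κ / 2)
    · intro κ h0 h1
      exact ⟨by positivity, by linarith⟩
    · refine ((PBd.const (c := 2) (by norm_num)).mul PBd.inv).mono ?_ ?_
      · intro κ h0 _; positivity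
      · intro κ h0 _
        rw [inv_div, div_eq_mul_inv]
  have hF1B : PBd fun κ => f1 κ + 1 := hf1.add (PBd.const zero_le_one)
  set F0 : ℝ → ℝ := fun κ => f0 (κ / 2) + 1 with hF0
  set F1 : ℝ → ℝ := fun κ => f1 κ + 1 with hF1
  set D : ℝ → ℝ := fun κ => 64 * 2 ^ k * (k + 1) * (F1 κ) ^ 2 * κ⁻¹ with hD
  have hDB : PBd D := by
    exact ((PBd.const (by positivity)).mul (hF1B.pow 2)).mul PBd.inv
  set R : ℝ := 1 + 2 ^ k * k with hR
  have hR1 : 1 ≤ R := by rw [hR]; have : (0 : ℝ) ≤ 2 ^ k * k := by positivity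
                         linarith
  set A : ℝ → ℝ := fun κ => (F1 κ) ^ k * F0 κ * (2 * D κ) ^ (k + 1) with hA
  have hAB : PBd A := ((hF1B.pow k).mul hsub).mul
    (((PBd.const (c := 2) (by norm_num)).mul hDB).pow (k + 1))
  set f : ℝ → ℝ := fun κ => (D κ) ^ (k + 1) + 1 + F1 κ * (F0 κ * (F1 κ) ^ k) +
    F1 κ * (A κ * R ^ k) with hf
  have hfB : PBd f := by
    apply PBd.add
    · apply PBd.add
      · exact (hDB.pow (k + 1)).add (PBd.const zero_le_one)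
      · exact hF1B.mul (hsub.mul (hF1B.pow k))
    · exact hF1B.mul (hAB.mul (PBd.const (by positivity)))
  refine ⟨f, hfB, ?_⟩
  intro γ N κ hN hκ hκ1 hS
  have hN0 : (0 : ℝ) < N := by exact_mod_cast hN
  have hN1 : (1 : ℝ) ≤ N := by exact_mod_cast hN
  have hinv1 : 1 ≤ κ⁻¹ := (one_le_inv₀ hκ).mpr hκ1
  have hF1pos : 1 ≤ F1 κ := by
    obtain ⟨C, hC, h⟩ := hf1
    have := (h _ hκ hκ1).1
    simp only [hF1]
    linarith
  have hF0pos : 1 ≤ F0 κ := by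
    obtain ⟨C, hC, h⟩ := hf0
    have := (h (κ / 2) (by positivity) (by linarith)).1
    simp only [hF0]
    linarith
  have hDlow : 64 * F1 κ * κ⁻¹ ≤ D κ := by
    simp only [hD]
    apply mul_le_mul_of_nonneg_right _ (by positivity)
    have h1 : (1 : ℝ) ≤ 2 ^ k := one_le_pow₀ (by norm_num)
    have h2 : (1 : ℝ) ≤ (k + 1 : ℝ) := by
      have : (0 : ℝ) ≤ k := Nat.cast_nonneg _
      linarith
    have h3 : F1 κ ≤ (F1 κ) ^ 2 := le_self_pow₀ hF1pos (by norm_num)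
    calc 64 * F1 κ ≤ 64 * (F1 κ) ^ 2 := by linarith
      _ = 64 * 1 * 1 * (F1 κ) ^ 2 := by ring
      _ ≤ 64 * 2 ^ k * (k + 1) * (F1 κ) ^ 2 := by
          apply mul_le_mul_of_nonneg_right _ (by positivity)
          apply mul_le_mul _ h2 zero_le_one (by positivity)
          linarith
  have hD1 : 1 ≤ D κ := by
    refine le_trans ?_ hDlow
    nlinarith
  have hD0 : 0 < D κ := by linarith
  have hApos : 0 ≤ A κ := by simp only [hA]; positivity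
  have ht2 : 0 ≤ F1 κ * (F0 κ * (F1 κ) ^ k) := by positivity
  have ht3 : 0 ≤ F1 κ * (A κ * R ^ k) := by positivity
  by_cases hsmall : (N : ℝ) ≤ D κ
  · refine ⟨1, le_rfl, ?_, ?_⟩
    · have : 0 ≤ (D κ) ^ (k + 1) := by positivity
      simp only [hf]
      push_cast
      linarith
    · intro j hj
      rw [Finset.mem_Icc] at hj
      have h1 : nint (((1 : ℕ) : ℝ) * γ j) ≤ 1 := (nint_le_half _).trans (by norm_num)
      have h2 : (N : ℝ) ^ j ≤ (D κ) ^ (k + 1) :=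
        (pow_le_pow_right₀ hN1 hj.2).trans (pow_le_pow_left₀ hN0.le hsmall _)
      have h3 : nint (((1 : ℕ) : ℝ) * γ j) * (N : ℝ) ^ j ≤ 1 * (D κ) ^ (k + 1) :=
        mul_le_mul h1 h2 (by positivity) zero_le_one
      refine h3.trans ?_
      simp only [hf]
      linarith
  push Not at hsmall
  obtain ⟨q1, hq11, hq12, hq13⟩ := hL γ N κ hN hκ hκ1 hS
  have hq1F : (q1 : ℝ) ≤ F1 κ := by simp only [hF1]; linarith
  have hq1n : nint (q1 * γ (k + 1)) * (N : ℝ) ^ (k + 1) ≤ F1 κ := by simp only [hF1]; linarith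
  set M : ℕ := ⌊(N : ℝ) / D κ⌋₊ with hM
  have hND : 1 ≤ (N : ℝ) / D κ := by rw [le_div_iff₀ hD0]; linarith
  have hM1 : 1 ≤ M := Nat.le_floor (by simpa using hND)
  have hMle : (M : ℝ) ≤ N / D κ := Nat.floor_le (by positivity)
  have hM1' : (1 : ℝ) ≤ M := by exact_mod_cast hM1
  have hM0 : (0 : ℝ) < M := by linarith
  have hNM : (N : ℝ) ≤ 2 * D κ * M := by
    have h1 : (N : ℝ) / D κ < M + 1 := Nat.lt_floor_add_one _
    rw [div_lt_iff₀ hD0] at h1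
    nlinarith
  have hMD : (M : ℝ) * D κ ≤ N := by rwa [le_div_iff₀ hD0] at hMle
  -- block
  obtain ⟨n0, hn0, hblock⟩ := weyl_block
    (fun n => ee (∑ j ∈ Icc 1 (k + 1), γ j * (n : ℝ) ^ j)) (fun n => norm_ee _) N M q1 hN κ hS
  rw [Finset.mem_Icc] at hn0
  have hn0N : (n0 : ℝ) ≤ N := by exact_mod_cast hn0.2
  have hq1M : (q1 : ℝ) * M * (64 * κ⁻¹) ≤ N := by
    calc (q1 : ℝ) * M * (64 * κ⁻¹) ≤ F1 κ * M * (64 * κ⁻¹) := by
          apply mul_le_mul_of_nonneg_right _ (by positivity)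
          exact mul_le_mul_of_nonneg_right hq1F hM0.le
      _ = M * (64 * F1 κ * κ⁻¹) := by ring
      _ ≤ M * D κ := mul_le_mul_of_nonneg_left hDlow hM0.le
      _ ≤ N := hMD
  have hq1M' : 2 * (q1 : ℝ) * M / N ≤ κ / 16 := by
    rw [div_le_iff₀ hN0]
    have h1 : (q1 : ℝ) * M * (64 * κ⁻¹) * κ ≤ N * κ := mul_le_mul_of_nonneg_right hq1M hκ.le
    have h2 : (q1 : ℝ) * M * (64 * κ⁻¹) * κ = 64 * (q1 * M) := by field_simp
    rw [h2] at h1
    have h3 : 0 ≤ (q1 : ℝ) * M := by positivity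
    nlinarith
  have hq1M1 : (q1 : ℝ) * M ≤ N := by
    refine le_trans ?_ hq1M
    have h1 : (1 : ℝ) ≤ 64 * κ⁻¹ := by linarith
    have h3 : 0 ≤ (q1 : ℝ) * M := by positivity
    nlinarith
  -- freeze the leading term
  have hfr : ∀ m ∈ Icc 1 M, ‖ee (∑ j ∈ Icc 1 (k + 1), γ j * (((n0 + q1 * m : ℕ) : ℝ)) ^ j) -
      ee (∑ j ∈ Icc 1 k, γ j * ((n0 : ℝ) + q1 * m) ^ j) * ee (γ (k + 1) * (n0 : ℝ) ^ (k + 1))‖ ≤
      κ / 8 := by
    intro m hm
    rw [Finset.mem_Icc] at hm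
    refine (weyl_freeze k γ q1 n0 m hq11).trans ?_
    have hmM : (m : ℝ) ≤ M := by exact_mod_cast hm.2
    have hqm : (q1 : ℝ) * m ≤ q1 * M := mul_le_mul_of_nonneg_left hmM (Nat.cast_nonneg _)
    have h1 : ((n0 : ℝ) + q1 * m) ^ k ≤ (2 * N) ^ k := by
      apply pow_le_pow_left₀ (by positivity)
      linarith
    have h2 : nint (q1 * γ (k + 1)) * ((k + 1) * ((n0 : ℝ) + q1 * m) ^ k * (q1 * m)) ≤ κ / 64 := by
      have h3 : nint (q1 * γ (k + 1)) * ((k + 1) * ((n0 : ℝ) + q1 * m) ^ k * (q1 * m)) ≤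
          nint (q1 * γ (k + 1)) * ((k + 1) * (2 * N) ^ k * (F1 κ * M)) := by
        apply mul_le_mul_of_nonneg_left _ (nint_nonneg _)
        apply mul_le_mul
        · exact mul_le_mul_of_nonneg_left h1 (by positivity)
        · exact hqm.trans (mul_le_mul_of_nonneg_right hq1F hM0.le)
        · positivity
        · positivity
      refine h3.trans ?_
      have h4 : (nint (q1 * γ (k + 1)) * ((k + 1) * (2 * N) ^ k * (F1 κ * M))) * N ≤
          κ / 64 * N := by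
        calc (nint (q1 * γ (k + 1)) * ((k + 1) * (2 * N) ^ k * (F1 κ * M))) * N
            = (nint (q1 * γ (k + 1)) * (N : ℝ) ^ (k + 1)) * ((k + 1) * 2 ^ k * F1 κ * M) := by
              rw [mul_pow, pow_succ]; ring
          _ ≤ F1 κ * ((k + 1) * 2 ^ k * F1 κ * M) :=
              mul_le_mul_of_nonneg_right hq1n (by positivity)
          _ = κ / 64 * (M * D κ) := by
              simp only [hD]
              field_simp
          _ ≤ κ / 64 * N := mul_le_mul_of_nonneg_left hMD (by positivity)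
      exact le_of_mul_le_mul_right h4 hN0
    have hpi : π ≤ 4 := Real.pi_le_four
    have h5 : 0 ≤ nint (q1 * γ (k + 1)) * ((k + 1) * ((n0 : ℝ) + q1 * m) ^ k * (q1 * m)) :=
      mul_nonneg (nint_nonneg _) (by positivity)
    calc 2 * π * (nint (q1 * γ (k + 1)) * ((k + 1) * ((n0 : ℝ) + q1 * m) ^ k * (q1 * m)))
        ≤ 2 * 4 * (nint (q1 * γ (k + 1)) * ((k + 1) * ((n0 : ℝ) + q1 * m) ^ k * (q1 * m))) := by
          apply mul_le_mul_of_nonneg_right _ h5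
          linarith
      _ ≤ κ / 8 := by linarith
  set g1 : ℕ → ℝ := fun i =>
    (q1 : ℝ) ^ i * ∑ j ∈ Icc i k, (j.choose i : ℝ) * γ j * (n0 : ℝ) ^ (j - i) with hg1
  have hlow : κ / 2 * M ≤ ‖∑ m ∈ Icc 1 M, ee (∑ i ∈ Icc 1 k, g1 i * (m : ℝ) ^ i)‖ := by
    have h1 : ‖∑ m ∈ Icc 1 M, ee (∑ i ∈ Icc 1 k, g1 i * (m : ℝ) ^ i)‖ =
        ‖∑ m ∈ Icc 1 M, ee (∑ j ∈ Icc 1 k, γ j * ((n0 : ℝ) + q1 * m) ^ j) *
          ee (γ (k + 1) * (n0 : ℝ) ^ (k + 1))‖ := by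
      have h2 : ∀ m : ℕ, ee (∑ j ∈ Icc 1 k, γ j * ((n0 : ℝ) + q1 * m) ^ j) *
          ee (γ (k + 1) * (n0 : ℝ) ^ (k + 1)) =
          (ee (γ (k + 1) * (n0 : ℝ) ^ (k + 1)) * ee (∑ j ∈ Icc 1 k, γ j * (n0 : ℝ) ^ j)) *
            ee (∑ i ∈ Icc 1 k, g1 i * (m : ℝ) ^ i) := by
        intro m
        rw [weyl_affine, ee_add]
        ring
      rw [Finset.sum_congr rfl fun m _ => h2 m, ← Finset.mul_sum, norm_mul, norm_mul, norm_ee,
        norm_ee, one_mul, one_mul]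
    rw [h1]
    have h3 : ‖∑ m ∈ Icc 1 M, ee (∑ j ∈ Icc 1 (k + 1), γ j * (((n0 + q1 * m : ℕ) : ℝ)) ^ j) -
        ∑ m ∈ Icc 1 M, ee (∑ j ∈ Icc 1 k, γ j * ((n0 : ℝ) + q1 * m) ^ j) *
          ee (γ (k + 1) * (n0 : ℝ) ^ (k + 1))‖ ≤ M * (κ / 8) := by
      rw [← Finset.sum_sub_distrib]
      refine (norm_sum_le _ _).trans ?_
      refine (Finset.sum_le_sum hfr).trans ?_
      simp
    have h4 := norm_sub_norm_le
      (∑ m ∈ Icc 1 M, ee (∑ j ∈ Icc 1 (k + 1), γ j * (((n0 + q1 * m : ℕ) : ℝ)) ^ j))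
      (∑ m ∈ Icc 1 M, ee (∑ j ∈ Icc 1 k, γ j * ((n0 : ℝ) + q1 * m) ^ j) *
          ee (γ (k + 1) * (n0 : ℝ) ^ (k + 1)))
    have h5 : M * (κ - κ / 16) ≤
        ‖∑ m ∈ Icc 1 M, ee (∑ j ∈ Icc 1 (k + 1), γ j * (((n0 + q1 * m : ℕ) : ℝ)) ^ j)‖ := by
      refine le_trans ?_ hblock
      apply mul_le_mul_of_nonneg_left _ hM0.le
      linarith
    have h6 : 0 ≤ M * κ := by positivity
    linarith
  obtain ⟨q2, hq21, hq22, hq23⟩ := hW g1 M (κ / 2) hM1 (by positivity) (by linarith) hlow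
  have hq2F : (q2 : ℝ) ≤ F0 κ := by simp only [hF0]; linarith
  set Q : ℕ := q2 * q1 ^ k with hQ
  have hQF : (Q : ℝ) ≤ F0 κ * (F1 κ) ^ k := by
    rw [hQ]
    push_cast
    exact mul_le_mul hq2F (pow_le_pow_left₀ (Nat.cast_nonneg _) hq1F k) (by positivity)
      (by linarith)
  -- first part of the recursion
  have hfirst : ∀ i ∈ Icc 1 k, (q1 : ℝ) ^ (k - i) * nint (q2 * g1 i) * (N : ℝ) ^ i ≤ A κ := by
    intro i hi
    have h1 := hq23 i hi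
    rw [Finset.mem_Icc] at hi
    have h2 : (N : ℝ) ^ i ≤ (2 * D κ) ^ (k + 1) * (M : ℝ) ^ i := by
      calc (N : ℝ) ^ i ≤ (2 * D κ * M) ^ i := pow_le_pow_left₀ hN0.le hNM i
        _ = (2 * D κ) ^ i * (M : ℝ) ^ i := mul_pow _ _ _
        _ ≤ (2 * D κ) ^ (k + 1) * (M : ℝ) ^ i := by
            apply mul_le_mul_of_nonneg_right _ (by positivity)
            exact pow_le_pow_right₀ (by linarith) (by omega)
    have h3 : (q1 : ℝ) ^ (k - i) ≤ (F1 κ) ^ k :=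
      (pow_le_pow_left₀ (Nat.cast_nonneg _) hq1F _).trans (pow_le_pow_right₀ hF1pos (by omega))
    have h4 : nint (q2 * g1 i) * (N : ℝ) ^ i ≤ F0 κ * (2 * D κ) ^ (k + 1) := by
      calc nint (q2 * g1 i) * (N : ℝ) ^ i
          ≤ nint (q2 * g1 i) * ((2 * D κ) ^ (k + 1) * (M : ℝ) ^ i) :=
            mul_le_mul_of_nonneg_left h2 (nint_nonneg _)
        _ = (nint (q2 * g1 i) * (M : ℝ) ^ i) * (2 * D κ) ^ (k + 1) := by ring
        _ ≤ F0 κ * (2 * D κ) ^ (k + 1) := by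
            apply mul_le_mul_of_nonneg_right _ (by positivity)
            simp only [hF0]
            linarith
    calc (q1 : ℝ) ^ (k - i) * nint (q2 * g1 i) * (N : ℝ) ^ i
        = (q1 : ℝ) ^ (k - i) * (nint (q2 * g1 i) * (N : ℝ) ^ i) := by ring
      _ ≤ (F1 κ) ^ k * (F0 κ * (2 * D κ) ^ (k + 1)) := by
          apply mul_le_mul h3 h4 _ (by positivity)
          exact mul_nonneg (nint_nonneg _) (by positivity)
      _ = A κ := by simp only [hA]; ring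
  -- recursion
  have hrec : ∀ i ∈ Icc 1 k, nint (Q * γ i) * (N : ℝ) ^ i ≤ A κ +
      2 ^ k * ∑ j ∈ Icc (i + 1) k, nint (Q * γ j) * (N : ℝ) ^ j := by
    intro i hi
    have hi' := hi
    rw [Finset.mem_Icc] at hi
    have h1 : (Q : ℝ) * γ i = ((q1 ^ (k - i) : ℕ) : ℝ) * (q2 * g1 i) -
        ∑ j ∈ Icc (i + 1) k, ((j.choose i * n0 ^ (j - i) : ℕ) : ℝ) * (Q * γ j) := by
      have h2 : ((q1 ^ (k - i) : ℕ) : ℝ) * (q2 * g1 i) =
          Q * ∑ j ∈ Icc i k, (j.choose i : ℝ) * γ j * (n0 : ℝ) ^ (j - i) := by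
        simp only [hg1, hQ]
        push_cast
        have h3 : (q1 : ℝ) ^ k = (q1 : ℝ) ^ (k - i) * (q1 : ℝ) ^ i := by
          rw [← pow_add]
          congr 1
          omega
        rw [h3]
        ring
      have h4 : ∑ j ∈ Icc i k, (j.choose i : ℝ) * γ j * (n0 : ℝ) ^ (j - i) =
          γ i + ∑ j ∈ Icc (i + 1) k, (j.choose i : ℝ) * γ j * (n0 : ℝ) ^ (j - i) := by
        have h5 : Icc i k = insert i (Icc (i + 1) k) := by
          ext j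
          simp only [Finset.mem_insert, Finset.mem_Icc]
          omega
        rw [h5, Finset.sum_insert (by simp)]
        simp
      rw [h2, h4, mul_add, Finset.mul_sum]
      have h6 : ∑ j ∈ Icc (i + 1) k, (Q : ℝ) * ((j.choose i : ℝ) * γ j * (n0 : ℝ) ^ (j - i)) =
          ∑ j ∈ Icc (i + 1) k, ((j.choose i * n0 ^ (j - i) : ℕ) : ℝ) * (Q * γ j) := by
        apply Finset.sum_congr rfl
        intro j _
        push_cast
        ring
      rw [h6]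
      ring
    have h7 : nint (Q * γ i) ≤ (q1 : ℝ) ^ (k - i) * nint (q2 * g1 i) +
        ∑ j ∈ Icc (i + 1) k, ((j.choose i * n0 ^ (j - i) : ℕ) : ℝ) * nint (Q * γ j) := by
      rw [h1]
      refine (nint_sub _ _).trans ?_
      apply add_le_add
      · refine (nint_nat_mul _ _).trans (le_of_eq ?_)
        push_cast
        ring
      · refine (weyl_nint_sum _ _).trans ?_
        apply Finset.sum_le_sum
        intro j _
        exact nint_nat_mul _ _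
    calc nint (Q * γ i) * (N : ℝ) ^ i
        ≤ ((q1 : ℝ) ^ (k - i) * nint (q2 * g1 i) +
          ∑ j ∈ Icc (i + 1) k, ((j.choose i * n0 ^ (j - i) : ℕ) : ℝ) * nint (Q * γ j)) *
            (N : ℝ) ^ i := mul_le_mul_of_nonneg_right h7 (by positivity)
      _ = (q1 : ℝ) ^ (k - i) * nint (q2 * g1 i) * (N : ℝ) ^ i +
          ∑ j ∈ Icc (i + 1) k, ((j.choose i * n0 ^ (j - i) : ℕ) : ℝ) * nint (Q * γ j) *
            (N : ℝ) ^ i := by rw [add_mul, Finset.sum_mul]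
      _ ≤ A κ + 2 ^ k * ∑ j ∈ Icc (i + 1) k, nint (Q * γ j) * (N : ℝ) ^ j := by
          apply add_le_add (hfirst i hi')
          rw [Finset.mul_sum]
          apply Finset.sum_le_sum
          intro j hj
          rw [Finset.mem_Icc] at hj
          have h8 : ((j.choose i * n0 ^ (j - i) : ℕ) : ℝ) * (N : ℝ) ^ i ≤ 2 ^ k * (N : ℝ) ^ j := by
            push_cast
            have h9 : (j.choose i : ℝ) ≤ 2 ^ k := by
              have h10 : j.choose i ≤ 2 ^ j := Nat.choose_le_two_pow j i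
              have h11 : (2 : ℕ) ^ j ≤ 2 ^ k := Nat.pow_le_pow_right (by norm_num) hj.2
              exact_mod_cast h10.trans h11
            have h12 : (n0 : ℝ) ^ (j - i) * (N : ℝ) ^ i ≤ (N : ℝ) ^ j := by
              calc (n0 : ℝ) ^ (j - i) * (N : ℝ) ^ i ≤ (N : ℝ) ^ (j - i) * (N : ℝ) ^ i :=
                    mul_le_mul_of_nonneg_right
                      (pow_le_pow_left₀ (Nat.cast_nonneg _) hn0N _) (by positivity)
                _ = (N : ℝ) ^ j := by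
                    rw [← pow_add]
                    congr 1
                    omega
            calc (j.choose i : ℝ) * (n0 : ℝ) ^ (j - i) * (N : ℝ) ^ i
                = (j.choose i : ℝ) * ((n0 : ℝ) ^ (j - i) * (N : ℝ) ^ i) := by ring
              _ ≤ 2 ^ k * (N : ℝ) ^ j := mul_le_mul h9 h12 (by positivity) (by positivity)
          calc ((j.choose i * n0 ^ (j - i) : ℕ) : ℝ) * nint (Q * γ j) * (N : ℝ) ^ i
              = (((j.choose i * n0 ^ (j - i) : ℕ) : ℝ) * (N : ℝ) ^ i) * nint (Q * γ j) := by ring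
            _ ≤ (2 ^ k * (N : ℝ) ^ j) * nint (Q * γ j) :=
                mul_le_mul_of_nonneg_right h8 (nint_nonneg _)
            _ = 2 ^ k * (nint (Q * γ j) * (N : ℝ) ^ j) := by ring
  have hdown : ∀ l : ℕ, ∀ i ∈ Icc 1 k, k - i ≤ l → nint (Q * γ i) * (N : ℝ) ^ i ≤ A κ * R ^ l := by
    intro l
    induction l with
    | zero =>
      intro i hi hil
      refine (hrec i hi).trans ?_
      rw [Finset.mem_Icc] at hi
      have : Icc (i + 1) k = ∅ := by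
        apply Finset.Icc_eq_empty
        omega
      rw [this]
      simp
    | succ l ihl =>
      intro i hi hil
      refine (hrec i hi).trans ?_
      rw [Finset.mem_Icc] at hi
      have h1 : ∑ j ∈ Icc (i + 1) k, nint (Q * γ j) * (N : ℝ) ^ j ≤ k * (A κ * R ^ l) := by
        calc ∑ j ∈ Icc (i + 1) k, nint (Q * γ j) * (N : ℝ) ^ j
            ≤ ∑ _j ∈ Icc (i + 1) k, A κ * R ^ l := by
              apply Finset.sum_le_sum
              intro j hj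
              rw [Finset.mem_Icc] at hj
              apply ihl j (by rw [Finset.mem_Icc]; omega) (by omega)
          _ = ((Icc (i + 1) k).card : ℝ) * (A κ * R ^ l) := by simp
          _ ≤ k * (A κ * R ^ l) := by
              apply mul_le_mul_of_nonneg_right _ (by positivity)
              have : (Icc (i + 1) k).card ≤ k := by
                rw [Nat.card_Icc]; omega
              exact_mod_cast this
      have h2 : A κ ≤ A κ * R ^ l := le_mul_of_one_le_right hApos (one_le_pow₀ hR1)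
      calc A κ + 2 ^ k * ∑ j ∈ Icc (i + 1) k, nint (Q * γ j) * (N : ℝ) ^ j
          ≤ A κ * R ^ l + 2 ^ k * (k * (A κ * R ^ l)) :=
            add_le_add h2 (mul_le_mul_of_nonneg_left h1 (by positivity))
        _ = A κ * R ^ (l + 1) := by rw [pow_succ, hR]; ring
  refine ⟨q1 * Q, ?_, ?_, ?_⟩
  · have : 0 < q1 * Q := by rw [hQ]; positivity
    omega
  · have h1 : ((q1 * Q : ℕ) : ℝ) ≤ F1 κ * (F0 κ * (F1 κ) ^ k) := by
      push_cast
      exact mul_le_mul hq1F hQF (Nat.cast_nonneg _) (by linarith)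
    have h2 : 0 ≤ (D κ) ^ (k + 1) := by positivity
    simp only [hf]
    linarith
  · intro j hj
    rw [Finset.mem_Icc] at hj
    have h2 : 0 ≤ (D κ) ^ (k + 1) := by positivity
    rcases Nat.lt_or_ge k j with hjk | hjk
    · have hjk' : j = k + 1 := by omega
      subst hjk'
      have h3 : nint (((q1 * Q : ℕ) : ℝ) * γ (k + 1)) ≤ Q * nint (q1 * γ (k + 1)) := by
        have h4 : ((q1 * Q : ℕ) : ℝ) * γ (k + 1) = (Q : ℝ) * (q1 * γ (k + 1)) := by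
          push_cast; ring
        rw [h4]
        exact nint_nat_mul _ _
      have h5 : nint (((q1 * Q : ℕ) : ℝ) * γ (k + 1)) * (N : ℝ) ^ (k + 1) ≤
          F1 κ * (F0 κ * (F1 κ) ^ k) := by
        calc nint (((q1 * Q : ℕ) : ℝ) * γ (k + 1)) * (N : ℝ) ^ (k + 1)
            ≤ Q * nint (q1 * γ (k + 1)) * (N : ℝ) ^ (k + 1) :=
              mul_le_mul_of_nonneg_right h3 (by positivity)
          _ = (nint (q1 * γ (k + 1)) * (N : ℝ) ^ (k + 1)) * Q := by ring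
          _ ≤ F1 κ * (F0 κ * (F1 κ) ^ k) :=
              mul_le_mul hq1n hQF (Nat.cast_nonneg _) (by linarith)
      refine h5.trans ?_
      simp only [hf]
      linarith
    · have h3 : nint (((q1 * Q : ℕ) : ℝ) * γ j) ≤ q1 * nint (Q * γ j) := by
        have h4 : ((q1 * Q : ℕ) : ℝ) * γ j = (q1 : ℝ) * (Q * γ j) := by
          push_cast; ring
        rw [h4]
        exact nint_nat_mul _ _
      have h5 : nint (((q1 * Q : ℕ) : ℝ) * γ j) * (N : ℝ) ^ j ≤ F1 κ * (A κ * R ^ k) := by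
        calc nint (((q1 * Q : ℕ) : ℝ) * γ j) * (N : ℝ) ^ j
            ≤ q1 * nint (Q * γ j) * (N : ℝ) ^ j := mul_le_mul_of_nonneg_right h3 (by positivity)
          _ = q1 * (nint (Q * γ j) * (N : ℝ) ^ j) := by ring
          _ ≤ F1 κ * (A κ * R ^ k) := by
              apply mul_le_mul hq1F (hdown k j (by rw [Finset.mem_Icc]; omega) (by omega))
              · exact mul_nonneg (nint_nonneg _) (by positivity)
              · linarith
      refine h5.trans ?_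
      simp only [hf]
      linarith

theorem weyl_one : WW 1 := by
  refine ⟨fun κ => κ⁻¹ + 1, PBd.inv.add (PBd.const zero_le_one), ?_⟩
  intro γ N κ hN hκ hκ1 hS
  have hinv : 0 < κ⁻¹ := by positivity
  refine ⟨1, le_rfl, by push_cast; linarith, ?_⟩
  intro j hj
  rw [Finset.mem_Icc] at hj
  have hj1 : j = 1 := by omega
  subst hj1
  have h1 := geom_ee (γ 1) N (γ 1)
  have h2 : ∑ n ∈ Icc 1 N, ee (∑ j ∈ Icc 1 1, γ j * (n : ℝ) ^ j) =
      ∑ n ∈ range N, ee (γ 1 + γ 1 * n) := by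
    rw [Finset.range_eq_Ico, Finset.sum_Ico_eq_sum_range]
    have h3 : Icc 1 N = Ico 1 (N + 1) := by
      ext n; simp only [Finset.mem_Icc, Finset.mem_Ico]; omega
    rw [h3, Finset.sum_Ico_eq_sum_range]
    apply Finset.sum_congr (by simp)
    intro n _
    congr 1
    simp
    ring
  rw [h2] at hS
  have h4 : κ * N * nint (γ 1) ≤ 1 / 2 :=
    (mul_le_mul_of_nonneg_right hS (nint_nonneg _)).trans h1
  have h5 : nint (γ 1) * N ≤ κ⁻¹ := by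
    rw [← mul_le_mul_iff_of_pos_left hκ]
    rw [mul_inv_cancel₀ hκ.ne']
    calc κ * (nint (γ 1) * N) = κ * N * nint (γ 1) := by ring
      _ ≤ 1 := h4.trans (by norm_num)
  simp only [Nat.cast_one, one_mul, pow_one]
  linarith

theorem weyl_all (k : ℕ) : WW k := by
  induction k with
  | zero =>
    refine ⟨fun _ => 1, PBd.const zero_le_one, ?_⟩
    intro γ N κ _ _ _ _
    exact ⟨1, le_rfl, by simp, by simp⟩
  | succ k ih =>
    rcases Nat.eq_zero_or_pos k with h0 | h0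
    · subst h0
      exact weyl_one
    · exact weyl_step k h0 ih

theorem weyl_inverse (k : ℕ) : ∃ C : ℕ, 1 ≤ C ∧ ∀ (γ : ℕ → ℝ) (N : ℕ) (κ : ℝ), 1 ≤ N → 0 < κ →
    κ ≤ 1 → κ * N ≤ ‖∑ n ∈ Icc 1 N, ee (∑ j ∈ Icc 1 k, γ j * (n : ℝ) ^ j)‖ →
    ∃ q : ℕ, 1 ≤ q ∧ (q : ℝ) ≤ (C / κ) ^ C ∧
      ∀ j ∈ Icc 1 k, nint (q * γ j) * (N : ℝ) ^ j ≤ (C / κ) ^ C := by
  obtain ⟨f, ⟨C, hC, hfC⟩, h⟩ := weyl_all k
  refine ⟨C, hC, ?_⟩
  intro γ N κ hN hκ hκ1 hS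
  obtain ⟨q, hq1, hq2, hq3⟩ := h γ N κ hN hκ hκ1 hS
  have h1 := (hfC κ hκ hκ1).2
  exact ⟨q, hq1, hq2.trans h1, fun j hj => (hq3 j hj).trans h1⟩

end EK75
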